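import Pool.Agent.MP_51db15_ag.Hy.Spec

/-! Basic facts on vector fields, weights and orders of power series. -/

namespace Pool.Agent.MP_51db15_ag.Hy

open MvPowerSeries Matrix

section VF

variable {F : Type} [CommRing F] {ι : Type} [Fintype ι]

theorem vf_apply (v : ι → MvPowerSeries ι F) (g : MvPowerSeries ι F) :
    vf v g = ∑ i, v i * pderiv F i g := by
  have h := map_sum (Derivation.coeFnAddMonoidHom (R := F) (A := MvPowerSeries ι F)
    (M := MvPowerSeries ι F)) (fun i => v i • pderiv F i) Finset.univ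
  have h1 := congrFun h g
  rw [Finset.sum_apply] at h1
  exact h1

theorem vf_X (v : ι → MvPowerSeries ι F) (k : ι) : vf v (X k) = v k := by
  classical
  rw [vf_apply, Finset.sum_eq_single k]
  · rw [pderiv_X_self, mul_one]
  · intro i _ h
    rw [pderiv_X_of_ne h.symm, mul_zero]
  · simp

theorem vf_C (v : ι → MvPowerSeries ι F) (c : F) : vf v (C c) = 0 := by
  simp [vf_apply]

theorem vf_mul (v : ι → MvPowerSeries ι F) (g h : MvPowerSeries ι F) :
    vf v (g * h) = g * vf v h + vf v g * h := by
  rw [Derivation.leibniz, smul_eq_mul, smul_eq_mul, mul_comm h]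

theorem vf_add (v w : ι → MvPowerSeries ι F) (g : MvPowerSeries ι F) :
    vf (v + w) g = vf v g + vf w g := by
  simp [vf_apply, add_mul, Finset.sum_add_distrib]

theorem vf_sub (v w : ι → MvPowerSeries ι F) (g : MvPowerSeries ι F) :
    vf (v - w) g = vf v g - vf w g := by
  simp [vf_apply, sub_mul, Finset.sum_sub_distrib]

theorem vf_neg (v : ι → MvPowerSeries ι F) (g : MvPowerSeries ι F) : vf (-v) g = -vf v g := by
  simp [vf_apply]

theorem vf_zero (g : MvPowerSeries ι F) : vf (0 : ι → MvPowerSeries ι F) g = 0 := by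
  simp [vf_apply]

theorem vf_smul (s : MvPowerSeries ι F) (v : ι → MvPowerSeries ι F) (g : MvPowerSeries ι F) :
    vf (s • v) g = s * vf v g := by
  simp [vf_apply, Finset.mul_sum, mul_assoc]

theorem vf_sum {S : Type} (T : Finset S) (v : S → ι → MvPowerSeries ι F)
    (g : MvPowerSeries ι F) : vf (∑ s ∈ T, v s) g = ∑ s ∈ T, vf (v s) g := by
  simp only [vf_apply, Finset.sum_apply, Finset.sum_mul]
  exact Finset.sum_comm

theorem vf_single [DecidableEq ι] (i : ι) (s g : MvPowerSeries ι F) :
    vf (Pi.single i s) g = s * pderiv F i g := by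
  rw [vf_apply, Finset.sum_eq_single i]
  · simp
  · intro j _ h
    simp [Pi.single_eq_of_ne h]
  · simp

theorem vf_congr {f : MvPowerSeries ι F} {v w : ι → MvPowerSeries ι F} (h : ∀ k, f ∣ v k - w k)
    (g : MvPowerSeries ι F) : f ∣ vf v g - vf w g := by
  rw [← vf_sub, vf_apply]
  exact Finset.dvd_sum fun i _ => (h i).mul_right _

theorem vf_dvd {f : MvPowerSeries ι F} {v : ι → MvPowerSeries ι F} (h : f ∣ vf v f)
    {g : MvPowerSeries ι F} (hg : f ∣ g) : f ∣ vf v g := by
  obtain ⟨q, rfl⟩ := hg
  rw [vf_mul]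
  exact dvd_add (dvd_mul_right _ _) (h.mul_right _)

omit [Fintype ι] in
theorem pderiv_comm (i j : ι) (g : MvPowerSeries ι F) :
    pderiv F i (pderiv F j g) = pderiv F j (pderiv F i g) := by
  classical
  ext α
  simp only [coeff_pderiv]
  by_cases h : i = j
  · subst h; rfl
  · rw [add_right_comm α]
    simp only [Finsupp.add_apply, Finsupp.single_apply, if_neg h, if_neg (Ne.symm h), add_zero]
    ring

theorem vf_lie (v w : ι → MvPowerSeries ι F) (g : MvPowerSeries ι F) :
    vf (lie v w) g = vf v (vf w g) - vf w (vf v g) := by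
  have h : ∀ v w : ι → MvPowerSeries ι F, vf v (vf w g) =
      ∑ k, vf v (w k) * pderiv F k g + ∑ k, ∑ i, w k * v i * pderiv F i (pderiv F k g) := by
    intro v w
    rw [vf_apply w, map_sum, ← Finset.sum_add_distrib]
    refine Finset.sum_congr rfl fun k _ => ?_
    rw [vf_mul, vf_apply v (pderiv F k g), Finset.mul_sum, add_comm]
    simp [mul_assoc]
  rw [h v w, h w v, vf_apply, Finset.sum_comm (f := fun k i => v k * w i * _)]
  have : ∀ k i, v i * w k * pderiv F k (pderiv F i g) =
      w k * v i * pderiv F i (pderiv F k g) := fun k i => by rw [pderiv_comm k i]; ring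
  simp only [this, lie, sub_mul, Finset.sum_sub_distrib]
  ring

theorem pderiv_vf (v : ι → MvPowerSeries ι F) (k : ι) (g : MvPowerSeries ι F) :
    pderiv F k (vf v g) = vf v (pderiv F k g) + ∑ i, pderiv F k (v i) * pderiv F i g := by
  rw [vf_apply, vf_apply, map_sum, ← Finset.sum_add_distrib]
  refine Finset.sum_congr rfl fun i _ => ?_
  rw [Derivation.leibniz, smul_eq_mul, smul_eq_mul, pderiv_comm k i]
  ring

end VF

section Hom

variable {F : Type} [CommRing F] {ι : Type} {M : Type} [AddCommGroup M] {a : ι → M}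

open Classical in
theorem coeff_comp (e : M) (g : MvPowerSeries ι F) (α : ι →₀ ℕ) :
    coeff α (comp a e g) = if Finsupp.weight a α = e then coeff α g else 0 := rfl

theorem isHom_comp (e : M) (g : MvPowerSeries ι F) : IsHom a e (comp a e g) := by
  intro α h
  by_contra h1
  exact h (by rw [coeff_comp, if_neg h1])

theorem IsHom.coeff_eq_zero {e : M} {g : MvPowerSeries ι F} (h : IsHom a e g) {α : ι →₀ ℕ}
    (hα : Finsupp.weight a α ≠ e) : coeff α g = 0 := by
  by_contra h1
  exact hα (h α h1)

theorem IsHom.comp_self {e : M} {g : MvPowerSeries ι F} (h : IsHom a e g) : comp a e g = g := by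
  ext α
  rw [coeff_comp]
  split_ifs with h1
  · rfl
  · exact (h.coeff_eq_zero h1).symm

theorem IsHom.comp_ne {e e' : M} {g : MvPowerSeries ι F} (h : IsHom a e g) (he : e' ≠ e) :
    comp a e' g = 0 := by
  ext α
  rw [coeff_comp]
  split_ifs with h1
  · exact h.coeff_eq_zero (h1 ▸ he)
  · simp

theorem comp_add (e : M) (g h : MvPowerSeries ι F) :
    comp a e (g + h) = comp a e g + comp a e h := by
  ext α
  simp only [coeff_comp, map_add]
  split_ifs <;> simp

theorem comp_neg (e : M) (g : MvPowerSeries ι F) : comp a e (-g) = -comp a e g := by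
  ext α
  simp only [coeff_comp, map_neg]
  split_ifs <;> simp

theorem comp_sub (e : M) (g h : MvPowerSeries ι F) :
    comp a e (g - h) = comp a e g - comp a e h := by
  rw [sub_eq_add_neg, comp_add, comp_neg, sub_eq_add_neg]

theorem comp_zero (e : M) : comp a e (0 : MvPowerSeries ι F) = 0 := by
  ext α
  simp [coeff_comp]

theorem comp_sum {S : Type} (T : Finset S) (e : M) (g : S → MvPowerSeries ι F) :
    comp a e (∑ s ∈ T, g s) = ∑ s ∈ T, comp a e (g s) := by
  classical
  induction T using Finset.induction_on with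
  | empty => simp [comp_zero]
  | insert s T hs ih => rw [Finset.sum_insert hs, Finset.sum_insert hs, comp_add, ih]

theorem IsHom.comp_mul {e : M} {g : MvPowerSeries ι F} (hg : IsHom a e g) (e' : M)
    (h : MvPowerSeries ι F) : comp a (e + e') (g * h) = g * comp a e' h := by
  classical
  ext α
  rw [coeff_comp, coeff_mul, coeff_mul]
  split_ifs with h1
  · refine Finset.sum_congr rfl fun p hp => ?_
    by_cases h2 : coeff p.1 g = 0
    · simp [h2]
    · rw [coeff_comp, if_pos]
      have h3 : p.1 + p.2 = α := by simpa using hp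
      rw [← h3, map_add, hg _ h2] at h1
      exact add_left_cancel h1
  · refine (Finset.sum_eq_zero fun p hp => ?_).symm
    by_cases h2 : coeff p.1 g = 0
    · simp [h2]
    · rw [coeff_comp, if_neg, mul_zero]
      intro h4
      have h3 : p.1 + p.2 = α := by simpa using hp
      exact h1 (by rw [← h3, map_add, hg _ h2, h4])

theorem IsHom.mul {e e' : M} {g h : MvPowerSeries ι F} (hg : IsHom a e g) (hh : IsHom a e' h) :
    IsHom a (e + e') (g * h) := by
  rw [← hh.comp_self, ← hg.comp_mul]
  exact isHom_comp _ _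

theorem isHom_zero (e : M) : IsHom a e (0 : MvPowerSeries ι F) := fun α h => by simp at h

theorem IsHom.add {e : M} {g h : MvPowerSeries ι F} (hg : IsHom a e g) (hh : IsHom a e h) :
    IsHom a e (g + h) := by
  rw [← hg.comp_self, ← hh.comp_self, ← comp_add]
  exact isHom_comp _ _

theorem IsHom.neg {e : M} {g : MvPowerSeries ι F} (hg : IsHom a e g) : IsHom a e (-g) :=
  fun α h => hg α (by simpa using h)

theorem IsHom.sub {e : M} {g h : MvPowerSeries ι F} (hg : IsHom a e g) (hh : IsHom a e h) :
    IsHom a e (g - h) := by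
  rw [sub_eq_add_neg]
  exact hg.add hh.neg

theorem IsHom.sum {S : Type} {T : Finset S} {e : M} {g : S → MvPowerSeries ι F}
    (h : ∀ s ∈ T, IsHom a e (g s)) : IsHom a e (∑ s ∈ T, g s) :=
  Finset.sum_induction g (IsHom a e) (fun _ _ => IsHom.add) (isHom_zero e) h

theorem isHom_monomial (α : ι →₀ ℕ) (c : F) :
    IsHom a (Finsupp.weight a α) (monomial α c : MvPowerSeries ι F) := by
  classical
  intro β h
  rw [coeff_monomial] at h
  split_ifs at h with h1
  · rw [h1]
  · exact absurd rfl h

theorem isHom_C (c : F) : IsHom a 0 (C c : MvPowerSeries ι F) := by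
  simpa using isHom_monomial (a := a) 0 c

theorem isHom_one : IsHom a 0 (1 : MvPowerSeries ι F) := by
  simpa using isHom_C (a := a) (1 : F)

theorem isHom_X (i : ι) : IsHom a (a i) (X i : MvPowerSeries ι F) := by
  have := isHom_monomial (a := a) (Finsupp.single i 1) (1 : F)
  rwa [Finsupp.weight_single, one_smul] at this

theorem IsHom.C_mul {e : M} {g : MvPowerSeries ι F} (hg : IsHom a e g) (c : F) :
    IsHom a e (C c * g) := by
  simpa using (isHom_C c).mul hg

theorem IsHom.congr {e e' : M} {g : MvPowerSeries ι F} (hg : IsHom a e g) (h : e = e') :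
    IsHom a e' g := h ▸ hg

theorem comp_C_mul (e : M) (c : F) (g : MvPowerSeries ι F) :
    comp a e (C c * g) = C c * comp a e g := by
  simpa using (isHom_C (a := a) c).comp_mul e g

theorem pderiv_comp (e : M) (i : ι) (g : MvPowerSeries ι F) :
    pderiv F i (comp a (a i + e) g) = comp a e (pderiv F i g) := by
  ext α
  rw [coeff_pderiv, coeff_comp, coeff_comp, coeff_pderiv, map_add, Finsupp.weight_single, one_smul]
  by_cases h : Finsupp.weight a α = e
  · rw [if_pos h, if_pos (by rw [h, add_comm])]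
  · rw [if_neg h, if_neg (fun h1 => h (by rw [add_comm] at h1; exact add_left_cancel h1)),
      zero_mul]

theorem IsHom.pderiv {e : M} {g : MvPowerSeries ι F} (hg : IsHom a e g) (i : ι) :
    IsHom a (e - a i) (pderiv F i g) := by
  have := pderiv_comp (a := a) (e - a i) i g
  rw [add_sub_cancel, hg.comp_self] at this
  rw [this]
  exact isHom_comp _ _

theorem IsHom.dvd_comp {d : M} {f g : MvPowerSeries ι F} (hf : IsHom a d f) (h : f ∣ g) (e : M) :
    f ∣ comp a e g := by
  obtain ⟨q, rfl⟩ := h
  have := hf.comp_mul (e - d) q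
  rw [add_sub_cancel] at this
  rw [this]
  exact dvd_mul_right _ _

theorem comp_comm {M' : Type} [AddCommGroup M'] (c : ι → M') (e : M) (e' : M')
    (g : MvPowerSeries ι F) : comp a e (comp c e' g) = comp c e' (comp a e g) := by
  ext α
  simp only [coeff_comp]
  split_ifs <;> rfl

theorem IsHom.comp {M' : Type} [AddCommGroup M'] {e : M} {g : MvPowerSeries ι F}
    (hg : IsHom a e g) (c : ι → M') (e' : M') : IsHom a e (comp c e' g) := by
  intro α h
  rw [coeff_comp] at h
  split_ifs at h
  · exact hg α h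
  · exact absurd rfl h

/-- change of the weight group -/
theorem IsHom.map {M' : Type} [AddCommGroup M'] {e : M} {g : MvPowerSeries ι F}
    (hg : IsHom a e g) (l : M →+ M') : IsHom (fun i => l (a i)) (l e) g := by
  intro α h
  rw [← hg α h, Finsupp.weight_apply, Finsupp.weight_apply, map_finsuppSum]
  simp

/-- sum of two gradings -/
theorem IsHom.add_weight {c : ι → M} {e e' : M} {g : MvPowerSeries ι F} (hg : IsHom a e g)
    (hc : IsHom c e' g) : IsHom (fun i => a i + c i) (e + e') g := by
  intro α h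
  rw [← hg α h, ← hc α h, Finsupp.weight_apply, Finsupp.weight_apply, Finsupp.weight_apply,
    ← Finsupp.sum_add]
  simp

theorem order_le_order_comp (e : M) (g : MvPowerSeries ι F) : g.order ≤ (comp a e g).order := by
  refine le_order fun α h => ?_
  rw [coeff_comp, coeff_of_lt_order h, ite_self]

variable [Fintype ι]

theorem IsHom.vf {e e' : M} {v : ι → MvPowerSeries ι F} {g : MvPowerSeries ι F}
    (hv : ∀ i, IsHom a (a i + e) (v i)) (hg : IsHom a e' g) : IsHom a (e + e') (vf v g) := by
  rw [vf_apply]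
  exact IsHom.sum fun i _ => ((hv i).mul (hg.pderiv i)).congr (by abel)

theorem comp_vf {e : M} {v : ι → MvPowerSeries ι F} (hv : ∀ i, IsHom a (a i + e) (v i)) (e' : M)
    (g : MvPowerSeries ι F) : comp a (e + e') (vf v g) = vf v (comp a e' g) := by
  rw [vf_apply, vf_apply, comp_sum]
  refine Finset.sum_congr rfl fun i _ => ?_
  have h1 := (hv i).comp_mul (e' - a i) (pderiv F i g)
  rw [← pderiv_comp, add_sub_cancel] at h1
  rw [← h1]
  congr 1
  abel

theorem vf_comp {d : M} {f : MvPowerSeries ι F} (hf : IsHom a d f) (e : M)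
    (v : ι → MvPowerSeries ι F) :
    vf (fun i => comp a (a i + e) (v i)) f = comp a (e + d) (vf v f) := by
  rw [vf_apply, vf_apply, comp_sum]
  refine Finset.sum_congr rfl fun i _ => ?_
  rw [mul_comm, mul_comm (v i), ← (hf.pderiv i).comp_mul]
  congr 1
  abel

/-- a series is a finite sum of components up to any order -/
theorem exists_comp_approx (r : ℕ) : ∃ E : Finset M, ∀ E' : Finset M, E ⊆ E' →
    ∀ g : MvPowerSeries ι F, (r : ℕ∞) ≤ (g - ∑ e ∈ E', comp a e g).order := by
  classical
  have hfin := Finsupp.finite_of_degree_le (σ := ι) r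
  refine ⟨hfin.toFinset.image (Finsupp.weight a), fun E' hE g => nat_le_order fun α hα => ?_⟩
  have h1 : Finsupp.weight a α ∈ E' :=
    hE (Finset.mem_image_of_mem _ (hfin.mem_toFinset.2 hα.le))
  rw [map_sub, map_sum, Finset.sum_eq_single (Finsupp.weight a α)]
  · rw [coeff_comp, if_pos rfl, sub_self]
  · intro e _ he
    rw [coeff_comp, if_neg he.symm]
  · exact fun h => absurd h1 h

end Hom

theorem vf_eul {ι : Type} [Fintype ι] {a : ι → ℚ} {e : ℚ} {g : PS ι} (hg : IsHom a e g) :
    vf (eul a) g = C (e : ℂ) * g := by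
  classical
  ext α
  rw [vf_apply, map_sum, coeff_C_mul]
  have h1 : ∀ i, coeff α (eul a i * pderiv ℂ i g) = (a i : ℂ) * (α i : ℂ) * coeff α g := by
    intro i
    rw [eul, mul_assoc, coeff_C_mul, mul_assoc, X_def, coeff_monomial_mul]
    congr 1
    split_ifs with h
    · rw [one_mul, coeff_pderiv, tsub_add_cancel_of_le h]
      have h2 : 1 ≤ α i := by simpa using h
      simp only [Finsupp.coe_tsub, Pi.sub_apply, Finsupp.single_eq_same, Nat.cast_sub h2]
      push_cast
      ring
    · have h2 : α i = 0 := by simpa using h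
      simp [h2]
  simp only [h1]
  rw [← Finset.sum_mul]
  by_cases h : coeff α g = 0
  · simp [h]
  · rw [← hg α h, Finsupp.weight_apply, Finsupp.sum_fintype _ _ (by simp)]
    push_cast
    simp [mul_comm]

theorem isHom_eul {ι : Type} {M : Type} [AddCommGroup M] (c : ι → M) (a : ι → ℚ) (i : ι) :
    IsHom c (c i) (eul a i) := (isHom_X i).C_mul _

theorem constantCoeff_eul {ι : Type} (a : ι → ℚ) (i : ι) : constantCoeff (eul a i) = 0 := by
  simp [eul]

section Order

variable {F : Type} [Field F] {ι : Type}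

theorem isUnit_iff' {g : MvPowerSeries ι F} : IsUnit g ↔ constantCoeff g ≠ 0 := by
  rw [isUnit_iff_constantCoeff, isUnit_iff_ne_zero]

theorem mem_max_iff {g : MvPowerSeries ι F} :
    g ∈ IsLocalRing.maximalIdeal (MvPowerSeries ι F) ↔ constantCoeff g = 0 := by
  rw [IsLocalRing.mem_maximalIdeal, mem_nonunits_iff, isUnit_iff', not_not]

theorem Prime.constantCoeff {f : MvPowerSeries ι F} (hf : Prime f) : constantCoeff f = 0 := by
  simpa [isUnit_iff'] using hf.not_isUnit

variable [Fintype ι]

/-- a series of order at least `r + 1` is a combination of the variables -/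
theorem exists_sum_X_mul {r : ℕ} {g : MvPowerSeries ι F} (h : ((r + 1 : ℕ) : ℕ∞) ≤ g.order) :
    ∃ q : ι → MvPowerSeries ι F, (∀ i, (r : ℕ∞) ≤ (q i).order) ∧ g = ∑ i, X i * q i := by
  classical
  have hs : ∀ α : ι →₀ ℕ, α ≠ 0 → ∃ i, α i ≠ 0 := fun α hα => by
    by_contra hc
    push Not at hc
    exact hα (Finsupp.ext hc)
  choose s hs using fun (α : {α : ι →₀ ℕ // α ≠ 0}) => hs α.1 α.2
  have hne : ∀ (β : ι →₀ ℕ) (i : ι), β + Finsupp.single i 1 ≠ 0 := fun β i h0 => by
    simpa using congr($h0 i)
  let q : ι → MvPowerSeries ι F := fun i β =>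
    if s ⟨_, hne β i⟩ = i then coeff (β + Finsupp.single i 1) g else 0
  have hq : ∀ i β, coeff β (q i) =
    if s ⟨_, hne β i⟩ = i then coeff (β + Finsupp.single i 1) g else 0 := fun _ _ => rfl
  refine ⟨q, fun i => nat_le_order fun β hβ => ?_, ?_⟩
  · rw [hq, coeff_of_lt_order (lt_of_lt_of_le _ h), ite_self]
    rw [map_add, Finsupp.degree_single]
    exact_mod_cast Nat.succ_lt_succ hβ
  · ext α
    rw [map_sum]
    simp only [X_def, coeff_monomial_mul, one_mul]
    by_cases h0 : α = 0
    · subst h0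
      rw [coeff_of_lt_order (lt_of_lt_of_le (by simp) h)]
      simp
    · have h1 : Finsupp.single (s ⟨α, h0⟩) 1 ≤ α := by
        simpa [Nat.one_le_iff_ne_zero] using hs ⟨α, h0⟩
      rw [Finset.sum_eq_single (s ⟨α, h0⟩)]
      · rw [if_pos h1, hq]
        simp only [tsub_add_cancel_of_le h1, if_true]
      · intro i _ hi
        split_ifs with h2
        · rw [hq]
          simp only [tsub_add_cancel_of_le h2]
          rw [if_neg (Ne.symm hi)]
        · rfl
      · simp

theorem mem_pow_iff_order {g : MvPowerSeries ι F} {r : ℕ} :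
    g ∈ IsLocalRing.maximalIdeal (MvPowerSeries ι F) ^ r ↔ (r : ℕ∞) ≤ g.order := by
  induction r generalizing g with
  | zero => simp
  | succ r ih =>
    constructor
    · intro h
      rw [pow_succ'] at h
      refine Submodule.mul_induction_on h (fun x hx y hy => ?_) fun x y hx hy => ?_
      · refine le_trans ?_ le_order_mul
        rw [Nat.cast_succ, add_comm]
        exact add_le_add (one_le_order_iff_constCoeff_eq_zero.2 (mem_max_iff.1 hx)) (ih.1 hy)
      · exact (le_min hx hy).trans min_order_le_add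
    · intro h
      obtain ⟨q, hq, rfl⟩ := exists_sum_X_mul h
      rw [pow_succ']
      exact Ideal.sum_mem _ fun i _ => Ideal.mul_mem_mul (mem_max_iff.2 (by simp)) (ih.2 (hq i))

theorem max_eq_span : IsLocalRing.maximalIdeal (MvPowerSeries ι F) = Ideal.span (Set.range X) := by
  refine le_antisymm (fun g hg => ?_) (Ideal.span_le.2 ?_)
  · obtain ⟨q, -, rfl⟩ := exists_sum_X_mul (r := 0) (g := g)
      (by simpa using one_le_order_iff_constCoeff_eq_zero.2 (mem_max_iff.1 hg))
    exact Ideal.sum_mem _ fun i _ =>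
      Ideal.mul_mem_right _ _ (Ideal.subset_span (Set.mem_range_self i))
  · rintro _ ⟨i, rfl⟩
    exact mem_max_iff.2 (by simp)

/-- submodules of a finite free module are closed -/
theorem mem_of_approx {J : Type} [Fintype J]
    (N : Submodule (MvPowerSeries ι F) (J → MvPowerSeries ι F)) {x : J → MvPowerSeries ι F}
    (h : ∀ r : ℕ, ∃ y ∈ N, ∀ j, (r : ℕ∞) ≤ (x j - y j).order) : x ∈ N := by
  classical
  have h1 := Ideal.iInf_pow_smul_eq_bot_of_isLocalRing
    (M := (J → MvPowerSeries ι F) ⧸ N) (IsLocalRing.maximalIdeal (MvPowerSeries ι F))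
    (IsLocalRing.maximalIdeal.isMaximal _).ne_top
  rw [← Submodule.Quotient.mk_eq_zero, ← Submodule.mem_bot (MvPowerSeries ι F), ← h1,
    Submodule.mem_iInf]
  intro r
  obtain ⟨y, hy, h2⟩ := h r
  have e : x = y + ∑ j, (x j - y j) • Pi.single j 1 := by
    ext1 k
    simp [Finset.sum_apply, Pi.single_apply]
  rw [e, Submodule.Quotient.mk_add, (Submodule.Quotient.mk_eq_zero N).2 hy, zero_add,
    ← Submodule.mkQ_apply, map_sum]
  refine Submodule.sum_mem _ fun j _ => ?_
  rw [map_smul]
  exact Submodule.smul_mem_smul (mem_pow_iff_order.2 (h2 j)) trivial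

/-- ideals are closed -/
theorem mem_ideal_of_approx (I : Ideal (MvPowerSeries ι F)) {g : MvPowerSeries ι F}
    (h : ∀ r : ℕ, ∃ y ∈ I, (r : ℕ∞) ≤ (g - y).order) : g ∈ I := by
  have := mem_of_approx (J := Unit) (Submodule.comap (LinearMap.proj (φ := fun _ => MvPowerSeries ι F) ()) I) (x := fun _ => g) fun r => by
    obtain ⟨y, hy, h1⟩ := h r
    exact ⟨fun _ => y, hy, fun _ => h1⟩
  exact this

theorem dvd_of_approx {f g : MvPowerSeries ι F}
    (h : ∀ r : ℕ, ∃ y, f ∣ y ∧ (r : ℕ∞) ≤ (g - y).order) : f ∣ g :=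
  Ideal.mem_span_singleton.1 (mem_ideal_of_approx _ fun r => by
    obtain ⟨y, hy, h1⟩ := h r
    exact ⟨y, Ideal.mem_span_singleton.2 hy, h1⟩)

theorem mem_of_comp_mem {M : Type} [AddCommGroup M] {a : ι → M} (I : Ideal (MvPowerSeries ι F))
    {g : MvPowerSeries ι F} (h : ∀ e, comp a e g ∈ I) : g ∈ I :=
  mem_ideal_of_approx I fun r => by
    obtain ⟨E, hE⟩ := exists_comp_approx (F := F) (a := a) r
    exact ⟨_, Ideal.sum_mem _ fun e _ => h e, hE E le_rfl g⟩

theorem dvd_of_dvd_comp {M : Type} [AddCommGroup M] {a : ι → M} {f g : MvPowerSeries ι F}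
    (h : ∀ e, f ∣ comp a e g) : f ∣ g :=
  Ideal.mem_span_singleton.1 (mem_of_comp_mem (a := a) _ fun e => Ideal.mem_span_singleton.2 (h e))

omit [Fintype ι] in
theorem le_order_pderiv {r : ℕ} {g : MvPowerSeries ι F} (h : ((r + 1 : ℕ) : ℕ∞) ≤ g.order)
    (i : ι) : (r : ℕ∞) ≤ (pderiv F i g).order := by
  refine nat_le_order fun α hα => ?_
  rw [coeff_pderiv, coeff_of_lt_order (lt_of_lt_of_le _ h), zero_mul]
  rw [map_add, Finsupp.degree_single]
  exact_mod_cast Nat.succ_lt_succ hα

omit [Fintype ι] in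
/-- a non-zero non-unit does not divide all its partial derivatives -/
theorem exists_pderiv_not_dvd [CharZero F] {f : MvPowerSeries ι F} (h0 : f ≠ 0)
    (h1 : constantCoeff f = 0) : ∃ i, ¬ f ∣ pderiv F i f := by
  classical
  obtain ⟨α, hα, hd⟩ := exists_coeff_ne_zero_and_order (ne_zero_iff_order_finite.1 h0)
  have hα0 : α ≠ 0 := by
    rintro rfl
    exact hα (by simpa using h1)
  obtain ⟨i, hi⟩ : ∃ i, α i ≠ 0 := by
    by_contra hc
    push Not at hc
    exact hα0 (Finsupp.ext hc)
  have hle : Finsupp.single i 1 ≤ α := by simpa [Nat.one_le_iff_ne_zero] using hi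
  refine ⟨i, fun ⟨q, hq⟩ => ?_⟩
  have h2 : coeff (α - Finsupp.single i 1) (pderiv F i f) ≠ 0 := by
    rw [coeff_pderiv, tsub_add_cancel_of_le hle]
    exact mul_ne_zero hα (Nat.cast_add_one_ne_zero _)
  have h3 := order_le h2
  have h4 : f.order ≤ (pderiv F i f).order := by
    rw [hq]
    exact le_self_add.trans le_order_mul
  have h5 : Finsupp.degree α = Finsupp.degree (α - Finsupp.single i 1) + 1 := by
    conv_lhs => rw [← tsub_add_cancel_of_le hle]
    rw [map_add, Finsupp.degree_single]
  have h6 := h4.trans h3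
  rw [← hd, h5] at h6
  have : Finsupp.degree (α - Finsupp.single i 1) + 1 ≤ Finsupp.degree (α - Finsupp.single i 1) := by
    exact_mod_cast h6
  omega

end Order

/-- a diagonal entry of the adjugate is the complementary principal minor -/
theorem adjugate_diag {A ι : Type} [CommRing A] [Fintype ι] [DecidableEq ι] (M : Matrix ι ι A)
    (i : ι) : M.adjugate i i = (Matrix.of fun j k : {j // j ≠ i} => M j k).det := by
  rw [adjugate_apply, twoBlockTriangular_det _ (fun j => j ≠ i)]
  · have h1 : (toSquareBlockProp (M.updateRow i (Pi.single i 1)) fun j => ¬ j ≠ i) = 1 := by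
      ext ⟨j, hj⟩ ⟨k, hk⟩
      obtain rfl := not_not.1 hj
      obtain rfl := not_not.1 hk
      simp [toSquareBlockProp_def]
    rw [h1, det_one, mul_one]
    congr 1
    ext ⟨j, hj⟩ ⟨k, hk⟩
    simp [toSquareBlockProp_def, updateRow_ne hj]
  · intro j hj k hk
    obtain rfl := not_not.1 hj
    simp [Pi.single_eq_of_ne hk]

end Pool.Agent.MP_51db15_ag.Hy
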