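import Pool.Agent.MP_51db15_ag.Hy.Rows
import Pool.Agent.MP_51db15_ag.Hy.Base

/-! Euler fields along the singular locus and at the origin. -/

namespace Pool.Agent.MP_51db15_ag.Hy

open MvPowerSeries Matrix

namespace A12

section Alg

variable {A : Type} [CommRing A]

theorem exists_pow {I Q : Ideal A} (hQ : Q ∈ I.minimalPrimes) {a : A}
    (ha : a ∈ Q) : ∃ n : ℕ, ∃ s ∉ Q, s * a ^ n ∈ I := by
  obtain ⟨⟨h1, h2⟩, h3⟩ := hQ
  have : Q.map (algebraMap A (Localization.AtPrime Q)) ≤ (I.map (algebraMap _ _)).radical := by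
    rw [Ideal.radical_eq_sInf, le_sInf_iff]
    rintro q ⟨hq', hq⟩
    obtain ⟨k1, k2⟩ := ((IsLocalization.AtPrime.orderIsoOfPrime _ Q) ⟨q, hq⟩).2
    rw [Ideal.map_le_iff_le_comap] at hq' ⊢
    exact h3 ⟨k1, hq'⟩ k2
  obtain ⟨n, hn⟩ := this (Ideal.mem_map_of_mem _ ha)
  rw [IsLocalization.mem_map_algebraMap_iff (M := Q.primeCompl)] at hn
  obtain ⟨⟨c, b⟩, hn⟩ := hn
  rw [← map_pow, ← map_mul, IsLocalization.eq_iff_exists Q.primeCompl] at hn
  obtain ⟨t, ht⟩ := hn
  refine ⟨n, t * b, (t * b).2, ?_⟩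
  simp only at ht
  have : (t.1 * b.1) * a ^ n = t.1 * c := by rw [← ht]; ring
  rw [this]
  exact I.mul_mem_left _ c.2

/-- the saturation of an ideal at a prime -/
def sat (I Q : Ideal A) (hp : Q.IsPrime) : Ideal A where
  carrier := {g | ∃ s ∉ Q, s * g ∈ I}
  add_mem' := by
    rintro x y ⟨s, hs, hx⟩ ⟨t, ht, hy⟩
    refine ⟨s * t, fun h => (hp.mem_or_mem h).elim hs ht, ?_⟩
    have : s * t * (x + y) = t * (s * x) + s * (t * y) := by ring
    rw [this]
    exact I.add_mem (I.mul_mem_left _ hx) (I.mul_mem_left _ hy)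
  zero_mem' := ⟨1, fun h => hp.ne_top ((Ideal.eq_top_iff_one _).2 h), by simp⟩
  smul_mem' := by
    rintro c x ⟨s, hs, hx⟩
    refine ⟨s, hs, ?_⟩
    rw [smul_eq_mul, mul_left_comm]
    exact I.mul_mem_left _ hx

theorem common {I Q K : Ideal A} (hp : Q.IsPrime) (hK : K.FG)
    (h : ∀ g ∈ K, ∃ s ∉ Q, s * g ∈ I) : ∃ s ∉ Q, ∀ g ∈ K, s * g ∈ I := by
  classical
  obtain ⟨T, rfl⟩ := hK
  have h1 : ∀ T' : Finset A, (∀ g ∈ T', ∃ s ∉ Q, s * g ∈ I) → ∃ s ∉ Q, ∀ g ∈ T', s * g ∈ I := by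
    intro T'
    induction T' using Finset.induction_on with
    | empty => exact fun _ => ⟨1, fun h => hp.ne_top ((Ideal.eq_top_iff_one _).2 h), by simp⟩
    | insert a T' _ ih =>
      intro h
      obtain ⟨s, hs, h2⟩ := ih fun g hg => h g (Finset.mem_insert_of_mem hg)
      obtain ⟨t, ht, h3⟩ := h a (Finset.mem_insert_self _ _)
      refine ⟨s * t, fun h => (hp.mem_or_mem h).elim hs ht, fun g hg => ?_⟩
      rcases Finset.mem_insert.1 hg with rfl | hg
      · rw [mul_assoc]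
        exact I.mul_mem_left _ h3
      · rw [mul_comm s t, mul_assoc]
        exact I.mul_mem_left _ (h2 g hg)
  obtain ⟨s, hs, h2⟩ := h1 T fun g hg => h g (Ideal.subset_span hg)
  refine ⟨s, hs, fun g hg => ?_⟩
  induction hg using Submodule.span_induction with
  | mem x hx => exact h2 x hx
  | zero => simp
  | add x y _ _ hx hy => rw [mul_add]; exact I.add_mem hx hy
  | smul c x _ hx => rw [smul_eq_mul, mul_left_comm]; exact I.mul_mem_left _ hx

theorem exists_pow_mul [IsNoetherianRing A] {I Q : Ideal A} (hQ : Q ∈ I.minimalPrimes) :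
    ∃ r : ℕ, ∃ s ∉ Q, ∀ g ∈ Q ^ r, s * g ∈ I := by
  have hp : Q.IsPrime := hQ.1.1
  obtain ⟨r, hr⟩ := Ideal.exists_pow_le_of_le_radical_of_fg (I := Q) (J := sat I Q hp)
    (fun a ha => exists_pow hQ ha) (IsNoetherian.noetherian _)
  exact ⟨r, common hp (IsNoetherian.noetherian _) fun g hg => hr hg⟩

theorem eq_zero_of_symb [IsNoetherianRing A] [IsDomain A] {Q : Ideal A} (hp : Q.IsPrime) {f : A}
    (h : ∀ r : ℕ, ∃ s ∉ Q, s * f ∈ Q ^ r) : f = 0 := by
  let L := Localization.AtPrime Q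
  have hN : IsNoetherianRing L := IsLocalization.isNoetherianRing Q.primeCompl L inferInstance
  have h1 : algebraMap A L f ∈ ⨅ r : ℕ, IsLocalRing.maximalIdeal L ^ r := by
    refine Ideal.mem_iInf.2 fun r => ?_
    obtain ⟨s, hs, h2⟩ := h r
    have h3 := Ideal.mem_map_of_mem (algebraMap A L) h2
    rw [Ideal.map_pow, Localization.AtPrime.map_eq_maximalIdeal, map_mul] at h3
    exact (Ideal.unit_mul_mem_iff_mem _ (IsLocalization.map_units L (⟨s, hs⟩ : Q.primeCompl))).1 h3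
  rw [Ideal.iInf_pow_eq_bot_of_isLocalRing _ (IsLocalRing.maximalIdeal.isMaximal L).ne_top,
    Ideal.mem_bot] at h1
  exact (injective_iff_map_eq_zero _).1
    (IsLocalization.injective L (Ideal.primeCompl_le_nonZeroDivisors Q)) f h1

end Alg

theorem two_le_order {F σ : Type} [Field F] {G : MvPowerSeries σ F}
    (h0 : constantCoeff G = 0) (h1 : ∀ i, constantCoeff (pderiv F i G) = 0) : 2 ≤ G.order := by
  refine (nat_le_order (n := 2) fun β hβ => ?_ : ((2 : ℕ) : ℕ∞) ≤ G.order)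
  by_cases hb : β = 0
  · subst hb
    simpa using h0
  · have h2 : β.degree = 1 := by
      have : β.degree ≠ 0 := fun h => hb ((Finsupp.degree_eq_zero_iff β).1 h)
      omega
    obtain ⟨k, hk⟩ := Finsupp.ne_iff.1 hb
    have h3 : Finsupp.single k 1 ≤ β := by simpa [Nat.one_le_iff_ne_zero] using hk
    obtain ⟨γ, rfl⟩ := exists_add_of_le h3
    rw [map_add, Finsupp.degree_single] at h2
    have : γ = 0 := (Finsupp.degree_eq_zero_iff γ).1 (by omega)
    have h4 := h1 k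
    rw [← coeff_zero_eq_constantCoeff_apply, coeff_pderiv] at h4
    simpa [this] using h4

end A12

theorem a1 (nag : S_NAG) (naght : S_NAGHT) (tay : S_TAY) (rad : S_RAD) (sing : S_SING)
    (vt : S_VT) (a1a : S_A1A) (a1b : S_A1B) : S_A1 := by
  intro ι _ _ f Θ Q hH hP hE hQ hf hd h3
  obtain ⟨u, S, hN⟩ := nag ι Q hQ
  have hS : S.card = 3 := by
    have := naght ι Q u S hQ hN
    rw [h3] at this
    exact_mod_cast this.symm
  obtain ⟨J, L, _, _, _, τ, δ, hT⟩ := tay ι Q u S hQ hN hS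
  have hc : CharZero L := charZero_of_injective_algebraMap (algebraMap ℂ L).injective
  have hle : Ideal.span (Set.range fun i => pderiv ℂ i f) ≤ Q :=
    Ideal.span_le.2 (by rintro _ ⟨i, rfl⟩; exact hd i)
  have hmin : Q ∈ (Ideal.span (Set.range fun i => pderiv ℂ i f)).minimalPrimes := by
    refine ⟨⟨hQ, hle⟩, fun P hPp hPQ => ?_⟩
    have hP1 : P.IsPrime := hPp.1
    have hdP : ∀ i, pderiv ℂ i f ∈ P := fun i =>
      hPp.2 (Ideal.subset_span (Set.mem_range_self i))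
    have hfP : f ∈ P := rad ι P f 0 hP1 (Prime.constantCoeff hH.1) (by simpa using hdP)
    have h4 := sing ι f P hH hP1 hfP hdP
    by_contra hne
    have hlt : P < Q := lt_of_le_not_ge hPQ hne
    have := Ideal.height_strict_mono_of_isPrime hlt
    rw [h3] at this
    exact absurd h4 (not_le.2 this)
  have hJ := A12.exists_pow_mul hmin
  have hdom : IsDomain (PS ι) := NoZeroDivisors.to_isDomain _
  have h0 : τ f ≠ 0 := fun h => hH.1.ne_zero
    (A12.eq_zero_of_symb hQ fun r => hT.pow r f (by simp [h]))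
  have h2 : 2 ≤ (τ f).order := by
    refine A12.two_le_order ((hT.ker f).2 hf) fun i => ?_
    rw [hT.chain1, map_sum]
    exact Finset.sum_eq_zero fun k _ => by rw [map_mul, (hT.ker _).2 (hd k), zero_mul]
  exact a1b ι f Q J L τ δ hQ hJ hT
    (a1a L (τ f) h0 h2 (vt ι f Θ Q J L τ δ hH.1 hP hE hQ hJ hT))

theorem a2 (pi : S_PI) (unm : S_UNM) (nv : S_NV) (a1 : S_A1) : S_A2 := by
  intro ι _ _ f Θ hH hP hE hV
  obtain ⟨π, g, b, hD⟩ := pi ι f Θ hH hP
  have key : ∀ ξ : ι → PS ι, vf ξ f = g * ∑ i, ξ i * π i + f * ∑ i, ξ i * b i := fun ξ => by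
    rw [vf_apply, Finset.mul_sum, Finset.mul_sum, ← Finset.sum_add_distrib]
    exact Finset.sum_congr rfl fun i _ => by rw [hD.grad i]; ring
  have hf : f ∈ Ideal.span (Set.range π) := by
    refine (unm ι f Θ π g b hH hD).2 f fun Q hQ hfQ hd h3 => ?_
    obtain ⟨ξ, l, hξ, hl, he, -⟩ := a1 ι f Θ Q hH hP hE hQ hfQ hd h3
    refine ⟨l - ∑ i, ξ i * b i, fun h => hl ?_, ?_⟩
    · simpa using Q.add_mem h (Q.sum_mem (t := Finset.univ) fun i _ =>
        Q.mul_mem_right (b i) (hξ i))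
    · have : (l - ∑ i, ξ i * b i) * f = g * ∑ i, ξ i * π i := by
        linear_combination key ξ - he
      rw [this]
      exact Ideal.mul_mem_left _ _ (Ideal.sum_mem _ fun i _ =>
        Ideal.mul_mem_left _ _ (Ideal.subset_span (Set.mem_range_self i)))
  obtain ⟨c, hc⟩ := Ideal.mem_span_range_iff_exists_fun.1 hf
  have h1 : vf c f = (g + ∑ i, c i * b i) * f := by rw [key, hc]; ring
  have h2 : ∀ i, constantCoeff (c i) = 0 := nv ι f Θ hH hP hE hV c ⟨_, h1.trans (mul_comm _ _)⟩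
  have h3 : IsUnit (g + ∑ i, c i * b i) := by
    rw [isUnit_iff', map_add, map_sum]
    simpa [h2] using isUnit_iff'.1 hD.unit
  obtain ⟨w, hw⟩ := h3.exists_left_inv
  refine ⟨w • c, fun i => by simp [h2], ?_⟩
  rw [vf_smul, h1, ← mul_assoc, hw, one_mul]

end Pool.Agent.MP_51db15_ag.Hy
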