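import Pool.Agent.MP_51db15_ag.Hy.Rows

/-! Normal forms of the surface equations that pass the weight test. -/

namespace Pool.Agent.MP_51db15_ag.Hy

open MvPowerSeries

namespace A1A

variable {F : Type} [Field F]

/-- lower bound for the weighted order -/
def W {σ : Type} (w : σ → ℕ) (n : ℕ) (g : MvPowerSeries σ F) : Prop :=
  (n : ℕ∞) ≤ g.weightedOrder w

section Wt

variable {σ : Type} {w : σ → ℕ} {m n : ℕ} {g h : MvPowerSeries σ F}

theorem W.zero (g : MvPowerSeries σ F) : W w 0 g := by simp [W]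

theorem W.top (n : ℕ) : W w n (0 : MvPowerSeries σ F) := by simp [W]

theorem W.mono (hg : W w n g) (hm : m ≤ n) : W w m g := le_trans (by exact_mod_cast hm) hg

theorem W.mul (hg : W w m g) (hh : W w n h) : W w (m + n) (g * h) := by
  refine le_trans ?_ (le_weightedOrder_mul w)
  push_cast
  exact add_le_add hg hh

theorem W.add (hg : W w n g) (hh : W w n h) : W w n (g + h) :=
  le_trans (le_min hg hh) (min_weightedOrder_le_add w)

theorem W.left (g : MvPowerSeries σ F) (hh : W w n h) : W w n (g * h) := by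
  simpa using (W.zero (w := w) g).mul hh

theorem W.X (i : σ) : W w (w i) (MvPowerSeries.X i : MvPowerSeries σ F) := by
  classical
  rw [W, X_def, weightedOrder_monomial_of_ne_zero w one_ne_zero, Finsupp.weight_single, one_smul]

theorem coeff_toMv (p : PowerSeries F) (i : σ) (k : ℕ) :
    coeff (Finsupp.single i k) (p.toMvPowerSeries i) = PowerSeries.coeff k p := by
  have h := coeff_embDomain_rename (R := F) (Function.Embedding.punit i) p (Finsupp.single () k)
  rw [Finsupp.embDomain_single] at h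
  exact h

theorem W.toMv {p : PowerSeries F} (hp : (n : ℕ∞) ≤ p.order) (i : σ) (hi : 1 ≤ w i) :
    W w n (p.toMvPowerSeries i) := by
  refine nat_le_weightedOrder w fun d hd => ?_
  by_cases h : d ∈ Set.range (Finsupp.mapDomain fun _ : Unit => i)
  · obtain ⟨y, rfl⟩ := h
    rw [Finsupp.unique_single y, Finsupp.mapDomain_single] at hd ⊢
    rw [Finsupp.weight_single, smul_eq_mul] at hd
    rw [coeff_toMv]
    refine PowerSeries.coeff_of_lt_order _ (lt_of_lt_of_le ?_ hp)
    have : y default < n := lt_of_le_of_lt (Nat.le_mul_of_pos_right _ hi) hd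
    exact_mod_cast this
  · exact coeff_rename_eq_zero _ _ h

end Wt

theorem exists_toMv (g : MvPowerSeries (Fin 1) F) {n : ℕ} (hg : W (fun _ => 1) n g) :
    ∃ p : PowerSeries F, g = p.toMvPowerSeries 0 ∧ (n : ℕ∞) ≤ p.order := by
  refine ⟨PowerSeries.mk fun k => coeff (Finsupp.single 0 k) g, ?_, ?_⟩
  · ext d
    rw [Finsupp.unique_single d]
    have h := coeff_toMv (PowerSeries.mk fun k => coeff (Finsupp.single (0 : Fin 1) k) g)
      (0 : Fin 1) (d default)
    rw [PowerSeries.coeff_mk] at h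
    exact h.symm
  · refine PowerSeries.nat_le_order _ _ fun k hk => ?_
    rw [PowerSeries.coeff_mk]
    refine coeff_eq_zero_of_lt_weightedOrder (fun _ => 1) (lt_of_lt_of_le ?_ hg)
    rw [Finsupp.weight_single, smul_eq_mul, mul_one]
    exact_mod_cast hk

theorem fin_rename {n : ℕ} (g : MvPowerSeries (Fin n) F) :
    finSuccEquiv F n (rename Fin.succ g) = PowerSeries.C g := by
  ext k x
  rw [coeff_coeff_finSuccEquiv, PowerSeries.coeff_C]
  split_ifs with h
  · subst h
    have h1 := coeff_embDomain_rename (Fin.succEmb n) g x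
    have e : Finsupp.embDomain (Fin.succEmb n) x = x.cons 0 := by
      ext i
      refine Fin.cases ?_ (fun i => ?_) i
      · rw [Finsupp.cons_zero, Finsupp.embDomain_of_notMem_range]
        rintro ⟨i, hi⟩
        exact Fin.succ_ne_zero i hi
      · rw [Finsupp.cons_succ]
        exact Finsupp.embDomain_apply_self (Fin.succEmb n) x i
    rw [e] at h1
    exact h1
  · rw [coeff_rename_eq_zero, map_zero]
    rintro ⟨y, hy⟩
    have h1 := congrArg (fun z : Fin (n + 1) →₀ ℕ => z 0) hy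
    simp only [Finsupp.cons_zero] at h1
    rw [Finsupp.mapDomain_of_notMem_range] at h1
    · exact h h1.symm
    · rintro ⟨i, hi⟩
      exact Fin.succ_ne_zero i hi

theorem exists_ext {n : ℕ} (ψ : MvPowerSeries (Fin n) F ≃ₐ[F] MvPowerSeries (Fin n) F) :
    ∃ ψ' : MvPowerSeries (Fin (n + 1)) F ≃ₐ[F] MvPowerSeries (Fin (n + 1)) F,
      ψ' (X 0) = X 0 ∧ ∀ g, ψ' (rename Fin.succ g) = rename Fin.succ (ψ g) := by
  let E : PowerSeries (MvPowerSeries (Fin n) F) ≃ₐ[F] PowerSeries (MvPowerSeries (Fin n) F) :=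
    AlgEquiv.ofAlgHom
      (PowerSeries.mapAlgHom (ψ : MvPowerSeries (Fin n) F →ₐ[F] MvPowerSeries (Fin n) F))
      (PowerSeries.mapAlgHom (ψ.symm : MvPowerSeries (Fin n) F →ₐ[F] MvPowerSeries (Fin n) F))
      (AlgHom.ext fun g => PowerSeries.ext fun k => by
        simp [PowerSeries.mapAlgHom_apply, PowerSeries.coeff_map])
      (AlgHom.ext fun g => PowerSeries.ext fun k => by
        simp [PowerSeries.mapAlgHom_apply, PowerSeries.coeff_map])
  have hE : ∀ g, E (PowerSeries.C g) = PowerSeries.C (ψ g) := fun g => by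
    simp [E, PowerSeries.mapAlgHom_apply, PowerSeries.map_C]
  have hX : E PowerSeries.X = PowerSeries.X := by
    simp [E, PowerSeries.mapAlgHom_apply, PowerSeries.map_X]
  refine ⟨(finSuccEquiv F n).trans (E.trans (finSuccEquiv F n).symm), ?_, fun g => ?_⟩
  · rw [AlgEquiv.trans_apply, AlgEquiv.trans_apply, finSuccEquiv_X_zero, hX,
      ← finSuccEquiv_X_zero (R := F) (n := n), AlgEquiv.symm_apply_apply]
  · rw [AlgEquiv.trans_apply, AlgEquiv.trans_apply, fin_rename, hE, ← fin_rename,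
      AlgEquiv.symm_apply_apply]

theorem coeff_wpoly {n k : ℕ} (c : Fin k → MvPowerSeries (Fin n) F) (i : Fin k)
    (x : Fin n →₀ ℕ) : coeff (x.cons i) (wpoly c) = coeff x (c i) := by
  rw [← coeff_coeff_finSuccEquiv, wpoly]
  simp only [map_add, map_sum, map_mul, map_pow, fin_rename, finSuccEquiv_X_zero,
    PowerSeries.coeff_X_pow, PowerSeries.coeff_C_mul]
  rw [if_neg i.2.ne, map_zero, zero_add, Finset.sum_eq_single i]
  · simp
  · intro j _ hj
    rw [if_neg fun h => hj (Fin.ext h.symm), mul_zero, map_zero]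
  · simp

theorem prep (wp : S_WP) [CharZero F] {n k : ℕ} (g : MvPowerSeries (Fin (n + 1)) F)
    (hg : g.order = k) :
    ∃ (ψ : MvPowerSeries (Fin (n + 1)) F ≃ₐ[F] MvPowerSeries (Fin (n + 1)) F)
      (u : (MvPowerSeries (Fin (n + 1)) F)ˣ) (c : Fin k → MvPowerSeries (Fin n) F),
      ψ g = u * wpoly c ∧ ∀ i : Fin k, W (fun _ => 1) (k - i) (c i) := by
  obtain ⟨ψ, h1, h2⟩ := (wp F n).2.2 inferInstance g k hg
  obtain ⟨u, c, -, h3⟩ := (wp F n).1 (ψ g) k h1 fun i hi => coeff_of_lt_order (by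
    rw [h2, Finsupp.degree_single]
    exact_mod_cast hi)
  refine ⟨ψ, u, c, h3, fun i => nat_le_weightedOrder _ fun d hd => ?_⟩
  have h4 : W (fun _ => 1) k (wpoly c) := by
    have : wpoly c = (u⁻¹ : (MvPowerSeries (Fin (n + 1)) F)ˣ) * ψ g := by
      rw [h3, Units.inv_mul_cancel_left]
    rw [this]
    exact W.left _ h2.ge
  rw [← coeff_wpoly]
  refine coeff_eq_zero_of_lt_weightedOrder (fun _ => 1) (lt_of_lt_of_le ?_ h4)
  have e : Finsupp.weight (fun _ => 1) (d.cons (i : ℕ)) =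
      (i : ℕ) + Finsupp.weight (fun _ => 1) d := by
    simp [Finsupp.weight_apply, Finsupp.sum_fintype, Fin.sum_univ_succ]
  have : Finsupp.weight (fun _ => 1) (d.cons (i : ℕ)) < k := by omega
  exact_mod_cast this

theorem shift (p2 : S_P2) (p3 : S_P3) {n : ℕ} (b : MvPowerSeries (Fin n) F)
    (hb : W (fun _ => 1) 1 b) :
    ∃ ψ : MvPowerSeries (Fin (n + 1)) F ≃ₐ[F] MvPowerSeries (Fin (n + 1)) F,
      ψ (X 0) = X 0 + rename Fin.succ b ∧ ∀ g, ψ (rename Fin.succ g) = rename Fin.succ g := by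
  have hb0 : constantCoeff b = 0 := one_le_order_iff_constCoeff_eq_zero.1 hb
  obtain ⟨ψ, hψ⟩ := p2 F (Fin (n + 1))
    (Fin.cons (X 0 + rename Fin.succ b) fun j => X j.succ)
    (fun i => by
      refine Fin.cases ?_ (fun j => ?_) i
      · simp [hb0]
      · simp)
    (by
      rw [Matrix.det_of_isUpperTriangular]
      · refine Finset.prod_ne_zero_iff.2 fun i _ => ?_
        refine Fin.cases ?_ (fun j => ?_) i
        · have : coeff (Finsupp.single (0 : Fin (n + 1)) 1) (rename Fin.succ b) = 0 := by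
            rw [← Finsupp.cons_zero_eq_single_zero, ← coeff_coeff_finSuccEquiv, fin_rename,
              PowerSeries.coeff_C, if_neg one_ne_zero, map_zero]
          simp [lin, this]
        · simp [lin]
      · intro i j hij
        revert hij
        refine Fin.cases ?_ (fun i => ?_) i
        · intro h
          exact absurd h (Fin.not_lt_zero _)
        · intro h
          have : j ≠ i.succ := ne_of_lt h
          simp [lin, coeff_X, Finsupp.single_left_inj, this])
  refine ⟨ψ, by simpa using hψ 0, fun g => ?_⟩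
  have h := (p3.1 F (Fin n) (Fin (n + 1)) (rename Fin.succ)).2.2.2
    ((ψ : MvPowerSeries (Fin (n + 1)) F →ₐ[F] MvPowerSeries (Fin (n + 1)) F).comp
      (rename Fin.succ)) (fun i => by simpa using (hψ i.succ).symm)
  exact (DFunLike.congr_fun h g).symm

theorem sqr (wp : S_WP) (p2 : S_P2) (p3 : S_P3) [CharZero F] {n : ℕ}
    (g : MvPowerSeries (Fin (n + 1)) F) (hg : g.order = (2 : ℕ)) :
    ∃ (ψ : MvPowerSeries (Fin (n + 1)) F ≃ₐ[F] MvPowerSeries (Fin (n + 1)) F)
      (u : (MvPowerSeries (Fin (n + 1)) F)ˣ) (h : MvPowerSeries (Fin n) F),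
      ψ g = (u : MvPowerSeries (Fin (n + 1)) F) * (X 0 ^ 2 + rename Fin.succ h) ∧ W (fun _ => 1) 2 h := by
  obtain ⟨ψ, u, c, h1, h2⟩ := prep wp g hg
  have c0 : W (fun _ => 1) 2 (c 0) := h2 0
  have c1 : W (fun _ => 1) 1 (c 1) := h2 1
  have hb : W (fun _ => 1) 1 (C (-1 / 2 : F) * c 1) := W.left _ c1
  obtain ⟨φ, h3, h4⟩ := shift p2 p3 _ hb
  set b := C (-1 / 2 : F) * c 1 with hbd
  have e : c 1 = -2 * b := by
    rw [hbd, ← mul_assoc, show (-2 : MvPowerSeries (Fin n) F) = C (-2 : F) by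
      simp [map_ofNat], ← map_mul]
    norm_num
  refine ⟨ψ.trans φ, Units.map (φ : MvPowerSeries (Fin (n + 1)) F →* _) u, c 0 + -1 * (b * b),
    ?_, c0.add (W.left _ (hb.mul hb))⟩
  rw [AlgEquiv.trans_apply, h1, map_mul, wpoly, Fin.sum_univ_two]
  simp only [map_add, map_mul, map_pow, h3, h4, Units.coe_map, MonoidHom.coe_coe]
  rw [e]
  simp only [map_mul, map_neg, map_ofNat, map_one, Fin.val_zero, Fin.val_one]
  ring

theorem cube (wp : S_WP) (p2 : S_P2) (p3 : S_P3) [CharZero F] {n : ℕ}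
    (g : MvPowerSeries (Fin (n + 1)) F) (hg : g.order = (3 : ℕ)) :
    ∃ (ψ : MvPowerSeries (Fin (n + 1)) F ≃ₐ[F] MvPowerSeries (Fin (n + 1)) F)
      (u : (MvPowerSeries (Fin (n + 1)) F)ˣ) (p q : MvPowerSeries (Fin n) F),
      ψ g = (u : MvPowerSeries (Fin (n + 1)) F) *
        (X 0 ^ 3 + rename Fin.succ p * X 0 + rename Fin.succ q) ∧
        W (fun _ => 1) 2 p ∧ W (fun _ => 1) 3 q := by
  obtain ⟨ψ, u, c, h1, h2⟩ := prep wp g hg
  have c0 : W (fun _ => 1) 3 (c 0) := h2 0
  have c1 : W (fun _ => 1) 2 (c 1) := h2 1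
  have c2 : W (fun _ => 1) 1 (c 2) := h2 2
  have hb : W (fun _ => 1) 1 (C (-1 / 3 : F) * c 2) := W.left _ c2
  obtain ⟨φ, h3, h4⟩ := shift p2 p3 _ hb
  set b := C (-1 / 3 : F) * c 2 with hbd
  have e : c 2 = -3 * b := by
    rw [hbd, ← mul_assoc, show (-3 : MvPowerSeries (Fin n) F) = C (-3 : F) by
      simp [map_ofNat], ← map_mul]
    norm_num
  refine ⟨ψ.trans φ, Units.map (φ : MvPowerSeries (Fin (n + 1)) F →* _) u, c 1 + -3 * (b * b),
    c 0 + c 1 * b + -2 * (b * b * b), ?_, c1.add (W.left _ (hb.mul hb)),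
    (c0.add (c1.mul hb)).add (W.left _ ((hb.mul hb).mul hb))⟩
  rw [AlgEquiv.trans_apply, h1, map_mul, wpoly, Fin.sum_univ_three]
  simp only [map_add, map_mul, map_pow, h3, h4, Units.coe_map, MonoidHom.coe_coe]
  rw [e]
  simp only [map_mul, map_neg, map_ofNat, Fin.val_zero, Fin.val_one, Fin.val_two]
  ring

theorem test_tr {G G' : MvPowerSeries (Fin 3) F} (hG : Test G)
    (ψ : MvPowerSeries (Fin 3) F ≃ₐ[F] MvPowerSeries (Fin 3) F) (u : (MvPowerSeries (Fin 3) F)ˣ)
    (h : ψ G = u * G') : Test G' := by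
  intro φ v k a₁ a₂ a₃ c hk h1 h2 h3 e hc
  refine hG (ψ.trans φ) (Units.map (φ : MvPowerSeries (Fin 3) F →* _) u * v) k a₁ a₂ a₃ c
    hk h1 h2 h3 ?_ hc
  rw [AlgEquiv.trans_apply, h, map_mul, e, Units.val_mul, mul_assoc]
  rfl

theorem test_two {g : MvPowerSeries (Fin 2) F} (hG : Test (X 0 ^ 2 + rename Fin.succ g))
    (a₁ a₂ a₃ : ℕ) (h1 : 0 < a₁) (h2 : 0 < a₂) (h3 : 0 < a₃) (hg : W ![a₁, a₂] (2 * a₃) g) :
    a₃ < a₁ + a₂ := by
  have := hG AlgEquiv.refl 1 2 a₁ a₂ a₃ ![g, 0] two_pos h1 h2 h3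
    (by simp [wpoly, Fin.sum_univ_two]) (fun i => by
      fin_cases i
      · exact hg
      · exact W.top _)
  simpa using this

theorem ones : (![1, 1] : Fin 2 → ℕ) = fun _ => 1 := by
  funext i
  fin_cases i <;> rfl

end A1A

open A1A in
theorem a1a (p2 : S_P2) (p3 : S_P3) (wp : S_WP) (euinv : S_EUINV) (eua : S_EUA) (eub : S_EUB) :
    S_A1A := by
  intro F _ _ G h0 h2 hT
  have hk : G.order = (G.order.toNat : ℕ) := (ne_zero_iff_order_finite.1 h0).symm
  have k2 : G.order.toNat = 2 := by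
    obtain ⟨ψ, u, c, h1, hc⟩ := prep wp G hk
    have hle : 2 ≤ G.order.toNat := by
      rw [hk] at h2
      exact_mod_cast h2
    have := hT ψ u _ 1 1 1 c (by omega) one_pos one_pos one_pos h1 fun i => by
      rw [ones, mul_one]
      exact hc i
    omega
  rw [k2] at hk
  obtain ⟨ψ, u, g, h1, hg⟩ := sqr wp p2 p3 G hk
  refine euinv F (Fin 3) G ψ u _ h1 ?_
  have hT1 := test_tr hT ψ u h1
  have h4 : ¬ W (fun _ => 1) 4 g := fun h => by
    have := test_two hT1 1 1 2 one_pos one_pos two_pos (by rw [ones]; exact h)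
    omega
  have g0 : g ≠ 0 := fun h => h4 (h ▸ W.top 4)
  have hm : g.order = (g.order.toNat : ℕ) := (ne_zero_iff_order_finite.1 g0).symm
  have hm2 : g.order.toNat = 2 ∨ g.order.toNat = 3 := by
    have a : ((2 : ℕ) : ℕ∞) ≤ g.order := hg
    have b : ¬ ((4 : ℕ) : ℕ∞) ≤ g.order := h4
    rw [hm] at a b
    have a' : 2 ≤ g.order.toNat := by exact_mod_cast a
    have b' : ¬ 4 ≤ g.order.toNat := by exact_mod_cast b
    omega
  rcases hm2 with e | e
  · rw [e] at hm
    obtain ⟨φ, v, h, h5, hh⟩ := sqr wp p2 p3 g hm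
    obtain ⟨p, rfl, hp⟩ := exists_toMv h hh
    obtain ⟨χ, h6, h7⟩ := exists_ext φ
    refine euinv F (Fin 3) _ χ 1 _ ?_ (eua F p v ?_)
    · rw [map_add, map_pow, h6, h7, h5, Units.val_one, one_mul]
      simp only [map_mul, map_add, map_pow, rename_X, rename_toMvPowerSeries]
      rfl
    · rw [← PowerSeries.coeff_zero_eq_constantCoeff_apply]
      exact PowerSeries.coeff_of_lt_order 0 (lt_of_lt_of_le (by norm_num) hp)
  · rw [e] at hm
    obtain ⟨φ, v, p', q', h5, hp', hq'⟩ := cube wp p2 p3 g hm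
    obtain ⟨p, rfl, hp⟩ := exists_toMv p' hp'
    obtain ⟨q, rfl, hq⟩ := exists_toMv q' hq'
    obtain ⟨χ, h6, h7⟩ := exists_ext φ
    have h8 : χ (X 0 ^ 2 + rename Fin.succ g) =
        ((1 : (MvPowerSeries (Fin 3) F)ˣ) : MvPowerSeries (Fin 3) F) *
          (X 0 ^ 2 + rename Fin.succ (φ g)) := by
      rw [map_add, map_pow, h6, h7, Units.val_one, one_mul]
    have hT2 := test_tr hT1 χ 1 h8
    have hpq : p.order ≤ 3 ∨ q.order ≤ 5 := by
      by_contra hc
      rw [not_or, not_le, not_le] at hc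
      have p4 : ((4 : ℕ) : ℕ∞) ≤ p.order := Order.add_one_le_of_lt hc.1
      have q6 : ((6 : ℕ) : ℕ∞) ≤ q.order := Order.add_one_le_of_lt hc.2
      have x2 : W ![2, 1] 2 (X 0 : MvPowerSeries (Fin 2) F) := W.X (w := ![2, 1]) 0
      have := test_two hT2 2 1 3 two_pos one_pos (by norm_num) (by
        rw [h5, rename_toMvPowerSeries, rename_toMvPowerSeries, pow_three]
        exact W.left _ (((x2.mul (x2.mul x2)).add
          ((W.toMv (w := ![2, 1]) p4 1 le_rfl).mul x2)).add
          (W.toMv (w := ![2, 1]) q6 1 le_rfl)))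
      omega
    refine euinv F (Fin 3) _ χ 1 _ ?_ (eub F p q v hp hq hpq)
    rw [h8, h5]
    simp only [map_mul, map_add, map_pow, rename_X, rename_toMvPowerSeries]
    rfl

end Pool.Agent.MP_51db15_ag.Hy
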