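import Pool.Agent.MP_51db15_ag.Hy.Rows
import Pool.Agent.MP_51db15_ag.Hy.Base

/-! An Euler field of the Taylor expansion gives an Euler field along the prime. -/

namespace Pool.Agent.MP_51db15_ag.Hy

open MvPowerSeries Matrix

namespace A1B

variable {ι : Type} [Fintype ι] [DecidableEq ι]

omit [Fintype ι] [DecidableEq ι] in
theorem der_sq {Q : Ideal (PS ι)} {x : PS ι} (hx : x ∈ Q ^ 2) (k : ι) : pderiv ℂ k x ∈ Q := by
  rw [pow_two] at hx
  refine Submodule.mul_induction_on hx (fun a ha b hb => ?_) fun a b ha hb => ?_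
  · rw [Derivation.leibniz, smul_eq_mul, smul_eq_mul]
    exact Q.add_mem (Q.mul_mem_right _ ha) (Q.mul_mem_right _ hb)
  · rw [map_add]
    exact Q.add_mem ha hb

omit [DecidableEq ι] in
theorem absorb {Q : Ideal (PS ι)} {v : ι → PS ι} {r : ℕ} {s : PS ι}
    (h : ∀ g ∈ Q ^ r, s * g ∈ Ideal.span (Set.range v)) {E : PS ι} (hE : E ∈ Q ^ (2 + r)) :
    ∃ c : ι → PS ι, (∀ k, c k ∈ Q ^ 2) ∧ s * E = ∑ k, c k * v k := by
  rw [pow_add] at hE
  refine Submodule.mul_induction_on hE (fun a ha b hb => ?_) ?_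
  · obtain ⟨d, hd⟩ := Ideal.mem_span_range_iff_exists_fun.1 (h b hb)
    refine ⟨fun k => a * d k, fun k => Ideal.mul_mem_right _ _ ha, ?_⟩
    rw [mul_left_comm, ← hd, Finset.mul_sum]
    exact Finset.sum_congr rfl fun k _ => (mul_assoc _ _ _).symm
  · rintro a b ⟨c, hc, e⟩ ⟨c', hc', e'⟩
    refine ⟨fun k => c k + c' k, fun k => Ideal.add_mem _ (hc k) (hc' k), ?_⟩
    rw [mul_add, e, e', ← Finset.sum_add_distrib]
    exact Finset.sum_congr rfl fun k _ => (add_mul _ _ _).symm

variable {Q : Ideal (PS ι)} {σ J L : Type} [Fintype σ] [Fintype J] [Field L] [Algebra ℂ L]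
  {τ : PS ι →+* MvPowerSeries σ L} {δ : J → MvPowerSeries σ L →+ MvPowerSeries σ L}

/-- Approximation with a common denominator. -/
theorem common (hQ : Q.IsPrime) (hT : Tay Q τ δ) {I : Type} [Fintype I] (R : ℕ)
    (G : I → MvPowerSeries σ L) : ∃ (a : I → PS ι) (s : PS ι), s ∉ Q ∧
      ∀ i, τ (a i) - τ s * G i ∈ IsLocalRing.maximalIdeal (MvPowerSeries σ L) ^ R := by
  classical
  choose a s hs h using fun i => hT.dense R (G i)
  refine ⟨fun i => (∏ j ∈ Finset.univ.erase i, s j) * a i, ∏ j, s j, fun hm => ?_, fun i => ?_⟩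
  · obtain ⟨j, -, hj⟩ := Ideal.IsPrime.prod_mem_iff.1 hm
    exact hs j hj
  · rw [← Finset.prod_erase_mul _ _ (Finset.mem_univ i), map_mul, map_mul, mul_assoc, ← mul_sub]
    exact Ideal.mul_mem_left _ _ (mem_pow_iff_order.2 (h i))

/-- The divergence at the prime. -/
theorem diverg (hT : Tay Q τ δ) (ξ : σ → MvPowerSeries σ L) (hξ : ∀ i, constantCoeff (ξ i) = 0)
    (a : ι → PS ι) (s : PS ι)
    (h : ∀ k, τ (a k) - τ s * vf ξ (τ (X k)) ∈ IsLocalRing.maximalIdeal (MvPowerSeries σ L) ^ 2) :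
    (∀ k, constantCoeff (τ (a k)) = 0) ∧ constantCoeff (τ (∑ k, pderiv ℂ k (a k))) =
      constantCoeff (τ s) * constantCoeff (∑ i, pderiv L i (ξ i)) := by
  classical
  have hv : ∀ g, constantCoeff (vf ξ g) = 0 := fun g => by simp [vf_apply, hξ]
  have h0 : ∀ k, constantCoeff (τ (a k)) = 0 := fun k => by
    have := mem_max_iff.1 (Ideal.pow_le_self two_ne_zero (h k))
    simpa [hv] using this
  refine ⟨h0, ?_⟩
  obtain ⟨e, he⟩ := hT.det
  set M : Matrix ι ι (MvPowerSeries σ L) := Matrix.of fun a b : ι =>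
    Sum.elim (fun i => pderiv L i (τ (X b))) (fun j => δ j (τ (X b))) (e a) with hM
  let M₀ : Matrix ι ι L := M.map constantCoeff
  have hM₀ : IsUnit M₀ := by
    rw [isUnit_iff_isUnit_det]
    have := he.map (constantCoeff (σ := σ) (R := L))
    rwa [RingHom.map_det] at this
  let A : Matrix ι ι L := Matrix.of fun k b => constantCoeff (τ (pderiv ℂ k (a b)))
  let H₀ : σ ⊕ J → σ ⊕ J → L := Sum.elim
    (fun i => Sum.elim (fun m => constantCoeff (τ s) * constantCoeff (pderiv L i (ξ m))) 0) 0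
  let H : Matrix ι ι L := Matrix.of fun x y => H₀ (e x) (e y)
  have key : M₀ * A = H * M₀ := by
    ext x b
    rw [Matrix.mul_apply, Matrix.mul_apply, ← e.symm.sum_comp fun y => H x y * M₀ y b]
    simp only [M₀, A, H, hM, map_apply, of_apply, Equiv.apply_symm_apply, Fintype.sum_sum_type]
    rcases e x with i | j
    · have h1 := congrArg constantCoeff (hT.chain1 i (a b))
      have h2 : constantCoeff (pderiv L i (τ (a b) - τ s * vf ξ (τ (X b)))) = 0 :=
        one_le_order_iff_constCoeff_eq_zero.1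
          (by simpa using le_order_pderiv (r := 1) (mem_pow_iff_order.1 (h b)) i)
      rw [map_sub, map_sub, sub_eq_zero, Derivation.leibniz, pderiv_vf] at h2
      simp only [smul_eq_mul, map_add, map_mul, hv, zero_mul, add_zero, zero_add, map_sum] at h1 h2
      simp only [H₀, Sum.elim_inl, Sum.elim_inr, Pi.zero_apply, zero_mul, Finset.sum_const_zero,
        add_zero, mul_assoc, ← Finset.mul_sum]
      rw [← h2, h1]
      exact Finset.sum_congr rfl fun k _ => mul_comm _ _
    · have h1 := congrArg constantCoeff (hT.chain2 j (a b))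
      rw [hT.mx j _ (h0 b)] at h1
      simp only [map_sum, map_mul] at h1
      simp only [H₀, Sum.elim_inl, Sum.elim_inr, Pi.zero_apply, zero_mul, Finset.sum_const_zero,
        add_zero]
      rw [h1]
      exact Finset.sum_congr rfl fun k _ => mul_comm _ _
  have htr : trace A = trace H := by
    have hd := (isUnit_iff_isUnit_det _).1 hM₀
    rw [← trace_conj hM₀ A, key, Matrix.mul_assoc, mul_nonsing_inv _ hd, Matrix.mul_one]
  have hA : trace A = constantCoeff (τ (∑ k, pderiv ℂ k (a k))) := by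
    simp [trace, A, map_sum]
  have hH : trace H = constantCoeff (τ s) * constantCoeff (∑ i, pderiv L i (ξ i)) := by
    have : trace H = ∑ y, H₀ y y := e.sum_comp fun y => H₀ y y
    rw [this, Fintype.sum_sum_type]
    simp [H₀, map_sum, Finset.mul_sum]
  rw [← hA, htr, hH]

end A1B

theorem a1b : S_A1B := by
  intro ι _ _ f Q J L _ _ _ τ δ hQ ⟨r, s₀, hs₀, hr⟩ hT ⟨ξ, l, hξ, hl, hE, hd⟩
  obtain ⟨a', s, hs, ha'⟩ := A1B.common hQ hT (2 + r)
    (fun o : Option ι => o.elim l fun k => vf ξ (τ (X k)))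
  set a : ι → PS ι := fun k => a' (some k) with hadef
  have ha : ∀ k, τ (a k) - τ s * vf ξ (τ (X k)) ∈ _ := fun k => ha' (some k)
  have hb : τ (a' none) - τ s * l ∈ _ := ha' none
  obtain ⟨h0, hdiv⟩ := A1B.diverg hT ξ hξ a s
    fun k => Ideal.pow_le_pow_right (Nat.le_add_right 2 r) (ha k)
  have hchain : ∑ k, vf ξ (τ (X k)) * τ (pderiv ℂ k f) = l * τ f := by
    rw [← hE, vf_apply ξ (τ f)]
    simp only [vf_apply, hT.chain1 _ f, Finset.sum_mul, Finset.mul_sum]
    rw [Finset.sum_comm]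
    exact Finset.sum_congr rfl fun i _ => Finset.sum_congr rfl fun k _ => by ring
  have hE1 : τ (vf a f - a' none * f) ∈
      IsLocalRing.maximalIdeal (MvPowerSeries (Fin 3) L) ^ (2 + r) := by
    have e : τ (vf a f - a' none * f) =
        ∑ k, (τ (a k) - τ s * vf ξ (τ (X k))) * τ (pderiv ℂ k f) -
          (τ (a' none) - τ s * l) * τ f := by
      simp only [sub_mul, Finset.sum_sub_distrib, mul_assoc, ← Finset.mul_sum, hchain]
      rw [map_sub, map_mul, vf_apply, map_sum]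
      simp only [map_mul]
      ring
    rw [e]
    exact Ideal.sub_mem _ (Ideal.sum_mem _ fun k _ => Ideal.mul_mem_right _ _ (ha k))
      (Ideal.mul_mem_right _ _ hb)
  obtain ⟨s₁, hs₁, h1⟩ := hT.pow _ _ (mem_pow_iff_order.1 hE1)
  obtain ⟨c, hc, hc'⟩ := A1B.absorb hr h1
  have hmul : ∀ {a b : PS ι}, a ∉ Q → b ∉ Q → a * b ∉ Q := fun ha hb h =>
    (hQ.mem_or_mem h).elim ha hb
  have haQ : ∀ k, a k ∈ Q := fun k => (hT.ker _).1 (h0 k)
  have hs' : constantCoeff (τ s) ≠ 0 := fun h => hs ((hT.ker _).1 h)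
  have hb0 : constantCoeff (τ (a' none)) = constantCoeff (τ s) * constantCoeff l := by
    have := mem_max_iff.1 (Ideal.pow_le_self (by omega) hb)
    rwa [map_sub, map_mul, sub_eq_zero] at this
  refine ⟨fun k => s₀ * s₁ * a k - c k, s₀ * s₁ * a' none, fun k => ?_, ?_, ?_, fun hm => ?_⟩
  · exact Q.sub_mem (Q.mul_mem_left _ (haQ k)) (Ideal.pow_le_self two_ne_zero (hc k))
  · refine hmul (hmul hs₀ hs₁) fun h => ?_
    have := (hT.ker _).2 h
    rw [hb0] at this
    exact mul_ne_zero hs' (isUnit_iff'.1 hl) this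
  · rw [vf_apply] at hc' ⊢
    simp only [sub_mul, Finset.sum_sub_distrib, mul_assoc, ← Finset.mul_sum, ← hc']
    ring
  · have e : s₀ * s₁ * (∑ k, pderiv ℂ k (a k) - a' none) =
        (∑ k, pderiv ℂ k (s₀ * s₁ * a k - c k) - s₀ * s₁ * a' none) -
          ∑ k, a k * pderiv ℂ k (s₀ * s₁) + ∑ k, pderiv ℂ k (c k) := by
      simp only [map_sub, Derivation.leibniz _ (s₀ * s₁), smul_eq_mul, Finset.sum_sub_distrib,
        Finset.sum_add_distrib, ← Finset.mul_sum]
      ring
    have hm' : s₀ * s₁ * (∑ k, pderiv ℂ k (a k) - a' none) ∈ Q := by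
      rw [e]
      exact Q.add_mem (Q.sub_mem hm (Q.sum_mem fun k _ => Q.mul_mem_right _ (haQ k)))
        (Q.sum_mem fun k _ => A1B.der_sq (hc k) k)
    refine hmul (hmul hs₀ hs₁) (fun h => ?_) hm'
    have := (hT.ker _).2 h
    rw [map_sub, map_sub, hdiv, hb0, ← mul_sub, ← map_sub] at this
    exact mul_ne_zero hs' hd this

end Pool.Agent.MP_51db15_ag.Hy
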