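import Pool.Agent.MP_51db15_ag.Hy.Rows
import Pool.Agent.MP_51db15_ag.Hy.Base

/-! Homogeneous generators of the tangent fields and homogeneous components of a two-form. -/

namespace Pool.Agent.MP_51db15_ag.Hy

open MvPowerSeries Matrix

namespace A4A

variable {ι : Type} [Fintype ι] {f : PS ι} {a : ι → ℚ} {d : ℚ}

theorem log_add {x y : ι → PS ι} (hx : Log f x) (hy : Log f y) : Log f (x + y) := by
  unfold Log; rw [vf_add]; exact dvd_add hx hy

theorem log_smul (g : PS ι) {x : ι → PS ι} (hx : Log f x) : Log f (g • x) := by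
  unfold Log; rw [vf_smul]; exact Dvd.dvd.mul_left hx g

theorem log_zero : Log f (0 : ι → PS ι) := by
  unfold Log; rw [vf_zero]; exact dvd_zero _

theorem log_sum {S : Type} (T : Finset S) (g : S → PS ι) {v : S → ι → PS ι}
    (hv : ∀ s, Log f (v s)) : Log f (∑ s ∈ T, g s • v s) :=
  Finset.sum_induction _ (Log f) (fun _ _ => log_add) log_zero fun s _ => log_smul _ (hv s)

theorem log_lie {x y : ι → PS ι} (hx : Log f x) (hy : Log f y) : Log f (lie x y) := by
  unfold Log; rw [vf_lie]; exact dvd_sub (vf_dvd hx hy) (vf_dvd hy hx)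

theorem lie_add (x x' y : ι → PS ι) : lie (x + x') y = lie x y + lie x' y := by
  funext k
  simp only [lie, vf_add, Pi.add_apply, map_add]
  ring

theorem lie_smul (g : PS ι) (x y : ι → PS ι) :
    lie (g • x) y = g • lie x y + (-vf y g) • x := by
  funext k
  simp only [lie, vf_smul, Pi.add_apply, Pi.smul_apply, smul_eq_mul, vf_mul]
  ring

theorem lie_swap (x y : ι → PS ι) : lie y x = (-1 : PS ι) • lie x y := by
  funext k
  simp only [lie, Pi.smul_apply, smul_eq_mul]
  ring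

theorem hom_lie {x y : ι → PS ι} {e₁ e₂ : ℚ} (hx : HomV a e₁ x) (hy : HomV a e₂ y) :
    HomV a (e₁ + e₂) (lie x y) := fun k =>
  ((IsHom.vf hx (hy k)).congr (by ring)).sub ((IsHom.vf hy (hx k)).congr (by ring))

variable {r : (ι → PS ι) → (ι → PS ι) → PS ι}

theorem form_zero (h : IsForm f r) {y : ι → PS ι} (hy : Log f y) : f ∣ r 0 y := by
  simpa using h.smul 0 0 y log_zero hy

theorem form_sum (h : IsForm f r) {S : Type} (T : Finset S) (g : S → PS ι) {v : S → ι → PS ι}
    (hv : ∀ s, Log f (v s)) {y : ι → PS ι} (hy : Log f y) :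
    f ∣ r (∑ s ∈ T, g s • v s) y - ∑ s ∈ T, g s * r (v s) y := by
  classical
  induction T using Finset.induction_on with
  | empty => simpa using form_zero h hy
  | insert s T hs ih =>
    rw [Finset.sum_insert hs, Finset.sum_insert hs]
    obtain ⟨q1, h1⟩ := h.add _ _ y (log_smul (g s) (hv s)) (log_sum T g hv) hy
    obtain ⟨q2, h2⟩ := h.smul (g s) _ y (hv s) hy
    obtain ⟨q3, h3⟩ := ih
    exact ⟨q1 + q2 + q3, by linear_combination h1 + h2 + h3⟩

theorem form_add2 (h : IsForm f r) {x y y' : ι → PS ι} (hx : Log f x) (hy : Log f y)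
    (hy' : Log f y') : f ∣ r x (y + y') - r x y - r x y' := by
  obtain ⟨q1, h1⟩ := h.add y y' x hy hy' hx
  obtain ⟨q2, h2⟩ := h.skew x _ hx (log_add hy hy')
  obtain ⟨q3, h3⟩ := h.skew x y hx hy
  obtain ⟨q4, h4⟩ := h.skew x y' hx hy'
  exact ⟨q2 - q1 - q3 - q4, by linear_combination h2 - h1 - h3 - h4⟩

theorem form_smul2 (h : IsForm f r) (g : PS ι) {x y : ι → PS ι} (hx : Log f x) (hy : Log f y) :
    f ∣ r x (g • y) - g * r x y := by
  obtain ⟨q1, h1⟩ := h.smul g y x hy hx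
  obtain ⟨q2, h2⟩ := h.skew x _ hx (log_smul g hy)
  obtain ⟨q3, h3⟩ := h.skew x y hx hy
  exact ⟨q2 - q1 - g * q3, by linear_combination h2 - h1 - g * h3⟩

theorem form_sum2 (h : IsForm f r) {S : Type} [Fintype S] (g g' : S → PS ι) {v : S → ι → PS ι}
    (hv : ∀ s, Log f (v s)) :
    f ∣ r (∑ s, g s • v s) (∑ s, g' s • v s) - ∑ s, ∑ t, g s * g' t * r (v s) (v t) := by
  have hy := log_sum Finset.univ g' hv
  have h2 : f ∣ ∑ s, g s * r (v s) (∑ s, g' s • v s) - ∑ s, ∑ t, g s * g' t * r (v s) (v t) := by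
    rw [← Finset.sum_sub_distrib]
    refine Finset.dvd_sum fun s _ => ?_
    obtain ⟨q1, h1⟩ := form_sum h Finset.univ g' hv (hv s)
    obtain ⟨q2, h2⟩ := h.skew (v s) _ (hv s) hy
    obtain ⟨q3, h3⟩ : f ∣ ∑ t, g' t * (r (v s) (v t) + r (v t) (v s)) :=
      Finset.dvd_sum fun t _ => Dvd.dvd.mul_left (h.skew _ _ (hv s) (hv t)) _
    simp only [mul_add, Finset.sum_add_distrib] at h3
    have h4 : ∑ t, g s * g' t * r (v s) (v t) = g s * ∑ t, g' t * r (v s) (v t) := by
      rw [Finset.mul_sum]; exact Finset.sum_congr rfl fun t _ => mul_assoc _ _ _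
    rw [h4]
    exact ⟨g s * (q2 - q1 - q3), by linear_combination g s * (h2 - h1 - h3)⟩
  obtain ⟨q1, h1⟩ := form_sum h Finset.univ g hv hy
  obtain ⟨q2, h2⟩ := h2
  exact ⟨q1 + q2, by linear_combination h1 + h2⟩

/-- the Cartan expression -/
noncomputable def car (r : (ι → PS ι) → (ι → PS ι) → PS ι) (x y z : ι → PS ι) : PS ι :=
  vf x (r y z) - vf y (r x z) + vf z (r x y) - r (lie x y) z + r (lie x z) y - r (lie y z) x

theorem car_add (h : IsForm f r) {x x' y z : ι → PS ι} (hx : Log f x) (hx' : Log f x')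
    (hy : Log f y) (hz : Log f z) : f ∣ car r (x + x') y z - car r x y z - car r x' y z := by
  obtain ⟨q1, h1⟩ := vf_dvd hy (h.add x x' z hx hx' hz)
  obtain ⟨q2, h2⟩ := vf_dvd hz (h.add x x' y hx hx' hy)
  obtain ⟨q3, h3⟩ := h.add _ _ z (log_lie hx hy) (log_lie hx' hy) hz
  obtain ⟨q4, h4⟩ := h.add _ _ y (log_lie hx hz) (log_lie hx' hz) hy
  obtain ⟨q5, h5⟩ := form_add2 h (log_lie hy hz) hx hx'
  simp only [map_sub] at h1 h2
  simp only [car, lie_add, vf_add]
  exact ⟨-q1 + q2 - q3 + q4 - q5, by linear_combination -h1 + h2 - h3 + h4 - h5⟩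

theorem car_smul (h : IsForm f r) (g : PS ι) {x y z : ι → PS ι} (hx : Log f x)
    (hy : Log f y) (hz : Log f z) : f ∣ car r (g • x) y z - g * car r x y z := by
  obtain ⟨q1, h1⟩ := vf_dvd hy (h.smul g x z hx hz)
  obtain ⟨q2, h2⟩ := vf_dvd hz (h.smul g x y hx hy)
  obtain ⟨q3, h3⟩ := h.add _ _ z (log_smul g (log_lie hx hy)) (log_smul (-vf y g) hx) hz
  obtain ⟨q4, h4⟩ := h.add _ _ y (log_smul g (log_lie hx hz)) (log_smul (-vf z g) hx) hy
  obtain ⟨q5, h5⟩ := form_smul2 h g (log_lie hy hz) hx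
  obtain ⟨q6, h6⟩ := h.smul g _ z (log_lie hx hy) hz
  obtain ⟨q7, h7⟩ := h.smul (-vf y g) x z hx hz
  obtain ⟨q8, h8⟩ := h.smul g _ y (log_lie hx hz) hy
  obtain ⟨q9, h9⟩ := h.smul (-vf z g) x y hx hy
  simp only [map_sub, vf_mul] at h1 h2
  simp only [car, lie_smul, vf_smul]
  exact ⟨-q1 + q2 - q3 + q4 - q5 - q6 - q7 + q8 + q9,
    by linear_combination -h1 + h2 - h3 + h4 - h5 - h6 - h7 + h8 + h9⟩

theorem car_sw12 (h : IsForm f r) {x y z : ι → PS ι} (hx : Log f x) (hy : Log f y)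
    (hz : Log f z) (hc : f ∣ car r x y z) : f ∣ car r y x z := by
  obtain ⟨q0, h0⟩ := hc
  obtain ⟨q1, h1⟩ := vf_dvd hz (h.skew x y hx hy)
  obtain ⟨q2, h2⟩ := h.smul (-1) _ z (log_lie hx hy) hz
  simp only [map_add] at h1
  simp only [car] at h0 ⊢
  rw [lie_swap x y]
  exact ⟨q1 - q2 - q0, by linear_combination h1 - h2 - h0⟩

theorem car_sw23 (h : IsForm f r) {x y z : ι → PS ι} (hx : Log f x) (hy : Log f y)
    (hz : Log f z) (hc : f ∣ car r x y z) : f ∣ car r x z y := by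
  obtain ⟨q0, h0⟩ := hc
  obtain ⟨q1, h1⟩ := vf_dvd hx (h.skew y z hy hz)
  obtain ⟨q2, h2⟩ := h.smul (-1) _ x (log_lie hy hz) hx
  simp only [map_add] at h1
  simp only [car] at h0 ⊢
  rw [lie_swap y z]
  exact ⟨q1 - q2 - q0, by linear_combination h1 - h2 - h0⟩

theorem car_sum (h : IsForm f r) {S : Type} [Fintype S] (g : S → PS ι) {v : S → ι → PS ι}
    (hv : ∀ s, Log f (v s)) {y z : ι → PS ι} (hy : Log f y) (hz : Log f z)
    (hc : ∀ s, f ∣ car r (v s) y z) : f ∣ car r (∑ s, g s • v s) y z := by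
  refine (Finset.sum_induction _ (fun x => Log f x ∧ f ∣ car r x y z) ?_ ⟨log_zero, ?_⟩
    fun s _ => ⟨log_smul _ (hv s), ?_⟩).2
  · rintro x x' ⟨a1, q1, h1⟩ ⟨a2, q2, h2⟩
    obtain ⟨q3, h3⟩ := car_add h a1 a2 hy hz
    exact ⟨log_add a1 a2, q1 + q2 + q3, by linear_combination h1 + h2 + h3⟩
  · simpa using car_smul h 0 log_zero hy hz
  · obtain ⟨q1, h1⟩ := car_smul h (g s) (hv s) hy hz
    obtain ⟨q2, h2⟩ := hc s
    exact ⟨q1 + g s * q2, by linear_combination h1 + g s * h2⟩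

theorem car_hom (hf : IsHom a d f) (hc : Closed f r) {η : (ι → PS ι) → (ι → PS ι) → PS ι} {e : ℚ}
    (hη : IsComp f a e r η) {x y z : ι → PS ι} {e₁ e₂ e₃ : ℚ} (hx : Log f x) (hy : Log f y)
    (hz : Log f z) (ax : HomV a e₁ x) (ay : HomV a e₂ y) (az : HomV a e₃ z) :
    f ∣ car η x y z := by
  obtain ⟨q0, h0⟩ := hf.dvd_comp (hc x y z hx hy hz) (e₁ + e₂ + e₃ + e)
  obtain ⟨q1, h1⟩ := vf_dvd hx (hη y z _ _ hy hz ay az)
  obtain ⟨q2, h2⟩ := vf_dvd hy (hη x z _ _ hx hz ax az)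
  obtain ⟨q3, h3⟩ := vf_dvd hz (hη x y _ _ hx hy ax ay)
  obtain ⟨q4, h4⟩ := hη _ z _ _ (log_lie hx hy) hz (hom_lie ax ay) az
  obtain ⟨q5, h5⟩ := hη _ y _ _ (log_lie hx hz) hy (hom_lie ax az) ay
  obtain ⟨q6, h6⟩ := hη _ x _ _ (log_lie hy hz) hx (hom_lie ay az) ax
  rw [map_sub, ← comp_vf ax, show e₁ + (e₂ + e₃ + e) = e₁ + e₂ + e₃ + e by ring] at h1
  rw [map_sub, ← comp_vf ay, show e₂ + (e₁ + e₃ + e) = e₁ + e₂ + e₃ + e by ring] at h2
  rw [map_sub, ← comp_vf az, show e₃ + (e₁ + e₂ + e) = e₁ + e₂ + e₃ + e by ring] at h3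
  rw [show e₁ + e₃ + e₂ + e = e₁ + e₂ + e₃ + e by ring] at h5
  rw [show e₂ + e₃ + e₁ + e = e₁ + e₂ + e₃ + e by ring] at h6
  simp only [comp_sub, comp_add] at h0
  simp only [car]
  exact ⟨q0 + q1 - q2 + q3 - q4 + q5 - q6,
    by linear_combination h0 + h1 - h2 + h3 - h4 + h5 - h6⟩

omit [Fintype ι] in
/-- a component of a combination of homogeneous fields -/
theorem comp_comb {S : Type} [Fintype S] (g : S → PS ι) {v : S → ι → PS ι} {es : S → ℚ}
    (hv : ∀ s, HomV a (es s) (v s)) (c : ℚ) (k : ι) :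
    (∑ s, comp a (c - es s) (g s) • v s) k = comp a (a k + c) ((∑ s, g s • v s) k) := by
  simp only [Finset.sum_apply, Pi.smul_apply, smul_eq_mul, comp_sum]
  refine Finset.sum_congr rfl fun s _ => ?_
  rw [mul_comm, mul_comm (g s), ← (hv s k).comp_mul]
  congr 1
  ring

/-- relations between the generators are respected by the components of the form -/
theorem rel (hf : IsHom a d f) (h : IsForm f r) {S : Type} [Fintype S] {v : S → ι → PS ι}
    {es : S → ℚ} (hl : ∀ s, Log f (v s)) (hv : ∀ s, HomV a (es s) (v s)) (e : ℚ) (g : S → PS ι)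
    (hg : ∀ k, f ∣ (∑ s, g s • v s) k) (t : S) :
    f ∣ ∑ s, g s * comp a (es s + es t + e) (r (v s) (v t)) := by
  refine dvd_of_dvd_comp (a := a) fun e' => ?_
  have h1 := h.cong _ 0 (v t) (log_sum Finset.univ (fun s => comp a (e' - es t - e - es s) (g s)) hl)
    log_zero (hl t) fun k => by
      rw [Pi.zero_apply, sub_zero, comp_comb g hv]
      exact hf.dvd_comp (hg k) _
  have h2 := form_sum h Finset.univ (fun s => comp a (e' - es t - e - es s) (g s)) hl (hl t)
  have h3 : f ∣ ∑ s, comp a (e' - es t - e - es s) (g s) * r (v s) (v t) := by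
    obtain ⟨q1, h1⟩ := h1
    obtain ⟨q2, h2⟩ := h2
    obtain ⟨q3, h3⟩ := form_zero h (hl t)
    exact ⟨q1 + q3 - q2, by linear_combination h1 + h3 - h2⟩
  have h4 := hf.dvd_comp h3 e'
  rw [comp_sum] at h4 ⊢
  refine dvd_trans h4 (dvd_of_eq (Finset.sum_congr rfl fun s _ => ?_))
  have a1 := (isHom_comp (a := a) (e' - es t - e - es s) (g s)).comp_mul (es s + es t + e)
    (r (v s) (v t))
  have a2 := (isHom_comp (a := a) (es s + es t + e) (r (v s) (v t))).comp_mul
    (e' - es t - e - es s) (g s)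
  rw [show e' - es t - e - es s + (es s + es t + e) = e' by ring] at a1
  rw [show es s + es t + e + (e' - es t - e - es s) = e' by ring] at a2
  rw [a1, mul_comm (g s), a2, mul_comm]

end A4A

open A4A

theorem gens : S_GENS := by
  intro ι _ _ f a d hf
  classical
  obtain ⟨T, hT, hs⟩ := (Submodule.fg_span_iff_fg_span_finset_subset
    {v : ι → PS ι | Log f v ∧ ∃ e, HomV a e v}).1
    (IsNoetherian.noetherian (Submodule.span (PS ι) _))
  choose e he using fun s : T => (hT s.2).2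
  refine ⟨T, inferInstance, fun s => s.1, e, fun s => ⟨(hT s.2).1, he s⟩, fun x hx => ?_⟩
  have hm : x ∈ Submodule.span (PS ι) {v : ι → PS ι | Log f v ∧ ∃ e, HomV a e v} := by
    refine mem_of_approx _ fun n => ?_
    obtain ⟨E, hE⟩ := exists_comp_approx (F := ℂ) (a := a) n
    refine ⟨∑ c ∈ Finset.univ.biUnion fun j => E.image fun c => c - a j,
      fun i => comp a (a i + c) (x i), Submodule.sum_mem _ fun c _ => Submodule.subset_span
        ⟨?_, c, fun i => isHom_comp _ _⟩, fun j => ?_⟩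
    · unfold Log
      rw [vf_comp hf]
      exact hf.dvd_comp hx _
    · have := hE ((Finset.univ.biUnion fun j => E.image fun c => c - a j).image fun c => a j + c)
        (fun c hc => Finset.mem_image.2 ⟨c - a j, Finset.mem_biUnion.2
          ⟨j, Finset.mem_univ _, Finset.mem_image_of_mem _ hc⟩, by ring⟩) (x j)
      rw [Finset.sum_image fun c _ c' _ h => add_left_cancel h] at this
      rwa [Finset.sum_apply]
  rw [hs, ← Subtype.range_coe (s := (T : Set (ι → PS ι))),
    Submodule.mem_span_range_iff_exists_fun] at hm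
  obtain ⟨g, hg⟩ := hm
  exact ⟨g, hg.symm⟩

theorem a4a : S_A4A := by
  intro ι _ _ f a d r hf h hc e
  obtain ⟨S, _, v, es, hv, hG⟩ := gens ι f a d hf
  choose! G hG using hG
  have hl := fun s => (hv s).1
  have hh := fun s => (hv s).2
  let B : (S → PS ι) → (S → PS ι) → PS ι := fun g g' =>
    ∑ s, ∑ t, g s * g' t * comp a (es s + es t + e) (r (v s) (v t))
  have B0 : ∀ g g', (∀ k, f ∣ (∑ s, g s • v s) k) → f ∣ B g g' := fun g g' hg => by
    simp only [B]
    rw [Finset.sum_comm]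
    refine Finset.dvd_sum fun t _ => ?_
    have := Dvd.dvd.mul_left (rel hf h hl hh e g hg t) (g' t)
    rw [Finset.mul_sum] at this
    refine dvd_trans this (dvd_of_eq (Finset.sum_congr rfl fun s _ => ?_))
    ring
  have Bsk : ∀ g g', f ∣ B g g' + B g' g := fun g g' => by
    simp only [B]
    rw [Finset.sum_comm (f := fun s t => g' s * g t * _), ← Finset.sum_add_distrib]
    refine Finset.dvd_sum fun s _ => ?_
    rw [← Finset.sum_add_distrib]
    refine Finset.dvd_sum fun t _ => ?_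
    obtain ⟨q, hq⟩ := hf.dvd_comp (h.skew _ _ (hl s) (hl t)) (es s + es t + e)
    rw [comp_add] at hq
    rw [add_comm (es t) (es s)]
    exact ⟨g s * g' t * q, by linear_combination g s * g' t * hq⟩
  have Badd : ∀ g₁ g₂ g', B (g₁ + g₂) g' = B g₁ g' + B g₂ g' := fun g₁ g₂ g' => by
    simp only [B, Pi.add_apply, add_mul, Finset.sum_add_distrib]
  have Bsm : ∀ (c : PS ι) g g', B (c • g) g' = c * B g g' := fun c g g' => by
    simp only [B, Pi.smul_apply, smul_eq_mul, Finset.mul_sum, mul_assoc]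
  have Bc : ∀ g₁ g₂ g', (∀ k, f ∣ (∑ s, g₁ s • v s) k - (∑ s, g₂ s • v s) k) →
      f ∣ B g₁ g' - B g₂ g' := fun g₁ g₂ g' hg => by
    have h1 := B0 (g₁ - g₂) g' fun k => by
      simpa only [Pi.sub_apply, sub_smul, Finset.sum_sub_distrib] using hg k
    have h2 := Badd (g₁ - g₂) g₂ g'
    rw [sub_add_cancel] at h2
    rwa [h2, add_sub_cancel_right]
  have hF : IsForm f fun x y => B (G x) (G y) := by
    refine ⟨fun x x' y hx hx' _ hk => Bc _ _ _ ?_, fun x x' y hx hx' _ => ?_,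
      fun g x y hx _ => ?_, fun x y _ _ => Bsk _ _⟩
    · rw [← hG x hx, ← hG x' hx']; exact hk
    · have := Bc (G (x + x')) (G x + G x') (G y) fun k => by
        simp only [Pi.add_apply (G x), add_smul, Finset.sum_add_distrib]
        rw [← hG x hx, ← hG x' hx', ← hG _ (log_add hx hx'), sub_self]
        exact dvd_zero _
      rwa [Badd, ← sub_sub] at this
    · have := Bc (G (g • x)) (g • G x) (G y) fun k => by
        simp only [Pi.smul_apply g (G x), smul_assoc, ← Finset.smul_sum]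
        rw [← hG x hx, ← hG _ (log_smul g hx), sub_self]
        exact dvd_zero _
      rwa [Bsm] at this
  have hC : IsComp f a e r fun x y => B (G x) (G y) := by
    intro x y e₁ e₂ hx hy ax ay
    have ex : ∑ s, comp a (e₁ - es s) (G x s) • v s = x := funext fun k => by
      rw [comp_comb (G x) hh, ← hG x hx, (ax k).comp_self]
    have ey : ∑ s, comp a (e₂ - es s) (G y s) • v s = y := funext fun k => by
      rw [comp_comb (G y) hh, ← hG y hy, (ay k).comp_self]
    obtain ⟨q1, h1⟩ := Bc (G x) (fun s => comp a (e₁ - es s) (G x s)) (G y) fun k => by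
      rw [ex, ← hG x hx, sub_self]; exact dvd_zero _
    obtain ⟨q2, h2⟩ := Bc (G y) (fun s => comp a (e₂ - es s) (G y s))
      (fun s => comp a (e₁ - es s) (G x s)) fun k => by
      rw [ey, ← hG y hy, sub_self]; exact dvd_zero _
    obtain ⟨q3, h3⟩ := Bsk (fun s => comp a (e₁ - es s) (G x s)) (G y)
    obtain ⟨q4, h4⟩ := Bsk (fun s => comp a (e₁ - es s) (G x s))
      fun s => comp a (e₂ - es s) (G y s)
    have h5 := form_sum2 h (fun s => comp a (e₁ - es s) (G x s))
      (fun s => comp a (e₂ - es s) (G y s)) hl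
    rw [ex, ey] at h5
    obtain ⟨q5, h5⟩ := hf.dvd_comp h5 (e₁ + e₂ + e)
    have h6 : comp a (e₁ + e₂ + e) (∑ s, ∑ t, comp a (e₁ - es s) (G x s) *
        comp a (e₂ - es t) (G y t) * r (v s) (v t)) =
        B (fun s => comp a (e₁ - es s) (G x s)) fun s => comp a (e₂ - es s) (G y s) := by
      simp only [B, comp_sum]
      refine Finset.sum_congr rfl fun s _ => Finset.sum_congr rfl fun t _ => ?_
      rw [← ((isHom_comp (a := a) (e₁ - es s) (G x s)).mul
        (isHom_comp (e₂ - es t) (G y t))).comp_mul]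
      congr 1
      ring
    rw [comp_sub, h6] at h5
    exact ⟨q1 - q2 + q3 - q4 - q5, by linear_combination h1 - h2 + h3 - h4 - h5⟩
  refine ⟨_, hF, fun x y z hx hy hz => ?_, hC⟩
  have c0 : ∀ s t u, f ∣ car (fun x y => B (G x) (G y)) (v s) (v t) (v u) := fun s t u =>
    car_hom hf hc hC (hl s) (hl t) (hl u) (hh s) (hh t) (hh u)
  have c1 : ∀ t u, f ∣ car (fun x y => B (G x) (G y)) z (v t) (v u) := fun t u => by
    rw [hG z hz]; exact car_sum hF _ hl (hl t) (hl u) fun s => c0 s t u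
  have c2 : ∀ u, f ∣ car (fun x y => B (G x) (G y)) y z (v u) := fun u => by
    rw [hG y hy]
    exact car_sum hF _ hl hz (hl u) fun t => car_sw12 hF hz (hl t) (hl u) (c1 t u)
  have c3 : f ∣ car (fun x y => B (G x) (G y)) x y z := by
    rw [hG x hx]
    exact car_sum hF _ hl hy hz fun u =>
      car_sw12 hF hy (hl u) hz (car_sw23 hF hy hz (hl u) (c2 u))
  exact c3

end Pool.Agent.MP_51db15_ag.Hy
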