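import Pool.Agent.MP_51db15_ag.Hy.Rows
import Pool.Agent.MP_51db15_ag.Hy.Base

/-! The structure of a two-form on the Hamiltonian fields. -/

namespace Pool.Agent.MP_51db15_ag.Hy

open MvPowerSeries Matrix

namespace A4B

variable {ι : Type} [Fintype ι] {f : PS ι} {r : (ι → PS ι) → (ι → PS ι) → PS ι}

theorem log_sum {S : Type} (T : Finset S) (g : S → PS ι) {v : S → ι → PS ι}
    (hv : ∀ s, Log f (v s)) : Log f (∑ s ∈ T, g s • v s) :=
  (logM f).sum_mem fun s _ => (logM f).smul_mem _ (hv s)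

theorem form_zero (h : IsForm f r) {y : ι → PS ι} (hy : Log f y) : f ∣ r 0 y := by
  simpa using h.smul 0 0 y (logM f).zero_mem hy

theorem form_sum (h : IsForm f r) {S : Type} (T : Finset S) (g : S → PS ι) {v : S → ι → PS ι}
    (hv : ∀ s, Log f (v s)) {y : ι → PS ι} (hy : Log f y) :
    f ∣ r (∑ s ∈ T, g s • v s) y - ∑ s ∈ T, g s * r (v s) y := by
  classical
  induction T using Finset.induction_on with
  | empty => simpa using form_zero h hy
  | insert s T hs ih =>
    rw [Finset.sum_insert hs, Finset.sum_insert hs]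
    obtain ⟨q1, h1⟩ := h.add _ _ y ((logM f).smul_mem (g s) (hv s)) (log_sum T g hv) hy
    obtain ⟨q2, h2⟩ := h.smul (g s) _ y (hv s) hy
    obtain ⟨q3, h3⟩ := ih
    exact ⟨q1 + q2 + q3, by linear_combination h1 + h2 + h3⟩

theorem vf_dot (v : ι → PS ι) : vf v f = v ⬝ᵥ fun i => pderiv ℂ i f := vf_apply v f

omit [Fintype ι] in
theorem half : (C (1 / 2 : ℂ) : PS ι) * 2 = 1 := by
  rw [show (2 : PS ι) = C (2 : ℂ) from (map_ofNat C 2).symm, ← map_mul]
  norm_num

variable [DecidableEq ι]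

/-- a skew matrix that kills the gradient -/
theorem core {T : Matrix ι ι (PS ι)} (hT : BEData f T) {B : Matrix ι ι (PS ι)} (hB : Bᵀ = -B)
    (h0 : B *ᵥ (fun i => pderiv ℂ i f) = 0) :
    ∃ (h : PS ι) (α : Matrix ι ι (PS ι)), αᵀ = -α ∧ B = h • T + T * α * T := by
  have h1 : ∀ j, ∃ c, (fun i => B i j) = T *ᵥ c := fun j => hT.z1 _ (by
    have := congrFun h0 j
    have h2 : (fun i => B i j) = -B j := funext fun i => congrFun (congrFun hB j) i
    rw [vf_dot, h2, neg_dotProduct]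
    exact neg_eq_zero.2 this)
  choose c hc using h1
  have h2 : B = T * (Matrix.of c)ᵀ := by
    ext i j : 1
    exact congrFun (hc j) i
  obtain ⟨h, hh⟩ := hT.z2 ((Matrix.of c)ᵀ *ᵥ fun i => pderiv ℂ i f) (by
    rw [mulVec_mulVec, ← h2, h0])
  have h3 : ∀ k, ∃ a, ((Matrix.of c)ᵀ - h • (1 : Matrix ι ι (PS ι))) k = T *ᵥ a := fun k =>
    hT.z1 _ (by
      rw [vf_dot]
      show (((Matrix.of c)ᵀ - h • (1 : Matrix ι ι (PS ι))) *ᵥ fun i => pderiv ℂ i f) k = 0
      rw [sub_mulVec, smul_mulVec, one_mulVec, Pi.sub_apply, hh k]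
      simp)
  choose a ha using h3
  have h4 : (Matrix.of c)ᵀ - h • (1 : Matrix ι ι (PS ι)) = Matrix.of a * Tᵀ := by
    ext i j : 1
    rw [congrFun (ha i) j, mul_apply]
    exact Finset.sum_congr rfl fun l _ => mul_comm _ _
  have h5 : B = h • T - T * Matrix.of a * T := by
    rw [h2, sub_eq_iff_eq_add.1 h4, hT.skew, Matrix.mul_add, Matrix.mul_smul, Matrix.mul_one,
      Matrix.mul_neg, Matrix.mul_neg, Matrix.mul_assoc]
    abel
  have h6 : T * (Matrix.of a)ᵀ * T = -(T * Matrix.of a * T) := by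
    have h7 := hB
    rw [h5, transpose_sub, transpose_smul, transpose_mul, transpose_mul, hT.skew, smul_neg,
      Matrix.mul_neg, Matrix.neg_mul, Matrix.mul_neg, neg_neg, ← Matrix.mul_assoc, neg_sub] at h7
    have h8 : T * (Matrix.of a)ᵀ * T = -(h • T) - (T * Matrix.of a * T - h • T) := by
      rw [← h7]; abel
    rw [h8]; abel
  refine ⟨h, (C (1 / 2 : ℂ) : PS ι) • ((Matrix.of a)ᵀ - Matrix.of a), ?_, ?_⟩
  · rw [transpose_smul, transpose_sub, transpose_transpose, ← smul_neg, neg_sub]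
  · rw [Matrix.mul_smul, Matrix.smul_mul, Matrix.mul_sub, Matrix.sub_mul, h6,
      show -(T * Matrix.of a * T) - T * Matrix.of a * T = (2 : PS ι) • -(T * Matrix.of a * T) by
        rw [two_smul]; abel, smul_smul, half, one_smul, h5, sub_eq_add_neg]

end A4B

open A4B

theorem a4b : S_A4B := by
  intro ι _ _ f Θ b χ η hf hP hχ hT hη
  let B : Matrix ι ι (PS ι) :=
    Matrix.of fun i j => C (1 / 2 : ℂ) * (η (Θ j) (Θ i) - η (Θ i) (Θ j))
  have hB : ∀ i j, f ∣ η (Θ j) (Θ i) - B i j := fun i j => by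
    obtain ⟨q, hq⟩ := hη.skew _ _ (hP.tang i) (hP.tang j)
    exact ⟨C (1 / 2 : ℂ) * q, by
      simp only [B, Matrix.of_apply]
      linear_combination C (1 / 2 : ℂ) * hq - η (Θ j) (Θ i) * half⟩
  have hsk : ∀ i j, B j i = -B i j := fun i j => by
    simp only [B, Matrix.of_apply]; ring
  have h1 : ∀ i, f ∣ ∑ j, B i j * pderiv ℂ j f := fun i => by
    obtain ⟨q1, h1⟩ := form_sum hη Finset.univ (fun j => pderiv ℂ j f) hP.tang (hP.tang i)
    obtain ⟨q2, h2⟩ := hη.cong _ 0 (Θ i) (log_sum Finset.univ (fun j => pderiv ℂ j f) hP.tang)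
      (logM f).zero_mem (hP.tang i) fun k => by
        have h3 : (∑ j, pderiv ℂ j f • Θ j) k = -vf (Θ k) f := by
          rw [Finset.sum_apply, vf_apply, ← Finset.sum_neg_distrib]
          refine Finset.sum_congr rfl fun j _ => ?_
          have : Θ j k = -Θ k j := congrFun (congrFun hP.skew k) j
          rw [Pi.smul_apply, smul_eq_mul, this]; ring
        rw [Pi.zero_apply, sub_zero, h3]
        exact (dvd_neg).2 (hP.tang k)
    obtain ⟨q3, h3⟩ := form_zero hη (hP.tang i)
    obtain ⟨q4, h4⟩ : f ∣ ∑ j, (η (Θ j) (Θ i) - B i j) * pderiv ℂ j f :=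
      Finset.dvd_sum fun j _ => (hB i j).mul_right _
    simp only [sub_mul, Finset.sum_sub_distrib] at h4
    simp only [mul_comm (pderiv ℂ _ f)] at h1
    exact ⟨q2 + q3 - q1 - q4, by linear_combination h2 + h3 - h1 - h4⟩
  choose e he using h1
  have h2 : vf e f = 0 := by
    have h3 : ∑ i, pderiv ℂ i f * ∑ j, B i j * pderiv ℂ j f =
        -∑ i, pderiv ℂ i f * ∑ j, B i j * pderiv ℂ j f := by
      simp only [Finset.mul_sum]
      conv_lhs => rw [Finset.sum_comm]
      rw [← Finset.sum_neg_distrib]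
      refine Finset.sum_congr rfl fun i _ => ?_
      rw [← Finset.sum_neg_distrib]
      refine Finset.sum_congr rfl fun j _ => ?_
      rw [hsk i j]; ring
    have h4 : ∑ i, pderiv ℂ i f * ∑ j, B i j * pderiv ℂ j f = f * vf e f := by
      rw [vf_apply, Finset.mul_sum]
      refine Finset.sum_congr rfl fun i _ => ?_
      rw [he i]; ring
    rw [h4] at h3
    refine (mul_eq_zero.1 (?_ : f * vf e f = 0)).resolve_left hf.ne_zero
    linear_combination C (1 / 2 : ℂ) * h3 - f * vf e f * half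
  obtain ⟨ε, hε⟩ := hT.z1 e h2
  obtain ⟨h, α, hα, hBα⟩ := core hT
    (B := Matrix.of fun i j => B i j - e i * χ j + χ i * e j)
    (by
      ext i j : 1
      simp only [transpose_apply, Matrix.of_apply, Matrix.neg_apply]
      rw [hsk i j]; ring)
    (by
      funext i
      rw [vf_apply] at hχ h2
      simp only [mulVec, dotProduct, Matrix.of_apply, add_mul, sub_mul, Finset.sum_add_distrib,
        Finset.sum_sub_distrib, mul_assoc, ← Finset.mul_sum, he i, hχ, h2, Pi.zero_apply]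
      ring)
  refine ⟨h, α, ε, hα, fun i j => ?_⟩
  have h5 := congrFun (congrFun hBα i) j
  simp only [Matrix.of_apply, Matrix.add_apply, Matrix.smul_apply, smul_eq_mul] at h5
  rw [← hε]
  obtain ⟨q, hq⟩ := hB i j
  exact ⟨q, by linear_combination hq + h5⟩

end Pool.Agent.MP_51db15_ag.Hy
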