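import Pool.Agent.MP_51db15_ag.Hy.Rows
import Pool.Agent.MP_51db15_ag.Hy.Base

/-! A component with a unit scalar, and its Hamiltonian fields. -/

namespace Pool.Agent.MP_51db15_ag.Hy

open MvPowerSeries Matrix

namespace A4E

variable {ι : Type} [Fintype ι] {f : PS ι} {η : (ι → PS ι) → (ι → PS ι) → PS ι}

theorem log_zero : Log f 0 := (logM f).zero_mem

theorem log_add {x y : ι → PS ι} (hx : Log f x) (hy : Log f y) : Log f (x + y) :=
  (logM f).add_mem hx hy

theorem log_smul (g : PS ι) {x : ι → PS ι} (hx : Log f x) : Log f (g • x) :=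
  (logM f).smul_mem g hx

omit [Fintype ι] in
theorem mem_F {z : ι → PS ι} :
    z ∈ Ideal.span {f} • (⊤ : Submodule (PS ι) (ι → PS ι)) ↔ ∀ j, f ∣ z j := by
  constructor
  · intro h
    refine Submodule.smul_induction_on h (fun g hg x _ j => ?_) fun x y hx hy j => ?_
    · exact (Ideal.mem_span_singleton.1 hg).mul_right _
    · exact dvd_add (hx j) (hy j)
  · intro h
    choose q hq using h
    have e : z = f • q := funext hq
    rw [e]
    exact Submodule.smul_mem_smul (Ideal.mem_span_singleton_self f) trivial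

theorem form_sum (hη : IsForm f η) {S : Type} (T : Finset S) (g : S → PS ι) (v : S → ι → PS ι)
    (hv : ∀ s, Log f (v s)) {y : ι → PS ι} (hy : Log f y) :
    f ∣ η (∑ s ∈ T, g s • v s) y - ∑ s ∈ T, g s * η (v s) y := by
  classical
  induction T using Finset.induction_on with
  | empty =>
    have := hη.smul 0 0 y log_zero hy
    simpa using this
  | insert s T hs ih =>
    rw [Finset.sum_insert hs, Finset.sum_insert hs]
    have h0 : Log f (∑ s ∈ T, g s • v s) :=
      (logM f).sum_mem fun s _ => log_smul (g s) (hv s)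
    have h1 := hη.add _ _ y (log_smul (g s) (hv s)) h0 hy
    have h2 := hη.smul (g s) (v s) y (hv s) hy
    have h3 := dvd_add (dvd_add h1 h2) ih
    refine (congrArg (f ∣ ·) ?_).mp h3
    ring

theorem add2 (hη : IsForm f η) {x x' y : ι → PS ι} (hx : Log f x) (hx' : Log f x')
    (hy : Log f y) : f ∣ η y (x + x') - η y x - η y x' := by
  have h := dvd_sub (dvd_sub (dvd_sub (hη.skew y _ hy (log_add hx hx')) (hη.add x x' y hx hx' hy))
    (hη.skew y x hy hx)) (hη.skew y x' hy hx')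
  refine (congrArg (f ∣ ·) ?_).mp h
  ring

theorem smul2 (hη : IsForm f η) (g : PS ι) {x y : ι → PS ι} (hx : Log f x) (hy : Log f y) :
    f ∣ η y (g • x) - g * η y x := by
  have h := dvd_sub (dvd_sub (hη.skew y _ hy (log_smul g hx)) (hη.smul g x y hx hy))
    ((hη.skew y x hy hx).mul_left g)
  refine (congrArg (f ∣ ·) ?_).mp h
  ring

theorem zero2 (hη : IsForm f η) {y : ι → PS ι} (hy : Log f y) : f ∣ η y 0 := by
  simpa using smul2 hη 0 log_zero hy

theorem nak {N : Submodule (PS ι) (ι → PS ι)}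
    (h : logM f ≤ N ⊔ IsLocalRing.maximalIdeal (PS ι) • logM f) : logM f ≤ N :=
  Submodule.le_of_le_smul_of_le_jacobson_bot (IsNoetherian.noetherian _)
    (IsLocalRing.maximalIdeal_le_jacobson _) h

/-- the image of the operator of a form, modulo the equation -/
def img (hη : IsForm f η) (Θ : Matrix ι ι (PS ι)) (hΘ : ∀ j, Log f (Θ j)) :
    Submodule (PS ι) (ι → PS ι) where
  carrier := {z | ∃ x, Log f x ∧ ∀ j, f ∣ η (Θ j) x - z j}
  add_mem' := by
    rintro z z' ⟨x, hx, h⟩ ⟨x', hx', h'⟩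
    refine ⟨x + x', log_add hx hx', fun j => ?_⟩
    have h1 := dvd_add (dvd_add (add2 hη hx hx' (hΘ j)) (h j)) (h' j)
    refine (congrArg (f ∣ ·) ?_).mp h1
    rw [Pi.add_apply]
    ring
  zero_mem' := ⟨0, log_zero, fun j => by simpa using zero2 hη (hΘ j)⟩
  smul_mem' := by
    rintro g z ⟨x, hx, h⟩
    refine ⟨g • x, log_smul g hx, fun j => ?_⟩
    have h1 := dvd_add (smul2 hη g hx (hΘ j)) ((h j).mul_left g)
    refine (congrArg (f ∣ ·) ?_).mp h1
    rw [Pi.smul_apply, smul_eq_mul]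
    ring

/-- a homogeneous field is the limit of the sums of the operators of the components -/
theorem approx [DecidableEq ι] {Θ : Matrix ι ι (PS ι)} {a : ι → ℚ}
    {r : (ι → PS ι) → (ι → PS ι) → PS ι} (hr : IsForm f r) (hH : Ham f r Θ)
    (η : ℚ → (ι → PS ι) → (ι → PS ι) → PS ι) (hη : ∀ e, IsForm f (η e))
    (hc : ∀ e, IsComp f a e r (η e)) {S : Type} [Fintype S] (v : S → ι → PS ι) (d : S → ℚ)
    (hv : ∀ s, Log f (v s) ∧ HomV a (d s) (v s))
    (hg : ∀ x, Log f x → ∃ g : S → PS ι, x = ∑ s, g s • v s)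
    (N : Submodule (PS ι) (ι → PS ι)) (hF : ∀ z, (∀ j, f ∣ z j) → z ∈ N) {x : ι → PS ι} {c : ℚ}
    (hx : Log f x) (hxc : HomV a c x) (hN : ∀ e, (fun j => η e (Θ j) x) ∈ N) : x ∈ N := by
  classical
  choose g hg using fun j => hg (Θ j) (hH j).1
  refine mem_of_approx N fun n => ?_
  obtain ⟨E₀, hE₀⟩ := exists_comp_approx (F := ℂ) (a := a) n
  let E : Finset ℚ := Finset.univ.biUnion fun s => E₀.image fun e => e - (d s + c)
  let w : ι → PS ι := fun j => ∑ s, g j s * (r (v s) x - ∑ e ∈ E, comp a (d s + c + e) (r (v s) x))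
  have hw : ∀ j, (n : ℕ∞) ≤ (w j).order := fun j => by
    refine mem_pow_iff_order.1 (Ideal.sum_mem _ fun s _ => Ideal.mul_mem_left _ _
      (mem_pow_iff_order.2 ?_))
    have h1 := hE₀ (E.image fun e => d s + c + e) (fun e he => Finset.mem_image.2
      ⟨e - (d s + c), Finset.mem_biUnion.2 ⟨s, Finset.mem_univ _, Finset.mem_image_of_mem _ he⟩,
        by ring⟩) (r (v s) x)
    rwa [Finset.sum_image fun _ _ _ _ h => add_left_cancel h] at h1
  have hz : ∀ j, f ∣ (x - w - ∑ e ∈ E, fun j => η e (Θ j) x) j := fun j => by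
    have h1 := (hH j).2 x hx
    have h2 := form_sum hr Finset.univ (g j) v (fun s => (hv s).1) hx
    rw [← hg j] at h2
    have h3 : f ∣ ∑ e ∈ E, (η e (Θ j) x - ∑ s, g j s * η e (v s) x) :=
      Finset.dvd_sum fun e _ => by
        have := form_sum (hη e) Finset.univ (g j) v (fun s => (hv s).1) hx
        rwa [← hg j] at this
    have h4 : f ∣ ∑ e ∈ E, ∑ s, g j s * (η e (v s) x - comp a (d s + c + e) (r (v s) x)) :=
      Finset.dvd_sum fun e _ => Finset.dvd_sum fun s _ =>
        (hc e (v s) x (d s) c (hv s).1 hx (hv s).2 hxc).mul_left _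
    have h5 := dvd_sub (dvd_sub (dvd_sub h2 h1) h3) h4
    refine (congrArg (f ∣ ·) ?_).mp h5
    have e1 : ∑ s, g j s * ∑ e ∈ E, comp a (d s + c + e) (r (v s) x) =
        ∑ e ∈ E, ∑ s, g j s * comp a (d s + c + e) (r (v s) x) := by
      rw [Finset.sum_comm]
      exact Finset.sum_congr rfl fun s _ => Finset.mul_sum _ _ _
    simp only [Pi.sub_apply, Finset.sum_apply, w, mul_sub, Finset.sum_sub_distrib, e1]
    ring
  refine ⟨(x - w - ∑ e ∈ E, fun j => η e (Θ j) x) + ∑ e ∈ E, fun j => η e (Θ j) x,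
    N.add_mem (hF _ hz) (N.sum_mem fun e _ => hN e), fun j => ?_⟩
  rw [sub_add_cancel, Pi.sub_apply, sub_sub_cancel]
  exact hw j

end A4E

open A4E in
theorem a4e (gens : S_GENS) (a4a : S_A4A) (a4b : S_A4B) (a4n : S_A4N) : S_A4E := by
  intro ι _ _ f Θ b a r hf hP hV hS ha hB hr hC hH
  have hχ : vf (eul a) f = f := by simpa using vf_eul ha
  choose η h1 h2 h3 using a4a ι f a 1 r ha hr hC
  choose h h4 using fun e => a4b ι f Θ b (eul a) (η e) hf hP hχ hB (h1 e)
  by_contra hc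
  have hm : ∀ e, h e ∈ IsLocalRing.maximalIdeal (PS ι) := fun e hu =>
    hc ⟨e, η e, h e, h1 e, h2 e, h3 e, h4 e, hu⟩
  obtain ⟨S, _, v, d, hv, hg⟩ := gens ι f a 1 ha
  have hle : logM f ≤ Ideal.span {f} • (⊤ : Submodule (PS ι) (ι → PS ι)) := by
    refine nak fun x hx => ?_
    obtain ⟨g, rfl⟩ := hg x hx
    rw [sup_comm]
    refine Submodule.sum_mem _ fun s _ => Submodule.smul_mem _ _ ?_
    refine approx hr hH η h1 h3 v d hv hg _ (fun z hz => Submodule.mem_sup_right (mem_F.2 hz))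
      (hv s).1 (hv s).2 fun e => ?_
    have h5 := (a4n ι f Θ b (eul a) r (η e) (h e) hf hP hV (constantCoeff_eul a) hχ hB hr hH (h1 e)
      (h4 e) (v s) (hv s).1).2.2
    have h6 := Submodule.add_mem _ h5
      (Submodule.mem_sup_left (Submodule.smul_mem_smul (hm e) (hv s).1))
    rwa [sub_add_cancel] at h6
  have h7 : Log f (eul a) := by
    unfold Log
    rw [hχ]
  choose q hq using mem_F.1 (hle h7)
  have e : eul a = f • q := funext hq
  rw [e, vf_smul] at hχ
  have h8 : vf q f = 1 := mul_left_cancel₀ hf.ne_zero (by rw [hχ, mul_one])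
  have h9 := congrArg constantCoeff h8
  rw [vf_apply, map_sum, map_one, Finset.sum_eq_zero fun i _ => by rw [map_mul, hS i, mul_zero]] at h9
  exact zero_ne_one h9

open A4E in
theorem a4h (a4n : S_A4N) : S_A4H := by
  intro ι _ _ f Θ b χ r η h hf hP hV hχ0 hχ hB hr hH hη hS hu
  have hN := a4n ι f Θ b χ r η h hf hP hV hχ0 hχ hB hr hH hη hS
  have hle : logM f ≤ img hη Θ hP.tang := by
    refine nak fun x hx => ?_
    have hF : Ideal.span {f} • (⊤ : Submodule (PS ι) (ι → PS ι)) ≤ img hη Θ hP.tang :=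
      fun z hz => ⟨0, log_zero, fun j => dvd_sub (zero2 hη (hP.tang j)) (mem_F.1 hz j)⟩
    have h1 : (fun j => η (Θ j) x) - h • x ∈
        img hη Θ hP.tang ⊔ IsLocalRing.maximalIdeal (PS ι) • logM f :=
      sup_le le_sup_right (hF.trans le_sup_left) (hN x hx).2.2
    have h2 : (fun j => η (Θ j) x) ∈ img hη Θ hP.tang := ⟨x, hx, fun j => by simp⟩
    have h3 := Submodule.sub_mem _ (Submodule.mem_sup_left h2) h1
    rw [sub_sub_cancel] at h3
    obtain ⟨u, rfl⟩ := hu
    have h4 := Submodule.smul_mem _ ((u⁻¹ : (PS ι)ˣ) : PS ι) h3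
    rwa [smul_smul, Units.inv_mul, one_smul] at h4
  choose x hx h1 using fun i => hle (show Θ i ∈ logM f from hP.tang i)
  refine ⟨Matrix.of x, fun i => ⟨hx i, fun y hy => ?_⟩⟩
  have h2 := (hN (x i) (hx i)).2.1 y hy
  have h3 := hr.cong _ (Θ i) y (hN (x i) (hx i)).1 (hP.tang i) hy (h1 i)
  have h4 := dvd_add (dvd_add h2 h3) ((hH i).2 y hy)
  refine (congrArg (f ∣ ·) ?_).mp h4
  show _ = η (x i) y - y i
  ring

end Pool.Agent.MP_51db15_ag.Hy
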