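import Pool.Agent.MP_51db15_ag.Hy.Rows
import Pool.Agent.MP_51db15_ag.Hy.Base

/-! Homogeneous skew Hamiltonian fields of a homogeneous form. -/

namespace Pool.Agent.MP_51db15_ag.Hy

open MvPowerSeries Matrix

namespace A4G

variable {ι : Type} [Fintype ι] [DecidableEq ι] {f : PS ι}
  {r η : (ι → PS ι) → (ι → PS ι) → PS ι}

omit [DecidableEq ι] in
theorem sum_left (hr : IsForm f r) {S : Type} (m : S → PS ι) (v : S → ι → PS ι)
    (hv : ∀ s, Log f (v s)) {y : ι → PS ι} (hy : Log f y) (T : Finset S) :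
    Log f (∑ s ∈ T, m s • v s) ∧ f ∣ r (∑ s ∈ T, m s • v s) y - ∑ s ∈ T, m s * r (v s) y := by
  classical
  induction T using Finset.induction_on with
  | empty =>
    have h0 : Log f (0 : ι → PS ι) := (logM f).zero_mem
    have := hr.smul 0 0 y h0 hy
    exact ⟨by simpa using h0, by simpa using this⟩
  | insert i T hi ih =>
    rw [Finset.sum_insert hi, Finset.sum_insert hi]
    have h1 : Log f (m i • v i) := (logM f).smul_mem _ (hv i)
    refine ⟨(logM f).add_mem h1 ih.1, ?_⟩
    have := dvd_add (dvd_add (hr.add _ _ y h1 ih.1 hy) (hr.smul (m i) _ y (hv i) hy)) ih.2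
    convert this using 1
    ring

omit [DecidableEq ι] in
theorem sum_right (hr : IsForm f r) {S : Type} (m : S → PS ι) (v : S → ι → PS ι)
    (hv : ∀ s, Log f (v s)) {x : ι → PS ι} (hx : Log f x) (T : Finset S) :
    f ∣ r x (∑ s ∈ T, m s • v s) - ∑ s ∈ T, m s * r x (v s) := by
  obtain ⟨h1, h2⟩ := sum_left hr m v hv hx T
  have h3 : f ∣ ∑ s ∈ T, m s * (r x (v s) + r (v s) x) :=
    Finset.dvd_sum fun s _ => (hr.skew _ _ hx (hv s)).mul_left _
  have := dvd_sub (dvd_sub (hr.skew _ _ hx h1) h2) h3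
  convert this using 1
  simp only [mul_add, Finset.sum_add_distrib]
  ring

/-- the form commutes with components -/
theorem comp_form (gens : S_GENS) {a : ι → ℚ} {d e : ℚ} (hf : IsHom a d f) (hη : IsForm f η)
    (hc : IsComp f a e r η) {x y : ι → PS ι} (hx : Log f x) (hy : Log f y) {e₂ : ℚ}
    (hy2 : HomV a e₂ y) (ε : ℚ) :
    f ∣ η (fun k => comp a (a k + ε) (x k)) y - comp a (ε + e₂ + e) (η x y) := by
  obtain ⟨S, _, v, es, hv, hg⟩ := gens ι f a d hf
  obtain ⟨g, rfl⟩ := hg x hx
  have h1 : (fun k => comp a (a k + ε) ((∑ s, g s • v s) k)) =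
      ∑ s, comp a (ε - es s) (g s) • v s := by
    funext k
    simp only [Finset.sum_apply, Pi.smul_apply, smul_eq_mul]
    rw [comp_sum]
    refine Finset.sum_congr rfl fun s _ => ?_
    rw [mul_comm, mul_comm _ (v s k), ← ((hv s).2 k).comp_mul]
    congr 1
    ring
  have h2 := (sum_left hη (fun s => comp a (ε - es s) (g s)) v (fun s => (hv s).1) hy
    Finset.univ).2
  have h3 := (sum_left hη g v (fun s => (hv s).1) hy Finset.univ).2
  have h4 : ∀ s, f ∣ η (v s) y - comp a (es s + e₂ + e) (r (v s) y) := fun s =>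
    hc _ _ _ _ (hv s).1 hy (hv s).2 hy2
  have h5 : ∀ m : S → PS ι, f ∣ ∑ s, m s * η (v s) y -
      ∑ s, m s * comp a (es s + e₂ + e) (r (v s) y) := fun m => by
    rw [← Finset.sum_sub_distrib]
    exact Finset.dvd_sum fun s _ => by rw [← mul_sub]; exact (h4 s).mul_left _
  have h6 := hf.dvd_comp (dvd_add h3 (h5 g)) (ε + e₂ + e)
  rw [sub_add_sub_cancel, comp_sub, comp_sum] at h6
  have h7 : ∑ s, comp a (ε + e₂ + e) (g s * comp a (es s + e₂ + e) (r (v s) y)) =
      ∑ s, comp a (ε - es s) (g s) * comp a (es s + e₂ + e) (r (v s) y) := by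
    refine Finset.sum_congr rfl fun s _ => ?_
    rw [mul_comm, mul_comm (comp a (ε - es s) (g s)), ← (isHom_comp _ _).comp_mul]
    congr 1
    ring
  rw [h1]
  have := dvd_sub (dvd_add h2 (h5 fun s => comp a (ε - es s) (g s))) h6
  rw [h7] at this
  convert this using 1
  ring

end A4G

open A4G in
theorem a4g (gens : S_GENS) : S_A4G := by
  intro ι _ _ f Θ a d e r η hf _ hη hc hH
  obtain ⟨S, _, v, es, hv, hg⟩ := gens ι f a d hf
  set T : Matrix ι ι (PS ι) := Matrix.of fun i k => comp a (a k + (a i - e)) (Θ i k) with hT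
  have hTi : ∀ i, T i = fun k => comp a (a k + (a i - e)) (Θ i k) := fun i => rfl
  have hl : ∀ i, Log f (T i) := fun i => by
    rw [Log, hTi, vf_comp hf]
    exact hf.dvd_comp (hH i).1 _
  have hh : ∀ i y, Log f y → f ∣ η (T i) y - y i := by
    intro i y hy
    obtain ⟨g, rfl⟩ := hg y hy
    have h1 := sum_right hη g v (fun s => (hv s).1) (hl i) Finset.univ
    have h2 : ∀ s, f ∣ η (T i) (v s) - v s i := fun s => by
      have a1 := comp_form gens hf hη hc (hH i).1 (hv s).1 (hv s).2 (a i - e)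
      have a2 := hf.dvd_comp ((hH i).2 _ (hv s).1) (a i - e + es s + e)
      rw [comp_sub, (((hv s).2 i).congr (by ring : a i + es s = a i - e + es s + e)).comp_self]
        at a2
      rw [hTi]
      simpa using dvd_add a1 a2
    have h3 : f ∣ ∑ s, g s * (η (T i) (v s) - v s i) :=
      Finset.dvd_sum fun s _ => (h2 s).mul_left _
    have := dvd_add h1 h3
    convert this using 1
    simp only [Finset.sum_apply, Pi.smul_apply, smul_eq_mul, mul_sub, Finset.sum_sub_distrib]
    ring
  have hs : ∀ i j, f ∣ T i j + T j i := fun i j => by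
    have := dvd_sub (dvd_sub (hη.skew _ _ (hl i) (hl j)) (hh i _ (hl j))) (hh j _ (hl i))
    convert this using 1
    ring
  have h2 : (C (1 / 2 : ℂ) : PS ι) + C (1 / 2 : ℂ) = 1 := by
    rw [← map_add]
    norm_num
  set T' : Matrix ι ι (PS ι) := Matrix.of fun i k => C (1 / 2 : ℂ) * (T i k - T k i) with hT'
  have hd : ∀ i k, f ∣ T' i k - T i k := fun i k => by
    have := (hs i k).mul_left (-C (1 / 2 : ℂ))
    convert this using 1
    simp only [hT', Matrix.of_apply]
    linear_combination (T i k) * h2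
  have hl' : ∀ i, Log f (T' i) := fun i => by
    have := dvd_add (vf_congr (hd i) f) (hl i)
    rwa [sub_add_cancel] at this
  refine ⟨T', ?_, fun i => ⟨hl' i, fun y hy => ?_⟩, hf, fun i j => ?_⟩
  · ext1 i j
    simp only [hT', Matrix.transpose_apply, Matrix.neg_apply, Matrix.of_apply]
    ring
  · simpa using dvd_add (hη.cong _ _ y (hl' i) (hl i) hy (hd i)) (hh i y hy)
  · refine IsHom.C_mul (IsHom.sub ((isHom_comp _ _).congr ?_) ((isHom_comp _ _).congr ?_)) _ <;>
      ring

end Pool.Agent.MP_51db15_ag.Hy
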