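import Pool.Agent.MP_51db15_ag.Hy.Rows
import Pool.Agent.MP_51db15_ag.Hy.Base

/-! The operator of a two-form is a scalar modulo the maximal ideal. -/

namespace Pool.Agent.MP_51db15_ag.Hy

open MvPowerSeries Matrix

namespace A4N

variable {ι : Type} [Fintype ι] {f : PS ι}
  {r : (ι → PS ι) → (ι → PS ι) → PS ι}

lemma log_sum {S : Type} (T : Finset S) (g : S → PS ι) (v : S → ι → PS ι)
    (hv : ∀ s, Log f (v s)) : Log f (∑ s ∈ T, g s • v s) :=
  (logM f).sum_mem fun s _ => (logM f).smul_mem (g s) (hv s)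

lemma fzero (F : IsForm f r) {y : ι → PS ι} (hy : Log f y) : f ∣ r 0 y := by
  simpa using F.smul 0 0 y (logM f).zero_mem hy

lemma flin (F : IsForm f r) {S : Type} (T : Finset S) (g : S → PS ι) (v : S → ι → PS ι)
    (hv : ∀ s, Log f (v s)) {y : ι → PS ι} (hy : Log f y) :
    f ∣ r (∑ s ∈ T, g s • v s) y - ∑ s ∈ T, g s * r (v s) y := by
  classical
  induction T using Finset.induction_on with
  | empty => simpa using fzero F hy
  | insert a T ha ih =>
    rw [Finset.sum_insert ha, Finset.sum_insert ha]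
    have h1 := F.add _ _ y ((logM f).smul_mem (g a) (hv a)) (log_sum T g v hv) hy
    have h2 := F.smul (g a) _ y (hv a) hy
    convert dvd_add (dvd_add h1 h2) ih using 1
    ring

/-- linearity in the first slot for a relation modulo the equation -/
lemma lin1 (F : IsForm f r) {S : Type} [Fintype S] (s : PS ι) (ζ : S → PS ι) (v : S → ι → PS ι)
    (hv : ∀ i, Log f (v i)) {x y : ι → PS ι} (hx : Log f x) (hy : Log f y)
    (h : ∀ k, f ∣ s * x k - ∑ i, ζ i * v i k) : f ∣ s * r x y - ∑ i, ζ i * r (v i) y := by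
  have h1 := F.smul s x y hx hy
  have h2 := F.cong (s • x) (∑ i, ζ i • v i) y ((logM f).smul_mem s hx) (log_sum _ ζ v hv) hy
    fun k => by simpa [Finset.sum_apply] using h k
  have h3 := flin F Finset.univ ζ v hv hy
  convert dvd_add (dvd_sub h2 h1) h3 using 1
  ring

/-- linearity in the second slot -/
lemma lin2 (F : IsForm f r) {S : Type} [Fintype S] (s : PS ι) (ζ : S → PS ι) (v : S → ι → PS ι)
    (hv : ∀ i, Log f (v i)) {x y : ι → PS ι} (hx : Log f x) (hy : Log f y)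
    (h : ∀ k, f ∣ s * x k - ∑ i, ζ i * v i k) : f ∣ s * r y x - ∑ i, ζ i * r y (v i) := by
  have h1 := lin1 F s ζ v hv hx hy h
  have h2 := (F.skew x y hx hy).mul_left s
  have h3 : f ∣ ∑ i, ζ i * (r (v i) y + r y (v i)) :=
    Finset.dvd_sum fun i _ => (F.skew _ _ (hv i) hy).mul_left _
  simp only [mul_add, Finset.sum_add_distrib] at h3
  convert dvd_sub (dvd_sub h2 h1) h3 using 1
  ring

/-- the target module -/
noncomputable abbrev NN (f : PS ι) : Submodule (PS ι) (ι → PS ι) :=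
  IsLocalRing.maximalIdeal (PS ι) • logM f ⊔ Ideal.span {f} • (⊤ : Submodule (PS ι) (ι → PS ι))

lemma mem_cong {v w : ι → PS ι} (h : ∀ j, f ∣ v j - w j) (hw : w ∈ NN f) : v ∈ NN f := by
  choose q hq using h
  have : v = w + f • q := by
    funext j
    simp only [Pi.add_apply, Pi.smul_apply, smul_eq_mul, ← hq j]
    ring
  rw [this]
  exact add_mem hw (Submodule.mem_sup_right
    (Submodule.smul_mem_smul (Ideal.mem_span_singleton_self f) Submodule.mem_top))

lemma mem_smul {g : PS ι} {v : ι → PS ι} (hg : constantCoeff g = 0) (hv : Log f v) :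
    g • v ∈ NN f :=
  Submodule.mem_sup_left (Submodule.smul_mem_smul (mem_max_iff.2 hg) hv)

lemma mem_vecMul {g : ι → PS ι} {T : Matrix ι ι (PS ι)} (hg : ∀ i, constantCoeff (g i) = 0)
    (hT : ∀ i, Log f (T i)) : g ᵥ* T ∈ NN f := by
  rw [vecMul_eq_sum]
  exact Submodule.sum_mem _ fun i _ => mem_smul (hg i) (hT i)

lemma log_vecMul (g : ι → PS ι) {T : Matrix ι ι (PS ι)} (hT : ∀ i, Log f (T i)) :
    Log f (g ᵥ* T) := by
  rw [vecMul_eq_sum]
  exact log_sum _ g _ hT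

lemma skew_mulVec {T : Matrix ι ι (PS ι)} (h : Tᵀ = -T) (g : ι → PS ι) :
    T *ᵥ g = (-g) ᵥ* T := by
  rw [← vecMul_transpose, h, vecMul_neg, neg_vecMul]

lemma cc_dot {g : ι → PS ι} (hg : ∀ i, constantCoeff (g i) = 0) (v : ι → PS ι) :
    constantCoeff (g ⬝ᵥ v) = 0 := by
  simp [dotProduct, map_sum, hg]

lemma thp_eq (Θ : Matrix ι ι (PS ι)) (b χ : ι → PS ι) :
    thp Θ b χ = Θ - vecMulVec (Θ *ᵥ b) χ + vecMulVec χ (Θ *ᵥ b) := by
  ext1 i j
  simp [thp, vecMulVec_apply]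

lemma thp_row (Θ : Matrix ι ι (PS ι)) (b χ : ι → PS ι) (i : ι) :
    thp Θ b χ i = Θ i - (Θ *ᵥ b) i • χ + χ i • Θ *ᵥ b := by
  funext j
  simp [thp]

end A4N

open A4N in
theorem a4n (kae : S_KAE) : S_A4N := by
  intro ι _ _ f Θ b χ r η h hf hP hV hχ0 hχ hBE Fr hH Fη hS
  obtain ⟨s, hs, hK⟩ := (kae ι f Θ hf hP).1
  obtain ⟨α, ε, -, hB⟩ := hS
  have hΘ := hP.tang
  have lχ : Log f χ := by unfold Log; rw [hχ]
  have lc : Log f (Θ *ᵥ b) := by rw [skew_mulVec hP.skew]; exact log_vecMul _ hΘ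
  have c0 : ∀ i, constantCoeff ((Θ *ᵥ b) i) = 0 := fun i => cc_dot (hV i) b
  have hrow := thp_row Θ b χ
  have hmat := thp_eq Θ b χ
  have T0 : ∀ i j, constantCoeff (thp Θ b χ i j) = 0 := fun i j => by
    simp [thp, hV i j, hχ0]
  generalize thp Θ b χ = T at hBE hB hrow hmat T0
  have lT : ∀ i, Log f (T i) := fun i => by
    rw [hrow]
    exact (logM f).add_mem ((logM f).sub_mem (hΘ i) ((logM f).smul_mem _ lχ))
      ((logM f).smul_mem _ lc)
  have lε : Log f (T *ᵥ ε) := by rw [skew_mulVec hBE.skew]; exact log_vecMul _ lT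
  have cancel : ∀ g, f ∣ s * g → f ∣ g := fun g hg => (hf.dvd_or_dvd hg).resolve_left hs
  obtain ⟨B, hBd⟩ : ∃ B : Matrix ι ι (PS ι),
      B = h • T + T * α * T + vecMulVec (T *ᵥ ε) χ - vecMulVec χ (T *ᵥ ε) := ⟨_, rfl⟩
  have hB' : ∀ i j, f ∣ η (Θ j) (Θ i) - B i j := fun i j => by
    convert hB i j using 2
    simp [hBd, vecMulVec_apply]
  have dΘ : ∀ i, (fun j => η (Θ j) (Θ i)) - h • Θ i ∈ NN f := fun i => by
    refine mem_cong (w := h • (χ i • Θ *ᵥ b - (Θ *ᵥ b) i • χ) + (T * α) i ᵥ* T +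
      (T *ᵥ ε) i • χ - χ i • T *ᵥ ε) (fun j => ?_) ?_
    · convert hB i j using 1
      have := congrFun (hrow i) j
      simp only [Pi.add_apply, Pi.sub_apply, Pi.smul_apply, smul_eq_mul] at this ⊢
      rw [← mul_apply_eq_vecMul, this]
      ring
    · refine sub_mem (add_mem (add_mem (Submodule.smul_mem _ _ (sub_mem (mem_smul (hχ0 i) lc)
        (mem_smul (c0 i) lχ))) (mem_vecMul (fun k => ?_) lT)) (mem_smul (cc_dot (T0 i) ε) lχ))
        (mem_smul (hχ0 i) lε)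
      simp [Matrix.mul_apply, map_sum, T0]
  have dχ : (fun j => η (Θ j) χ) - h • χ ∈ NN f := by
    obtain ⟨ζ, hζ⟩ := hK χ lχ
    have hζ' := hζ
    choose q hq using hζ'
    have e1 : ζ ᵥ* Θ = s • χ - f • q := by
      funext k
      have := hq k
      simp only [vecMul, dotProduct, Pi.sub_apply, Pi.smul_apply, smul_eq_mul]
      linear_combination -this
    have e2 : ζ ᵥ* Θ ⬝ᵥ ζ = 0 := by
      have h1 : ζ ᵥ* Θ ⬝ᵥ ζ = -(ζ ᵥ* Θ ⬝ᵥ ζ) := by
        conv_lhs => rw [← dotProduct_mulVec, skew_mulVec hP.skew, neg_vecMul, dotProduct_neg,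
          dotProduct_comm]
      have h2 : (2 : PS ι) * (ζ ᵥ* Θ ⬝ᵥ ζ) = 0 := by linear_combination h1
      refine (mul_eq_zero.1 h2).resolve_left fun h3 => ?_
      have := congrArg constantCoeff h3
      simp [map_ofNat] at this
    obtain ⟨z, hz⟩ : f ∣ ζ ⬝ᵥ χ := by
      refine cancel _ ⟨q ⬝ᵥ ζ, ?_⟩
      rw [e1, sub_dotProduct, smul_dotProduct, smul_dotProduct, smul_eq_mul, smul_eq_mul,
        dotProduct_comm χ ζ] at e2
      linear_combination e2
    have e3 : ζ ᵥ* T = (s * (1 - χ ⬝ᵥ b)) • χ + f • ((q ⬝ᵥ b) • χ - q + z • Θ *ᵥ b) := by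
      rw [hmat, vecMul_add, vecMul_sub, vecMul_vecMulVec, vecMul_vecMulVec, dotProduct_mulVec, e1,
        hz, sub_dotProduct, smul_dotProduct, smul_dotProduct]
      funext k
      simp only [Pi.add_apply, Pi.sub_apply, Pi.smul_apply, smul_eq_mul]
      ring
    generalize (q ⬝ᵥ b) • χ - q + z • Θ *ᵥ b = q' at e3
    have e4 : ζ ᵥ* B = s • ((1 - χ ⬝ᵥ b) • (h • χ + χ ᵥ* α ᵥ* T + (χ ⬝ᵥ ε) • χ)) +
        f • (h • q' + q' ᵥ* α ᵥ* T + (q' ⬝ᵥ ε) • χ - z • T *ᵥ ε) := by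
      rw [hBd, vecMul_sub, vecMul_add, vecMul_add, vecMul_smul, vecMul_vecMulVec, vecMul_vecMulVec,
        ← vecMul_vecMul, ← vecMul_vecMul, dotProduct_mulVec, e3, hz]
      simp only [add_vecMul, smul_vecMul, add_dotProduct, smul_dotProduct]
      funext k
      simp only [Pi.add_apply, Pi.sub_apply, Pi.smul_apply, smul_eq_mul]
      ring
    refine mem_cong (w := (1 - χ ⬝ᵥ b) • (χ ᵥ* α ᵥ* T + (χ ⬝ᵥ ε) • χ) - h • (χ ⬝ᵥ b) • χ)
      (fun j => cancel _ ?_) ?_
    · have h1 := lin2 Fη s ζ Θ hΘ lχ (hΘ j) hζ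
      have h2 : f ∣ ∑ i, ζ i * (η (Θ j) (Θ i) - B i j) :=
        Finset.dvd_sum fun i _ => (hB' i j).mul_left _
      have h3 := congrFun e4 j
      simp only [mul_sub, Finset.sum_sub_distrib] at h2
      have h4 : (ζ ᵥ* B) j = ∑ i, ζ i * B i j := rfl
      have h5 := dvd_mul_right f ((h • q' + q' ᵥ* α ᵥ* T + (q' ⬝ᵥ ε) • χ - z • T *ᵥ ε) j)
      convert dvd_add (dvd_add h1 h2) h5 using 1
      rw [← h4, h3]
      simp only [Pi.add_apply, Pi.sub_apply, Pi.smul_apply, smul_eq_mul]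
      ring
    · exact sub_mem (Submodule.smul_mem _ _ (add_mem
        (mem_vecMul (fun k => cc_dot hχ0 _) lT) (mem_smul (cc_dot hχ0 ε) lχ)))
        (Submodule.smul_mem _ _ (mem_smul (cc_dot hχ0 b) lχ))
  intro x hx
  have lA : Log f fun j => η (Θ j) x := by
    have h1 := lin1 Fη 0 (fun j => pderiv ℂ j f) Θ hΘ hx hx fun k => by
      have h2 : f ∣ vf (Θ k) f := hΘ k
      rw [vf_apply] at h2
      convert h2 using 1
      rw [zero_mul, zero_sub, ← Finset.sum_neg_distrib]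
      refine Finset.sum_congr rfl fun i _ => ?_
      have := congrFun (congrFun hP.skew k) i
      simp only [transpose_apply, Matrix.neg_apply] at this
      rw [this]
      ring
    unfold Log
    rw [vf_apply]
    rw [zero_mul, zero_sub, dvd_neg] at h1
    simpa only [mul_comm] using h1
  refine ⟨lA, fun y hy => cancel _ ?_, ?_⟩
  · obtain ⟨ξ, hξ⟩ := hK y hy
    have h1 := lin1 Fη s ξ Θ hΘ hy hx hξ
    have h2 := lin1 Fr s ξ Θ hΘ hy lA hξ
    have h3 : f ∣ ∑ i, ξ i * (r (Θ i) (fun j => η (Θ j) x) - η (Θ i) x) :=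
      Finset.dvd_sum fun i _ => ((hH i).2 _ lA).mul_left _
    simp only [mul_sub, Finset.sum_sub_distrib] at h3
    have h4 := (Fη.skew x y hx hy).mul_left s
    have h5 := (Fr.skew _ y lA hy).mul_left s
    convert dvd_add (dvd_add (dvd_sub (dvd_sub h4 h5) h1) h2) h3 using 1
    ring
  · obtain ⟨l, hl⟩ : f ∣ vf x f := hx
    obtain ⟨ξ, hξ⟩ := hBE.z1 (x - l • χ) (by rw [vf_sub, vf_smul, hχ, hl]; ring)
    have e1 : x = (l + ξ ⬝ᵥ Θ *ᵥ b) • χ + ((ξ ⬝ᵥ χ) • b - ξ) ᵥ* Θ := by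
      rw [skew_mulVec hBE.skew, neg_vecMul, hmat, vecMul_add, vecMul_sub, vecMul_vecMulVec,
        vecMul_vecMulVec] at hξ
      rw [sub_vecMul, smul_vecMul]
      have hc : b ᵥ* Θ = -(Θ *ᵥ b) := by rw [skew_mulVec hP.skew, neg_vecMul, neg_neg]
      rw [hc]
      funext k
      have := congrFun hξ k
      simp only [Pi.add_apply, Pi.sub_apply, Pi.smul_apply, Pi.neg_apply, smul_eq_mul] at this ⊢
      linear_combination this
    generalize l + ξ ⬝ᵥ Θ *ᵥ b = l' at e1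
    generalize (ξ ⬝ᵥ χ) • b - ξ = g at e1
    have e2 : ∀ k, x k = l' * χ k + ∑ i, g i * Θ i k := fun k => congrFun e1 k
    refine mem_cong (w := l' • ((fun j => η (Θ j) χ) - h • χ) +
      ∑ i, g i • ((fun j => η (Θ j) (Θ i)) - h • Θ i)) (fun j => ?_)
      (add_mem (Submodule.smul_mem _ _ dχ)
        (Submodule.sum_mem _ fun i _ => Submodule.smul_mem _ _ (dΘ i)))
    have h1 := lin2 Fη 1 (fun o : Option ι => o.elim l' g) (fun o : Option ι => o.elim χ Θ)
      (fun o => by cases o; exacts [lχ, hΘ _]) ⟨l, hl⟩ (hΘ j) fun k => by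
        simp [Fintype.sum_option, Option.elim, e2 k]
    convert h1 using 1
    simp only [Fintype.sum_option, Option.elim, Pi.add_apply, Pi.sub_apply, Pi.smul_apply,
      smul_eq_mul, Finset.sum_apply, e2 j, mul_sub, mul_add, Finset.sum_sub_distrib,
      Finset.mul_sum, mul_left_comm h]
    ring

end Pool.Agent.MP_51db15_ag.Hy
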