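import Pool.Agent.MP_51db15_ag.Hy.Rows
import Pool.Agent.MP_51db15_ag.Hy.Base

/-! The new form is Kaehler on the valuation rings preserved by an Euler field. -/

namespace Pool.Agent.MP_51db15_ag.Hy

open MvPowerSeries Matrix

namespace A4W

set_option linter.unusedSectionVars false

variable {ι : Type} [Fintype ι] [DecidableEq ι] {κ : Type} [Field κ] [Algebra ℂ κ]
  (φ : PS ι →ₐ[ℂ] κ) (V : ValuationSubring κ)

def At : Set (ι → κ) := {α | ∃ a b, φ b ≠ 0 ∧ φ a / φ b ∈ V ∧ α = dq φ a b}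

def wg (α β : ι → κ) : Matrix ι ι κ := vecMulVec α β - vecMulVec β α

def K1 : Submodule V (ι → κ) := Submodule.span V (At φ V)

def K2 : Submodule V (Matrix ι ι κ) :=
  Submodule.span V {W | ∃ α ∈ At φ V, ∃ β ∈ At φ V, W = wg α β}

variable {φ V}

theorem vs (c : V) (x : κ) : c • x = (c : κ) * x := rfl

theorem wg_val (α β x y : ι → κ) :
    x ⬝ᵥ wg α β *ᵥ y = α ⬝ᵥ x * β ⬝ᵥ y - β ⬝ᵥ x * α ⬝ᵥ y := by
  rw [wg, sub_mulVec, vecMulVec_mulVec, vecMulVec_mulVec, dotProduct_sub, dotProduct_smul,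
    dotProduct_smul, dotProduct_comm x, dotProduct_comm x]
  simp

theorem wg_add (α α' β : ι → κ) : wg (α + α') β = wg α β + wg α' β := by
  ext i j; simp [wg, vecMulVec_apply]; ring

theorem wg_smul (c : V) (α β : ι → κ) : wg (c • α) β = c • wg α β := by
  ext i j; simp [wg, vecMulVec_apply, vs]; ring

theorem wg_swap (α β : ι → κ) : wg α β = -wg β α := by simp [wg]

theorem wg_zero (β : ι → κ) : wg 0 β = 0 := by simp [wg]

theorem wg_mem {α β : ι → κ} (hα : α ∈ K1 φ V) (hβ : β ∈ K1 φ V) : wg α β ∈ K2 φ V := by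
  induction hα using Submodule.span_induction with
  | mem α hα =>
    rw [wg_swap]
    refine neg_mem ?_
    induction hβ using Submodule.span_induction with
    | mem β hβ => exact Submodule.subset_span ⟨β, hβ, α, hα, rfl⟩
    | zero => rw [wg_zero]; exact zero_mem _
    | add _ _ _ _ h1 h2 => rw [wg_add]; exact add_mem h1 h2
    | smul c _ _ h => rw [wg_smul]; exact Submodule.smul_mem _ c h
  | zero => rw [wg_zero]; exact zero_mem _
  | add _ _ _ _ h1 h2 => rw [wg_add]; exact add_mem h1 h2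
  | smul c _ _ h => rw [wg_smul]; exact Submodule.smul_mem _ c h

theorem dq_dot (v : ι → PS ι) (a b : PS ι) : dq φ a b ⬝ᵥ (fun k => φ (v k)) = dfr φ v a b := by
  simp only [dq, dfr, dotProduct, vf_apply, map_sum, map_mul, Finset.sum_mul, Finset.mul_sum,
    ← Finset.sum_sub_distrib, Finset.sum_div]
  exact Finset.sum_congr rfl fun k _ => by ring

theorem vec_mem (hO : ∀ g, φ g ∈ V) {w : ι → κ} (hw : ∀ k, w k ∈ V) : w ∈ K1 φ V := by
  have : w = ∑ k, (⟨w k, hw k⟩ : V) • dq φ (X k) 1 := by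
    ext1 j
    simp [Finset.sum_apply, dq, vs, pderiv_X, Pi.single_apply, apply_ite φ]
  rw [this]
  exact Submodule.sum_mem _ fun k _ => Submodule.smul_mem _ _
    (Submodule.subset_span ⟨_, _, by simp, by simpa using hO _, rfl⟩)

theorem mulVec_mem {v : ι → PS ι} (hI : Inv φ v V) {W : Matrix ι ι κ} (hW : W ∈ K2 φ V) :
    W *ᵥ (fun k => φ (v k)) ∈ K1 φ V := by
  induction hW using Submodule.span_induction with
  | mem W hW =>
    obtain ⟨α, ⟨a, b, hb, hab, rfl⟩, β, ⟨a', b', hb', hab', rfl⟩, rfl⟩ := hW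
    have : wg (dq φ a b) (dq φ a' b') *ᵥ (fun k => φ (v k)) =
        (⟨_, hI a' b' hb' hab'⟩ : V) • dq φ a b - (⟨_, hI a b hb hab⟩ : V) • dq φ a' b' := by
      rw [wg, sub_mulVec, vecMulVec_mulVec, vecMulVec_mulVec, dq_dot, dq_dot]
      ext1 k
      simp [vs, mul_comm]
    rw [this]
    exact sub_mem (Submodule.smul_mem _ _ (Submodule.subset_span ⟨a, b, hb, hab, rfl⟩))
      (Submodule.smul_mem _ _ (Submodule.subset_span ⟨a', b', hb', hab', rfl⟩))
  | zero => rw [zero_mulVec]; exact zero_mem _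
  | add _ _ _ _ h1 h2 => rw [add_mulVec]; exact add_mem h1 h2
  | smul c W _ h =>
    have : (c • W) *ᵥ (fun k => φ (v k)) = c • W *ᵥ (fun k => φ (v k)) := smul_mulVec _ _ _
    rw [this]; exact Submodule.smul_mem _ c h

theorem kae_of {Θ : Matrix ι ι (PS ι)} {W : Matrix ι ι κ} (hW : W ∈ K2 φ V)
    (h : ∀ k l, φ (Θ k l) = (fun i => φ (Θ k i)) ⬝ᵥ W *ᵥ fun i => φ (Θ l i)) :
    Kae φ (fun i => Θ i) (fun i j => Θ i j) V := by
  obtain ⟨n, c, g, rfl⟩ := Submodule.mem_span_set'.1 hW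
  have : ∀ s, ∃ a b a' b', φ b ≠ 0 ∧ φ b' ≠ 0 ∧ φ a / φ b ∈ V ∧ φ a' / φ b' ∈ V ∧
      (g s : Matrix ι ι κ) = wg (dq φ a b) (dq φ a' b') := fun s => by
    obtain ⟨α, ⟨a, b, hb, hab, rfl⟩, β, ⟨a', b', hb', hab', rfl⟩, e⟩ := (g s).2
    exact ⟨a, b, a', b', hb, hb', hab, hab', e⟩
  choose a b a' b' h1 h2 h3 h4 h5 using this
  refine ⟨Fin n, inferInstance, fun s => c s, a, b, a', b',
    fun s => ⟨(c s).2, h1 s, h2 s, h3 s, h4 s⟩, fun k l => ?_⟩
  rw [h, sum_mulVec, dotProduct_sum]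
  refine Finset.sum_congr rfl fun s _ => ?_
  rw [smul_mulVec, dotProduct_smul, h5, wg_val, dq_dot, dq_dot, dq_dot, dq_dot]
  rfl

theorem of_kaeW {f : PS ι} {Θ : Matrix ι ι (PS ι)} (h : KaeW f φ Θ V) : ∃ W ∈ K2 φ V,
    ∀ ξ y : ι → κ, ∑ k, φ (pderiv ℂ k f) * y k = 0 → ξ ⬝ᵥ y = (ξ ᵥ* Θ.map φ) ⬝ᵥ W *ᵥ y := by
  obtain ⟨S, _, c, a, b, a', b', h1, h2⟩ := h
  refine ⟨∑ s, (⟨c s, (h1 s).1⟩ : V) • wg (dq φ (a s) (b s)) (dq φ (a' s) (b' s)),
    Submodule.sum_mem _ fun s _ => Submodule.smul_mem _ _ (Submodule.subset_span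
      ⟨_, ⟨_, _, (h1 s).2.1, (h1 s).2.2.2.1, rfl⟩, _, ⟨_, _, (h1 s).2.2.1, (h1 s).2.2.2.2, rfl⟩,
        rfl⟩), fun ξ y hy => ?_⟩
  rw [sum_mulVec, dotProduct_sum]
  refine (h2 ξ (ξ ᵥ* Θ.map φ) y (fun k => rfl) hy).trans (Finset.sum_congr rfl fun s _ => ?_)
  rw [smul_mulVec, dotProduct_smul, wg_val]
  rfl

variable (φ V)

/-- vectors whose pairing with the form is a Kaehler one-form -/
def R1 (T : Matrix ι ι κ) : Submodule V (ι → κ) where
  carrier := {z | ∃ α ∈ K1 φ V, ∀ ξ, ξ ⬝ᵥ z = α ⬝ᵥ (ξ ᵥ* T)}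
  add_mem' := by
    rintro _ _ ⟨α, hα, h1⟩ ⟨β, hβ, h2⟩
    exact ⟨α + β, add_mem hα hβ, fun ξ => by rw [dotProduct_add, add_dotProduct, h1, h2]⟩
  zero_mem' := ⟨0, zero_mem _, fun ξ => by simp⟩
  smul_mem' := by
    rintro c _ ⟨α, hα, h1⟩
    exact ⟨c • α, Submodule.smul_mem _ c hα, fun ξ => by
      rw [dotProduct_smul, smul_dotProduct, h1]⟩

/-- bivectors whose two-form is Kaehler -/
def R2 (T : Matrix ι ι κ) : Submodule V (Matrix ι ι κ) where
  carrier := {B | ∃ W ∈ K2 φ V, ∀ ξ ζ, ξ ⬝ᵥ B *ᵥ ζ = (ξ ᵥ* T) ⬝ᵥ W *ᵥ (ζ ᵥ* T)}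
  add_mem' := by
    rintro _ _ ⟨α, hα, h1⟩ ⟨β, hβ, h2⟩
    exact ⟨α + β, add_mem hα hβ, fun ξ ζ => by
      rw [add_mulVec, add_mulVec, dotProduct_add, dotProduct_add, h1, h2]⟩
  zero_mem' := ⟨0, zero_mem _, fun ξ ζ => by simp⟩
  smul_mem' := by
    rintro c _ ⟨α, hα, h1⟩
    exact ⟨c • α, Submodule.smul_mem _ c hα, fun ξ ζ => by
      rw [smul_mulVec, smul_mulVec, dotProduct_smul, dotProduct_smul, h1]⟩

variable {φ V}

theorem wg_R2 {T : Matrix ι ι κ} {z z' : ι → κ} (h : z ∈ R1 φ V T) (h' : z' ∈ R1 φ V T) :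
    wg z z' ∈ R2 φ V T := by
  obtain ⟨α, hα, h1⟩ := h
  obtain ⟨β, hβ, h2⟩ := h'
  refine ⟨_, wg_mem hα hβ, fun ξ ζ => ?_⟩
  rw [wg_val, wg_val, ← h1, ← h1, ← h2, ← h2]
  simp only [dotProduct_comm]

theorem form_sum {f : PS ι} {η : (ι → PS ι) → (ι → PS ι) → PS ι} (hη : IsForm f η)
    (hφ : KerIs f φ) {x : ι → ι → PS ι} (hx : ∀ i, Log f (x i)) (g : ι → PS ι) {y : ι → PS ι}
    (hy : Log f y) (s : Finset ι) :
    φ (η (∑ i ∈ s, g i • x i) y) = ∑ i ∈ s, φ (g i) * φ (η (x i) y) := by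
  have hl : ∀ s : Finset ι, Log f (∑ i ∈ s, g i • x i) := fun s =>
    (logM f).sum_mem fun i _ => (logM f).smul_mem _ (hx i)
  induction s using Finset.induction_on with
  | empty =>
    have := (hφ _).2 (hη.smul 0 0 y (logM f).zero_mem hy)
    simpa using this
  | insert i s hi ih =>
    have h1 := (hφ _).2 (hη.add _ _ y ((logM f).smul_mem (g i) (hx i)) (hl s) hy)
    have h2 := (hφ _).2 (hη.smul (g i) _ y (hx i) hy)
    rw [Finset.sum_insert hi, Finset.sum_insert hi, ← ih]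
    simp only [map_sub, map_mul] at h1 h2
    linear_combination h1 + h2

theorem form_span {f : PS ι} {η : (ι → PS ι) → (ι → PS ι) → PS ι} (hη : IsForm f η)
    (hφ : KerIs f φ) {x : ι → ι → PS ι} (hx : ∀ i, Log f (x i)) {s : PS ι} {z g y : ι → PS ι}
    (hz : Log f z) (hy : Log f y) (h : ∀ k, f ∣ s * z k - ∑ i, g i * x i k) :
    φ s * φ (η z y) = ∑ i, φ (g i) * φ (η (x i) y) := by
  have h1 := (hφ _).2 (hη.cong (s • z) (∑ i, g i • x i) y ((logM f).smul_mem _ hz)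
    ((logM f).sum_mem fun i _ => (logM f).smul_mem _ (hx i)) hy
    fun k => by simpa [Finset.sum_apply] using h k)
  have h2 := (hφ _).2 (hη.smul s z y hz hy)
  rw [← form_sum hη hφ hx g hy]
  simp only [map_sub, map_mul] at h1 h2
  linear_combination h1 - h2

end A4W

open A4W

theorem a4w (kae : S_KAE) : S_A4W := by
  intro ι _ _ f Θ Θ' b χ η h hf hP hE hV hχ hB hη ⟨α, ε, hα, hS⟩ hH v ⟨_, l, hl, hv⟩ κ _ _ φ hφ V
    hO hI
  obtain ⟨⟨s, hs, hsp⟩, hk⟩ := kae ι f Θ hf hP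
  obtain ⟨W₀, hW₀, h0⟩ := of_kaeW (((hk κ φ hφ).2 V).1 (hE κ φ hφ V hO))
  set T := Θ.map φ with hT
  have hTs : Tᵀ = -T := by
    rw [hT, ← transpose_map, hP.skew, Matrix.map_neg _ (map_neg φ)]
  have htan : ∀ x, Log f x → ∑ k, φ (pderiv ℂ k f) * φ (x k) = 0 := fun x hx => by
    have := (hφ _).2 hx
    rw [vf_apply, map_sum] at this
    simpa [mul_comm] using this
  have hm : ∀ (M : Matrix ι ι (PS ι)) (w : ι → PS ι),
      (fun i => φ ((M *ᵥ w) i)) = M.map φ *ᵥ fun i => φ (w i) := fun M w => by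
    ext1 i
    simp [mulVec, dotProduct]
  have r1 : ∀ w : ι → PS ι, (fun i => φ ((Θ *ᵥ w) i)) ∈ R1 φ V T := fun w =>
    ⟨_, vec_mem hO (fun k => hO (w k)), fun ξ => by
      rw [hm, dotProduct_mulVec, dotProduct_comm]⟩
  have r2 : (fun i => φ (v i)) ∈ R1 φ V T :=
    ⟨_, mulVec_mem hI hW₀, fun ξ => by rw [h0 ξ _ (htan v ⟨l, by rw [hv, mul_comm]⟩),
      dotProduct_comm]⟩
  have rs : ∀ (g : PS ι) (z : ι → PS ι), (fun i => φ (z i)) ∈ R1 φ V T →
      (fun i => φ (g * z i)) ∈ R1 φ V T := fun g z hz => by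
    have := Submodule.smul_mem _ (⟨φ g, hO g⟩ : V) hz
    convert this using 1
    ext1 i
    simp [vs]
  have hthp : ∀ w : ι → PS ι, thp Θ b χ *ᵥ w =
      Θ *ᵥ (w - (χ ⬝ᵥ w) • b) + ((Θ *ᵥ b) ⬝ᵥ w) • χ := fun w => by
    rw [mulVec_sub, mulVec_smul]
    ext1 i
    simp only [Pi.add_apply, Pi.sub_apply, Pi.smul_apply, smul_eq_mul, thp]
    generalize Θ *ᵥ b = c
    simp only [mulVec, dotProduct, Matrix.of_apply, add_mul, sub_mul, Finset.sum_add_distrib,
      Finset.sum_sub_distrib, mul_assoc, ← Finset.mul_sum]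
    ring
  have r3 : (fun i => φ (χ i)) ∈ R1 φ V T := by
    obtain ⟨u, rfl⟩ := hl
    obtain ⟨e, he⟩ := hB.z1 (χ - (↑u⁻¹ : PS ι) • v) (by
      rw [vf_sub, vf_smul, hχ, hv, Units.inv_mul_cancel_left, sub_self])
    have hu : IsUnit (1 - (Θ *ᵥ b) ⬝ᵥ e) := by
      rw [isUnit_iff']
      simp [mulVec, dotProduct, hV _ _]
    obtain ⟨w, hw⟩ := hu.exists_left_inv
    have := rs w (fun i => ↑u⁻¹ * v i + (Θ *ᵥ (e - (χ ⬝ᵥ e) • b)) i) (by
      simp only [map_add]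
      exact add_mem (rs _ v r2) (r1 _))
    convert this using 3 with i
    have h1 := congrFun (he.trans (hthp e)) i
    simp only [Pi.add_apply, Pi.sub_apply, Pi.smul_apply, smul_eq_mul] at h1
    linear_combination w * h1 - χ i * hw
  have r4 : ∀ w : ι → PS ι, (fun i => φ ((thp Θ b χ *ᵥ w) i)) ∈ R1 φ V T := fun w => by
    rw [hthp]
    simp only [Pi.add_apply, Pi.smul_apply, smul_eq_mul, map_add]
    exact add_mem (r1 _) (rs _ χ r3)
  have q1 : T ∈ R2 φ V T := ⟨-W₀, neg_mem hW₀, fun ξ ζ => by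
    rw [neg_mulVec, dotProduct_neg, ← h0 ξ, ← mulVec_transpose, hTs, neg_mulVec, dotProduct_neg,
      neg_neg]
    simp only [vecMul, dotProduct, Finset.mul_sum, hT, Matrix.map_apply]
    rw [Finset.sum_comm]
    refine Finset.sum_eq_zero fun i _ => ?_
    simp only [mul_left_comm _ (ζ i), ← Finset.mul_sum]
    rw [htan _ (hP.tang i), mul_zero]⟩
  have q2 : (thp Θ b χ).map φ ∈ R2 φ V T := by
    have := add_mem q1 (wg_R2 r3 (r1 b))
    convert this using 1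
    ext i j
    simp only [thp, wg, hT, Matrix.map_apply, Matrix.of_apply, Matrix.add_apply, Matrix.sub_apply,
      vecMulVec_apply, map_add, map_sub, map_mul]
    ring
  have q3 : (thp Θ b χ * α * thp Θ b χ).map φ ∈ R2 φ V T := by
    have h1 : ∀ k, (fun i => φ (thp Θ b χ i k)) ∈ R1 φ V T := fun k => by
      simpa using r4 (Pi.single k 1)
    have := Submodule.sum_mem (R2 φ V T) (t := Finset.univ) fun k _ =>
      Submodule.sum_mem (R2 φ V T) (t := Finset.univ) fun m _ =>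
        Submodule.smul_mem _ (⟨φ (C (-1 / 2) * α k m), hO _⟩ : V) (wg_R2 (h1 k) (h1 m))
    convert this using 1
    ext i j
    have h2 : ∀ m, thp Θ b χ m j = -thp Θ b χ j m := fun m => by
      simpa using congrFun (congrFun hB.skew j) m
    have h3 : ∀ k m, φ (α m k) = -φ (α k m) := fun k m => by
      rw [← map_neg]; simpa using congrArg φ (congrFun (congrFun hα k) m)
    have h4 : φ (C (-1 / 2)) * 2 = -1 := by
      rw [← map_ofNat φ 2, ← map_mul, ← map_ofNat (C : ℂ →+* PS ι) 2, ← map_mul]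
      norm_num
    simp only [Matrix.map_apply, mul_apply, map_sum, map_mul, Matrix.sum_apply, Matrix.smul_apply,
      wg, Matrix.sub_apply, vecMulVec_apply, vs, smul_eq_mul, h2, map_neg,
      Finset.sum_mul, mul_sub, Finset.sum_sub_distrib]
    rw [Finset.sum_comm, Finset.sum_comm (f := fun k m => φ (C (-1 / 2)) * φ (α k m) *
      (φ (thp Θ b χ i m) * φ (thp Θ b χ j k))), ← Finset.sum_sub_distrib]
    refine Finset.sum_congr rfl fun k _ => ?_
    rw [← Finset.sum_sub_distrib]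
    refine Finset.sum_congr rfl fun m _ => ?_
    rw [h3 k m]
    linear_combination (-(φ (α k m) * φ (thp Θ b χ i k) * φ (thp Θ b χ j m))) * h4
  obtain ⟨W, hW, hWe⟩ : (Matrix.of fun i j => φ (η (Θ j) (Θ i))) ∈ R2 φ V T := by
    have := add_mem (add_mem (Submodule.smul_mem _ (⟨φ h, hO h⟩ : V) q2) q3) (wg_R2 (r4 ε) r3)
    convert this using 1
    ext i j
    have h1 := (hφ _).2 (hS i j)
    simp only [map_sub, map_add, map_mul] at h1
    simp only [Matrix.of_apply, Matrix.add_apply, Matrix.smul_apply, Matrix.map_apply, wg,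
      Matrix.sub_apply, vecMulVec_apply, vs, smul_eq_mul]
    linear_combination h1
  choose g hg using fun k => hsp _ (hH k).1
  have hs0 : φ s ≠ 0 := fun h => hs ((hφ s).1 h)
  refine kae_of hW fun k m => ?_
  have hx : ∀ k, (fun i => φ (Θ' k i)) = (fun i => φ (g k i) / φ s) ᵥ* T := fun k => by
    ext1 j
    have := (hφ _).2 (hg k j)
    simp only [map_sub, map_mul, map_sum] at this
    simp only [vecMul, dotProduct, hT, Matrix.map_apply, div_mul_eq_mul_div, ← Finset.sum_div]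
    rw [eq_div_iff hs0]
    linear_combination this
  rw [hx, hx, ← hWe]
  have h1 := (hφ _).2 ((hH m).2 _ (hH k).1)
  have h2 := form_span hη hφ hP.tang (hH m).1 (hH k).1 (hg m)
  have h3 : ∀ j, φ s * φ (η (Θ j) (Θ' k)) = ∑ i, φ (g k i) * φ (η (Θ j) (Θ i)) := fun j => by
    have h4 := form_span hη hφ hP.tang (hH k).1 (hP.tang j) (hg k)
    have h5 := (hφ _).2 (hη.skew _ _ (hH k).1 (hP.tang j))
    have h6 : ∀ i, φ (η (Θ i) (Θ j)) = -φ (η (Θ j) (Θ i)) := fun i => by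
      have := (hφ _).2 (hη.skew _ _ (hP.tang i) (hP.tang j))
      rw [map_add] at this
      exact eq_neg_of_add_eq_zero_left this
    simp only [h6, mul_neg, Finset.sum_neg_distrib] at h4
    rw [map_add] at h5
    linear_combination φ s * h5 - h4
  rw [map_sub, sub_eq_zero] at h1
  refine mul_left_cancel₀ (mul_ne_zero hs0 hs0) ?_
  rw [← h1, mul_assoc, h2, Finset.mul_sum]
  simp only [mul_left_comm (φ s), h3, dotProduct, mulVec, Matrix.of_apply, Finset.mul_sum]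
  rw [Finset.sum_comm]
  refine Finset.sum_congr rfl fun i _ => Finset.sum_congr rfl fun j _ => ?_
  field_simp

end Pool.Agent.MP_51db15_ag.Hy
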