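import Pool.Agent.MP_51db15_ag.Hy.Rows

/-! Exactness of the Pfaffian complex and unmixedness. -/

namespace Pool.Agent.MP_51db15_ag.Hy

open MvPowerSeries Matrix

namespace BE

section Lin

variable {R ι : Type} [CommRing R]

/-- three elements that form a regular sequence -/
structure Reg3 (u v w : R) : Prop where
  r1 : ∀ g, u * g = 0 → g = 0
  r2 : ∀ g a, v * g = u * a → ∃ b, g = u * b
  r3 : ∀ g a b, w * g = u * a + v * b → ∃ a' b', g = u * a' + v * b'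

lemma Reg3.v1 {u v w : R} (h : Reg3 u v w) {x y : ι → R} (e : u • x = u • y) : x = y :=
  funext fun i => sub_eq_zero.1 (h.r1 _ (by
    have := congrFun e i
    simp only [Pi.smul_apply, smul_eq_mul] at this
    rw [mul_sub, this, sub_self]))

lemma Reg3.v2 {u v w : R} (h : Reg3 u v w) {x y : ι → R} (e : v • x = u • y) :
    ∃ z : ι → R, x = u • z := by
  choose z hz using fun i => h.r2 (x i) (y i) (congrFun e i)
  exact ⟨z, funext hz⟩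

lemma Reg3.v3 {u v w : R} (h : Reg3 u v w) {x y z : ι → R} (e : w • x = u • y + v • z) :
    ∃ s t : ι → R, x = u • s + v • t := by
  choose s t hz using fun i => h.r3 (x i) (y i) (z i) (congrFun e i)
  exact ⟨s, t, funext hz⟩

lemma mem_cons (r g : R) (rs : List R) :
    g ∈ Ideal.ofList (r :: rs) ↔ ∃ a, g - r * a ∈ Ideal.ofList rs := by
  rw [Ideal.ofList_cons, Submodule.mem_sup]
  constructor
  · rintro ⟨y, hy, z, hz, rfl⟩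
    obtain ⟨a, rfl⟩ := Ideal.mem_span_singleton'.1 hy
    exact ⟨a, by simpa [mul_comm] using hz⟩
  · rintro ⟨a, ha⟩
    exact ⟨r * a, Ideal.mem_span_singleton'.2 ⟨a, mul_comm _ _⟩, _, ha, by ring⟩

lemma le_height {I J : Ideal R} (h : ∀ Q : Ideal R, Q.IsPrime → J ≤ Q → I ≤ Q) :
    I.height ≤ J.height := by
  rw [Ideal.height_eq_inf_minimalPrimes J]
  exact le_iInf₂ fun Q hQ => Ideal.height_mono (h Q hQ.isPrime hQ.le)

variable [Fintype ι] [DecidableEq ι] [IsDomain R] {Θ : Matrix ι ι R} {π : ι → R} {c : R}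

omit [DecidableEq ι] [IsDomain R] in
lemma dot_zero (hs : Θᵀ = -Θ) (hk : Θ *ᵥ π = 0) (a : ι → R) : π ⬝ᵥ Θ *ᵥ a = 0 := by
  rw [dotProduct_mulVec, ← mulVec_transpose, hs, neg_mulVec, hk, neg_zero, zero_dotProduct]

omit [IsDomain R] in
lemma det_upd (ha : Θ.adjugate = c • vecMulVec π π) (i : ι) :
    (Θ.updateRow i (Pi.single i 1)).det = c * (π i * π i) := by
  rw [← adjugate_apply, ha]
  rfl

omit [IsDomain R] in
lemma upd_ne (i : ι) (b a : ι → R) {j : ι} (h : j ≠ i) :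
    (Θ.updateRow i b *ᵥ a) j = (Θ *ᵥ a) j := by
  simp only [mulVec, updateRow_ne h]

/-- the complex splits where one coordinate is invertible: the middle term -/
lemma split1 (hs : Θᵀ = -Θ) (ha : Θ.adjugate = c • vecMulVec π π) (hk : Θ *ᵥ π = 0)
    {v : ι → R} (hv : π ⬝ᵥ v = 0) (i : ι) : ∃ a, (c * (π i * π i)) • v = Θ *ᵥ a := by
  by_cases h0 : π i = 0
  · exact ⟨0, by simp [h0]⟩
  refine ⟨(Θ.updateRow i (Pi.single i 1)).adjugate *ᵥ v, ?_⟩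
  set a := (Θ.updateRow i (Pi.single i 1)).adjugate *ᵥ v
  have h1 : Θ.updateRow i (Pi.single i 1) *ᵥ a = (c * (π i * π i)) • v := by
    rw [mulVec_mulVec, mul_adjugate, det_upd ha, smul_mulVec, one_mulVec]
  have h2 : ∀ j, j ≠ i → ((c * (π i * π i)) • v - Θ *ᵥ a) j = 0 := fun j hj => by
    rw [Pi.sub_apply, ← h1, upd_ne i _ a hj, sub_self]
  have h3 : π ⬝ᵥ ((c * (π i * π i)) • v - Θ *ᵥ a) = 0 := by
    rw [dotProduct_sub, dotProduct_smul, hv, dot_zero hs hk, smul_zero, sub_self]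
  rw [dotProduct, Finset.sum_eq_single i (fun j _ hj => by rw [h2 j hj, mul_zero]) (by simp)] at h3
  refine sub_eq_zero.1 (funext fun j => ?_)
  rcases eq_or_ne j i with rfl | hj
  · exact (mul_eq_zero.1 h3).resolve_left h0
  · exact h2 j hj

/-- the same for the kernel -/
lemma split2 (hc : c ≠ 0) (ha : Θ.adjugate = c • vecMulVec π π) (hk : Θ *ᵥ π = 0)
    {v : ι → R} (hv : Θ *ᵥ v = 0) (i : ι) : ∃ r : R, π i • v = r • π := by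
  by_cases h0 : π i = 0
  · exact ⟨0, by simp [h0]⟩
  refine ⟨v i, sub_eq_zero.1 ?_⟩
  have h1 : Θ.updateRow i (Pi.single i 1) *ᵥ (π i • v - v i • π) = 0 := by
    funext j
    rcases eq_or_ne j i with rfl | hj
    · simp [mulVec, mul_comm]
    · rw [upd_ne i _ _ hj, mulVec_sub, mulVec_smul, mulVec_smul, hv, hk]
      simp
  refine eq_zero_of_mulVec_eq_zero ?_ h1
  rw [det_upd ha]
  exact mul_ne_zero hc (mul_ne_zero h0 h0)

omit [Fintype ι] [DecidableEq ι] in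
lemma canc (hπ : π ≠ 0) {r : R} (h : r • π = 0) : r = 0 :=
  (smul_eq_zero.1 h).resolve_right hπ

omit [Fintype ι] [DecidableEq ι] in
lemma step2 (hπ : π ≠ 0) {u₁ u₂ u₃ r₁ r₂ : R} (h : Reg3 u₁ u₂ u₃) {v : ι → R}
    (e₁ : u₁ • v = r₁ • π) (e₂ : u₂ • v = r₂ • π) : ∃ r : R, v = r • π := by
  have h1 : (u₂ * r₁ - u₁ * r₂) • π = 0 := by
    rw [sub_smul, mul_smul, mul_smul, ← e₁, ← e₂, smul_comm, sub_self]
  obtain ⟨r, rfl⟩ := h.r2 r₁ r₂ (sub_eq_zero.1 (canc hπ h1))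
  exact ⟨r, h.v1 (by rw [e₁, mul_smul])⟩

omit [DecidableEq ι] in
lemma step1 (hπ : π ≠ 0) (hk : Θ *ᵥ π = 0) (H2 : ∀ v, Θ *ᵥ v = 0 → ∃ r : R, v = r • π)
    {u₁ u₂ u₃ : R} (h : Reg3 u₁ u₂ u₃) {v a₁ a₂ a₃ : ι → R} (e₁ : u₁ • v = Θ *ᵥ a₁)
    (e₂ : u₂ • v = Θ *ᵥ a₂) (e₃ : u₃ • v = Θ *ᵥ a₃) : ∃ a, v = Θ *ᵥ a := by
  have key : ∀ {s t : R} {x y : ι → R}, s • v = Θ *ᵥ x → t • v = Θ *ᵥ y →
      ∃ r : R, t • x - s • y = r • π := fun {s t x y} hx hy => H2 _ (by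
    rw [mulVec_sub, mulVec_smul, mulVec_smul, ← hx, ← hy, smul_comm, sub_self])
  obtain ⟨r12, h12⟩ := key e₁ e₂
  obtain ⟨r13, h13⟩ := key e₁ e₃
  obtain ⟨r23, h23⟩ := key e₂ e₃
  have h1 : (u₃ * r12 - (u₁ * -r23 + u₂ * r13)) • π = 0 := by
    linear_combination (norm := module) -(u₃ • h12) + u₂ • h13 - u₁ • h23
  obtain ⟨s₁, s₂, rfl⟩ := h.r3 _ _ _ (sub_eq_zero.1 (canc hπ h1))
  obtain ⟨a, ha⟩ := h.v2 (x := a₁ - s₂ • π) (y := a₂ + s₁ • π)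
    (by linear_combination (norm := module) h12)
  refine ⟨a, h.v1 ?_⟩
  rw [← mulVec_smul, ← ha, mulVec_sub, mulVec_smul, hk, smul_zero, sub_zero, e₁]

omit [DecidableEq ι] in
lemma step0 (hπ : π ≠ 0) (hs : Θᵀ = -Θ) (hk : Θ *ᵥ π = 0)
    (H2 : ∀ v, Θ *ᵥ v = 0 → ∃ r : R, v = r • π) (H1 : ∀ v, π ⬝ᵥ v = 0 → ∃ a, v = Θ *ᵥ a)
    {q₁ q₂ q₃ q₄ g : R} (h : Reg3 q₁ q₂ q₃)
    (h4 : ∀ g a b c, q₄ * g = q₁ * a + q₂ * b + q₃ * c →
      ∃ a' b' c', g = q₁ * a' + q₂ * b' + q₃ * c')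
    {b₁ b₂ b₃ b₄ : ι → R} (e₁ : q₁ * g = π ⬝ᵥ b₁) (e₂ : q₂ * g = π ⬝ᵥ b₂) (e₃ : q₃ * g = π ⬝ᵥ b₃)
    (e₄ : q₄ * g = π ⬝ᵥ b₄) : ∃ b, g = π ⬝ᵥ b := by
  have key : ∀ {s t : R} {x y : ι → R}, s * g = π ⬝ᵥ x → t * g = π ⬝ᵥ y →
      ∃ a, t • x - s • y = Θ *ᵥ a := fun {s t x y} hx hy => H1 _ (by
    rw [dotProduct_sub, dotProduct_smul, dotProduct_smul, ← hx, ← hy, smul_eq_mul, smul_eq_mul]
    ring)
  have key2 : ∀ {s t u : R} {x y z a b c : ι → R}, t • x - s • y = Θ *ᵥ a →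
      u • x - s • z = Θ *ᵥ b → u • y - t • z = Θ *ᵥ c → ∃ r : R, u • a - t • b + s • c = r • π :=
    fun {s t u x y z a b c} ha hb hc => H2 _ (by
      rw [mulVec_add, mulVec_sub, mulVec_smul, mulVec_smul, mulVec_smul, ← ha, ← hb, ← hc]
      module)
  obtain ⟨a12, h12⟩ := key e₁ e₂
  obtain ⟨a13, h13⟩ := key e₁ e₃
  obtain ⟨a14, h14⟩ := key e₁ e₄
  obtain ⟨a23, h23⟩ := key e₂ e₃
  obtain ⟨a24, h24⟩ := key e₂ e₄
  obtain ⟨a34, h34⟩ := key e₃ e₄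
  obtain ⟨r4, k4⟩ := key2 h12 h13 h23
  obtain ⟨r3, k3⟩ := key2 h12 h14 h24
  obtain ⟨r2, k2⟩ := key2 h13 h14 h34
  obtain ⟨r1, k1⟩ := key2 h23 h24 h34
  have h1 : (q₄ * r4 - (q₁ * r1 + q₂ * -r2 + q₃ * r3)) • π = 0 := by
    linear_combination (norm := module) -(q₄ • k4) + q₃ • k3 - q₂ • k2 + q₁ • k1
  obtain ⟨s₁, s₂, s₃, rfl⟩ := h4 _ _ _ _ (sub_eq_zero.1 (canc hπ h1))
  obtain ⟨t₁, t₂, ht⟩ := h.v3 (x := a12 - s₃ • π) (y := s₁ • π - a23) (z := s₂ • π + a13)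
    (by linear_combination (norm := module) k4)
  have h2 : Θ *ᵥ a12 = q₁ • Θ *ᵥ t₁ + q₂ • Θ *ᵥ t₂ := by
    rw [← mulVec_smul, ← mulVec_smul, ← mulVec_add, ← ht, mulVec_sub, mulVec_smul, hk, smul_zero,
      sub_zero]
  obtain ⟨b, hb⟩ := h.v2 (x := b₁ - Θ *ᵥ t₂) (y := b₂ + Θ *ᵥ t₁)
    (by linear_combination (norm := module) h12 + h2)
  refine ⟨b, sub_eq_zero.1 (h.r1 _ ?_)⟩
  have h3 := congrArg (π ⬝ᵥ ·) hb
  simp only [dotProduct_sub, dot_zero hs hk, dotProduct_smul, smul_eq_mul] at h3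
  linear_combination e₁ + h3

end Lin

variable {ι : Type} [Fintype ι]

open RingTheory.Sequence in
lemma seq3 (cm : S_CM) (I : Ideal (PS ι)) (h : 3 ≤ I.height) : ∃ u ∈ I, ∃ v ∈ I, ∃ w ∈ I,
    IsWeaklyRegular (PS ι) [u, v, w] ∧ Reg3 u v w := by
  obtain ⟨u, hu, a1, b1⟩ := cm ι I [] (by simp) (IsWeaklyRegular.nil _ _)
    (lt_of_lt_of_le (by simp) h)
  obtain ⟨v, hv, a2, b2⟩ := cm ι I [u] (by simpa) a1 (lt_of_lt_of_le (by simp) h)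
  obtain ⟨w, hw, a3, b3⟩ := cm ι I [u, v] (by simp [hu, hv]) a2
    (lt_of_lt_of_le (by norm_num) h)
  simp only [mem_cons, Ideal.ofList_nil, Ideal.mem_bot, sub_sub, sub_eq_zero] at b1 b2 b3
  exact ⟨u, hu, v, hv, w, hw, a3, b1, fun g a e => b2 g ⟨a, e⟩, fun g a b e => b3 g ⟨a, b, e⟩⟩

end BE

open BE in
theorem be (cm : S_CM) : S_BE := by
  intro ι _ _ Θ π c hs hc ha hk ht
  have : IsDomain (PS ι) := NoZeroDivisors.to_isDomain _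
  have hπ : π ≠ 0 := by
    rintro rfl
    have : Ideal.span (Set.range (0 : ι → PS ι)) = ⊥ :=
      Ideal.span_eq_bot.2 (by rintro _ ⟨i, rfl⟩; rfl)
    rw [this, Ideal.height_bot] at ht
    exact absurd ht (by norm_num)
  have H2 : ∀ v, Θ *ᵥ v = 0 → ∃ r : PS ι, v = r • π := fun v hv => by
    obtain ⟨u₁, h₁, u₂, h₂, u₃, -, -, hr⟩ := seq3 cm _ ht
    have hle : Ideal.span (Set.range π) ≤
        (Submodule.span (PS ι) {π}).comap (LinearMap.toSpanSingleton (PS ι) _ v) :=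
      Ideal.span_le.2 (by
        rintro _ ⟨i, rfl⟩
        obtain ⟨r, hr⟩ := split2 hc.ne_zero ha hk hv i
        exact Submodule.mem_span_singleton.2 ⟨r, hr.symm⟩)
    obtain ⟨r₁, e₁⟩ := Submodule.mem_span_singleton.1 (hle h₁)
    obtain ⟨r₂, e₂⟩ := Submodule.mem_span_singleton.1 (hle h₂)
    exact step2 hπ hr e₁.symm e₂.symm
  have H1 : ∀ v, π ⬝ᵥ v = 0 → ∃ a, v = Θ *ᵥ a := fun v hv => by
    have h3 : 3 ≤ Ideal.height ((LinearMap.range Θ.mulVecLin).comap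
        (LinearMap.toSpanSingleton (PS ι) _ v)) := ht.trans (le_height fun Q hQ hle =>
      Ideal.span_le.2 (by
        rintro _ ⟨i, rfl⟩
        obtain ⟨a, ha⟩ := split1 hs ha hk hv i
        have h1 : c * (π i * π i) ∈ Q := hle ⟨a, ha.symm⟩
        exact (hQ.mem_or_mem ((Q.unit_mul_mem_iff_mem hc).1 h1)).elim id id))
    obtain ⟨u₁, ⟨a₁, e₁⟩, u₂, ⟨a₂, e₂⟩, u₃, ⟨a₃, e₃⟩, -, hr⟩ := seq3 cm _ h3
    exact step1 hπ hk H2 hr e₁.symm e₂.symm e₃.symm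
  refine ⟨H2, H1, fun Q hQ h hh => ?_⟩
  have mem : ∀ g, g ∈ Ideal.span (Set.range π) ↔ ∃ b, g = π ⬝ᵥ b := fun g => by
    rw [Ideal.mem_span_range_iff_exists_fun]
    exact exists_congr fun b => by rw [dotProduct_comm, eq_comm]; rfl
  obtain ⟨q₁, h₁, q₂, h₂, q₃, h₃, hw, hr⟩ := seq3 cm Q (le_trans (by norm_num) hQ)
  obtain ⟨q₄, h₄, -, b4⟩ := cm ι Q [q₁, q₂, q₃] (by simp [h₁, h₂, h₃]) hw
    (lt_of_lt_of_le (by norm_num) hQ)
  simp only [mem_cons, Ideal.ofList_nil, Ideal.mem_bot, sub_sub, sub_eq_zero] at b4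
  obtain ⟨b₁, e₁⟩ := (mem _).1 (hh q₁ h₁)
  obtain ⟨b₂, e₂⟩ := (mem _).1 (hh q₂ h₂)
  obtain ⟨b₃, e₃⟩ := (mem _).1 (hh q₃ h₃)
  obtain ⟨b₄, e₄⟩ := (mem _).1 (hh q₄ h₄)
  exact (mem _).2 (step0 hπ hs hk H2 H1 hr (fun g a b c e => b4 g ⟨a, b, c, e⟩) e₁ e₂ e₃ e₄)

end Pool.Agent.MP_51db15_ag.Hy
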