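import Pool.Agent.MP_51db15_ag.Hy.Rows
import Pool.Agent.MP_51db15_ag.Hy.Base

/-! The homogeneous form does not have weight zero. -/

set_option linter.unusedSectionVars false

namespace Pool.Agent.MP_51db15_ag.Hy

open MvPowerSeries Matrix

namespace C0

variable {A ι : Type} [CommRing A] [Fintype ι] [DecidableEq ι]

theorem mul_skew {Θ : Matrix ι ι A} (h : Θᵀ = -Θ) (G : Matrix ι ι A) (i j : ι) :
    (G * Θ) i j = -(Θ * Gᵀ) j i := by
  have : (G * Θ)ᵀ = -(Θ * Gᵀ) := by rw [transpose_mul, h, Matrix.neg_mul]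
  exact congrFun (congrFun this j) i

theorem tr_mem (Q : Ideal A) (hQ : Q.IsPrime) {Θ : Matrix ι ι A} (h : Θᵀ = -Θ) (W : Matrix ι ι A)
    (hW : ∀ i j, (Θ * W * Θ + Θ * (Θ * W)ᵀ) i j ∈ Q) : 2 * (Θ * W).trace ∈ Q := by
  have e1 : Θ * W * Θ + Θ * (Θ * W)ᵀ = Θ * (W - Wᵀ) * Θ := by
    rw [transpose_mul, h]
    noncomm_ring
  have e2 : (Θ * (W - Wᵀ)).trace = 2 * (Θ * W).trace := by
    rw [Matrix.mul_sub, trace_sub, ← trace_transpose (Θ * Wᵀ), transpose_mul, transpose_transpose,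
      h, Matrix.mul_neg, trace_neg, trace_mul_comm W]
    ring
  have h0 : (Ideal.Quotient.mk Q).mapMatrix (Θ * (W - Wᵀ) * Θ) = 0 := by
    ext i j
    exact Ideal.Quotient.eq_zero_iff_mem.2 (e1 ▸ hW i j)
  have hn : IsNilpotent ((Ideal.Quotient.mk Q).mapMatrix (Θ * (W - Wᵀ))) :=
    ⟨2, by rw [sq, ← map_mul, ← Matrix.mul_assoc, map_mul, h0, zero_mul]⟩
  have := (isNilpotent_trace_of_isNilpotent hn).eq_zero
  rw [← e2, ← Ideal.Quotient.eq_zero_iff_mem, ← this, trace, map_sum]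
  rfl

theorem stable (sing : S_SING) (minp : S_MINP) {f : PS ι} {Q : Ideal (PS ι)} (hf : Hyp f)
    (hQ : Q.IsPrime) (h0 : f ∈ Q) (h1 : ∀ i, pderiv ℂ i f ∈ Q) (h3 : Q.height = 3)
    {v : ι → PS ι} (hv : Log f v) : ∀ g ∈ Q, vf v g ∈ Q := by
  let I : Ideal (PS ι) := Ideal.span (insert f (Set.range fun i => pderiv ℂ i f))
  have f0 : f ∈ I := Ideal.subset_span (Set.mem_insert _ _)
  have f1 : ∀ i, pderiv ℂ i f ∈ I := fun i => Ideal.subset_span (Set.mem_insert_of_mem _ ⟨i, rfl⟩)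
  refine minp (PS ι) (vf v).toLinearMap.toAddMonoidHom I Q (fun a b => ?_) (fun g hg => ?_)
    ⟨⟨hQ, Ideal.span_le.2 ?_⟩, fun P hP hPQ => ?_⟩
  · exact (vf v).leibniz a b
  · change vf v g ∈ I
    obtain ⟨m, hm⟩ := hv
    induction hg using Submodule.span_induction with
    | mem x hx =>
      rcases hx with rfl | ⟨k, rfl⟩
      · rw [hm]
        exact I.mul_mem_right _ f0
      · have := pderiv_vf v k f
        rw [hm, Derivation.leibniz, ← sub_eq_iff_eq_add] at this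
        rw [← this]
        exact I.sub_mem (I.add_mem (I.mul_mem_right _ f0) (I.mul_mem_left _ (f1 k)))
          (I.sum_mem fun i _ => I.mul_mem_left _ (f1 i))
    | zero => simp
    | add x y _ _ hx hy => rw [map_add]; exact I.add_mem hx hy
    | smul r x hx hd =>
      rw [smul_eq_mul, vf_mul]
      exact I.add_mem (I.mul_mem_left _ hd) (I.mul_mem_left _ hx)
  · rintro _ (rfl | ⟨k, rfl⟩)
    exacts [h0, h1 k]
  · by_contra hne
    have := hP.1
    have hle := Ideal.height_mono hPQ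
    have : P.FiniteHeight := ⟨.inr (ne_top_of_le_ne_top (by rw [h3]; decide) hle)⟩
    have hlt := Ideal.height_strict_mono_of_isPrime (lt_of_le_not_ge hPQ hne)
    exact absurd (sing ι f P hf hP.1 (hP.2 f0) fun i => hP.2 (f1 i)) (not_le.2 (h3 ▸ hlt))

end C0

theorem c0 (sing : S_SING) (minp : S_MINP) (pi : S_PI) (be2 : S_BE2) (c0a : S_C0A) : S_C0 := by
  rintro ι _ _ f Θ a Q hf hp hg hQ h0 h1 h3 ⟨ξ, l, hξ, hl, hξf, hdiv⟩
  obtain ⟨π, g, b, hπ⟩ := pi ι f Θ hf hp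
  have hχ : vf (eul a) f = f := by simpa using vf_eul hg.1
  have sk : ∀ i j, Θ j i = -Θ i j := fun i j => congrFun (congrFun hp.skew i) j
  obtain ⟨ζ, hζ⟩ := (be2 ι f Θ π g b (eul a) hf hπ (constantCoeff_eul a) hχ).z1 (ξ - l • eul a)
    (by rw [vf_sub, vf_smul, hξf, hχ, sub_self])
  obtain ⟨ε, hε⟩ : ∃ ε, ε = l + (Θ *ᵥ b) ⬝ᵥ ζ := ⟨_, rfl⟩
  obtain ⟨η, hη⟩ : ∃ η, η = ζ - (eul a ⬝ᵥ ζ) • b := ⟨_, rfl⟩
  have hx : ∀ i, ξ i = ε * eul a i + ∑ k, Θ i k * η k := fun i => by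
    have := congrFun hζ i
    simp only [Pi.sub_apply, Pi.smul_apply, smul_eq_mul, thp, mulVec, dotProduct, of_apply,
      add_mul, sub_mul, Finset.sum_add_distrib, Finset.sum_sub_distrib, mul_assoc,
      ← Finset.mul_sum] at this
    have e : ∑ k, Θ i k * ((∑ j, eul a j * ζ j) * b k) =
        (∑ k, Θ i k * b k) * ∑ j, eul a j * ζ j := by
      rw [Finset.sum_mul]
      exact Finset.sum_congr rfl fun k _ => by ring
    simp only [hε, hη, Pi.sub_apply, Pi.smul_apply, smul_eq_mul, mulVec, dotProduct, mul_sub,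
      Finset.sum_sub_distrib, e]
    linear_combination this
  have u2 : IsUnit (2 : PS ι) := isUnit_iff'.2 (by rw [map_ofNat]; exact two_ne_zero)
  have hεQ : ε ∉ Q := fun h => hl <| by
    have e1 : ∀ x y : ι → PS ι, x ⬝ᵥ Θ *ᵥ y = -((Θ *ᵥ x) ⬝ᵥ y) := fun x y => by
      rw [dotProduct_mulVec, ← mulVec_transpose, hp.skew, neg_mulVec, neg_dotProduct]
    have e2 : b ⬝ᵥ Θ *ᵥ b = 0 := by
      have h2 := e1 b b
      rw [dotProduct_comm (Θ *ᵥ b)] at h2
      have : (2 : PS ι) * (b ⬝ᵥ Θ *ᵥ b) = 0 := by linear_combination h2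
      exact (mul_eq_zero.1 this).resolve_left u2.ne_zero
    have e3 : ξ = ε • eul a + Θ *ᵥ η := funext hx
    have e4 : b ⬝ᵥ ξ = ε * (b ⬝ᵥ eul a) - (Θ *ᵥ b) ⬝ᵥ ζ := by
      rw [e3, hη, dotProduct_add, dotProduct_smul, mulVec_sub, dotProduct_sub, mulVec_smul,
        dotProduct_smul, e2, e1, smul_zero, smul_eq_mul]
      ring
    have e5 : l = ε * (1 - b ⬝ᵥ eul a) + b ⬝ᵥ ξ := by rw [e4]; linear_combination -hε
    rw [e5]
    exact Q.add_mem (Q.mul_mem_right _ h) (Q.sum_mem fun i _ => Q.mul_mem_left _ (hξ i))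
  let D : Matrix ι ι (PS ι) := of fun i k => pderiv ℂ k (ξ i)
  let G : Matrix ι ι (PS ι) := of fun i k => vf (Θ i) (η k) - eul a i * pderiv ℂ k ε
  have hD : ∀ i j, (Θ * Dᵀ) i j = vf (Θ i) (ξ j) := fun i j => by
    simp only [Matrix.mul_apply, transpose_apply, D, of_apply, vf_apply]
  have hG : ∀ i j, (Θ * Gᵀ) i j = ∑ k, Θ i k * vf (Θ j) (η k) - eul a j * vf (Θ i) ε :=
    fun i j => by
      simp only [Matrix.mul_apply, transpose_apply, G, of_apply, vf_apply _ ε, mul_sub,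
        Finset.sum_sub_distrib, Finset.mul_sum, mul_left_comm]
  have hH : ∀ i j, vf (Θ i) (ξ j) = ε * (C (a j : ℂ) * Θ i j) + vf (Θ i) ε * eul a j +
      ∑ k, (Θ j k * vf (Θ i) (η k) + vf (Θ i) (Θ j k) * η k) := fun i j => by
    rw [hx j, map_add, map_sum, vf_mul, eul, vf_mul, vf_C, vf_X, zero_mul, add_zero]
    simp only [vf_mul]
  have key : ∀ i j, f ∣ vf ξ (Θ i j) - ((D + G) * Θ + Θ * (D + G)ᵀ) i j := fun i j => by
    have e3 : ξ = ε • eul a - ∑ k, η k • Θ k := funext fun m => by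
      simp only [hx m, Pi.sub_apply, Pi.smul_apply, Finset.sum_apply, smul_eq_mul, sk m,
        mul_neg, Finset.sum_neg_distrib, sub_neg_eq_add, mul_comm]
    have e4 : vf ξ (Θ i j) = ε * (C ((a i + a j - 0 : ℚ) : ℂ) * Θ i j) -
        ∑ k, η k * vf (Θ k) (Θ i j) := by
      rw [e3, vf_sub, vf_smul, vf_sum, vf_eul (hg.2 i j)]
      simp only [vf_smul]
    have e5 : ∑ k, η k * (vf (Θ i) (Θ j k) + vf (Θ j) (Θ k i) + vf (Θ k) (Θ i j)) =
        ∑ k, vf (Θ i) (Θ j k) * η k - ∑ k, vf (Θ j) (Θ i k) * η k +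
          ∑ k, η k * vf (Θ k) (Θ i j) := by
      rw [← Finset.sum_sub_distrib, ← Finset.sum_add_distrib]
      exact Finset.sum_congr rfl fun k _ => by rw [sk i k, map_neg]; ring
    have e6 := Finset.dvd_sum (s := Finset.univ) fun k _ => (hp.jac i j k).mul_left (η k)
    rw [e5, ← dvd_neg] at e6
    refine (congrArg (f ∣ ·) ?_).mp e6
    rw [e4, Matrix.add_apply, C0.mul_skew hp.skew, transpose_add, Matrix.mul_add,
      Matrix.add_apply, Matrix.add_apply, hD, hD, hG, hG, hH, hH, sk i j]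
    simp only [Finset.sum_add_distrib, sub_zero, Rat.cast_add, map_add]
    ring
  obtain ⟨γ, hγ, hadj⟩ := hp.nd
  have fQ : ∀ x, f ∣ x → x ∈ Q := fun x hx => Q.mem_of_dvd hx h0
  have xQ : ∀ x, vf ξ x ∈ Q := fun x => by
    rw [vf_apply]
    exact Q.sum_mem fun i _ => Q.mul_mem_right _ (hξ i)
  have main := fQ _ <| c0a ι f γ l Θ (D + G) ξ hf.1 hadj hξf key fun k => by
    have e : ∑ i, ((D + G) i k - pderiv ℂ k (ξ i)) * pderiv ℂ i f =
        -∑ m, vf (Θ m) f * pderiv ℂ m (η k) - vf (eul a) f * pderiv ℂ k ε := by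
      simp only [Matrix.add_apply, D, G, of_apply, add_sub_cancel_left, vf_apply, sub_mul,
        Finset.sum_sub_distrib, Finset.sum_mul, ← Finset.sum_neg_distrib]
      rw [Finset.sum_comm]
      congr 1
      · exact Finset.sum_congr rfl fun m _ => Finset.sum_congr rfl fun i _ => by
          rw [sk m i]; ring
      · exact Finset.sum_congr rfl fun i _ => by ring
    rw [e, hχ]
    exact dvd_sub (dvd_neg.2 (Finset.dvd_sum fun m _ => (hp.tang m).mul_right _))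
      (dvd_mul_right _ _)
  have dQ : ∀ i j, (Θ * Dᵀ) i j ∈ Q := fun i j => by
    rw [hD]
    exact C0.stable sing minp hf hQ h0 h1 h3 (hp.tang i) _ (hξ j)
  have gQ : ∀ i j, (G * Θ + Θ * Gᵀ) i j ∈ Q := fun i j => by
    have := Q.sub_mem (Q.sub_mem (xQ (Θ i j)) (fQ _ (key i j))) (Q.sub_mem (dQ i j) (dQ j i))
    refine (congrArg (· ∈ Q) ?_).mp this
    simp only [Matrix.add_mul, transpose_add, Matrix.mul_add, Matrix.add_apply,
      C0.mul_skew hp.skew D]
    ring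
  let W : Matrix ι ι (PS ι) := of fun m k => ε * pderiv ℂ m (η k) + η m * pderiv ℂ k ε
  let Y : Matrix ι ι (PS ι) := of fun i k => ξ i * pderiv ℂ k ε
  have hW : Θ * W = ε • G + Y := by
    ext1 i k
    simp only [Matrix.mul_apply, W, G, Y, of_apply, Matrix.add_apply, Matrix.smul_apply,
      smul_eq_mul, hx i, vf_apply, mul_add, add_mul, mul_sub, Finset.sum_add_distrib,
      Finset.mul_sum, Finset.sum_mul, mul_left_comm, mul_assoc]
    ring
  have yQ : ∀ i j, (Θ * Yᵀ) i j ∈ Q := fun i j =>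
    Q.sum_mem fun k _ => Q.mul_mem_left _ (Q.mul_mem_right _ (hξ j))
  have tQ := C0.tr_mem Q hQ hp.skew W fun i j => by
    have := Q.add_mem (Q.mul_mem_left ε (gQ i j)) (Q.sub_mem (yQ i j) (yQ j i))
    refine (congrArg (· ∈ Q) ?_).mp this
    simp only [hW, Matrix.add_mul, transpose_add, Matrix.mul_add, Matrix.add_apply,
      C0.mul_skew hp.skew Y, transpose_smul, Matrix.smul_mul, Matrix.mul_smul, Matrix.smul_apply,
      smul_eq_mul]
    ring
  have tY : Y.trace ∈ Q := Q.sum_mem fun i _ => Q.mul_mem_right _ (hξ i)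
  rw [hW, trace_add, trace_smul, smul_eq_mul] at tQ
  have t2 : 2 * G.trace ∈ Q := (hQ.mem_or_mem (x := ε) ((congrArg (· ∈ Q) (by ring)).mp
    (Q.sub_mem tQ (Q.mul_mem_left 2 tY)))).resolve_left hεQ
  refine hdiv ((Q.unit_mul_mem_iff_mem (u2.mul hγ)).1 ((congrArg (· ∈ Q) ?_).mp
    (Q.sub_mem (Q.sub_mem (xQ γ) main) (Q.mul_mem_left γ t2))))
  rw [trace_add, show D.trace = ∑ i, pderiv ℂ i (ξ i) from rfl]
  ring

end Pool.Agent.MP_51db15_ag.Hy
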