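import Pool.Agent.MP_51db15_ag.Hy.Rows
import Pool.Agent.MP_51db15_ag.Hy.Base

/-! Step C0A: the derivative of the factor `γ` of the adjugate along a vector field. -/

namespace Pool.Agent.MP_51db15_ag.Hy

open MvPowerSeries Matrix

namespace C0A

variable {S n : Type} [CommRing S] [Fintype n] [DecidableEq n]

theorem adj_one_add (e : S) (he : e * e = 0) (G : Matrix n n S) :
    (1 + e • G).adjugate = (1 + G.trace * e) • (1 - e • G) := by
  have h1 : (1 + e • G) * (1 - e • G) = 1 := by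
    have : (1 + e • G) * (1 - e • G) = 1 - (e * e) • (G * G) := by
      simp only [Matrix.add_mul, Matrix.mul_sub, Matrix.one_mul, Matrix.mul_one,
        Matrix.smul_mul, Matrix.mul_smul, smul_add, smul_smul]
      abel
    rw [this, he, zero_smul, sub_zero]
  have h2 : (1 + e • G).det = 1 + G.trace * e := by
    rw [Matrix.det_one_add_smul, pow_two, he, mul_zero, add_zero]
  calc (1 + e • G).adjugate = (1 + e • G).adjugate * ((1 + e • G) * (1 - e • G)) := by
        rw [h1, Matrix.mul_one]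
    _ = (1 + G.trace * e) • (1 - e • G) := by
        rw [← Matrix.mul_assoc, Matrix.adjugate_mul, h2, Matrix.smul_mul, Matrix.one_mul]

theorem adj_first (e : S) (he : e * e = 0) (T G : Matrix n n S) :
    (T + e • (G * T + T * Gᵀ)).adjugate =
      T.adjugate + e • ((2 * G.trace) • T.adjugate - Gᵀ * T.adjugate - T.adjugate * G) := by
  have h1 : T + e • (G * T + T * Gᵀ) = (1 + e • G) * (T * (1 + e • Gᵀ)) := by
    have : (1 + e • G) * (T * (1 + e • Gᵀ)) =
        T + e • (G * T + T * Gᵀ) + (e * e) • (G * (T * Gᵀ)) := by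
      simp only [Matrix.add_mul, Matrix.mul_add, Matrix.one_mul, Matrix.mul_one,
        Matrix.smul_mul, Matrix.mul_smul, smul_add, smul_smul]
      abel
    rw [this, he, zero_smul, add_zero]
  rw [h1, Matrix.adjugate_mul_distrib, Matrix.adjugate_mul_distrib, adj_one_add e he,
    adj_one_add e he, Matrix.trace_transpose]
  generalize T.adjugate = A
  generalize G.trace = t
  have h3 : (1 + t * e) * (1 + t * e) = 1 + e * (2 * t) := by
    linear_combination (t * t) * he
  have h4 : (1 + e * (2 * t)) * e = e := by linear_combination (2 * t) * he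
  have h5 : (1 - e • Gᵀ) * A * (1 - e • G) = A - e • (Gᵀ * A + A * G) := by
    have : (1 - e • Gᵀ) * A * (1 - e • G) =
        A - e • (Gᵀ * A + A * G) + (e * e) • (Gᵀ * A * G) := by
      simp only [Matrix.sub_mul, Matrix.mul_sub, Matrix.one_mul, Matrix.mul_one,
        Matrix.smul_mul, Matrix.mul_smul, smul_add, smul_sub, smul_smul]
      abel
    rw [this, he, zero_smul, add_zero]
  rw [Matrix.smul_mul, Matrix.smul_mul, Matrix.mul_smul, smul_smul, h3, h5, smul_sub, smul_smul,
    h4, add_smul, one_smul, smul_sub, smul_sub, smul_smul, smul_add]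
  abel

theorem der_adj (f : S) (D : S →+ S) (hD : ∀ a b, D (a * b) = a * D b + D a * b)
    (Θ G : Matrix n n S) (h : ∀ i j, f ∣ D (Θ i j) - (G * Θ + Θ * Gᵀ) i j) (i j : n) :
    f ∣ D (Θ.adjugate i j) -
      ((2 * G.trace) • Θ.adjugate - Gᵀ * Θ.adjugate - Θ.adjugate * G) i j := by
  obtain ⟨p, e, he, key⟩ : ∃ (p : S →+* DualNumber (S ⧸ Ideal.span {f}))
      (e : DualNumber (S ⧸ Ideal.span {f})), e * e = 0 ∧
      ∀ a b, e * p a = e * p b ↔ f ∣ a - b := by
    refine ⟨(TrivSqZeroExt.inlHom _ _).comp (Ideal.Quotient.mk _), DualNumber.eps,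
      DualNumber.eps_mul_eps, fun a b => ?_⟩
    rw [← Ideal.mem_span_singleton, ← Ideal.Quotient.eq]
    constructor
    · intro hab
      have := congrArg TrivSqZeroExt.snd hab
      simpa using this
    · intro hab
      simp only [RingHom.comp_apply, hab]
  have hD1 : D 1 = 0 := by
    have := hD 1 1
    rw [mul_one, one_mul, mul_one] at this
    linear_combination -this
  let φ : S →+* DualNumber (S ⧸ Ideal.span {f}) :=
    { toFun := fun g => p g + e * p (D g)
      map_one' := by simp [hD1]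
      map_mul' := fun a b => by
        rw [hD, map_add, map_mul, map_mul, map_mul]
        linear_combination (-(p (D a) * p (D b))) * he
      map_zero' := by simp
      map_add' := fun a b => by
        rw [map_add, map_add, map_add]
        ring }
  have hφ : ∀ g, φ g = p g + e * p (D g) := fun _ => rfl
  have h1 : φ.mapMatrix Θ = p.mapMatrix Θ +
      e • (p.mapMatrix G * p.mapMatrix Θ + p.mapMatrix Θ * (p.mapMatrix G)ᵀ) := by
    have h2 : (p.mapMatrix G)ᵀ = p.mapMatrix Gᵀ := rfl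
    rw [h2, ← map_mul, ← map_mul, ← map_add]
    ext1 i j
    exact congrArg (fun z => p (Θ i j) + z) ((key _ _).2 (h i j))
  have h3 := adj_first e he (p.mapMatrix Θ) (p.mapMatrix G)
  rw [← h1, ← RingHom.map_adjugate, ← RingHom.map_adjugate] at h3
  have h4 : (2 * (p.mapMatrix G).trace) • p.mapMatrix Θ.adjugate -
      (p.mapMatrix G)ᵀ * p.mapMatrix Θ.adjugate - p.mapMatrix Θ.adjugate * p.mapMatrix G =
      p.mapMatrix ((2 * G.trace) • Θ.adjugate - Gᵀ * Θ.adjugate - Θ.adjugate * G) := by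
    have h2 : (p.mapMatrix G)ᵀ = p.mapMatrix Gᵀ := rfl
    rw [h2, map_sub, map_sub, map_mul, map_mul]
    congr 2
    ext1 i j
    simp [Matrix.trace, map_sum, map_ofNat]
  rw [h4] at h3
  have h5 := congrFun (congrFun h3 i) j
  exact (key _ _).1 (add_left_cancel (a := p (Θ.adjugate i j)) h5)

end C0A

theorem c0a : S_C0A := by
  intro ι _ _ f γ l Θ G ξ hf hadj hl hΘ hG
  obtain ⟨i, hi⟩ := exists_pderiv_not_dvd hf.ne_zero (Prime.constantCoeff hf)
  have h1 := C0A.der_adj f (vf ξ).toLinearMap.toAddMonoidHom (fun a b => vf_mul ξ a b) Θ G hΘ i i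
  have hξ : f ∣ vf ξ f := hl ▸ Dvd.intro_left l rfl
  have h2 := vf_dvd hξ (hadj i i)
  rw [map_sub, vf_mul, vf_mul] at h2
  have h3 := pderiv_vf ξ i f
  rw [hl, Derivation.leibniz, smul_eq_mul, smul_eq_mul] at h3
  have h4 := hG i
  simp only [sub_mul, Finset.sum_sub_distrib] at h4
  have h5 : f ∣ (Gᵀ * Θ.adjugate) i i - γ * ((∑ k, G k i * pderiv ℂ k f) * pderiv ℂ i f) := by
    rw [Matrix.mul_apply, Finset.sum_mul, Finset.mul_sum, ← Finset.sum_sub_distrib]
    refine Finset.dvd_sum fun k _ => ?_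
    obtain ⟨c, hc⟩ := hadj k i
    exact ⟨G k i * c, by rw [Matrix.transpose_apply]; linear_combination G k i * hc⟩
  have h6 : f ∣ (Θ.adjugate * G) i i - γ * ((∑ k, G k i * pderiv ℂ k f) * pderiv ℂ i f) := by
    rw [Matrix.mul_apply, Finset.sum_mul, Finset.mul_sum, ← Finset.sum_sub_distrib]
    refine Finset.dvd_sum fun k _ => ?_
    obtain ⟨c, hc⟩ := hadj i k
    exact ⟨G k i * c, by linear_combination G k i * hc⟩
  have h7 : f ∣ (vf ξ γ + 2 * γ * (l - G.trace)) * (pderiv ℂ i f * pderiv ℂ i f) := by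
    have h1' : f ∣ vf ξ (Θ.adjugate i i) - (2 * G.trace * Θ.adjugate i i -
        (Gᵀ * Θ.adjugate) i i - (Θ.adjugate * G) i i) := h1
    obtain ⟨c1, e1⟩ := h1'
    obtain ⟨c2, e2⟩ := h2
    obtain ⟨c4, e4⟩ := h4
    obtain ⟨c5, e5⟩ := h5
    obtain ⟨c6, e6⟩ := h6
    obtain ⟨c0, e0⟩ := hadj i i
    refine ⟨c1 - c2 + 2 * G.trace * c0 - c5 - c6 - 2 * γ * pderiv ℂ i f * c4 -
      2 * γ * pderiv ℂ i f * pderiv ℂ i l, ?_⟩
    linear_combination e1 - e2 + 2 * G.trace * e0 - e5 - e6 - 2 * γ * pderiv ℂ i f * e4 +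
      2 * γ * pderiv ℂ i f * h3
  rcases hf.dvd_or_dvd h7 with h | h
  · exact h
  · exact absurd ((hf.dvd_or_dvd h).elim id id) hi

end Pool.Agent.MP_51db15_ag.Hy
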