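import Pool.Agent.MP_51db15_ag.Hy.Rows
import Pool.Agent.MP_51db15_ag.Hy.Base

/-! Some weight is positive. -/

namespace Pool.Agent.MP_51db15_ag.Hy

open MvPowerSeries Matrix

namespace C1

set_option linter.unusedSectionVars false

variable {ι : Type} [Fintype ι] [DecidableEq ι]

theorem weight_cast (W : ι → ℕ) (α : ι →₀ ℕ) :
    Finsupp.weight (fun i => (W i : ℚ)) α = (Finsupp.weight W α : ℕ) := by
  rw [Finsupp.weight_apply, Finsupp.weight_apply, Finsupp.sum, Finsupp.sum]
  push_cast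
  simp

theorem comp_mul (W : ι → ℕ) (n : ℕ) (g h : PS ι) :
    comp (fun i => (W i : ℚ)) (n : ℚ) (g * h) = ∑ p ∈ Finset.HasAntidiagonal.antidiagonal n,
      comp (fun i => (W i : ℚ)) (p.1 : ℚ) g * comp (fun i => (W i : ℚ)) (p.2 : ℚ) h := by
  ext α
  simp only [coeff_comp, coeff_mul, map_sum, weight_cast, Nat.cast_inj]
  rw [Finset.sum_comm]
  have h1 : ∀ q ∈ Finset.HasAntidiagonal.antidiagonal α,
      (∑ p ∈ Finset.HasAntidiagonal.antidiagonal n,
      (if Finsupp.weight W q.1 = p.1 then coeff q.1 g else 0) *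
        if Finsupp.weight W q.2 = p.2 then coeff q.2 h else 0) =
      if Finsupp.weight W α = n then coeff q.1 g * coeff q.2 h else 0 := by
    intro q hq
    have h2 : q.1 + q.2 = α := by simpa using hq
    have h3 : Finsupp.weight W α = Finsupp.weight W q.1 + Finsupp.weight W q.2 := by
      rw [← h2, map_add]
    split_ifs with h4
    · rw [Finset.sum_eq_single (Finsupp.weight W q.1, Finsupp.weight W q.2)]
      · simp
      · rintro ⟨p₁, p₂⟩ _ hp
        by_cases h5 : Finsupp.weight W q.1 = p₁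
        · rw [if_neg (fun h6 : Finsupp.weight W q.2 = p₂ => hp (by rw [h5, h6])), mul_zero]
        · rw [if_neg h5, zero_mul]
      · exact fun h5 => absurd (by simp [← h3, h4]) h5
    · refine Finset.sum_eq_zero fun p hp => ?_
      have h5 : p.1 + p.2 = n := by simpa using hp
      split_ifs with h6 h7
      · omega
      all_goals simp
  rw [Finset.sum_congr rfl h1]
  split_ifs <;> simp

/-- expansion in components -/
noncomputable def mu (W : ι → ℕ) : PS ι →ₐ[ℂ] PowerSeries (PS ι) where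
  toFun g := PowerSeries.mk fun n => comp (fun i => (W i : ℚ)) (n : ℚ) g
  map_one' := by
    ext1 n
    rw [PowerSeries.coeff_mk, PowerSeries.coeff_one]
    split_ifs with h
    · subst h; simpa using isHom_one.comp_self
    · exact isHom_one.comp_ne (by exact_mod_cast h)
  map_mul' g h := by
    ext1 n
    simp only [PowerSeries.coeff_mk, PowerSeries.coeff_mul, comp_mul]
  map_zero' := by ext1 n; simp [comp_zero]
  map_add' g h := by ext1 n; simp [comp_add]
  commutes' c := by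
    ext1 n
    rw [PowerSeries.coeff_mk, PowerSeries.algebraMap_apply, PowerSeries.coeff_C]
    split_ifs with h
    · subst h; exact (isHom_C c).comp_self
    · exact (isHom_C c).comp_ne (by exact_mod_cast h)

theorem comp_eq_zero (W : ι → ℕ) {e : ℚ} (he : ∀ n : ℕ, (n : ℚ) ≠ e) (g : PS ι) :
    comp (fun i => (W i : ℚ)) e g = 0 := by
  ext α
  rw [coeff_comp, weight_cast, if_neg (he _), map_zero]

/-- the image of a valuation ring in its fraction field -/
noncomputable def img (P : Type) [CommRing P] [IsDomain P] [ValuationRing P] :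
    ValuationSubring (FractionRing P) where
  toSubring := (algebraMap P (FractionRing P)).range
  mem_or_inv_mem' := fun y => ValuationRing.isInteger_or_isInteger P y

theorem frac {K : Type} [Field K] {a b a' b' : PowerSeries K} {k : ℕ} (hb : b ≠ 0)
    (h : algebraMap _ (FractionRing (PowerSeries K)) a / algebraMap _ _ b ∈ img (PowerSeries K))
    (ha' : ∀ m, PowerSeries.X ^ m ∣ a → PowerSeries.X ^ (m + k) ∣ a')
    (hb' : ∀ m, PowerSeries.X ^ m ∣ b → PowerSeries.X ^ (m + k) ∣ b') :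
    ∃ p : PowerSeries K, (algebraMap _ (FractionRing (PowerSeries K)) a' * algebraMap _ _ b -
      algebraMap _ _ a * algebraMap _ _ b') / algebraMap _ _ b ^ 2 =
        algebraMap _ _ (PowerSeries.X ^ k * p) := by
  have hi := IsFractionRing.injective (PowerSeries K) (FractionRing (PowerSeries K))
  have hb0 : algebraMap _ (FractionRing (PowerSeries K)) b ≠ 0 := by simpa using hb
  obtain ⟨p, hp⟩ := h
  rw [eq_div_iff hb0, ← map_mul] at hp
  obtain rfl := hi hp
  obtain ⟨u, hu, e⟩ : ∃ u, IsUnit u ∧ b = PowerSeries.X ^ b.order.toNat * u :=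
    ⟨_, PowerSeries.isUnit_divided_by_X_pow_order hb,
      PowerSeries.X_pow_order_mul_divXPowOrder.symm⟩
  obtain ⟨w, hw⟩ := hu.exists_left_inv
  have h1 : PowerSeries.X ^ b.order.toNat ∣ b := ⟨u, e⟩
  obtain ⟨q, hq⟩ := ha' _ (h1.mul_left p)
  obtain ⟨q', hq'⟩ := hb' _ h1
  refine ⟨w * (q - p * q'), ?_⟩
  rw [div_eq_iff (pow_ne_zero _ hb0), ← map_mul, ← map_mul, ← map_sub, ← map_pow, ← map_mul]
  congr 1
  rw [hq, hq']
  generalize b.order.toNat = m at e
  rw [pow_two]
  nth_rw 3 [e]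
  rw [pow_add]
  linear_combination (-(PowerSeries.X ^ m * PowerSeries.X ^ k * b * (q - p * q'))) * hw

end C1

open C1

theorem c1 (kae : S_KAE) : S_C1 := by
  intro ι _ _ f Θ a d hf hP hW hS hG hd
  by_contra hc
  push Not at hc
  obtain ⟨m, W, hm, hW'⟩ : ∃ (m : ℕ) (W : ι → ℕ), 0 < m ∧ ∀ i, (W i : ℚ) = -m * a i := by
    have h1 : ∀ i, ∃ n : ℕ, (n : ℚ) = -((∏ i, (a i).den : ℕ) : ℚ) * a i := fun i => by
      obtain ⟨k, hk⟩ : (a i).den ∣ ∏ i, (a i).den := Finset.dvd_prod_of_mem _ (Finset.mem_univ i)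
      refine ⟨k * (-(a i).num).toNat, ?_⟩
      have h2 : (((-(a i).num).toNat : ℕ) : ℚ) = -(a i).num := by
        exact_mod_cast Int.toNat_of_nonneg (neg_nonneg.2 (Rat.num_nonpos.2 (hc i)))
      rw [hk]
      push_cast
      rw [h2, ← Rat.den_mul_eq_num]
      ring
    choose W hW using h1
    exact ⟨_, W, Finset.prod_pos fun i _ => (a i).den_pos, hW⟩
  have hsc : ∀ {e g}, IsHom a e g → IsHom (fun i => (W i : ℚ)) (-m * e) (g : PS ι) := by
    intro e g h
    simp only [hW']
    exact h.map (AddMonoidHom.mulLeft (-m : ℚ))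
  obtain ⟨i, hi⟩ : ∃ i, a i ≠ 0 := by
    by_contra h0
    push Not at h0
    refine hf.ne_zero (MvPowerSeries.ext fun α => hG.1.coeff_eq_zero ?_)
    simpa [Finsupp.weight_apply, h0] using hd.symm
  have : (Ideal.span {f}).IsPrime := (Ideal.span_singleton_prime hf.ne_zero).2 hf
  let K := FractionRing (PS ι ⧸ Ideal.span {f})
  let φ₀ : PS ι →ₐ[ℂ] K := (IsScalarTower.toAlgHom ℂ (PS ι ⧸ Ideal.span {f}) K).comp
    (Ideal.Quotient.mkₐ ℂ (Ideal.span {f}))
  have h0 : ∀ g, φ₀ g = 0 ↔ f ∣ g := fun g => by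
    simp [φ₀, Ideal.Quotient.eq_zero_iff_mem, Ideal.mem_span_singleton]
  let ν : PS ι →ₐ[ℂ] PowerSeries K := (PowerSeries.mapAlgHom φ₀).comp (mu W)
  have hν : ∀ g n, PowerSeries.coeff n (ν g) = φ₀ (comp (fun i => (W i : ℚ)) (n : ℚ) g) :=
    fun g n => (PowerSeries.coeff_map (φ₀ : PS ι →+* K) n (mu W g)).trans
      (congrArg φ₀ (PowerSeries.coeff_mk n fun n => comp (fun i => (W i : ℚ)) (n : ℚ) g))
  let φ : PS ι →ₐ[ℂ] FractionRing (PowerSeries K) := 
    (IsScalarTower.toAlgHom ℂ (PowerSeries K) (FractionRing (PowerSeries K))).comp ν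
  have hφν : ∀ g, φ g = algebraMap _ _ (ν g) := fun g => rfl
  have hj := IsFractionRing.injective (PowerSeries K) (FractionRing (PowerSeries K))
  have hφ : KerIs f φ := fun g => by
    rw [hφν, map_eq_zero_iff _ hj, PowerSeries.ext_iff]
    simp only [hν, map_zero, h0]
    refine ⟨fun h => dvd_of_dvd_comp (a := fun i => (W i : ℚ)) fun e => ?_,
      fun h n => (hsc hG.1).dvd_comp h _⟩
    by_cases he : ∃ n : ℕ, (n : ℚ) = e
    · obtain ⟨n, rfl⟩ := he
      exact h n
    · rw [comp_eq_zero W (by simpa using he)]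
      exact dvd_zero _
  have hsh : ∀ (v : ι → PS ι) (k : ℕ), Log f v →
      (∀ j, IsHom (fun i => (W i : ℚ)) (W j + k) (v j)) → ∀ g n, PowerSeries.X ^ n ∣ ν g →
      PowerSeries.X ^ (n + k) ∣ ν (vf v g) := by
    intro v k hv hh g n h
    rw [PowerSeries.X_pow_dvd_iff] at h ⊢
    intro r hr
    have e : (r : ℚ) = k + (r - k) := by ring
    rw [hν, e, comp_vf hh, h0]
    refine vf_dvd hv ?_
    by_cases hk : k ≤ r
    · rw [← Nat.cast_sub hk, ← h0, ← hν]
      exact h _ (by omega)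
    · rw [comp_eq_zero W]
      · exact dvd_zero _
      · intro s hs
        have : ((s + k : ℕ) : ℚ) = r := by push_cast; rw [hs]; ring
        have : s + k = r := by exact_mod_cast this
        omega
  have hfr : ∀ (v : ι → PS ι) (k : ℕ), Log f v →
      (∀ j, IsHom (fun i => (W i : ℚ)) (W j + k) (v j)) → ∀ x y, φ y ≠ 0 →
      φ x / φ y ∈ img (PowerSeries K) →
      ∃ p, dfr φ v x y = algebraMap _ _ (PowerSeries.X ^ k * p : PowerSeries K) :=
    fun v k hv hh x y hy hxy => frac (b := ν y) (fun h : ν y = 0 => hy (by rw [hφν, h, map_zero])) hxy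
      (hsh v k hv hh x) (hsh v k hv hh y)
  have hE : vf (eul a) f = C (d : ℂ) * f := vf_eul hG.1
  have hEl : Log f (eul a) := ⟨C (d : ℂ), by rw [hE, mul_comm]⟩
  have hE0 := hfr (eul a) 0 hEl fun j => (isHom_eul _ a j).congr (by simp)
  have hH := hfr (Θ i) (W i + m) (hP.tang i) fun j => (hsc (hG.2 i j)).congr (by
    push_cast; rw [hW', hW']; ring)
  obtain ⟨S, _, c, x, y, x', y', h1, h2⟩ := (((kae ι f Θ hf hP).2 _ φ hφ).2 _).1
    (hW (eul a) ⟨constantCoeff_eul a, _, by rw [isUnit_iff']; simpa using hd, hE⟩ _ φ hφ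
      (img (PowerSeries K)) (fun g => ⟨_, (hφν g).symm⟩) fun x y hy hxy => by
        obtain ⟨p, hp⟩ := hE0 x y hy hxy
        exact ⟨_, hp.symm⟩)
  have hdq : ∀ (v : ι → PS ι) x y, dq φ x y ⬝ᵥ (fun k => φ (v k)) = dfr φ v x y := fun v x y => by
    simp only [dq, dfr, dotProduct, vf_apply, map_sum, map_mul, Finset.sum_mul, Finset.mul_sum,
      ← Finset.sum_sub_distrib, Finset.sum_div]
    exact Finset.sum_congr rfl fun k _ => by ring
  have h3 := h2 (Pi.single i 1) (fun k => φ (Θ i k)) (fun k => φ (eul a k))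
    (fun k => by simp [Pi.single_apply]) (by
      have := (hφ _).2 hEl
      rw [vf_apply, map_sum] at this
      simpa [mul_comm] using this)
  simp only [hdq] at h3
  have h4 : ∀ s, ∃ p, c s * (dfr φ (Θ i) (x s) (y s) * dfr φ (eul a) (x' s) (y' s) -
      dfr φ (Θ i) (x' s) (y' s) * dfr φ (eul a) (x s) (y s)) =
        algebraMap _ _ (PowerSeries.X ^ (W i + m) * p : PowerSeries K) := fun s => by
    obtain ⟨⟨c', hc'⟩, h5, h6, h7, h8⟩ := h1 s
    obtain ⟨p₁, e₁⟩ := hH _ _ h5 h7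
    obtain ⟨p₂, e₂⟩ := hH _ _ h6 h8
    obtain ⟨p₃, e₃⟩ := hE0 _ _ h5 h7
    obtain ⟨p₄, e₄⟩ := hE0 _ _ h6 h8
    refine ⟨c' * (p₁ * p₄ - p₂ * p₃), ?_⟩
    rw [e₁, e₂, e₃, e₄, ← hc']
    simp only [map_mul, map_sub, pow_zero, map_one]
    ring
  choose p hp using h4
  simp only [hp, Pi.single_apply, ite_mul, one_mul, zero_mul, Finset.sum_ite_eq',
    Finset.mem_univ, if_true] at h3
  rw [← map_sum, ← Finset.mul_sum, hφν] at h3
  have h5 := PowerSeries.X_pow_dvd_iff.1 ⟨_, hj h3⟩ (W i) (by omega)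
  rw [hν, (isHom_eul (fun i => (W i : ℚ)) a i).comp_self, h0] at h5
  obtain ⟨q, hq⟩ := h5
  have h6 := congrArg (fun g => constantCoeff (pderiv ℂ i g)) hq
  simp only [eul, Derivation.leibniz, smul_eq_mul, map_add, map_mul, hS i,
    Prime.constantCoeff hf, pderiv_X_self, pderiv_C] at h6
  exact hi (by simpa using h6)

end Pool.Agent.MP_51db15_ag.Hy
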