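import Pool.Agent.MP_51db15_ag.Hy.Rows
import Pool.Agent.MP_51db15_ag.Hy.Base

/-! The regular element of weight one and the second grading. -/

namespace Pool.Agent.MP_51db15_ag.Hy

open MvPowerSeries Matrix

namespace C2

variable {ι : Type} [Fintype ι] [DecidableEq ι]

omit [DecidableEq ι] in
theorem br_X (Θ : Matrix ι ι (PS ι)) (i : ι) (h : PS ι) : br Θ (X i) h = vf (Θ i) h := by
  classical
  rw [br, Finset.sum_eq_single i]
  · rw [pderiv_X_self, one_mul]
  · intro j _ hj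
    rw [pderiv_X_of_ne hj.symm, zero_mul]
  · simp

omit [DecidableEq ι] in
theorem ham_apply (Θ : Matrix ι ι (PS ι)) (g : PS ι) (k : ι) :
    ham Θ g k = ∑ i, pderiv ℂ i g * Θ i k := by
  simp only [ham, br, vf_X]

omit [DecidableEq ι] in
theorem br_eq (Θ : Matrix ι ι (PS ι)) (g h : PS ι) :
    br Θ g h = ∑ i, ∑ k, pderiv ℂ i g * Θ i k * pderiv ℂ k h := by
  simp only [br, vf_apply, Finset.mul_sum, mul_assoc]

omit [DecidableEq ι] in
theorem vf_ham (Θ : Matrix ι ι (PS ι)) (g h : PS ι) : vf (ham Θ g) h = br Θ g h := by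
  rw [br_eq, vf_apply, Finset.sum_comm]
  simp only [ham_apply, Finset.sum_mul]

omit [DecidableEq ι] in
theorem br_skew {Θ : Matrix ι ι (PS ι)} (hs : Θᵀ = -Θ) (g h : PS ι) :
    br Θ g h = -br Θ h g := by
  rw [br_eq, br_eq, Finset.sum_comm, ← Finset.sum_neg_distrib]
  refine Finset.sum_congr rfl fun i _ => ?_
  rw [← Finset.sum_neg_distrib]
  refine Finset.sum_congr rfl fun k _ => ?_
  have h1 : Θ k i = -Θ i k := congrFun (congrFun hs i) k
  rw [h1]
  ring

omit [DecidableEq ι] in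
theorem br_self {Θ : Matrix ι ι (PS ι)} (hs : Θᵀ = -Θ) (g : PS ι) : br Θ g g = 0 := by
  have h1 := br_skew hs g g
  have h2 : (2 : ℂ) • br Θ g g = 0 := by
    rw [two_smul]
    linear_combination h1
  exact (smul_eq_zero.1 h2).resolve_left two_ne_zero

omit [DecidableEq ι] in
theorem br_sub_right (Θ : Matrix ι ι (PS ι)) (g h h' : PS ι) :
    br Θ g (h - h') = br Θ g h - br Θ g h' := by
  rw [← vf_ham, map_sub, vf_ham, vf_ham]

omit [DecidableEq ι] in
theorem br_neg_right (Θ : Matrix ι ι (PS ι)) (g h : PS ι) : br Θ g (-h) = -br Θ g h := by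
  rw [← vf_ham, map_neg, vf_ham]

theorem br_dvd {f : PS ι} {Θ : Matrix ι ι (PS ι)} (hp : Poi f Θ) (g : PS ι) {h : PS ι}
    (hh : f ∣ h) : f ∣ br Θ g h :=
  Finset.dvd_sum fun i _ => (vf_dvd (hp.tang i) hh).mul_left _

theorem br_congr {f : PS ι} {Θ : Matrix ι ι (PS ι)} (hp : Poi f Θ) (g : PS ι) {h h' : PS ι}
    (hh : f ∣ h - h') : f ∣ br Θ g h - br Θ g h' := by
  rw [← br_sub_right]
  exact br_dvd hp g hh

omit [DecidableEq ι] in
theorem isHom_br {a : ι → ℚ} {Θ : Matrix ι ι (PS ι)} (hΘ : ∀ i j, IsHom a (a i + a j - 1) (Θ i j))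
    {e e' : ℚ} {g h : PS ι} (hg : IsHom a e g) (hh : IsHom a e' h) :
    IsHom a (e + e' - 1) (br Θ g h) := by
  rw [br_eq]
  exact IsHom.sum fun i _ => IsHom.sum fun k _ =>
    (((hg.pderiv i).mul (hΘ i k)).mul (hh.pderiv k)).congr (by ring)

/-- the Jacobiator -/
noncomputable def jac (Θ : Matrix ι ι (PS ι)) (a b c : PS ι) : PS ι :=
  br Θ a (br Θ b c) - br Θ (br Θ a b) c - br Θ b (br Θ a c)

omit [DecidableEq ι] in
theorem jac_eq (Θ : Matrix ι ι (PS ι)) (a b c : PS ι) :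
    jac Θ a b c = vf (lie (ham Θ a) (ham Θ b) - ham Θ (br Θ a b)) c := by
  rw [vf_sub, vf_lie]
  simp only [vf_ham, jac]
  ring

omit [DecidableEq ι] in
theorem jac_cyc {Θ : Matrix ι ι (PS ι)} (hs : Θᵀ = -Θ) (a b c : PS ι) :
    jac Θ a b c = jac Θ b c a := by
  simp only [jac]
  rw [br_skew hs (br Θ a b) c, br_skew hs (br Θ b c) a, br_skew hs c a, br_skew hs b a,
    br_neg_right, br_neg_right]
  ring

omit [DecidableEq ι] in
theorem jac_red {f : PS ι} {Θ : Matrix ι ι (PS ι)} {a b : PS ι}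
    (h : ∀ k, f ∣ jac Θ a b (X k)) (c : PS ι) : f ∣ jac Θ a b c := by
  rw [jac_eq, vf_apply]
  refine Finset.dvd_sum fun k _ => Dvd.dvd.mul_right ?_ _
  have h1 := h k
  rwa [jac_eq, vf_X] at h1

theorem jac_dvd {f : PS ι} {Θ : Matrix ι ι (PS ι)} (hp : Poi f Θ) (a b c : PS ι) :
    f ∣ jac Θ a b c := by
  refine jac_red (fun k => ?_) c
  rw [← jac_cyc hp.skew]
  refine jac_red (fun j => ?_) b
  rw [← jac_cyc hp.skew]
  refine jac_red (fun i => ?_) a
  have h1 := hp.jac j k i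
  have h2 : jac Θ (X j) (X k) (X i) =
      vf (Θ j) (Θ k i) + vf (Θ k) (Θ i j) + vf (Θ i) (Θ j k) := by
    simp only [jac]
    rw [br_skew hp.skew (br Θ (X j) (X k)) (X i), br_skew hp.skew (X j) (X i), br_neg_right]
    simp only [br_X, vf_X]
    ring
  rw [h2]
  exact h1

/-- the linear coefficients -/
noncomputable def L (g : PS ι) : ι → ℂ := fun j => coeff (Finsupp.single j 1) g

omit [Fintype ι] [DecidableEq ι] in
theorem L_eq (g : PS ι) (j : ι) : L g j = constantCoeff (pderiv ℂ j g) := by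
  rw [← coeff_zero_eq_constantCoeff_apply, coeff_pderiv]
  simp [L]

omit [Fintype ι] [DecidableEq ι] in
theorem lin_row (v : ι → PS ι) (i : ι) : lin v i = L (v i) := rfl

omit [Fintype ι] [DecidableEq ι] in
theorem L_mul (g h : PS ι) (j : ι) :
    L (g * h) j = constantCoeff g * L h j + constantCoeff h * L g j := by
  simp only [L_eq, Derivation.leibniz, smul_eq_mul, map_add, map_mul]

omit [Fintype ι] [DecidableEq ι] in
theorem L_sum {S : Type} (T : Finset S) (g : S → PS ι) (j : ι) :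
    L (∑ s ∈ T, g s) j = ∑ s ∈ T, L (g s) j := by
  simp only [L, map_sum]

omit [Fintype ι] [DecidableEq ι] in
theorem L_dvd {f : PS ι} (hf : Prime f) (hs : Sing0 f) {x y : PS ι} (h : f ∣ x - y) :
    L x = L y := by
  obtain ⟨q, hq⟩ := h
  funext j
  have h1 : L (x - y) j = L x j - L y j := by simp only [L, map_sub]
  rw [hq, L_mul, Prime.constantCoeff hf, L_eq f j, hs j] at h1
  linear_combination -h1

omit [DecidableEq ι] in
theorem L_vf {v : ι → PS ι} (hv : ∀ i, constantCoeff (v i) = 0) (g : PS ι) :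
    L (vf v g) = L g ᵥ* lin v := by
  funext j
  rw [vf_apply, L_sum]
  simp only [vecMul, dotProduct]
  refine Finset.sum_congr rfl fun i _ => ?_
  rw [L_mul, hv, ← L_eq, zero_mul, zero_add]
  rfl

omit [DecidableEq ι] in
theorem L_map (p3 : S_P3) (ψ : PS ι ≃ₐ[ℂ] PS ι) (g : PS ι) :
    L (ψ g) = L g ᵥ* lin fun i => ψ (X i) := by
  funext j
  obtain ⟨h0, -, h2, -⟩ := p3.1 ℂ ι ι (ψ : PS ι →ₐ[ℂ] PS ι)
  have h1 : ∀ g, constantCoeff (ψ g) = constantCoeff g := h0
  have h3 : pderiv ℂ j (ψ g) = ∑ i, ψ (pderiv ℂ i g) * pderiv ℂ j (ψ (X i)) := h2 g j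
  rw [L_eq, h3, map_sum]
  simp only [vecMul, dotProduct]
  refine Finset.sum_congr rfl fun i _ => ?_
  rw [map_mul, h1, ← L_eq, ← L_eq]
  rfl

omit [Fintype ι] in
theorem L_X (k j : ι) : L (X k : PS ι) j = if j = k then 1 else 0 := by
  simp only [L, coeff_index_single_X]

omit [DecidableEq ι] in
theorem cc_ham {Θ : Matrix ι ι (PS ι)} (hv : Van Θ) (g : PS ι) (k : ι) :
    constantCoeff (ham Θ g k) = 0 := by
  rw [ham_apply, map_sum]
  exact Finset.sum_eq_zero fun i _ => by rw [map_mul, hv, mul_zero]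

omit [DecidableEq ι] in
theorem lin_ham {Θ : Matrix ι ι (PS ι)} (hv : Van Θ) (g : PS ι) (k i : ι) :
    lin (ham Θ g) k i = ∑ j, L g j * L (Θ j k) i := by
  rw [lin_row, ham_apply, L_sum]
  refine Finset.sum_congr rfl fun j _ => ?_
  rw [L_mul, hv, ← L_eq, zero_mul, add_zero]

theorem charpoly_conj (p3 : S_P3) (ψ : PS ι ≃ₐ[ℂ] PS ι) {v : ι → PS ι}
    (hv : ∀ i, constantCoeff (v i) = 0) :
    (lin fun k => ψ (vf v (ψ.symm (X k)))).charpoly = (lin v).charpoly := by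
  have h1 : (lin fun k => ψ.symm (X k)) * (lin fun i => ψ (X i)) = 1 := by
    ext k j
    have h := congrFun (L_map p3 ψ (ψ.symm (X k))) j
    rw [AlgEquiv.apply_symm_apply, L_X] at h
    rw [one_apply, if_congr eq_comm rfl rfl, h]
    rfl
  have h2 : (lin fun k => ψ (vf v (ψ.symm (X k)))) =
      (lin fun k => ψ.symm (X k)) * lin v * (lin fun i => ψ (X i)) := by
    ext k j
    rw [lin_row, L_map p3, L_vf hv]
    rfl
  rw [h2, charpoly_mul_comm, ← mul_assoc, mul_eq_one_comm.1 h1, one_mul]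

end C2

open C2 in
theorem c2 (p3 : S_P3) (rel : S_REL) (jord1 : S_JORD1) (jpoi : S_JPOI) (c2a : S_C2A) : S_C2 := by
  intro ι _ _ f Θ a d hf hp hs hv hg
  classical
  obtain ⟨g₀, hg₀, hmin⟩ : ∃ g₀ : PS ι, IsHom a 1 g₀ ∧ ∀ g : PS ι, IsHom a 1 g →
      (lin (ham Θ g₀)).charpoly.rootMultiplicity 0 ≤ (lin (ham Θ g)).charpoly.rootMultiplicity 0 := by
    obtain ⟨g₀, h₀⟩ := exists_minimalFor_of_wellFoundedLT (fun g : PS ι => IsHom a 1 g)
      (fun g => (lin (ham Θ g)).charpoly.rootMultiplicity 0) ⟨0, isHom_zero 1⟩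
    exact ⟨g₀, h₀.1, fun g hg => h₀.le hg⟩
  obtain ⟨ψ, c, hψ, hc, hnil⟩ := jord1 ι a (ham Θ g₀) (cc_ham hv g₀)
    fun i => (isHom_br hg.2 hg₀ (isHom_X i)).congr (by ring)
  obtain ⟨hr1, hr2⟩ := rel ι ι f Θ ψ
  obtain ⟨hf1, -, hp1, hs1, hv1, hbr⟩ := hr2 (ψ f) (tr ψ Θ) rfl (hr1 hp.skew) hf hp
  replace hs1 := hs1 hs
  replace hv1 := hv1 hv
  have hX : ∀ i, IsHom a (a i) (ψ.symm (X i)) := fun i =>
    (hψ _ _).2 (by rw [AlgEquiv.apply_symm_apply]; exact isHom_X i)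
  have hg1 : Grd a 1 d (ψ f) (tr ψ Θ) :=
    ⟨(hψ _ _).1 hg.1, fun i j => (hψ _ _).1 (isHom_br hg.2 (hX i) (hX j))⟩
  have hW : ∀ g k, ψ f ∣ ψ (vf (ham Θ g) (ψ.symm (X k))) - ham (tr ψ Θ) (ψ g) k := by
    intro g k
    have h := hbr g (ψ.symm (X k))
    rw [AlgEquiv.apply_symm_apply] at h
    rw [vf_ham, ← dvd_neg, neg_sub]
    exact h
  have hlin : ∀ g, (lin fun k => ψ (vf (ham Θ g) (ψ.symm (X k)))) = lin (ham (tr ψ Θ) (ψ g)) := by
    intro g
    funext k
    rw [lin_row, lin_row]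
    exact L_dvd hf1 hs1 (hW g k)
  have hch : ∀ g, (lin (ham (tr ψ Θ) (ψ g))).charpoly = (lin (ham Θ g)).charpoly := fun g => by
    rw [← hlin, charpoly_conj p3 ψ (cc_ham hv g)]
  set v : ι → PS ι := fun k => ψ (vf (ham Θ g₀) (ψ.symm (X k))) with hvdef
  have hvv : ∀ h, ψ f ∣ vf v h - br (tr ψ Θ) (ψ g₀) h := fun h => by
    rw [← vf_ham]
    exact vf_congr (hW g₀) h
  have hv0 : ∀ i, constantCoeff (v i) = 0 := fun i => by
    obtain ⟨q, hq⟩ := hW g₀ i
    have h := congrArg constantCoeff hq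
    rw [map_sub, cc_ham hv1, map_mul, Prime.constantCoeff hf1, zero_mul, sub_zero] at h
    exact h
  obtain ⟨f', Θ', e, hrel, hg', hf', hΘ'⟩ := jpoi ι (ψ f) (tr ψ Θ) a 1 d v c hf1 hp1 hg1
    (by
      have h := dvd_add (hvv (ψ f)) (br_dvd hp1 (ψ g₀) (dvd_refl _))
      rwa [sub_add_cancel] at h)
    (by
      intro g h
      have h1 := hvv (br (tr ψ Θ) g h)
      have h2 := br_congr hp1 h (hvv g)
      have h3 := br_congr hp1 g (hvv h)
      have h4 := jac_dvd hp1 (ψ g₀) g h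
      rw [br_skew hp1.skew h, br_skew hp1.skew h] at h2
      have h5 := dvd_add (dvd_sub (dvd_add h1 h2) h3) h4
      convert h5 using 1
      simp only [jac]
      ring)
    hv0 hc hnil
  obtain ⟨⟨u, hu⟩, hsk, hΘ⟩ := hrel
  have hu' : ψ f = u * f' := hu
  have hΘ1 : ∀ i j, f' ∣ Θ' i j - tr ψ Θ i j := fun i j => by
    have h : f' ∣ Θ' i j - br (tr ψ Θ) (X i) (X j) := hΘ i j
    rwa [br_X, vf_X] at h
  have hL : ∀ i j, L (Θ' i j) = L (tr ψ Θ i j) := fun i j =>
    L_dvd hf1 hs1 (by rw [hu', Units.mul_left_dvd]; exact hΘ1 i j)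
  obtain ⟨l, hl⟩ := Module.exists_dual_forall_apply_ne_zero (K := ℚ)
    (fun i : {i // c i ≠ 0} => c i) fun i => i.2
  have hl0 : ∀ i, l (c i) = 0 → c i = 0 := fun i h => by
    by_contra h1
    exact hl ⟨i, h1⟩ h
  have hA : ∀ i j, lin v i j ≠ 0 → c i = c j := fun i j h => by
    have h1 := hc i _ h
    rw [Finsupp.weight_single, one_smul] at h1
    exact h1.symm
  have hAe : lin v = lin (ham (tr ψ Θ) (ψ g₀)) := hlin g₀
  have hG₀ : IsHom a 1 (ψ g₀) := (hψ _ _).1 hg₀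
  refine ⟨ψ, f', Θ', fun i => l (c i), l e, ⟨⟨u, hu'⟩, hsk, hΘ1⟩, hg',
    ⟨hf'.map l.toAddMonoidHom, fun i j => ((hΘ' i j).map l.toAddMonoidHom).congr (by simp)⟩,
    ?_, ?_⟩
  · intro ζ p hζ hp0 hB
    by_contra hne
    obtain ⟨t, ht⟩ := (c2a ι (lin v) (Matrix.of fun k i => ∑ j, ζ j * L (Θ' j k) i) c hnil hA).2 p
      (by
        intro k i h
        obtain ⟨j, -, hj⟩ := Finset.exists_ne_zero_of_sum_ne_zero h
        have h1 := hΘ' j k _ (right_ne_zero_of_mul hj)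
        rw [Finsupp.weight_single, one_smul, hl0 j (hζ j (left_ne_zero_of_mul hj)).2,
          zero_add] at h1
        exact h1.symm)
      hne (fun i h => hl0 i (hp0 i h))
      (by
        funext k
        rw [← hB k, Finset.sum_comm]
        simp only [mulVec, dotProduct, of_apply, Finset.sum_mul, L])
    have hG : IsHom a 1 (ψ g₀ + ∑ j, C (t * ζ j) * X j) := by
      refine hG₀.add (IsHom.sum fun j _ => ?_)
      by_cases h : ζ j = 0
      · rw [h, mul_zero, map_zero, zero_mul]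
        exact isHom_zero 1
      · exact ((isHom_X j).C_mul _).congr (hζ j h).1
    have h1 := hmin (ψ.symm (ψ g₀ + ∑ j, C (t * ζ j) * X j))
      ((hψ _ _).2 (by rwa [AlgEquiv.apply_symm_apply]))
    rw [← hch, ← hch, AlgEquiv.apply_symm_apply, ← hAe] at h1
    have h2 : lin (ham (tr ψ Θ) (ψ g₀ + ∑ j, C (t * ζ j) * X j)) =
        lin v + t • Matrix.of fun k i => ∑ j, ζ j * L (Θ' j k) i := by
      ext k i
      rw [Matrix.add_apply, Matrix.smul_apply, hAe, lin_ham hv1, lin_ham hv1, of_apply,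
        smul_eq_mul, Finset.mul_sum, ← Finset.sum_add_distrib]
      refine Finset.sum_congr rfl fun j _ => ?_
      have h3 : L (ψ g₀ + ∑ j, C (t * ζ j) * X j) j = L (ψ g₀) j + t * ζ j := by
        simp only [L, map_add, map_sum, coeff_C_mul, coeff_index_single_X]
        simp
      rw [h3, hL]
      ring
    rw [h2] at h1
    exact absurd ht (not_lt.2 h1)
  · have h1 := (c2a ι (lin v) 0 c hnil hA).1
    by_cases h : L (ψ g₀) = 0
    · left
      intro i
      have h2 : lin v = 0 := by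
        ext k j
        rw [hAe, lin_ham hv1, h]
        simp
      have h3 : c i = 0 := by
        by_contra h4
        exact one_ne_zero (h1 (fun _ => 1) (by rw [h2, vecMul_zero]) i h4)
      simp only [h3, map_zero]
    · right
      obtain ⟨i, hi⟩ := Function.ne_iff.1 h
      have h2 : L (ψ g₀) ᵥ* lin v = 0 := by
        rw [hAe, ← L_vf (cc_ham hv1 _), vf_ham, br_self hp1.skew]
        funext j
        simp [L]
      have h3 : c i = 0 := by
        by_contra h4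
        exact hi (h1 _ h2 i h4)
      have h4 := hG₀ _ hi
      rw [Finsupp.weight_single, one_smul] at h4
      exact ⟨i, by simp only [h3, map_zero], h4⟩

end Pool.Agent.MP_51db15_ag.Hy
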