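import Pool.Agent.MP_51db15_ag.Hy.Rows

/-! Linear algebra of the regular element. -/

namespace Pool.Agent.MP_51db15_ag.Hy

open Matrix Polynomial

namespace C2A

variable {ι : Type} [Fintype ι] [DecidableEq ι]

theorem fin (U V : Matrix ι ι ℂ) (a : ℂ) (h : U.det ≠ a) :
    {t : ℂ | (U + t • V).det = a}.Finite := by
  have e : ∀ t : ℂ, ((U.map Polynomial.C + (Polynomial.X : ℂ[X]) • V.map Polynomial.C).det -
      Polynomial.C a).eval t = (U + t • V).det - a := fun t => by
    rw [eval_sub, eval_C, ← coe_evalRingHom, RingHom.map_det]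
    congr 2
    ext i j
    simp
    ring
  have n : (U.map Polynomial.C + (Polynomial.X : ℂ[X]) • V.map Polynomial.C).det -
      Polynomial.C a ≠ 0 := fun g => h (by
    have := e 0
    rw [g, eval_zero, zero_smul, add_zero] at this
    exact sub_eq_zero.1 this.symm)
  refine (Polynomial.finite_setOfPred_isRoot n).subset fun t ht => ?_
  rw [Set.mem_ofPred_eq, IsRoot, e, sub_eq_zero]
  exact ht

theorem blk (M : Matrix ι ι ℂ) (c : ι → ℂ) (h : ∀ i j, M i j ≠ 0 → c i = c j) :
    M.charpoly = (toSquareBlockProp M fun i => c i = 0).charpoly *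
      (toSquareBlockProp M fun i => ¬c i = 0).charpoly := by
  have e : ∀ (p : ι → Prop) [DecidablePred p],
      toSquareBlockProp M.charmatrix p = (toSquareBlockProp M p).charmatrix := fun p _ => by
    ext i j
    by_cases g : i = j
    · subst g
      simp [toSquareBlockProp_def]
    · have : (i : ι) ≠ j := fun k => g (Subtype.ext k)
      simp [toSquareBlockProp_def, charmatrix_apply_ne _ _ _ g, charmatrix_apply_ne _ _ _ this]
  unfold Matrix.charpoly
  rw [twoBlockTriangular_det M.charmatrix (fun i => c i = 0), e, e]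
  intro i hi j hj
  have g : i ≠ j := fun k => hi (k ▸ hj)
  rw [charmatrix_apply_ne _ _ _ g]
  by_contra k
  exact hi ((h i j fun z => k (by rw [z]; simp)).trans hj)

theorem one (A : Matrix ι ι ℂ) (c : ι → ℂ) (hN : IsNilpotent (A - diagonal c))
    (h : ∀ i j, A i j ≠ 0 → c i = c j) (l : ι → ℂ) (hl : l ᵥ* A = 0) (i : ι) (hi : c i ≠ 0) :
    l i = 0 := by
  obtain ⟨n, hn⟩ := hN
  have k : ∀ m : ℕ, l ᵥ* (A - diagonal c) ^ m = fun i => (-c i) ^ m * l i := fun m => by
    induction m with
    | zero => simp
    | succ m ih =>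
      rw [pow_succ, ← vecMul_vecMul, ih, vecMul_sub]
      funext j
      have : ((fun i => (-c i) ^ m * l i) ᵥ* A) j = (-c j) ^ m * (l ᵥ* A) j := by
        simp only [vecMul, dotProduct, Finset.mul_sum]
        refine Finset.sum_congr rfl fun x _ => ?_
        by_cases z : A x j = 0
        · simp [z]
        · rw [h x j z]; ring
      rw [Pi.sub_apply, this, hl, vecMul_diagonal]
      simp only [Pi.zero_apply]
      ring
  have := congrFun (k n) i
  rw [hn, vecMul_zero] at this
  exact (mul_eq_zero.1 this.symm).resolve_left (pow_ne_zero _ (neg_ne_zero.2 hi))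

theorem eqX (M : Matrix ι ι ℂ) (h : Fintype.card ι ≤ M.charpoly.rootMultiplicity 0) :
    M.charpoly = Polynomial.X ^ Fintype.card ι := by
  have := (le_rootMultiplicity_iff M.charpoly_monic.ne_zero).1 h
  rw [map_zero, sub_zero] at this
  exact eq_of_monic_of_dvd_of_natDegree_le (monic_X_pow _) M.charpoly_monic this (by simp)

end C2A

open C2A in
theorem c2a : S_C2A := by
  intro ι _ _ A B c hN h
  refine ⟨one A c hN h, fun p hB p0 hp hBp => ?_⟩
  have d1 : (toSquareBlockProp A fun i => ¬c i = 0).det ≠ 0 := fun z => by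
    obtain ⟨v, v0, hv⟩ := exists_vecMul_eq_zero_iff.2 z
    have := one A c hN h (fun i => if g : ¬c i = 0 then v ⟨i, g⟩ else 0) (by
      funext j
      simp only [vecMul, dotProduct, Pi.zero_apply]
      by_cases g : c j = 0
      · refine Finset.sum_eq_zero fun i _ => ?_
        by_cases k : c i = 0
        · simp [k]
        · rw [show A i j = 0 from by_contra fun y => k ((h i j y).trans g), mul_zero]
      · rw [← Fintype.sum_subtype_add_sum_subtype (fun i => ¬c i = 0)]
        have a := congrFun hv ⟨j, g⟩
        simp only [vecMul, dotProduct, Pi.zero_apply, toSquareBlockProp_def, of_apply] at a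
        rw [Finset.sum_eq_zero (s := Finset.univ) (f := fun i : {i // ¬¬c i = 0} => _)
          fun i _ => by rw [dif_neg i.2, zero_mul], add_zero]
        exact (Finset.sum_congr rfl fun i _ => by rw [dif_pos i.2]).trans a)
    refine v0 (funext fun i => ?_)
    have := this i i.2
    rwa [dif_pos i.2] at this
  have d0 : (1 - toSquareBlockProp B fun i => c i = 0).det = 0 := by
    refine exists_mulVec_eq_zero_iff.1 ⟨fun i => p i, fun z => p0 (funext fun i => ?_), ?_⟩
    · by_contra g
      exact g (congrFun z ⟨i, hp i g⟩)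
    · funext i
      have a := congrFun hBp i
      rw [sub_mulVec, one_mulVec, Pi.sub_apply, Pi.zero_apply, ← a, sub_eq_zero]
      simp only [mulVec, dotProduct, toSquareBlockProp_def, of_apply]
      rw [← Fintype.sum_subtype_add_sum_subtype (fun i => c i = 0),
        Finset.sum_eq_zero (s := Finset.univ) (f := fun j : {j // ¬c j = 0} => _)
          fun j _ => by rw [show p j = 0 from by_contra fun y => j.2 (hp j y), mul_zero], add_zero]
  have f1 := fin _ (toSquareBlockProp B fun i => ¬c i = 0) 0 d1
  have f0 := (fin (1 - toSquareBlockProp B fun i => c i = 0)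
    (-toSquareBlockProp A fun i => c i = 0) 1 (by rw [d0]; exact zero_ne_one)).image (·⁻¹)
  obtain ⟨t, ht⟩ := ((f1.union f0).union (Set.finite_singleton 0)).exists_notMem
  simp only [Set.mem_union, not_or, Set.mem_ofPred_eq, Set.mem_singleton_iff] at ht
  obtain ⟨⟨t1, t2⟩, t0⟩ := ht
  refine ⟨t, lt_of_lt_of_le (b := Fintype.card {i // c i = 0}) ?_ ?_⟩
  · rw [blk (A + t • B) c (fun i j z => by
      by_cases y : A i j = 0
      · exact hB i j fun w => z (by simp [y, w])
      · exact h i j y),
      rootMultiplicity_mul (mul_ne_zero (charpoly_monic _).ne_zero (charpoly_monic _).ne_zero),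
      rootMultiplicity_eq_zero (p := (toSquareBlockProp _ fun i => ¬c i = 0).charpoly) (fun z => t1 (by
        rw [IsRoot, ← coeff_zero_eq_eval_zero] at z
        have := det_eq_sign_charpoly_coeff (toSquareBlockProp (A + t • B) fun i => ¬c i = 0)
        rw [z, mul_zero] at this
        exact this)), add_zero]
    by_contra z
    have e := congrArg (eval t) (eqX _ (not_lt.1 z))
    rw [eval_charpoly, eval_pow, eval_X] at e
    refine t2 ⟨t⁻¹, ?_, inv_inv t⟩
    have g : (scalar {i // c i = 0}) t - toSquareBlockProp (A + t • B) (fun i => c i = 0) =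
        t • ((1 - toSquareBlockProp B fun i => c i = 0) +
          t⁻¹ • -toSquareBlockProp A fun i => c i = 0) := by
      ext i j
      simp only [toSquareBlockProp_def, scalar_apply, Matrix.sub_apply, of_apply, Matrix.add_apply,
        Matrix.smul_apply, Matrix.neg_apply, smul_eq_mul, diagonal_apply, Matrix.one_apply]
      split_ifs <;> field_simp <;> ring
    rw [g, det_smul] at e
    exact mul_left_cancel₀ (pow_ne_zero _ t0) (e.trans (mul_one _).symm)
  · have e : (A - diagonal c).charpoly = Polynomial.X ^ Fintype.card ι :=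
      sub_eq_zero.1 (isNilpotent_charpoly_sub_pow_of_isNilpotent hN).eq_zero
    rw [blk _ c (fun i j z => by
      by_cases y : i = j
      · rw [y]
      · exact h i j fun w => z (by simp [w, diagonal_apply_ne _ y]))] at e
    have g : toSquareBlockProp (A - diagonal c) (fun i => c i = 0) =
        toSquareBlockProp A fun i => c i = 0 := by
      ext i j
      simp [toSquareBlockProp_def, diagonal_apply, i.2]
    rw [g] at e
    obtain ⟨k, -, hk⟩ := (dvd_prime_pow prime_X _).1 (Dvd.intro _ e)
    have e2 := eq_of_monic_of_associated (charpoly_monic _) (monic_X_pow k) hk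
    have e3 := congrArg natDegree e2
    rw [charpoly_natDegree_eq_dim, natDegree_X_pow] at e3
    rw [le_rootMultiplicity_iff A.charpoly_monic.ne_zero, map_zero, sub_zero, blk A c h, e2, e3]
    exact Dvd.intro _ rfl

end Pool.Agent.MP_51db15_ag.Hy
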