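import Pool.Agent.MP_51db15_ag.Hy.Rows
import Pool.Agent.MP_51db15_ag.Hy.Base

/-! The zero weight space of the second grading. -/

namespace Pool.Agent.MP_51db15_ag.Hy

open MvPowerSeries Matrix

namespace C3

variable {ι : Type} [Fintype ι] [DecidableEq ι]

theorem mem_range (B : Matrix ι ι ℂ) (p : ι → ℂ)
    (h : ∀ η : ι → ℂ, (∀ k, ∑ i, η i * B i k = 0) → ∑ i, η i * p i = 0) :
    ∃ ζ : ι → ℂ, ∀ i, ∑ k, B i k * ζ k = p i := by
  by_contra hc
  have h1 : p ∉ LinearMap.range (Matrix.mulVecLin B) := by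
    rintro ⟨ζ, hζ⟩
    exact hc ⟨ζ, fun i => congrFun hζ i⟩
  obtain ⟨φ, h2, h3⟩ := Submodule.exists_le_ker_of_notMem h1
  have h4 : ∀ v : ι → ℂ, φ v = ∑ i, φ (fun j => if i = j then 1 else 0) * v i := fun v => by
    rw [LinearMap.pi_apply_eq_sum_univ]
    simp [mul_comm]
  refine h2 ?_
  rw [h4]
  refine h _ fun k => ?_
  have h5 : φ (Matrix.mulVecLin B (Pi.single k 1)) = 0 := h3 ⟨_, rfl⟩
  rw [h4] at h5
  simpa using h5

omit [DecidableEq ι] in
theorem weight_const {w : ι → ℚ} {A : ℚ} {α : ι →₀ ℕ} (h : ∀ i, α i ≠ 0 → w i = A) :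
    Finsupp.weight w α = ((Finsupp.degree α : ℕ) : ℚ) * A := by
  rw [Finsupp.weight_apply, Finsupp.sum_fintype _ _ (by simp), Finsupp.degree_eq_sum]
  push_cast
  rw [Finset.sum_mul]
  refine Finset.sum_congr rfl fun i _ => ?_
  by_cases h1 : α i = 0
  · simp [h1]
  · simp [h i h1]

omit [Fintype ι] [DecidableEq ι] in
theorem supp_of_prod {p : ι → ℂ} {α : ι →₀ ℕ} (h : (α.prod fun i n => p i ^ n) ≠ 0) (i : ι)
    (hi : α i ≠ 0) : p i ≠ 0 := by
  intro h0
  exact h (Finset.prod_eq_zero (Finsupp.mem_support_iff.2 hi) (by simp [h0, hi]))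

omit [Fintype ι] [DecidableEq ι] in
theorem ev_eq_sum (p : ι → ℂ) (g : PS ι) (S : Finset (ι →₀ ℕ))
    (h : ∀ α, coeff α g ≠ 0 → (∀ i, α i ≠ 0 → p i ≠ 0) → α ∈ S) :
    ev p g = ∑ α ∈ S, coeff α g * α.prod fun i n => p i ^ n := by
  refine finsum_eq_sum_of_support_subset _ fun α hα => ?_
  exact h α (left_ne_zero_of_mul hα) (supp_of_prod (right_ne_zero_of_mul hα))

theorem ev_lin (p : ι → ℂ) (g : PS ι)
    (h : ∀ α, coeff α g ≠ 0 → (∀ i, α i ≠ 0 → p i ≠ 0) → Finsupp.degree α = 1) :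
    ev p g = ∑ i, coeff (Finsupp.single i 1) g * p i := by
  rw [ev_eq_sum p g (Finset.univ.image fun i => Finsupp.single i 1), Finset.sum_image]
  · simp
  · exact fun i _ j _ hij => Finsupp.single_left_injective one_ne_zero hij
  · intro α h1 h2
    have h3 : α ∈ Set.range fun i : ι => Finsupp.single i 1 := by
      rw [Finsupp.range_single_one]
      exact h α h1 h2
    obtain ⟨i, rfl⟩ := h3
    exact Finset.mem_image_of_mem _ (Finset.mem_univ i)

theorem eq_single {α : ι →₀ ℕ} {i : ι} (h : α i = Finsupp.degree α) :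
    α = Finsupp.single i (Finsupp.degree α) := by
  ext j
  by_cases hj : j = i
  · subst hj
    simpa using h
  · rw [Finsupp.single_eq_of_ne hj]
    have h1 := Finset.add_sum_erase Finset.univ α (Finset.mem_univ i)
    rw [← Finsupp.degree_eq_sum, h] at h1
    have h2 : ∑ k ∈ Finset.univ.erase i, α k = 0 := by omega
    exact Finset.sum_eq_zero_iff.1 h2 j (by simp [hj])

theorem root (g : PS ι) (i j : ι) (hij : i ≠ j) (m : ℕ) (hm : m ≠ 0)
    (h : ∀ α, coeff α g ≠ 0 → (∀ k, α k ≠ 0 → k = i ∨ k = j) → Finsupp.degree α = m)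
    (h0 : coeff (Finsupp.single j m) g ≠ 0) :
    ∃ t : ℂ, ev (fun k => if k = i then 1 else if k = j then t else 0) g = 0 := by
  let S := (Finsupp.finite_of_degree_eq (σ := ι) m).toFinset
  let q : ℂ → ι → ℂ := fun t k => if k = i then 1 else if k = j then t else 0
  let P : Polynomial ℂ := ∑ α ∈ S, Polynomial.monomial (α j)
    (coeff α g * α.prod fun k n => q 1 k ^ n)
  have h1 : P.coeff m ≠ 0 := by
    simp only [P, Polynomial.finsetSum_coeff, Polynomial.coeff_monomial]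
    rw [Finset.sum_eq_single (Finsupp.single j m)]
    · simpa [q] using h0
    · intro α hα hne
      have h2 : Finsupp.degree α = m := by simpa [S] using hα
      rw [if_neg]
      intro h3
      exact hne (h2 ▸ eq_single (h3.trans h2.symm))
    · intro h2
      exact absurd (by simp [S]) h2
  have h2 : 0 < P.degree :=
    lt_of_lt_of_le (by exact_mod_cast Nat.pos_of_ne_zero hm) (Polynomial.le_degree_of_ne_zero h1)
  obtain ⟨t, ht⟩ := Complex.exists_root h2
  refine ⟨t, ?_⟩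
  rw [ev_eq_sum _ g S]
  · refine Eq.trans ?_ ht.eq_zero
    simp only [P, Polynomial.eval_finsetSum, Polynomial.eval_monomial]
    refine Finset.sum_congr rfl fun α _ => ?_
    rw [mul_assoc]
    congr 1
    rw [Finsupp.prod_fintype _ _ (by simp), Finsupp.prod_fintype _ _ (by simp)]
    have h3 : t ^ α j = ∏ k, if k = j then t ^ α k else 1 := by simp
    rw [h3, ← Finset.prod_mul_distrib]
    refine Finset.prod_congr rfl fun k _ => ?_
    by_cases h4 : k = i
    · subst h4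
      simp [q, hij]
    · by_cases h5 : k = j
      · subst h5
        simp [q, h4]
      · simp [q, h4, h5]
  · intro α h3 h4
    have h5 := h α h3 fun k hk => by
      have := h4 k hk
      by_contra h6
      push Not at h6
      simp [h6.1, h6.2] at this
    simpa [S] using h5

omit [DecidableEq ι] in
theorem term {a c : ι → ℚ} {A u v : ℚ} {p : ι → ℂ} (hp : ∀ i, p i ≠ 0 → c i = 0 ∧ a i = A)
    {g : PS ι} (h0 : constantCoeff g = 0) (ha : IsHom a u g) (hc : IsHom c v g) {α : ι →₀ ℕ}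
    (h1 : coeff α g ≠ 0) (h2 : ∀ i, α i ≠ 0 → p i ≠ 0) :
    v = 0 ∧ 1 ≤ Finsupp.degree α ∧ u = ((Finsupp.degree α : ℕ) : ℚ) * A := by
  refine ⟨?_, ?_, ?_⟩
  · rw [← hc α h1, weight_const (A := 0) fun i hi => (hp i (h2 i hi)).1, mul_zero]
  · rw [Nat.one_le_iff_ne_zero, Ne, Finsupp.degree_eq_zero_iff]
    rintro rfl
    exact h1 (by simpa using h0)
  · rw [← ha α h1, weight_const fun i hi => (hp i (h2 i hi)).2]

theorem one_of_le {A u : ℚ} {n : ℕ} (hA : 0 < A) (hn : 1 ≤ n) (h : u = n * A) (hu : u < 2 * A) :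
    n = 1 := by
  by_contra h1
  have h2 : (2 : ℚ) ≤ n := by exact_mod_cast (by omega : 2 ≤ n)
  nlinarith

theorem top (ev' : S_EV) (clt : S_CLT) {f : PS ι} {Θ : Matrix ι ι (PS ι)} {a c : ι → ℚ}
    {d e A : ℚ} (hf : Hyp f) (hP : Poi f Θ) (hW : WExt f Θ) (hV : Van Θ) (ha : Grd a 1 d f Θ)
    (hd : d ≠ 0) (hc : Grd c 0 e f Θ) (hN : NoEig a c Θ) (hA : 0 < A)
    (hmax : ∀ i, c i = 0 → a i ≤ A) (p : ι → ℂ) (hp : ∀ i, p i ≠ 0 → c i = 0 ∧ a i = A)
    (h0 : ev p f = 0) : p = 0 := by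
  have hadm : Adm a p := fun i hi => (hp i hi).2 ▸ hA
  obtain ⟨-, -, -, -, -, eneg, esupp, -⟩ := ev' ι a p hadm
  obtain ⟨ζ, hζ⟩ := mem_range (Matrix.of fun j k => ev p (Θ j k)) p fun η hη => by
    have h1 := clt ι f Θ a 1 d p η hf hP hW ha hd hadm h0 hη
    have h2 : ∑ i, η i * (a i : ℂ) * p i = (A : ℂ) * ∑ i, η i * p i := by
      rw [Finset.mul_sum]
      refine Finset.sum_congr rfl fun i _ => ?_
      by_cases h3 : p i = 0
      · simp [h3]
      · rw [(hp i h3).2]
        ring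
    rw [h2] at h1
    exact (mul_eq_zero.1 h1).resolve_left (by exact_mod_cast hA.ne')
  have hsk : ∀ j k, ev p (Θ k j) = -ev p (Θ j k) := fun j k => by
    rw [← eneg]
    exact congrArg _ (congrFun (congrFun hP.skew j) k)
  have hB : ∀ j k, ev p (Θ j k) ≠ 0 →
      c j + c k = 0 ∧ ∃ n : ℕ, 1 ≤ n ∧ a j + a k - 1 = n * A := fun j k h => by
    obtain ⟨α, h1, h2⟩ := esupp _ h
    obtain ⟨h3, h4, h5⟩ := term hp (hV j k) (ha.2 j k) (hc.2 j k) h1 h2
    exact ⟨by linarith, _, h4, h5⟩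
  refine hN (fun j => if a j = 1 ∧ c j = 0 then -ζ j else 0) p (fun j hj => ?_)
    (fun i hi => (hp i hi).1) fun k => ?_
  · by_contra h1
    exact hj (if_neg h1)
  have h1 : ∀ j, ∑ i, (if a j = 1 ∧ c j = 0 then -ζ j else 0) *
      coeff (Finsupp.single i 1) (Θ j k) * p i =
      (if a j = 1 ∧ c j = 0 then -ζ j else 0) * ev p (Θ j k) := fun j => by
    split_ifs with h2
    · rw [ev_lin, Finset.mul_sum]
      · simp only [mul_assoc]
      · intro α h3 h4
        obtain ⟨h5, h6, h7⟩ := term hp (hV j k) (ha.2 j k) (hc.2 j k) h3 h4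
        have h8 := hmax k (by linarith [h2.2])
        exact one_of_le hA h6 h7 (by linarith [h2.1])
    · simp
  simp only [h1]
  by_cases hk : c k = 0 ∧ a k = A
  · rw [← hζ k]
    refine Finset.sum_congr rfl fun j _ => ?_
    rw [Matrix.of_apply, hsk j k]
    by_cases h2 : ev p (Θ j k) = 0
    · simp [h2]
    · obtain ⟨h3, n, h4, h5⟩ := hB j k h2
      have h6 : c j = 0 := by linarith [hk.1]
      have h7 := hmax j h6
      obtain rfl := one_of_le hA h4 h5 (by linarith [hk.2])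
      rw [if_pos ⟨by push_cast at h5; linarith [hk.2], h6⟩]
      ring
  · have h2 : p k = 0 := by
      by_contra h3
      exact hk (hp k h3)
    rw [h2]
    refine Finset.sum_eq_zero fun j _ => ?_
    split_ifs with h3
    · by_cases h4 : ev p (Θ j k) = 0
      · simp [h4]
      · obtain ⟨h5, n, h6, h7⟩ := hB j k h4
        have h8 : c k = 0 := by linarith [h3.2]
        have h9 := hmax k h8
        obtain rfl := one_of_le hA h6 h7 (by linarith [h3.1])
        exact absurd ⟨h8, by push_cast at h7; linarith [h3.1]⟩ hk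
    · simp

end C3

open C3 in
theorem c3 (ev' : S_EV) (clt : S_CLT) (cdet : S_CDET) (c1 : S_C1) : S_C3 := by
  intro ι _ _ f Θ a c d e hf hP hW hS hV ha hd hc hN hcase
  have hex : ∃ i, c i = 0 ∧ 0 < a i := by
    rcases hcase with h | ⟨i, h1, h2⟩
    · obtain ⟨i, hi⟩ := c1 ι f Θ a d hf.1 hP hW hS ha hd
      exact ⟨i, h i, hi⟩
    · exact ⟨i, h1, by rw [h2]; exact one_pos⟩
  obtain ⟨i₁, hi₁, hi₁'⟩ := hex
  obtain ⟨μ, hμ, hmax⟩ := Finset.exists_max_image (Finset.univ.filter fun i => c i = 0) a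
    ⟨i₁, by simpa using hi₁⟩
  simp only [Finset.mem_filter, Finset.mem_univ, true_and] at hμ hmax
  have hA : 0 < a μ := hi₁'.trans_le (hmax _ hi₁)
  have htop := top ev' clt hf hP hW hV ha hd hc hN hA hmax
  have hf0 : constantCoeff f = 0 := Prime.constantCoeff hf.1
  let p : ι → ℂ := Pi.single μ 1
  have hp0 : ∀ i, p i ≠ 0 → i = μ := fun i hi => by
    by_contra h
    exact hi (Pi.single_eq_of_ne h _)
  have hp : ∀ i, p i ≠ 0 → c i = 0 ∧ a i = a μ := fun i hi => by
    rw [hp0 i hi]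
    exact ⟨hμ, rfl⟩
  have hadm : Adm a p := fun i hi => (hp i hi).2 ▸ hA
  obtain ⟨-, -, -, -, -, -, esupp, eeul⟩ := ev' ι a p hadm
  have hpf : ev p f ≠ 0 := fun h => by simpa [p] using congrFun (htop p hp h) μ
  obtain ⟨α, hα, hα'⟩ := esupp f hpf
  obtain ⟨he, hm, hdm⟩ := term hp hf0 ha.1 hc.1 hα hα'
  have huniq : ∀ i, c i = 0 → i ≠ μ → a i < a μ := fun i hi hne => by
    refine lt_of_le_of_ne (hmax i hi) fun hia => ?_
    have h1 : α = Finsupp.single μ (Finsupp.degree α) := by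
      refine eq_single ?_
      rw [Finsupp.degree_eq_sum, Finset.sum_eq_single μ]
      · intro k _ hk
        by_contra h
        exact hk (hp0 k (hα' k h))
      · simp
    obtain ⟨t, ht⟩ := root f i μ hne (Finsupp.degree α) (by omega) (fun β h2 h3 => by
      have h4 := ha.1 β h2
      rw [weight_const (A := a μ) (fun k hk => by rcases h3 k hk with rfl | rfl <;> simp [hia]),
        hdm] at h4
      exact_mod_cast mul_right_cancel₀ hA.ne' h4) (h1 ▸ hα)
    have h2 := htop _ (fun k hk => by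
      by_cases h3 : k = i
      · rw [h3]
        exact ⟨hi, hia⟩
      · by_cases h4 : k = μ
        · rw [h4]
          exact ⟨hμ, rfl⟩
        · simp [h3, h4] at hk) ht
    simpa using congrFun h2 i
  have hder : ev p (pderiv ℂ μ f) ≠ 0 := fun h => by
    have h1 := eeul a d d f ha.1 ha.1
    rw [Finset.sum_eq_single μ, h, mul_zero] at h1
    · exact mul_ne_zero (by exact_mod_cast hd) hpf h1.symm
    · intro k _ hk
      simp [p, Pi.single_eq_of_ne hk]
    · simp
  have hdet := cdet ι f Θ a 1 d p μ hf hP ha hadm hA hder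
  rw [Matrix.det_apply] at hdet
  obtain ⟨σ, -, hσ⟩ := Finset.exists_ne_zero_of_sum_ne_zero hdet
  have hσ' : ∀ j, c (σ j) + c j = 0 ∧ 1 + a μ ≤ a (σ j) + a j := fun j => by
    have h1 : ev p (Θ (σ j) j) ≠ 0 := fun h => hσ (by
      rw [Finset.prod_eq_zero (Finset.mem_univ j) (by simpa using h), smul_zero])
    obtain ⟨β, h2, h3⟩ := esupp _ h1
    obtain ⟨h4, h5, h6⟩ := term hp (hV _ _) (ha.2 _ _) (hc.2 _ _) h2 h3
    have h7 : (1 : ℚ) ≤ (Finsupp.degree β : ℕ) := by exact_mod_cast h5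
    exact ⟨by linarith, by nlinarith⟩
  have hgt : ∀ j, c j = 0 → j ≠ μ → 1 < a j := fun j hj hne => by
    obtain ⟨h1, h2⟩ := hσ' ⟨j, hne⟩
    have h3 := huniq (σ ⟨j, hne⟩) (by simpa [hj] using h1) (σ ⟨j, hne⟩).2
    simp only at h2
    linarith
  rcases hcase with h | ⟨i, h1, h2⟩
  · refine Or.inl fun j => ?_
    by_cases hj : j = μ
    · exact hj ▸ hA
    · exact one_pos.trans (hgt j (h j) hj)
  · have h3 : i = μ := by
      by_contra h4
      exact (hgt i h1 h4).ne' h2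
    subst h3
    have h4 : (1 : ℚ) ≤ (Finsupp.degree α : ℕ) := by exact_mod_cast hm
    refine Or.inr ⟨he, by nlinarith, i, fun j => if h : j ≠ i then (σ ⟨j, h⟩).1 else j, h1, h2,
      fun j hj h5 => ?_, fun j hj => ?_, fun j hj k hk h5 => ?_⟩
    · linarith [hgt j h5 hj, hmax j h5]
    · obtain ⟨h5, h6⟩ := hσ' ⟨j, hj⟩
      simp only [dif_pos hj]
      simp only at h5 h6
      exact ⟨(σ ⟨j, hj⟩).2, by linarith, by linarith⟩
    · have hj' : j ≠ i := hj
      have hk' : k ≠ i := hk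
      simp only [dif_pos hj', dif_pos hk'] at h5
      exact congrArg Subtype.val (σ.injective (Subtype.ext h5))

end Pool.Agent.MP_51db15_ag.Hy
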