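import Pool.Agent.MP_51db15_ag.Hy.Rows

/-! The level lowering injection. -/

namespace Pool.Agent.MP_51db15_ag.Hy

open MvPowerSeries Matrix

namespace C4

variable {ι : Type} [Fintype ι] [DecidableEq ι]

/-- extension by zero -/
noncomputable def ext0 (C : Finset ι) (z : C → ℂ) : ι → ℂ :=
  fun j => if h : j ∈ C then z ⟨j, h⟩ else 0

omit [Fintype ι] in
lemma ext0_out (C : Finset ι) (z : C → ℂ) (j : ι) (h : j ∉ C) : ext0 C z j = 0 := by
  simp [ext0, h]

omit [Fintype ι] in
lemma ext0_in (C : Finset ι) (z : C → ℂ) (j : C) : ext0 C z j = z j := by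
  simp [ext0, j.2]

lemma sum_ext0 (C : Finset ι) (z : C → ℂ) (g : ι → ℂ) :
    ∑ j, g j * ext0 C z j = ∑ j : C, g j * z j := by
  rw [← Finset.sum_subset (Finset.subset_univ C)
    (fun j _ hj => by rw [ext0_out C z j hj, mul_zero]), ← Finset.sum_coe_sort C]
  exact Finset.sum_congr rfl fun j _ => by rw [ext0_in]

lemma ker_of_card (M : ι → ι → ℂ) (R C : Finset ι) (h : R.card < C.card) :
    ∃ z : ι → ℂ, z ≠ 0 ∧ (∀ j ∉ C, z j = 0) ∧ ∀ i ∈ R, ∑ j, M i j * z j = 0 := by
  let N : Matrix R C ℂ := Matrix.of fun i j => M i j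
  have h1 : LinearMap.ker N.mulVecLin ≠ ⊥ :=
    LinearMap.ker_ne_bot_of_finrank_lt (by simpa using h)
  obtain ⟨z, hz, hz0⟩ := Submodule.exists_mem_ne_zero_of_ne_bot h1
  refine ⟨ext0 C z, fun h0 => hz0 ?_, ext0_out C z, fun i hi => ?_⟩
  · funext j
    have := congrFun h0 j
    rwa [ext0_in] at this
  · rw [sum_ext0]
    have := congrFun (LinearMap.mem_ker.mp hz) ⟨i, hi⟩
    simpa [N, Matrix.mulVec, dotProduct] using this

lemma surj_of_rows (M : ι → ι → ℂ) (R C : Finset ι)
    (h : ∀ ξ : ι → ℂ, (∀ i ∉ R, ξ i = 0) → (∀ j ∈ C, ∑ i, ξ i * M i j = 0) → ξ = 0)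
    (T : ι → ℂ) : ∃ z : ι → ℂ, (∀ j ∉ C, z j = 0) ∧ ∀ i ∈ R, ∑ j, M i j * z j = T i := by
  let N : Matrix R C ℂ := Matrix.of fun i j => M i j
  have h1 : LinearIndependent ℂ N.row := by
    rw [← Matrix.vecMul_injective_iff]
    have : Function.Injective N.vecMulLinear := by
      rw [injective_iff_map_eq_zero]
      intro ξ hξ
      have h0 := h (ext0 R ξ) (ext0_out R ξ) (fun j hj => by
        simp only [mul_comm (ext0 R ξ _)]
        rw [sum_ext0]
        have := congrFun hξ ⟨j, hj⟩
        simpa [N, Matrix.vecMul, dotProduct, mul_comm] using this)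
      funext i
      have := congrFun h0 i
      rwa [ext0_in] at this
    exact this
  have h2 : N.rank = Fintype.card R := h1.rank_matrix
  have h3 : LinearMap.range N.mulVecLin = ⊤ := by
    apply Submodule.eq_top_of_finrank_eq
    rw [Matrix.rank] at h2
    simpa using h2
  obtain ⟨z, hz⟩ := LinearMap.range_eq_top.mp h3 (fun i => T i)
  refine ⟨ext0 C z, ext0_out C z, fun i hi => ?_⟩
  rw [sum_ext0]
  have := congrFun hz ⟨i, hi⟩
  simpa [N, Matrix.mulVec, dotProduct] using this

/-- component of a vector on a level set -/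
noncomputable def lev (l : ι → ℚ) (t : ℚ) (z : ι → ℂ) : ι → ℂ :=
  fun i => if l i = t then z i else 0

/-- correction lemma: above a level where the rows of `B` are independent, every target is hit -/
lemma correct (l : ι → ℚ) (B M : ι → ι → ℂ) (t : ℚ)
    (hB : ∀ i j, B i j ≠ 0 → l i + l j = 1) (hMB : ∀ i j, l i + l j = 1 → M i j = B i j)
    (hM : ∀ i j, M i j ≠ 0 → 1 ≤ l i + l j)
    (hind : ∀ t' > t, ∀ ξ : ι → ℂ, (∀ i, ξ i ≠ 0 → l i = t') → (∀ j, ∑ i, ξ i * B i j = 0) → ξ = 0)
    (T : ι → ℂ) (hT : ∀ i, T i ≠ 0 → t < l i) :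
    ∃ z : ι → ℂ, (∀ j, z j ≠ 0 → t < 1 - l j) ∧ ∀ i, ∑ j, M i j * z j = T i := by
  obtain ⟨z, hz, hz'⟩ := surj_of_rows M (Finset.univ.filter fun i => t < l i)
    (Finset.univ.filter fun j => t < 1 - l j) (fun ξ hξ hξ' => by
      by_contra hne
      have hs : (Finset.univ.filter fun i => ξ i ≠ 0).Nonempty := by
        by_contra hs
        apply hne
        funext i
        by_contra hi
        exact hs ⟨i, by simpa using hi⟩
      obtain ⟨i₀, hi₀, hmax⟩ := Finset.exists_max_image _ l hs
      have hi₀' : ξ i₀ ≠ 0 := by simpa using hi₀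
      have ht : t < l i₀ := by
        by_contra ht
        exact hi₀' (hξ i₀ (by simpa using ht))
      have h0 := hind (l i₀) ht (lev l (l i₀) ξ) (fun i hi => by
        by_contra hh
        exact hi (by simp [lev, hh])) (fun j => by
        by_cases hj : l i₀ + l j = 1
        · rw [← hξ' j (by simp only [Finset.mem_filter, Finset.mem_univ, true_and]; linarith)]
          refine Finset.sum_congr rfl fun i _ => ?_
          by_cases hi : l i = l i₀
          · simp only [lev, if_pos hi]
            rw [hMB i j (by rw [hi]; exact hj)]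
          · simp only [lev, if_neg hi, zero_mul]
            by_contra hh
            have h1 : ξ i ≠ 0 := fun h => hh (by rw [h, zero_mul])
            have h2 : M i j ≠ 0 := fun h => hh (by rw [h, mul_zero])
            have h3 := hmax i (by simpa using h1)
            have h4 := hM i j h2
            exact hi (by linarith)
        · refine Finset.sum_eq_zero fun i _ => ?_
          by_cases hi : l i = l i₀
          · have : B i j = 0 := by
              by_contra hh
              exact hj (by rw [← hi]; exact hB i j hh)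
            rw [this, mul_zero]
          · simp only [lev, if_neg hi, zero_mul])
      have := congrFun h0 i₀
      simp only [lev, if_true, Pi.zero_apply] at this
      exact hi₀' this) T
  have hz1 : ∀ j, z j ≠ 0 → t < 1 - l j := fun j hj => by
    by_contra hh
    exact hj (hz j (by simpa using hh))
  refine ⟨z, hz1, fun i => ?_⟩
  by_cases hi : t < l i
  · exact hz' i (by simpa using hi)
  · have hT0 : T i = 0 := by
      by_contra hh
      exact hi (hT i hh)
    rw [hT0]
    refine Finset.sum_eq_zero fun j _ => ?_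
    by_contra hh
    have h1 : M i j ≠ 0 := fun h => hh (by rw [h, zero_mul])
    have h2 : z j ≠ 0 := fun h => hh (by rw [h, mul_zero])
    have h3 := hz1 j h2
    have h4 := hM i j h1
    exact hi (by linarith)

omit [DecidableEq ι] in
lemma exists_term {g h : ι → ℂ} (hs : ∑ j, g j * h j ≠ 0) : ∃ j, g j ≠ 0 ∧ h j ≠ 0 := by
  obtain ⟨j, -, hj⟩ := Finset.exists_ne_zero_of_sum_ne_zero hs
  exact ⟨j, left_ne_zero_of_mul hj, right_ne_zero_of_mul hj⟩

/-- the columns of `B` are independent -/
lemma core (l c : ι → ℚ) (μ x₀ : ι) (B : ι → ι → ℂ)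
    (htri : ∀ i, (0 < c i ∧ l i ≤ 0) ∨ i = μ ∨ (c i < 0 ∧ 2 ≤ l i)) (hμ : l μ = 1) (hcμ : c μ = 0)
    (hx₀ : l x₀ = 0) (hB : ∀ i j, B i j ≠ 0 → l i + l j = 1) (hB0 : B μ x₀ ≠ 0)
    (hcard : (Finset.univ.filter fun i => 0 < c i).card ≤
      (Finset.univ.filter fun i => c i < 0).card)
    (hM : ∀ y₀, c y₀ < 0 → ∃ M : ι → ι → ℂ, (∀ i j, M i j = -M j i) ∧
      (∀ i j, l i + l j = 1 → M i j = B i j) ∧
      (∀ i j, M i j ≠ 0 → ∃ m : ℕ, l i + l j = 1 + m * l y₀) ∧
      ((∀ v : ι → ℂ, (∀ i, ∑ j, M i j * v j = 0) → v y₀ = 0 → v = 0) ∨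
        ∀ ξ : ι → ℂ, (∀ j, ∑ i, ξ i * M i j = 0) → ξ y₀ = 0))
    (z : ι → ℂ) (hz : ∀ j, z j ≠ 0 → 0 < c j) (hBz : ∀ i, ∑ j, B i j * z j = 0) : z = 0 := by
  have hpos : ∀ i, 0 < c i → l i ≤ 0 := fun i hi => by
    rcases htri i with h | h | h
    · exact h.2
    · rw [h, hcμ] at hi; exact absurd hi (lt_irrefl _)
    · exact absurd hi (not_lt.mpr h.1.le)
  have hneg : ∀ i, 1 < l i → c i < 0 := fun i hi => by
    rcases htri i with h | h | h
    · linarith [h.2]
    · rw [h, hμ] at hi; exact absurd hi (lt_irrefl _)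
    · exact h.1
  have hone : ∀ i, l i = 1 → i = μ := fun i hi => by
    rcases htri i with h | h | h
    · linarith [h.2]
    · exact h
    · linarith [h.2]
  have hlt : ∀ i, l i < 1 → 0 < c i := fun i hi => by
    rcases htri i with h | h | h
    · exact h.1
    · rw [h, hμ] at hi; exact absurd hi (lt_irrefl _)
    · linarith [h.2]
  -- a row relation
  obtain ⟨ξ, hξ0, hξs, hξ⟩ := ker_of_card (fun j i => B i j)
    (Finset.univ.filter fun i => 0 < c i) (insert μ (Finset.univ.filter fun i => c i < 0)) (by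
      rw [Finset.card_insert_of_notMem (by simp [hcμ])]
      omega)
  have hξ1 : ∀ i, ξ i ≠ 0 → 1 ≤ l i := fun i hi => by
    have : i ∈ insert μ (Finset.univ.filter fun i => c i < 0) := by
      by_contra hh
      exact hi (hξs i hh)
    rcases Finset.mem_insert.mp this with h | h
    · rw [h, hμ]
    · have h' : c i < 0 := by simpa using h
      by_contra hh
      have := hlt i (not_le.mp hh)
      linarith
  have hξ2 : ∀ j, ∑ i, ξ i * B i j = 0 := fun j => by
    by_contra hh
    obtain ⟨i, h1, h2⟩ := exists_term hh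
    have h3 := hξ1 i h1
    have h4 := hB i j h2
    have := hξ j (by simpa using hlt j (by linarith))
    apply hh
    rw [← this]
    exact Finset.sum_congr rfl fun i _ => mul_comm _ _
  -- dependent levels
  let Dep : ℚ → Prop := fun t => ∃ η : ι → ℂ, η ≠ 0 ∧ (∀ i, η i ≠ 0 → l i = t) ∧
    ∀ j, ∑ i, η i * B i j = 0
  have hlev : ∀ i, ξ i ≠ 0 → Dep (l i) := fun i₀ hi₀ => by
    refine ⟨lev l (l i₀) ξ, fun h0 => hi₀ ?_, fun i hi => ?_, fun j => ?_⟩
    · have := congrFun h0 i₀
      simpa [lev] using this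
    · by_contra hh
      exact hi (by simp [lev, hh])
    · by_cases hj : l i₀ + l j = 1
      · rw [← hξ2 j]
        refine Finset.sum_congr rfl fun i _ => ?_
        by_cases hi : l i = l i₀
        · simp only [lev, if_pos hi]
        · have : B i j = 0 := by
            by_contra hh
            have := hB i j hh
            exact hi (by linarith)
          rw [this, mul_zero, mul_zero]
      · refine Finset.sum_eq_zero fun i _ => ?_
        by_cases hi : l i = l i₀
        · have : B i j = 0 := by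
            by_contra hh
            exact hj (by rw [← hi]; exact hB i j hh)
          rw [this, mul_zero]
        · simp only [lev, if_neg hi, zero_mul]
  have hnot1 : ¬ Dep 1 := by
    rintro ⟨η, h0, h1, h2⟩
    apply h0
    have hs : ∀ i, i ≠ μ → η i = 0 := fun i hi => by
      by_contra hh
      exact hi (hone i (h1 i hh))
    have := h2 x₀
    rw [Finset.sum_eq_single μ (fun i _ hi => by rw [hs i hi, zero_mul]) (by simp)] at this
    have hm : η μ = 0 := (mul_eq_zero.mp this).resolve_right hB0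
    funext i
    by_cases hi : i = μ
    · rw [hi, hm]; rfl
    · exact hs i hi
  classical
  have hs : (Finset.univ.filter fun i => 1 ≤ l i ∧ Dep (l i)).Nonempty := by
    obtain ⟨i, hi⟩ := Function.ne_iff.mp hξ0
    exact ⟨i, by simpa using ⟨hξ1 i hi, hlev i hi⟩⟩
  obtain ⟨i₁, hi₁, hmax⟩ := Finset.exists_max_image _ l hs
  obtain ⟨hb1, η, hη0, hηl, hη⟩ : 1 ≤ l i₁ ∧ Dep (l i₁) := by simpa using hi₁
  obtain ⟨y₀, hy₀⟩ := Function.ne_iff.mp hη0
  have hy₀' : η y₀ ≠ 0 := hy₀
  have hb : l y₀ = l i₁ := hηl y₀ hy₀'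
  have hb2 : 1 < l y₀ := by
    rcases hb1.lt_or_eq with h | h
    · rwa [hb]
    · exact absurd ⟨η, hη0, by rwa [h], hη⟩ hnot1
  have hcy := hneg y₀ hb2
  have hind : ∀ t' > l y₀, ∀ ξ : ι → ℂ, (∀ i, ξ i ≠ 0 → l i = t') →
      (∀ j, ∑ i, ξ i * B i j = 0) → ξ = 0 := fun t' ht' ζ h1 h2 => by
    by_contra h0
    obtain ⟨i, hi⟩ := Function.ne_iff.mp h0
    have hi' : l i = t' := h1 i hi
    have := hmax i (by
      simp only [Finset.mem_filter, Finset.mem_univ, true_and]
      exact ⟨by linarith, ζ, h0, by rwa [hi'], h2⟩)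
    linarith
  obtain ⟨M, hsk, hMB, hMm, hcase⟩ := hM y₀ hcy
  have hM1 : ∀ i j, M i j ≠ 0 → l i + l j = 1 ∨ l i + l j = 1 + l y₀ ∨
      1 + 2 * l y₀ ≤ l i + l j := fun i j h => by
    obtain ⟨m, hm⟩ := hMm i j h
    rcases m with _ | _ | m
    · left; simpa using hm
    · right; left; simpa using hm
    · right; right
      rw [hm]
      push_cast
      nlinarith [(Nat.cast_nonneg m : (0 : ℚ) ≤ m)]
  have hM2 : ∀ i j, M i j ≠ 0 → 1 ≤ l i + l j := fun i j h => by
    rcases hM1 i j h with h | h | h <;> linarith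
  rcases hcase with hA | hC
  · by_contra h0
    obtain ⟨j₀, hj₀⟩ := Function.ne_iff.mp h0
    have hj₀' : z j₀ ≠ 0 := hj₀
    have hl₀ := hpos j₀ (hz j₀ hj₀')
    have hz₀ : ∀ j, lev l (l j₀) z j ≠ 0 → l j = l j₀ := fun j hj => by
      by_contra hh
      exact hj (by simp [lev, hh])
    obtain ⟨z', hz', hMz'⟩ := correct l B M (max (l y₀) (1 - l j₀)) hB hMB hM2
      (fun t' ht' => hind t' (lt_of_le_of_lt (le_max_left _ _) ht'))
      (fun i => ∑ j, M i j * lev l (l j₀) z j) (fun i hi => by
        obtain ⟨j, h1, h2⟩ := exists_term hi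
        have h3 := hz₀ j h2
        have h4 : l i + l j ≠ 1 := fun h4 => by
          apply hi
          rw [← hBz i]
          refine Finset.sum_congr rfl fun k _ => ?_
          by_cases hk : l k = l j₀
          · simp only [lev, if_pos hk]
            rw [hMB i k (by linarith)]
          · have : B i k = 0 := by
              by_contra hh
              have := hB i k hh
              exact hk (by linarith)
            simp only [lev, if_neg hk, this, mul_zero, zero_mul]
        rw [max_lt_iff]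
        rcases hM1 i j h1 with h | h | h
        · exact absurd h h4
        · constructor <;> linarith
        · constructor <;> linarith)
    have hv := hA (fun j => lev l (l j₀) z j - z' j) (fun i => by
      simp only [mul_sub, Finset.sum_sub_distrib, hMz' i, sub_self]) (by
      have h1 : lev l (l j₀) z y₀ = 0 := by
        by_contra hh
        have := hz₀ y₀ hh
        linarith
      have h2 : z' y₀ = 0 := by
        by_contra hh
        have := lt_of_le_of_lt (le_max_left _ _) (hz' y₀ hh)
        linarith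
      simp only [h1, h2, sub_self])
    have h1 := congrFun hv j₀
    have h2 : z' j₀ = 0 := by
      by_contra hh
      exact lt_irrefl _ (lt_of_le_of_lt (le_max_right _ _) (hz' j₀ hh))
    simp only [lev, if_true, h2, sub_zero, Pi.zero_apply] at h1
    exact hj₀' h1
  · exfalso
    have hM0 : M μ x₀ ≠ 0 := by
      rw [hMB μ x₀ (by rw [hμ, hx₀, add_zero])]
      exact hB0
    obtain ⟨r, hr⟩ : ∃ r : ℂ, M μ x₀ * r = ∑ i, η i * M i μ :=
      ⟨_, mul_div_cancel₀ _ hM0⟩
    obtain ⟨ζ, hζ, hMζ⟩ := correct l B M (l y₀) hB hMB hM2 hind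
      (fun k => ∑ i, η i * M i k - M k x₀ * r) (fun k hk => by
        have hkμ : l k ≠ 1 := fun h => hk (by rw [hone k h, hr, sub_self])
        by_cases h1 : ∑ i, η i * M i k = 0
        · have h2 : M k x₀ ≠ 0 := fun h => hk (by rw [h1, h, zero_mul, sub_self])
          rcases hM1 k x₀ h2 with h | h | h
          · exact absurd (by linarith) hkμ
          · linarith
          · linarith
        · obtain ⟨i, h2, h3⟩ := exists_term h1
          have h4 := hηl i h2
          rcases hM1 i k h3 with h | h | h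
          · exfalso
            apply h1
            rw [← hη k]
            refine Finset.sum_congr rfl fun i' _ => ?_
            by_cases h5 : η i' = 0
            · rw [h5, zero_mul, zero_mul]
            · rw [hMB i' k (by have := hηl i' h5; linarith)]
          · exact absurd (by linarith) hkμ
          · linarith)
    have hne : y₀ ≠ x₀ := fun h => by
      rw [h] at hb2
      linarith
    have := hC (fun i => η i + (ζ i + (Pi.single x₀ r : ι → ℂ) i)) (fun k => by
      have h1 : ∑ i, ζ i * M i k = -∑ j, M k j * ζ j := by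
        rw [← Finset.sum_neg_distrib]
        exact Finset.sum_congr rfl fun i _ => by rw [hsk i k]; ring
      have h2 : ∑ i, (Pi.single x₀ r : ι → ℂ) i * M i k = -(M k x₀ * r) := by
        rw [Finset.sum_eq_single x₀ (fun i _ hi => by simp [hi]) (by simp), hsk x₀ k]
        simp [mul_comm]
      simp only [add_mul, Finset.sum_add_distrib, h1, h2, hMζ k]
      ring)
    have h2 : ζ y₀ = 0 := by
      by_contra hh
      have := hζ y₀ hh
      linarith
    simp only [h2, Pi.single_eq_of_ne hne, add_zero] at this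
    exact hy₀' this

/-- a transversal of independent columns -/
lemma hall (P : ι → Prop) (B : ι → ι → ℂ)
    (h : ∀ z : ι → ℂ, (∀ j, z j ≠ 0 → P j) → (∀ i, ∑ j, B i j * z j = 0) → z = 0) :
    ∃ τ : ι → ι, Set.InjOn τ {x | P x} ∧ ∀ x, P x → B (τ x) x ≠ 0 := by
  classical
  obtain ⟨τ, hτ, hτ'⟩ := (Finset.all_card_le_biUnion_card_iff_exists_injective
    (fun x : {x // P x} => Finset.univ.filter fun i => B i x ≠ 0)).mp (fun S => by
      by_contra hlt
      obtain ⟨z, hz0, hz1, hz2⟩ := ker_of_card B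
        (S.biUnion fun x : {x // P x} => Finset.univ.filter fun i => B i x ≠ 0)
        (S.map (Function.Embedding.subtype P)) (by rw [Finset.card_map]; omega)
      have hz3 : ∀ j, z j ≠ 0 → ∃ x ∈ S, (x : ι) = j := fun j hj => by
        have : j ∈ S.map (Function.Embedding.subtype P) := by
          by_contra hh
          exact hj (hz1 j hh)
        simpa [Finset.mem_map, -Subtype.exists] using this
      refine hz0 (h z (fun j hj => ?_) (fun i => ?_))
      · obtain ⟨x, -, rfl⟩ := hz3 j hj
        exact x.2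
      · by_contra hh
        obtain ⟨j, h1, h2⟩ := exists_term hh
        obtain ⟨x, hx, rfl⟩ := hz3 j h2
        exact hh (hz2 i (Finset.mem_biUnion.mpr ⟨x, hx, by simpa using h1⟩)))
  refine ⟨fun x => if hx : P x then τ ⟨x, hx⟩ else x, fun x hx y hy hxy => ?_, fun x hx => ?_⟩
  · have hx' : P x := hx
    have hy' : P y := hy
    simp only [dif_pos hx', dif_pos hy'] at hxy
    exact congrArg Subtype.val (hτ hxy)
  · simp only [dif_pos hx]
    simpa using hτ' ⟨x, hx⟩

omit [DecidableEq ι] in
lemma hom_comb {a c : ι → ℚ} {e e' : ℚ} {g : PS ι} (h : IsHom a e g) (h' : IsHom c e' g)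
    (p q : ℚ) {w : ι → ℚ} {e'' : ℚ} (hw : ∀ i, w i = p * a i + q * c i)
    (he : e'' = p * e + q * e') : IsHom w e'' g := fun α hα => by
  have h1 := h α hα
  have h2 := h' α hα
  rw [Finsupp.weight_eq_sum] at h1 h2 ⊢
  rw [he, ← h1, ← h2, Finset.mul_sum, Finset.mul_sum, ← Finset.sum_add_distrib]
  exact Finset.sum_congr rfl fun i _ => by rw [hw i]; simp only [nsmul_eq_mul]; ring

omit [Fintype ι] [DecidableEq ι] in
lemma prod_zero {p : ι → ℂ} {α : ι →₀ ℕ} {k : ι} (h : α k ≠ 0) (hp : p k = 0) :
    (α.prod fun i n => p i ^ n) = 0 :=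
  Finset.prod_eq_zero (Finsupp.mem_support_iff.mpr h) (by simp only [hp, zero_pow h])

omit [Fintype ι] [DecidableEq ι] in
lemma ev_supp {p : ι → ℂ} {g : PS ι} (h : ev p g ≠ 0) :
    ∃ α, coeff α g ≠ 0 ∧ ∀ i, α i ≠ 0 → p i ≠ 0 := by
  by_contra hh
  apply h
  refine finsum_eq_zero_of_forall_eq_zero fun α => ?_
  by_contra h0
  exact hh ⟨α, left_ne_zero_of_mul h0, fun i hi hp => right_ne_zero_of_mul h0 (prod_zero hi hp)⟩

omit [Fintype ι] [DecidableEq ι] in
lemma ev_congr {p q : ι → ℂ} {g : PS ι}
    (h : ∀ α, coeff α g ≠ 0 → (α.prod fun i n => p i ^ n) = α.prod fun i n => q i ^ n) :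
    ev p g = ev q g := by
  refine finsum_congr fun α => ?_
  by_cases h0 : coeff α g = 0
  · rw [h0, zero_mul, zero_mul]
  · rw [h α h0]

omit [DecidableEq ι] in
lemma weight_one (w : ι → ℚ) {α : ι →₀ ℕ} {x : ι} (h : ∀ i, α i ≠ 0 → i = x) :
    Finsupp.weight w α = α x * w x := by
  rw [Finsupp.weight_eq_sum, Finset.sum_eq_single x (fun i _ hi => by
    rw [show α i = 0 from by_contra fun hh => hi (h i hh), zero_smul]) (by simp), nsmul_eq_mul]

omit [DecidableEq ι] in
lemma weight_two (w : ι → ℚ) {α : ι →₀ ℕ} {x y : ι} (hxy : x ≠ y)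
    (h : ∀ i, α i ≠ 0 → i = x ∨ i = y) : Finsupp.weight w α = α x * w x + α y * w y := by
  rw [Finsupp.weight_eq_sum, Finset.sum_eq_add x y hxy (fun i _ hi => by
    rw [show α i = 0 from by_contra fun hh => (h i hh).elim hi.1 hi.2, zero_smul])
    (by simp) (by simp), nsmul_eq_mul, nsmul_eq_mul]

theorem main (hev : S_EV) (clt : S_CLT) (cdet : S_CDET) : S_C4 := by
  intro ι _ _ f Θ a c d s μ x₀ σ hyp poi wext van ga hd gc mu hs hx₀ hax₀
  obtain ⟨l, hl⟩ : ∃ l : ι → ℚ, ∀ i, l i = a i - s * c i := ⟨_, fun _ => rfl⟩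
  have hlx : l x₀ = 0 := by rw [hl, hax₀, sub_self]
  have hlμ : l μ = 1 := by rw [hl, mu.a1, mu.c0, mul_zero, sub_zero]
  have hlf : IsHom l d f := hom_comb ga.1 gc.1 1 (-s) (fun i => by rw [hl]; ring) (by ring)
  have hlΘ : ∀ i j, IsHom l (l i + l j - 1) (Θ i j) := fun i j =>
    hom_comb (ga.2 i j) (gc.2 i j) 1 (-s) (fun i => by rw [hl]; ring) (by rw [hl, hl]; ring)
  have hW : ∀ A : ℚ, Grd (fun i => A * l i + c i) A (A * d) f Θ := fun A =>
    ⟨hom_comb hlf gc.1 A 1 (fun i => by ring) (by ring),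
      fun i j => hom_comb (hlΘ i j) (gc.2 i j) A 1 (fun i => by ring) (by ring)⟩
  have hpos : ∀ i, 0 < c i → l i ≤ 0 := fun i hi => by
    have := hs i hi
    rw [hl]; linarith
  have htri : ∀ i, (0 < c i ∧ l i ≤ 0) ∨ i = μ ∨ (c i < 0 ∧ 2 ≤ l i) := fun i => by
    by_cases hi : i = μ
    · exact Or.inr (Or.inl hi)
    rcases lt_or_gt_of_ne (mu.ne i hi) with h | h
    · refine Or.inr (Or.inr ⟨h, ?_⟩)
      obtain ⟨-, h1, h2⟩ := mu.mat i hi
      have h3 := hpos (σ i) (by linarith)
      rw [hl, h1] at h3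
      rw [hl]; linarith
    · exact Or.inl ⟨h, hpos i h⟩
  have hsk : ∀ i j, Θ i j = -Θ j i := fun i j => congrFun (congrFun poi.skew j) i
  obtain ⟨p₀, hp₀⟩ : ∃ p₀ : ι → ℂ, ∀ i, p₀ i = if i = x₀ then 1 else 0 := ⟨_, fun _ => rfl⟩
  have hp₀' : ∀ i, p₀ i ≠ 0 → i = x₀ := fun i hi => by
    by_contra hh
    exact hi (by rw [hp₀, if_neg hh])
  have adm₀ : Adm (fun i => 1 * l i + c i) p₀ := fun i hi => by
    show 0 < 1 * l i + c i
    rw [hp₀' i hi, hlx]; linarith
  have hB : ∀ i j, ev p₀ (Θ i j) ≠ 0 → l i + l j = 1 ∧ 0 < c i + c j := fun i j h => by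
    obtain ⟨α, h1, h2⟩ := ev_supp h
    have h3 : ∀ k, α k ≠ 0 → k = x₀ := fun k hk => hp₀' k (h2 k hk)
    have h4 := hlΘ i j α h1
    have h5 := gc.2 i j α h1
    rw [weight_one _ h3] at h4 h5
    rw [hlx, mul_zero] at h4
    refine ⟨by linarith, ?_⟩
    have h6 : α x₀ ≠ 0 := fun h6 => by
      have : α = 0 := by
        ext k
        by_contra hk
        have hk' : α k ≠ 0 := hk
        exact hk' (by rw [h3 k hk', h6])
      rw [this, coeff_zero_eq_constantCoeff_apply] at h1
      exact h1 (van i j)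
    have h7 : (0 : ℚ) < α x₀ := by exact_mod_cast Nat.pos_of_ne_zero h6
    have := mul_pos h7 hx₀
    linarith
  have hf₀ : ev p₀ f = 0 := by
    by_contra h
    obtain ⟨α, h1, h2⟩ := ev_supp h
    have h4 := hlf α h1
    rw [weight_one _ (fun k hk => hp₀' k (h2 k hk)), hlx, mul_zero] at h4
    linarith
  have hB0 : ev p₀ (Θ μ x₀) ≠ 0 := fun h0 => by
    have := clt ι f Θ _ _ _ p₀ p₀ hyp poi wext (hW 1) (by linarith) adm₀ hf₀ (fun k => by
      rw [Finset.sum_eq_single x₀ (fun i _ hi => by rw [hp₀, if_neg hi, zero_mul]) (by simp)]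
      by_contra hh
      have h1 := (hB x₀ k (right_ne_zero_of_mul hh)).1
      have h2 : k = μ := by
        rcases htri k with h | h | h
        · linarith [h.2]
        · exact h
        · linarith [h.2]
      apply hh
      rw [h2, hsk x₀ μ, (hev ι _ p₀ adm₀).2.2.2.2.2.1, h0, neg_zero, mul_zero])
    rw [Finset.sum_eq_single x₀ (fun i _ hi => by rw [hp₀, if_neg hi, mul_zero]) (by simp),
      hp₀, if_pos rfl, hlx] at this
    have h1 : c x₀ = 0 := by simpa using this
    linarith
  have hcard : (Finset.univ.filter fun i => 0 < c i).card ≤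
      (Finset.univ.filter fun i => c i < 0).card := by
    have hne : ∀ i, 0 < c i → i ≠ μ := fun i hi h => by
      rw [h, mu.c0] at hi
      exact lt_irrefl _ hi
    refine Finset.card_le_card_of_injOn σ (fun i hi => ?_) (fun i hi j hj h => ?_)
    · have hi' : 0 < c i := by simpa using hi
      have := (mu.mat i (hne i hi')).2.1
      simp only [Finset.coe_filter, Finset.mem_univ, true_and, Set.mem_ofPred_eq]
      linarith
    · exact mu.inj (hne i (by simpa using hi)) (hne j (by simpa using hj)) h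
  have hcore := core l c μ x₀ (fun i j => ev p₀ (Θ i j)) htri hlμ mu.c0 hlx
    (fun i j h => (hB i j h).1) hB0 hcard (fun y₀ hy₀ => by
      have hly : 2 ≤ l y₀ := by
        rcases htri y₀ with h | h | h
        · linarith [h.1]
        · rw [h, mu.c0] at hy₀; exact absurd hy₀ (lt_irrefl _)
        · exact h.2
      have hxy : x₀ ≠ y₀ := fun h => by
        rw [h] at hx₀
        linarith
      obtain ⟨p, hp⟩ : ∃ p : ι → ℂ, ∀ i, p i = if i = x₀ ∨ i = y₀ then 1 else 0 :=
        ⟨_, fun _ => rfl⟩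
      have hp' : ∀ i, p i ≠ 0 → i = x₀ ∨ i = y₀ := fun i hi => by
        by_contra hh
        exact hi (by rw [hp, if_neg hh])
      have hpz : ∀ i, i ≠ x₀ ∧ i ≠ y₀ → p i = 0 := fun i hi => by
        by_contra hh
        exact (hp' i hh).elim hi.1 hi.2
      have hpx : p x₀ = 1 := by rw [hp, if_pos (Or.inl rfl)]
      have hpy : p y₀ = 1 := by rw [hp, if_pos (Or.inr rfl)]
      have adm : ∀ A : ℚ, 1 - c y₀ ≤ A → Adm (fun i => A * l i + c i) p := fun A hA i hi => by
        show 0 < A * l i + c i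
        rcases hp' i hi with h | h
        · rw [h, hlx]; linarith
        · rw [h]; nlinarith
      refine ⟨fun i j => ev p (Θ i j), fun i j => ?_, fun i j hij => ?_, fun i j h => ?_, ?_⟩
      · show ev p (Θ i j) = -ev p (Θ j i)
        rw [hsk i j, (hev ι _ p (adm _ le_rfl)).2.2.2.2.2.1]
      · refine ev_congr fun α hα => ?_
        by_cases h1 : ∀ k, α k ≠ 0 → k = x₀ ∨ k = y₀
        · have h2 := hlΘ i j α hα
          rw [weight_two _ hxy h1, hlx, hij, mul_zero, zero_add, sub_self] at h2
          have h3 : α y₀ = 0 := by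
            rcases mul_eq_zero.mp h2 with h | h
            · exact_mod_cast h
            · linarith
          refine Finsupp.prod_congr fun k hk => ?_
          have hk' : α k ≠ 0 := Finsupp.mem_support_iff.mp hk
          rcases h1 k hk' with h | h
          · rw [h, hpx, hp₀, if_pos rfl]
          · exact absurd (h ▸ h3) hk'
        · push Not at h1
          obtain ⟨k, h2, h3, h4⟩ := h1
          rw [prod_zero h2 (hpz k ⟨h3, h4⟩), prod_zero h2 (by rw [hp₀, if_neg h3])]
      · obtain ⟨α, h1, h2⟩ := ev_supp h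
        have h3 := hlΘ i j α h1
        rw [weight_two _ hxy (fun k hk => hp' k (h2 k hk)), hlx] at h3
        exact ⟨α y₀, by linarith⟩
      · by_cases hc : ev p (pderiv ℂ y₀ f) = 0
        · right
          intro ξ hξ
          have h1 := (hev ι _ p (adm _ le_rfl)).2.2.2.2.2.2.2 l _ d f (hW _).1 hlf
          rw [Finset.sum_eq_add x₀ y₀ hxy (fun i _ hi => by rw [hpz i hi, mul_zero, zero_mul])
            (by simp) (by simp), hlx, hc] at h1
          have hd' : (d : ℂ) ≠ 0 := by exact_mod_cast hd.ne'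
          have h2 : ev p f = 0 := by
            have : (d : ℂ) * ev p f = 0 := by rw [← h1]; simp
            exact (mul_eq_zero.mp this).resolve_left hd'
          have h3 : ∀ A : ℚ, 1 - c y₀ ≤ A →
              ξ x₀ * (c x₀ : ℂ) + ξ y₀ * ((A : ℂ) * l y₀ + c y₀) = 0 := fun A hA => by
            have := clt ι f Θ _ _ _ p ξ hyp poi wext (hW A)
              (mul_pos (by linarith) hd).ne' (adm A hA) h2 hξ
            rw [Finset.sum_eq_add x₀ y₀ hxy (fun i _ hi => by rw [hpz i hi, mul_zero])
              (by simp) (by simp), hlx, hpx, hpy] at this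
            rw [← this]
            push_cast
            ring
          have h4 := h3 _ le_rfl
          have h5 := h3 (1 - c y₀ + 1) (by linarith)
          have h6 : ξ y₀ * (l y₀ : ℂ) = 0 := by
            push_cast at h4 h5
            linear_combination h5 - h4
          have h7 : (l y₀ : ℂ) ≠ 0 := by exact_mod_cast (by linarith : l y₀ ≠ 0)
          exact (mul_eq_zero.mp h6).resolve_right h7
        · left
          intro v hv hv0
          have hdet := cdet ι f Θ _ _ _ p y₀ hyp poi (hW _) (adm _ le_rfl)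
            (adm _ le_rfl y₀ (by rw [hpy]; exact one_ne_zero)) hc
          have h1 := Matrix.eq_zero_of_mulVec_eq_zero hdet (v := fun j => v j) (by
            funext i
            have := hv i
            rw [Fintype.sum_eq_add_sum_subtype_ne _ y₀, hv0, mul_zero, zero_add] at this
            simpa [Matrix.mulVec, dotProduct] using this)
          funext i
          by_cases hi : i = y₀
          · rw [hi, hv0]; rfl
          · exact congrFun h1 ⟨i, hi⟩)
  obtain ⟨τ, hτ, hτ'⟩ := hall (fun x => 0 < c x) (fun i j => ev p₀ (Θ i j)) hcore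
  refine ⟨τ, hτ, fun x hx => ?_⟩
  obtain ⟨h1, h2⟩ := hB _ _ (hτ' x hx)
  refine ⟨?_, by rw [← hl, ← hl]; exact h1, h2⟩
  have h3 := hpos x hx
  rcases htri (τ x) with h | h | h
  · linarith [h.2]
  · exact Or.inl h
  · exact Or.inr h.1

end C4

theorem c4 (ev : S_EV) (clt : S_CLT) (cdet : S_CDET) : S_C4 := C4.main ev clt cdet

end Pool.Agent.MP_51db15_ag.Hy
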