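import Pool.Agent.MP_51db15_ag.Hy.Rows

/-! The two level lowering injections give positive weights. -/

namespace Pool.Agent.MP_51db15_ag.Hy

open Finset

namespace C5

variable {ι : Type} [Fintype ι] {a c c' : ι → ℚ} {μ : ι} {σ τ : ι → ι} {s : ℚ}

/-- the coordinates of positive level below `t` -/
def low (c : ι → ℚ) (t : ℚ) : Finset ι := univ.filter fun i => 0 < c i ∧ c i < t

theorem mem_low {t : ℚ} {i : ι} : i ∈ low c t ↔ 0 < c i ∧ c i < t := by simp [low]

theorem key (hc : ∀ i, c' i = -c i) (hm : Mu a c μ σ) (hl : Low a c μ s τ) {x : ι} (hx : 0 < c x) :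
    ∑ i ∈ low c (c x), a i + ∑ i ∈ low c' (c x), a i + a x - s * c x = (low c (c x)).card ∧
      (low c (c x)).card = (low c' (c x)).card := by
  classical
  have hne : ∀ i ∈ low c' (c x), i ≠ μ := fun i hi e => by
    have := (mem_low.1 hi).1
    rw [hc, e, hm.c0] at this
    simp at this
  have hσ : ∀ i ∈ low c' (c x), σ i ∈ low c (c x) := fun i hi => by
    rw [mem_low, (hm.mat i (hne i hi)).2.1, ← hc]
    exact mem_low.1 hi
  have iσ : Set.InjOn σ (low c' (c x)) := fun i hi j hj => hm.inj (hne i hi) (hne j hj)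
  have h1 := card_le_card_of_injOn σ hσ iσ
  have hx' : x ∉ low c (c x) := fun h => lt_irrefl _ (mem_low.1 h).2
  have hμ : μ ∉ low c' (c x) := fun h => hne μ h rfl
  have hp : ∀ i ∈ insert x (low c (c x)), 0 < c i ∧ c i ≤ c x := fun i hi => by
    rcases mem_insert.1 hi with rfl | hi
    exacts [⟨hx, le_rfl⟩, ⟨(mem_low.1 hi).1, (mem_low.1 hi).2.le⟩]
  have hτ : ∀ i ∈ insert x (low c (c x)), τ i ∈ insert μ (low c' (c x)) := fun i hi => by
    obtain ⟨e, -, e'⟩ := hl.2 i (hp i hi).1
    refine mem_insert.2 (e.imp_right fun e => mem_low.2 ?_)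
    have := (hp i hi).2
    rw [hc]
    constructor <;> linarith
  have iτ : Set.InjOn τ (insert x (low c (c x)) : Finset ι) := fun i hi j hj =>
    hl.1 (hp i hi).1 (hp j hj).1
  have h2 := card_le_card_of_injOn τ hτ iτ
  rw [card_insert_of_notMem hx', card_insert_of_notMem hμ] at h2
  have e : (low c (c x)).card = (low c' (c x)).card := by omega
  have s1 : (low c' (c x)).image σ = low c (c x) :=
    eq_of_subset_of_card_le (image_subset_iff.2 hσ) (by rw [card_image_of_injOn iσ, e])
  have s2 : (insert x (low c (c x))).image τ = insert μ (low c' (c x)) :=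
    eq_of_subset_of_card_le (image_subset_iff.2 hτ) (by
      rw [card_image_of_injOn iτ, card_insert_of_notMem hx', card_insert_of_notMem hμ, e])
  have t1 : ∑ i ∈ low c (c x), c i = -∑ i ∈ low c' (c x), c i := by
    rw [← s1, sum_image iσ, ← sum_neg_distrib]
    exact sum_congr rfl fun i hi => (hm.mat i (hne i hi)).2.1
  have t2 : ∑ i ∈ insert μ (low c' (c x)), (a i - s * c i) +
      ∑ i ∈ insert x (low c (c x)), (a i - s * c i) = (insert x (low c (c x))).card := by
    rw [← s2, sum_image iτ, ← sum_add_distrib, card_eq_sum_ones, Nat.cast_sum]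
    exact sum_congr rfl fun i hi => by simpa using (hl.2 i (hp i hi).1).2.1
  rw [sum_insert hμ, sum_insert hx', card_insert_of_notMem hx', sum_sub_distrib, sum_sub_distrib,
    ← mul_sum, ← mul_sum, t1, hm.c0, hm.a1] at t2
  push_cast at t2
  exact ⟨by linarith, e⟩

end C5

open C5

theorem c5 : S_C5 := by
  intro ι _ a c μ σ τ τ' s s' hm hl hl'
  have hm' : Mu a (fun i => -c i) μ σ := ⟨by simp [hm.c0], hm.a1, fun i hi => by
    simpa using hm.ne i hi, fun j hj => ⟨(hm.mat j hj).1, by
      simp [(hm.mat j hj).2.1], (hm.mat j hj).2.2⟩, hm.inj⟩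
  have h : ∀ x y, 0 < c x → c y = -c x → a x - s * c x = a y - s' * c x := fun x y hx e => by
    have e' : -c y = c x := by rw [e, neg_neg]
    obtain ⟨h1, h2⟩ := C5.key (c' := fun i => -c i) (fun _ => rfl) hm hl hx
    obtain ⟨h3, -⟩ := C5.key (c' := c) (x := y) (fun i => (neg_neg _).symm) hm' hl' (e' ▸ hx)
    simp only [e'] at h3
    rw [← h2] at h3
    linarith
  refine ⟨(s' - s) / 2, fun i => ?_⟩
  by_cases hi : i = μ
  · simp [hi, hm.c0, hm.a1]
  obtain ⟨-, h1, h2⟩ := hm.mat i hi
  rcases lt_or_gt_of_ne (hm.ne i hi) with h3 | h3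
  · have := h (σ i) i (by linarith) (by linarith)
    rw [h1] at this
    linarith
  · have := h i (σ i) h3 h1
    linarith

end Pool.Agent.MP_51db15_ag.Hy
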