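import Pool.Agent.MP_51db15_ag.Hy.Rows
import Pool.Agent.MP_51db15_ag.Hy.Base

/-! The principal minor of the bivector at a point where the gradient does not vanish. -/

namespace Pool.Agent.MP_51db15_ag.Hy

open MvPowerSeries Matrix

namespace CDET

theorem den {J : Type} [Fintype J] (a : J → ℚ) :
    ∃ N : ℕ, 0 < N ∧ ∃ z : J → ℤ, ∀ j, (z j : ℚ) = N * a j := by
  refine ⟨∏ j, (a j).den, Finset.prod_pos fun j _ => (a j).den_pos, ?_⟩
  have : ∀ j, ∃ z : ℤ, (z : ℚ) = (∏ j, (a j).den : ℕ) * a j := fun j => by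
    obtain ⟨m, hm⟩ := Finset.dvd_prod_of_mem (fun j => (a j).den) (Finset.mem_univ j)
    refine ⟨m * (a j).num, ?_⟩
    rw [hm, Int.cast_mul, ← (a j).mul_den_eq_num]
    push_cast
    ring
  exact ⟨fun j => (this j).choose, fun j => (this j).choose_spec⟩

variable {ι : Type} [Fintype ι]

omit [Fintype ι] in
theorem scale {w : ι → ℚ} {W : ι → ℤ} {N : ℚ} (h : ∀ j, (W j : ℚ) = N * w j) {e : ℚ} {E : ℤ}
    (hE : (E : ℚ) = N * e) {g : PS ι} (hg : IsHom w e g) : IsHom W E g := fun α hα => by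
  apply Int.cast_injective (α := ℚ)
  rw [hE, ← hg α hα]
  simp only [Finsupp.weight_apply, Finsupp.sum, Finset.mul_sum, nsmul_eq_mul, Int.cast_sum,
    Int.cast_mul, Int.cast_natCast, h, mul_left_comm N]

theorem ev0 (p : ι → ℂ) : ev p 0 = 0 := by simp [ev]

variable {W : ι → ℤ} {p : ι → ℂ} {ρ : PS ι →ₐ[ℂ] PowerSeries ℂ}
  (h1 : ∀ g (n : ℕ), PowerSeries.coeff n (ρ g) = ev p (comp W (n : ℤ) g))
  (h2 : ∀ g (n : ℤ), n < 0 → ev p (comp W n g) = 0)

include h1 h2 in
theorem hom {K : Type} [Field K] (φ : PowerSeries ℂ →+* K) {e : ℤ} {g : PS ι}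
    (hg : IsHom W e g) : φ (ρ g) = φ (.C (ev p g)) * φ .X ^ e := by
  rcases lt_or_ge e 0 with h | h
  · have a := h2 g e h
    rw [hg.comp_self] at a
    have b : ρ g = 0 := by
      ext n
      rw [h1, hg.comp_ne (by omega), ev0, map_zero]
    simp [a, b]
  · obtain ⟨m, rfl⟩ := Int.eq_ofNat_of_zero_le h
    rw [zpow_natCast, ← map_pow, ← map_mul]
    congr 1
    ext n
    rw [h1, PowerSeries.coeff_C_mul, PowerSeries.coeff_X_pow]
    split_ifs with c
    · rw [c, hg.comp_self, mul_one]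
    · rw [hg.comp_ne (by omega), ev0, mul_zero]

end CDET

theorem cdet (pi : S_PI) (rho : S_RHO) : S_CDET := by
  intro ι _ _ f Θ w w₀ d p i hf hΘ hG hA hi he h0
  obtain ⟨π, g, b, hP⟩ := pi ι f Θ hf hΘ
  obtain ⟨c, hc, hadj⟩ := hP.adj
  obtain ⟨N, hN, z, hz⟩ := CDET.den (J := ι ⊕ Bool) (Sum.elim w fun t => if t then w₀ else d)
  have N0 : (0 : ℚ) < N := by exact_mod_cast hN
  have hW : ∀ j, (z (.inl j) : ℚ) = N * w j := fun j => hz _
  have e0 : (z (.inr true) : ℚ) = N * w₀ := hz _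
  have eD : (z (.inr false) : ℚ) = N * d := hz _
  have pos : ∀ j, 0 < w j → 0 < z (.inl j) := fun j hj => by
    have : (0 : ℚ) < z (.inl j) := hW j ▸ mul_pos N0 hj
    exact_mod_cast this
  obtain ⟨ρ, h1, h2⟩ := rho ι (fun j => z (.inl j)) p fun j hj => pos j (hA j hj)
  have f1 := CDET.scale hW eD hG.1
  have f2 := f1.pderiv i
  obtain ⟨n, hn⟩ : ∃ n : ℕ, z (.inr false) - z (.inl i) = n := Int.eq_ofNat_of_zero_le (by
    by_contra a
    have := h2 (pderiv ℂ i f) _ (not_le.1 a)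
    rw [f2.comp_self] at this
    exact he this)
  have p0 : ρ (π i) ≠ 0 := fun a => he (by
    have := h1 (pderiv ℂ i f) n
    rw [← hn, f2.comp_self] at this
    rw [← this, hP.grad, map_add, map_mul, a, mul_zero, zero_add, map_mul, PowerSeries.coeff_mul]
    refine Finset.sum_eq_zero fun x hx => ?_
    have := Finset.HasAntidiagonal.mem_antidiagonal.1 hx
    have := pos i hi
    rw [h1, f1.comp_ne (by omega), CDET.ev0, zero_mul])
  have a0 : ρ (Θ.adjugate i i) ≠ 0 := by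
    rw [hadj, Matrix.smul_apply, vecMulVec_apply, smul_eq_mul, map_mul, map_mul]
    exact mul_ne_zero (hc.map ρ).ne_zero (mul_ne_zero p0 p0)
  obtain ⟨φ, hφ⟩ : ∃ φ : PowerSeries ℂ →+* FractionRing (PowerSeries ℂ), Function.Injective φ :=
    ⟨algebraMap _ _, IsFractionRing.injective _ _⟩
  have x0 : φ .X ≠ 0 := fun a => PowerSeries.X_ne_zero (hφ (a.trans (map_zero φ).symm))
  refine a0 (hφ ?_)
  have m : (φ.comp ρ.toRingHom).mapMatrix (Matrix.of fun j k : {j // j ≠ i} => Θ j k) =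
      diagonal (fun j : {j // j ≠ i} => φ .X ^ z (.inl j)) *
        (φ.comp PowerSeries.C).mapMatrix (Matrix.of fun j k : {j // j ≠ i} => ev p (Θ j k)) *
        diagonal fun k : {j // j ≠ i} => φ .X ^ (z (.inl k) - z (.inr true)) := by
    ext j k
    have := CDET.hom h1 h2 φ (CDET.scale (E := z (.inl j) + (z (.inl k) - z (.inr true))) hW
      (by push_cast; rw [hW, hW, e0]; ring) (hG.2 j k))
    rw [mul_diagonal, diagonal_mul]
    refine this.trans ?_
    rw [zpow_add₀ x0, mul_left_comm, ← mul_assoc]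
    rfl
  rw [adjugate_diag, map_zero]
  refine ((φ.comp ρ.toRingHom).map_det _).trans ?_
  rw [m, det_mul, det_mul, ← RingHom.map_det, h0, map_zero, mul_zero, zero_mul]

end Pool.Agent.MP_51db15_ag.Hy
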