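import Pool.Agent.MP_51db15_ag.Hy.Rows
import Pool.Agent.MP_51db15_ag.Hy.Base

/-! The orbit of an Euler field is tangent to the symplectic leaves. -/

namespace Pool.Agent.MP_51db15_ag.Hy

open MvPowerSeries Matrix

namespace CLT

variable {ι : Type} [Fintype ι]

theorem exists_int (w : ι → ℚ) : ∃ (n : ℕ) (W : ι → ℤ), 0 < n ∧ ∀ i, (W i : ℚ) = n * w i := by
  classical
  refine ⟨∏ i, (w i).den, fun i => (∏ j ∈ Finset.univ.erase i, ((w j).den : ℤ)) * (w i).num,
    Finset.prod_pos fun i _ => (w i).den_pos, fun i => ?_⟩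
  rw [← Finset.mul_prod_erase Finset.univ (fun j => (w j).den) (Finset.mem_univ i)]
  push_cast
  have := Rat.mul_den_eq_num (w i)
  rw [← this]
  ring

omit [Fintype ι] in
theorem weight_cast {w : ι → ℚ} {n : ℕ} {W : ι → ℤ} (h : ∀ i, (W i : ℚ) = n * w i)
    (α : ι →₀ ℕ) : ((Finsupp.weight W α : ℤ) : ℚ) = n * Finsupp.weight w α := by
  simp only [Finsupp.weight_apply, Finsupp.sum, nsmul_eq_mul]
  push_cast
  rw [Finset.mul_sum]
  exact Finset.sum_congr rfl fun i _ => by rw [h]; ring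

omit [Fintype ι] in
theorem ev_monomial (p : ι → ℂ) (α : ι →₀ ℕ) (c : ℂ) :
    ev p (monomial α c) = c * α.prod fun i n => p i ^ n := by
  classical
  rw [ev, finsum_eq_single _ α]
  · simp
  · intro β hβ
    simp [coeff_monomial, hβ]

/-- the prime ideal of the monomial curve -/
theorem exists_prime (rho : S_RHO) (hev : S_EV) (w : ι → ℚ) (p : ι → ℂ) (hp : Adm w p) :
    ∃ P : Ideal (PS ι), P.IsPrime ∧ (∀ g ∈ P, vf (eul w) g ∈ P) ∧
      ∀ e g, IsHom w e g → (g ∈ P ↔ ev p g = 0) := by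
  obtain ⟨n, W, hn, hW⟩ := exists_int w
  have hn' : (0 : ℚ) < n := by exact_mod_cast hn
  have hA : Adm W p := fun i hi => by
    have : (0 : ℚ) < W i := by rw [hW]; exact mul_pos hn' (hp i hi)
    exact_mod_cast this
  obtain ⟨ρ, h1, h2⟩ := rho ι W p hA
  obtain ⟨-, -, hC, -, h0, -, hs, -⟩ := hev ι w p hp
  have hmem : ∀ g, g ∈ RingHom.ker ρ.toRingHom ↔ ∀ k : ℕ, ev p (comp W (k : ℤ) g) = 0 := by
    intro g
    rw [RingHom.mem_ker, PowerSeries.ext_iff]
    exact forall_congr' fun k => by rw [← h1]; simp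
  refine ⟨RingHom.ker ρ.toRingHom, RingHom.ker_isPrime _, fun g hg => ?_, fun e g hg => ?_⟩
  · rw [hmem] at hg ⊢
    intro k
    have h3 : IsHom w ((k : ℚ) / n) (comp W (k : ℤ) g) := fun α hα => by
      have := weight_cast hW α
      rw [isHom_comp (a := W) (k : ℤ) g α hα] at this
      rw [eq_div_iff hn'.ne', mul_comm, ← this]
      simp
    have h4 := comp_vf (a := W) (e := 0) (v := eul w)
      (fun i => (isHom_eul W w i).congr (add_zero _).symm) (k : ℤ) g
    rw [zero_add] at h4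
    rw [h4, vf_eul h3, hC, hg, mul_zero]
  · rw [hmem]
    have h5 : ∀ α, coeff α g ≠ 0 → IsHom W (Finsupp.weight W α) g := fun α hα β hβ => by
      have a1 := weight_cast hW α
      have a2 := weight_cast hW β
      rw [hg α hα] at a1
      rw [hg β hβ, ← a1] at a2
      exact_mod_cast a2
    constructor
    · intro h
      by_contra hne
      obtain ⟨α, hα, -⟩ := hs g hne
      have h6 := (h5 α hα).comp_self
      rcases lt_or_ge (Finsupp.weight W α) 0 with hl | hl
      · exact hne (h6 ▸ h2 g _ hl)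
      · obtain ⟨k, hk⟩ := Int.eq_ofNat_of_zero_le hl
        exact hne (h6 ▸ hk ▸ h k)
    · intro h k
      by_cases hg0 : g = 0
      · rw [hg0, comp_zero, h0]
      · obtain ⟨α, hα⟩ : ∃ α, coeff α g ≠ 0 := by
          by_contra hc
          push Not at hc
          exact hg0 (MvPowerSeries.ext fun α => by simpa using hc α)
        by_cases hk : (k : ℤ) = Finsupp.weight W α
        · rw [hk, (h5 α hα).comp_self, h]
        · rw [(h5 α hα).comp_ne hk, h0]

theorem ev_sum (hev : S_EV) {w : ι → ℚ} {p : ι → ℂ} (hp : Adm w p) {S : Type} (T : Finset S)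
    (e : ℚ) (g : S → PS ι) (hg : ∀ s, IsHom w e (g s)) :
    ev p (∑ s ∈ T, g s) = ∑ s ∈ T, ev p (g s) := by
  classical
  obtain ⟨ha, -, -, -, h0, -⟩ := hev ι w p hp
  induction T using Finset.induction_on with
  | empty => simpa using h0
  | insert s T hs ih =>
    rw [Finset.sum_insert hs, Finset.sum_insert hs, ha e _ _ (hg s) (IsHom.sum fun s _ => hg s), ih]

/-- exponents supported where the point does not vanish -/
def Sup (p : ι → ℂ) (α : ι →₀ ℕ) : Prop := ∀ i, α i ≠ 0 → p i ≠ 0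

omit [Fintype ι] in
theorem Sup.add {p : ι → ℂ} {α β : ι →₀ ℕ} (h : Sup p α) (h' : Sup p β) : Sup p (α + β) := by
  intro i hi
  by_cases h1 : α i = 0
  · exact h' i (by simpa [h1] using hi)
  · exact h i h1

omit [Fintype ι] in
theorem Sup.zero (p : ι → ℂ) : Sup p 0 := fun i hi => by simp at hi

/-- the class of weights reached from the support -/
def Cl (w : ι → ℚ) (p : ι → ℂ) (i : ι) : Prop :=
  ∃ α α', Sup p α ∧ Sup p α' ∧ w i + Finsupp.weight w α' = Finsupp.weight w α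

theorem exists_level (w : ι → ℚ) (p : ι → ℂ) : ∃ (M : ℚ) (β : ι → ι →₀ ℕ),
    ∀ i, Cl w p i → Sup p (β i) ∧ Finsupp.weight w (β i) = M - w i := by
  classical
  have h : ∀ i, ∃ α α', Sup p α ∧ Sup p α' ∧
      (Cl w p i → w i + Finsupp.weight w α' = Finsupp.weight w α) := fun i => by
    by_cases hi : Cl w p i
    · obtain ⟨α, α', a1, a2, a3⟩ := hi
      exact ⟨α, α', a1, a2, fun _ => a3⟩
    · exact ⟨0, 0, Sup.zero p, Sup.zero p, fun h => absurd h hi⟩
  choose α α' h1 h2 h3 using h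
  refine ⟨∑ j, Finsupp.weight w (α j), fun i => α' i + ∑ j ∈ Finset.univ.erase i, α j,
    fun i hi => ⟨(h2 i).add ?_, ?_⟩⟩
  · exact Finset.sum_induction _ (Sup p) (fun _ _ => Sup.add) (Sup.zero p) fun j _ => h1 j
  · rw [map_add, map_sum, ← Finset.add_sum_erase Finset.univ _ (Finset.mem_univ i), ← h3 i hi]
    ring

variable [DecidableEq ι]

theorem form_sum {f : PS ι} {r : (ι → PS ι) → (ι → PS ι) → PS ι} {Θ : Matrix ι ι (PS ι)}
    (hr : IsForm f r) (hH : Ham f r Θ) (m v : ι → PS ι) (hv : Log f v) (T : Finset ι) :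
    Log f (∑ i ∈ T, m i • Θ i) ∧ f ∣ r (∑ i ∈ T, m i • Θ i) v - ∑ i ∈ T, m i * v i := by
  induction T using Finset.induction_on with
  | empty =>
    have h0 : Log f (0 : ι → PS ι) := (logM f).zero_mem
    have := hr.smul 0 0 v h0 hv
    exact ⟨by simpa using h0, by simpa using this⟩
  | insert i T hi ih =>
    rw [Finset.sum_insert hi, Finset.sum_insert hi]
    have h1 : Log f (m i • Θ i) := (logM f).smul_mem _ (hH i).1
    refine ⟨(logM f).add_mem h1 ih.1, ?_⟩
    have h2 := hr.add _ _ v h1 ih.1 hv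
    have h3 := hr.smul (m i) _ v (hH i).1 hv
    have h4 := ((hH i).2 v hv).mul_left (m i)
    have := dvd_add (dvd_add (dvd_add h2 h3) h4) ih.2
    convert this using 1
    ring

end CLT

open CLT in
theorem clt (form : S_FORM) (lt : S_LT) (rho : S_RHO) (hev : S_EV) : S_CLT := by
  intro ι _ _ f Θ w w₀ d p η hf hP hW hG hd hp hpf hη
  classical
  obtain ⟨r, hr, -, hH⟩ := form ι f Θ hf hP
  obtain ⟨P, hP1, hP2, hP3⟩ := exists_prime rho hev w p hp
  obtain ⟨M, β, hβ⟩ := exists_level w p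
  obtain ⟨-, hmul, hC, hX, h0, -, hs, -⟩ := hev ι w p hp
  set η' : ι → ℂ := fun i => if Cl w p i then η i else 0 with hη'
  have hker : ∀ k, ∑ i, η' i * ev p (Θ i k) = 0 := by
    intro k
    by_cases hk : ∃ i₁, Cl w p i₁ ∧ ev p (Θ i₁ k) ≠ 0
    · obtain ⟨i₁, ⟨α, α', a1, a2, a3⟩, hi⟩ := hk
      obtain ⟨β₁, b1, b2⟩ := hs _ hi
      rw [← hη k]
      refine Finset.sum_congr rfl fun i _ => ?_
      by_cases hi' : ev p (Θ i k) = 0
      · rw [hi', mul_zero, mul_zero]
      · obtain ⟨β₂, c1, c2⟩ := hs _ hi'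
        have : Cl w p i := ⟨α + β₂, β₁ + α', a1.add c2, Sup.add b2 a2, by
          rw [map_add, map_add, hG.2 i₁ k β₁ b1, hG.2 i k β₂ c1, ← a3]; ring⟩
        simp [hη', this]
    · push Not at hk
      refine Finset.sum_eq_zero fun i _ => ?_
      by_cases hi : Cl w p i
      · rw [hk i hi, mul_zero]
      · simp [hη', hi]
  obtain ⟨m, hm1, hm2⟩ : ∃ m : ι → PS ι, (∀ i, IsHom w (M - w i) (m i)) ∧
      ∀ i, ev p (m i) = η' i := by
    have : ∀ i, ∃ m : PS ι, IsHom w (M - w i) m ∧ ev p m = η' i := fun i => by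
      by_cases hi : Cl w p i
      · obtain ⟨b1, b2⟩ := hβ i hi
        have hne : ((β i).prod fun j n => p j ^ n) ≠ 0 :=
          Finset.prod_ne_zero_iff.2 fun j hj => pow_ne_zero _ (b1 j (Finsupp.mem_support_iff.1 hj))
        refine ⟨monomial (β i) (η' i / (β i).prod fun j n => p j ^ n),
          (isHom_monomial _ _).congr b2, ?_⟩
        rw [ev_monomial, div_mul_cancel₀ _ hne]
      · exact ⟨0, isHom_zero _, by simp [h0, hη', hi]⟩
    choose m h1 h2 using this
    exact ⟨m, h1, h2⟩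
  have hv : vf (eul w) f = C (d : ℂ) * f := vf_eul hG.1
  have hlv : Log f (eul w) := ⟨C (d : ℂ), by rw [hv, mul_comm]⟩
  have hE : IsEuler f (eul w) := ⟨constantCoeff_eul w, C (d : ℂ),
    isUnit_iff'.2 (by simpa using hd), hv⟩
  obtain ⟨hly, hry⟩ := form_sum hr hH m (eul w) hlv Finset.univ
  have hyk : ∀ k, (∑ i, m i • Θ i) k = ∑ i, m i * Θ i k := fun k => by
    simp [Finset.sum_apply]
  have hterm : ∀ k i, IsHom w (M - w₀ + w k) (m i * Θ i k) := fun k i =>
    ((hm1 i).mul (hG.2 i k)).congr (by ring)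
  have hy : ∀ k, IsHom w (M - w₀ + w k) ((∑ i, m i • Θ i) k) := fun k => by
    rw [hyk]
    exact IsHom.sum fun i _ => hterm k i
  have hfP : f ∈ P := (hP3 d f hG.1).2 hpf
  have key := lt ι f Θ r (eul w) (∑ i, m i • Θ i) ((M - w₀ : ℚ) : ℂ) P hf.1 hP hr hH
    (hW _ hE) hlv hly (fun k => by
      have : lie (eul w) (∑ i, m i • Θ i) k - C ((M - w₀ : ℚ) : ℂ) * (∑ i, m i • Θ i) k = 0 := by
        rw [lie, vf_eul (hy k), eul, vf_mul, vf_C, vf_X]
        simp only [Rat.cast_add, map_add]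
        ring
      rw [this]
      exact dvd_zero _) hP1 hfP hP2 (fun k => by
      rw [hP3 _ _ (hy k), hyk, ev_sum hev hp _ _ _ (hterm k), ← hker k]
      exact Finset.sum_congr rfl fun i _ => by rw [hmul _ _ _ _ (hm1 i) (hG.2 i k), hm2])
  have hz : ∑ i, m i * eul w i ∈ P := by
    obtain ⟨q, hq⟩ := hry
    have : ∑ i, m i * eul w i = r (∑ i, m i • Θ i) (eul w) - f * q := by rw [← hq]; ring
    rw [this]
    exact P.sub_mem key (P.mul_mem_right _ hfP)
  have hterm' : ∀ i, IsHom w M (m i * eul w i) := fun i =>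
    ((hm1 i).mul (isHom_eul w w i)).congr (by ring)
  rw [hP3 M _ (IsHom.sum fun i _ => hterm' i), ev_sum hev hp _ _ _ hterm'] at hz
  rw [← hz]
  refine Finset.sum_congr rfl fun i _ => ?_
  rw [hmul _ _ _ _ (hm1 i) (isHom_eul w w i), hm2, eul, hC, hX]
  by_cases hi : p i = 0
  · simp [hi]
  · have : Cl w p i := ⟨Finsupp.single i 1, 0, fun j hj => by
      rwa [(Finsupp.single_apply_ne_zero.1 hj).1], Sup.zero p, by simp [Finsupp.weight_single]⟩
    simp [hη', this, mul_assoc]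

end Pool.Agent.MP_51db15_ag.Hy
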