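import Pool.Agent.MP_51db15_ag.Hy.Rows

/-! Height of a prime from local parameters, and the Cohen-Macaulay property. -/

namespace Pool.Agent.MP_51db15_ag.Hy

open RingTheory.Sequence

namespace CM

open CategoryTheory Abelian Limits Pointwise

theorem smul_lt_quot {R : Type} [CommRing R] {M : Type} [AddCommGroup M] [Module R M]
    {I : Ideal R} {r : R} (hr : r ∈ I) (hI : I • (⊤ : Submodule R M) < ⊤) :
    I • (⊤ : Submodule R (QuotSMulTop r M)) < ⊤ := by
  refine lt_top_iff_ne_top.mpr fun eq => ?_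
  have h := congrArg (Submodule.comap (Submodule.mkQ _)) eq
  refine absurd h ?_
  simpa [Submodule.comap_smul_top_of_surjective I _ (Submodule.mkQ_surjective _),
    Submodule.smul_mono_left ((Ideal.span_singleton_le_iff_mem I).mpr hr),
    ← Submodule.ideal_span_singleton_smul] using hI.ne

theorem ext_extend {R : Type} [CommRing R] [IsNoetherianRing R] (I : Ideal R)
    (N : ModuleCat.{0} R) [Module.Finite R N]
    (hN : Module.support R N = PrimeSpectrum.zeroLocus I) (rs : List R) :
    ∀ (M : ModuleCat.{0} R) [Module.Finite R M], I • (⊤ : Submodule R M) < ⊤ →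
      (∀ r ∈ rs, r ∈ I) → IsWeaklyRegular M rs →
      (∀ i < rs.length + 1, Subsingleton (Abelian.Ext N M i)) →
      ∃ r ∈ I, IsWeaklyRegular M (rs ++ [r]) := by
  induction rs with
  | nil =>
    intro M _ hlt _ _ hext
    obtain ⟨l, len, mem, reg⟩ :=
      ModuleCat.exists_isRegular_of_exists_subsingleton_ext I 1 M hlt N hN (by simpa using hext)
    match l, len with
    | [r], _ => exact ⟨r, mem r (by simp), by simpa using reg.1⟩
  | cons x rs ih =>
    intro M _ hlt mem reg hext
    rw [isWeaklyRegular_cons_iff] at reg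
    have hx : x ∈ I := mem x (by simp)
    have hext' : ∀ i < rs.length + 1,
        Subsingleton (Abelian.Ext N (ModuleCat.of R (QuotSMulTop x M)) i) := by
      intro i hi
      simp only [List.length_cons] at hext
      have zero1 := AddCommGrpCat.isZero_of_iff_subsingleton.mpr (hext i (by omega))
      have zero2 := AddCommGrpCat.isZero_of_iff_subsingleton.mpr (hext (i + 1) (by omega))
      exact AddCommGrpCat.subsingleton_of_isZero <| ShortComplex.Exact.isZero_of_both_zeros
        ((Abelian.Ext.covariant_sequence_exact₃' N reg.1.smulShortComplex_shortExact) i (i + 1) rfl)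
        (zero1.eq_zero_of_src _) (zero2.eq_zero_of_tgt _)
    obtain ⟨r, hr, hreg⟩ := ih (ModuleCat.of R (QuotSMulTop x M)) (smul_lt_quot hx hlt)
      (fun r h => mem r (by simp [h])) reg.2 hext'
    refine ⟨r, hr, ?_⟩
    rw [List.cons_append, isWeaklyRegular_cons_iff]
    exact ⟨reg.1, hreg⟩

/-- a shorter regular sequence in a proper ideal extends -/
theorem extend {R : Type} [CommRing R] [IsNoetherianRing R] (I : Ideal R) (hI : I ≠ ⊤)
    (us rs : List R) (hu : ∀ r ∈ us, r ∈ I) (hr : ∀ r ∈ rs, r ∈ I) (ru : IsRegular R us)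
    (rr : IsWeaklyRegular R rs) (hlen : rs.length < us.length) :
    ∃ r ∈ I, IsWeaklyRegular R (rs ++ [r]) := by
  have hlt : I • (⊤ : Submodule R (ModuleCat.of R R)) < ⊤ := by
    have : I • (⊤ : Submodule R R) < ⊤ := by simpa using lt_top_iff_ne_top.mpr hI
    exact this
  have hN : Module.support R (ModuleCat.of R (R ⧸ I)) = PrimeSpectrum.zeroLocus I := by
    have : Module.support R (R ⧸ I) = PrimeSpectrum.zeroLocus I := by
      rw [Module.support_eq_zeroLocus, Ideal.annihilator_quotient]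
    exact this
  have hext := ModuleCat.subsingleton_ext_of_exists_isRegular I (ModuleCat.of R (R ⧸ I))
    hN.subset (ModuleCat.of R R) hlt us hu ru
  exact ext_extend I (ModuleCat.of R (R ⧸ I)) hN rs (ModuleCat.of R R) hlt hr rr
    fun i hi => hext i (by omega)

theorem append_iff {R : Type} [CommRing R] (rs : List R) (r : R) :
    IsWeaklyRegular R (rs ++ [r]) ↔ IsWeaklyRegular R rs ∧
      ∀ g, r * g ∈ Ideal.ofList rs → g ∈ Ideal.ofList rs := by
  rw [isWeaklyRegular_append_iff, isWeaklyRegular_singleton_iff,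
    isSMulRegular_quotient_iff_mem_of_smul_mem]
  simp

section Loc

variable {O ι : Type} [CommRing O] [DecidableEq ι] (Q : Ideal O) [Q.IsPrime] (u : ι → O)

theorem ofList_map (L : List ι) :
    Ideal.ofList (L.map fun j => algebraMap O (Localization.AtPrime Q) (u j)) =
      (Ideal.span (u '' (L.toFinset : Set ι))).map (algebraMap O (Localization.AtPrime Q)) := by
  rw [Ideal.map_span, Ideal.ofList, Set.image_image]
  congr 1
  ext y
  simp

theorem weak (S : Finset ι)
    (h : ∀ T ⊆ S, ∀ j ∈ S, j ∉ T → ∀ g s, s ∉ Q → s * u j * g ∈ Ideal.span (u '' T) →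
      ∃ s' ∉ Q, s' * g ∈ Ideal.span (u '' T)) (L : List ι) :
    L.Nodup → (∀ j ∈ L, j ∈ S) → IsWeaklyRegular (Localization.AtPrime Q)
      (L.map fun j => algebraMap O (Localization.AtPrime Q) (u j)) := by
  induction L using List.reverseRecOn with
  | nil => intro _ _; simp
  | append_singleton L j ih =>
    intro nd mem
    rw [List.nodup_append] at nd
    rw [List.map_append, List.map_singleton, append_iff]
    refine ⟨ih nd.1 fun i hi => mem i (by simp [hi]), fun g hg => ?_⟩
    rw [ofList_map] at hg ⊢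
    obtain ⟨⟨a, s⟩, rfl⟩ := IsLocalization.mk'_surjective Q.primeCompl g
    simp only at hg ⊢
    rw [IsLocalization.mul_mk'_eq_mk'_of_mul, IsLocalization.mk'_mem_map_algebraMap_iff] at hg
    rw [IsLocalization.mk'_mem_map_algebraMap_iff]
    obtain ⟨t, ht, hg⟩ := hg
    have hj : j ∉ L.toFinset := fun hj => nd.2.2 j (by simpa using hj) j (by simp) rfl
    obtain ⟨s', hs', hg'⟩ := h L.toFinset (fun i hi => mem i (by simp [List.mem_toFinset.mp hi]))
      j (mem j (by simp)) hj a t ht (by rwa [mul_assoc])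
    exact ⟨s', hs', hg'⟩

theorem params (S : Finset ι) (hu : ∀ i ∈ S, u i ∈ Q)
    (hgen : ∀ h ∈ Q, ∃ s ∉ Q, s * h ∈ Ideal.span (u '' S)) :
    Ideal.ofList (S.toList.map fun j => algebraMap O (Localization.AtPrime Q) (u j)) =
      IsLocalRing.maximalIdeal (Localization.AtPrime Q) := by
  rw [ofList_map, Finset.toList_toFinset, ← Localization.AtPrime.map_eq_maximalIdeal]
  apply le_antisymm
  · apply Ideal.map_mono
    rw [Ideal.span_le]
    rintro _ ⟨i, hi, rfl⟩
    exact hu i hi
  · rw [Ideal.map_le_iff_le_comap]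
    intro a ha
    rw [Ideal.mem_comap, IsLocalization.algebraMap_mem_map_algebraMap_iff Q.primeCompl]
    exact hgen a ha

theorem reg (S : Finset ι) (hu : ∀ i ∈ S, u i ∈ Q)
    (hgen : ∀ h ∈ Q, ∃ s ∉ Q, s * h ∈ Ideal.span (u '' S))
    (h : ∀ T ⊆ S, ∀ j ∈ S, j ∉ T → ∀ g s, s ∉ Q → s * u j * g ∈ Ideal.span (u '' T) →
      ∃ s' ∉ Q, s' * g ∈ Ideal.span (u '' T)) :
    IsRegular (Localization.AtPrime Q)
      (S.toList.map fun j => algebraMap O (Localization.AtPrime Q) (u j)) := by
  refine ⟨weak Q u S h S.toList S.nodup_toList fun j hj => Finset.mem_toList.mp hj, ?_⟩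
  rw [params Q u S hu hgen]
  simpa using (IsLocalRing.maximalIdeal.isMaximal (Localization.AtPrime Q)).ne_top.symm

theorem height [IsNoetherianRing O] (S : Finset ι) (hu : ∀ i ∈ S, u i ∈ Q)
    (hgen : ∀ h ∈ Q, ∃ s ∉ Q, s * h ∈ Ideal.span (u '' S))
    (h : ∀ T ⊆ S, ∀ j ∈ S, j ∉ T → ∀ g s, s ∉ Q → s * u j * g ∈ Ideal.span (u '' T) →
      ∃ s' ∉ Q, s' * g ∈ Ideal.span (u '' T)) : Q.height = S.card := by
  have e := ringKrullDim_add_length_eq_ringKrullDim_of_isRegular _ (reg Q u S hu hgen h)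
  rw [params Q u S hu hgen,
    IsLocalization.AtPrime.ringKrullDim_eq_height Q (Localization.AtPrime Q)] at e
  have z : ringKrullDim (Localization.AtPrime Q ⧸
      IsLocalRing.maximalIdeal (Localization.AtPrime Q)) = 0 :=
    ringKrullDim_eq_zero_of_field (IsLocalRing.ResidueField (Localization.AtPrime Q))
  rw [z, zero_add, List.length_map, Finset.length_toList] at e
  exact_mod_cast e.symm

end Loc

/-- an ideal of zero divisors lies in an associated prime -/
theorem ass {O : Type} [CommRing O] [IsNoetherianRing O] (I J : Ideal O) (hJ : J ≠ ⊤)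
    (h : ∀ r ∈ I, ¬ ∀ g, r * g ∈ J → g ∈ J) :
    ∃ (Q : Ideal O) (g : O), Q.IsPrime ∧ I ≤ Q ∧ ∀ s, s ∈ Q ↔ s * g ∈ J := by
  have : Nontrivial (O ⧸ J) := Ideal.Quotient.nontrivial_iff.mpr hJ
  have hexist : ∃ p ∈ associatedPrimes O (O ⧸ J), I ≤ p := by
    rcases associatedPrimes.nonempty O (O ⧸ J) with ⟨Ia, hIa⟩
    apply (Ideal.subset_union_prime_finite (associatedPrimes.finite O (O ⧸ J)) Ia Ia _).mp
    · rw [biUnion_associatedPrimes_eq_compl_regular O (O ⧸ J)]
      intro r hr hreg
      exact h r hr ((isSMulRegular_quotient_iff_mem_of_smul_mem J r).mp hreg)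
    · exact fun I hin _ _ => IsAssociatedPrime.isPrime hin
  obtain ⟨Q, hQ, hIQ⟩ := hexist
  rw [AssociatedPrimes.mem_iff, isAssociatedPrime_iff] at hQ
  obtain ⟨hp, x, hx⟩ := hQ
  obtain ⟨g, rfl⟩ := Ideal.Quotient.mk_surjective x
  refine ⟨Q, g, hp, hIQ, fun s => ?_⟩
  rw [hx, Submodule.mem_colon_singleton, Submodule.mem_bot, ← Ideal.Quotient.eq_zero_iff_mem,
    map_mul]
  rfl

end CM

theorem naght (nagreg : S_NAGREG) : S_NAGHT := by
  intro ι _ _ Q u S hQ hN
  exact CM.height Q u S hN.2.1 hN.2.2 (nagreg ι Q u S hQ hN)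

theorem cm (nag : S_NAG) (nagreg : S_NAGREG) : S_CM := by
  intro ι _ I rs mem rr hlen
  classical
  suffices H : ∃ r ∈ I, ∀ g, r * g ∈ Ideal.ofList rs → g ∈ Ideal.ofList rs by
    obtain ⟨r, hr, H⟩ := H
    exact ⟨r, hr, (CM.append_iff rs r).mpr ⟨rr, H⟩, H⟩
  by_cases hJ : Ideal.ofList rs = ⊤
  · exact ⟨0, I.zero_mem, fun g _ => by simp [hJ]⟩
  by_contra hcon
  obtain ⟨Q, g, hQ, hIQ, hg⟩ := CM.ass I (Ideal.ofList rs) hJ fun r hr H => hcon ⟨r, hr, H⟩
  obtain ⟨u, S, hN⟩ := nag ι Q hQ
  have hreg := nagreg ι Q u S hQ hN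
  have hht := CM.height Q u S hN.2.1 hN.2.2 hreg
  have hlt : rs.length < S.card := by
    have : (rs.length : ℕ∞) < (S.card : ℕ∞) := hht ▸ hlen.trans_le (Ideal.height_mono hIQ)
    exact_mod_cast this
  have hmax := (IsLocalRing.maximalIdeal.isMaximal (Localization.AtPrime Q)).ne_top
  have hmem : ∀ a ∈ Q, algebraMap (PS ι) (Localization.AtPrime Q) a ∈
      IsLocalRing.maximalIdeal (Localization.AtPrime Q) := fun a ha => by
    rw [← Localization.AtPrime.map_eq_maximalIdeal]
    exact Ideal.mem_map_of_mem _ ha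
  obtain ⟨r, hr, hrr⟩ := CM.extend _ hmax
    (S.toList.map fun j => algebraMap (PS ι) (Localization.AtPrime Q) (u j))
    (rs.map (algebraMap (PS ι) (Localization.AtPrime Q)))
    (by
      intro r hr
      obtain ⟨j, hj, rfl⟩ := List.mem_map.mp hr
      exact hmem _ (hN.2.1 j (Finset.mem_toList.mp hj)))
    (by
      intro r hr
      obtain ⟨a, ha, rfl⟩ := List.mem_map.mp hr
      exact hmem _ (hIQ (mem a ha)))
    (CM.reg Q u S hN.2.1 hN.2.2 hreg)
    (rr.of_isLocalization (Localization.AtPrime Q) Q.primeCompl)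
    (by simpa using hlt)
  have key := ((CM.append_iff _ r).mp hrr).2 (algebraMap (PS ι) (Localization.AtPrime Q) g)
  rw [← Ideal.map_ofList] at key
  obtain ⟨⟨a, s⟩, rfl⟩ := IsLocalization.mk'_surjective Q.primeCompl r
  simp only at key hr
  have ha : a ∈ Q := (IsLocalization.AtPrime.mk'_mem_maximal_iff _ Q a s).mp hr
  rw [mul_comm, IsLocalization.mul_mk'_eq_mk'_of_mul, IsLocalization.mk'_mem_map_algebraMap_iff,
    IsLocalization.algebraMap_mem_map_algebraMap_iff Q.primeCompl] at key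
  obtain ⟨t, ht, htg⟩ := key ⟨1, Q.primeCompl.one_mem, by
    rw [one_mul, mul_comm]; exact (hg a).mp ha⟩
  exact ht ((hg t).mpr htg)

end Pool.Agent.MP_51db15_ag.Hy
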