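import Pool.Agent.MP_51db15_ag.Hy.Rows

/-! A linear vector field tangent to a cone has an eigenvector in the cone: follow the flow of a
nonzero point, written with exponential polynomials, and keep the top term. -/

namespace Pool.Agent.MP_51db15_ag.Hy

namespace CONE

open Polynomial

section Exp
variable {K Γ : Type} [Field K] [AddCommMonoid Γ] (c : Γ →+ K)

/-- The derivative of an exponential polynomial. -/
noncomputable def dd : Module.End K (AddMonoidAlgebra K[X] Γ) where
  toFun s := .ofCoeff (Finsupp.onFinset s.coeff.support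
    (fun μ => derivative (s.coeff μ) + C (c μ) * s.coeff μ) fun μ h => by
      rw [Finsupp.mem_support_iff]
      intro h0
      simp [h0] at h)
  map_add' s t := by
    ext1
    ext1 μ
    simp only [Finsupp.onFinset_apply, AddMonoidAlgebra.coeff_add, Finsupp.add_apply, map_add]
    ring
  map_smul' b s := by
    ext1
    ext1 μ
    simp [Finsupp.onFinset_apply, smul_add]

theorem dd_coeff (s : AddMonoidAlgebra K[X] Γ) (μ : Γ) :
    (dd c s).coeff μ = derivative (s.coeff μ) + C (c μ) * s.coeff μ := rfl

theorem dd_single (μ : Γ) (f : K[X]) : dd c (AddMonoidAlgebra.single μ f) =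
    AddMonoidAlgebra.single μ (derivative f + C (c μ) * f) := by
  ext1
  ext1 ν
  rw [dd_coeff]
  by_cases h : μ = ν
  · subst h
    simp
  · simp [Finsupp.single_eq_of_ne' h]

theorem dd_mul (s t : AddMonoidAlgebra K[X] Γ) : dd c (s * t) = dd c s * t + s * dd c t := by
  induction s using AddMonoidAlgebra.induction_linear with
  | zero => simp
  | add a b ha hb => rw [add_mul, map_add, ha, hb, map_add]; ring
  | single μ f =>
    induction t using AddMonoidAlgebra.induction_linear with
    | zero => simp
    | add a b ha hb => rw [mul_add, map_add, ha, hb, map_add]; ring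
    | single ν g =>
      simp only [AddMonoidAlgebra.single_mul_single, dd_single, ← AddMonoidAlgebra.single_add]
      congr 1
      rw [derivative_mul, map_add, map_add]
      ring

/-- The value at time zero. -/
noncomputable def ev : AddMonoidAlgebra K[X] Γ →ₐ[K] K :=
  AddMonoidAlgebra.liftNCAlgHom (aeval (0 : K)) 1 fun _ _ => Commute.all _ _

theorem ev_single (μ : Γ) (f : K[X]) : ev (AddMonoidAlgebra.single μ f) = f.coeff 0 := by
  change AddMonoidAlgebra.liftNC _ _ _ = _
  rw [AddMonoidAlgebra.liftNC_single]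
  simp [coeff_zero_eq_eval_zero]

open Classical in
noncomputable def wt (f : K[X]) : ℕ := if f = 0 then 0 else f.natDegree + 1

theorem wt_der {f : K[X]} (h : f ≠ 0) : wt (derivative f) < wt f := by
  rw [wt, wt, if_neg h]
  split_ifs with h1
  · omega
  · have : f.natDegree ≠ 0 := fun h2 => h1 (derivative_of_natDegree_zero h2)
    have := natDegree_derivative_lt this
    omega

theorem wt_le (f : K[X]) (b : K) : wt (derivative f + C b * f) ≤ wt f := by
  by_cases h : f = 0
  · simp [h]
  have : (derivative f + C b * f).natDegree ≤ f.natDegree :=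
    (natDegree_add_le _ _).trans (max_le ((natDegree_derivative_le f).trans (Nat.sub_le _ _))
      (natDegree_C_mul_le _ _))
  rw [wt, wt, if_neg h]
  split_ifs <;> omega

theorem der_inj {f : K[X]} {b : K} (hb : b ≠ 0) (h : derivative f + C b * f = 0) : f = 0 := by
  by_contra h0
  have h1 := degree_derivative_lt h0
  rw [eq_neg_of_add_eq_zero_left h, degree_neg, degree_C_mul hb] at h1
  exact lt_irrefl _ h1

theorem vanish [CharZero K] (hc : Function.Injective c) (F : Finset Γ) (N : ℕ) :
    ∀ s : AddMonoidAlgebra K[X] Γ, s.coeff.support ⊆ F → ∑ μ ∈ F, wt (s.coeff μ) < N →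
      (∀ n, ev ((dd c ^ n) s) = 0) → s = 0 := by
  induction N with
  | zero => intro s _ h; omega
  | succ N ih =>
    intro s hF hN hs
    by_contra h0
    obtain ⟨μ, hμ⟩ : s.coeff.support.Nonempty := Finsupp.support_nonempty_iff.2 fun h =>
      h0 (AddMonoidAlgebra.coeff_injective h)
    have hf := Finsupp.mem_support_iff.1 hμ
    have e : ∀ ν, (dd c s - c μ • s).coeff ν =
        derivative (s.coeff ν) + C (c ν - c μ) * s.coeff ν := fun ν => by
      rw [AddMonoidAlgebra.coeff_sub, Finsupp.sub_apply, dd_coeff,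
        AddMonoidAlgebra.coeff_smul_apply, smul_eq_C_mul, map_sub]
      ring
    have z := ih (dd c s - c μ • s) (fun ν h => hF (by
        rw [Finsupp.mem_support_iff] at h ⊢
        intro h1
        exact h (by rw [e, h1, map_zero, mul_zero, add_zero]))) (by
        refine lt_of_lt_of_le (Finset.sum_lt_sum (fun ν _ => ?_) ⟨μ, hF hμ, ?_⟩)
          (Nat.le_of_lt_succ hN)
        · rw [e]
          exact wt_le _ _
        · rw [e, sub_self, map_zero, zero_mul, add_zero]
          exact wt_der hf) fun n => by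
        have := hs (n + 1)
        rw [pow_succ, Module.End.mul_apply] at this
        rw [map_sub, map_smul, map_sub, map_smul, this, hs n, smul_zero, sub_zero]
    rw [z] at e
    have e1 := e μ
    rw [sub_self, map_zero, zero_mul, add_zero] at e1
    have e2 := eq_C_of_derivative_eq_zero e1.symm
    have e3 : s = AddMonoidAlgebra.single μ (s.coeff μ) := by
      ext1
      ext1 ν
      by_cases h : μ = ν
      · subst h
        simp
      · rw [der_inj (sub_ne_zero.2 fun h1 => h (hc h1).symm) (e ν).symm]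
        simp [Finsupp.single_eq_of_ne' h]
    have e4 := hs 0
    rw [pow_zero, Module.End.one_apply, e3, ev_single] at e4
    exact hf (by rw [e2, e4, map_zero])

end Exp

section Poly
variable {k S σ : Type} [Field k] [CommRing S] [Fintype σ] (ι : k →+* S)

theorem chain (D : S → S) (ha : ∀ a b, D (a + b) = D a + D b)
    (hm : ∀ a b, D (a * b) = D a * b + a * D b) (h0 : ∀ a, D (ι a) = 0) (x : σ → S)
    (g : MvPolynomial σ k) : D (MvPolynomial.eval₂ ι x g) =
      ∑ i, MvPolynomial.eval₂ ι x (MvPolynomial.pderiv i g) * D (x i) := by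
  classical
  induction g using MvPolynomial.induction_on with
  | C a => simp [h0]
  | add p q hp hq => simp [ha, hp, hq, add_mul, Finset.sum_add_distrib]
  | mul_X p j hp =>
    simp only [MvPolynomial.eval₂_mul, MvPolynomial.eval₂_X, hm, hp, MvPolynomial.pderiv_mul,
      MvPolynomial.eval₂_add, add_mul, Finset.sum_add_distrib, Finset.sum_mul]
    congr 1
    · exact Finset.sum_congr rfl fun i _ => by ring
    · rw [Finset.sum_eq_single j (fun i _ h => by simp [MvPolynomial.pderiv_X_of_ne h.symm])
        (by simp)]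
      simp

theorem deg_eq {g : MvPolynomial σ k} {n : ℕ} (hg : g.IsHomogeneous n) {d : σ →₀ ℕ}
    (hd : d ∈ g.support) : ∑ i, d i = n := by
  have := hg (MvPolynomial.mem_support_iff.1 hd)
  rw [← this, ← Finsupp.degree_eq_sum, Finsupp.degree_eq_weight_one]
  rfl

theorem scale {g : MvPolynomial σ k} {n : ℕ} (hg : g.IsHomogeneous n) (u : S) (y : σ → S) :
    MvPolynomial.eval₂ ι (fun i => y i * u) g = MvPolynomial.eval₂ ι y g * u ^ n := by
  rw [MvPolynomial.eval₂_eq', MvPolynomial.eval₂_eq', Finset.sum_mul]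
  refine Finset.sum_congr rfl fun d hd => ?_
  simp only [mul_pow, Finset.prod_mul_distrib, Finset.prod_pow_eq_pow_sum, deg_eq hg hd]
  ring

theorem point (K : Type) [Field K] [Algebra k K] [IsAlgClosed K] (I : Ideal (MvPolynomial σ k))
    (h : ∀ n : ℕ, ∃ g, MvPolynomial.IsHomogeneous g n ∧ g ∉ I) :
    ∃ p : σ → K, p ≠ 0 ∧ ∀ g ∈ I, MvPolynomial.aeval p g = 0 := by
  by_contra h0
  have hX : ∀ i, ∃ n, (MvPolynomial.X i : MvPolynomial σ k) ^ n ∈ I := fun i => by
    change _ ∈ I.radical
    rw [← MvPolynomial.vanishingIdeal_zeroLocus_eq_radical (K := K)]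
    intro p hp
    by_cases h1 : p = 0
    · simp [h1]
    · exact absurd ⟨p, h1, hp⟩ h0
  choose N hN using hX
  obtain ⟨g, hg, hI⟩ := h (∑ i, N i + 1)
  refine hI (g.as_sum ▸ I.sum_mem fun d hd => ?_)
  obtain ⟨i, -, hi⟩ := Finset.exists_lt_of_sum_lt (s := Finset.univ) (f := N) (g := d)
    (by rw [deg_eq hg hd]; omega)
  have := I.mul_mem_right (MvPolynomial.monomial (d - Finsupp.single i (N i)) (g.coeff d)) (hN i)
  rwa [MvPolynomial.X_pow_eq_monomial, MvPolynomial.monomial_mul, one_mul,
    add_tsub_cancel_of_le (Finsupp.single_le_iff.2 hi.le)] at this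

end Poly

section Flow
variable {K σ : Type} [Field K] [CharZero K] (f : Module.End K (σ → K))

/-- The flow of a vector killed by a power of `f`. -/
noncomputable def fl (N : ℕ) (v : σ → K) (i : σ) : K[X] :=
  ∑ j ∈ Finset.range N, monomial j ((f ^ j) v i / j.factorial)

omit [CharZero K] in
theorem fl_coeff {N : ℕ} {v : σ → K} (h : (f ^ N) v = 0) (i : σ) (j : ℕ) :
    (fl f N v i).coeff j = (f ^ j) v i / j.factorial := by
  rw [fl, finsetSum_coeff]
  simp only [coeff_monomial, Finset.sum_ite_eq', Finset.mem_range]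
  split_ifs with h1
  · rfl
  · obtain ⟨m, rfl⟩ := Nat.exists_eq_add_of_le' (not_lt.1 h1)
    rw [pow_add, Module.End.mul_apply, h]
    simp

theorem fl_der [Fintype σ] {N : ℕ} {v : σ → K} (h : (f ^ N) v = 0) (a : σ → σ → K) (μ : K)
    (ha : ∀ w i, f w i = ∑ j, a i j * w j - μ * w i) (i : σ) :
    derivative (fl f N v i) = ∑ j, C (a i j) * fl f N v j - C μ * fl f N v i := by
  ext n
  have h1 : ((n : K) + 1) ≠ 0 := by exact_mod_cast n.succ_ne_zero
  simp only [coeff_derivative, coeff_sub, finsetSum_coeff, coeff_C_mul, fl_coeff f h]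
  rw [pow_succ', Module.End.mul_apply, ha, Nat.factorial_succ]
  simp only [← mul_div_assoc, ← Finset.sum_div]
  push_cast
  field_simp

/-- The top coefficient of a polynomial curve in a cone lies in the cone. -/
theorem top {k : Type} [Field k] [Fintype σ] (ι : k →+* K) (q : σ → K[X]) (m : ℕ)
    (hq : ∀ i, (q i).natDegree ≤ m) {g : MvPolynomial σ k} {n : ℕ} (hg : g.IsHomogeneous n)
    (h : MvPolynomial.eval₂ (C.comp ι) q g = 0) :
    MvPolynomial.eval₂ ι (fun i => (q i).coeff m) g = 0 := by
  have e : ∀ (y : σ → K[X]) (u : K), (MvPolynomial.eval₂ (C.comp ι) y g).eval u =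
      MvPolynomial.eval₂ ι (fun i => (y i).eval u) g := fun y u => by
    have := MvPolynomial.eval₂_comp_left (evalRingHom u) (C.comp ι) y g
    rw [show (evalRingHom u).comp (C.comp ι) = ι from RingHom.ext fun a => by simp] at this
    exact this
  have z : MvPolynomial.eval₂ (C.comp ι) (fun i => reflect m (q i)) g = 0 := by
    refine eq_zero_of_infinite_isRoot _ (((Set.finite_singleton (0 : K)).infinite_compl).mono ?_)
    intro u hu
    have hu : u⁻¹ ≠ 0 := inv_ne_zero hu
    have := invertibleOfNonzero hu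
    have e1 := scale ι hg (u⁻¹ ^ m) fun i => (reflect m (q i)).eval u
    have e2 : ∀ i, (reflect m (q i)).eval u * u⁻¹ ^ m = (q i).eval u⁻¹ := fun i => by
      simpa using eval₂_reflect_mul_pow (RingHom.id K) u⁻¹ m (q i) (hq i)
    simp only [e2] at e1
    rw [← e, h, eval_zero, ← e] at e1
    exact (mul_eq_zero.1 e1.symm).resolve_right (pow_ne_zero _ (pow_ne_zero _ hu))
  have := e (fun i => reflect m (q i)) 0
  rw [z, eval_zero] at this
  simpa [← coeff_zero_eq_eval_zero, coeff_reflect] using this.symm

end Flow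

section Main
variable {k K σ : Type} [Field k] [Field K] [CharZero K] [Fintype σ] (κ : k →+* K)

/-- The term of the flow with the top exponent lies in the cone. -/
theorem lead (I : Ideal (MvPolynomial σ k)) (A : σ → σ → k)
    (hI : ∀ g ∈ I, ∀ n, MvPolynomial.homogeneousComponent n g ∈ I)
    (hD : ∀ g ∈ I, ∑ i, (∑ j, MvPolynomial.C (A i j) * MvPolynomial.X j) *
      MvPolynomial.pderiv i g ∈ I) (F : Finset K) (q : K → σ → K[X]) (l : K) (hl : l ∈ F)
    (φ : K →+ ℚ) (hφ : ∀ μ ∈ F, φ (μ - l) < 0 ∨ μ - l = 0)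
    (hq : ∀ μ i, derivative (q μ i) = ∑ j, C (κ (A i j)) * q μ j - C μ * q μ i)
    (hz : ∀ g ∈ I, MvPolynomial.eval₂ κ (fun i => ∑ μ ∈ F, (q μ i).coeff 0) g = 0) :
    ∀ g ∈ I, MvPolynomial.eval₂ (C.comp κ) (q l) g = 0 := by
  classical
  let M : AddSubmonoid K :=
    { carrier := {μ | φ μ < 0 ∨ μ = 0}
      zero_mem' := Or.inr rfl
      add_mem' := by
        rintro a b (ha | rfl) (hb | rfl)
        · exact Or.inl (by rw [map_add]; linarith)
        · exact Or.inl (by rwa [add_zero])
        · exact Or.inl (by rwa [zero_add])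
        · exact Or.inr (add_zero _) }
  have hM : ∀ a b : M, a + b = 0 → a = 0 := by
    rintro ⟨a, ha | rfl⟩ ⟨b, hb⟩ h
    · have h1 : φ a + φ b = 0 := by rw [← map_add, show a + b = 0 from congrArg Subtype.val h,
        map_zero]
      rcases hb with hb | rfl
      · linarith
      · rw [map_zero] at h1
        linarith
    · rfl
  let χ : Multiplicative M →* K[X] :=
    { toFun := fun μ => if μ.toAdd = 0 then 1 else 0
      map_one' := if_pos rfl
      map_mul' := fun a b => by
        by_cases ha : a.toAdd = 0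
        · simp [ha]
        · rw [if_neg ha, zero_mul]
          exact if_neg fun h => ha (hM _ _ h) }
  let π := AddMonoidAlgebra.liftNCRingHom (RingHom.id K[X]) χ fun _ _ => Commute.all _ _
  have hπ : ∀ μ f, π (AddMonoidAlgebra.single μ f) = if μ = 0 then f else 0 := fun μ f => by
    rw [AddMonoidAlgebra.liftNCRingHom_single]
    change f * (if μ = 0 then 1 else 0) = _
    split_ifs <;> simp
  let ι : k →+* AddMonoidAlgebra K[X] M := AddMonoidAlgebra.singleZeroRingHom.comp (C.comp κ)
  have hι : ∀ a, ι a = AddMonoidAlgebra.single 0 (C (κ a)) := fun a => rfl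
  let x : σ → AddMonoidAlgebra K[X] M := fun i =>
    ∑ μ : F, AddMonoidAlgebra.single ⟨μ - l, hφ μ μ.2⟩ (q μ i)
  have dx : ∀ i, dd M.subtype (x i) = ∑ j, ι (A i j) * x j - l • x i := fun i => by
    simp only [x, map_sum, dd_single, Finset.mul_sum, Finset.smul_sum, hι,
      AddMonoidAlgebra.single_mul_single, zero_add, AddMonoidAlgebra.smul_single]
    rw [Finset.sum_comm, ← Finset.sum_sub_distrib]
    refine Finset.sum_congr rfl fun μ _ => ?_
    have e := fun (γ : M) => map_sum (AddMonoidAlgebra.singleAddHom (R := K[X]) γ)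
      (fun j => C (κ (A i j)) * q μ j) Finset.univ
    simp only [AddMonoidAlgebra.singleAddHom_apply] at e
    rw [← e, ← AddMonoidAlgebra.single_sub, hq, smul_eq_C_mul]
    congr 1
    change _ + C ((μ : K) - l) * _ = _
    rw [map_sub]
    ring
  have hE : ∀ g ∈ I, ∑ i, MvPolynomial.X i * MvPolynomial.pderiv i g ∈ I := fun g hg => by
    rw [← g.sum_homogeneousComponent]
    simp only [map_sum, Finset.mul_sum]
    rw [Finset.sum_comm]
    refine I.sum_mem fun n _ => ?_
    rw [(MvPolynomial.homogeneousComponent_isHomogeneous n g).sum_X_mul_pderiv]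
    exact nsmul_mem (hI g hg n) n
  have e0 : (ev : AddMonoidAlgebra K[X] M →ₐ[K] K).toRingHom.comp ι = κ :=
    RingHom.ext fun a => by simp [hι, ev_single]
  have key : ∀ n, ∀ g ∈ I, ev ((dd M.subtype ^ n) (MvPolynomial.eval₂ ι x g)) = 0 := by
    intro n
    induction n with
    | zero =>
      intro g hg
      have := MvPolynomial.eval₂_comp_left (ev : AddMonoidAlgebra K[X] M →ₐ[K] K).toRingHom ι x g
      rw [e0] at this
      refine this.trans (Eq.trans (congrArg (MvPolynomial.eval₂ κ · g) (funext fun i => ?_))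
        (hz g hg))
      simp only [x, Function.comp_apply, AlgHom.toRingHom_eq_coe, RingHom.coe_coe, map_sum,
        ev_single]
      exact Finset.sum_coe_sort F fun μ => (q μ i).coeff 0
    | succ n ih =>
      intro g hg
      have e : dd M.subtype (MvPolynomial.eval₂ ι x g) = MvPolynomial.eval₂ ι x (∑ i, (∑ j,
          MvPolynomial.C (A i j) * MvPolynomial.X j) * MvPolynomial.pderiv i g) -
          l • MvPolynomial.eval₂ ι x (∑ i, MvPolynomial.X i * MvPolynomial.pderiv i g) := by
        rw [chain ι (dd M.subtype) (map_add _) (dd_mul _) (fun a => by simp [hι, dd_single])]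
        simp only [MvPolynomial.eval₂_sum, MvPolynomial.eval₂_mul, MvPolynomial.eval₂_C,
          MvPolynomial.eval₂_X, dx, Finset.smul_sum, ← Finset.sum_sub_distrib]
        refine Finset.sum_congr rfl fun i _ => ?_
        rw [mul_sub, mul_smul_comm, mul_comm, mul_comm (x i)]
      rw [pow_succ, Module.End.mul_apply, e, map_sub, map_smul, map_sub, map_smul, ih _ (hD g hg),
        ih _ (hE g hg), smul_zero, sub_zero]
  intro g hg
  have z := vanish M.subtype Subtype.val_injective _ _ _ le_rfl (Nat.lt_succ_self _)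
    fun n => key n g hg
  have := MvPolynomial.eval₂_comp_left π ι x g
  rw [z, map_zero, show π.comp ι = C.comp κ from RingHom.ext fun a => by simp [hι, hπ]] at this
  refine Eq.trans (congrArg (MvPolynomial.eval₂ (C.comp κ) · g) (funext fun i => ?_)) this.symm
  simp only [x, Function.comp_apply, map_sum, hπ]
  rw [Finset.sum_eq_single (⟨l, hl⟩ : F) (fun μ _ h => if_neg fun h1 => h
    (Subtype.ext (sub_eq_zero.1 (congrArg Subtype.val h1)))) (by simp)]
  exact (if_pos (Subtype.ext (sub_self l))).symm

end Main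

end CONE

open CONE Polynomial

theorem cone : S_CONE := by
  intro k _ _ r I A hI hD hn
  classical
  obtain ⟨p, hp, hz⟩ := point (AlgebraicClosure k) I hn
  let κ := algebraMap k (AlgebraicClosure k)
  let L : Module.End (AlgebraicClosure k) (Fin r → AlgebraicClosure k) :=
    Matrix.mulVecLin (A.map κ)
  obtain ⟨P, hP, hs⟩ := (Submodule.mem_iSup_iff_exists_finsupp _ p).1
    ((Module.End.iSup_maxGenEigenspace_eq_top L).symm ▸ Submodule.mem_top)
  obtain ⟨φ, hφ⟩ := Module.exists_dual_forall_apply_ne_zero (K := ℚ)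
    (fun x : {x : P.support × P.support // x.1 ≠ x.2} => (x.1.1 : AlgebraicClosure k) - x.1.2)
    fun x h => x.2 (Subtype.ext (sub_eq_zero.1 h))
  obtain ⟨l, hl, hmax⟩ := P.support.exists_max_image φ (Finsupp.support_nonempty_iff.2 fun h =>
    hp (by rw [← hs, h, Finsupp.sum_zero_index]))
  have hN := fun μ => (Module.End.mem_maxGenEigenspace L μ (P μ)).1 (hP μ)
  have ha : ∀ (μ : AlgebraicClosure k) (w : Fin r → AlgebraicClosure k) (i : Fin r),
      (L - μ • 1 : Module.End (AlgebraicClosure k) _) w i = ∑ j, κ (A i j) * w j - μ * w i :=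
    fun μ w i => rfl
  have z := lead κ I A hI hD P.support
    (fun μ => fl (L - μ • 1) (Nat.find (hN μ)) (P μ)) l hl φ.toAddMonoidHom (fun μ hμ => by
      by_cases h : μ = l
      · exact Or.inr (sub_eq_zero.2 h)
      · refine Or.inl (lt_of_le_of_ne ?_ (hφ ⟨(⟨μ, hμ⟩, ⟨l, hl⟩), fun h1 =>
          h (congrArg Subtype.val h1)⟩))
        rw [map_sub]
        exact sub_nonpos.2 (hmax μ hμ))
    (fun μ => fl_der _ (Nat.find_spec (hN μ)) _ μ (ha μ)) fun g hg => by
      refine Eq.trans (congrArg (MvPolynomial.eval₂ κ · g) (funext fun i => ?_)) (hz g hg)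
      simp only [fl_coeff _ (Nat.find_spec (hN _))]
      simp [← hs, Finsupp.sum]
  have h1 := Nat.find_spec (hN l)
  have hc := fl_coeff _ h1
  obtain ⟨m, hm⟩ : ∃ m, Nat.find (hN l) = m + 1 := Nat.exists_eq_succ_of_ne_zero fun h =>
    Finsupp.mem_support_iff.1 hl (by rwa [h] at h1)
  have h2 := Nat.find_min (hN l) (m := m) (by omega)
  have hf : (m.factorial : AlgebraicClosure k) ≠ 0 := Nat.cast_ne_zero.2 m.factorial_ne_zero
  refine ⟨fun i => (fl (L - l • 1) (Nat.find (hN l)) (P l) i).coeff m, l, fun h => h2 ?_,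
    fun g hg => ?_, fun i => ?_⟩
  · funext i
    have := congrFun h i
    rw [hc] at this
    exact (div_eq_zero_iff.1 this).resolve_right hf
  · rw [← g.sum_homogeneousComponent, map_sum]
    refine Finset.sum_eq_zero fun n _ => top κ _ m (fun i => ?_)
      (MvPolynomial.homogeneousComponent_isHomogeneous n g) (z _ (hI g hg n))
    refine natDegree_le_iff_coeff_eq_zero.2 fun j hj => ?_
    obtain ⟨e, rfl⟩ := Nat.exists_eq_add_of_le' (show Nat.find (hN l) ≤ j by omega)
    rw [hc, pow_add, Module.End.mul_apply, h1]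
    simp
  · rw [hm, pow_succ', Module.End.mul_apply] at h1
    have := congrFun h1 i
    rw [ha] at this
    simp only [hc, ← mul_div_assoc, ← Finset.sum_div]
    rw [sub_eq_zero.1 this]

end Pool.Agent.MP_51db15_ag.Hy
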