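import Pool.Agent.MP_51db15_ag.Hy.Rows

/-! The polynomial model of a weighted homogeneous hypersurface is prime and normal. -/

namespace Pool.Agent.MP_51db15_ag.Hy

namespace D1

open Polynomial

section Abstract

variable {A B : Type} [CommRing A] [CommRing B]

theorem dvd_of [IsDomain A] [IsIntegrallyClosed A] {p : A[X]} (hp : p.Monic) {g h : A}
    (h0 : h ≠ 0) (e : eval g (scaleRoots p h) = 0) : h ∣ g := by
  have hi := IsFractionRing.injective A (FractionRing A)
  set f := algebraMap A (FractionRing A)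
  have hh : f h ≠ 0 := (map_ne_zero_iff f hi).2 h0
  have h1 := scaleRoots_eval₂_mul (p := p) f (f g / f h) h
  rw [mul_div_cancel₀ _ hh, eval₂_at_apply, e, map_zero] at h1
  obtain ⟨y, hy⟩ := IsIntegrallyClosed.algebraMap_eq_of_integral (R := A) (x := f g / f h)
    ⟨p, hp, (mul_eq_zero.1 h1.symm).resolve_left (pow_ne_zero _ hh)⟩
  exact ⟨y, hi (by rw [map_mul, hy, mul_div_cancel₀ _ hh])⟩

theorem closed_of [IsDomain A] (H : ∀ (p : A[X]) (g h : A), p.Monic → h ≠ 0 →
    eval g (scaleRoots p h) = 0 → h ∣ g) : IsIntegrallyClosed A := by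
  have hi := IsFractionRing.injective A (FractionRing A)
  refine (isIntegrallyClosed_iff (FractionRing A)).2 fun {x} ⟨p, hp, hx⟩ => ?_
  obtain ⟨g, h, h0, rfl⟩ := IsFractionRing.div_surjective A x
  have h0 := nonZeroDivisors.ne_zero h0
  have hh := (map_ne_zero_iff _ hi).2 h0
  have h1 := scaleRoots_eval₂_mul (p := p) (algebraMap A (FractionRing A))
    (algebraMap A _ g / algebraMap A _ h) h
  rw [mul_div_cancel₀ _ hh, eval₂_at_apply, hx, mul_zero] at h1
  obtain ⟨y, rfl⟩ := H p g h hp h0 ((map_eq_zero_iff _ hi).1 h1)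
  exact ⟨y, by rw [map_mul, mul_div_cancel_left₀ _ hh]⟩

theorem rel_map [Nontrivial B] (φ : A →+* B) {p : A[X]} (hp : p.Monic) {g h : A}
    (e : eval g (scaleRoots p h) = 0) : eval (φ g) (scaleRoots (p.map φ) (φ h)) = 0 := by
  rw [← map_scaleRoots p h φ (by simp [hp.leadingCoeff]), eval_map, eval₂_at_apply, e, map_zero]

theorem normal_of [IsDomain A] [IsDomain B] [IsIntegrallyClosed B] (j : A →+* B) (τ : A →+* A[X])
    (σ : B →+* PowerSeries A) (h1 : ∀ x, σ (j x) = τ x) (h2 : ∀ x, eval 1 (τ x) = x) :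
    IsIntegrallyClosed A := by
  refine closed_of fun p g h hp h0 e => ?_
  have hi := IsFractionRing.injective A (FractionRing A)
  set f := algebraMap A (FractionRing A)
  have h3 : ∀ x, eval 1 ((τ x).map f) = f x := fun x => by
    rw [eval_one_map, h2]
  have hh : (τ h).map f ≠ 0 := fun q => h0 (hi (by rw [← h3, q, eval_zero, map_zero]))
  obtain ⟨r, hr⟩ := dvd_of (hp.map j) (fun q => h0 (by
    rw [← h2 h, Polynomial.coe_eq_zero_iff.1 ((h1 h).symm.trans (by rw [q, map_zero])), eval_zero]))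
    (rel_map j hp e)
  obtain ⟨s, hs⟩ := dvd_of (hp.map ((mapRingHom f).comp τ)) hh (rel_map _ hp e)
  have hs : (τ g).map f = (τ h).map f * s := hs
  have h4 : PowerSeries.map f (σ r) = s := by
    apply mul_left_cancel₀ (mt Polynomial.coe_eq_zero_iff.1 hh)
    rw [← Polynomial.coe_mul, ← hs, polynomial_map_coe, polynomial_map_coe, ← h1, ← h1, hr, map_mul,
      map_mul]
  obtain ⟨s₀, rfl⟩ : s ∈ lifts f := (lifts_iff_coeff_lifts s).2 fun n =>
    ⟨PowerSeries.coeff n (σ r), by rw [← Polynomial.coeff_coe, ← h4, PowerSeries.coeff_map]⟩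
  exact ⟨eval 1 s₀, hi (by rw [← h3, hs, eval_mul, h3, coe_mapRingHom, eval_one_map, map_mul])⟩

end Abstract

variable {ι : Type} [Fintype ι] (a : ι → ℕ)

theorem wt_cast (α : ι →₀ ℕ) :
    Finsupp.weight (fun i => (a i : ℚ)) α = (Finsupp.weight a α : ℕ) := by
  simp [Finsupp.weight_apply, Finsupp.sum]

theorem poly (ha : ∀ i, 0 < a i) (e : ℚ) (g : PS ι) (h : IsHom (fun i => (a i : ℚ)) e g) :
    ∃ g₀ : MvPolynomial ι ℂ, ↑g₀ = g := by
  classical
  have fin := Finsupp.finite_of_nat_weight_le a (fun i => (ha i).ne') ⌈e⌉₊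
  refine ⟨∑ α ∈ fin.toFinset, MvPolynomial.monomial α (MvPowerSeries.coeff α g), ?_⟩
  ext α
  rw [MvPolynomial.coeff_coe, MvPolynomial.coeff_sum]
  simp only [MvPolynomial.coeff_monomial, Finset.sum_ite_eq', Set.Finite.mem_toFinset,
    Set.mem_ofPred_eq]
  split_ifs with q
  · rfl
  · by_contra n
    have := h α (Ne.symm n)
    rw [wt_cast] at this
    exact q (by rw [← this, Nat.ceil_natCast])

variable {A : Type} [CommRing A] [Algebra ℂ A] (π : MvPolynomial ι ℂ →ₐ[ℂ] A)

/-- the contracting action on polynomials -/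
noncomputable def tau : MvPolynomial ι ℂ →ₐ[ℂ] A[X] :=
  MvPolynomial.aeval fun i => C (π (.X i)) * X ^ a i

theorem tau_one (g : MvPolynomial ι ℂ) : eval 1 (tau a π g) = π g := by
  have : ((aeval (1 : A) : A[X] →ₐ[A] A).restrictScalars ℂ).comp (tau a π) = π :=
    MvPolynomial.algHom_ext fun i => by simp [tau]
  simpa using DFunLike.congr_fun this g

theorem tau_monomial (α : ι →₀ ℕ) (c : ℂ) : tau a π (MvPolynomial.monomial α c) =
    C (π (MvPolynomial.monomial α c)) * X ^ Finsupp.weight a α := by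
  rw [MvPolynomial.monomial_eq, map_mul, map_mul, Finsupp.prod, map_prod, map_prod, map_mul,
    map_prod, Finsupp.weight_apply, Finsupp.sum, ← Finset.prod_pow_eq_pow_sum, mul_assoc,
    ← Finset.prod_mul_distrib]
  congr 1
  · simp [tau, ← MvPolynomial.algebraMap_eq, Polynomial.algebraMap_apply]
  · refine Finset.prod_congr rfl fun i _ => ?_
    simp only [tau, map_pow, MvPolynomial.aeval_X, mul_pow, smul_eq_mul, ← pow_mul, mul_comm]

theorem tau_hom {d : ℕ} {F : MvPolynomial ι ℂ} (h : IsHom (fun i => (a i : ℚ)) (d : ℚ) (F : PS ι)) :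
    tau a π F = C (π F) * X ^ d := by
  conv_lhs => rw [F.as_sum]
  conv_rhs => rw [F.as_sum]
  rw [map_sum, map_sum, map_sum, Finset.sum_mul]
  refine Finset.sum_congr rfl fun α hα => ?_
  have := h α (MvPolynomial.mem_support_iff.1 hα)
  rw [wt_cast, Nat.cast_inj] at this
  rw [tau_monomial, this]

theorem exists_sigma (ha : ∀ i, 0 < a i) : ∃ σ : PS ι →+* PowerSeries A,
    ∀ g : MvPolynomial ι ℂ, σ g = tau a π g := by
  have hs : MvPowerSeries.HasSubst (σ := ι) (τ := Unit) (S := A)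
      fun i => PowerSeries.C (π (.X i)) * PowerSeries.X ^ a i :=
    MvPowerSeries.hasSubst_of_constantCoeff_zero fun i => by
      change PowerSeries.constantCoeff _ = 0
      simp [(ha i).ne']
  refine ⟨(MvPowerSeries.substAlgHom (R := ℂ) hs : PS ι →ₐ[ℂ] _), fun g => ?_⟩
  refine (MvPowerSeries.substAlgHom_coe hs g).trans ?_
  have : (MvPolynomial.aeval fun i => PowerSeries.C (π (.X i)) * PowerSeries.X ^ a i :
      MvPolynomial ι ℂ →ₐ[ℂ] PowerSeries A) =
      ((coeToPowerSeries.algHom (R := A) A).restrictScalars ℂ).comp (tau a π) :=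
    MvPolynomial.algHom_ext fun i => by simp [tau]
  simpa using DFunLike.congr_fun this g

end D1

open D1 in
theorem d1 : S_D1 := by
  intro ι _ a ha
  refine ⟨D1.poly a ha, fun d F hF ⟨hp, hn⟩ => ?_⟩
  let π := Ideal.Quotient.mkₐ ℂ (Ideal.span {F})
  have π0 : ∀ g, π g = 0 ↔ F ∣ g := fun g =>
    Ideal.Quotient.eq_zero_iff_mem.trans Ideal.mem_span_singleton
  obtain ⟨σ, hσ⟩ := exists_sigma a π ha
  have τF : tau a π F = 0 := by rw [tau_hom a π hF, (π0 F).2 dvd_rfl, map_zero, zero_mul]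
  have σF : σ F = 0 := by rw [hσ, τF, Polynomial.coe_zero]
  have dv : ∀ g : MvPolynomial ι ℂ, (F : PS ι) ∣ (g : PS ι) → F ∣ g := fun g ⟨q, hq⟩ => by
    have : σ g = 0 := by rw [hq, map_mul, σF, zero_mul]
    rw [hσ, Polynomial.coe_eq_zero_iff] at this
    rw [← π0, ← tau_one a π, this, Polynomial.eval_zero]
  have pr : Prime F := ⟨fun e => hp.ne_zero (by rw [e, MvPolynomial.coe_zero]),
    fun u => hp.not_isUnit (u.map MvPolynomial.coeToMvPowerSeries.ringHom), fun g h q =>
      (hp.dvd_or_dvd (map_dvd MvPolynomial.coeToMvPowerSeries.ringHom q |>.trans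
        (MvPolynomial.coe_mul g h).dvd)).imp (dv g) (dv h)⟩
  refine ⟨dv, pr, ?_⟩
  have := (Ideal.span_singleton_prime pr.ne_zero).2 pr
  have := (Ideal.span_singleton_prime hp.ne_zero).2 hp
  refine normal_of (B := PS ι ⧸ Ideal.span {(F : PS ι)})
    (Ideal.Quotient.lift _ ((Ideal.Quotient.mk _).comp MvPolynomial.coeToMvPowerSeries.ringHom)
      fun g hg => Ideal.Quotient.eq_zero_iff_mem.2 (Ideal.mem_span_singleton.2
        (map_dvd MvPolynomial.coeToMvPowerSeries.ringHom (Ideal.mem_span_singleton.1 hg))))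
    (Ideal.Quotient.lift _ (tau a π : MvPolynomial ι ℂ →+* _) fun g hg => ?_)
    (Ideal.Quotient.lift _ σ fun g hg => ?_) (fun x => ?_) fun x => ?_
  · obtain ⟨q, rfl⟩ := Ideal.mem_span_singleton.1 hg
    rw [map_mul, RingHom.coe_coe, τF, zero_mul]
  · obtain ⟨q, rfl⟩ := Ideal.mem_span_singleton.1 hg
    rw [map_mul, σF, zero_mul]
  · obtain ⟨g, rfl⟩ := Ideal.Quotient.mk_surjective x
    exact hσ g
  · obtain ⟨g, rfl⟩ := Ideal.Quotient.mk_surjective x
    exact tau_one a π g

end Pool.Agent.MP_51db15_ag.Hy
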