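import Pool.Agent.MP_51db15_ag.Hy.Rows
import Pool.Agent.MP_51db15_ag.Hy.Base

/-! The rational two-form dual to a polynomial bivector. -/

namespace Pool.Agent.MP_51db15_ag.Hy

open MvPowerSeries Matrix

namespace D2

section Abstract

variable {K ι : Type} [Field K] [Algebra ℂ K] [Fintype ι]

/-- the Cartan expression -/
noncomputable def car (ω : LinearMap.BilinForm K (Derivation ℂ K K))
    (X Y Z : Derivation ℂ K K) : K :=
  X (ω Y Z) - Y (ω X Z) + Z (ω X Y) - ω ⁅X, Y⁆ Z + ω ⁅X, Z⁆ Y - ω ⁅Y, Z⁆ X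

theorem smul_lie' (a : K) (X Y : Derivation ℂ K K) : ⁅a • X, Y⁆ = a • ⁅X, Y⁆ - Y a • X := by
  ext z
  simp only [Derivation.commutator_apply, Derivation.smul_apply, Derivation.sub_apply,
    smul_eq_mul, Derivation.leibniz]
  ring

theorem sum_ap (ξ : ι → K) (H : ι → Derivation ℂ K K) (z : K) :
    (∑ i, ξ i • H i) z = ∑ i, ξ i * H i z := by
  have h := map_sum (Derivation.coeFnAddMonoidHom (R := ℂ) (A := K) (M := K))
    (fun i => ξ i • H i) Finset.univ
  have h1 := congrFun h z
  rw [Finset.sum_apply] at h1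
  exact h1

/-- the Cartan expression is linear in the first field -/
noncomputable def carL (ω : LinearMap.BilinForm K (Derivation ℂ K K)) (Y Z : Derivation ℂ K K) :
    Derivation ℂ K K →ₗ[K] K where
  toFun X := car ω X Y Z
  map_add' X X' := by
    simp only [car, add_lie, map_add, LinearMap.add_apply, Derivation.add_apply]
    ring
  map_smul' a X := by
    simp only [car, smul_lie', map_sub, map_smul, LinearMap.sub_apply, LinearMap.smul_apply,
      Derivation.smul_apply, smul_eq_mul, Derivation.leibniz, RingHom.id_apply]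
    ring

theorem car_cyc {ω : LinearMap.BilinForm K (Derivation ℂ K K)} (h : ∀ X Y, ω X Y = -ω Y X)
    (X Y Z : Derivation ℂ K K) : car ω X Y Z = car ω Y Z X := by
  rw [car, car, h Z X, h Y X, ← lie_skew Y X, ← lie_skew Z X]
  simp only [map_neg, LinearMap.neg_apply]
  ring

theorem car_span {ω : LinearMap.BilinForm K (Derivation ℂ K K)} {H : ι → Derivation ℂ K K}
    (hs : ∀ X : Derivation ℂ K K, ∃ ξ : ι → K, X = ∑ i, ξ i • H i) {Y Z : Derivation ℂ K K}
    (h : ∀ i, car ω (H i) Y Z = 0) (X : Derivation ℂ K K) : car ω X Y Z = 0 := by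
  obtain ⟨ξ, rfl⟩ := hs X
  change carL ω Y Z _ = 0
  rw [map_sum]
  refine Finset.sum_eq_zero fun i _ => ?_
  rw [map_smul]
  change ξ i • car ω (H i) Y Z = 0
  rw [h i, smul_zero]

/-- the form dual to a spanning family of Hamiltonian fields -/
theorem exists_form (x : ι → K) (H : ι → Derivation ℂ K K)
    (sk : ∀ i j, H i (x j) = -H j (x i))
    (jac : ∀ i j k, H i (H j (x k)) + H j (H k (x i)) + H k (H i (x j)) = 0)
    (hs : ∀ X : Derivation ℂ K K, ∃ ξ : ι → K, X = ∑ i, ξ i • H i) :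
    ∃ ω : LinearMap.BilinForm K (Derivation ℂ K K), IsClosedForm ω ∧
      ∀ (X Y : Derivation ℂ K K) (ξ : ι → K), (∀ k, X (x k) = ∑ i, ξ i * H i (x k)) →
        ω X Y = ∑ i, ξ i * Y (x i) := by
  have : CharZero K := charZero_of_injective_algebraMap (algebraMap ℂ K).injective
  obtain ⟨σ, hσ⟩ := (Fintype.linearCombination K H).exists_rightInverse_of_surjective
    (LinearMap.range_eq_top.mpr fun X => by
      obtain ⟨ξ, h⟩ := hs X
      exact ⟨ξ, by rw [Fintype.linearCombination_apply, h]⟩)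
  have hσ' : ∀ X k, X (x k) = ∑ i, σ X i * H i (x k) := fun X k => by
    have := LinearMap.congr_fun hσ X
    rw [LinearMap.comp_apply, Fintype.linearCombination_apply, LinearMap.id_apply] at this
    rw [← sum_ap, this]
  have sw : ∀ (X Y : Derivation ℂ K K) (ξ η : ι → K), (∀ k, X (x k) = ∑ i, ξ i * H i (x k)) →
      (∀ k, Y (x k) = ∑ i, η i * H i (x k)) →
      ∑ i, ξ i * Y (x i) = -∑ j, η j * X (x j) := by
    intro X Y ξ η h1 h2
    simp only [h1, h2, Finset.mul_sum, ← Finset.sum_neg_distrib]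
    rw [Finset.sum_comm]
    refine Finset.sum_congr rfl fun j _ => Finset.sum_congr rfl fun i _ => ?_
    rw [sk j i]; ring
  let ω : LinearMap.BilinForm K (Derivation ℂ K K) :=
    LinearMap.mk₂ K (fun X Y => ∑ i, σ X i * Y (x i))
      (fun X X' Y => by simp [add_mul, Finset.sum_add_distrib])
      (fun a X Y => by simp [Finset.mul_sum, mul_assoc])
      (fun X Y Y' => by simp [mul_add, Finset.sum_add_distrib])
      (fun a X Y => by simp [Finset.mul_sum, mul_left_comm])
  have hω : ∀ X Y, ω X Y = ∑ i, σ X i * Y (x i) := fun _ _ => rfl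
  have hsk : ∀ X Y, ω X Y = -ω Y X := fun X Y => sw X Y _ _ (hσ' X) (hσ' Y)
  have hval : ∀ (X Y : Derivation ℂ K K) (ξ : ι → K), (∀ k, X (x k) = ∑ i, ξ i * H i (x k)) →
      ω X Y = ∑ i, ξ i * Y (x i) := fun X Y ξ h => by
    rw [hsk, hω, sw X Y ξ _ h (hσ' Y)]
  have hH : ∀ i Y, ω (H i) Y = Y (x i) := fun i Y => by
    classical
    rw [hval (H i) Y (Pi.single i 1) fun k => by simp [Pi.single_apply]]
    simp [Pi.single_apply]
  have hH' : ∀ i Y, ω Y (H i) = -Y (x i) := fun i Y => by rw [hsk, hH]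
  refine ⟨ω, ⟨fun X => ?_, fun X Y Z => ?_⟩, hval⟩
  · have := hsk X X
    exact self_eq_neg.mp this
  · change car ω X Y Z = 0
    refine car_span hs (fun i => ?_) X
    rw [car_cyc hsk]
    refine car_span hs (fun j => ?_) Y
    rw [car_cyc hsk]
    refine car_span hs (fun k => ?_) Z
    have := jac k i j
    rw [car, hH, hH, hH, hH', hH', hH']
    simp only [Derivation.commutator_apply]
    rw [sk i k, map_neg]
    rw [sk j k, map_neg] at this ⊢
    linear_combination this

end Abstract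

section Poly

variable {K ι : Type} [Field K] [Algebra ℂ K] [Fintype ι] (φ : MvPolynomial ι ℂ →ₐ[ℂ] K)

theorem chain (X : Derivation ℂ K K) (a : MvPolynomial ι ℂ) :
    X (φ a) = ∑ k, φ (MvPolynomial.pderiv k a) * X (φ (.X k)) := by
  classical
  induction a using MvPolynomial.induction_on with
  | C c =>
    rw [MvPolynomial.algHom_C, Derivation.map_algebraMap]
    simp
  | add p q hp hq => simp only [map_add, hp, hq, add_mul, Finset.sum_add_distrib]
  | mul_X p i hp =>
    rw [map_mul, Derivation.leibniz, hp]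
    simp only [Derivation.leibniz, smul_eq_mul, map_add, map_mul, add_mul,
      Finset.sum_add_distrib, MvPolynomial.pderiv_X, Finset.mul_sum, mul_assoc]
    congr 1
    rw [Finset.sum_eq_single i]
    · simp
    · intro j _ h
      simp [Pi.single_eq_of_ne h.symm]
    · simp

theorem der_ext (hK : ∀ y : K, ∃ a b, y = φ a / φ b) {X Y : Derivation ℂ K K}
    (h : ∀ k, X (φ (.X k)) = Y (φ (.X k))) : X = Y := by
  ext y
  obtain ⟨a, b, rfl⟩ := hK y
  simp only [Derivation.leibniz_div, chain φ X a, chain φ X b, chain φ Y a, chain φ Y b, h]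

theorem coe_vf (v : ι → MvPolynomial ι ℂ) (a : MvPolynomial ι ℂ) :
    ((∑ k, v k * MvPolynomial.pderiv k a : MvPolynomial ι ℂ) : PS ι) =
      vf (fun k => (v k : PS ι)) (a : PS ι) := by
  rw [vf_apply, ← MvPolynomial.coeToMvPowerSeries.ringHom_apply, map_sum]
  simp only [map_mul, MvPolynomial.coeToMvPowerSeries.ringHom_apply, pderiv_coe]

end Poly

/-- tangent vectors are combinations of the rows -/
theorem span_rows {K ι : Type} [Field K] [Fintype ι] [DecidableEq ι] (M : Matrix ι ι K)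
    (p : ι → K) (i₀ : ι) (hp : p i₀ ≠ 0)
    (hd : (Matrix.of fun j k : {j // j ≠ i₀} => M j k).det ≠ 0)
    (ht : ∀ i, ∑ k, p k * M i k = 0) (t : ι → K) (h : ∑ k, p k * t k = 0) :
    ∃ ξ : ι → K, ∀ k, t k = ∑ i, ξ i * M i k := by
  set N : Matrix {j // j ≠ i₀} {j // j ≠ i₀} K := Matrix.of fun j k => M j k with hN
  let η : {j // j ≠ i₀} → K := (fun k : {j // j ≠ i₀} => t k) ᵥ* N⁻¹
  have h1 : η ᵥ* N = fun k : {j // j ≠ i₀} => t k := by
    rw [vecMul_vecMul, nonsing_inv_mul _ (isUnit_iff_ne_zero.mpr hd), vecMul_one]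
  let ξ : ι → K := fun i => if h : i = i₀ then 0 else η ⟨i, h⟩
  have h2 : ∀ k, k ≠ i₀ → t k = ∑ i, ξ i * M i k := fun k hk => by
    rw [Fintype.sum_eq_add_sum_subtype_ne _ i₀]
    have := congrFun h1 ⟨k, hk⟩
    simp only [vecMul, dotProduct, hN, of_apply] at this
    rw [← this]
    simp only [ξ, dif_pos, zero_mul, zero_add]
    exact Finset.sum_congr rfl fun j _ => by rw [dif_neg j.2]
  refine ⟨ξ, fun k => ?_⟩
  by_cases hk : k = i₀
  · subst hk
    have h3 : ∑ l, p l * (t l - ∑ i, ξ i * M i l) = 0 := by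
      simp only [mul_sub, Finset.sum_sub_distrib, h, Finset.mul_sum, zero_sub, neg_eq_zero]
      rw [Finset.sum_comm]
      refine Finset.sum_eq_zero fun i _ => ?_
      simp only [mul_left_comm _ (ξ i), ← Finset.mul_sum, ht, mul_zero]
    rw [Finset.sum_eq_single k (fun l _ hl => by rw [← h2 l hl, sub_self, mul_zero])
      (by simp)] at h3
    exact sub_eq_zero.mp ((mul_eq_zero.mp h3).resolve_left hp)
  · exact h2 k hk

end D2

open D2

theorem d2 (lift : S_LIFT) : S_D2 := by
  intro ι _ _ F Θ K _ _ φ hker hK hF poi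
  have hrow : ∀ i, (Θ.map fun g => (g : PS ι)) i = fun k => (Θ i k : PS ι) := fun _ => rfl
  have hH : ∀ i, ∃ H : Derivation ℂ K K,
      ∀ a, H (φ a) = φ (∑ k, Θ i k * MvPolynomial.pderiv k a) := fun i => by
    refine lift _ K φ (φ.toLinearMap ∘ₗ ∑ k, LinearMap.mulLeft ℂ (Θ i k) ∘ₗ
      (MvPolynomial.pderiv k).toLinearMap) hK (fun a b => ?_) (fun a ha => ?_) |>.imp
      fun H h a => by simpa using h a
    · simp only [LinearMap.comp_apply, LinearMap.sum_apply, LinearMap.mulLeft_apply,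
        Derivation.coeFn_coe, AlgHom.toLinearMap_apply, Derivation.leibniz, smul_eq_mul, map_sum,
        map_mul, map_add, Finset.mul_sum, ← Finset.sum_add_distrib]
      exact Finset.sum_congr rfl fun k _ => by ring
    · simp only [LinearMap.comp_apply, LinearMap.sum_apply, LinearMap.mulLeft_apply,
        Derivation.coeFn_coe, AlgHom.toLinearMap_apply]
      rw [hker, coe_vf]
      exact vf_dvd (poi.tang i) ((hker a).mp ha)
  choose H hH using hH
  have hX : ∀ i k, H i (φ (.X k)) = φ (Θ i k) := fun i k => by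
    rw [hH, Finset.sum_eq_single k]
    · simp
    · intro j _ h
      simp [Pi.single_eq_of_ne h.symm]
    · simp
  have hF0 : φ F = 0 := (hker F).mpr dvd_rfl
  have htan : ∀ X : Derivation ℂ K K,
      ∑ k, φ (MvPolynomial.pderiv k F) * X (φ (.X k)) = 0 := fun X => by
    rw [← D2.chain, hF0, map_zero]
  have hsk : ∀ i j, Θ i j = -Θ j i := fun i j => by
    have := congrFun (congrFun poi.skew j) i
    simp only [transpose_apply, map_apply, Matrix.neg_apply] at this
    refine MvPolynomial.coe_injective ι ℂ ?_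
    rw [this, ← MvPolynomial.coeToMvPowerSeries.ringHom_apply,
      ← MvPolynomial.coeToMvPowerSeries.ringHom_apply, map_neg]
  obtain ⟨i₀, hi₀⟩ := exists_pderiv_not_dvd hF.ne_zero (Prime.constantCoeff hF)
  have hp : φ (MvPolynomial.pderiv i₀ F) ≠ 0 := fun h => hi₀ (by
    rw [pderiv_coe]; exact (hker _).mp h)
  have hd : (Matrix.of fun j k : {j // j ≠ i₀} => (Θ.map φ) j k).det ≠ 0 := by
    intro h
    have h1 : φ (Matrix.of fun j k : {j // j ≠ i₀} => Θ j k).det = 0 := by
      rw [← h]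
      exact RingHom.map_det φ.toRingHom _
    have h2 := (hker _).mp h1
    have h3 : (((Matrix.of fun j k : {j // j ≠ i₀} => Θ j k).det : MvPolynomial ι ℂ) : PS ι) =
        (Θ.map fun g => (g : PS ι)).adjugate i₀ i₀ := by
      rw [adjugate_diag]
      exact RingHom.map_det
        (MvPolynomial.coeToMvPowerSeries.ringHom : MvPolynomial ι ℂ →+* PS ι) _
    obtain ⟨γ, hγ, h4⟩ := poi.nd
    have h5 := (dvd_iff_dvd_of_dvd_sub (h4 i₀ i₀)).mp (h3 ▸ h2)
    rw [hγ.dvd_mul_left] at h5
    exact hi₀ ((hF.dvd_or_dvd h5).elim id id)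
  have hspan : ∀ X : Derivation ℂ K K, ∃ ξ : ι → K,
      ∀ k, X (φ (.X k)) = ∑ i, ξ i * φ (Θ i k) := fun X =>
    span_rows (Θ.map φ) (fun k => φ (MvPolynomial.pderiv k F)) i₀ hp hd
      (fun i => by simpa only [hX, map_apply] using htan (H i)) _ (htan X)
  obtain ⟨ω, h1, h2⟩ := exists_form (fun k => φ (.X k)) H
    (fun i j => by rw [hX, hX, hsk i j, map_neg])
    (fun i j k => by
      rw [hX, hX, hX, hH, hH, hH, ← map_add, ← map_add, hker]
      have := poi.jac i j k
      simp only [hrow] at this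
      rwa [MvPolynomial.coe_add, MvPolynomial.coe_add, coe_vf, coe_vf, coe_vf])
    (fun X => (hspan X).imp fun ξ h => der_ext φ hK fun k => by
      rw [h, sum_ap]; simp only [hX])
  refine ⟨ω, h1, fun x y ξ h => h2 x y ξ (by simpa only [hX] using h), hspan, fun ξ => ?_⟩
  exact ⟨∑ i, ξ i • H i, fun k => by rw [sum_ap]; simp only [hX]⟩

end Pool.Agent.MP_51db15_ag.Hy
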