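import Pool.Agent.MP_51db15_ag.Hy.Rows
import Pool.Agent.MP_51db15_ag.Hy.Base

/-! Regularity of the rational form along a discrete valuation. -/

namespace Pool.Agent.MP_51db15_ag.Hy

open MvPowerSeries Matrix

namespace D3

variable {O : Type} [CommRing O]

section Mu

variable [Algebra ℂ O] {ι : Type} [Fintype ι] (ψ : MvPolynomial ι ℂ →ₐ[ℂ] O) (a : ι → ℕ)

/-- the scaled coordinates -/
noncomputable def sc (i : ι) : PowerSeries O :=
  PowerSeries.C (ψ (.X i)) * PowerSeries.X ^ a i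

theorem hasSubst (ha : ∀ i, 0 < a i) : HasSubst (σ := ι) (τ := Unit) (sc ψ a) :=
  hasSubst_of_constantCoeff_zero fun i => by
    change PowerSeries.constantCoeff (sc ψ a i) = 0
    simp [sc, (ha i).ne']

/-- the scaling map -/
noncomputable def mu (ha : ∀ i, 0 < a i) : PS ι →ₐ[ℂ] PowerSeries O :=
  substAlgHom (hasSubst ψ a ha)

theorem mu_X (ha : ∀ i, 0 < a i) (i : ι) : mu ψ a ha (X i) = sc ψ a i := substAlgHom_X _ i

omit [Fintype ι] in
theorem prod_sc (α : ι →₀ ℕ) : (α.prod fun i n => sc ψ a i ^ n) =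
    PowerSeries.C (ψ (.monomial α 1)) * PowerSeries.X ^ Finsupp.weight a α := by
  rw [MvPolynomial.monomial_eq, MvPolynomial.C_1, one_mul, Finsupp.weight_apply, Finsupp.prod,
    Finsupp.prod, Finsupp.sum, map_prod, map_prod, ← Finset.prod_pow_eq_pow_sum,
    ← Finset.prod_mul_distrib]
  refine Finset.prod_congr rfl fun i _ => ?_
  rw [sc, mul_pow, map_pow, map_pow, ← pow_mul, smul_eq_mul, mul_comm (a i)]

omit [Fintype ι] in
theorem weight_cast (α : ι →₀ ℕ) :
    Finsupp.weight (fun i => (a i : ℚ)) α = ((Finsupp.weight a α : ℕ) : ℚ) := by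
  simp only [Finsupp.weight_apply, Finsupp.sum, nsmul_eq_mul, smul_eq_mul]
  push_cast
  rfl

theorem coeff_mu (ha : ∀ i, 0 < a i) (g : PS ι) (n : ℕ) : PowerSeries.coeff n (mu ψ a ha g) =
    ∑ᶠ α, coeff α g • if n = Finsupp.weight a α then ψ (.monomial α 1) else 0 := by
  rw [mu, substAlgHom_apply, PowerSeries.coeff, coeff_subst (hasSubst ψ a ha)]
  refine finsum_congr fun α => ?_
  rw [← PowerSeries.coeff_C_mul_X_pow, ← prod_sc]
  rfl

theorem coeff_mu_comp (ha : ∀ i, 0 < a i) (g : PS ι) (n : ℕ) :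
    PowerSeries.coeff n (mu ψ a ha (comp (fun i => (a i : ℚ)) (n : ℚ) g)) =
      PowerSeries.coeff n (mu ψ a ha g) := by
  rw [coeff_mu, coeff_mu]
  refine finsum_congr fun α => ?_
  rw [coeff_comp, weight_cast]
  by_cases h : n = Finsupp.weight a α
  · rw [if_pos (by rw [h])]
  · rw [if_neg h, smul_zero, smul_zero]

theorem mu_poly (ha : ∀ i, 0 < a i) {g : MvPolynomial ι ℂ} {e : ℚ}
    (hg : IsHom (fun i => (a i : ℚ)) e (g : PS ι)) {m n : ℕ} (h : e + m = n) :
    mu ψ a ha g * PowerSeries.X ^ m = PowerSeries.C (ψ g) * PowerSeries.X ^ n := by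
  have h1 : mu ψ a ha g = MvPolynomial.aeval (sc ψ a) g := substAlgHom_coe _ g
  rw [h1]
  conv_lhs => rw [g.as_sum]
  conv_rhs => rw [g.as_sum]
  simp only [map_sum, Finset.sum_mul]
  refine Finset.sum_congr rfl fun α hα => ?_
  have h2 := hg α (by rw [MvPolynomial.coeff_coe]; exact MvPolynomial.mem_support_iff.mp hα)
  rw [weight_cast] at h2
  have h3 : Finsupp.weight a α + m = n := by
    rw [← h2] at h
    exact_mod_cast h
  have h4 : ψ (.monomial α (g.coeff α)) = algebraMap ℂ O (g.coeff α) * ψ (.monomial α 1) := by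
    rw [← MvPolynomial.algHom_C ψ, ← map_mul, MvPolynomial.C_mul_monomial, mul_one]
  rw [MvPolynomial.aeval_monomial, prod_sc, h4, ← h3, pow_add, map_mul,
    PowerSeries.algebraMap_apply]
  ring

theorem mu_chain (p1 : S_P1) (ha : ∀ i, 0 < a i) (D : PowerSeries O →+ PowerSeries O)
    (hD : Leib D) (h0 : ∀ c : ℂ, D (algebraMap ℂ _ c) = 0) (g : PS ι) :
    D (mu ψ a ha g) = ∑ i, mu ψ a ha (pderiv ℂ i g) * D (sc ψ a i) := by
  have := p1 ℂ ι (PowerSeries O) (mu ψ a ha).toRingHom
    (D.comp (mu ψ a ha).toRingHom.toAddMonoidHom) (Ideal.span {PowerSeries.X})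
    (fun g h => by
      change D (mu ψ a ha (g * h)) = mu ψ a ha g * D (mu ψ a ha h) + D (mu ψ a ha g) * mu ψ a ha h
      rw [map_mul, hD, mul_comm (mu ψ a ha h)])
    (fun c => by
      change D (mu ψ a ha (algebraMap ℂ _ c)) = 0
      rw [AlgHom.commutes, h0])
    (fun i => by
      change mu ψ a ha (X i) ∈ _
      rw [mu_X, Ideal.mem_span_singleton]
      exact (dvd_pow_self _ (ha i).ne').mul_left _)
    (fun s hs => by
      ext n
      have := hs (n + 1)
      rw [Ideal.span_singleton_pow, Ideal.mem_span_singleton, PowerSeries.X_pow_dvd_iff] at this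
      simpa using this n (Nat.lt_succ_self n)) g
  simp only [← mu_X ψ a ha]
  exact this

end Mu

/-- a derivation applied to the coefficients -/
noncomputable def cw (δ : O →+ O) : PowerSeries O →+ PowerSeries O where
  toFun p := PowerSeries.mk fun n => δ (PowerSeries.coeff n p)
  map_zero' := by ext n; simp
  map_add' p q := by ext n; simp

theorem coeff_cw (δ : O →+ O) (p : PowerSeries O) (n : ℕ) :
    PowerSeries.coeff n (cw δ p) = δ (PowerSeries.coeff n p) :=
  PowerSeries.coeff_mk n fun n => δ (PowerSeries.coeff n p)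

theorem leib_cw {δ : O →+ O} (h : Leib δ) : Leib (cw δ) := fun p q => by
  ext n
  rw [mul_comm q, map_add, coeff_cw, PowerSeries.coeff_mul, PowerSeries.coeff_mul,
    PowerSeries.coeff_mul, map_sum, ← Finset.sum_add_distrib]
  exact Finset.sum_congr rfl fun x _ => by rw [h, coeff_cw, coeff_cw, mul_comm (δ _)]

theorem cw_mono (δ : O →+ O) (c : O) (n : ℕ) : cw δ (PowerSeries.C c * PowerSeries.X ^ n) =
    PowerSeries.C (δ c) * PowerSeries.X ^ n := by
  ext k
  rw [coeff_cw, PowerSeries.coeff_C_mul_X_pow, PowerSeries.coeff_C_mul_X_pow]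
  split_ifs <;> simp

/-- the Euler operator in one variable -/
noncomputable def eu : PowerSeries O →+ PowerSeries O :=
  (AddMonoidHom.mulLeft PowerSeries.X).comp (PowerSeries.derivative O).toLinearMap.toAddMonoidHom

theorem eu_ap (p : PowerSeries O) : eu p = PowerSeries.X * PowerSeries.derivative O p := rfl

theorem leib_eu : Leib (eu (O := O)) := fun p q => by
  simp only [eu_ap, Derivation.leibniz, smul_eq_mul]
  ring

theorem eu_mono (c : O) (n : ℕ) : eu (PowerSeries.C c * PowerSeries.X ^ n) =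
    (n : PowerSeries O) * (PowerSeries.C c * PowerSeries.X ^ n) := by
  rw [eu_ap, Derivation.leibniz, PowerSeries.derivative_C, Derivation.leibniz_pow,
    PowerSeries.derivative_X]
  cases n with
  | zero => simp
  | succ n => simp only [smul_eq_mul, nsmul_eq_mul, Nat.add_sub_cancel, pow_succ]; ring

section Val

variable [IsDomain O] (m : Ideal O) [m.IsPrime]

/-- reduction of the coefficients -/
noncomputable def red : PowerSeries O →+* PowerSeries (O ⧸ m) :=
  PowerSeries.map (Ideal.Quotient.mk m)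

omit [IsDomain O] in
theorem exists_prim {p : PowerSeries O} {n : ℕ}
    (h : ∀ k, PowerSeries.coeff n p ∣ PowerSeries.coeff k p) :
    ∃ q, red m q ≠ 0 ∧ p = PowerSeries.C (PowerSeries.coeff n p) * q := by
  classical
  choose u hu using h
  refine ⟨PowerSeries.mk fun k => if k = n then 1 else u k, fun h0 => ?_, ?_⟩
  · have := congrArg (PowerSeries.coeff n) h0
    simp [red] at this
  · ext k
    rw [PowerSeries.coeff_C_mul, PowerSeries.coeff_mk]
    split_ifs with h
    · rw [h, mul_one]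
    · exact hu k

/-- fractions with a primitive denominator -/
noncomputable def W (h1 : ∀ c e : O, c ∣ e ∨ e ∣ c)
    (h2 : ∀ p : PowerSeries O, ∃ n, ∀ k, PowerSeries.coeff n p ∣ PowerSeries.coeff k p) :
    ValuationSubring (FractionRing (PowerSeries O)) where
  carrier := {z | ∃ p q, red m q ≠ 0 ∧ z * algebraMap _ _ q = algebraMap (PowerSeries O) _ p}
  mul_mem' := by
    rintro z z' ⟨p, q, hq, e⟩ ⟨p', q', hq', e'⟩
    refine ⟨p * p', q * q', by rw [map_mul]; exact mul_ne_zero hq hq', ?_⟩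
    rw [map_mul, map_mul, ← e, ← e']; ring
  one_mem' := ⟨1, 1, by simp, by simp⟩
  add_mem' := by
    rintro z z' ⟨p, q, hq, e⟩ ⟨p', q', hq', e'⟩
    refine ⟨p * q' + p' * q, q * q', by rw [map_mul]; exact mul_ne_zero hq hq', ?_⟩
    rw [map_add, map_mul, map_mul, map_mul, ← e, ← e']; ring
  zero_mem' := ⟨0, 1, by simp, by simp⟩
  neg_mem' := by
    rintro z ⟨p, q, hq, e⟩
    exact ⟨-p, q, hq, by rw [map_neg, ← e, neg_mul]⟩
  mem_or_inv_mem' z := by
    obtain ⟨p, q, hq, rfl⟩ := IsFractionRing.div_surjective (A := PowerSeries O) z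
    have key : ∀ (c u : O) (p' q' : PowerSeries O), red m q' ≠ 0 →
        ∃ p₁ q₁, red m q₁ ≠ 0 ∧
          algebraMap (PowerSeries O) (FractionRing (PowerSeries O)) (PowerSeries.C (c * u) * p') /
            algebraMap (PowerSeries O) _ (PowerSeries.C c * q') * algebraMap _ _ q₁ =
          algebraMap (PowerSeries O) _ p₁ := by
      intro c u p' q' hq'
      by_cases hc : c = 0
      · exact ⟨0, 1, by simp, by simp [hc]⟩
      have h3 : algebraMap (PowerSeries O) (FractionRing (PowerSeries O))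
          (PowerSeries.C c) ≠ 0 := by
        rw [Ne, FaithfulSMul.algebraMap_eq_zero_iff]
        exact fun h => hc (PowerSeries.C_injective (h.trans (map_zero _).symm))
      have h4 : algebraMap (PowerSeries O) (FractionRing (PowerSeries O)) q' ≠ 0 := by
        rw [Ne, FaithfulSMul.algebraMap_eq_zero_iff]
        rintro rfl
        exact hq' (map_zero _)
      refine ⟨PowerSeries.C u * p', q', hq', ?_⟩
      simp only [map_mul]
      field_simp
    obtain ⟨n, hn⟩ := h2 p
    obtain ⟨n', hn'⟩ := h2 q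
    obtain ⟨p', hp', e⟩ := exists_prim m hn
    obtain ⟨q', hq', e'⟩ := exists_prim m hn'
    rcases h1 (PowerSeries.coeff n p) (PowerSeries.coeff n' q) with ⟨u, hu⟩ | ⟨u, hu⟩
    · right
      rw [inv_div, e', hu]
      nth_rewrite 2 [e]
      exact key _ u q' p' hp'
    · left
      rw [e, hu]
      nth_rewrite 2 [e']
      exact key _ u p' q' hq'

variable {m} {h1 : ∀ c e : O, c ∣ e ∨ e ∣ c}
  {h2 : ∀ p : PowerSeries O, ∃ n, ∀ k, PowerSeries.coeff n p ∣ PowerSeries.coeff k p}

theorem mem_W {z : FractionRing (PowerSeries O)} : z ∈ W m h1 h2 ↔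
    ∃ p q, red m q ≠ 0 ∧ z * algebraMap _ _ q = algebraMap (PowerSeries O) _ p := Iff.rfl

theorem der_mem {D : PowerSeries O →+ PowerSeries O} (hD : Leib D) {α β : PowerSeries O}
    (hβ : algebraMap _ (FractionRing (PowerSeries O)) β ≠ 0)
    (h : algebraMap _ _ α / algebraMap _ _ β ∈ W m h1 h2) :
    (algebraMap _ _ (D α) * algebraMap _ _ β - algebraMap _ _ α * algebraMap _ _ (D β)) /
      algebraMap _ _ β ^ 2 ∈ W m h1 h2 := by
  obtain ⟨p, q, hq, e⟩ := h
  rw [div_mul_eq_mul_div, div_eq_iff hβ, ← map_mul, ← map_mul] at e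
  have e1 : α * q = p * β := FaithfulSMul.algebraMap_injective _ _ e
  have e2 := congrArg D e1
  rw [hD, hD] at e2
  refine ⟨D p * q - p * D q, q * q, by rw [map_mul]; exact mul_ne_zero hq hq, ?_⟩
  rw [div_mul_eq_mul_div, div_eq_iff (pow_ne_zero 2 hβ), ← map_mul, ← map_mul, ← map_sub,
    ← map_mul, ← map_pow, ← map_mul]
  congr 1
  linear_combination (β * q) * e2 - (D β * q + β * D q) * e1

theorem not_mem {u : O} (hu : u ∈ m) {z : FractionRing (PowerSeries O)} {w : ℕ}
    (h : algebraMap (PowerSeries O) _ (PowerSeries.C u) * z =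
      algebraMap (PowerSeries O) _ PowerSeries.X ^ w) : z ∉ W m h1 h2 := by
  rintro ⟨p, q, hq, e⟩
  have e1 : PowerSeries.X ^ w * q = PowerSeries.C u * p := by
    refine FaithfulSMul.algebraMap_injective _ (FractionRing (PowerSeries O)) ?_
    rw [map_mul, map_mul, map_pow, ← e, ← h, mul_assoc]
  have e2 := congrArg (red m) e1
  rw [map_mul, map_mul, map_pow] at e2
  have e3 : red m (PowerSeries.C u) = 0 := by
    rw [red, PowerSeries.map_C, Ideal.Quotient.eq_zero_iff_mem.mpr hu, map_zero]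
  have e4 : red m PowerSeries.X ≠ 0 := by
    rw [red, PowerSeries.map_X]
    exact PowerSeries.X_ne_zero
  rw [e3, zero_mul] at e2
  exact mul_ne_zero (pow_ne_zero w e4) hq e2

end Val

theorem fl1 {κ : Type} [Field κ] {t P Q : κ} (ξ : κ) {a b w : ℕ} (ht : t ≠ 0)
    (h : P * t ^ w = Q * t ^ (a + b)) : ξ * Q * t ^ b = ξ * t ^ w / t ^ a * P := by
  rw [pow_add] at h
  field_simp
  linear_combination (-ξ) * h

theorem fl2 {κ : Type} [Field κ] {t : κ} (ξ y : κ) (a w : ℕ) (ht : t ≠ 0) :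
    ξ * y * t ^ w = ξ * t ^ w / t ^ a * (y * t ^ a) := by
  field_simp

theorem dq_dot {κ ι : Type} [Field κ] [Algebra ℂ κ] [Fintype ι] (Φ : PS ι →ₐ[ℂ] κ) (g h : PS ι)
    (x : ι → κ) : dq Φ g h ⬝ᵥ x = ((∑ k, Φ (pderiv ℂ k g) * x k) * Φ h -
      Φ g * ∑ k, Φ (pderiv ℂ k h) * x k) / Φ h ^ 2 := by
  simp only [dotProduct, dq, Finset.sum_mul, Finset.mul_sum, ← Finset.sum_sub_distrib,
    Finset.sum_div]
  exact Finset.sum_congr rfl fun k _ => by ring

section DV

variable {K : Type} [Field K] [Algebra ℂ K] (v : DV K) (hc : v.Const)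

/-- the valuation ring as an algebra -/
def alg : Subalgebra ℂ K := { v.ring with algebraMap_mem' := hc }

/-- its maximal ideal -/
def mx : Ideal (alg v hc) where
  carrier := {y | v.Ge 1 (y : K)}
  add_mem' := DV.Ge.add
  zero_mem' := DV.ge_zero 1
  smul_mem' c _ hy := DV.Ge.mul_left c.2 hy

instance mx_prime : (mx v hc).IsPrime :=
  ⟨(Ideal.ne_top_iff_one _).mpr DV.not_ge_one_one, fun {x y} h => DV.ge_one_mul x.2 y.2 h⟩

theorem dvd_of_le {c e : alg v hc} (h0 : (c : K) ≠ 0) (h : v.Ge (v.ord c) (e : K)) : c ∣ e :=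
  ⟨⟨e / c, show v.Ge 0 _ by simpa using h.div h0⟩, Subtype.ext (by
    change (e : K) = c * (e / c)
    field_simp)⟩

theorem tot (c e : alg v hc) : c ∣ e ∨ e ∣ c := by
  by_cases h0 : (c : K) = 0
  · right; rw [show c = 0 from Subtype.ext h0]; exact dvd_zero _
  by_cases h1 : (e : K) = 0
  · left; rw [show e = 0 from Subtype.ext h1]; exact dvd_zero _
  rcases le_total (v.ord c) (v.ord e) with h | h
  · exact Or.inl (dvd_of_le v hc h0 (Or.inr h))
  · exact Or.inr (dvd_of_le v hc h1 (Or.inr h))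

theorem content (p : PowerSeries (alg v hc)) :
    ∃ n, ∀ k, PowerSeries.coeff n p ∣ PowerSeries.coeff k p := by
  by_cases h : ∃ n, ((PowerSeries.coeff n p : alg v hc) : K) ≠ 0
  · obtain ⟨z, ⟨n, hn, rfl⟩, hz⟩ := Int.exists_least_of_bdd
      (P := fun z => ∃ n, ((PowerSeries.coeff n p : alg v hc) : K) ≠ 0 ∧
        v.ord (PowerSeries.coeff n p : alg v hc) = z)
      ⟨0, fun z ⟨n, hn, e⟩ => e ▸ DV.Ge.le (PowerSeries.coeff n p).2 hn⟩
      (h.elim fun n hn => ⟨_, n, hn, rfl⟩)
    refine ⟨n, fun k => dvd_of_le v hc hn ?_⟩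
    by_cases hk : ((PowerSeries.coeff k p : alg v hc) : K) = 0
    · exact Or.inl hk
    · exact Or.inr (hz _ ⟨k, hk, rfl⟩)
  · push Not at h
    exact ⟨0, fun k => by
      rw [show PowerSeries.coeff k p = 0 from Subtype.ext (h k)]; exact dvd_zero _⟩

instance frac : IsFractionRing (alg v hc) K :=
  IsFractionRing.of_field _ _ fun z => by
    by_cases h : v.Ge 0 z
    · exact ⟨⟨z, h⟩, 1, by simp⟩
    · have h0 : z ≠ 0 := fun e => h (Or.inl e)
      rw [DV.ge_iff h0] at h
      exact ⟨1, ⟨z⁻¹, Or.inr (by rw [v.ord_inv h0]; omega)⟩, by simp⟩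

/-- restriction of a derivation to the valuation ring -/
noncomputable def res (x : Derivation ℂ K K) (hx : ∀ z, v.Ge 0 z → v.Ge 0 (x z)) :
    alg v hc →+ alg v hc where
  toFun z := ⟨x z, hx z z.2⟩
  map_zero' := Subtype.ext (map_zero x)
  map_add' z z' := Subtype.ext (map_add x z.1 z'.1)

theorem leib_res (x : Derivation ℂ K K) (hx : ∀ z, v.Ge 0 z → v.Ge 0 (x z)) :
    Leib (res v hc x hx) := fun z z' => Subtype.ext (x.leibniz z.1 z'.1)

theorem cw_res_alg (x : Derivation ℂ K K) (hx : ∀ z, v.Ge 0 z → v.Ge 0 (x z)) (c : ℂ) :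
    cw (res v hc x hx) (algebraMap ℂ _ c) = 0 := by
  have := cw_mono (res v hc x hx) (algebraMap ℂ _ c) 0
  rw [pow_zero, mul_one, mul_one] at this
  rw [PowerSeries.algebraMap_apply, this,
    show res v hc x hx (algebraMap ℂ _ c) = 0 from Subtype.ext (x.map_algebraMap c), map_zero]

end DV

end D3

open D3

theorem d3 (p1 : S_P1) (kae : S_KAE) (d1 : S_D1) : S_D3 := by
  intro ι _ _ F Θ a w d K _ _ φ hker ha hF poi grd ext v x y ξ hφ hx hy hξ
  have hc : v.Const := fun c => by simpa using hφ (.C c)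
  let O := alg v hc
  let κ := FractionRing (PowerSeries O)
  let ψ : MvPolynomial ι ℂ →ₐ[ℂ] O := φ.codRestrict O hφ
  let μ := mu ψ a ha
  let ι₀ : PowerSeries O →ₐ[ℂ] κ := IsScalarTower.toAlgHom ℂ (PowerSeries O) κ
  have hinj : Function.Injective ι₀ := FaithfulSMul.algebraMap_injective (PowerSeries O) κ
  let Φ : PS ι →ₐ[ℂ] κ := ι₀.comp μ
  have hΦ : ∀ g, Φ g = algebraMap _ κ (μ g) := fun _ => rfl
  let V : ValuationSubring κ := W (mx v hc) (tot v hc) (content v hc)
  have hμF : μ F = 0 := by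
    have := mu_poly ψ a ha grd.1 (m := 0) (n := d) (by simp)
    rwa [pow_zero, mul_one, show ψ F = 0 from Subtype.ext ((hker F).mpr dvd_rfl), map_zero,
      zero_mul] at this
  have hk : KerIs (F : PS ι) Φ := fun g => by
    constructor
    · intro h
      have h0 : μ g = 0 := hinj (h.trans (map_zero _).symm)
      refine dvd_of_dvd_comp (a := fun i => (a i : ℚ)) fun e => ?_
      obtain ⟨g₀, hg₀⟩ := (d1 ι a ha).1 e _ (isHom_comp e g)
      by_cases he : ∃ n : ℕ, e = n
      · obtain ⟨n, rfl⟩ := he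
        have h1 := coeff_mu_comp ψ a ha g n
        have h2 := mu_poly ψ a ha (g := g₀) (hg₀ ▸ isHom_comp (n : ℚ) g) (m := 0) (n := n)
          (by simp)
        rw [pow_zero, mul_one] at h2
        rw [← hg₀, h2, PowerSeries.coeff_C_mul_X_pow, if_pos rfl] at h1
        rw [← hg₀, ← hker]
        exact congrArg Subtype.val (h1.trans (by rw [show mu ψ a ha g = 0 from h0, map_zero]))
      · have : comp (fun i => (a i : ℚ)) e g = 0 := by
          ext α
          rw [coeff_comp, if_neg fun h => he ⟨_, h.symm.trans (weight_cast a α)⟩, map_zero]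
        rw [this]
        exact dvd_zero _
    · rintro ⟨q, rfl⟩
      rw [hΦ, map_mul, hμF, zero_mul, map_zero]
  have heu : ∀ g, μ (vf (eul fun i => (a i : ℚ)) g) = eu (μ g) := fun g => by
    rw [mu_chain ψ a p1 ha eu leib_eu
      (fun c => by rw [PowerSeries.algebraMap_apply, eu_ap, PowerSeries.derivative_C, mul_zero]),
      vf_apply, map_sum]
    refine Finset.sum_congr rfl fun i _ => ?_
    rw [map_mul, mul_comm, eul, map_mul, mu_X, sc, eu_mono, Rat.cast_natCast, map_natCast,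
      map_natCast]
  have hinv : Inv Φ (eul fun i => (a i : ℚ)) V := fun g h h0 hm => by
    rw [dfr, hΦ, hΦ, hΦ, hΦ, heu, heu]
    exact der_mem (α := μ g) (β := μ h) leib_eu h0 hm
  obtain ⟨S, _, c, g, h, g', h', hS, hW⟩ := ((kae ι _ _ hF poi).2 κ Φ hk).2 V |>.mp
    (ext κ Φ hk V (fun g => ⟨μ g, 1, by simp, by rw [map_one, mul_one, hΦ]⟩) hinv)
  let j : K →+* κ := IsFractionRing.lift (A := O)
    (g := (algebraMap (PowerSeries O) κ).comp PowerSeries.C)
    (hinj.comp PowerSeries.C_injective)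
  have hj : ∀ z : O, j z = algebraMap _ κ (PowerSeries.C z) := fun z =>
    IsFractionRing.lift_algebraMap _ z
  set t : κ := algebraMap (PowerSeries O) κ PowerSeries.X with ht
  have ht0 : t ≠ 0 := by
    rw [ht, Ne, FaithfulSMul.algebraMap_eq_zero_iff]
    exact PowerSeries.X_ne_zero
  have hvec : ∀ (z : Derivation ℂ K K) (hz : ∀ u, v.Ge 0 u → v.Ge 0 (z u)) k,
      algebraMap _ κ (cw (res v hc z hz) (sc ψ a k)) = j (z (φ (.X k))) * t ^ a k := by
    intro z hz k
    rw [sc, cw_mono, map_mul, map_pow, ← hj]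
    rfl
  have hch : ∀ (z : Derivation ℂ K K) (hz : ∀ u, v.Ge 0 u → v.Ge 0 (z u)) g,
      ∑ k, Φ (pderiv ℂ k g) * (j (z (φ (.X k))) * t ^ a k) =
        algebraMap _ κ (cw (res v hc z hz) (μ g)) := by
    intro z hz g
    rw [mu_chain ψ a p1 ha _ (leib_cw (leib_res v hc z hz)) (cw_res_alg v hc z hz), map_sum]
    exact Finset.sum_congr rfl fun k _ => by rw [map_mul, hvec, hΦ]
  have hdq : ∀ (z : Derivation ℂ K K) (hz : ∀ u, v.Ge 0 u → v.Ge 0 (z u)) g h, Φ h ≠ 0 →
      Φ g / Φ h ∈ V → (dq Φ g h ⬝ᵥ fun k => j (z (φ (.X k))) * t ^ a k) ∈ V := by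
    intro z hz g h h0 hm
    rw [dq_dot, hch z hz, hch z hz]
    exact der_mem (α := μ g) (β := μ h) (leib_cw (leib_res v hc z hz)) h0 hm
  have hΘ : ∀ i k, Φ (Θ i k : PS ι) * t ^ w = j (φ (Θ i k)) * t ^ (a i + a k) := fun i k => by
    have := congrArg (algebraMap _ κ)
      (mu_poly ψ a ha (grd.2 i k) (m := w) (n := a i + a k) (by push_cast; ring))
    rw [map_mul, map_mul, map_pow, map_pow, ← hj] at this
    exact this
  have h1 := hW (fun i => j (ξ i) * t ^ w / t ^ a i) (fun k => j (x (φ (.X k))) * t ^ a k)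
    (fun k => j (y (φ (.X k))) * t ^ a k)
    (fun k => by
      rw [hξ, map_sum, Finset.sum_mul]
      refine Finset.sum_congr rfl fun i _ => ?_
      rw [map_mul]
      exact fl1 _ ht0 (hΘ i k))
    (by rw [hch y hy, hμF, map_zero, map_zero])
  have h2 : j (∑ i, ξ i * y (φ (.X i))) * t ^ w ∈ V := by
    have e : j (∑ i, ξ i * y (φ (.X i))) * t ^ w =
        ∑ i, j (ξ i) * t ^ w / t ^ a i * (j (y (φ (.X i))) * t ^ a i) := by
      rw [map_sum, Finset.sum_mul]
      refine Finset.sum_congr rfl fun i _ => ?_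
      rw [map_mul]
      exact fl2 _ _ _ _ ht0
    rw [e, h1]
    refine V.toSubring.sum_mem fun s _ => ?_
    obtain ⟨s1, s2, s3, s4, s5⟩ := hS s
    exact V.toSubring.mul_mem s1 (V.toSubring.sub_mem
      (V.toSubring.mul_mem (hdq x hx _ _ s2 s4) (hdq y hy _ _ s3 s5))
      (V.toSubring.mul_mem (hdq x hx _ _ s3 s5) (hdq y hy _ _ s2 s4)))
  generalize ∑ i, ξ i * y (φ (.X i)) = z at h2 ⊢
  by_contra hz
  have hz0 : z ≠ 0 := fun e => hz (Or.inl e)
  rw [DV.ge_iff hz0] at hz
  have hz1 : v.Ge 1 z⁻¹ := Or.inr (by rw [v.ord_inv hz0]; omega)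
  refine not_mem (u := ⟨z⁻¹, hz1.mono (by omega)⟩) hz1 (w := w) ?_ h2
  rw [← hj, ← mul_assoc, ← map_mul, inv_mul_cancel₀ hz0, map_one, one_mul]

end Pool.Agent.MP_51db15_ag.Hy
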