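import Pool.Agent.MP_51db15_ag.Hy.Rows

/-! The polynomial model of a formally conical hypersurface is a conical symplectic variety. -/

set_option linter.unusedSectionVars false

namespace Pool.Agent.MP_51db15_ag.Hy

open MvPolynomial

namespace D4

section Field

variable {K : Type} [Field K] [Algebra ℂ K]

theorem div_der {R : Set K} {v : DV K} (hv : IsDiv R v) (X : Derivation ℂ K K)
    (h : ∀ r ∈ R, v.Ge 0 (X r)) (a : K) (ha : v.Ge 0 a) : v.Ge 0 (X a) := by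
  obtain ⟨b, hb, s, hs, hs0, hs1, rfl⟩ := hv.2 a ha
  rw [Derivation.leibniz_div]
  exact DV.Ge.mul_left (DV.Ge.pow (Or.inr (by rw [v.ord_inv hs0, hs1]; rfl)) 2)
    (((hv.1 s hs).mul_left (h b hb)).sub ((hv.1 b hb).mul_left (h s hs)))

/-- regularity on a normal Noetherian model, after clearing denominators -/
theorem regular_of (ω : LinearMap.BilinForm K (Derivation ℂ K K)) (S : Set K)
    (hf : ∀ y : K, ∃ a ∈ S, ∃ b ∈ S, b ≠ 0 ∧ y = a / b)
    (hω : ∀ (v : DV K) (X Y : Derivation ℂ K K), (∀ y ∈ S, v.Ge 0 y) →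
      (∀ a, v.Ge 0 a → v.Ge 0 (X a)) → (∀ a, v.Ge 0 a → v.Ge 0 (Y a)) → v.Ge 0 (ω X Y))
    (O : Subring K) [IsNoetherianRing O]
    (hn : ∀ y : K, IsIntegral O y → y ∈ O) (hS : ∀ y ∈ S, y ∈ O) (M : Submonoid K)
    (hM : ∀ s ∈ M, s ∈ O) {X Y : Derivation ℂ K K} (hX : ∀ a ∈ O, ∃ s ∈ M, s * X a ∈ O)
    (hY : ∀ a ∈ O, ∃ s ∈ M, s * Y a ∈ O) : ∃ s ∈ M, s * ω X Y ∈ O := by
  by_contra hc
  push Not at hc
  obtain ⟨a, ha, b, hb, hb0, e⟩ := hf (ω X Y)
  obtain ⟨v, hv, h1, -, h2⟩ := krull O hn (fun y => by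
    obtain ⟨a, ha, b, hb, h⟩ := hf y
    exact ⟨a, hS a ha, b, hS b hb, h⟩) M hM (hS b hb) hb0
    (by rw [e, mul_div_cancel₀ _ hb0]; exact hS a ha) hc
  have h3 : ∀ X : Derivation ℂ K K, (∀ a ∈ O, ∃ s ∈ M, s * X a ∈ O) →
      ∀ a, v.Ge 0 a → v.Ge 0 (X a) := fun X hX => div_der hv X fun r hr => by
    obtain ⟨s, hs, h4⟩ := hX r hr
    obtain ⟨h5, h6⟩ := DV.unit_of_not_ge (hv.1 s (hM s hs)) (h1 s hs)
    have := (hv.1 _ h4).div_unit h5 h6
    rwa [mul_div_cancel_left₀ _ h5] at this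
  exact h2 (hω v X Y (fun y hy => hv.1 y (hS y hy)) (h3 X hX) (h3 Y hY))

/-- the local ring as a subring -/
def loc (S : Subalgebra ℂ K) (p : Ideal S) [hp : p.IsPrime] : Subring K where
  carrier := stalk S p
  mul_mem' := by
    rintro _ _ ⟨a, s, hs, rfl⟩ ⟨b, t, ht, rfl⟩
    exact ⟨a * b, s * t, fun h => (hp.mem_or_mem h).elim hs ht, by
      rw [map_mul, map_mul, div_mul_div_comm]⟩
  one_mem' := ⟨1, 1, (Ideal.ne_top_iff_one p).1 hp.ne_top, by simp⟩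
  add_mem' := by
    rintro _ _ ⟨a, s, hs, rfl⟩ ⟨b, t, ht, rfl⟩
    have h0 : ∀ s ∉ p, algebraMap S K s ≠ 0 := fun s hs h => hs (by
      rw [show s = 0 from Subtype.ext h]; exact p.zero_mem)
    exact ⟨a * t + s * b, s * t, fun h => (hp.mem_or_mem h).elim hs ht, by
      rw [map_add, map_mul, map_mul, map_mul, div_add_div _ _ (h0 s hs) (h0 t ht)]⟩
  zero_mem' := ⟨0, 1, (Ideal.ne_top_iff_one p).1 hp.ne_top, by simp⟩
  neg_mem' := by
    rintro _ ⟨a, s, hs, rfl⟩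
    exact ⟨-a, s, hs, by rw [map_neg, neg_div]⟩

theorem mem_loc {S : Subalgebra ℂ K} (p : Ideal S) [hp : p.IsPrime] {y : K} (hy : y ∈ S) :
    y ∈ loc S p := ⟨⟨y, hy⟩, 1, (Ideal.ne_top_iff_one p).1 hp.ne_top, by simp⟩

theorem inv_mem_loc {S : Subalgebra ℂ K} (p : Ideal S) [p.IsPrime] {s : S} (hs : s ∉ p) :
    (s : K)⁻¹ ∈ loc S p := ⟨1, s, hs, by simp⟩

theorem loc_der {S : Subalgebra ℂ K} (p : Ideal S) [p.IsPrime] (X : Derivation ℂ K K)
    (h : ∀ r ∈ S, X r ∈ loc S p) (y : K) (hy : y ∈ loc S p) : X y ∈ loc S p := by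
  obtain ⟨a, s, hs, rfl⟩ := hy
  rw [Derivation.leibniz_div]
  exact mul_mem (pow_mem (inv_mem_loc p hs) 2)
    (sub_mem (mul_mem (mem_loc p s.2) (h a a.2)) (mul_mem (mem_loc p a.2) (h s s.2)))

variable {ι : Type} [Fintype ι] [DecidableEq ι]

theorem chain (φ : MvPolynomial ι ℂ →ₐ[ℂ] K) (Y : Derivation ℂ K K) (g : MvPolynomial ι ℂ) :
    Y (φ g) = ∑ i, φ (pderiv i g) * Y (φ (X i)) := by
  induction g using MvPolynomial.induction_on with
  | C c => simp [algHom_C]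
  | add p q hp hq => simp [hp, hq, add_mul, Finset.sum_add_distrib]
  | mul_X p j hp =>
    have h : ∀ i, φ (pderiv i (p * X j)) * Y (φ (X i)) =
        φ (X j) * (φ (pderiv i p) * Y (φ (X i))) +
          if i = j then φ p * Y (φ (X i)) else 0 := fun i => by
      rw [Derivation.leibniz, pderiv_X]
      by_cases h : i = j
      · subst h; simp; ring
      · simp [h]; ring
    rw [map_mul, Derivation.leibniz, hp]
    simp only [h, Finset.sum_add_distrib, Finset.sum_ite_eq', Finset.mem_univ, if_true,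
      ← Finset.mul_sum, smul_eq_mul]
    ring

end Field

section Grading

variable {ι : Type} [Fintype ι] (a : ι → ℕ)

theorem wt_cast (α : ι →₀ ℕ) :
    Finsupp.weight (fun i => (a i : ℚ)) α = (Finsupp.weight a α : ℕ) := by
  simp [Finsupp.weight_apply, Finsupp.sum]

theorem hom_nat {e : ℕ} {g : MvPolynomial ι ℂ}
    (h : IsHom (fun i => (a i : ℚ)) (e : ℚ) (g : PS ι)) : IsWeightedHomogeneous a g e :=
  fun α hα => by
    have := h α (by rwa [MvPolynomial.coeff_coe])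
    rw [wt_cast] at this
    exact_mod_cast this

theorem hom_rat {q : ℚ} {g : MvPolynomial ι ℂ} (h : IsHom (fun i => (a i : ℚ)) q (g : PS ι))
    (h0 : g ≠ 0) : ∃ e : ℕ, (e : ℚ) = q ∧ IsWeightedHomogeneous a g e := by
  obtain ⟨α, hα⟩ := MvPolynomial.ne_zero_iff.1 h0
  have h1 := h α (by rwa [MvPolynomial.coeff_coe])
  rw [wt_cast] at h1
  exact ⟨_, h1, hom_nat a (h1 ▸ h)⟩

/-- scaling of the variables -/
noncomputable def scale : MvPolynomial ι ℂ →ₐ[ℂ] MvPolynomial ι ℂ :=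
  aeval fun i => C ((2 : ℂ) ^ a i) * X i

theorem scale_hom {e : ℕ} {g : MvPolynomial ι ℂ} (h : IsWeightedHomogeneous a g e) :
    scale a g = (2 : ℂ) ^ e • g := by
  induction h using IsWeightedHomogeneous.induction_on with
  | zero => simp
  | add p q _ _ hp hq => rw [map_add, hp, hq, smul_add]
  | monomial d r hr =>
    rw [scale, aeval_monomial, ← hr, Finsupp.weight_apply, monomial_eq, Finsupp.prod, Finsupp.prod,
      Finsupp.sum, smul_eq_C_mul]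
    simp only [mul_pow, Finset.prod_mul_distrib, ← map_pow, ← map_prod, ← pow_mul,
      Finset.prod_pow_eq_pow_sum, smul_eq_mul, algebraMap_eq, mul_comm (a _)]
    ring

theorem internal {S : Type} [CommRing S] [Algebra ℂ S] (π : MvPolynomial ι ℂ →ₐ[ℂ] S)
    (hπ : Function.Surjective π) {F : MvPolynomial ι ℂ} {d : ℕ} (hF : IsWeightedHomogeneous a F d)
    (hk : ∀ g, π g = 0 ↔ F ∣ g) :
    DirectSum.IsInternal fun e => (weightedHomogeneousSubmodule ℂ a e).map π.toLinearMap := by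
  have H : RingHom.ker π.toRingHom ≤ RingHom.ker (π.comp (scale a)).toRingHom := fun g hg => by
    obtain ⟨h, rfl⟩ := (hk g).1 hg
    change π (scale a (F * h)) = 0
    rw [map_mul, scale_hom a hF, map_mul, map_smul, (hk F).2 dvd_rfl, smul_zero, zero_mul]
  let T : Module.End ℂ S := (AlgHom.liftOfSurjective π hπ _ H).toLinearMap
  have hT : ∀ g, T (π g) = π (scale a g) := fun g => AlgHom.liftOfSurjective_apply π hπ _ H g
  refine (DirectSum.isInternal_submodule_iff_iSupIndep_and_iSup_eq_top _).2 ⟨?_, ?_⟩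
  · have h2 : Function.Injective fun e : ℕ => (2 : ℂ) ^ e := fun e e' h => by
      have h3 : ((2 ^ e : ℕ) : ℂ) = ((2 ^ e' : ℕ) : ℂ) := by simpa using h
      exact Nat.pow_right_injective le_rfl (Nat.cast_injective h3)
    refine (T.eigenspaces_iSupIndep.comp h2).mono fun e => ?_
    rintro _ ⟨g, hg, rfl⟩
    refine Module.End.mem_eigenspace_iff.2 ?_
    change T (π g) = _ • π g
    rw [hT, scale_hom a hg, map_smul]
  · refine eq_top_iff.2 fun y _ => ?_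
    obtain ⟨g, rfl⟩ := hπ y
    rw [g.as_sum, map_sum]
    exact sum_mem fun α _ => Submodule.mem_iSup_of_mem (Finsupp.weight a α)
      ⟨_, isWeightedHomogeneous_monomial a α _ rfl, rfl⟩

theorem const (ha : ∀ i, 0 < a i) {g : MvPolynomial ι ℂ} (h : IsWeightedHomogeneous a g 0) :
    g = C (coeff 0 g) :=
  h.eq_monomial_of_unique_weight fun α hα => by
    ext i
    by_contra h0
    rw [Finsupp.weight_apply, Finsupp.sum, Finset.sum_eq_zero_iff] at hα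
    have := hα i (Finsupp.mem_support_iff.2 h0)
    rw [smul_eq_mul, mul_eq_zero] at this
    exact this.elim h0 (ha i).ne'

end Grading

theorem hyp_of {ι : Type} [Fintype ι] {f F : PS ι} (ψ : PS ι ≃ₐ[ℂ] PS ι) (u : (PS ι)ˣ)
    (e : ψ f = u * F) (hf : Hyp f) : Hyp F := by
  have h1 : Associated F (ψ f) := ⟨u, by rw [e, mul_comm]⟩
  refine ⟨h1.symm.prime ((MulEquiv.prime_iff ψ.toMulEquiv).2 hf.1), ?_⟩
  have := hf.2
  refine IsIntegrallyClosed.of_equiv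
    (Ideal.quotientEquiv (Ideal.span {f}) (Ideal.span {F}) ψ.toRingEquiv ?_)
  rw [Ideal.map_span, Set.image_singleton]
  exact le_antisymm (Ideal.span_singleton_le_span_singleton.2 h1.symm.dvd)
    (Ideal.span_singleton_le_span_singleton.2 h1.dvd)

theorem conical {ι : Type} [Fintype ι] [DecidableEq ι] {K : Type} [Field K] [Algebra ℂ K]
    (φ : MvPolynomial ι ℂ →ₐ[ℂ] K) {F : MvPolynomial ι ℂ} {Θ : Matrix ι ι (MvPolynomial ι ℂ)}
    {a : ι → ℕ} {w d : ℕ} (ha : ∀ i, 0 < a i) (hw : 0 < w) (hk : ∀ g, φ g = 0 ↔ F ∣ g)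
    (hfr : ∀ y : K, ∃ a b, y = φ a / φ b)
    (hn : IsIntegrallyClosed (MvPolynomial ι ℂ ⧸ Ideal.span {F}))
    (hF : IsWeightedHomogeneous a F d)
    (hΘ : ∀ i j, IsHom (fun i => (a i : ℚ)) ((a i : ℚ) + a j - w) (Θ i j : PS ι))
    {ω : LinearMap.BilinForm K (Derivation ℂ K K)} (h1 : IsClosedForm ω)
    (h2 : ∀ (x y : Derivation ℂ K K) (ξ : ι → K), (∀ k, x (φ (X k)) = ∑ i, ξ i * φ (Θ i k)) →
      ω x y = ∑ i, ξ i * y (φ (X i)))
    (h3 : ∀ x : Derivation ℂ K K, ∃ ξ : ι → K, ∀ k, x (φ (X k)) = ∑ i, ξ i * φ (Θ i k))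
    (h4 : ∀ ξ : ι → K, ∃ x : Derivation ℂ K K, ∀ k, x (φ (X k)) = ∑ i, ξ i * φ (Θ i k))
    (h5 : ∀ (v : DV K) (x y : Derivation ℂ K K), (∀ z ∈ (φ.range : Set K), v.Ge 0 z) →
      (∀ z, v.Ge 0 z → v.Ge 0 (x z)) → (∀ z, v.Ge 0 z → v.Ge 0 (y z)) → v.Ge 0 (ω x y)) :
    IsConicalSymplectic φ.range ω
      fun e => (weightedHomogeneousSubmodule ℂ a e).map φ.rangeRestrict.toLinearMap := by
  have hs : Function.Surjective φ.rangeRestrict := φ.rangeRestrict_surjective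
  have hf : ∀ y : K, ∃ a ∈ (φ.range : Set K), ∃ b ∈ (φ.range : Set K), b ≠ 0 ∧ y = a / b :=
    fun y => by
      obtain ⟨a, b, e⟩ := hfr y
      by_cases hb : φ b = 0
      · exact ⟨0, zero_mem _, 1, one_mem _, one_ne_zero, by rw [e, hb]; simp⟩
      · exact ⟨_, ⟨a, rfl⟩, _, ⟨b, rfl⟩, hb, e⟩
  have hft : Algebra.FiniteType ℂ φ.range := Algebra.FiniteType.of_surjective _ hs
  have hN : IsNoetherianRing φ.range := Algebra.FiniteType.isNoetherianRing ℂ _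
  have hF' : IsFractionRing φ.range K := IsFractionRing.of_field _ K fun y => by
    obtain ⟨a, ha, b, hb, -, e⟩ := hf y
    exact ⟨⟨a, ha⟩, ⟨b, hb⟩, e⟩
  have hk' : ∀ g, φ.rangeRestrict g = 0 ↔ F ∣ g := fun g => Subtype.ext_iff.trans (hk g)
  have hI : IsIntegrallyClosed φ.range := IsIntegrallyClosed.of_equiv
    ((Ideal.quotEquivOfEq (Ideal.ext fun g => Ideal.mem_span_singleton.trans (hk' g).symm)).trans
      (Ideal.quotientKerAlgEquivOfSurjective hs).toRingEquiv)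
  have hI' : ∀ y : K, IsIntegral φ.range.toSubring y → y ∈ φ.range.toSubring := fun y hy => by
    have hy' : IsIntegral φ.range y := hy
    obtain ⟨z, rfl⟩ := (isIntegrallyClosed_iff K).1 hI hy'
    exact z.2
  refine ⟨hft, hF', hI, ⟨h1, fun p hp _ => ⟨fun X Y hX hY => ?_, ?_⟩⟩, fun O hO _ _ X Y hX hY => ?_,
    { one_mem := ⟨1, isWeightedHomogeneous_one ℂ a, map_one φ.rangeRestrict⟩, mul_mem := ?_ },
    internal a _ hs hF hk', ?_, w, hw, fun c σ hσ X Y X' Y' hX hY => ?_⟩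
  · have h6 : ∀ s ∉ p, (s : K) ≠ 0 := fun s hs h => hs (by
      rw [show s = 0 from Subtype.ext h]; exact p.zero_mem)
    have h7 : ∀ X : Derivation ℂ K K, (∀ a ∈ stalk φ.range p, X a ∈ stalk _ p) →
        ∀ a ∈ φ.range, ∃ s ∈ p.primeCompl.map φ.range.val.toMonoidHom,
          s * X a ∈ φ.range := fun X hX a ha => by
      obtain ⟨b, s, hs, e⟩ := hX a (mem_loc p ha)
      refine ⟨s, ⟨s, hs, rfl⟩, ?_⟩
      rw [e]
      exact (mul_div_cancel₀ (b : K) (h6 s hs)).symm ▸ b.2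
    obtain ⟨_, ⟨s, hs, rfl⟩, h⟩ := @regular_of _ _ _ ω _ hf h5 φ.range.toSubring hN hI'
      (fun _ h => h) (p.primeCompl.map φ.range.val.toMonoidHom)
      (by rintro _ ⟨s, -, rfl⟩; exact s.2) _ _ (h7 X hX) (h7 Y hY)
    exact ⟨⟨_, h⟩, s, hs, (mul_div_cancel_left₀ _ (h6 s hs)).symm⟩
  · rintro _ ⟨⟨_, g, rfl⟩, ⟨_, s, rfl⟩, hs, rfl⟩
    let ξ : ι → K := fun i => (φ s)⁻¹ ^ 2 * (φ s * φ (pderiv i g) - φ g * φ (pderiv i s))
    have hm : ∀ g, φ g ∈ loc φ.range p := fun g => mem_loc p ⟨g, rfl⟩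
    have hξ : ∀ i, ξ i ∈ loc φ.range p := fun i => mul_mem (pow_mem (inv_mem_loc p hs) 2)
      (sub_mem (mul_mem (hm _) (hm _)) (mul_mem (hm _) (hm _)))
    obtain ⟨x, hx⟩ := h4 ξ
    refine ⟨x, loc_der p x ?_, fun Y => ?_⟩
    · rintro _ ⟨h, rfl⟩
      change x (φ h) ∈ _
      rw [chain]
      exact sum_mem fun k _ => mul_mem (hm _) (hx k ▸ sum_mem fun i _ => mul_mem (hξ i) (hm _))
    · change _ = Y (φ g / φ s)
      rw [h2 x Y ξ hx, Derivation.leibniz_div, chain φ Y g, chain φ Y s]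
      simp only [smul_eq_mul, Finset.mul_sum, ← Finset.sum_sub_distrib, ξ]
      exact Finset.sum_congr rfl fun i _ => by ring
  · have : IsFractionRing O K := IsFractionRing.of_field _ K fun y => by
      obtain ⟨a, ha, b, hb, -, e⟩ := hf y
      exact ⟨⟨a, hO ha⟩, ⟨b, hO hb⟩, e⟩
    obtain ⟨s, hs, h6⟩ := regular_of ω _ hf h5 O (fun y hy => by
      obtain ⟨a, rfl⟩ := IsIntegrallyClosed.isIntegral_iff.1 hy
      exact a.2) (fun _ h' => hO h') ⊥ (fun s hs => Submonoid.mem_bot.1 hs ▸ one_mem O)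
      (fun a ha => ⟨1, one_mem _, by simpa using hX a ha⟩)
      (fun a ha => ⟨1, one_mem _, by simpa using hY a ha⟩)
    rwa [Submonoid.mem_bot.1 hs, one_mul] at h6
  · rintro e e' _ _ ⟨g, hg, rfl⟩ ⟨g', hg', rfl⟩
    exact ⟨g * g', IsWeightedHomogeneous.mul hg hg', map_mul φ.rangeRestrict g g'⟩
  · rintro _ ⟨g, hg, rfl⟩
    exact ⟨coeff 0 g, by rw [const a ha hg]; simp⟩
  · have hc : algebraMap ℂ K c ≠ 0 := by simp
    set t := algebraMap ℂ K c with ht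
    have h6 : ∀ e g, IsWeightedHomogeneous a g e → σ (φ g) = t ^ e * φ g := fun e g hg => by
      rw [ht, ← map_pow, ← Algebra.smul_def]
      exact hσ e _ ⟨g, hg, rfl⟩
    have h7 : ∀ i, σ (φ (.X i)) = t ^ a i * φ (.X i) := fun i =>
      h6 _ _ (isWeightedHomogeneous_X ℂ a i)
    have h8 : ∀ i j, t ^ w * σ (φ (Θ i j)) = t ^ a i * t ^ a j * φ (Θ i j) := fun i j => by
      by_cases h0 : Θ i j = 0
      · simp [h0]
      obtain ⟨e, he, hg⟩ := hom_rat a (hΘ i j) h0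
      have h9 : w + e = a i + a j := by
        have : ((w + e : ℕ) : ℚ) = ((a i + a j : ℕ) : ℚ) := by push_cast; rw [he]; ring
        exact_mod_cast this
      rw [h6 e _ hg, ← mul_assoc, ← pow_add, h9, pow_add]
    have h9 : ∀ (Z Z' : Derivation ℂ K K), (∀ y, Z' (σ y) = σ (Z y)) → ∀ i,
        σ (Z (φ (.X i))) = t ^ a i * Z' (φ (.X i)) := fun Z Z' hZ i => by
      rw [← hZ, h7, ht, ← map_pow, ← Algebra.smul_def, Derivation.map_smul, Algebra.smul_def]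
    obtain ⟨ξ, hξ⟩ := h3 X
    have h10 : ∀ k, X' (φ (.X k)) = ∑ i, (σ (ξ i) * t ^ a i / t ^ w) * φ (Θ i k) := fun k => by
      refine mul_left_cancel₀ (pow_ne_zero (a k) hc) ?_
      rw [← h9 X X' hX, hξ, map_sum, Finset.mul_sum]
      refine Finset.sum_congr rfl fun i _ => mul_left_cancel₀ (pow_ne_zero w hc) ?_
      rw [map_mul, mul_left_comm, h8]
      field_simp
    rw [h2 X Y ξ hξ, h2 X' Y' _ h10, map_sum, Algebra.smul_def, map_pow, ← ht, Finset.mul_sum]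
    refine Finset.sum_congr rfl fun i _ => ?_
    rw [map_mul, h9 Y Y' hY]
    field_simp

end D4

theorem d4 (d1 : S_D1) (d2 : S_D2) (d3 : S_D3) : S_D4 := by
  intro ι _ _ f hf ⟨ψ, u, F', Θ', a, w, d, e, ha, hw, hP, hG, hE⟩
  obtain ⟨h1, h2⟩ := d1 ι a ha
  obtain ⟨F, rfl⟩ := h1 _ _ hG.1
  choose Θ hΘ using fun i j => h1 _ _ (hG.2 i j)
  obtain rfl : Θ' = (Matrix.of Θ).map fun g => (g : PS ι) := Matrix.ext fun i j => (hΘ i j).symm
  have hH := D4.hyp_of ψ u e hf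
  obtain ⟨h3, h4, h5⟩ := h2 d F hG.1 hH
  have : (Ideal.span {F}).IsPrime := (Ideal.span_singleton_prime h4.ne_zero).2 h4
  let R := MvPolynomial ι ℂ ⧸ Ideal.span {F}
  let φ : MvPolynomial ι ℂ →ₐ[ℂ] FractionRing R :=
    (IsScalarTower.toAlgHom ℂ R (FractionRing R)).comp (Ideal.Quotient.mkₐ ℂ _)
  have hk : ∀ g, φ g = 0 ↔ F ∣ g := fun g =>
    (map_eq_zero_iff _ (IsFractionRing.injective R (FractionRing R))).trans
      (Ideal.Quotient.eq_zero_iff_mem.trans Ideal.mem_span_singleton)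
  have hk' : ∀ g, φ g = 0 ↔ (F : PS ι) ∣ (g : PS ι) := fun g => (hk g).trans
    ⟨by rintro ⟨h, rfl⟩; exact ⟨h, MvPolynomial.coe_mul _ _⟩, h3 g⟩
  have hfr : ∀ y, ∃ a b, y = φ a / φ b := fun y => by
    obtain ⟨a, b, -, rfl⟩ := IsFractionRing.div_surjective (A := R) y
    obtain ⟨a, rfl⟩ := Ideal.Quotient.mk_surjective a
    obtain ⟨b, rfl⟩ := Ideal.Quotient.mk_surjective b
    exact ⟨a, b, rfl⟩
  obtain ⟨ω, h6, h7, h8, h9⟩ := d2 ι F (Matrix.of Θ) _ φ hk' hfr hH.1 hP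
  refine ⟨F, a, ψ, u, e, ha, _, _, _, φ, ω, _,
    Ideal.ext fun g => (hk g).trans Ideal.mem_span_singleton.symm,
    D4.conical φ ha hw hk hfr h5 (D4.hom_nat a hG.1) hG.2 h6 h7 h8 h9 fun v x y hv hx hy => ?_,
    fun i => ⟨_, isWeightedHomogeneous_X ℂ a i, rfl⟩⟩
  obtain ⟨ξ, hξ⟩ := h8 x
  rw [h7 x y ξ hξ]
  exact d3 ι F (Matrix.of Θ) a w d _ φ hk' ha hH.1 hP hG hE v x y ξ (fun g => hv _ ⟨g, rfl⟩)
    hx hy hξ

end Pool.Agent.MP_51db15_ag.Hy
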