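import Pool.Agent.MP_51db15_ag.Hy.Rows
import Pool.Agent.MP_51db15_ag.Hy.Base

/-! Splitting off a symplectic plane when the bivector does not vanish at the origin. -/

namespace Pool.Agent.MP_51db15_ag.Hy

open MvPowerSeries Matrix

namespace DARB

variable {κ κ' : Type}

/-- restriction to the slice -/
noncomputable abbrev kc : PS (Option κ) →ₐ[ℂ] PS κ := killCompl Function.Embedding.some

theorem kc_rs [Fintype κ] (g : PS κ) : kc (rename some g : PS (Option κ)) = g :=
  killCompl_rename_app (e := Function.Embedding.some) g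

theorem kc_none : kc (X none : PS (Option κ)) = 0 :=
  killCompl_X_eq_zero (by simp)

theorem kc_some (k : κ) : kc (X (some k) : PS (Option κ)) = X k :=
  killCompl_X (e := Function.Embedding.some) k

variable [Fintype κ] [Fintype κ']

theorem d_none_rs (p3 : S_P3) (g : PS κ) :
    pderiv ℂ none (rename some g : PS (Option κ)) = 0 := by
  rw [(p3.1 ℂ κ (Option κ) (rename some)).2.2.1]
  refine Finset.sum_eq_zero fun i _ => ?_
  rw [rename_X, pderiv_X_of_ne (by simp), mul_zero]

theorem d_some_rs (p3 : S_P3) (g : PS κ) (k : κ) :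
    pderiv ℂ (some k) (rename some g : PS (Option κ)) = rename some (pderiv ℂ k g) := by
  rw [(p3.1 ℂ κ (Option κ) (rename some)).2.2.1, Finset.sum_eq_single k]
  · rw [rename_X, pderiv_X_self, mul_one]
  · intro i _ h
    rw [rename_X, pderiv_X_of_ne (by simpa using h), mul_zero]
  · simp

theorem d_kc (p3 : S_P3) (g : PS (Option κ)) (k : κ) :
    pderiv ℂ k (kc g) = kc (pderiv ℂ (some k) g) := by
  rw [(p3.1 ℂ (Option κ) κ kc).2.2.1, Fintype.sum_option, kc_none, map_zero, mul_zero, zero_add,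
    Finset.sum_eq_single k]
  · rw [kc_some, pderiv_X_self, mul_one]
  · intro i _ h
    rw [kc_some, pderiv_X_of_ne h, mul_zero]
  · simp

theorem kc_vf (p3 : S_P3) (v : Option κ → PS (Option κ)) (g : PS (Option κ)) :
    kc (vf v g) = kc (v none) * kc (pderiv ℂ none g) + vf (fun k => kc (v (some k))) (kc g) := by
  rw [vf_apply, vf_apply, Fintype.sum_option, map_add, map_mul, map_sum]
  simp only [map_mul, d_kc p3]

theorem kc_vf_rs (p3 : S_P3) (v : Option κ → PS (Option κ)) (g : PS κ) :
    kc (vf v (rename some g)) = vf (fun k => kc (v (some k))) g := by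
  rw [kc_vf p3, d_none_rs p3, map_zero, mul_zero, zero_add, kc_rs]

theorem kc_dvd {f : PS κ} {g : PS (Option κ)} (h : (rename some f : PS (Option κ)) ∣ g) :
    f ∣ kc g := by
  have := map_dvd (kc (κ := κ)) h
  rwa [kc_rs] at this

theorem log_kc [DecidableEq κ] (p3 : S_P3) {f : PS κ} {v : Option κ → PS (Option κ)}
    (h : Log (rename some f) v) : Log f fun k => kc (v (some k)) := by
  have := kc_dvd h
  rwa [kc_vf_rs p3] at this

theorem oel_rs (p3 : S_P3) (g : PS κ) :
    optionEquivLeft κ ℂ (rename some g) = PowerSeries.C g := by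
  have h := (p3.1 ℂ κ (Option κ) (rename some)).2.2.2
    (((optionEquivLeft κ ℂ).symm : PowerSeries (PS κ) →ₐ[ℂ] PS (Option κ)).comp
      (IsScalarTower.toAlgHom ℂ (PS κ) (PowerSeries (PS κ)))) (fun i => by
        rw [rename_X]
        apply (optionEquivLeft κ ℂ).injective
        simp)
  rw [h]
  simp

/-- a change of coordinates extended by one more variable -/
theorem exists_ext (p3 : S_P3) (ψ : PS κ ≃ₐ[ℂ] PS κ') :
    ∃ χ : PS (Option κ) ≃ₐ[ℂ] PS (Option κ'), χ (X none) = X none ∧
      (∀ g, χ (rename some g) = rename some (ψ g)) ∧ ∀ g, kc (χ g) = ψ (kc g) := by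
  let m : PowerSeries (PS κ) ≃ₐ[ℂ] PowerSeries (PS κ') :=
    AlgEquiv.ofAlgHom (PowerSeries.mapAlgHom (ψ : PS κ →ₐ[ℂ] PS κ'))
      (PowerSeries.mapAlgHom (ψ.symm : PS κ' →ₐ[ℂ] PS κ))
      (by
        refine AlgHom.ext fun g => PowerSeries.ext fun n => ?_
        simp [PowerSeries.mapAlgHom_apply])
      (by
        refine AlgHom.ext fun g => PowerSeries.ext fun n => ?_
        simp [PowerSeries.mapAlgHom_apply])
  have hX : m PowerSeries.X = PowerSeries.X := by
    simp [m, PowerSeries.mapAlgHom_apply]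
  have hC : ∀ g, m (PowerSeries.C g) = PowerSeries.C (ψ g) := fun g => by
    simp [m, PowerSeries.mapAlgHom_apply]
  let χ : PS (Option κ) ≃ₐ[ℂ] PS (Option κ') :=
    (optionEquivLeft κ ℂ).trans (m.trans (optionEquivLeft κ' ℂ).symm)
  have h1 : χ (X none) = X none := by
    apply (optionEquivLeft κ' ℂ).injective
    simp [χ, hX]
  have h2 : ∀ g, χ (rename some g) = rename some (ψ g) := fun g => by
    apply (optionEquivLeft κ' ℂ).injective
    simp [χ, oel_rs p3, hC]
  refine ⟨χ, h1, h2, fun g => ?_⟩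
  have h := (p3.1 ℂ (Option κ) κ' (kc.comp (χ : PS (Option κ) →ₐ[ℂ] PS (Option κ')))).2.2.2
    ((ψ : PS κ →ₐ[ℂ] PS κ').comp kc) (fun i => by
      cases i with
      | none => simp [h1, kc_none]
      | some k =>
        have := h2 (X k)
        rw [rename_X] at this
        simp [this, kc_rs, kc_some])
  exact DFunLike.congr_fun h g

omit [Fintype κ'] in
theorem br_X [DecidableEq κ] (Θ : Matrix κ κ (PS κ)) (i : κ) (h : PS κ) :
    br Θ (X i) h = vf (Θ i) h := by
  rw [br, Finset.sum_eq_single i]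
  · rw [pderiv_X_self, one_mul]
  · intro j _ hj
    rw [pderiv_X_of_ne hj.symm, zero_mul]
  · simp

/-- the index set with two more points -/
def oo : Fin 2 ⊕ κ ≃ Option (Option κ) where
  toFun := Sum.elim ![none, some none] fun k => some (some k)
  invFun o := match o with
    | none => Sum.inl 0
    | some none => Sum.inl 1
    | some (some k) => Sum.inr k
  left_inv := by
    rintro (i | k)
    · fin_cases i <;> rfl
    · rfl
  right_inv := by
    rintro (_ | _ | k) <;> rfl

theorem det_oo {A : Type} [CommRing A] [DecidableEq κ]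
    (N : Matrix (Option (Option κ)) (Option (Option κ)) A)
    (h1 : ∀ k, N none (some (some k)) = 0) (h2 : ∀ k, N (some none) (some (some k)) = 0) :
    N.det = (N none none * N (some none) (some none) - N none (some none) * N (some none) none) *
      (Matrix.of fun k l : κ => N (some (some k)) (some (some l))).det := by
  rw [← det_submatrix_equiv_self oo N]
  have : N.submatrix oo oo = fromBlocks
      !![N none none, N none (some none); N (some none) none, N (some none) (some none)] 0
      (Matrix.of fun k i => N (some (some k)) (oo (Sum.inl i)))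
      (Matrix.of fun k l : κ => N (some (some k)) (some (some l))) := by
    ext (i | k) (j | l)
    · fin_cases i <;> fin_cases j <;> rfl
    · fin_cases i
      · exact h1 l
      · exact h2 l
    · rfl
    · rfl
  rw [this, det_fromBlocks_zero₁₂, det_fin_two]
  rfl

theorem adj_oo {A : Type} [CommRing A] [DecidableEq κ]
    (N : Matrix (Option (Option κ)) (Option (Option κ)) A)
    (h1 : ∀ k, N none (some (some k)) = 0) (h2 : ∀ k, N (some none) (some (some k)) = 0)
    (k l : κ) : N.adjugate (some (some k)) (some (some l)) =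
      (N none none * N (some none) (some none) - N none (some none) * N (some none) none) *
      (Matrix.of fun k l : κ => N (some (some k)) (some (some l))).adjugate k l := by
  rw [adjugate_apply, adjugate_apply, det_oo]
  · simp only [updateRow_ne (show (none : Option (Option κ)) ≠ some (some l) by simp),
      updateRow_ne (show (some none : Option (Option κ)) ≠ some (some l) by simp)]
    congr 2
    ext a b
    by_cases h : a = l
    · subst h
      simp [Pi.single_apply]
    · simp [updateRow_ne h, updateRow_ne (show (some (some a) : Option (Option κ)) ≠ some (some l)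
        by simpa using h)]
  · intro a
    rw [updateRow_ne (by simp), h1]
  · intro a
    rw [updateRow_ne (by simp), h2]

theorem nd_aux {A B : Type} [CommRing A] [CommRing B] [DecidableEq κ] (σ : A →+* B) (f : B)
    (Θ : Matrix (Option (Option κ)) (Option (Option κ)) A)
    (hp : ∀ k, f ∣ σ (Θ none (some (some k)))) (hq : ∀ k, Θ (some none) (some (some k)) = 0)
    (h0 : Θ none none = 0) (hs : Θ none (some none) = -Θ (some none) none) (U : Bˣ)
    (hU : (U : B) = σ (Θ (some none) none)) (k l : κ) (c : B)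
    (h : f ∣ σ (Θ.adjugate (some (some k)) (some (some l))) - c) :
    f ∣ (Matrix.of fun k l => σ (Θ (some (some k)) (some (some l)))).adjugate k l -
      ((U⁻¹ : Bˣ) : B) ^ 2 * c := by
  let π : B →+* B ⧸ Ideal.span {f} := Ideal.Quotient.mk _
  have hπ : ∀ g, π g = 0 ↔ f ∣ g := fun g => by
    rw [Ideal.Quotient.eq_zero_iff_mem, Ideal.mem_span_singleton]
  have a1 := adj_oo ((π.comp σ).mapMatrix Θ) (fun k => (hπ _).2 (hp k))
    (fun k => by simp [hq]) k l
  rw [← RingHom.map_adjugate] at a1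
  have a2 : (Matrix.of fun k l : κ => (π.comp σ).mapMatrix Θ (some (some k)) (some (some l))) =
      π.mapMatrix (Matrix.of fun k l => σ (Θ (some (some k)) (some (some l)))) := rfl
  rw [a2, ← RingHom.map_adjugate] at a1
  simp only [RingHom.mapMatrix_apply, map_apply, RingHom.comp_apply] at a1
  rw [h0, hs, map_zero, map_zero, zero_mul, map_neg, map_neg, ← hU] at a1
  rw [← hπ] at h ⊢
  rw [map_sub, a1] at h
  have a3 : π (U : B) * π (U⁻¹ : Bˣ) = 1 := by
    rw [← map_mul, Units.mul_inv, map_one]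
  rw [map_sub, map_mul, map_pow]
  linear_combination (π (U⁻¹ : Bˣ)) ^ 2 * h - (π (U : B) * π (U⁻¹ : Bˣ) + 1) *
    π ((Matrix.of fun k l => σ (Θ (some (some k)) (some (some l)))).adjugate k l) * a3

omit [Fintype κ] [Fintype κ'] in
theorem diag_zero {Θ : Matrix κ κ (PS κ')} (h : Θᵀ = -Θ) (i : κ) : Θ i i = 0 := by
  have h1 : Θ i i = -Θ i i := congrFun (congrFun h i) i
  have h2 : (2 : ℂ) • Θ i i = 0 := by
    rw [two_smul]
    exact add_eq_zero_iff_eq_neg.2 h1
  exact (smul_eq_zero.1 h2).resolve_left two_ne_zero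

/-- the structure on the slice of codimension two -/
theorem slice2 [DecidableEq κ] (p3 : S_P3) (slice : S_SLICE) (hypsl : S_HYPSL) (f : PS κ)
    (Θ : Matrix (Option (Option κ)) (Option (Option κ)) (PS (Option (Option κ))))
    (hH : Hyp (rename some (rename some f) : PS (Option (Option κ))))
    (hP : Poi (rename some (rename some f)) Θ) (hE : Ext (rename some (rename some f)) Θ)
    (hq : ∀ k, Θ (some none) (some (some k)) = 0) (hU : IsUnit (Θ (some none) none))
    (hp : ∀ k, (rename some f : PS (Option κ)) ∣ kc (Θ none (some (some k)))) :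
    Hyp f ∧ Poi f (Matrix.of fun k l => kc (kc (Θ (some (some k)) (some (some l))))) ∧
      Ext f (Matrix.of fun k l => kc (kc (Θ (some (some k)) (some (some l))))) := by
  have hH1 := hypsl _ _ hH
  have hH2 := hypsl _ _ hH1
  have hsk : ∀ a b, Θ a b = -Θ b a := fun a b => congrFun (congrFun hP.skew b) a
  have hq' : ∀ k, Θ (some (some k)) (some none) = 0 := fun k => by rw [hsk, hq, neg_zero]
  have hp' : ∀ k, (rename some f : PS (Option κ)) ∣ kc (Θ (some (some k)) none) := fun k => by
    rw [hsk, map_neg]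
    exact (hp k).neg_right
  have hvf : ∀ k G, f ∣ kc (kc (vf (Θ (some (some k))) G)) -
      vf (fun l => kc (kc (Θ (some (some k)) (some (some l))))) (kc (kc G)) := by
    intro k G
    rw [kc_vf p3, map_add, kc_vf p3, hq', map_zero, map_zero, zero_mul, zero_add, add_sub_cancel_right,
      map_mul]
    exact (kc_dvd (hp' k)).mul_right _
  have hL : ∀ k, Log (rename some f : PS (Option κ)) fun c => kc (Θ (some (some k)) (some c)) :=
    fun k => log_kc p3 (v := Θ (some (some k))) (hP.tang (some (some k)))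
  have hL' : ∀ k, Log f fun l => kc (kc (Θ (some (some k)) (some (some l)))) :=
    fun k => log_kc p3 (v := fun c => kc (Θ (some (some k)) (some c))) (hL k)
  have e : ∀ a : κ, (Matrix.of fun k l => kc (kc (Θ (some (some k)) (some (some l))))) a =
      fun l => kc (kc (Θ (some (some a)) (some (some l)))) := fun _ => rfl
  refine ⟨hH2, ?_, ?_⟩
  swap
  · have e0 : ExtFam (rename some (rename some f) : PS (Option (Option κ)))
        (fun k : κ => Θ (some (some k))) fun k l => Θ (some (some k)) (some (some l)) := by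
      intro K _ _ φ hφ V hV
      obtain ⟨S, iS, c, a, b, a', b', h1, h2⟩ := hE K φ hφ V hV
      exact ⟨S, iS, c, a, b, a', b', h1, fun k l => h2 _ _⟩
    have e1 := slice (Option κ) κ (rename some f) _ _ hH1.1 (fun k => hP.tang (some (some k))) hp' e0
    exact slice κ κ f _ _ hH2.1 hL
      (fun k => by
        show f ∣ kc (kc (Θ (some (some k)) (some none)))
        rw [hq', map_zero, map_zero]
        exact dvd_zero _) e1
  constructor
  · ext1 k l
    simp only [transpose_apply, of_apply, Matrix.neg_apply]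
    rw [hsk, map_neg, map_neg]
  · intro k
    rw [e]
    exact hL' k
  · intro i j k
    have h0 := kc_dvd (kc_dvd (hP.jac (some (some i)) (some (some j)) (some (some k))))
    simp only [map_add] at h0
    have h1 := ((h0.sub (hvf i (Θ (some (some j)) (some (some k))))).sub
      (hvf j (Θ (some (some k)) (some (some i))))).sub (hvf k (Θ (some (some i)) (some (some j))))
    convert h1 using 1
    simp only [of_apply]
    rw [e, e, e]
    ring
  · obtain ⟨γ, hγ, h⟩ := hP.nd
    obtain ⟨U, hU'⟩ := (hU.map (kc (κ := Option κ))).map (kc (κ := κ))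
    have hγ' : IsUnit (kc (kc γ)) := (hγ.map (kc (κ := Option κ))).map (kc (κ := κ))
    have hu := ((Units.isUnit U⁻¹).pow 2).mul hγ'
    use ((U⁻¹ : (PS κ)ˣ) : PS κ) ^ 2 * kc (kc γ), hu
    intro k l
    have h0 := kc_dvd (kc_dvd (h (some (some k)) (some (some l))))
    rw [d_some_rs p3, d_some_rs p3, d_some_rs p3, d_some_rs p3] at h0
    simp only [map_sub, map_mul, kc_rs] at h0
    rw [mul_assoc]
    exact nd_aux ((kc (κ := κ)).toRingHom.comp (kc (κ := Option κ)).toRingHom) f Θ
      (fun k => kc_dvd (hp k)) hq (diag_zero hP.skew none) (hsk _ _) U hU' k l _ h0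

end DARB

open DARB in
theorem darb (p3 : S_P3) (str : S_STR) (rel : S_REL) (relx : S_RELX) (slice : S_SLICE)
    (hypsl : S_HYPSL) : S_DARB := by
  intro ι _ _ f Θ hH hP hE hV
  obtain ⟨i, j, hij⟩ : ∃ i j, constantCoeff (Θ i j) ≠ 0 := by
    by_contra hc
    push Not at hc
    exact hV hc
  obtain ⟨U, hU⟩ := isUnit_iff'.2 hij
  have hsk : ∀ a b, Θ a b = -Θ b a := fun a b => congrFun (congrFun hP.skew b) a
  have hv : ∀ g, vf (Θ i) g = U * vf (((U⁻¹ : (PS ι)ˣ) : PS ι) • Θ i) g := fun g => by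
    rw [vf_smul, ← mul_assoc, Units.mul_inv, one_mul]
  obtain ⟨κ₁, i1, i1', ψ₁, c1, t1, d1, z1, l1⟩ := str ι (((U⁻¹ : (PS ι)ˣ) : PS ι) • Θ i) (X j)
    (by simp) (by rw [vf_smul, vf_X, ← hU, Units.inv_mul])
  obtain ⟨q₁, hq₁⟩ := z1 (X i) (by rw [vf_smul, vf_X, diag_zero hP.skew, mul_zero])
  obtain ⟨u₁, f₁, hf₁⟩ := l1 f (by rw [vf_smul]; exact (hP.tang i).mul_left _)
  have R1 : Rel f Θ (rename some f₁) (tr ψ₁ Θ) ψ₁ :=
    ⟨⟨u₁, hf₁⟩, ((rel ι (Option κ₁) f Θ ψ₁).1 hP.skew).2.1, fun a b => by simp [tr]⟩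
  obtain ⟨pr1, -, P1, -, -, b1⟩ := (rel ι (Option κ₁) f Θ ψ₁).2 _ _
    (by rw [Fintype.card_option, c1]) R1 hH.1 hP
  have hY : ∀ g : PS κ₁, f₁ ∣ vf (fun k => kc (tr ψ₁ Θ none (some k))) g -
      kc (ψ₁ (vf (Θ j) (ψ₁.symm (rename some g)))) := by
    intro g
    have h0 := kc_dvd (b1 (X j) (ψ₁.symm (rename some g)))
    rwa [t1, AlgEquiv.apply_symm_apply, br_X, br_X, map_sub, kc_vf_rs p3] at h0
  have cc := fun (σ σ' : Type) [Fintype σ] [Fintype σ'] (ψ : PS σ →ₐ[ℂ] PS σ') =>
    (p3.1 ℂ σ σ' ψ).1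
  have cψ : ∀ g, constantCoeff (ψ₁ g) = constantCoeff g := cc ι (Option κ₁) (ψ₁ : PS ι →ₐ[ℂ] _)
  have hf0 : constantCoeff f₁ = 0 := by
    rw [← cc κ₁ (Option κ₁) (rename some)]
    exact Prime.constantCoeff pr1
  have hW : constantCoeff (vf (fun k => kc (tr ψ₁ Θ none (some k))) q₁) ≠ 0 := by
    obtain ⟨r, hr⟩ := hY q₁
    rw [← hq₁, AlgEquiv.symm_apply_apply, vf_X] at hr
    have h1 := congrArg constantCoeff hr
    rw [map_sub, map_mul, hf0, zero_mul, sub_eq_zero, cc, cψ, hsk j i, map_neg] at h1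
    rw [h1]
    exact neg_ne_zero.2 hij
  obtain ⟨W, hW'⟩ := isUnit_iff'.2 hW
  have hw : ∀ g, vf (fun k => kc (tr ψ₁ Θ none (some k))) g =
      W * vf (((W⁻¹ : (PS κ₁)ˣ) : PS κ₁) • fun k => kc (tr ψ₁ Θ none (some k))) g := fun g => by
    rw [vf_smul, ← mul_assoc, Units.mul_inv, one_mul]
  obtain ⟨κ, i2, i2', ψ₂, c2, t2, d2, -, l2⟩ := str κ₁
    (((W⁻¹ : (PS κ₁)ˣ) : PS κ₁) • fun k => kc (tr ψ₁ Θ none (some k))) q₁
    (by
      rw [← cc κ₁ (Option κ₁) (rename some), ← hq₁, cψ]
      simp)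
    (by rw [vf_smul, ← hW', Units.inv_mul])
  obtain ⟨u₂, f₂, hf₂⟩ := l2 f₁ (by rw [vf_smul]; exact (log_kc p3 (P1.tang none)).mul_left _)
  obtain ⟨χ, x1, x2, x3⟩ := exists_ext p3 ψ₂
  have x2' : ∀ g, χ.symm (rename some g) = rename some (ψ₂.symm g) := fun g => by
    rw [AlgEquiv.symm_apply_eq, x2, AlgEquiv.apply_symm_apply]
  have x1' : χ.symm (X none) = X none := by rw [AlgEquiv.symm_apply_eq, x1]
  obtain ⟨u, hu⟩ : ∃ u : (PS (Option (Option κ)))ˣ,
      (ψ₁.trans χ) f = u * rename some (rename some f₂) := by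
    refine ⟨((u₁.isUnit.map χ).mul (u₂.isUnit.map (rename some : PS (Option κ) →ₐ[ℂ] _))).unit, ?_⟩
    rw [AlgEquiv.trans_apply, hf₁, map_mul, x2, hf₂, map_mul, IsUnit.unit_spec, mul_assoc]
  have R2 : Rel f Θ (rename some (rename some f₂)) (tr (ψ₁.trans χ) Θ) (ψ₁.trans χ) :=
    ⟨⟨u, hu⟩, ((rel ι _ f Θ (ψ₁.trans χ)).1 hP.skew).2.1, fun a b => by simp [tr]⟩
  have hc : Fintype.card ι = Fintype.card (Option (Option κ)) := by
    rw [Fintype.card_option, Fintype.card_option, c2, c1]
  obtain ⟨-, H2, P2, -, -, -⟩ := (rel ι _ f Θ (ψ₁.trans χ)).2 _ _ hc R2 hH.1 hP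
  have E2 := (relx ι _ f Θ (ψ₁.trans χ) _ _ hc R2 hH.1 hP).1 hE
  have s1 : (ψ₁.trans χ).symm (X none) = X j := by
    rw [AlgEquiv.symm_apply_eq, AlgEquiv.trans_apply, t1, x1]
  have s2 : (ψ₁.trans χ).symm (X (some none)) = X i := by
    rw [AlgEquiv.symm_apply_eq, AlgEquiv.trans_apply, hq₁, x2, t2, rename_X]
  have s3 : ∀ c : Option κ, (ψ₁.trans χ).symm (X (some c)) =
      ψ₁.symm (rename some (ψ₂.symm (X c))) := fun c => by
    rw [AlgEquiv.symm_apply_eq, AlgEquiv.trans_apply, AlgEquiv.apply_symm_apply, x2,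
      AlgEquiv.apply_symm_apply, rename_X]
  obtain ⟨g1, g2, g3⟩ := slice2 p3 slice hypsl f₂ (tr (ψ₁.trans χ) Θ) (H2 hH) P2 E2
    (fun k => by
      rw [tr, of_apply, s2, s3, br_X, hv, AlgEquiv.trans_apply, map_mul, d1,
        AlgEquiv.apply_symm_apply, d_none_rs p3, mul_zero, map_zero])
    (by
      rw [tr, of_apply, s2, s1, br_X, vf_X, ← hU]
      exact U.isUnit.map _)
    (fun k => by
      rw [tr, of_apply, s1, s3, br_X, AlgEquiv.trans_apply, x3]
      have h0 := map_dvd ψ₂ (hY (ψ₂.symm (X (some k))))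
      rw [map_sub, hw, map_mul, d2, AlgEquiv.apply_symm_apply, pderiv_X_of_ne (by simp), mul_zero,
        zero_sub, hf₂, dvd_neg] at h0
      exact (dvd_mul_left _ _).trans h0)
  exact ⟨κ, i2, i2', ψ₁.trans χ, u, f₂, _, by omega, hu, g1, g2, g3⟩

end Pool.Agent.MP_51db15_ag.Hy
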