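import Pool.Agent.MP_51db15_ag.Hy.Rows
import Pool.Agent.MP_51db15_ag.Hy.Base

/-! Euler fields: invariance, and the singularities of corank at most one. -/

namespace Pool.Agent.MP_51db15_ag.Hy

open MvPowerSeries Matrix

namespace EUA

variable {F σ : Type} [Field F] [Fintype σ]

theorem cc_vf {ξ : σ → MvPowerSeries σ F} (h : ∀ i, constantCoeff (ξ i) = 0)
    (g : MvPowerSeries σ F) : constantCoeff (vf ξ g) = 0 := by
  simp [vf_apply, h]

theorem unit (u : (MvPowerSeries σ F)ˣ) {G : MvPowerSeries σ F} (h : Eu G) : Eu (u.val * G) := by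
  obtain ⟨ξ, l, h1, h2, h3, h4⟩ := h
  have e : constantCoeff (l + vf ξ u.val * u⁻¹.val) = constantCoeff l := by
    rw [map_add, map_mul, cc_vf h1, zero_mul, add_zero]
  refine ⟨ξ, l + vf ξ u.val * u⁻¹.val, h1, ?_, ?_, ?_⟩
  · rwa [isUnit_iff', e, ← isUnit_iff']
  · rw [vf_mul, h3]
    linear_combination (-vf ξ u.val * G) * u.inv_mul
  · rwa [map_sub, e, ← map_sub]

theorem aut (p3 : S_P3) (ψ : MvPowerSeries σ F ≃ₐ[F] MvPowerSeries σ F) {G : MvPowerSeries σ F}
    (h : Eu (ψ G)) : Eu G := by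
  classical
  obtain ⟨ξ, l, h1, h2, h3, h4⟩ := h
  obtain ⟨a1, -, a2, -⟩ := p3.1 F σ σ (ψ : MvPowerSeries σ F →ₐ[F] MvPowerSeries σ F)
  obtain ⟨b1, -, b2, -⟩ := p3.1 F σ σ (ψ.symm : MvPowerSeries σ F →ₐ[F] MvPowerSeries σ F)
  simp only [AlgEquiv.coe_toAlgHom] at a1 a2 b1 b2
  refine ⟨fun i => ψ.symm (vf ξ (ψ (X i))), ψ.symm l, fun i => (b1 _).trans (cc_vf h1 _),
    h2.map _, ψ.injective ?_, ?_⟩
  · rw [map_mul, ψ.apply_symm_apply, ← h3]
    simp only [vf_apply, map_sum, map_mul, AlgEquiv.apply_symm_apply, a2 G, Finset.mul_sum,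
      Finset.sum_mul]
    rw [Finset.sum_comm]
    exact Finset.sum_congr rfl fun i _ => Finset.sum_congr rfl fun j _ => by ring
  · have d : ∀ k j, ∑ i, constantCoeff (pderiv F j (ψ (X i))) *
        constantCoeff (pderiv F i (ψ.symm (X k))) = if j = k then 1 else 0 := fun k j => by
      have := congrArg constantCoeff (a2 (ψ.symm (X k)) j)
      simp only [AlgEquiv.apply_symm_apply, map_sum, map_mul, a1] at this
      rw [Finset.sum_congr rfl fun i _ => mul_comm _ _, ← this]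
      split_ifs with e
      · rw [e, pderiv_X_self, map_one]
      · rw [pderiv_X_of_ne (Ne.symm e), map_zero]
    rw [map_sub] at h4 ⊢
    rw [b1]
    convert h4 using 2
    simp only [map_sum, b2 (vf ξ _), map_mul, b1, pderiv_vf, map_add, cc_vf h1, zero_add,
      Finset.sum_mul]
    rw [Finset.sum_comm]
    refine Finset.sum_congr rfl fun k _ => ?_
    rw [Finset.sum_comm]
    simp only [mul_assoc, ← Finset.mul_sum, d, mul_ite, mul_one, mul_zero, Finset.sum_ite_eq',
      Finset.mem_univ, if_true]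

theorem one [CharZero F] (h : PowerSeries F) (h0 : PowerSeries.constantCoeff h = 0) :
    ∃ b : PowerSeries F, PowerSeries.constantCoeff b ≠ 0 ∧
      PowerSeries.X * b * PowerSeries.derivative F h = h := by
  by_cases hz : h = 0
  · exact ⟨1, by simp, by simp [hz]⟩
  obtain ⟨m, hm⟩ : ∃ m, h.order.toNat = m + 1 := Nat.exists_eq_succ_of_ne_zero fun e => by
    have := PowerSeries.coeff_order hz
    rw [e, PowerSeries.coeff_zero_eq_constantCoeff] at this
    exact this h0
  have e := PowerSeries.X_pow_order_mul_divXPowOrder (f := h)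
  have e0 : PowerSeries.constantCoeff h.divXPowOrder ≠ 0 :=
    PowerSeries.constantCoeff_divXPowOrder_eq_zero_iff.not.2 hz
  rw [hm] at e
  generalize h.divXPowOrder = g at e e0
  have w0 : PowerSeries.constantCoeff
      (((m + 1 : ℕ) : PowerSeries F) * g + PowerSeries.X * PowerSeries.derivative F g) ≠ 0 := by
    rw [map_add, map_mul, map_mul, PowerSeries.constantCoeff_X, zero_mul, add_zero, map_natCast]
    exact mul_ne_zero (Nat.cast_ne_zero.2 m.succ_ne_zero) e0
  have w1 := PowerSeries.inv_mul_cancel _ w0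
  refine ⟨g * (((m + 1 : ℕ) : PowerSeries F) * g + PowerSeries.X * PowerSeries.derivative F g)⁻¹, ?_, ?_⟩
  · rw [map_mul, PowerSeries.constantCoeff_inv]
    exact mul_ne_zero e0 (inv_ne_zero w0)
  · rw [← e, Derivation.leibniz, PowerSeries.derivative_pow, PowerSeries.derivative_X]
    simp only [smul_eq_mul, Nat.add_sub_cancel]
    linear_combination (PowerSeries.X ^ (m + 1) * g) * w1

end EUA

open EUA

theorem euinv (p3 : S_P3) : S_EUINV := fun _ _ _ _ _ _ ψ u _ e h => aut p3 ψ (e ▸ unit u h)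

theorem eua (p3 : S_P3) : S_EUA := by
  intro F _ _ h u h0
  obtain ⟨b, b0, hb⟩ := one h h0
  have dT : ∀ (g : PowerSeries F) (j : Fin 3), pderiv F j (g.toMvPowerSeries (2 : Fin 3)) =
      (PowerSeries.derivative F g).toMvPowerSeries 2 * pderiv F j (X 2) := fun g j => by
    have := (p3.1 F Unit (Fin 3) (PowerSeries.toMvPowerSeries 2)).2.2.1 g j
    rw [Fintype.sum_unique] at this
    rw [this, ← PowerSeries.toMvPowerSeries_X (R := F) (2 : Fin 3)]
    rfl
  have cT : constantCoeff (b.toMvPowerSeries (2 : Fin 3)) ≠ 0 := fun e =>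
    b0 (((p3.1 F Unit (Fin 3) (PowerSeries.toMvPowerSeries 2)).1 b).symm.trans e)
  have hU : IsUnit (rename Fin.succ (u : MvPowerSeries (Fin 2) F) : MvPowerSeries (Fin 3) F) :=
    u.isUnit.map _
  have dU : pderiv F 0 (rename Fin.succ (u : MvPowerSeries (Fin 2) F) : MvPowerSeries (Fin 3) F)
      = 0 := by
    rw [(p3.1 F _ _ (rename Fin.succ)).2.2.1]
    exact Finset.sum_eq_zero fun i _ => by
      rw [rename_X, pderiv_X_of_ne (Fin.succ_ne_zero i), mul_zero]
  obtain ⟨U, e⟩ := hU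
  rw [← e] at dU ⊢
  have hb' := congrArg (PowerSeries.toMvPowerSeries (2 : Fin 3)) hb
  rw [map_mul, map_mul, PowerSeries.toMvPowerSeries_X] at hb'
  have c2 : (C (2⁻¹ : F) : MvPowerSeries (Fin 3) F) * 2 = 1 := by
    rw [← map_ofNat (C : F →+* MvPowerSeries (Fin 3) F) 2, ← map_mul, inv_mul_cancel₀ two_ne_zero,
      map_one]
  obtain ⟨l, hl⟩ : ∃ l : MvPowerSeries (Fin 3) F, l = 1 + (C 2⁻¹ * X 1 * pderiv F 1 U.val +
    X 2 * b.toMvPowerSeries 2 * pderiv F 2 U.val) * U⁻¹.val := ⟨_, rfl⟩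
  have l1 : constantCoeff l = 1 := by simp [hl]
  have x01 : pderiv F 0 (X 1 : MvPowerSeries (Fin 3) F) = 0 := pderiv_X_of_ne (by decide)
  have x02 : pderiv F 0 (X 2 : MvPowerSeries (Fin 3) F) = 0 := pderiv_X_of_ne (by decide)
  have x10 : pderiv F 1 (X 0 : MvPowerSeries (Fin 3) F) = 0 := pderiv_X_of_ne (by decide)
  have x12 : pderiv F 1 (X 2 : MvPowerSeries (Fin 3) F) = 0 := pderiv_X_of_ne (by decide)
  have x20 : pderiv F 2 (X 0 : MvPowerSeries (Fin 3) F) = 0 := pderiv_X_of_ne (by decide)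
  have x21 : pderiv F 2 (X 1 : MvPowerSeries (Fin 3) F) = 0 := pderiv_X_of_ne (by decide)
  refine ⟨![l * C 2⁻¹ * X 0, C 2⁻¹ * X 1, X 2 * b.toMvPowerSeries 2], l, fun i => ?_,
    isUnit_iff'.2 (by rw [l1]; exact one_ne_zero), ?_, ?_⟩
  · fin_cases i <;> simp
  · simp only [vf_apply, Fin.sum_univ_three, cons_val, map_add, Derivation.leibniz, pderiv_pow,
      smul_eq_mul, dT, dU, x01, x02, x10, x12, x20, x21, pderiv_X_self, Nat.cast_ofNat]
    have := U.inv_mul
    linear_combination (l * X 0 ^ 2 + U.val * X 1 ^ 2) * c2 + U.val * hb' -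
      (U.val * (X 1 ^ 2 + h.toMvPowerSeries 2)) * hl - ((C 2⁻¹ * X 1 * pderiv F 1 U.val +
        X 2 * b.toMvPowerSeries 2 * pderiv F 2 U.val) * (X 1 ^ 2 + h.toMvPowerSeries 2)) * this
  · simp only [Fin.sum_univ_three, cons_val, Derivation.leibniz, smul_eq_mul, pderiv_X_self,
      map_sub, map_add, map_mul, constantCoeff_X, constantCoeff_C, l1, map_one, zero_mul]
    intro e
    exact cT (by linear_combination e)

end Pool.Agent.MP_51db15_ag.Hy
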