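import Pool.Agent.MP_51db15_ag.Hy.Rows
import Pool.Agent.MP_51db15_ag.Hy.Base

/-! Row EUB: Euler fields for the surfaces with a cubic plane curve. -/

namespace Pool.Agent.MP_51db15_ag.Hy

namespace EUB

section OneVar

open PowerSeries

variable {F : Type} [Field F] [CharZero F]

/-- solvability of the two linear equations -/
def Sol (p q : F⟦X⟧) : Prop := ∃ l m : F⟦X⟧,
  X * l * d⁄dX F p + m * d⁄dX F q = 2 * p ∧
    3 * X * l * d⁄dX F q - m * p * d⁄dX F p = 9 * q ∧ 2 * constantCoeff l ≠ 1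

omit [CharZero F] in
theorem der_pow_mul (n : ℕ) (f : F⟦X⟧) :
    d⁄dX F (X ^ (n + 1) * f) = X ^ n * (((n + 1 : ℕ) : F⟦X⟧) * f + X * d⁄dX F f) := by
  rw [Derivation.leibniz, derivative_pow, derivative_X, smul_eq_mul, smul_eq_mul]
  simp only [Nat.add_sub_cancel]
  ring

omit [CharZero F] in
theorem exists_inv {f : F⟦X⟧} (h : constantCoeff f ≠ 0) : ∃ g, f * g = 1 :=
  ⟨f⁻¹, PowerSeries.mul_inv_cancel f h⟩

omit [CharZero F] in
/-- Cramer's rule -/
theorem cramer {p q D N M : F⟦X⟧} {k : ℕ}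
    (hD : p * d⁄dX F p ^ 2 + 3 * d⁄dX F q ^ 2 = X ^ k * D)
    (hN : 2 * p ^ 2 * d⁄dX F p + 9 * q * d⁄dX F q = X ^ (k + 1) * N)
    (hM : 2 * p * d⁄dX F q - 3 * q * d⁄dX F p = X ^ k * M)
    (h0 : constantCoeff D ≠ 0) (h1 : 2 * constantCoeff N ≠ constantCoeff D) : Sol p q := by
  obtain ⟨E, hE⟩ := exists_inv h0
  have hk : (X : F⟦X⟧) ^ k ≠ 0 := pow_ne_zero _ X_ne_zero
  refine ⟨N * E, 3 * M * E, mul_left_cancel₀ hk ?_, mul_left_cancel₀ hk ?_, fun h => h1 ?_⟩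
  · linear_combination (-E * d⁄dX F p) * hN - (3 * E * d⁄dX F q) * hM + (2 * p * E) * hD +
      (2 * p * X ^ k) * hE
  · linear_combination (-3 * E * d⁄dX F q) * hN + (3 * E * p * d⁄dX F p) * hM +
      (9 * q * E) * hD + (9 * q * X ^ k) * hE
  · have h2 := congrArg constantCoeff hE
    rw [map_mul, map_one] at h2
    rw [map_mul] at h
    linear_combination constantCoeff D * h - 2 * constantCoeff N * h2

theorem caseA (P Q : F⟦X⟧) (h : 4 * constantCoeff P ^ 3 + 27 * constantCoeff Q ^ 2 ≠ 0) :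
    Sol (X ^ 2 * P) (X ^ 3 * Q) := by
  refine cramer (k := 4)
    (D := P * (2 * P + X * d⁄dX F P) ^ 2 + 3 * (3 * Q + X * d⁄dX F Q) ^ 2)
    (N := 2 * P ^ 2 * (2 * P + X * d⁄dX F P) + 9 * Q * (3 * Q + X * d⁄dX F Q))
    (M := 2 * P * (3 * Q + X * d⁄dX F Q) - 3 * Q * (2 * P + X * d⁄dX F P)) ?_ ?_ ?_ ?_ ?_
  · rw [der_pow_mul 1, der_pow_mul 2]
    push_cast
    ring
  · rw [der_pow_mul 1, der_pow_mul 2]
    push_cast
    ring
  · rw [der_pow_mul 1, der_pow_mul 2]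
    push_cast
    ring
  · intro h1
    simp only [map_add, map_mul, map_pow, map_ofNat, constantCoeff_X] at h1
    exact h (by linear_combination h1)
  · intro h1
    simp only [map_add, map_mul, map_pow, map_ofNat, constantCoeff_X] at h1
    exact h (by linear_combination h1)

theorem caseE6 (P Q : F⟦X⟧) (h : constantCoeff Q ≠ 0) : Sol (X ^ 3 * P) (X ^ 4 * Q) := by
  refine cramer (k := 6)
    (D := X * P * (3 * P + X * d⁄dX F P) ^ 2 + 3 * (4 * Q + X * d⁄dX F Q) ^ 2)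
    (N := 2 * X * P ^ 2 * (3 * P + X * d⁄dX F P) + 9 * Q * (4 * Q + X * d⁄dX F Q))
    (M := 2 * P * (4 * Q + X * d⁄dX F Q) - 3 * Q * (3 * P + X * d⁄dX F P)) ?_ ?_ ?_ ?_ ?_
  · rw [der_pow_mul 2, der_pow_mul 3]
    push_cast
    ring
  · rw [der_pow_mul 2, der_pow_mul 3]
    push_cast
    ring
  · rw [der_pow_mul 2, der_pow_mul 3]
    push_cast
    ring
  · intro h1
    simp only [map_add, map_mul, map_pow, map_ofNat, constantCoeff_X] at h1
    exact pow_ne_zero 2 h (by linear_combination (1 / 48 : F) * h1)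
  · intro h1
    simp only [map_add, map_mul, map_pow, map_ofNat, constantCoeff_X] at h1
    exact pow_ne_zero 2 h (by linear_combination (1 / 24 : F) * h1)

theorem caseE7 (P Q : F⟦X⟧) (h : constantCoeff P ≠ 0) : Sol (X ^ 3 * P) (X ^ 5 * Q) := by
  refine cramer (k := 7)
    (D := P * (3 * P + X * d⁄dX F P) ^ 2 + 3 * X * (5 * Q + X * d⁄dX F Q) ^ 2)
    (N := 2 * P ^ 2 * (3 * P + X * d⁄dX F P) + 9 * X * Q * (5 * Q + X * d⁄dX F Q))
    (M := 2 * P * (5 * Q + X * d⁄dX F Q) - 3 * Q * (3 * P + X * d⁄dX F P)) ?_ ?_ ?_ ?_ ?_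
  · rw [der_pow_mul 2, der_pow_mul 4]
    push_cast
    ring
  · rw [der_pow_mul 2, der_pow_mul 4]
    push_cast
    ring
  · rw [der_pow_mul 2, der_pow_mul 4]
    push_cast
    ring
  · intro h1
    simp only [map_add, map_mul, map_pow, map_ofNat, constantCoeff_X] at h1
    exact pow_ne_zero 3 h (by linear_combination (1 / 9 : F) * h1)
  · intro h1
    simp only [map_add, map_mul, map_pow, map_ofNat, constantCoeff_X] at h1
    exact pow_ne_zero 3 h (by linear_combination (1 / 3 : F) * h1)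

theorem caseE8 (P Q : F⟦X⟧) (h : constantCoeff Q ≠ 0) : Sol (X ^ 4 * P) (X ^ 5 * Q) := by
  refine cramer (k := 8)
    (D := X ^ 2 * P * (4 * P + X * d⁄dX F P) ^ 2 + 3 * (5 * Q + X * d⁄dX F Q) ^ 2)
    (N := 2 * X ^ 2 * P ^ 2 * (4 * P + X * d⁄dX F P) + 9 * Q * (5 * Q + X * d⁄dX F Q))
    (M := 2 * P * (5 * Q + X * d⁄dX F Q) - 3 * Q * (4 * P + X * d⁄dX F P)) ?_ ?_ ?_ ?_ ?_
  · rw [der_pow_mul 3, der_pow_mul 4]
    push_cast
    ring
  · rw [der_pow_mul 3, der_pow_mul 4]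
    push_cast
    ring
  · rw [der_pow_mul 3, der_pow_mul 4]
    push_cast
    ring
  · intro h1
    simp only [map_add, map_mul, map_pow, map_ofNat, constantCoeff_X] at h1
    exact pow_ne_zero 2 h (by linear_combination (1 / 75 : F) * h1)
  · intro h1
    simp only [map_add, map_mul, map_pow, map_ofNat, constantCoeff_X] at h1
    exact pow_ne_zero 2 h (by linear_combination (1 / 15 : F) * h1)

omit [CharZero F] in
theorem der_disc (p q : F⟦X⟧) : d⁄dX F (4 * p ^ 3 + 27 * q ^ 2) =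
    6 * (2 * p ^ 2 * d⁄dX F p + 9 * q * d⁄dX F q) := by
  have h4 : d⁄dX F (4 : F⟦X⟧) = 0 := Derivation.map_natCast _ 4
  have h27 : d⁄dX F (27 : F⟦X⟧) = 0 := Derivation.map_natCast _ 27
  rw [map_add, Derivation.leibniz, Derivation.leibniz, derivative_pow, derivative_pow, h4, h27]
  simp only [smul_eq_mul]
  push_cast
  ring

theorem six_ne : (6 : F⟦X⟧) ≠ 0 := fun h => by
  have := congrArg constantCoeff h
  rw [map_ofNat, map_zero] at this
  exact (by norm_num : (6 : F) ≠ 0) this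

theorem caseD0 (P Q : F⟦X⟧) (h : constantCoeff P ≠ 0) (h0 : 4 * P ^ 3 + 27 * Q ^ 2 = 0) :
    Sol (X ^ 2 * P) (X ^ 3 * Q) := by
  have h1 := der_disc P Q
  rw [h0, map_zero] at h1
  have h2 : 2 * P ^ 2 * d⁄dX F P + 9 * Q * d⁄dX F Q = 0 :=
    (mul_eq_zero.1 h1.symm).resolve_left six_ne
  obtain ⟨E, hE⟩ := exists_inv (f := 2 * P + X * d⁄dX F P) (by
    simp only [map_add, map_mul, map_ofNat, constantCoeff_X, zero_mul, add_zero]
    exact mul_ne_zero two_ne_zero h)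
  obtain ⟨I, hI⟩ := exists_inv (f := 2 * P ^ 2) (by
    simp only [map_mul, map_pow, map_ofNat]
    exact mul_ne_zero two_ne_zero (pow_ne_zero 2 h))
  have h3 : 2 * P * d⁄dX F Q - 3 * Q * d⁄dX F P = 0 := by
    linear_combination (I * d⁄dX F Q) * h0 - (3 * I * Q) * h2 -
      (2 * P * d⁄dX F Q - 3 * Q * d⁄dX F P) * hI
  refine ⟨2 * P * E, 0, ?_, ?_, fun h4 => ?_⟩
  · rw [der_pow_mul 1]
    push_cast
    linear_combination (2 * P * X ^ 2) * hE
  · rw [der_pow_mul 2]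
    push_cast
    linear_combination (9 * Q * X ^ 3) * hE + (3 * X ^ 4 * E) * h3
  · have h5 := congrArg constantCoeff hE
    simp only [map_add, map_mul, map_ofNat, constantCoeff_X, map_one] at h4 h5
    exact (one_ne_zero : (1 : F) ≠ 0) (by linear_combination h4 - 2 * h5)

theorem caseD (P Q Δ : F⟦X⟧) (j : ℕ) (h : constantCoeff P ≠ 0)
    (h0 : 4 * constantCoeff P ^ 3 + 27 * constantCoeff Q ^ 2 = 0)
    (hΔ : 4 * P ^ 3 + 27 * Q ^ 2 = X ^ j * Δ) (hd : constantCoeff Δ ≠ 0) :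
    Sol (X ^ 2 * P) (X ^ 3 * Q) := by
  obtain ⟨s, hs⟩ := exists_inv (f := (6 : F⟦X⟧)) (by rw [map_ofNat]; norm_num)
  obtain ⟨I, hI⟩ := exists_inv (f := 2 * P ^ 2) (by
    simp only [map_mul, map_pow, map_ofNat]
    exact mul_ne_zero two_ne_zero (pow_ne_zero 2 h))
  obtain ⟨J, hJ⟩ := exists_inv hd
  have hδ : 4 * (X ^ 2 * P) ^ 3 + 27 * (X ^ 3 * Q) ^ 2 = X ^ (j + 5 + 1) * Δ := by
    linear_combination (X ^ 6) * hΔ
  have h1 := der_disc (X ^ 2 * P) (X ^ 3 * Q)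
  rw [hδ, der_pow_mul (j + 5)] at h1
  obtain ⟨N, hN⟩ : ∃ N, N = s * (((j + 5 + 1 : ℕ) : F⟦X⟧) * Δ + X * d⁄dX F Δ) := ⟨_, rfl⟩
  obtain ⟨M, hM⟩ : ∃ M, M = I * ((3 * Q + X * d⁄dX F Q) * Δ - 3 * Q * N) := ⟨_, rfl⟩
  obtain ⟨D, hD⟩ : ∃ D, D = J * (N ^ 2 + 3 * P * M ^ 2) := ⟨_, rfl⟩
  have eq' : d⁄dX F (X ^ 3 * Q) = X ^ 2 * (3 * Q + X * d⁄dX F Q) := by
    rw [der_pow_mul 2]
    push_cast
    ring
  obtain ⟨p', hp'⟩ : ∃ p', p' = d⁄dX F (X ^ 2 * P) := ⟨_, rfl⟩
  obtain ⟨q', hq'⟩ : ∃ q', q' = d⁄dX F (X ^ 3 * Q) := ⟨_, rfl⟩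
  have eN : 2 * (X ^ 2 * P) ^ 2 * p' + 9 * (X ^ 3 * Q) * q' = X ^ (j + 4 + 1) * N := by
    rw [hN, hp', hq']
    linear_combination (-s) * h1 - (2 * (X ^ 2 * P) ^ 2 * d⁄dX F (X ^ 2 * P) +
      9 * (X ^ 3 * Q) * d⁄dX F (X ^ 3 * Q)) * hs
  have eM : 2 * (X ^ 2 * P) * q' - 3 * (X ^ 3 * Q) * p' = X ^ (j + 4) * M := by
    refine mul_left_cancel₀ (pow_ne_zero 4 (X_ne_zero (R := F))) ?_
    rw [← hq'] at eq'
    rw [hM]
    linear_combination (I * q') * hδ - (3 * I * (X ^ 3 * Q)) * eN +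
      (I * X ^ (j + 6) * Δ) * eq' -
      (X ^ 4 * (2 * (X ^ 2 * P) * q' - 3 * (X ^ 3 * Q) * p')) * hI
  have eD : X ^ 2 * P * p' ^ 2 + 3 * q' ^ 2 = X ^ (j + 4) * D := by
    refine mul_left_cancel₀ (pow_ne_zero (j + 6) (X_ne_zero (R := F))) ?_
    rw [hD]
    linear_combination (-J * (X ^ 2 * P * p' ^ 2 + 3 * q' ^ 2)) * hδ +
      (J * (2 * (X ^ 2 * P) ^ 2 * p' + 9 * (X ^ 3 * Q) * q' + X ^ (j + 4 + 1) * N)) * eN +
      (3 * J * (X ^ 2 * P) * (2 * (X ^ 2 * P) * q' - 3 * (X ^ 3 * Q) * p' + X ^ (j + 4) * M)) * eM -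
      (X ^ (j + 6) * (X ^ 2 * P * p' ^ 2 + 3 * q' ^ 2)) * hJ
  have cs := congrArg constantCoeff hs
  have cI := congrArg constantCoeff hI
  have cJ := congrArg constantCoeff hJ
  have cN := congrArg constantCoeff hN
  have cM := congrArg constantCoeff hM
  have cD := congrArg constantCoeff hD
  simp only [map_add, map_sub, map_mul, map_pow, map_ofNat, map_natCast, constantCoeff_X,
    map_one, zero_mul, add_zero] at cs cI cJ cN cM cD
  push_cast at cN
  generalize constantCoeff P = a at *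
  generalize constantCoeff Q = b at *
  have c1 : 2 * a ^ 2 * constantCoeff M = 3 * b * (constantCoeff Δ - constantCoeff N) := by
    linear_combination (2 * a ^ 2) * cM +
      (3 * b * (constantCoeff Δ - constantCoeff N)) * cI
  have c2 : 3 * a * constantCoeff M ^ 2 = -(constantCoeff Δ - constantCoeff N) ^ 2 := by
    refine mul_left_cancel₀ (mul_ne_zero (by norm_num : (4 : F) ≠ 0) (pow_ne_zero 3 h)) ?_
    linear_combination (3 * (2 * a ^ 2 * constantCoeff M +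
      3 * b * (constantCoeff Δ - constantCoeff N))) * c1 +
      (constantCoeff Δ - constantCoeff N) ^ 2 * h0
  have c3 : constantCoeff D = 2 * constantCoeff N - constantCoeff Δ := by
    linear_combination cD + constantCoeff J * c2 + (2 * constantCoeff N - constantCoeff Δ) * cJ
  have c4 : 6 * constantCoeff N = (j + 6) * constantCoeff Δ := by
    linear_combination 6 * cN + ((j + 6) * constantCoeff Δ) * cs
  refine cramer (k := j + 4) (D := D) (N := N) (M := M) (by rw [← hp', ← hq']; exact eD)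
    (by rw [← hp', ← hq']; exact eN) (by rw [← hp', ← hq']; exact eM) (fun h1 => ?_)
    fun h1 => hd (by linear_combination h1 + c3)
  have h2 : ((j : F) + 3) ≠ 0 := by exact_mod_cast (by omega : j + 3 ≠ 0)
  exact mul_ne_zero h2 hd (by linear_combination 3 * h1 - 3 * c3 - c4)

omit [CharZero F] in
theorem exists_X_mul {f : F⟦X⟧} (h : constantCoeff f = 0) : ∃ g, f = X * g := X_dvd_iff.2 h

omit [CharZero F] in
theorem le_order_X_pow_mul (n : ℕ) (f : F⟦X⟧) : (n : ℕ∞) ≤ (X ^ n * f).order :=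
  nat_le_order _ _ (X_pow_dvd_iff.1 (dvd_mul_right _ _))

theorem sol (p q : F⟦X⟧) (hp : 2 ≤ p.order) (hq : 3 ≤ q.order)
    (h : p.order ≤ 3 ∨ q.order ≤ 5) : Sol p q := by
  obtain ⟨P, rfl⟩ : (X : F⟦X⟧) ^ 2 ∣ p := X_pow_dvd_iff.2 fun m hm =>
    coeff_of_lt_order m (lt_of_lt_of_le (by exact_mod_cast hm) hp)
  obtain ⟨Q, rfl⟩ : (X : F⟦X⟧) ^ 3 ∣ q := X_pow_dvd_iff.2 fun m hm =>
    coeff_of_lt_order m (lt_of_lt_of_le (by exact_mod_cast hm) hq)
  by_cases h0 : 4 * constantCoeff P ^ 3 + 27 * constantCoeff Q ^ 2 = 0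
  swap
  · exact caseA P Q h0
  by_cases hP : constantCoeff P = 0
  swap
  · by_cases h1 : 4 * P ^ 3 + 27 * Q ^ 2 = 0
    · exact caseD0 P Q hP h1
    · exact caseD P Q _ _ hP h0 X_pow_order_mul_divXPowOrder.symm
        fun e => h1 (constantCoeff_divXPowOrder_eq_zero_iff.1 e)
  have hQ : constantCoeff Q = 0 := by
    rw [hP] at h0
    exact pow_eq_zero_iff (two_ne_zero) |>.1 (by linear_combination (1 / 27 : F) * h0)
  obtain ⟨P, rfl⟩ := exists_X_mul hP
  obtain ⟨Q, rfl⟩ := exists_X_mul hQ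
  rw [← mul_assoc, ← pow_succ, ← mul_assoc, ← pow_succ] at h ⊢
  by_cases hQ1 : constantCoeff Q = 0
  swap
  · exact caseE6 P Q hQ1
  obtain ⟨Q, rfl⟩ := exists_X_mul hQ1
  rw [← mul_assoc (X ^ (3 + 1)), ← pow_succ] at h ⊢
  by_cases hP1 : constantCoeff P = 0
  swap
  · exact caseE7 P Q hP1
  obtain ⟨P, rfl⟩ := exists_X_mul hP1
  rw [← mul_assoc (X ^ (2 + 1)), ← pow_succ] at h ⊢
  refine caseE8 P Q fun hQ2 => ?_
  obtain ⟨Q, rfl⟩ := exists_X_mul hQ2
  rw [← mul_assoc (X ^ (3 + 1 + 1)), ← pow_succ] at h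
  rcases h with h | h
  · have := (le_order_X_pow_mul _ _).trans h
    norm_num at this
  · have := (le_order_X_pow_mul _ _).trans h
    norm_num at this

end OneVar

end EUB

open MvPowerSeries

theorem eub (p3 : S_P3) : S_EUB := by
  intro F _ _ p q u hp hq h
  obtain ⟨l, m, e1, e2, hl⟩ := EUB.sol p q hp hq h
  obtain ⟨T, hT⟩ : ∃ T : PowerSeries F →ₐ[F] MvPowerSeries (Fin 3) F,
      T = PowerSeries.toMvPowerSeries 2 := ⟨_, rfl⟩
  have hTX : T PowerSeries.X = X 2 := by rw [hT, PowerSeries.toMvPowerSeries_X]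
  have hTd : ∀ (f : PowerSeries F) (j : Fin 3),
      pderiv F j (T f) = T (PowerSeries.derivative F f) * pderiv F j (X 2) := by
    intro f j
    have := (p3.1 F Unit (Fin 3) T).2.2.1 f j
    rw [this, Fintype.sum_unique, ← hTX]
    rfl
  have hT0 : ∀ f, pderiv F 0 (T f) = 0 := fun f => by
    rw [hTd, pderiv_X_of_ne (by decide), mul_zero]
  have hT1 : ∀ f, pderiv F 1 (T f) = 0 := fun f => by
    rw [hTd, pderiv_X_of_ne (by decide), mul_zero]
  have hT2 : ∀ f, pderiv F 2 (T f) = T (PowerSeries.derivative F f) := fun f => by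
    rw [hTd, pderiv_X_self, mul_one]
  have hTc : ∀ f, constantCoeff (T f) = PowerSeries.constantCoeff f := fun f =>
    (p3.1 F Unit (Fin 3) T).1 f
  obtain ⟨U, hU⟩ : ∃ U : MvPowerSeries (Fin 3) F,
      U = rename Fin.succ (u : MvPowerSeries (Fin 2) F) := ⟨_, rfl⟩
  obtain ⟨V, hV⟩ : ∃ V, U * V = 1 := ⟨rename Fin.succ (u⁻¹ : (MvPowerSeries (Fin 2) F)ˣ).1, by
    rw [hU, ← map_mul, Units.mul_inv, map_one]⟩
  have hU0 : pderiv F 0 U = 0 := by
    rw [hU, (p3.1 F (Fin 2) (Fin 3) (rename Fin.succ)).2.2.1]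
    refine Finset.sum_eq_zero fun i _ => ?_
    rw [rename_X, pderiv_X_of_ne (Fin.succ_ne_zero i), mul_zero]
  have hp' : PowerSeries.constantCoeff (PowerSeries.derivative F p) = 0 := by
    rw [← PowerSeries.coeff_zero_eq_constantCoeff_apply, PowerSeries.coeff_derivative,
      PowerSeries.coeff_of_lt_order (0 + 1) (lt_of_lt_of_le (by norm_num) hp), zero_mul]
  have E1 := congrArg T e1
  have E2 := congrArg T e2
  simp only [map_add, map_sub, map_mul, map_ofNat, hTX] at E1 E2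
  rw [← hT, ← hU]
  obtain ⟨a, ha⟩ : ∃ a, a = 3 * X 1 - T m * T (PowerSeries.derivative F p) := ⟨_, rfl⟩
  obtain ⟨b, hb⟩ : ∃ b, b = 3 * (T l * X 2 + T m * X 1) := ⟨_, rfl⟩
  obtain ⟨L, hL⟩ : ∃ L, L = 9 + (a * pderiv F 1 U + b * pderiv F 2 U) * V := ⟨_, rfl⟩
  have ca : constantCoeff a = 0 := by simp [ha, hTc, hp']
  have cb : constantCoeff b = 0 := by simp [hb]
  have cL : constantCoeff L = 9 := by
    rw [hL]
    simp only [map_add, map_mul, ca, cb, map_ofNat, zero_mul, add_zero]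
  have d2 : ∀ j, pderiv F j (2 : MvPowerSeries (Fin 3) F) = 0 := fun j =>
    Derivation.map_natCast _ 2
  have d3 : ∀ j, pderiv F j (3 : MvPowerSeries (Fin 3) F) = 0 := fun j =>
    Derivation.map_natCast _ 3
  have x01 : pderiv F 0 (X 1 : MvPowerSeries (Fin 3) F) = 0 := pderiv_X_of_ne (by decide)
  have x10 : pderiv F 1 (X 0 : MvPowerSeries (Fin 3) F) = 0 := pderiv_X_of_ne (by decide)
  have x12 : pderiv F 1 (X 2 : MvPowerSeries (Fin 3) F) = 0 := pderiv_X_of_ne (by decide)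
  have x20 : pderiv F 2 (X 0 : MvPowerSeries (Fin 3) F) = 0 := pderiv_X_of_ne (by decide)
  have x21 : pderiv F 2 (X 1 : MvPowerSeries (Fin 3) F) = 0 := pderiv_X_of_ne (by decide)
  refine ⟨![L * X 0, 2 * a, 2 * b], 2 * L, fun i => ?_, ?_, ?_, ?_⟩
  · fin_cases i <;> simp [ca, cb]
  · rw [isUnit_iff', map_mul, cL, map_ofNat]
    norm_num
  · rw [vf_apply, Fin.sum_univ_three]
    simp only [map_add, Derivation.leibniz, pderiv_pow, smul_eq_mul, hT0, hT1, hT2, hU0, x01, x10,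
      x20, x21, pderiv_X_self, Matrix.cons_val_zero, Matrix.cons_val_one, Matrix.cons_val]
    rw [hL]
    push_cast
    linear_combination (6 * U * X 1) * E1 + (2 * U) * E2 -
      (2 * (a * pderiv F 1 U + b * pderiv F 2 U) * (X 1 ^ 3 + T p * X 1 + T q)) * hV +
      (2 * U * (3 * X 1 ^ 2 + T p)) * ha +
      (2 * U * (T (PowerSeries.derivative F p) * X 1 + T (PowerSeries.derivative F q))) * hb
  · rw [Fin.sum_univ_three]
    simp only [Matrix.cons_val_zero, Matrix.cons_val_one, Matrix.cons_val]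
    have g0 : constantCoeff (pderiv F 0 (L * X 0)) = 9 := by
      simp [Derivation.leibniz, cL]
    have g1 : constantCoeff (pderiv F 1 (2 * a)) = 6 := by
      rw [ha]
      simp only [map_sub, map_add, Derivation.leibniz, smul_eq_mul, hT1, d2, d3, pderiv_X_self,
        map_mul, map_ofNat, map_zero, map_one]
      ring
    have g2 : constantCoeff (pderiv F 2 (2 * b)) = 6 * PowerSeries.constantCoeff l := by
      rw [hb]
      simp only [map_add, Derivation.leibniz, smul_eq_mul, d2, d3, pderiv_X_self, x21,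
        map_mul, map_ofNat, map_zero, map_one, constantCoeff_X, hTc]
      ring
    rw [map_sub, map_add, map_add, g0, g1, g2, map_mul, cL, map_ofNat]
    intro h0
    exact hl (by linear_combination (1 / 3 : F) * h0)

end Pool.Agent.MP_51db15_ag.Hy
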