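import Pool.Agent.MP_51db15_ag.Hy.Rows
import Pool.Agent.MP_51db15_ag.Hy.Base

/-! Extension of a monomial valuation and of derivations to a finite extension. -/

namespace Pool.Agent.MP_51db15_ag.Hy

open MvPowerSeries

namespace EXTV

section Abs

open Polynomial

variable {κ : Type} [Field κ] [CharZero κ] {v : DV κ} {R : Set κ} (D : Derivation ℤ κ κ)

theorem ge_inv (hQ : ∀ n : ℕ, n ≠ 0 → v.ord (n : κ) = 0) {n : ℤ} (hn : n ≠ 0) {k : ℤ} {y : κ}
    (h : v.Ge k (n * y)) : v.Ge k y := by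
  have h0 : (n : κ) ≠ 0 := by exact_mod_cast hn
  have h1 : v.ord (n : κ) = 0 := by
    obtain ⟨m, rfl | rfl⟩ := n.eq_nat_or_neg
    · simpa using hQ m (by simpa using hn)
    · simpa [v.ord_neg] using hQ m (by simpa using hn)
  simpa [h0] using h.div_unit h0 h1

theorem sep (hQ : ∀ n : ℕ, n ≠ 0 → v.ord (n : κ) = 0) {y : κ} (hy : v.Ge 0 y) (S : Subring κ)
    (n : ℕ) : ∀ p : κ[X], p.natDegree ≤ n → (∀ i, p.coeff i ∈ S) →
    (∃ i, ¬ v.Ge 1 (p.coeff i)) → v.Ge 1 (p.eval y) →
    ∃ q : κ[X], (∀ i, q.coeff i ∈ S) ∧ v.Ge 1 (q.eval y) ∧ ¬ v.Ge 1 (q.derivative.eval y) := by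
  have key : ∀ p : κ[X], (∃ i, ¬ v.Ge 1 (p.coeff i)) → v.Ge 1 (p.eval y) →
      ∃ i, ¬ v.Ge 1 (p.derivative.coeff i) := fun p ⟨i, hi⟩ hp => by
    by_contra hc
    push Not at hc
    have h1 : ∀ i, v.Ge 1 (p.coeff (i + 1)) := fun i => by
      refine ge_inv hQ (n := (i + 1 : ℕ)) (by omega) ?_
      have := hc i
      rw [coeff_derivative, mul_comm] at this
      simpa using this
    rcases i with _ | i
    · rw [eval_eq_sum_range, Finset.sum_range_succ'] at hp
      have h2 := hp.sub (DV.Ge.sum (s := Finset.range p.natDegree)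
        fun i _ => (h1 i).mul_right (hy.pow (i + 1)))
      exact hi (by simpa using h2)
    · exact hi (h1 i)
  induction n with
  | zero =>
    intro p h0 _ h2 h3
    obtain ⟨i, hi⟩ := key p h2 h3
    rw [derivative_of_natDegree_zero (by omega)] at hi
    exact (hi (DV.ge_zero 1)).elim
  | succ n ih =>
    intro p h0 h1 h2 h3
    by_cases h : v.Ge 1 (p.derivative.eval y)
    · refine ih _ ((natDegree_derivative_le p).trans (by omega)) (fun i => ?_) (key p h2 h3) h
      rw [coeff_derivative]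
      exact mul_mem (h1 _) (add_mem (natCast_mem S i) (one_mem S))
    · exact ⟨p, h1, h3, h⟩

omit [CharZero κ] in
theorem der_eval {y : κ} (hy : v.Ge 0 y) {k : ℤ} (p : κ[X]) (h : ∀ i, v.Ge k (D (p.coeff i))) :
    v.Ge k (D (p.eval y) - p.derivative.eval y * D y) := by
  have e : D (p.eval y) - p.derivative.eval y * D y =
      ∑ i ∈ p.support, D (p.coeff i) * y ^ i := by
    rw [eval_eq_sum, derivative_eval, Polynomial.sum_def, Polynomial.sum_def, map_sum,
      Finset.sum_mul, ← Finset.sum_sub_distrib]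
    refine Finset.sum_congr rfl fun i _ => ?_
    rw [D.leibniz, D.leibniz_pow]
    simp only [smul_eq_mul, nsmul_eq_mul]
    ring
  rw [e]
  exact DV.Ge.sum fun i _ => (h i).mul_right (hy.pow i)

/-- the data of the extension that the argument uses -/
structure Dat (v : DV κ) (S : Subring κ) : Prop where
  hQ : ∀ n : ℕ, n ≠ 0 → v.ord (n : κ) = 0
  hS : ∀ a ∈ S, v.Ge 0 a
  alg : ∀ y, v.Ge 0 y → ∃ p : κ[X], (∀ i, p.coeff i ∈ S) ∧ p.Monic ∧ v.Ge 1 (p.eval y)
  fin : ∃ T : Finset κ, (∀ t ∈ T, v.Ge 0 t) ∧ ∀ y, v.Ge 0 y → ∃ b ∈ Submodule.span S (T : Set κ),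
    ∃ s ∈ Submodule.span S (T : Set κ), s ≠ 0 ∧ v.ord s = 0 ∧ y = b / s

variable {S : Subring κ}

theorem res (h : Dat v S) {k : ℤ} (h1 : ∀ a ∈ S, v.Ge k (D a)) (h2 : ∀ y, v.Ge 1 y → v.Ge k (D y))
    (y : κ) (hy : v.Ge 0 y) : v.Ge k (D y) := by
  obtain ⟨p, p1, p2, p3⟩ := h.alg y hy
  obtain ⟨q, q1, q2, q3⟩ := sep h.hQ hy S _ p le_rfl p1
    ⟨p.natDegree, by rw [p2.coeff_natDegree]; exact DV.not_ge_one_one⟩ p3
  have q4 : v.Ge 0 (q.derivative.eval y) := by
    rw [eval_eq_sum_range]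
    refine DV.Ge.sum fun i _ => DV.Ge.mul_right ?_ (hy.pow i)
    rw [coeff_derivative]
    exact h.hS _ (mul_mem (q1 _) (add_mem (natCast_mem S i) (one_mem S)))
  obtain ⟨q5, q6⟩ := DV.unit_of_not_ge q4 q3
  have := ((h2 _ q2).sub (der_eval D hy q fun i => h1 _ (q1 i))).div_unit q5 q6
  rwa [sub_sub_cancel, mul_div_cancel_left₀ _ q5] at this

omit [CharZero κ] in
theorem lg {k : ℤ} (h : ∀ y, v.Ge 0 y → v.Ge k (D y)) {t y : κ} (ht : t ≠ 0) (hy : y ≠ 0) :
    v.Ge k (v.ord t * (D y / y) - v.ord y * (D t / t)) := by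
  have h1 := zpow_ne_zero (v.ord t) hy
  have h2 := zpow_ne_zero (-v.ord y) ht
  have h0 : v.ord (y ^ v.ord t * t ^ (-v.ord y)) = 0 := by
    rw [v.ord_mul _ _ h1 h2, v.ord_zpow hy, v.ord_zpow ht]; ring
  have := (h _ (Or.inr h0.ge)).div_unit (mul_ne_zero h1 h2) h0
  convert this using 1
  rw [D.leibniz, D.leibniz_zpow, D.leibniz_zpow, zpow_sub_one₀ hy, zpow_sub_one₀ ht]
  simp only [smul_eq_mul, zsmul_eq_mul]
  push_cast
  field_simp
  ring

omit [CharZero κ] in
theorem poles (h : Dat v S) (h1 : ∀ a ∈ S, v.Ge 0 (D a)) :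
    ∃ N : ℕ, ∀ y, v.Ge 0 y → v.Ge (-N) (D y) := by
  obtain ⟨T, hT, h2⟩ := h.fin
  obtain ⟨N, hN⟩ : ∃ N : ℕ, ∀ t ∈ T, v.Ge (-N) (D t) :=
    ⟨T.sup fun t => (-v.ord (D t)).toNat, fun t ht => Or.inr (by
      have : (-v.ord (D t)).toNat ≤ _ := Finset.le_sup (f := fun t => (-v.ord (D t)).toNat) ht
      omega)⟩
  have h3 : ∀ b ∈ Submodule.span S (T : Set κ), v.Ge 0 b ∧ v.Ge (-N) (D b) := fun b hb => by
    induction hb using Submodule.span_induction with
    | mem x hx => exact ⟨hT x hx, hN x hx⟩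
    | zero => exact ⟨DV.ge_zero _, by rw [map_zero]; exact DV.ge_zero _⟩
    | add x y _ _ hx hy => exact ⟨hx.1.add hy.1, by rw [map_add]; exact hx.2.add hy.2⟩
    | smul a x _ hx =>
      change v.Ge 0 (a * x) ∧ v.Ge _ (D (a * x))
      refine ⟨(h.hS _ a.2).mul_left hx.1, ?_⟩
      rw [D.leibniz]
      exact ((h.hS _ a.2).mul_left hx.2).add (hx.1.mul_left ((h1 _ a.2).mono (by omega)))
  refine ⟨N, fun y hy => ?_⟩
  obtain ⟨b, hb, s, hs, s0, s1, e⟩ := h2 y hy
  have e1 : b = y * s := by rw [e]; field_simp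
  have := ((h3 b hb).2.sub (hy.mul_left (h3 s hs).2)).div_unit s0 s1
  convert this using 1
  rw [e1, D.leibniz]
  simp only [smul_eq_mul]
  field_simp
  ring

theorem main (h : Dat v S) (h1 : ∀ a ∈ S, v.Ge 0 (D a)) {t : κ} (ht : t ≠ 0) (h0 : v.ord t ≠ 0)
    (h2 : v.Ge 0 (D t / t)) :
    (∀ y, v.Ge 0 y → v.Ge 0 (D y)) ∧ ∀ y, v.Ge 1 y → v.Ge 1 (D y) := by
  have step : ∀ k : ℤ, k ≤ 0 → (∀ y, v.Ge 0 y → v.Ge k (D y)) →
      ∀ y, v.Ge 1 y → v.Ge (k + 1) (D y) := fun k hk h3 y hy => by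
    by_cases hy0 : y = 0
    · rw [hy0, map_zero]; exact DV.ge_zero _
    have h4 := (lg D h3 ht hy0).add (((DV.ge_intCast (v.ord y)).mul_left h2).mono hk)
    rw [sub_add_cancel] at h4
    have := (ge_inv h.hQ h0 h4).mul hy
    rwa [div_mul_cancel₀ _ hy0] at this
  have key : ∀ N : ℕ, (∀ y, v.Ge 0 y → v.Ge (-N) (D y)) → ∀ y, v.Ge 0 y → v.Ge 0 (D y) := by
    intro N
    induction N with
    | zero => exact fun h => by simpa using h
    | succ N ih =>
      refine fun h3 => ih (res D h (fun a ha => (h1 a ha).mono (by omega)) fun y hy => ?_)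
      exact (step _ (by omega) h3 y hy).mono (by omega)
  obtain ⟨N, hN⟩ := poles D h h1
  exact ⟨key N hN, by simpa using step 0 le_rfl (key N hN)⟩

end Abs

theorem pow_sub {κ : Type} [Field κ] {v : DV κ} {y b : κ} (hy : v.Ge 0 y) (hb : v.Ge 0 b)
    (h : v.Ge 1 (y - b)) (i : ℕ) : v.Ge 1 (y ^ i - b ^ i) := by
  induction i with
  | zero => simpa using DV.ge_zero 1
  | succ i ih =>
    have := (hy.mul_left ih).add (h.mul_right (hb.pow i))
    convert this using 1
    ring

theorem core (V K κ : Type) [CommRing V] [IsDomain V] [IsDiscreteValuationRing V] [Field K]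
    [Algebra V K] [IsFractionRing V K] [Field κ] [Algebra K κ] [Algebra V κ]
    [IsScalarTower V K κ] [FiniteDimensional K κ] [CharZero K]
    (hQ : ∀ n : ℕ, n ≠ 0 → IsUnit (n : V)) :
    ∃ v : DV κ, Dat v (algebraMap V κ).range ∧ (∀ y, IsIntegral V y → v.Ge 0 y) ∧
      ∀ a : V, ¬ IsUnit a → v.Ge 1 (algebraMap V κ a) := by
  classical
  let B := integralClosure V κ
  have : IsDedekindDomain B := integralClosure.isDedekindDomain V K κ
  have : IsFractionRing B κ := integralClosure.isFractionRing_of_finite_extension K κ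
  have hfin : Module.Finite V B := IsIntegralClosure.finite V K κ B
  obtain ⟨M, hM⟩ := Ideal.exists_maximal B
  have hc : ∀ a : V, algebraMap V B a ∈ M ↔ ¬ IsUnit a := fun a => by
    rw [← Ideal.mem_comap,
      IsLocalRing.eq_maximalIdeal (Ideal.isMaximal_comap_of_isIntegral_of_isMaximal (R := V) M)]
    rfl
  have hM0 : M ≠ ⊥ := by
    obtain ⟨π, hπ⟩ := IsDiscreteValuationRing.exists_irreducible V
    intro h
    have h1 := (hc π).2 hπ.not_isUnit
    rw [h, Ideal.mem_bot] at h1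
    have h2 : algebraMap K κ (algebraMap V K π) = 0 := by
      rw [← IsScalarTower.algebraMap_apply]
      exact congrArg Subtype.val h1
    exact hπ.ne_zero (by simpa using h2)
  let L := Localization.subalgebra.ofField κ M.primeCompl M.primeCompl_le_nonZeroDivisors
  have : IsDiscreteValuationRing L :=
    IsLocalization.AtPrime.isDiscreteValuationRing_of_dedekind_domain B hM0 L
  obtain ⟨v, h1, h2⟩ := exists_dv (K := κ) L
  have g0 : ∀ y, v.Ge 0 y → ∃ a s : B, s ∉ M ∧ y = a / s := fun y hy => by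
    obtain ⟨⟨_, a, s, hs, rfl⟩, rfl⟩ := (h1 y).1 hy
    exact ⟨a, s, hs, by rw [div_eq_mul_inv]; rfl⟩
  have g1 : ∀ a : B, v.Ge 0 (a : κ) := fun a => (h1 _).2 ⟨algebraMap B L a, rfl⟩
  have g2 : ∀ a : B, v.Ge 1 (a : κ) ↔ a ∈ M := fun a => by
    rw [← IsLocalization.AtPrime.to_map_mem_maximal_iff L M a, ← h2]
    rfl
  refine ⟨v, ⟨fun n hn => ?_, ?_, fun y hy => ?_, ?_⟩, fun y hy => g1 ⟨y, hy⟩,
    fun a ha => (g2 _).2 ((hc a).2 ha)⟩
  · refine (DV.unit_of_not_ge (DV.ge_natCast n) fun h => ?_).2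
    exact (hc n).1 ((g2 _).1 (by simpa using h)) (hQ n hn)
  · rintro _ ⟨a, rfl⟩
    exact g1 (algebraMap V B a)
  · obtain ⟨a, s, hs, e⟩ := g0 y hy
    obtain ⟨s', i, hi, e1⟩ := hM.exists_inv hs
    obtain ⟨p, p1, p2⟩ := (a * s').2
    have s0 : (s : κ) ≠ 0 := (DV.unit_of_not_ge (g1 s) fun h => hs ((g2 s).1 h)).1
    have e2 : y - (a * s' : B) = y * i := by
      have : (i : κ) = 1 - s' * s := by
        rw [eq_sub_iff_add_eq']
        exact congrArg Subtype.val e1
      rw [this, e]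
      push_cast
      field_simp
    have h3 : v.Ge 1 (y - (a * s' : B)) := e2 ▸ hy.mul_left ((g2 i).2 hi)
    refine ⟨p.map (algebraMap V κ), fun i => ⟨p.coeff i, (Polynomial.coeff_map _ _).symm⟩,
      p1.map _, ?_⟩
    rw [Polynomial.eval₂_eq_eval_map] at p2
    rw [← sub_zero (Polynomial.eval y _), ← p2, Polynomial.eval_eq_sum_range,
      Polynomial.eval_eq_sum_range, ← Finset.sum_sub_distrib]
    refine DV.Ge.sum fun i _ => ?_
    rw [← mul_sub, Polynomial.coeff_map]
    exact (g1 (algebraMap V B _)).mul_left (pow_sub hy (g1 _) h3 i)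
  · obtain ⟨T, hT⟩ := hfin.fg_top
    have h3 : ∀ b : B, (b : κ) ∈ Submodule.span (algebraMap V κ).range
        ((T.image fun b : B => (b : κ) : Finset κ) : Set κ) := fun b => by
      have hb : b ∈ Submodule.span V (T : Set B) := hT ▸ Submodule.mem_top
      induction hb using Submodule.span_induction with
      | mem x hx => exact Submodule.subset_span (by simpa using hx)
      | zero => exact zero_mem _
      | add x y _ _ hx hy => exact add_mem hx hy
      | smul a x _ hx =>
        have := Submodule.smul_mem _ ⟨algebraMap V κ a, a, rfl⟩ hx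
        rwa [Subalgebra.coe_smul, Algebra.smul_def]
    refine ⟨T.image fun b : B => (b : κ), fun t ht => ?_, fun y hy => ?_⟩
    rotate_left
    · obtain ⟨a, s, hs, e⟩ := g0 y hy
      obtain ⟨s0, s1⟩ := DV.unit_of_not_ge (g1 s) fun h => hs ((g2 s).1 h)
      exact ⟨a, h3 a, s, h3 s, s0, s1, e⟩
    · obtain ⟨b, -, rfl⟩ := Finset.mem_image.1 ht
      exact g1 b

section Conc

variable {F σ : Type} [Field F] (w : σ → ℕ)

theorem wo_nat {g : MvPowerSeries σ F} (h : g ≠ 0) :
    ((g.weightedOrder w).toNat : ℕ∞) = g.weightedOrder w :=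
  (ne_zero_iff_weightedOrder_finite w).1 h

theorem wo_mul {a b : MvPowerSeries σ F} (ha : a ≠ 0) (hb : b ≠ 0) :
    ((a * b).weightedOrder w).toNat = (a.weightedOrder w).toNat + (b.weightedOrder w).toNat := by
  rw [weightedOrder_mul, ← wo_nat w ha, ← wo_nat w hb, ← Nat.cast_add]
  rfl

theorem wo_pow {a : MvPowerSeries σ F} (ha : a ≠ 0) (n : ℕ) :
    ((a ^ n).weightedOrder w).toNat = n * (a.weightedOrder w).toNat := by
  induction n with
  | zero => simp
  | succ n ih => rw [pow_succ, wo_mul w (pow_ne_zero n ha) ha, ih]; ring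

theorem wo_le {a b : MvPowerSeries σ F} (ha : a ≠ 0) (hb : b ≠ 0) :
    b.weightedOrder w ≤ a.weightedOrder w ↔
      (b.weightedOrder w).toNat ≤ (a.weightedOrder w).toNat := by
  conv_lhs => rw [← wo_nat w ha, ← wo_nat w hb, Nat.cast_le]

open Classical in
/-- the monomial valuation -/
noncomputable def val : Valuation (MvPowerSeries σ F) (WithZero (Multiplicative ℤ)) where
  toFun g := if g = 0 then 0 else WithZero.exp (-((g.weightedOrder w).toNat : ℤ))
  map_zero' := if_pos rfl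
  map_one' := by simp
  map_mul' a b := by
    by_cases ha : a = 0
    · simp [ha]
    by_cases hb : b = 0
    · simp [hb]
    rw [if_neg ha, if_neg hb, if_neg (mul_ne_zero ha hb), wo_mul w ha hb, ← WithZero.exp_add]
    congr 1
    push_cast
    ring
  map_add_le_max' a b := by
    by_cases ha : a = 0
    · simp [ha]
    by_cases hb : b = 0
    · simp [hb]
    by_cases hab : a + b = 0
    · simp [hab]
    rw [if_neg ha, if_neg hb, if_neg hab, le_max_iff, WithZero.exp_le_exp, WithZero.exp_le_exp]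
    have := min_weightedOrder_le_add w (f := a) (g := b)
    rw [min_le_iff, wo_le w hab ha, wo_le w hab hb] at this
    omega

theorem val_ne {g : MvPowerSeries σ F} (h : g ≠ 0) :
    val w g = WithZero.exp (-((g.weightedOrder w).toNat : ℤ)) := if_neg h

theorem val_le {a b : MvPowerSeries σ F} (hb : b ≠ 0) :
    val w a ≤ val w b ↔ b.weightedOrder w ≤ a.weightedOrder w := by
  by_cases ha : a = 0
  · simp [ha]
  rw [val_ne w ha, val_ne w hb, WithZero.exp_le_exp, wo_le w ha hb]
  omega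

theorem val_lt {a b : MvPowerSeries σ F} (hb : b ≠ 0)
    (h : b.weightedOrder w < a.weightedOrder w) : val w a < val w b := by
  by_cases ha : a = 0
  · rw [ha, map_zero, val_ne w hb]
    exact WithZero.exp_pos
  exact lt_of_not_ge fun h' => absurd ((val_le w ha).1 h') (not_le.2 h)

theorem wo_X (i : σ) : (X i : MvPowerSeries σ F).weightedOrder w = w i := by
  rw [X_def, weightedOrder_monomial_of_ne_zero w one_ne_zero, Finsupp.weight_single, one_smul]

theorem X_ne (i : σ) : (X i : MvPowerSeries σ F) ≠ 0 :=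
  nonZeroDivisors.ne_zero X_mem_nonzeroDivisors

theorem conc [CharZero F] [Nonempty σ] (hw : ∀ i, 0 < w i) (S : Type) [CommRing S] [IsDomain S]
    (j : MvPowerSeries σ F →+* S) (hj : Function.Injective j) (hf : j.Finite)
    (ι : MvPowerSeries σ F →+* FractionRing S) (hι : ∀ g, ι g = algebraMap S _ (j g)) :
    ∃ (v : DV (FractionRing S)) (R : Subring (FractionRing S)), Dat v R ∧
      (∀ s : S, v.Ge 0 (algebraMap S _ s)) ∧
      (∀ x ∈ R, ∃ a b, b ≠ 0 ∧ b.weightedOrder w ≤ a.weightedOrder w ∧ x = ι a / ι b) ∧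
      (∀ a b, b ≠ 0 → b.weightedOrder w ≤ a.weightedOrder w → v.Ge 0 (ι a / ι b)) ∧
      ∀ a b, b ≠ 0 → b.weightedOrder w < a.weightedOrder w → v.Ge 1 (ι a / ι b) := by
  set A := MvPowerSeries σ F
  let := j.toAlgebra
  have : FaithfulSMul A S := (faithfulSMul_iff_algebraMap_injective A S).2 hj
  have : Module.Finite A S := hf
  let := FractionRing.liftAlgebra A (FractionRing S)
  have : FiniteDimensional (FractionRing A) (FractionRing S) :=
    .of_isLocalization A S (nonZeroDivisors A)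
  have hs : nonZeroDivisors A ≤ (val (F := F) w).supp.primeCompl := fun g hg h => by
    have h1 : val w g = 0 := h
    rw [val_ne w (nonZeroDivisors.ne_zero hg)] at h1
    exact WithZero.exp_ne_zero h1
  set u := (val (F := F) w).extendToLocalization hs (FractionRing A)
  have hu : ∀ a : A, u (algebraMap A _ a) = val w a := fun a =>
    Valuation.extendToLocalization_apply_map_apply _ _ _ a
  have hpos : ∀ b : A, b ≠ 0 → 0 < val w b := fun b hb => by
    rw [val_ne w hb]; exact WithZero.exp_pos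
  have hle : ∀ a b : A, b ≠ 0 → (algebraMap A (FractionRing A) a / algebraMap A _ b ∈
      u.valuationSubring ↔ b.weightedOrder w ≤ a.weightedOrder w) := fun a b hb => by
    rw [Valuation.mem_valuationSubring_iff, map_div₀, hu, hu, div_le_one₀ (hpos b hb),
      val_le w hb]
  have hmap : ∀ a : A, algebraMap (FractionRing A) (FractionRing S) (algebraMap A _ a) = ι a :=
    fun a => by rw [← IsScalarTower.algebraMap_apply, hι]; rfl
  have hdiv : ∀ a b : A, algebraMap (FractionRing A) (FractionRing S)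
      (algebraMap A _ a / algebraMap A _ b) = ι a / ι b := fun a b => by
    rw [map_div₀, hmap, hmap]
  have : CharZero A := algebraRat.charZero A
  have : CharZero (FractionRing A) := IsFractionRing.charZero_of_isFractionRing A
  obtain ⟨i⟩ := ‹Nonempty σ›
  have : u.IsNontrivial := ⟨algebraMap A _ (X i), by rw [hu]; exact (hpos _ (X_ne i)).ne', by
    rw [hu, ← (val (F := F) w).map_one]
    exact (val_lt w one_ne_zero (by rw [wo_X, weightedOrder_one]; exact_mod_cast hw i)).ne⟩
  obtain ⟨v, h1, h2, h3⟩ := core u.valuationSubring (FractionRing A) (FractionRing S) fun n hn => by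
    by_contra h
    have h1 : u (algebraMap A _ (n : A)) < 1 := by
      rw [map_natCast]
      simpa using (u.mem_maximalIdeal_iff).1 h
    have h2 : IsUnit (n : A) := by
      simpa using ((isUnit_iff_ne_zero (a := (n : F))).2 (by exact_mod_cast hn)).map
        (algebraMap F A)
    obtain ⟨b, hb⟩ := h2.exists_right_inv
    have h3 : val w b ≤ val w 1 := (val_le w one_ne_zero).2 (by simp)
    rw [hu] at h1
    have h4 := mul_lt_one_of_lt_of_le h1 (h3.trans_eq (map_one _))
    rw [← map_mul, hb, map_one] at h4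
    exact lt_irrefl _ h4
  refine ⟨v, _, h1, fun s => h2 _ ?_, ?_, fun a b hb h => h1.hS _ ⟨⟨_, (hle a b hb).2 h⟩, ?_⟩,
    fun a b hb h => ?_⟩
  · have hA : ∀ a : A, algebraMap A (FractionRing A) a ∈ u.valuationSubring := fun a => by
      simpa using (hle a 1 one_ne_zero).2 (by simp)
    let φ : A →+* u.valuationSubring :=
      (algebraMap A (FractionRing A)).codRestrict u.valuationSubring.toSubring hA
    obtain ⟨p, p1, p2⟩ := Algebra.IsIntegral.isIntegral (R := A) s
    refine ⟨p.map φ, p1.map φ, ?_⟩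
    have e : (algebraMap u.valuationSubring (FractionRing S)).comp φ =
        (algebraMap S (FractionRing S)).comp (algebraMap A S) :=
      RingHom.ext fun a => (hmap a).trans (hι a)
    rw [Polynomial.eval₂_map, e, ← Polynomial.hom_eval₂, p2, map_zero]
  · rintro _ ⟨⟨x, hx⟩, rfl⟩
    obtain ⟨a, b, hb, rfl⟩ := IsFractionRing.div_surjective A x
    have hb0 := nonZeroDivisors.ne_zero hb
    exact ⟨a, b, hb0, (hle a b hb0).1 hx, hdiv a b⟩
  · exact hdiv a b
  · have := h3 ⟨_, (hle a b hb).2 h.le⟩ ((u.mem_maximalIdeal_iff).2 (by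
      change u (_ / _) < 1
      rw [map_div₀, hu, hu, div_lt_one₀ (hpos b hb)]
      exact val_lt w hb h))
    exact hdiv a b ▸ this

end Conc

/-- an additive map with the Leibniz rule as a derivation -/
noncomputable def toDer {κ : Type} [CommRing κ] (D : κ →+ κ) (h : Leib D) : Derivation ℤ κ κ :=
  Derivation.mk' D.toIntLinearMap fun a b => h a b

theorem ext0 (k A κ : Type) [CommRing k] [CommRing A] [CommRing κ] [Algebra k A] [Algebra k κ]
    [Algebra A κ] [IsScalarTower k A κ] [Algebra.FormallyEtale A κ] (d₀ : A →+ κ)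
    (hk : ∀ c, d₀ (algebraMap k A c) = 0) (hl : ∀ a b, d₀ (a * b) = a • d₀ b + b • d₀ a) :
    ∃ D : κ →+ κ, Leib D ∧ ∀ a, D (algebraMap A κ a) = d₀ a := by
  let d : Derivation k A κ := Derivation.mk'
    { toFun := d₀
      map_add' := d₀.map_add
      map_smul' := fun c a => by
        rw [Algebra.smul_def, hl, hk, smul_zero, add_zero, algebraMap_smul]
        rfl } hl
  have hb := KaehlerDifferential.isBaseChange_of_formallyEtale k A κ
  let D := (hb.lift d.liftKaehlerDifferential).compDer (KaehlerDifferential.D k κ)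
  refine ⟨D.toLinearMap.toAddMonoidHom, fun a b => D.leibniz a b, fun g => ?_⟩
  change hb.lift d.liftKaehlerDifferential (KaehlerDifferential.D k κ (algebraMap A κ g)) = _
  rw [← KaehlerDifferential.map_D k k A κ, hb.lift_eq, Derivation.liftKaehlerDifferential_comp_D]
  rfl

theorem ext1 (A S : Type) [CommRing A] [IsDomain A] [CharZero A] [CommRing S] [IsDomain S]
    (j : A →+* S) (hj : Function.Injective j) (hf : j.Finite) (D₀ : A →+ A) (h : Leib D₀) :
    ∃ D : FractionRing S →+ FractionRing S, Leib D ∧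
      ∀ g, D (algebraMap S _ (j g)) = algebraMap S _ (j (D₀ g)) := by
  let := j.toAlgebra
  have : FaithfulSMul A S := (faithfulSMul_iff_algebraMap_injective A S).2 hj
  have : Module.Finite A S := hf
  have := generic A S
  refine ext0 ℤ A (FractionRing S) ((algebraMap A (FractionRing S)).toAddMonoidHom.comp D₀)
    (fun c => ?_) fun a b => ?_
  · change algebraMap A _ (toDer D₀ h (algebraMap ℤ A c)) = 0
    rw [Derivation.map_algebraMap, map_zero]
  · change algebraMap A _ (D₀ (a * b)) = _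
    rw [h, map_add, map_mul, map_mul, Algebra.smul_def, Algebra.smul_def]
    rfl

theorem coeff_eul {F σ : Type} [Field F] [Fintype σ] (w : σ → ℕ) (g : MvPowerSeries σ F)
    (α : σ →₀ ℕ) : coeff α (vf (fun i => C (w i : F) * X i) g) =
      (Finsupp.weight w α : ℕ) * coeff α g := by
  classical
  have h1 : ∀ i, coeff α (C (w i : F) * X i * pderiv F i g) = (w i : F) * (α i : F) * coeff α g := by
    intro i
    rw [mul_assoc, coeff_C_mul, mul_assoc, X_def, coeff_monomial_mul]
    congr 1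
    split_ifs with h
    · rw [one_mul, coeff_pderiv, tsub_add_cancel_of_le h]
      have h2 : 1 ≤ α i := by simpa using h
      simp only [Finsupp.coe_tsub, Pi.sub_apply, Finsupp.single_eq_same, Nat.cast_sub h2]
      push_cast
      ring
    · have h2 : α i = 0 := by simpa using h
      simp [h2]
  rw [vf_apply, map_sum]
  simp only [h1]
  rw [← Finset.sum_mul, Finsupp.weight_apply, Finsupp.sum_fintype _ _ (by simp)]
  push_cast
  simp [mul_comm]

theorem eul_lt {F σ : Type} [Field F] [Fintype σ] (w : σ → ℕ) {g : MvPowerSeries σ F} {n : ℕ}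
    (h : (n : ℕ∞) ≤ g.weightedOrder w) :
    (n : ℕ∞) < (vf (fun i => C (w i : F) * X i) g - n * g).weightedOrder w := by
  refine lt_of_lt_of_le (by exact_mod_cast n.lt_succ_self) (nat_le_weightedOrder w (n := n + 1)
    fun α hα => ?_)
  rw [map_sub, coeff_eul, ← map_natCast (C (σ := σ) (R := F)), coeff_C_mul]
  rcases (Nat.lt_succ_iff.1 hα).eq_or_lt with e | e
  · rw [e, sub_self]
  · rw [coeff_eq_zero_of_lt_weightedOrder w (lt_of_lt_of_le (by exact_mod_cast e) h)]
    simp

theorem last {F σ κ : Type} [Field F] [CharZero F] [Fintype σ] [Nonempty σ] [Field κ] (w : σ → ℕ)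
    (hw : ∀ i, 0 < w i) (ι : MvPowerSeries σ F →+* κ) (hinj : Function.Injective ι) {v : DV κ}
    {R : Subring κ} (hd : Dat v R)
    (h1 : ∀ x ∈ R, ∃ a b, b ≠ 0 ∧ b.weightedOrder w ≤ a.weightedOrder w ∧ x = ι a / ι b)
    (h2 : ∀ a b, b ≠ 0 → b.weightedOrder w ≤ a.weightedOrder w → v.Ge 0 (ι a / ι b))
    (h3 : ∀ a b, b ≠ 0 → b.weightedOrder w < a.weightedOrder w → v.Ge 1 (ι a / ι b)) :
    ∃ e m : ℕ, 0 < e ∧ 0 < m ∧
      (∀ g, g ≠ 0 → m * v.ord (ι g) = e * (g.weightedOrder w).toNat) ∧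
      (∀ (D : κ →+ κ) (D₀ : MvPowerSeries σ F →+ MvPowerSeries σ F), Leib D →
        (∀ g, D (ι g) = ι (D₀ g)) → (∀ g, g.weightedOrder w ≤ (D₀ g).weightedOrder w) →
        ∀ y, v.Ge 0 y → v.Ge 0 (D y)) ∧
      ∀ D : κ →+ κ, Leib D → (∀ g, D (ι g) = ι (vf (fun i => C (w i : F) * X i) g)) →
        ∀ y, y ≠ 0 → v.Ge 1 (D y / y - (m : κ) * (v.ord y : κ) / (e : κ)) := by
  have : CharZero (MvPowerSeries σ F) := algebraRat.charZero _
  have hne : ∀ {g}, g ≠ 0 → ι g ≠ 0 := fun h => (map_ne_zero_iff ι hinj).2 h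
  have : CharZero κ := RingHom.charZero_iff hinj |>.1 inferInstance
  obtain ⟨i⟩ := ‹Nonempty σ›
  have ht : ι (X i) ≠ 0 := hne (X_ne i)
  have he : 1 ≤ v.ord (ι (X i)) := by
    have := h3 (X i) 1 one_ne_zero (by rw [wo_X, weightedOrder_one]; exact_mod_cast hw i)
    rw [map_one, div_one] at this
    exact this.le ht
  have hq : ∀ (D : Derivation ℤ κ κ) (a b a' b' : _) (n : ℕ),
      b ≠ 0 → D (ι a) = ι a' → D (ι b) = ι b' →
      D (ι a / ι b) = ι (a' - n * a) / ι b - ι a / ι b * (ι (b' - n * b) / ι b) := by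
    intro D a b a' b' n hb ea eb
    have := hne hb
    rw [D.leibniz_div, ea, eb]
    simp only [smul_eq_mul, map_sub, map_mul, map_natCast]
    field_simp
    ring
  have pres : ∀ (D : Derivation ℤ κ κ)
      (D₀ : MvPowerSeries σ F → MvPowerSeries σ F), (∀ g, D (ι g) = ι (D₀ g)) →
      (∀ g, g.weightedOrder w ≤ (D₀ g).weightedOrder w) →
      (∀ y, v.Ge 0 y → v.Ge 0 (D y)) ∧ ∀ y, v.Ge 1 y → v.Ge 1 (D y) := fun D D₀ hc hw' => by
    refine main D hd (fun x hx => ?_) ht (by omega) (by rw [hc]; exact h2 _ _ (X_ne i) (hw' _))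
    obtain ⟨a, b, hb, hab, rfl⟩ := h1 x hx
    rw [hq D a b _ _ 0 hb (hc a) (hc b)]
    simp only [Nat.cast_zero, zero_mul, sub_zero]
    exact (h2 _ _ hb (hab.trans (hw' a))).sub ((h2 _ _ hb hab).mul_left (h2 _ _ hb (hw' b)))
  obtain ⟨e, he'⟩ := Int.eq_ofNat_of_zero_le (zero_le_one.trans he)
  refine ⟨e, w i, by omega, hw i, fun g hg => ?_,
    fun D D₀ hD hc hw' => (pres (toDer D hD) D₀ hc hw').1, fun D hD hc y hy => ?_⟩
  · have a0 := pow_ne_zero (w i) hg
    have b0 := pow_ne_zero (g.weightedOrder w).toNat (X_ne (F := F) i)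
    have e1 : ((g ^ w i).weightedOrder w).toNat =
        ((X i ^ (g.weightedOrder w).toNat : MvPowerSeries σ F).weightedOrder w).toNat := by
      rw [wo_pow w hg, wo_pow w (X_ne i), wo_X, ENat.toNat_natCast, mul_comm]
    have k1 := (h2 _ _ a0 ((wo_le w b0 a0).2 e1.le)).le (div_ne_zero (hne b0) (hne a0))
    have k2 := (h2 _ _ b0 ((wo_le w a0 b0).2 e1.ge)).le (div_ne_zero (hne a0) (hne b0))
    rw [v.ord_div (hne b0) (hne a0), map_pow, map_pow, v.ord_pow ht, v.ord_pow (hne hg), he'] at k1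
    rw [v.ord_div (hne a0) (hne b0), map_pow, map_pow, v.ord_pow ht, v.ord_pow (hne hg), he'] at k2
    linarith
  · set E := vf (F := F) fun i => C (w i : F) * X i
    have hc' : ∀ g, toDer D hD (ι g) = ι (E g) := hc
    have hE : ∀ g, g.weightedOrder w ≤ (E g).weightedOrder w := fun g =>
      le_weightedOrder w fun α hα => by
        rw [coeff_eul, coeff_eq_zero_of_lt_weightedOrder w hα, mul_zero]
    have k1 := res (toDer D hD) hd (k := 1) (fun x hx => ?_) (pres _ _ hc' hE).2
    · have k2 := lg (toDer D hD) k1 ht hy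
      have e1 : toDer D hD (ι (X i)) / ι (X i) = w i := by
        rw [hc', vf_X, map_natCast, map_mul, map_natCast, mul_div_cancel_right₀ _ ht]
      have e0 : (e : κ) ≠ 0 := by exact_mod_cast (by omega : e ≠ 0)
      refine ge_inv hd.hQ (n := e) (by omega) ?_
      convert k2 using 1
      rw [e1, he']
      change _ = _ * (D y / y) - _
      push_cast
      field_simp
    · obtain ⟨a, b, hb, hab, rfl⟩ := h1 x hx
      rw [hq _ a b _ _ (b.weightedOrder w).toNat hb (hc' a) (hc' b)]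
      refine (h3 _ _ hb ?_).sub ((h2 _ _ hb hab).mul_left (h3 _ _ hb ?_))
      · exact (wo_nat w hb).symm.trans_lt (eul_lt w ((wo_nat w hb).trans_le hab))
      · exact (wo_nat w hb).symm.trans_lt (eul_lt w (wo_nat w hb).le)

end EXTV

open EXTV in
theorem extv : S_EXTV := by
  intro F σ S _ _ _ _ _ _ j hj hf w hw
  have : CharZero (MvPowerSeries σ F) := algebraRat.charZero _
  have : IsDomain (MvPowerSeries σ F) := NoZeroDivisors.to_isDomain _
  refine ⟨ext1 _ S j hj hf, ?_⟩
  obtain ⟨v, R, hd, h0, h1, h2, h3⟩ := conc w hw S j hj hf ((algebraMap S _).comp j) fun _ => rfl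
  obtain ⟨e, m, k1, k2, k3⟩ := last w hw _ ((IsFractionRing.injective S _).comp hj) hd h1 h2 h3
  exact ⟨v, e, m, k1, k2, h0, k3⟩

end Pool.Agent.MP_51db15_ag.Hy
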