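import Pool.Agent.MP_51db15_ag.Hy.Rows
import Pool.Agent.MP_51db15_ag.Hy.Base

/-! The symplectic form on tangent fields. -/

namespace Pool.Agent.MP_51db15_ag.Hy

open MvPowerSeries Matrix

namespace FORM

variable {ι : Type} [Fintype ι] {f : PS ι}

theorem log_add {x y : ι → PS ι} (hx : Log f x) (hy : Log f y) : Log f (x + y) := by
  unfold Log
  rw [vf_add]
  exact dvd_add hx hy

theorem log_smul (g : PS ι) {x : ι → PS ι} (hx : Log f x) : Log f (g • x) := by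
  unfold Log
  rw [vf_smul]
  exact Dvd.dvd.mul_left hx g

theorem log_lie {x y : ι → PS ι} (hx : Log f x) (hy : Log f y) : Log f (lie x y) := by
  unfold Log
  rw [vf_lie]
  exact dvd_sub (vf_dvd hx hy) (vf_dvd hy hx)

theorem log_zero : Log f (0 : ι → PS ι) := by
  unfold Log
  rw [vf_zero]
  exact dvd_zero _

theorem lie_add (x x' y : ι → PS ι) : lie (x + x') y = lie x y + lie x' y := by
  funext k
  simp only [lie, vf_add, Pi.add_apply, map_add]
  ring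

theorem lie_smul (g : PS ι) (x y : ι → PS ι) :
    lie (g • x) y = g • lie x y + (-vf y g) • x := by
  funext k
  simp only [lie, vf_smul, Pi.add_apply, Pi.smul_apply, smul_eq_mul, vf_mul]
  ring

theorem lie_swap (x y : ι → PS ι) : lie y x = (-1 : PS ι) • lie x y := by
  funext k
  simp only [lie, Pi.smul_apply, smul_eq_mul]
  ring

theorem lie_cong {x x' y : ι → PS ι} (hy : Log f y) (h : ∀ k, f ∣ x k - x' k) (k : ι) :
    f ∣ lie x y k - lie x' y k := by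
  obtain ⟨a, ha⟩ := vf_congr h (y k)
  obtain ⟨b, hb⟩ := vf_dvd hy (h k)
  rw [map_sub] at hb
  exact ⟨a - b, by simp only [lie]; linear_combination ha - hb⟩

/-- the Cartan expression -/
noncomputable def car (r : (ι → PS ι) → (ι → PS ι) → PS ι) (x y z : ι → PS ι) : PS ι :=
  vf x (r y z) - vf y (r x z) + vf z (r x y) - r (lie x y) z + r (lie x z) y - r (lie y z) x

variable {r : (ι → PS ι) → (ι → PS ι) → PS ι}

theorem car_cyc (h : IsForm f r) {x y z : ι → PS ι} (hx : Log f x) (hy : Log f y) (hz : Log f z)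
    (H : f ∣ car r y z x) : f ∣ car r x y z := by
  obtain ⟨a0, h0⟩ := H
  obtain ⟨a1, h1⟩ := vf_dvd hy (h.skew x z hx hz)
  obtain ⟨a2, h2⟩ := vf_dvd hz (h.skew x y hx hy)
  obtain ⟨a3, h3⟩ := h.smul (-1) _ z (log_lie hx hy) hz
  obtain ⟨a4, h4⟩ := h.smul (-1) _ y (log_lie hx hz) hy
  rw [map_add] at h1 h2
  rw [← lie_swap] at h3 h4
  refine ⟨a0 - a1 + a2 - a3 + a4, ?_⟩
  simp only [car] at h0 ⊢
  linear_combination h0 - h1 + h2 - h3 + h4

theorem car_add (h : IsForm f r) {x x' y z : ι → PS ι} (hx : Log f x) (hx' : Log f x')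
    (hy : Log f y) (hz : Log f z) (H : f ∣ car r x y z) (H' : f ∣ car r x' y z) :
    f ∣ car r (x + x') y z := by
  obtain ⟨a0, h0⟩ := H
  obtain ⟨b0, k0⟩ := H'
  have hl := log_lie hy hz
  obtain ⟨a1, h1⟩ := vf_dvd hy (h.add x x' z hx hx' hz)
  obtain ⟨a2, h2⟩ := vf_dvd hz (h.add x x' y hx hx' hy)
  obtain ⟨a3, h3⟩ := h.add _ _ z (log_lie hx hy) (log_lie hx' hy) hz
  obtain ⟨a4, h4⟩ := h.add _ _ y (log_lie hx hz) (log_lie hx' hz) hy
  obtain ⟨a5, h5⟩ := h.add x x' _ hx hx' hl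
  obtain ⟨a6, h6⟩ := h.skew _ _ (log_add hx hx') hl
  obtain ⟨a7, h7⟩ := h.skew _ _ hx hl
  obtain ⟨a8, h8⟩ := h.skew _ _ hx' hl
  rw [map_sub, map_sub] at h1 h2
  refine ⟨a0 + b0 - a1 + a2 - a3 + a4 + a5 - a6 + a7 + a8, ?_⟩
  simp only [car, lie_add, vf_add] at h0 k0 ⊢
  linear_combination h0 + k0 - h1 + h2 - h3 + h4 + h5 - h6 + h7 + h8

theorem car_smul (h : IsForm f r) (g : PS ι) {x y z : ι → PS ι} (hx : Log f x)
    (hy : Log f y) (hz : Log f z) : f ∣ car r (g • x) y z - g * car r x y z := by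
  have hl := log_lie hy hz
  obtain ⟨a1, h1⟩ := vf_dvd hy (h.smul g x z hx hz)
  obtain ⟨a2, h2⟩ := vf_dvd hz (h.smul g x y hx hy)
  obtain ⟨a3, h3⟩ := h.add _ _ z (log_smul g (log_lie hx hy)) (log_smul (-vf y g) hx) hz
  obtain ⟨a4, h4⟩ := h.add _ _ y (log_smul g (log_lie hx hz)) (log_smul (-vf z g) hx) hy
  obtain ⟨b3, k3⟩ := h.smul g _ z (log_lie hx hy) hz
  obtain ⟨c3, l3⟩ := h.smul (-vf y g) _ z hx hz
  obtain ⟨b4, k4⟩ := h.smul g _ y (log_lie hx hz) hy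
  obtain ⟨c4, l4⟩ := h.smul (-vf z g) _ y hx hy
  obtain ⟨a5, h5⟩ := h.smul g x _ hx hl
  obtain ⟨a6, h6⟩ := h.skew _ _ (log_smul g hx) hl
  obtain ⟨a7, h7⟩ := h.skew _ _ hx hl
  rw [map_sub, vf_mul] at h1 h2
  refine ⟨-a1 + a2 - a3 - b3 - c3 + a4 + b4 + c4 + a5 - a6 + g * a7, ?_⟩
  simp only [car, lie_smul, vf_smul]
  linear_combination -h1 + h2 - h3 - k3 - l3 + h4 + k4 + l4 + h5 - h6 + g * h7

theorem car_cong (h : IsForm f r) {x x' y z : ι → PS ι} (hx : Log f x) (hx' : Log f x')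
    (hy : Log f y) (hz : Log f z) (e : ∀ k, f ∣ x k - x' k) (H : f ∣ car r x' y z) :
    f ∣ car r x y z := by
  obtain ⟨a0, h0⟩ := H
  have hl := log_lie hy hz
  obtain ⟨b1, k1⟩ := vf_congr e (r y z)
  obtain ⟨a1, h1⟩ := vf_dvd hy (h.cong x x' z hx hx' hz e)
  obtain ⟨a2, h2⟩ := vf_dvd hz (h.cong x x' y hx hx' hy e)
  obtain ⟨a3, h3⟩ := h.cong _ _ z (log_lie hx hy) (log_lie hx' hy) hz (lie_cong hy e)
  obtain ⟨a4, h4⟩ := h.cong _ _ y (log_lie hx hz) (log_lie hx' hz) hy (lie_cong hz e)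
  obtain ⟨a5, h5⟩ := h.cong x x' _ hx hx' hl e
  obtain ⟨a6, h6⟩ := h.skew _ _ hx hl
  obtain ⟨a7, h7⟩ := h.skew _ _ hx' hl
  rw [map_sub] at h1 h2
  refine ⟨a0 + b1 - a1 + a2 - a3 + a4 + a5 - a6 + a7, ?_⟩
  simp only [car] at h0 ⊢
  linear_combination h0 + k1 - h1 + h2 - h3 + h4 + h5 - h6 + h7

theorem car_sum (h : IsForm f r) {S : Type} (T : Finset S) (η : S → PS ι) (v : S → ι → PS ι)
    {y z : ι → PS ι} (hy : Log f y) (hz : Log f z) (hv : ∀ i, Log f (v i))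
    (H : ∀ i, f ∣ car r (v i) y z) :
    Log f (∑ i ∈ T, η i • v i) ∧ f ∣ car r (∑ i ∈ T, η i • v i) y z := by
  refine Finset.sum_induction _ (fun x => Log f x ∧ f ∣ car r x y z) ?_ ?_ ?_
  · intro a b ha hb
    exact ⟨log_add ha.1 hb.1, car_add h ha.1 hb.1 hy hz ha.2 hb.2⟩
  · refine ⟨log_zero, ?_⟩
    simpa using car_smul h 0 (x := 0) log_zero hy hz
  · intro i _
    refine ⟨log_smul _ (hv i), ?_⟩
    simpa using dvd_add (car_smul h (η i) (hv i) hy hz) ((H i).mul_left (η i))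

/-- it is enough to test the Cartan expression on generically generating fields -/
theorem car_gen (hf : Prime f) (h : IsForm f r) (v : ι → ι → PS ι) (hv : ∀ i, Log f (v i))
    {s : PS ι} (hs : ¬ f ∣ s)
    (hg : ∀ x, Log f x → ∃ η : ι → PS ι, ∀ k, f ∣ s * x k - ∑ i, η i * v i k)
    {x y z : ι → PS ι} (hx : Log f x) (hy : Log f y) (hz : Log f z)
    (H : ∀ i, f ∣ car r (v i) y z) : f ∣ car r x y z := by
  obtain ⟨η, hη⟩ := hg x hx
  obtain ⟨h1, h2⟩ := car_sum h Finset.univ η v hy hz hv H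
  have h3 : f ∣ car r (s • x) y z :=
    car_cong h (log_smul s hx) h1 hy hz (fun k => by simpa [Finset.sum_apply] using hη k) h2
  have h4 : f ∣ s * car r x y z := by
    simpa using dvd_sub h3 (car_smul h s hx hy hz)
  exact (hf.dvd_or_dvd h4).resolve_left hs

variable [DecidableEq ι] {Θ : Matrix ι ι (PS ι)}

theorem skew_apply (hP : Poi f Θ) (i j : ι) : Θ j i = -Θ i j := by
  simpa using congrFun (congrFun hP.skew i) j

theorem car_rows (hP : Poi f Θ) (h : IsForm f r) (hH : Ham f r Θ) (i j k : ι) :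
    f ∣ car r (Θ i) (Θ j) (Θ k) := by
  have t := hP.tang
  obtain ⟨a0, h0⟩ := hP.jac i j k
  obtain ⟨a1, h1⟩ := vf_dvd (t i) ((hH j).2 _ (t k))
  obtain ⟨a2, h2⟩ := vf_dvd (t j) ((hH i).2 _ (t k))
  obtain ⟨a3, h3⟩ := vf_dvd (t k) ((hH i).2 _ (t j))
  obtain ⟨a4, h4⟩ := h.skew _ _ (log_lie (t i) (t j)) (t k)
  obtain ⟨a5, h5⟩ := h.skew _ _ (log_lie (t i) (t k)) (t j)
  obtain ⟨a6, h6⟩ := h.skew _ _ (log_lie (t j) (t k)) (t i)
  obtain ⟨b4, k4⟩ := (hH k).2 _ (log_lie (t i) (t j))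
  obtain ⟨b5, k5⟩ := (hH j).2 _ (log_lie (t i) (t k))
  obtain ⟨b6, k6⟩ := (hH i).2 _ (log_lie (t j) (t k))
  have e : vf (Θ j) (Θ i k) = -vf (Θ j) (Θ k i) := by rw [skew_apply hP k i, map_neg]
  rw [map_sub] at h1 h2 h3
  have k4' : r (Θ k) (lie (Θ i) (Θ j)) - (vf (Θ i) (Θ j k) - vf (Θ j) (Θ i k)) = f * b4 := k4
  have k5' : r (Θ j) (lie (Θ i) (Θ k)) - (vf (Θ i) (Θ k j) - vf (Θ k) (Θ i j)) = f * b5 := k5
  have k6' : r (Θ i) (lie (Θ j) (Θ k)) - (vf (Θ j) (Θ k i) - vf (Θ k) (Θ j i)) = f * b6 := k6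
  refine ⟨a0 + a1 - a2 + a3 - a4 + a5 - a6 + b4 - b5 + b6, ?_⟩
  simp only [car]
  linear_combination h0 + h1 - h2 + h3 - h4 + h5 - h6 + k4' - k5' + k6' - e

/-- the two pairings through the bivector are opposite -/
theorem pair_skew (hP : Poi f Θ) (η ζ : ι → PS ι) :
    ∑ k, η k * ∑ i, ζ i * Θ i k = -∑ k, ζ k * ∑ i, η i * Θ i k := by
  simp only [Finset.mul_sum]
  rw [Finset.sum_comm, ← Finset.sum_neg_distrib]
  refine Finset.sum_congr rfl fun a _ => ?_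
  rw [← Finset.sum_neg_distrib]
  refine Finset.sum_congr rfl fun b _ => ?_
  rw [skew_apply hP b a]
  ring

omit [DecidableEq ι] in
theorem pair_cong {s : PS ι} {y w : ι → PS ι} (η : ι → PS ι) (h : ∀ k, f ∣ s * y k - w k) :
    f ∣ s * ∑ k, η k * y k - ∑ k, η k * w k := by
  rw [Finset.mul_sum, ← Finset.sum_sub_distrib]
  refine Finset.dvd_sum fun k _ => ?_
  obtain ⟨a, ha⟩ := h k
  exact ⟨η k * a, by linear_combination η k * ha⟩

/-- independence of the representation -/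
theorem indep (hf : Prime f) (hP : Poi f Θ) {s₀ : PS ι} (hs : ¬ f ∣ s₀)
    (hg : ∀ x, Log f x → ∃ η : ι → PS ι, ∀ k, f ∣ s₀ * x k - ∑ i, η i * Θ i k)
    {x y η η' : ι → PS ι} {s s' : PS ι} (hy : Log f y)
    (h : ∀ k, f ∣ s * x k - ∑ i, η i * Θ i k) (h' : ∀ k, f ∣ s' * x k - ∑ i, η' i * Θ i k) :
    f ∣ s' * ∑ k, η k * y k - s * ∑ k, η' k * y k := by
  obtain ⟨ζ, hζ⟩ := hg y hy
  obtain ⟨a1, h1⟩ := pair_cong η hζ
  obtain ⟨a2, h2⟩ := pair_cong η' hζ
  obtain ⟨a3, h3⟩ := pair_cong ζ h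
  obtain ⟨a4, h4⟩ := pair_cong ζ h'
  have h5 := pair_skew hP η ζ
  have h6 := pair_skew hP η' ζ
  refine (hf.dvd_or_dvd (a := s₀) ⟨s' * a1 - s * a2 + s' * a3 - s * a4, ?_⟩).resolve_left hs
  linear_combination s' * h1 - s * h2 + s' * h3 - s * h4 + s' * h5 - s * h6

/-- a representation with a power of a partial derivative as denominator -/
theorem rep (hP : Poi f Θ) {γ : PS ι}
    (hγ : ∀ i j, f ∣ Θ.adjugate i j - γ * (pderiv ℂ i f * pderiv ℂ j f)) (i : ι) {x : ι → PS ι}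
    (hx : Log f x) :
    ∃ η : ι → PS ι, ∀ k, f ∣ γ * pderiv ℂ i f ^ 3 * x k - ∑ j, η j * Θ j k := by
  set M := Θ.updateRow i (Pi.single i 1) with hM
  have hd : Θ.adjugate i i = M.det := adjugate_apply _ _ _
  set ζ := x ᵥ* M.adjugate with hζ
  have h1 : ζ ᵥ* M = M.det • x := by
    rw [hζ, vecMul_vecMul, adjugate_mul, vecMul_smul, vecMul_one]
  have h2 : ∀ k, ∑ j, Function.update ζ i 0 j * Θ j k =
      M.det * x k - ζ i * (Pi.single i 1 : ι → PS ι) k := by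
    intro k
    have h3 := congrFun h1 k
    simp only [vecMul, dotProduct, Pi.smul_apply, smul_eq_mul] at h3
    rw [← h3, ← Finset.add_sum_erase _ _ (Finset.mem_univ i),
      ← Finset.add_sum_erase _ _ (Finset.mem_univ i), Function.update_self, zero_mul, zero_add,
      hM, updateRow_self, add_sub_cancel_left]
    refine Finset.sum_congr rfl fun j hj => ?_
    rw [Function.update_of_ne (Finset.ne_of_mem_erase hj), updateRow_ne (Finset.ne_of_mem_erase hj)]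
  have h4 : f ∣ ζ i * pderiv ℂ i f := by
    have h5 : f ∣ vf (∑ j, Function.update ζ i 0 j • Θ j) f := by
      rw [vf_sum]
      exact Finset.dvd_sum fun j _ => log_smul _ (hP.tang j)
    have h6 : (∑ j, Function.update ζ i 0 j • Θ j) =
        M.det • x - ζ i • (Pi.single i 1 : ι → PS ι) := by
      funext k
      simpa [Finset.sum_apply] using h2 k
    rw [h6, vf_sub, vf_smul, vf_smul, vf_single, one_mul] at h5
    simpa using dvd_sub (Dvd.dvd.mul_left hx M.det) h5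
  refine ⟨fun j => pderiv ℂ i f * Function.update ζ i 0 j, fun k => ?_⟩
  obtain ⟨a, ha⟩ := hγ i i
  obtain ⟨b, hb⟩ := h4
  have h7 : ∑ j, pderiv ℂ i f * Function.update ζ i 0 j * Θ j k =
      pderiv ℂ i f * (M.det * x k - ζ i * (Pi.single i 1 : ι → PS ι) k) := by
    rw [← h2, Finset.mul_sum]
    simp only [mul_assoc]
  rw [h7, ← hd]
  exact ⟨b * (Pi.single i 1 : ι → PS ι) k - pderiv ℂ i f * x k * a, by
    linear_combination (Pi.single i 1 : ι → PS ι) k * hb - pderiv ℂ i f * x k * ha⟩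

end FORM

open FORM

theorem form (hart : S_HART) (kae : S_KAE) : S_FORM := by
  intro ι _ _ f Θ hf hP
  obtain ⟨s₀, hs, hg⟩ := (kae ι f Θ hf.1 hP).1
  obtain ⟨γ, hu, hγ⟩ := hP.nd
  obtain ⟨δ, hδ⟩ := hu.exists_left_inv
  have ex : ∀ x y : ι → PS ι, ∃ ρ : PS ι, Log f x → Log f y → ∀ (s : PS ι) (η : ι → PS ι),
      (∀ k, f ∣ s * x k - ∑ i, η i * Θ i k) → f ∣ s * ρ - ∑ k, η k * y k := by
    intro x y
    by_cases hxy : Log f x ∧ Log f y
    swap
    · exact ⟨0, fun hx hy => absurd ⟨hx, hy⟩ hxy⟩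
    obtain ⟨hx, hy⟩ := hxy
    obtain ⟨η₀, h0⟩ := hg x hx
    obtain ⟨ρ, a, ha⟩ := hart ι f s₀ (∑ k, η₀ k * y k) 3 hf hs fun i => by
      obtain ⟨η, hη⟩ := rep hP hγ i hx
      obtain ⟨a, ha⟩ := indep hf.1 hP hs hg hy h0 hη
      exact ⟨δ * ∑ k, η k * y k, δ * a, by
        linear_combination δ * ha - (pderiv ℂ i f ^ 3 * ∑ k, η₀ k * y k) * hδ⟩
    refine ⟨ρ, fun _ _ s η hη => ?_⟩
    obtain ⟨b, hb⟩ := indep hf.1 hP hs hg hy h0 hη
    exact (hf.1.dvd_or_dvd (a := s₀) ⟨b - s * a, by linear_combination hb - s * ha⟩).resolve_left hs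
  choose r hr using ex
  have cancel : ∀ g, f ∣ s₀ * g → f ∣ g := fun g h => (hf.1.dvd_or_dvd h).resolve_left hs
  have hF : IsForm f r := by
    refine ⟨fun x x' y hx hx' hy e => ?_, fun x x' y hx hx' hy => ?_, fun g x y hx hy => ?_,
      fun x y hx hy => ?_⟩
    · obtain ⟨η, hη⟩ := hg x hx
      obtain ⟨a, ha⟩ := hr x y hx hy s₀ η hη
      obtain ⟨b, hb⟩ := hr x' y hx' hy s₀ η fun k => by
        obtain ⟨c, hc⟩ := hη k
        obtain ⟨d, hd⟩ := e k
        exact ⟨c - s₀ * d, by linear_combination hc - s₀ * hd⟩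
      exact cancel _ ⟨a - b, by linear_combination ha - hb⟩
    · obtain ⟨η, hη⟩ := hg x hx
      obtain ⟨η', hη'⟩ := hg x' hx'
      obtain ⟨a, ha⟩ := hr x y hx hy s₀ η hη
      obtain ⟨b, hb⟩ := hr x' y hx' hy s₀ η' hη'
      obtain ⟨c, hc⟩ := hr (x + x') y (log_add hx hx') hy s₀ (η + η') fun k => by
        obtain ⟨c, hc⟩ := hη k
        obtain ⟨d, hd⟩ := hη' k
        simp only [Pi.add_apply, add_mul, Finset.sum_add_distrib]
        exact ⟨c + d, by linear_combination hc + hd⟩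
      simp only [Pi.add_apply, add_mul, Finset.sum_add_distrib] at hc
      exact cancel _ ⟨c - a - b, by linear_combination hc - ha - hb⟩
    · obtain ⟨η, hη⟩ := hg x hx
      obtain ⟨a, ha⟩ := hr x y hx hy s₀ η hη
      obtain ⟨c, hc⟩ := hr (g • x) y (log_smul g hx) hy s₀ (g • η) fun k => by
        obtain ⟨c, hc⟩ := hη k
        simp only [Pi.smul_apply, smul_eq_mul, mul_assoc, ← Finset.mul_sum]
        exact ⟨g * c, by linear_combination g * hc⟩
      simp only [Pi.smul_apply, smul_eq_mul, mul_assoc, ← Finset.mul_sum] at hc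
      exact cancel _ ⟨c - g * a, by linear_combination hc - g * ha⟩
    · obtain ⟨η, hη⟩ := hg x hx
      obtain ⟨ζ, hζ⟩ := hg y hy
      obtain ⟨a, ha⟩ := hr x y hx hy s₀ η hη
      obtain ⟨b, hb⟩ := hr y x hy hx s₀ ζ hζ
      obtain ⟨c, hc⟩ := pair_cong η hζ
      obtain ⟨d, hd⟩ := pair_cong ζ hη
      have e := pair_skew hP η ζ
      exact cancel _ (cancel _ ⟨s₀ * a + s₀ * b + c + d, by
        linear_combination s₀ * ha + s₀ * hb + hc + hd + e⟩)
  have hH : Ham f r Θ := fun i => ⟨hP.tang i, fun y hy => by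
    simpa [Pi.single_apply] using
      hr (Θ i) y (hP.tang i) hy 1 (Pi.single i 1) fun k => by simp [Pi.single_apply]⟩
  refine ⟨r, hF, fun x y z hx hy hz => ?_, hH⟩
  have t := hP.tang
  have G := fun {x y z : ι → PS ι} => car_gen (x := x) (y := y) (z := z) hf.1 hF Θ t hs hg
  refine G hx hy hz fun i => car_cyc hF (t i) hy hz ?_
  refine G hy hz (t i) fun j => car_cyc hF (t j) hz (t i) ?_
  exact G hz (t i) (t j) fun k => car_rows hP hF hH k i j

end Pool.Agent.MP_51db15_ag.Hy
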