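import Pool.Agent.MP_51db15_ag.Hy.Rows
import Pool.Agent.MP_51db15_ag.Hy.Base

/-! Assembly of the parts. -/

namespace Pool.Agent.MP_51db15_ag.Hy

open MvPowerSeries Matrix

namespace Glue

variable {ι : Type} [Fintype ι] [DecidableEq ι]

theorem vf_eul_one {a : ι → ℚ} {f : PS ι} (h : IsHom a 1 f) : vf (eul a) f = f := by
  rw [vf_eul h]; simp

theorem log_van {f : PS ι} {Θ : Matrix ι ι (PS ι)} {b χ : ι → PS ι} (hΘ : Van Θ)
    (hχ : ∀ i, constantCoeff (χ i) = 0) (hf : vf χ f = f) (hB : BEData f (thp Θ b χ))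
    {x : ι → PS ι} (hx : Log f x) (i : ι) : constantCoeff (x i) = 0 := by
  obtain ⟨l, hl⟩ := hx
  obtain ⟨η, hη⟩ := hB.z1 (x - l • χ) (by rw [vf_sub, vf_smul, hf, hl]; ring)
  have h1 : x i = l * χ i + (thp Θ b χ *ᵥ η) i := by
    rw [← hη]; simp
  rw [h1, map_add, map_mul, hχ, mul_zero, zero_add, mulVec, dotProduct, map_sum]
  refine Finset.sum_eq_zero fun j _ => ?_
  simp [thp, hΘ i j, hχ]

theorem isHom_scale {a : ι → ℚ} {e : ℚ} {g : PS ι} (h : IsHom a e g) (t : ℚ) :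
    IsHom (fun i => t * a i) (t * e) g :=
  h.map (AddMonoidHom.mulLeft t)

theorem grd_scale {a : ι → ℚ} {c d : ℚ} {f : PS ι} {Θ : Matrix ι ι (PS ι)} (h : Grd a c d f Θ)
    (t : ℚ) : Grd (fun i => t * a i) (t * c) (t * d) f Θ :=
  ⟨isHom_scale h.1 t, fun i j => (isHom_scale (h.2 i j) t).congr (by ring)⟩

theorem grd_add {a a' : ι → ℚ} {c d c' d' : ℚ} {f : PS ι} {Θ : Matrix ι ι (PS ι)}
    (h : Grd a c d f Θ) (h' : Grd a' c' d' f Θ) :
    Grd (fun i => a i + a' i) (c + c') (d + d') f Θ :=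
  ⟨h.1.add_weight h'.1, fun i j => ((h.2 i j).add_weight (h'.2 i j)).congr (by ring)⟩

/-- positive rational weights give a conical structure -/
theorem con_of_pos {f : PS ι} {Θ : Matrix ι ι (PS ι)} {a : ι → ℚ} {d : ℚ} (hf : Prime f)
    (hP : Poi f Θ) (hW : WExt f Θ) (hG : Grd a 1 d f Θ) (ha : ∀ i, 0 < a i) : Con f := by
  let m : ℕ := ∏ i, (a i).den
  have hm : 0 < m := Finset.prod_pos fun i _ => (a i).den_pos
  have h1 : ∀ i, ∃ n : ℕ, (n : ℚ) = m * a i := fun i => by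
    obtain ⟨k, hk⟩ : (a i).den ∣ m := Finset.dvd_prod_of_mem _ (Finset.mem_univ i)
    refine ⟨k * (a i).num.toNat, ?_⟩
    have h2 : (((a i).num.toNat : ℕ) : ℚ) = (a i).num := by
      exact_mod_cast Int.toNat_of_nonneg (Rat.num_pos.2 (ha i)).le
    rw [hk]
    push_cast
    rw [h2, mul_comm ((a i).den : ℚ), mul_assoc, Rat.den_mul_eq_num]
  choose n hn using h1
  have hG' := grd_scale hG m
  simp only [← hn, mul_one] at hG'
  obtain ⟨α, hα⟩ : ∃ α, coeff α f ≠ 0 := by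
    by_contra hc
    push Not at hc
    exact hf.ne_zero (MvPowerSeries.ext fun α => by simp [hc])
  have hd : ((Finsupp.weight n α : ℕ) : ℚ) = m * d := by
    rw [← hG'.1 α hα, Finsupp.weight_apply, Finsupp.weight_apply, Finsupp.sum, Finsupp.sum]
    push_cast
    simp
  have hn0 : ∀ i, 0 < n i := fun i => by
    have : (0 : ℚ) < n i := by rw [hn]; exact mul_pos (by exact_mod_cast hm) (ha i)
    exact_mod_cast this
  have hd0 : Finsupp.weight n α ≠ 0 := by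
    intro h0
    have : α = 0 := by
      rw [Finsupp.weight_apply, Finsupp.sum, Finset.sum_eq_zero_iff] at h0
      ext i
      by_contra hi
      have := h0 i (Finsupp.mem_support_iff.2 hi)
      rw [smul_eq_mul, mul_eq_zero] at this
      exact this.elim hi (hn0 i).ne'
    exact hα (by rw [this]; simpa using Prime.constantCoeff hf)
  rw [← hd] at hG'
  refine ⟨AlgEquiv.refl, 1, f, Θ, n, m, _, by simp, hn0, hm, hP, hG', hW _
    ⟨constantCoeff_eul _, _, ?_, vf_eul hG'.1⟩⟩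
  rw [isUnit_iff']
  simpa using hd0

end Glue

open Glue

theorem a4 (pi : S_PI) (be2 : S_BE2) (form : S_FORM) (poi : S_POI) (a4e : S_A4E) (a4h : S_A4H)
    (a4g : S_A4G) (a4w : S_A4W) : S_A4 := by
  intro ι _ _ f Θ a hf hP hE hV hS ha
  obtain ⟨π, g, b, hπ⟩ := pi ι f Θ hf hP
  have hχ := vf_eul_one ha
  have hB := be2 ι f Θ π g b (eul a) hf hπ (constantCoeff_eul a) hχ
  obtain ⟨r, hr, hc, hH⟩ := form ι f Θ hf hP
  obtain ⟨e, η, h, hη, hηc, hC, hSt, hu⟩ := a4e ι f Θ b a r hf.1 hP hV hS ha hB hr hc hH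
  obtain ⟨Θ₁, h₁⟩ := a4h ι f Θ b (eul a) r η h hf.1 hP hV (constantCoeff_eul a) hχ hB hr hH hη
    hSt hu
  obtain ⟨Θ', hs, hH', hG⟩ := a4g ι f Θ₁ a 1 e r η ha hr hη hC h₁
  exact ⟨e, Θ', poi ι f Θ' η hf hη hηc hs hH', hG,
    a4w ι f Θ Θ' b (eul a) η h hf.1 hP hE hV hχ hB hη hSt hH',
    fun i j => log_van hV (constantCoeff_eul a) hχ hB (hH' i).1 j⟩

theorem liou (p3 : S_P3) (pi : S_PI) (unm : S_UNM) (rel : S_REL) (relx : S_RELX) (a1 : S_A1)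
    (a2 : S_A2) (jord2 : S_JORD2) (jord1 : S_JORD1) (a4 : S_A4) (c0 : S_C0) : S_LIOU := by
  intro ι _ _ f Θ hf hP hE hV hS
  obtain ⟨χ, hχ0, hχ⟩ := a2 ι f Θ hf hP hE hV
  obtain ⟨ψ, c, -, hc, hn⟩ := jord1 ι (fun _ => 0) χ hχ0 fun i α _ => by
    simp [Finsupp.weight_apply]
  set v : ι → PS ι := fun i => ψ (vf χ (ψ.symm (X i))) with hv
  have hcc := fun g => ((p3.1 ℂ ι ι ψ.toAlgHom).1 g)
  have hcs := fun g => ((p3.1 ℂ ι ι ψ.symm.toAlgHom).1 g)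
  have hv0 : ∀ i, constantCoeff (v i) = 0 := fun i => by
    refine (hcc _).trans ?_
    rw [vf_apply, map_sum]
    exact Finset.sum_eq_zero fun k _ => by rw [map_mul, hχ0, zero_mul]
  have hvf : vf v (ψ f) = ψ f := by
    have h1 : ∀ j, pderiv ℂ j f =
        ∑ i, ψ.symm (pderiv ℂ i (ψ f)) * pderiv ℂ j (ψ.symm (X i)) := fun j => by
      have := (p3.1 ℂ ι ι ψ.symm.toAlgHom).2.2.1 (ψ f) j
      simpa using this
    conv_rhs => rw [← hχ, vf_apply]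
    simp only [h1, Finset.mul_sum, map_sum, map_mul, AlgEquiv.apply_symm_apply]
    rw [vf_apply, Finset.sum_comm]
    refine Finset.sum_congr rfl fun i _ => ?_
    simp only [hv, vf_apply, map_sum, map_mul, Finset.sum_mul]
    exact Finset.sum_congr rfl fun k _ => by ring
  have hh : IsHom c 1 (ψ f) := by
    have := ((jord2 ι v c hv0 hc hn).2 ⊥ (fun h hh => by
      rw [Ideal.mem_bot.1 hh]; simp)).2 1 (ψ f) fun r => ⟨1, 0, by simp, by simp [hvf]⟩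
    rw [Ideal.mem_bot, sub_eq_zero] at this
    rw [this]
    exact isHom_comp _ _
  obtain ⟨l, hl⟩ : ∃ l : ℂ →ₗ[ℚ] ℚ, l 1 = 1 := by
    obtain ⟨l, hl⟩ := Module.Projective.exists_dual_ne_zero ℚ (one_ne_zero (α := ℂ))
    exact ⟨(l 1)⁻¹ • l, by simp [hl]⟩
  have ha : IsHom (fun i => l (c i)) 1 (ψ f) := (hh.map l.toAddMonoidHom).congr hl
  have hR := (rel ι ι f Θ ψ).1 hP.skew
  obtain ⟨-, h2, hP₁, h4, h5, -⟩ := (rel ι ι f Θ ψ).2 _ _ rfl hR hf.1 hP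
  have hE₁ := (relx ι ι f Θ ψ _ _ rfl hR hf.1 hP).1 hE
  obtain ⟨e, Θ', hP', hG, hW, hV'⟩ := a4 ι _ _ _ (h2 hf) hP₁ hE₁ (h5 hV) (h4 hS) ha
  have he : e ≠ 0 := by
    rintro rfl
    obtain ⟨π, g, b, hπ⟩ := pi ι _ _ (h2 hf) hP₁
    have h1 := (unm ι _ _ π g b (h2 hf) hπ).2 1 fun Q hQ h6 h7 h8 =>
      absurd (a1 ι _ _ Q (h2 hf) hP₁ hE₁ hQ h6 h7 h8) (c0 ι _ _ _ Q (h2 hf) hP' hG hQ h6 h7 h8)
    have h9 : Ideal.span (Set.range π) ≤ IsLocalRing.maximalIdeal (PS ι) := by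
      rw [Ideal.span_le]
      rintro _ ⟨i, rfl⟩
      have h10 := congrArg constantCoeff (hπ.grad i)
      rw [h4 hS i, map_add, map_mul, map_mul, Prime.constantCoeff (h2 hf).1, zero_mul,
        add_zero] at h10
      exact mem_max_iff.2 ((mul_eq_zero.1 h10.symm).resolve_left (isUnit_iff'.1 hπ.unit))
    simpa using mem_max_iff.1 (h9 h1)
  have hG' := grd_scale hG e⁻¹
  rw [inv_mul_cancel₀ he] at hG'
  exact ⟨ψ, Θ', _, _, h2 hf, hP', hW, h4 hS, hV', hG', by simpa using he⟩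

theorem pos (rel : S_REL) (relx : S_RELX) (contr : S_CONTR) (c2 : S_C2) (c3 : S_C3) (c4 : S_C4)
    (c5 : S_C5) : S_POS := by
  intro ι _ _ f Θ a d hf hP hW hS hV hG hd
  obtain ⟨ψ, f', Θ', c, e, hR, hG', hC, hN, hc⟩ := c2 ι f Θ a d hf.1 hP hS hV hG
  obtain ⟨h1, h2, hP', h4, h5, -⟩ := (rel ι ι f Θ ψ).2 _ _ rfl hR hf.1 hP
  have hW' := (relx ι ι f Θ ψ _ _ rfl hR hf.1 hP).2.1 hW
  obtain ⟨u, hu⟩ := hR.1
  refine contr ι ι f f' ψ u rfl hf.1 hu ?_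
  rcases c3 ι f' Θ' a c d e (h2 hf) hP' hW' (h4 hS) (h5 hV) hG' hd hC hN hc with h | h
  · exact con_of_pos h1 hP' hW' hG' h
  obtain ⟨rfl, hd0, μ, σ, hM⟩ := h
  have key : ∀ (c : ι → ℚ) (σ : ι → ι), Grd c 0 0 f' Θ' → Mu a c μ σ →
      ∃ s τ, Low a c μ s τ := by
    intro c σ hC hM
    by_cases h0 : ∃ x, 0 < c x
    · obtain ⟨x₀, hx₀, hmax⟩ := Finset.exists_max_image (Finset.univ.filter fun x => 0 < c x)
        (fun x => a x / c x) (by obtain ⟨x, hx⟩ := h0; exact ⟨x, by simpa using hx⟩)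
      have hx : 0 < c x₀ := by simpa using hx₀
      obtain ⟨τ, hτ⟩ := c4 ι f' Θ' a c d (a x₀ / c x₀) μ x₀ σ (h2 hf) hP' hW' (h5 hV) hG' hd0 hC
        hM (fun x h => (div_le_iff₀ h).1 (hmax x (by simpa using h))) hx
        (div_mul_cancel₀ _ hx.ne').symm
      exact ⟨_, τ, hτ⟩
    · exact ⟨0, id, fun x hx => absurd ⟨x, hx⟩ h0, fun x hx => absurd ⟨x, hx⟩ h0⟩
  obtain ⟨s, τ, hτ⟩ := key c σ hC hM
  obtain ⟨s', τ', hτ'⟩ := key (fun i => -c i) σ (by simpa using grd_scale hC (-1))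
    ⟨by simp [hM.c0], hM.a1, fun i hi => by simpa using hM.ne i hi, fun j hj =>
      ⟨(hM.mat j hj).1, by simp [(hM.mat j hj).2.1], (hM.mat j hj).2.2⟩, hM.inj⟩
  obtain ⟨t, ht⟩ := c5 ι a c μ σ τ τ' s s' hM hτ hτ'
  have hG'' := grd_add hG' (grd_scale hC t)
  rw [mul_zero, add_zero] at hG''
  exact con_of_pos h1 hP' hW' hG'' ht

theorem main (liou : S_LIOU) (darb : S_DARB) (contr : S_CONTR) (prod : S_PROD) (small : S_SMALL)
    (pos : S_POS) : S_MAIN := by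
  suffices h : ∀ (n : ℕ) (ι : Type) [Fintype ι] [DecidableEq ι], Fintype.card ι = n →
      ∀ (f : PS ι) (Θ : Matrix ι ι (PS ι)), Hyp f → Poi f Θ → Ext f Θ → Con f from
    fun ι _ _ => h _ ι rfl
  intro n
  induction n using Nat.strong_induction_on with
  | _ n ih =>
  intro ι _ _ hn f Θ hf hP hE
  by_cases hV : Van Θ
  · by_cases hS : Sing0 f
    · obtain ⟨ψ, Θ', a, d, h1, h2, h3, h4, h5, h6, h7⟩ := liou ι f Θ hf hP hE hV hS
      exact contr ι ι f (ψ f) ψ 1 rfl hf.1 (by simp) (pos ι _ Θ' a d h1 h2 h3 h4 h5 h6 h7)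
    · exact small ι f Θ hf.1 hP hV hS
  · obtain ⟨κ, _, _, ψ, u, f₂, Θ₂, hc, hψ, h1, h2, h3⟩ := darb ι f Θ hf hP hE hV
    exact contr ι _ f _ ψ u (by simp [← hc]) hf.1 hψ
      (prod κ f₂ h1.1 (ih _ (by omega) κ rfl f₂ Θ₂ h1 h2 h3))

end Pool.Agent.MP_51db15_ag.Hy
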