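import Pool.Agent.MP_51db15_ag.Hy.Rows
import Pool.Agent.MP_51db15_ag.Hy.Base

/-! The hypotheses of the theorem give a bivector. -/

namespace Pool.Agent.MP_51db15_ag.Hy

open MvPowerSeries Matrix

namespace INIT

variable {ι : Type} [Fintype ι] (f : PS ι)

/-- the quotient map -/
noncomputable abbrev q : PS ι →ₐ[ℂ] PS ι ⧸ Ideal.span {f} := Ideal.Quotient.mkₐ ℂ _

omit [Fintype ι] in
theorem q_surj : Function.Surjective (q f) := Ideal.Quotient.mkₐ_surjective ℂ _

variable {f}

omit [Fintype ι] in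
theorem q_zero {g : PS ι} : q f g = 0 ↔ f ∣ g := by
  rw [Ideal.Quotient.mkₐ_eq_mk, Ideal.Quotient.eq_zero_iff_mem, Ideal.mem_span_singleton]

omit [Fintype ι] in
theorem q_eq {g h : PS ι} : q f g = q f h ↔ f ∣ g - h := by
  rw [← q_zero, map_sub, sub_eq_zero]

variable (f)

open Classical in
/-- the derivation of the quotient given by a tangent field -/
noncomputable def dv (v : ι → PS ι) :
    Derivation ℂ (PS ι ⧸ Ideal.span {f}) (PS ι ⧸ Ideal.span {f}) :=
  if h : Log f v then Derivation.liftOfSurjective (q_surj f) (d := vf v)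
    (fun _ hx => q_zero.2 (vf_dvd h (q_zero.1 hx))) else 0

variable {f}

theorem dv_q {v : ι → PS ι} (h : Log f v) (g : PS ι) : dv f v (q f g) = q f (vf v g) := by
  rw [dv, dif_pos h, Derivation.liftOfSurjective_apply]

omit [Fintype ι] in
theorem dext {X Y : Derivation ℂ (PS ι ⧸ Ideal.span {f}) (PS ι ⧸ Ideal.span {f})}
    (h : ∀ g, X (q f g) = Y (q f g)) : X = Y := by
  ext a
  obtain ⟨g, rfl⟩ := q_surj f a
  exact h g

theorem log_lie {x y : ι → PS ι} (hx : Log f x) (hy : Log f y) : Log f (lie x y) := by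
  rw [Log, vf_lie]
  exact dvd_sub (vf_dvd hx hy) (vf_dvd hy hx)

theorem log_congr {x y : ι → PS ι} (hx : Log f x) (h : ∀ k, f ∣ y k - x k) : Log f y := by
  have := dvd_add (vf_congr h f) hx
  rwa [sub_add_cancel] at this

theorem dv_congr {x y : ι → PS ι} (hx : Log f x) (hy : Log f y) (h : ∀ k, f ∣ x k - y k) :
    dv f x = dv f y := dext fun g => by rw [dv_q hx, dv_q hy, q_eq]; exact vf_congr h g

theorem dv_add {x y : ι → PS ι} (hx : Log f x) (hy : Log f y) :
    dv f (x + y) = dv f x + dv f y := dext fun g => by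
  have h : Log f (x + y) := (logM f).add_mem hx hy
  rw [Derivation.add_apply, dv_q hx, dv_q hy, dv_q h, vf_add, map_add]

theorem dv_smul (s : PS ι) {x : ι → PS ι} (hx : Log f x) :
    dv f (s • x) = q f s • dv f x := dext fun g => by
  have h : Log f (s • x) := (logM f).smul_mem s hx
  rw [Derivation.smul_apply, dv_q hx, dv_q h, vf_smul, map_mul, smul_eq_mul]

theorem dv_lie {x y : ι → PS ι} (hx : Log f x) (hy : Log f y) :
    dv f (lie x y) = ⁅dv f x, dv f y⁆ := dext fun g => by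
  rw [Derivation.commutator_apply, dv_q hx, dv_q hy, dv_q hx, dv_q hy, dv_q (log_lie hx hy),
    vf_lie, map_sub]

/-- every derivation of the quotient comes from a tangent field -/
theorem exists_dv (p1 : S_P1)
    (Y : Derivation ℂ (PS ι ⧸ Ideal.span {f}) (PS ι ⧸ Ideal.span {f})) :
    ∃ v, Log f v ∧ dv f v = Y := by
  choose v hv using fun i => q_surj f (Y (q f (X i)))
  have key : ∀ g, Y (q f g) = q f (vf v g) := by
    intro g
    have h := p1 ℂ ι _ (q f).toRingHom
      ((Y : _ →ₗ[ℂ] _).toAddMonoidHom.comp (q f).toRingHom.toAddMonoidHom)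
      ((IsLocalRing.maximalIdeal (PS ι)).map (q f).toRingHom)
      (fun a b => by
        change Y (q f (a * b)) = q f a * Y (q f b) + Y (q f a) * q f b
        rw [map_mul, Derivation.leibniz, smul_eq_mul, smul_eq_mul, mul_comm (q f b)])
      (fun c => by
        change Y (q f (C c)) = 0
        rw [show (C c : PS ι) = algebraMap ℂ _ c from rfl, AlgHom.commutes,
          Derivation.map_algebraMap])
      (fun i => Ideal.mem_map_of_mem _ (mem_max_iff.2 (constantCoeff_X i)))
      (fun s hs => by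
        obtain ⟨a, rfl⟩ := q_surj f s
        refine q_zero.2 (dvd_of_approx fun r => ?_)
        have h1 := hs r
        rw [← Ideal.map_pow,
          Ideal.mem_map_iff_of_surjective (q f).toRingHom (q_surj f)] at h1
        obtain ⟨y, hy, h2⟩ := h1
        refine ⟨a - y, q_eq.1 (Eq.symm h2), ?_⟩
        rw [sub_sub_cancel]
        exact mem_pow_iff_order.1 hy) g
    change Y (q f g) = ∑ i, q f (pderiv ℂ i g) * Y (q f (X i)) at h
    rw [h, vf_apply, map_sum]
    exact Finset.sum_congr rfl fun i _ => by rw [map_mul, hv, mul_comm]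
  have hl : Log f v := q_zero.1 (by rw [← key, q_zero.2 dvd_rfl, map_zero])
  exact ⟨v, hl, dext fun g => by rw [dv_q hl, key]⟩

end INIT

open INIT in
theorem init (p1 : S_P1) (lift : S_LIFT) (poi : S_POI) : S_INIT := by
  intro ι _ _ f _ hf ω ⟨halt, hcl, hnd⟩ hK
  choose r hr using fun x y : ι → PS ι => q_surj f (ω (dv f x) (dv f y))
  have hform : IsForm f r := by
    refine ⟨fun x x' y hx hx' _ h => q_eq.1 ?_, fun x x' y hx hx' _ => q_zero.1 ?_,
      fun g x y hx _ => q_eq.1 ?_, fun x y _ _ => q_zero.1 ?_⟩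
    · rw [hr, hr, dv_congr hx hx' h]
    · rw [map_sub, map_sub, hr, hr, hr, dv_add hx hx', map_add, LinearMap.add_apply]
      ring
    · rw [map_mul, hr, hr, dv_smul g hx, map_smul, LinearMap.smul_apply, smul_eq_mul]
    · rw [map_add, hr, hr, ← halt.neg_eq (dv f x), add_neg_cancel]
  have hclosed : Closed f r := by
    intro x y z hx hy hz
    refine q_zero.1 ?_
    simp only [map_sub, map_add, ← dv_q hx, ← dv_q hy, ← dv_q hz, hr, dv_lie hx hy, dv_lie hx hz,
      dv_lie hy hz]
    exact hcl _ _ _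
  choose H hH using fun i => hnd (q f (X i))
  choose T hT hTH using fun i => INIT.exists_dv (f := f) p1 (H i)
  have hTq : ∀ i j, q f (T i j) = ω (H j) (H i) := fun i j => by
    rw [hH, ← hTH, dv_q (hT i), vf_X]
  let Θ : Matrix ι ι (PS ι) := Matrix.of fun i j => C (1 / 2 : ℂ) * (T i j - T j i)
  have h2 : (C (1 / 2 : ℂ) : PS ι) * 2 = 1 := by
    rw [← map_ofNat (C : ℂ →+* PS ι) 2, ← map_mul]
    norm_num
  have hΘT : ∀ i j, f ∣ Θ i j - T i j := fun i j => by
    have h : f ∣ T i j + T j i := q_zero.1 (by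
      rw [map_add, hTq, hTq, ← halt.neg_eq (H j), add_neg_cancel])
    have e : Θ i j - T i j = -C (1 / 2 : ℂ) * (T i j + T j i) := by
      change C (1 / 2 : ℂ) * (T i j - T j i) - T i j = _
      linear_combination T i j * h2
    rw [e]
    exact h.mul_left _
  have hΘ : ∀ i, Log f (Θ i) := fun i => log_congr (hT i) (hΘT i)
  have hΘH : ∀ i, dv f (Θ i) = H i := fun i => by rw [dv_congr (hΘ i) (hT i) (hΘT i), hTH]
  have hskew : Θᵀ = -Θ := by
    ext1 i j
    change C (1 / 2 : ℂ) * (T j i - T i j) = -(C (1 / 2 : ℂ) * (T i j - T j i))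
    ring
  have hham : Ham f r Θ := fun i => ⟨hΘ i, fun y hy => q_eq.1 (by
    rw [hr, hΘH, hH, dv_q hy, vf_X])⟩
  refine ⟨Θ, poi ι f Θ r hf hform hclosed hskew hham, fun κ _ _ φ hφ V hV => ?_⟩
  let φ' : (PS ι ⧸ Ideal.span {f}) →+* κ := Ideal.Quotient.lift _ φ.toRingHom fun a ha =>
    (hφ a).2 (Ideal.mem_span_singleton.1 ha)
  have hφ' : ∀ g, φ' (q f g) = φ g := fun g => rfl
  have hinj : Function.Injective φ' := (injective_iff_map_eq_zero φ').2 fun a ha => by
    obtain ⟨g, rfl⟩ := q_surj f a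
    exact q_zero.2 ((hφ g).1 ha)
  let K := FractionRing (PS ι ⧸ Ideal.span {f})
  let j := algebraMap (PS ι ⧸ Ideal.span {f}) K
  let ψ : K →+* κ := IsFractionRing.lift hinj
  have hψ : ∀ g, ψ (j (q f g)) = φ g := fun g => IsFractionRing.lift_algebraMap hinj _
  obtain ⟨n, c, y, z, hm, hsum⟩ := hK (V.comap ψ) fun a => by
    obtain ⟨g, rfl⟩ := q_surj f a
    rw [ValuationSubring.mem_comap]
    exact hψ g ▸ hV g
  have hfr : ∀ w : K, ∃ a b, φ b ≠ 0 ∧ w = j (q f a) / j (q f b) := fun w => by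
    obtain ⟨a, b, hb, h⟩ := IsFractionRing.div_surjective (PS ι ⧸ Ideal.span {f}) w
    obtain ⟨a, rfl⟩ := q_surj f a
    obtain ⟨b, rfl⟩ := q_surj f b
    exact ⟨a, b, fun h0 => nonZeroDivisors.ne_zero hb (q_zero.2 ((hφ b).1 h0)), h.symm⟩
  choose H' hH' using fun i => lift (PS ι ⧸ Ideal.span {f}) K (IsScalarTower.toAlgHom ℂ _ K)
    ((IsScalarTower.toAlgHom ℂ (PS ι ⧸ Ideal.span {f}) K).toLinearMap.comp (H i).toLinearMap)
    (fun w => by
      obtain ⟨a, b, -, h⟩ := hfr w
      exact ⟨_, _, h⟩)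
    (fun a b => by simp)
    (fun a ha => by
      have h0 : a = 0 := IsFractionRing.injective _ K (ha.trans (map_zero _).symm)
      rw [h0, map_zero])
  replace hH' : ∀ i a, H' i (j a) = j (H i a) := hH'
  have hd : ∀ i a b, φ b ≠ 0 → ψ (H' i (j (q f a) / j (q f b))) = dfr φ (Θ i) a b := by
    intro i a b hb
    rw [Derivation.leibniz_div, hH', hH', ← hΘH, dv_q (hΘ i), dv_q (hΘ i), dfr]
    simp only [smul_eq_mul, map_mul, map_sub, map_pow, map_inv₀, hψ]
    field_simp
  choose a b hb hab using fun s => hfr (z s)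
  choose a' b' hb' hab' using fun s => hfr (y s)
  refine ⟨Fin n, inferInstance, fun s => ψ (c s), a, b, a', b', fun s => ⟨(hm s).1, hb s, hb' s,
    ?_, ?_⟩, fun k l => ?_⟩
  · rw [← hψ, ← hψ, ← map_div₀, ← hab]
    exact (hm s).2.2
  · rw [← hψ, ← hψ, ← map_div₀, ← hab']
    exact (hm s).2.1
  · have h := congrArg ψ (hsum (H l) (H k) (H' l) (H' k) (hH' l) (hH' k))
    rw [← hTq, ← q_eq.2 (hΘT k l)] at h
    rw [← hψ]
    refine h.trans ?_
    rw [map_sum]
    refine Finset.sum_congr rfl fun s _ => ?_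
    rw [map_mul, map_sub, map_mul, map_mul, hab, hab', hd _ _ _ (hb s), hd _ _ _ (hb s),
      hd _ _ _ (hb' s), hd _ _ _ (hb' s)]
    ring

end Pool.Agent.MP_51db15_ag.Hy
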