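import Pool.Agent.MP_51db15_ag.Hy.Rows

/-! Normal form of a vector field: coordinates that are generalised eigenvectors. -/

namespace Pool.Agent.MP_51db15_ag.Hy

open MvPowerSeries Matrix

namespace JORD1

set_option linter.unusedSectionVars false

variable {ι : Type} [Fintype ι] [DecidableEq ι]

/-- series supported in a set of exponents -/
def Sup (s : Set (ι →₀ ℕ)) : Submodule ℂ (PS ι) where
  carrier := {g | ∀ α, coeff α g ≠ 0 → α ∈ s}
  add_mem' := fun {g h} hg hh α hα => by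
    by_cases h1 : coeff α g = 0
    · refine hh α fun h2 => hα ?_
      rw [map_add, h1, h2, add_zero]
    · exact hg α h1
  zero_mem' := fun α h => absurd (map_zero _) h
  smul_mem' := fun c g hg α hα => hg α fun h => hα (by rw [map_smul, h, smul_zero])

lemma mem_Sup {s : Set (ι →₀ ℕ)} {g : PS ι} : g ∈ Sup s ↔ ∀ α, coeff α g ≠ 0 → α ∈ s := Iff.rfl

/-- series of order at least `r` -/
def Od (r : ℕ) : Submodule ℂ (PS ι) := Sup {α | r ≤ Finsupp.degree α}

lemma mem_Od {r : ℕ} {g : PS ι} : g ∈ Od r ↔ ∀ α, Finsupp.degree α < r → coeff α g = 0 :=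
  ⟨fun h α hα => by_contra fun h' => absurd (h α h') (not_le.2 hα),
    fun h α hα => not_lt.1 fun h' => hα (h α h')⟩

lemma Od_iff {r : ℕ} {g : PS ι} : g ∈ Od r ↔ (r : ℕ∞) ≤ g.order :=
  mem_Od.trans ⟨nat_le_order, fun h α hα =>
    coeff_of_lt_order (lt_of_lt_of_le (by exact_mod_cast hα) h)⟩

lemma Od_mono {r s : ℕ} (h : r ≤ s) {g : PS ι} (hg : g ∈ Od s) : g ∈ Od r :=
  fun α hα => h.trans (hg α hα)

lemma Od_one {g : PS ι} : g ∈ Od 1 ↔ constantCoeff g = 0 := by
  rw [Od_iff]; exact one_le_order_iff_constCoeff_eq_zero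

lemma mul_mem {s t u : Set (ι →₀ ℕ)} {g h : PS ι} (hg : g ∈ Sup s) (hh : h ∈ Sup t)
    (H : ∀ β ∈ s, ∀ γ ∈ t, β + γ ∈ u) : g * h ∈ Sup u := fun α hα => by
  rw [coeff_mul] at hα
  obtain ⟨p, hp, h0⟩ := Finset.exists_ne_zero_of_sum_ne_zero hα
  rw [← Finset.HasAntidiagonal.mem_antidiagonal.1 hp]
  exact H _ (hg _ (left_ne_zero_of_mul h0)) _ (hh _ (right_ne_zero_of_mul h0))

lemma Od_mul {r : ℕ} {g : PS ι} (hg : g ∈ Od r) (h : PS ι) : g * h ∈ Od r :=
  mul_mem (t := Set.univ) hg (fun _ _ => trivial) fun β hβ γ _ => by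
    change r ≤ Finsupp.degree (β + γ)
    rw [map_add]; exact le_add_right hβ

lemma vf_ap (v : ι → PS ι) (g : PS ι) : vf v g = ∑ i, v i * pderiv ℂ i g := by
  have := congrFun (map_sum (Derivation.coeFnAddMonoidHom (R := ℂ) (A := PS ι) (M := PS ι))
    (fun i => v i • pderiv ℂ i) Finset.univ) g
  rw [Finset.sum_apply] at this
  exact this

lemma vf_mem {v : ι → PS ι} {s : Set (ι →₀ ℕ)}
    (H : ∀ i β γ, coeff β (v i) ≠ 0 → γ + Finsupp.single i 1 ∈ s → β + γ ∈ s) {g : PS ι}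
    (hg : g ∈ Sup s) : vf v g ∈ Sup s := by
  rw [vf_ap]
  refine Submodule.sum_mem _ fun i _ => ?_
  refine mul_mem (s := {β | coeff β (v i) ≠ 0}) (t := {γ | γ + Finsupp.single i 1 ∈ s})
    (fun _ h => h) (fun γ h => hg _ ?_) fun β hβ γ hγ => H i β γ hβ hγ
  rw [coeff_pderiv] at h
  exact left_ne_zero_of_mul h

lemma vf_X (v : ι → PS ι) (j : ι) : vf v (X j) = v j := by
  simp [vf_ap, pderiv_X, Pi.single_apply]

/-- truncation below degree `r` -/
lemma trunc_mem (g : PS ι) (r : ℕ) :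
    g - ∑ β ∈ (Finsupp.finite_of_degree_lt r).toFinset, coeff β g • monomial β (1 : ℂ) ∈ Od r := by
  refine mem_Od.2 fun α hα => ?_
  rw [map_sub, map_sum, Finset.sum_eq_single α]
  · rw [map_smul, coeff_monomial_same, smul_eq_mul, mul_one, sub_self]
  · intro β _ h
    rw [map_smul, coeff_monomial_ne h.symm, smul_zero]
  · intro h
    exact absurd ((Finsupp.finite_of_degree_lt r).mem_toFinset.2 hα) h

lemma mono_ind (P : (ι →₀ ℕ) → PS ι → Prop) (h1 : P 0 1)
    (hX : ∀ i, P (Finsupp.single i 1) (X i))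
    (hm : ∀ β γ g h, P β g → P γ h → P (β + γ) (g * h)) (β : ι →₀ ℕ) :
    P β (monomial β (1 : ℂ)) := by
  induction β using Finsupp.induction_linear with
  | zero => exact h1
  | add β γ hβ hγ =>
    have := hm _ _ _ _ hβ hγ
    rwa [monomial_mul_monomial, mul_one] at this
  | single i n =>
    rw [← X_pow_eq]
    induction n with
    | zero => simpa using h1
    | succ n ih => rw [pow_succ, Finsupp.single_add]; exact hm _ _ _ _ ih (hX i)

/-- a substitution by homogeneous series preserves the set of weights -/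
lemma alg_mem {M : Type} [AddCommMonoid M] (a : ι → M) (φ : PS ι →ₐ[ℂ] PS ι)
    (ho : ∀ r g, g ∈ Od r → φ g ∈ Od r) (hX : ∀ i, IsHom a (a i) (φ (X i))) (Q : Set M)
    {g : PS ι} (hg : g ∈ Sup {α | Finsupp.weight a α ∈ Q}) :
    φ g ∈ Sup {α | Finsupp.weight a α ∈ Q} := by
  have hm : ∀ β, φ (monomial β (1 : ℂ)) ∈ Sup {α | Finsupp.weight a α = Finsupp.weight a β} := by
    refine mono_ind (fun β g => φ g ∈ Sup {α | Finsupp.weight a α = Finsupp.weight a β})
      ?_ (fun i => ?_) fun β γ g h hg hh => ?_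
    · intro α hα
      rw [map_one, coeff_one] at hα
      have : α = 0 := by by_contra h; exact hα (if_neg h)
      rw [this]; rfl
    · rw [Finsupp.weight_single, one_smul]; exact hX i
    · rw [map_mul]
      refine mul_mem hg hh fun x hx y hy => ?_
      change Finsupp.weight a (x + y) = _
      rw [map_add, map_add, hx, hy]
  intro α hα
  have h1 := mem_Od.1 (ho _ _ (trunc_mem g (Finsupp.degree α + 1))) α (Nat.lt_succ_self _)
  rw [map_sub, map_sub, sub_eq_zero] at h1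
  rw [h1] at hα
  refine (?_ : φ _ ∈ Sup {α | Finsupp.weight a α ∈ Q}) α hα
  rw [map_sum]
  refine Submodule.sum_mem _ fun β _ => ?_
  by_cases h0 : coeff β g = 0
  · rw [h0, zero_smul, map_zero]; exact Submodule.zero_mem _
  · rw [map_smul]
    refine Submodule.smul_mem _ _ fun γ hγ => ?_
    have h2 : Finsupp.weight a γ = Finsupp.weight a β := hm β γ hγ
    change Finsupp.weight a γ ∈ Q
    rw [h2]; exact hg β h0

lemma hom_iff (a : ι → ℚ) (φ : PS ι ≃ₐ[ℂ] PS ι) (ho : ∀ r g, g ∈ Od r → φ g ∈ Od r)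
    (hX : ∀ i, IsHom a (a i) (φ (X i))) (e : ℚ) (g : PS ι) : IsHom a e (φ g) ↔ IsHom a e g := by
  refine ⟨fun h => ?_, fun h => alg_mem a φ.toAlgHom ho hX {e} h⟩
  have cc : ∀ α, coeff α (comp a e g) = if Finsupp.weight a α = e then coeff α g else 0 :=
    fun α => by
      by_cases h : Finsupp.weight a α = e
      · rw [if_pos h]; exact if_pos h
      · rw [if_neg h]; exact if_neg h
  have h1 : IsHom a e (comp a e g) := fun α hα => by
    by_contra h'; exact hα (by rw [cc, if_neg h'])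
  have h2 : g - comp a e g ∈ Sup {α | Finsupp.weight a α ∈ ({e}ᶜ : Set ℚ)} := fun α hα h' =>
    hα (by rw [map_sub, cc, if_pos (Set.mem_singleton_iff.1 h'), sub_self])
  have h3 := alg_mem a φ.toAlgHom ho hX _ h2
  have h4 : φ (g - comp a e g) ∈ Sup {α | Finsupp.weight a α ∈ ({e} : Set ℚ)} := by
    rw [map_sub]
    exact Submodule.sub_mem _ h (alg_mem a φ.toAlgHom ho hX {e} h1)
  have h5 : φ (g - comp a e g) = 0 := by
    ext α
    by_contra h'
    exact h3 α h' (h4 α h')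
  rw [map_eq_zero_iff _ φ.injective, sub_eq_zero] at h5
  rw [h5]; exact h1

lemma pow_mem {T : Module.End ℂ (PS ι)} {B : Submodule ℂ (PS ι)} (h : ∀ g ∈ B, T g ∈ B) (n : ℕ)
    {g : PS ι} (hg : g ∈ B) : (T ^ n) g ∈ B := by
  induction n with
  | zero => exact hg
  | succ n ih => rw [pow_succ', Module.End.mul_apply]; exact h _ ih

lemma sub_mem' {T : Module.End ℂ (PS ι)} {B : Submodule ℂ (PS ι)} (h : ∀ g ∈ B, T g ∈ B) (e : ℂ) :
    ∀ g ∈ B, (T - e • (1 : Module.End ℂ (PS ι))) g ∈ B := fun g hg =>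
  B.sub_mem (h g hg) (B.smul_mem e hg)

/-- one step of the construction, by stabilisation of the images -/
lemma step (T : Module.End ℂ (PS ι)) (B : Submodule ℂ (PS ι)) (hB : ∀ g ∈ B, T g ∈ B)
    {z : PS ι} (hz : z ∈ B) (M r : ℕ) :
    ∃ N, ∃ h ∈ B, (T ^ N) z - (T ^ (N + M)) h ∈ Od r := by
  have : Finite {α : ι →₀ ℕ | Finsupp.degree α < r} := Finsupp.finite_of_degree_lt r
  let τ : PS ι →ₗ[ℂ] ({α : ι →₀ ℕ | Finsupp.degree α < r} → ℂ) :=
    LinearMap.pi fun α => coeff α.1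
  let D : ℕ →o (Submodule ℂ ({α : ι →₀ ℕ | Finsupp.degree α < r} → ℂ))ᵒᵈ :=
    ⟨fun n => (B.map (T ^ n)).map τ, monotone_nat_of_le_succ fun n => by
      refine Submodule.map_mono (p := B.map (T ^ (n + 1))) (p' := B.map (T ^ n)) ?_
      rintro _ ⟨g, hg, rfl⟩
      exact ⟨T g, hB g hg, by rw [pow_succ, Module.End.mul_apply]⟩⟩
  obtain ⟨N, hN⟩ := IsArtinian.monotone_stabilizes D
  have h1 : (B.map (T ^ N)).map τ = (B.map (T ^ (N + M))).map τ := hN (N + M) (Nat.le_add_right _ _)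
  have h2 : τ ((T ^ N) z) ∈ (B.map (T ^ (N + M))).map τ := h1 ▸ ⟨_, ⟨z, hz, rfl⟩, rfl⟩
  obtain ⟨_, ⟨h, hh, rfl⟩, e⟩ := h2
  refine ⟨N, h, hh, mem_Od.2 fun α hα => ?_⟩
  have := congrFun e ⟨α, hα⟩
  rw [map_sub, sub_eq_zero]
  exact this.symm

/-- lifting a generalised eigenvector modulo the square of the maximal ideal -/
lemma lift (T : Module.End ℂ (PS ι)) (s : Set (ι →₀ ℕ)) (hs : ∀ g ∈ Sup s, T g ∈ Sup s)
    (ho : ∀ r, ∀ g ∈ Od r, T g ∈ Od r) {l : PS ι} (hl : l ∈ Sup s) {M₀ : ℕ}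
    (h0 : (T ^ M₀) l ∈ Od 2) :
    ∃ y ∈ Sup s, y - l ∈ Od 2 ∧ ∀ r, ∃ M, (T ^ M) y ∈ Od r := by
  have key : ∀ (n : ℕ) (y : PS ι), ∃ y' : PS ι, (y ∈ Sup s ∧ ∃ M, (T ^ M) y ∈ Od (n + 2)) →
      (y' ∈ Sup s ∧ ∃ M, (T ^ M) y' ∈ Od (n + 1 + 2)) ∧ y' - y ∈ Od (n + 2) := by
    intro n y
    by_cases hy : y ∈ Sup s ∧ ∃ M, (T ^ M) y ∈ Od (n + 2)
    · obtain ⟨hy, M, hM⟩ := hy
      obtain ⟨N, h, hh, e⟩ := step T (Sup s ⊓ Od (n + 2))
        (fun g hg => ⟨hs g hg.1, ho _ g hg.2⟩) ⟨pow_mem hs M hy, hM⟩ M (n + 1 + 2)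
      refine ⟨y - h, fun _ => ⟨⟨Submodule.sub_mem _ hy hh.1, N + M, ?_⟩, ?_⟩⟩
      · rw [map_sub, pow_add T N M, Module.End.mul_apply, ← pow_add]; exact e
      · rw [sub_sub_cancel_left]; exact Submodule.neg_mem _ hh.2
    · exact ⟨y, fun h => absurd h hy⟩
  choose F hF using key
  let u : ℕ → PS ι := fun n => Nat.rec l (fun n y => F n y) n
  have hu : ∀ n, u n ∈ Sup s ∧ ∃ M, (T ^ M) (u n) ∈ Od (n + 2) := fun n => by
    induction n with
    | zero => exact ⟨hl, M₀, h0⟩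
    | succ n ih => exact (hF n _ ih).1
  have hd : ∀ n m, n ≤ m → u m - u n ∈ Od (n + 2) := fun n m h => by
    induction h with
    | refl => rw [sub_self]; exact Submodule.zero_mem _
    | @step m h ih =>
      have := Submodule.add_mem _ (Od_mono (Nat.add_le_add_right h 2) (hF m _ (hu m)).2) ih
      rwa [sub_add_sub_cancel] at this
  let y : PS ι := fun α => coeff α (u (Finsupp.degree α))
  have cy : ∀ α, coeff α y = coeff α (u (Finsupp.degree α)) := fun _ => rfl
  have hy : ∀ n, y - u n ∈ Od (n + 2) := fun n => mem_Od.2 fun α hα => by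
    rw [map_sub, cy, ← map_sub]
    rcases le_total n (Finsupp.degree α) with h | h
    · exact mem_Od.1 (hd _ _ h) α hα
    · rw [← neg_sub, map_neg, mem_Od.1 (hd _ _ h) α (by omega), neg_zero]
  refine ⟨y, fun α hα => (hu _).1 α hα, hy 0, fun r => ?_⟩
  obtain ⟨M, hM⟩ := (hu r).2
  refine ⟨M, Od_mono (Nat.le_add_right r 2) ?_⟩
  have := Submodule.add_mem _ (pow_mem (ho _) M (hy r)) hM
  rwa [← map_add, sub_add_cancel] at this

/-- the linear part -/
noncomputable def lam : PS ι →ₗ[ℂ] (ι → ℂ) := LinearMap.pi fun j => coeff (Finsupp.single j 1)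

lemma lam_ap (g : PS ι) (j : ι) : lam g j = coeff (Finsupp.single j 1) g := rfl

lemma lam_X (i : ι) : lam (X i : PS ι) = Pi.single i 1 := by
  funext j
  rw [lam_ap, coeff_index_single_X, Pi.single_apply]

lemma X_Od (i : ι) : (X i : PS ι) ∈ Od 1 := Od_one.2 (constantCoeff_X i)

lemma Od_two {g : PS ι} (h1 : g ∈ Od 1) (h2 : lam g = 0) : g ∈ Od 2 := by
  refine mem_Od.2 fun α hα => ?_
  by_cases h : Finsupp.degree α < 1
  · exact mem_Od.1 h1 α h
  · have h3 : α ∈ {x : ι →₀ ℕ | Finsupp.degree x = 1} := by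
      change Finsupp.degree α = 1
      omega
    rw [← Finsupp.range_single_one] at h3
    obtain ⟨j, rfl⟩ := h3
    exact congrFun h2 j

lemma lam_Od {g : PS ι} (h : g ∈ Od 2) : lam g = 0 :=
  funext fun j => mem_Od.1 h _ (by simp)

lemma lam_sum (p : ι → ℂ) : lam (∑ j, p j • (X j : PS ι)) = p := by
  rw [map_sum]
  simp only [map_smul, lam_X]
  exact (pi_eq_sum_univ' p).symm

lemma lam_app {E : Module.End ℂ (PS ι)} (h2 : ∀ g ∈ Od 2, E g ∈ Od 2) {g : PS ι}
    (hg : g ∈ Od 1) : lam (E g) = lam g ᵥ* lin fun i => E (X i) := by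
  have h3 : g - ∑ j, lam g j • (X j : PS ι) ∈ Od 2 :=
    Od_two (Submodule.sub_mem _ hg (Submodule.sum_mem _ fun j _ => Submodule.smul_mem _ _ (X_Od j)))
      (by rw [map_sub, lam_sum, sub_self])
  have h4 := lam_Od (h2 _ h3)
  rw [map_sub, map_sub, sub_eq_zero] at h4
  rw [h4]
  funext k
  simp only [map_sum, map_smul, smul_eq_mul, vecMul, dotProduct,
    lin, of_apply, lam_ap]

lemma lam_pow {E : Module.End ℂ (PS ι)} (ho : ∀ r, ∀ g ∈ Od r, E g ∈ Od r) (e : ℂ) (n : ℕ)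
    {g : PS ι} (hg : g ∈ Od 1) :
    lam (((E - e • (1 : Module.End ℂ (PS ι))) ^ n) g) =
      lam g ᵥ* ((lin fun i => E (X i)) - e • (1 : Matrix ι ι ℂ)) ^ n := by
  induction n with
  | zero => simp
  | succ n ih =>
    rw [pow_succ', Module.End.mul_apply, pow_succ, ← vecMul_vecMul, ← ih, LinearMap.sub_apply,
      map_sub, lam_app (ho 2) (pow_mem (sub_mem' (ho 1) e) n hg), vecMul_sub, vecMul_smul,
      vecMul_one, LinearMap.smul_apply, Module.End.one_apply, map_smul]

/-- a basis of generalised eigenvectors adapted to the blocks -/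
lemma basis (a : ι → ℚ) (A : Matrix ι ι ℂ) (hA : ∀ j k, A j k ≠ 0 → a j = a k) :
    ∃ (P : Matrix ι ι ℂ) (c : ι → ℂ), P.det ≠ 0 ∧ (∀ i j, P i j ≠ 0 → a j = a i) ∧
      ∀ i, ∃ M : ℕ, P i ᵥ* (A - c i • (1 : Matrix ι ι ℂ)) ^ M = 0 := by
  set S : Set (ι → ℂ) := {p | ∃ (e : ℚ) (c : ℂ), (∀ j, p j ≠ 0 → a j = e) ∧
    ∃ M : ℕ, p ᵥ* (A - c • (1 : Matrix ι ι ℂ)) ^ M = 0} with hS
  let pr : ℚ → (ι → ℂ) → ι → ℂ := fun e p j => if a j = e then p j else 0
  have hpr : ∀ e (c : ℂ) p, pr e p ᵥ* (A - c • (1 : Matrix ι ι ℂ)) =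
      pr e (p ᵥ* (A - c • (1 : Matrix ι ι ℂ))) := fun e c p => by
    have hB : ∀ j k, (A - c • (1 : Matrix ι ι ℂ)) j k ≠ 0 → a j = a k := fun j k h => by
      by_cases hjk : j = k
      · rw [hjk]
      · exact hA j k (by simpa [one_apply_ne hjk] using h)
    generalize A - c • (1 : Matrix ι ι ℂ) = B at hB
    funext k
    simp only [pr, vecMul, dotProduct]
    by_cases hk : a k = e
    · rw [if_pos hk]
      refine Finset.sum_congr rfl fun j _ => ?_
      by_cases hb : B j k = 0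
      · rw [hb, mul_zero, mul_zero]
      · rw [if_pos ((hB j k hb).trans hk)]
    · rw [if_neg hk]
      refine Finset.sum_eq_zero fun j _ => ?_
      by_cases hb : B j k = 0
      · rw [hb, mul_zero]
      · rw [if_neg fun h => hk ((hB j k hb).symm.trans h), zero_mul]
  have hprn : ∀ e (c : ℂ) (n : ℕ) p, pr e p ᵥ* (A - c • (1 : Matrix ι ι ℂ)) ^ n =
      pr e (p ᵥ* (A - c • (1 : Matrix ι ι ℂ)) ^ n) := fun e c n p => by
    induction n with
    | zero => simp
    | succ n ih => rw [pow_succ, ← vecMul_vecMul, ← vecMul_vecMul, ih, hpr]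
  have hpow : ∀ (c : ℂ) (n : ℕ) (p : ι → ℂ),
      ((A.vecMulLinear - c • (1 : Module.End ℂ (ι → ℂ))) ^ n) p =
        p ᵥ* (A - c • (1 : Matrix ι ι ℂ)) ^ n := fun c n p => by
    induction n with
    | zero => simp
    | succ n ih =>
      rw [pow_succ', Module.End.mul_apply, ih, pow_succ, ← vecMul_vecMul, vecMul_sub, vecMul_smul,
        vecMul_one, LinearMap.sub_apply, vecMulLinear_apply, LinearMap.smul_apply,
        Module.End.one_apply]
  have hsp : Submodule.span ℂ S = ⊤ := by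
    rw [eq_top_iff, ← Module.End.iSup_maxGenEigenspace_eq_top (A.vecMulLinear)]
    refine iSup_le fun c p hp => ?_
    obtain ⟨M, hM⟩ := (Module.End.mem_maxGenEigenspace _ _ _).1 hp
    rw [hpow] at hM
    have e : p = ∑ e ∈ Finset.univ.image a, pr e p := by
      funext j
      simp only [pr, Finset.sum_apply]
      rw [Finset.sum_ite_eq, if_pos (Finset.mem_image_of_mem a (Finset.mem_univ j))]
    rw [e]
    refine Submodule.sum_mem _ fun e _ => Submodule.subset_span ⟨e, c, fun j hj => ?_, M, ?_⟩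
    · by_contra h; exact hj (if_neg h)
    · rw [hprn, hM]; funext j; simp [pr]
  obtain ⟨b, hb, hb1, hb2⟩ := exists_linearIndependent ℂ S
  let B : Module.Basis b ℂ (ι → ℂ) := Module.Basis.mk hb2 (by rw [Subtype.range_coe, hb1, hsp])
  let f : b ≃ ι := B.indexEquiv (Pi.basisFun ℂ ι)
  let P' : Matrix ι ι ℂ := fun i => (f.symm i : ι → ℂ)
  have hd : P'.det ≠ 0 := by
    have : LinearIndependent ℂ P'.row := hb2.comp _ f.symm.injective
    exact ((isUnit_iff_isUnit_det _).1 (linearIndependent_rows_iff_isUnit.1 this)).ne_zero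
  have hd' := hd
  rw [det_apply] at hd'
  obtain ⟨σ, -, hσ⟩ := Finset.exists_ne_zero_of_sum_ne_zero hd'
  have hσ' : ∀ i, P' (σ i) i ≠ 0 := fun i h =>
    hσ (by rw [Finset.prod_eq_zero (f := fun i => P' (σ i) i) (Finset.mem_univ i) h, smul_zero])
  have hm : ∀ i, P' i ∈ S := fun i => hb (f.symm i).2
  choose e c he hc using hm
  refine ⟨P'.submatrix σ id, fun i => c (σ i), ?_, fun i j h => ?_, fun i => hc (σ i)⟩
  · rw [det_permute]
    exact mul_ne_zero (by simp) hd
  · rw [he (σ i) j h, he (σ i) i (hσ' i)]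

/-- generalised eigenvector modulo every power of the maximal ideal -/
def GE (D : Module.End ℂ (PS ι)) (e : ℂ) (g : PS ι) : Prop :=
  ∀ r, ∃ M : ℕ, ((D - e • (1 : Module.End ℂ (PS ι))) ^ M) g ∈ Od r

lemma GE_mul {D : Module.End ℂ (PS ι)} (ho : ∀ r, ∀ g ∈ Od r, D g ∈ Od r)
    (hL : ∀ g h, D (g * h) = D g * h + g * D h) {e e' : ℂ} {g h : PS ι} (hg : GE D e g)
    (hh : GE D e' h) : GE D (e + e') (g * h) := by
  intro r
  obtain ⟨M, hM⟩ := hg r
  obtain ⟨M', hM'⟩ := hh r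
  clear hg hh
  refine ⟨M + M', ?_⟩
  generalize hn : M + M' = n
  induction n generalizing M M' g h with
  | zero =>
    obtain rfl : M = 0 := by omega
    exact Od_mul hM h
  | succ n ih =>
    rcases M with _ | M
    · exact pow_mem (sub_mem' (ho r) _) _ (Od_mul hM h)
    rcases M' with _ | M'
    · rw [mul_comm g h]
      exact pow_mem (sub_mem' (ho r) _) _ (Od_mul hM' g)
    have e1 : (D - (e + e') • (1 : Module.End ℂ (PS ι))) (g * h) =
        (D - e • (1 : Module.End ℂ (PS ι))) g * h + g * (D - e' • (1 : Module.End ℂ (PS ι))) h := by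
      simp only [LinearMap.sub_apply, LinearMap.smul_apply, Module.End.one_apply, hL, sub_mul,
        mul_sub, smul_mul_assoc, mul_smul_comm]
      rw [add_smul]
      abel
    rw [pow_succ, Module.End.mul_apply, e1, map_add]
    refine Submodule.add_mem _ (ih M ?_ (M' + 1) hM' (by omega)) (ih (M + 1) hM M' ?_ (by omega))
    · rwa [pow_succ, Module.End.mul_apply] at hM
    · rwa [pow_succ, Module.End.mul_apply] at hM'

lemma GE_hom {D : Module.End ℂ (PS ι)} (ho : ∀ r, ∀ g ∈ Od r, D g ∈ Od r) (c : ι → ℂ)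
    (hm : ∀ β, GE D (Finsupp.weight c β) (monomial β (1 : ℂ))) {e : ℂ} {g : PS ι}
    (hg : GE D e g) : IsHom c e g := by
  intro α hα
  by_contra hne
  set r := Finsupp.degree α + 1
  let Dq : Module.End ℂ (PS ι ⧸ (Od r : Submodule ℂ (PS ι))) := (Od r).mapQ (Od r) D (ho r)
  have hq : ∀ (e : ℂ) (n : ℕ) (g : PS ι), ((Dq - e • 1) ^ n) ((Od r).mkQ g) =
      (Od r).mkQ (((D - e • (1 : Module.End ℂ (PS ι))) ^ n) g) := fun e n g => by
    induction n with
    | zero => rfl
    | succ n ih => rw [pow_succ', pow_succ', Module.End.mul_apply, Module.End.mul_apply, ih]; rfl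
  have hge : ∀ e g, GE D e g → (Od r).mkQ g ∈ Dq.maxGenEigenspace e := fun e g h => by
    obtain ⟨M, hM⟩ := h r
    refine (Module.End.mem_maxGenEigenspace _ _ _).2 ⟨M, ?_⟩
    rw [hq]; exact (Submodule.Quotient.mk_eq_zero _).2 hM
  set s := (Finsupp.finite_of_degree_lt (σ := ι) r).toFinset
  set g₁ := ∑ β ∈ s with Finsupp.weight c β = e, coeff β g • monomial β (1 : ℂ) with h₁
  set g₂ := ∑ β ∈ s with ¬ Finsupp.weight c β = e, coeff β g • monomial β (1 : ℂ) with h₂
  have ht : g - (g₁ + g₂) ∈ Od r := by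
    rw [h₁, h₂, Finset.sum_filter_add_sum_filter_not]; exact trunc_mem g r
  have a1 : (Od r).mkQ g₂ ∈ Dq.maxGenEigenspace e := by
    have : (Od r).mkQ g₂ = (Od r).mkQ g - (Od r).mkQ g₁ := by
      have := (Submodule.Quotient.mk_eq_zero _).2 ht
      rw [← Submodule.mkQ_apply, map_sub, map_add, sub_eq_zero] at this
      rw [this, add_sub_cancel_left]
    rw [this]
    refine Submodule.sub_mem _ (hge e g hg) ?_
    rw [h₁, map_sum]
    refine Submodule.sum_mem _ fun β hβ => ?_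
    rw [map_smul]
    exact Submodule.smul_mem _ _ (hge e _ ((Finset.mem_filter.1 hβ).2 ▸ hm β))
  have a2 : (Od r).mkQ g₂ ∈ ⨆ (e' : ℂ) (_ : e' ≠ e), Dq.maxGenEigenspace e' := by
    rw [h₂, map_sum]
    refine Submodule.sum_mem _ fun β hβ => ?_
    rw [map_smul]
    exact Submodule.smul_mem _ _ (Submodule.mem_iSup_of_mem _
      (Submodule.mem_iSup_of_mem (Finset.mem_filter.1 hβ).2 (hge _ _ (hm β))))
  have a3 := Submodule.disjoint_def.1 (Dq.independent_maxGenEigenspace e) _ a1 a2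
  have a4 := mem_Od.1 ((Submodule.Quotient.mk_eq_zero _).1 a3) α (Nat.lt_succ_self _)
  rw [h₂, map_sum, Finset.sum_eq_single α] at a4
  · rw [map_smul, coeff_monomial_same, smul_eq_mul, mul_one] at a4
    exact hα a4
  · intro β _ h
    rw [map_smul, coeff_monomial_ne h.symm, smul_zero]
  · intro h
    exact absurd (Finset.mem_filter.2
      ⟨(Finsupp.finite_of_degree_lt r).mem_toFinset.2 (Nat.lt_succ_self _), hne⟩) h

lemma nilp (W : Matrix ι ι ℂ) (c : ι → ℂ) (hW : ∀ i j, W i j ≠ 0 → c j = c i)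
    (h : ∀ i, ∃ M : ℕ, Pi.single i 1 ᵥ* (W - c i • (1 : Matrix ι ι ℂ)) ^ M = 0) :
    IsNilpotent (W - diagonal c) := by
  have key : ∀ (e : ℂ) (n : ℕ) (p : ι → ℂ), (∀ j, p j ≠ 0 → c j = e) →
      p ᵥ* (W - diagonal c) ^ n = p ᵥ* (W - e • (1 : Matrix ι ι ℂ)) ^ n := fun e n => by
    induction n with
    | zero => simp
    | succ n ih =>
      intro p hp
      have e1 : p ᵥ* (W - diagonal c) = p ᵥ* (W - e • (1 : Matrix ι ι ℂ)) := by
        rw [vecMul_sub, vecMul_sub, vecMul_smul, vecMul_one]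
        congr 1
        funext j
        rw [vecMul_diagonal, Pi.smul_apply, smul_eq_mul]
        by_cases hj : p j = 0
        · rw [hj, zero_mul, mul_zero]
        · rw [hp j hj, mul_comm]
      rw [pow_succ', pow_succ', ← vecMul_vecMul, ← vecMul_vecMul, ← e1]
      refine ih _ fun k hk => ?_
      obtain ⟨j, -, hj⟩ := Finset.exists_ne_zero_of_sum_ne_zero hk
      rw [← hp j (left_ne_zero_of_mul hj)]
      by_cases hjk : j = k
      · rw [hjk]
      · exact hW j k (by simpa [diagonal_apply_ne _ hjk] using right_ne_zero_of_mul hj)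
  choose M hM using h
  refine ⟨∑ i, M i, ?_⟩
  ext i j
  obtain ⟨k, hk⟩ := Nat.exists_eq_add_of_le
    (Finset.single_le_sum (f := M) (fun _ _ => Nat.zero_le _) (Finset.mem_univ i))
  have h1 := key (c i) (M i) (Pi.single i 1) fun j hj => by
    by_contra h'
    exact hj (Pi.single_eq_of_ne (fun h => h' (by rw [h])) _)
  have h2 : Pi.single i 1 ᵥ* (W - diagonal c) ^ (∑ i, M i) = 0 := by
    rw [hk, pow_add, ← vecMul_vecMul, h1, hM, zero_vecMul]
  have := congrFun h2 j
  rwa [single_one_vecMul] at this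

end JORD1

open JORD1 in
theorem jord1 (p3 : S_P3) (p2 : S_P2) : S_JORD1 := by
  intro ι _ _ a v hv0 hva
  let D : Module.End ℂ (PS ι) := (vf v : PS ι →ₗ[ℂ] PS ι)
  have hD : ∀ g, D g = vf v g := fun _ => rfl
  have ho : ∀ r, ∀ g ∈ Od r, D g ∈ Od r := fun r g hg => vf_mem (fun i β γ hβ hγ => by
    have h1 : 1 ≤ Finsupp.degree β := Od_one.2 (hv0 i) β hβ
    have h2 : r ≤ Finsupp.degree (γ + Finsupp.single i 1) := hγ
    change r ≤ Finsupp.degree (β + γ)
    rw [map_add, Finsupp.degree_single] at h2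
    rw [map_add]; omega) hg
  have hh : ∀ e, ∀ g ∈ Sup {α | Finsupp.weight a α = e},
      D g ∈ Sup {α | Finsupp.weight a α = e} := fun e g hg => vf_mem (fun i β γ hβ hγ => by
    have h2 : Finsupp.weight a (γ + Finsupp.single i 1) = e := hγ
    change Finsupp.weight a (β + γ) = e
    rw [map_add, Finsupp.weight_single, one_smul] at h2
    rw [map_add, hva i β hβ, add_comm, h2]) hg
  obtain ⟨P, c, hP, hPa, hPc⟩ := basis a (lin fun i => D (X i)) fun j k h => by
    have h1 : coeff (Finsupp.single k 1) (v j) ≠ 0 := by rw [← vf_X v j]; exact h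
    have := hva j _ h1
    rw [Finsupp.weight_single, one_smul] at this
    exact this.symm
  have hl1 : ∀ i, ∑ j, P i j • (X j : PS ι) ∈ Od 1 := fun i =>
    Submodule.sum_mem _ fun j _ => Submodule.smul_mem _ _ (X_Od j)
  have hy : ∀ i, ∃ y ∈ Sup {α | Finsupp.weight a α = a i},
      y - ∑ j, P i j • (X j : PS ι) ∈ Od 2 ∧ GE D (c i) y := fun i => by
    obtain ⟨M, hM⟩ := hPc i
    refine lift (M₀ := M) _ _ (sub_mem' (hh _) _) (fun r => sub_mem' (ho r) _) ?_ ?_
    · refine Submodule.sum_mem _ fun j _ => ?_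
      by_cases h : P i j = 0
      · rw [h, zero_smul]; exact Submodule.zero_mem _
      · refine Submodule.smul_mem _ _ fun α hα => ?_
        rw [coeff_X] at hα
        have : α = Finsupp.single j 1 := by by_contra h'; exact hα (if_neg h')
        change Finsupp.weight a α = a i
        rw [this, Finsupp.weight_single, one_smul, hPa i j h]
    · exact Od_two (pow_mem (sub_mem' (ho 1) _) M (hl1 i))
        (by rw [lam_pow ho _ _ (hl1 i), lam_sum]; exact hM)
  choose y hya hy2 hyg using hy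
  have hlin : lin y = P := by
    ext i j
    have := lam_Od (hy2 i)
    rw [map_sub, lam_sum, sub_eq_zero] at this
    exact congrFun this j
  obtain ⟨φ, hφ⟩ := p2 ℂ ι y (fun i => Od_one.1 (by
    have := Submodule.add_mem _ (Od_mono one_le_two (hy2 i)) (hl1 i)
    rwa [sub_add_cancel] at this)) (hlin ▸ hP)
  have hord : ∀ (ψ : PS ι ≃ₐ[ℂ] PS ι) r g, g ∈ Od r → ψ g ∈ Od r := fun ψ r g hg =>
    Od_iff.2 ((Od_iff.1 hg).trans ((p3.1 ℂ ι ι ψ.toAlgHom).2.1 g))
  let E : Module.End ℂ (PS ι) := φ.symm.toLinearMap ∘ₗ D ∘ₗ φ.toLinearMap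
  have hE : ∀ g, E g = φ.symm (vf v (φ g)) := fun _ => rfl
  have hoE : ∀ r, ∀ g ∈ Od r, E g ∈ Od r := fun r g hg =>
    hord φ.symm r _ (ho r _ (hord φ r g hg))
  have hL : ∀ g h, E (g * h) = E g * h + g * E h := fun g h => by
    rw [hE, hE, hE, map_mul, Derivation.leibniz, smul_eq_mul, smul_eq_mul, map_add, map_mul,
      map_mul, φ.symm_apply_apply, φ.symm_apply_apply]
    ring
  have hpw : ∀ (e : ℂ) (n : ℕ) (g : PS ι), ((E - e • (1 : Module.End ℂ (PS ι))) ^ n) g =
      φ.symm (((D - e • (1 : Module.End ℂ (PS ι))) ^ n) (φ g)) := fun e n g => by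
    induction n with
    | zero => simp
    | succ n ih =>
      rw [pow_succ', pow_succ', Module.End.mul_apply, Module.End.mul_apply, ih]
      simp only [LinearMap.sub_apply, LinearMap.smul_apply, Module.End.one_apply, hE, hD,
        φ.apply_symm_apply, map_sub, map_smul]
  have hX : ∀ i, GE E (c i) (X i) := fun i r => by
    obtain ⟨M, hM⟩ := hyg i r
    exact ⟨M, by rw [hpw, hφ]; exact hord _ r _ hM⟩
  have hm : ∀ β, GE E (Finsupp.weight c β) (monomial β (1 : ℂ)) := by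
    refine mono_ind (fun β g => GE E (Finsupp.weight c β) g) (fun r => ⟨1, ?_⟩) (fun i => ?_)
      fun β γ g h hg hh => ?_
    · rw [pow_one, map_zero, zero_smul, sub_zero, hE, map_one, Derivation.map_one_eq_zero,
        map_zero]
      exact Submodule.zero_mem _
    · rw [Finsupp.weight_single, one_smul]; exact hX i
    · rw [map_add]; exact GE_mul hoE hL hg hh
  have hw : ∀ i, IsHom c (c i) (E (X i)) := fun i => GE_hom hoE c hm fun r => by
    obtain ⟨M, hM⟩ := hX i r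
    refine ⟨M, ?_⟩
    have hc : Commute ((E - c i • (1 : Module.End ℂ (PS ι))) ^ M) E :=
      ((Commute.refl E).sub_left ((Commute.one_left E).smul_left _)).pow_left M
    rw [← Module.End.mul_apply, hc.eq, Module.End.mul_apply]
    exact hoE r _ hM
  refine ⟨φ.symm, c, fun e g => ?_, hw, nilp (lin fun i => E (X i)) c (fun i j h => ?_) fun i => ?_⟩
  · rw [← hom_iff a φ (hord φ) (fun i => by rw [hφ]; exact hya i) e (φ.symm g), φ.apply_symm_apply]
  · have := hw i _ h
    rwa [Finsupp.weight_single, one_smul] at this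
  · obtain ⟨M, hM⟩ := hX i 2
    exact ⟨M, by rw [← lam_X, ← lam_pow hoE _ _ (X_Od i)]; exact lam_Od hM⟩

end Pool.Agent.MP_51db15_ag.Hy
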