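import Pool.Agent.MP_51db15_ag.Hy.Rows
import Pool.Agent.MP_51db15_ag.Hy.Base

/-! Generalised eigenvectors of a vector field in normal form. -/

namespace Pool.Agent.MP_51db15_ag.Hy

open MvPowerSeries Matrix

namespace JORD2

section Gen

variable {V : Type} [AddCommGroup V] [Module ℂ V] {t : Module.End ℂ V} {W : Submodule ℂ V}

theorem st (h : ∀ x ∈ W, t x ∈ W) {x : V} (hx : x ∈ W) (n : ℕ) : (t ^ n) x ∈ W := by
  induction n with
  | zero => simpa using hx
  | succ n ih => rw [pow_succ']; exact h _ ih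

theorem st' (h : ∀ x ∈ W, t x ∈ W) {x : V} {M n : ℕ} (hx : (t ^ M) x ∈ W) (hn : M ≤ n) :
    (t ^ n) x ∈ W := by
  obtain ⟨k, rfl⟩ := Nat.exists_eq_add_of_le' hn
  rw [pow_add]
  exact st h hx k

theorem bil {a b : Module.End ℂ V} (h : ∀ x ∈ W, t x ∈ W) (B : V → V → V)
    (hB : ∀ x y, t (B x y) - B (a x) y - B x (b y) ∈ W) (n : ℕ) : ∀ (x y : V) (p q : ℕ),
    p + q = n → (∀ i j, p ≤ i ∨ q ≤ j → B ((a ^ i) x) ((b ^ j) y) ∈ W) → (t ^ n) (B x y) ∈ W := by
  induction n with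
  | zero => exact fun x y p q e H => by simpa using H 0 0 (by omega)
  | succ n ih =>
    intro x y p q e H
    by_cases h0 : p = 0 ∨ q = 0
    · exact st h (by simpa using H 0 0 (by omega)) _
    have h1 := ih (a x) y (p - 1) q (by omega) fun i j hij => by
      simpa [pow_succ] using H (i + 1) j (by omega)
    have h2 := ih x (b y) p (q - 1) (by omega) fun i j hij => by
      simpa [pow_succ] using H i (j + 1) (by omega)
    have h3 := W.add_mem (W.add_mem (st h (hB x y) n) h2) h1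
    rw [← map_add, ← map_add, sub_add_cancel, sub_add_cancel] at h3
    rw [pow_succ]
    exact h3

theorem sep (h : ∀ x ∈ W, t x ∈ W) (E : Finset ℂ) {e : ℂ} (he : e ∈ E) (y : ℂ → V)
    (hy : ∀ μ : ℂ, ∃ M : ℕ, ((t - μ • 1) ^ M) (y μ) ∈ W) {g : V}
    (hg : ∃ M : ℕ, ((t - e • 1) ^ M) g ∈ W) (hs : g - ∑ μ ∈ E, y μ ∈ W) : g - y e ∈ W := by
  classical
  let q : Module.End ℂ (V ⧸ W) := W.mapQ W t h
  have k1 : ∀ (μ : ℂ) (M : ℕ) (x : V),
      ((q - μ • 1) ^ M) (W.mkQ x) = W.mkQ (((t - μ • 1) ^ M) x) := by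
    intro μ M x
    induction M with
    | zero => rfl
    | succ M ih =>
      rw [pow_succ', pow_succ', Module.End.mul_apply, Module.End.mul_apply, ih]
      simp [q]
  have k2 : ∀ (μ : ℂ) (x : V), (∃ M : ℕ, ((t - μ • 1) ^ M) x ∈ W) →
      W.mkQ x ∈ q.maxGenEigenspace μ := fun μ x ⟨M, hM⟩ =>
    (q.mem_maxGenEigenspace _ _).2 ⟨M, by rw [k1]; exact (Submodule.Quotient.mk_eq_zero W).2 hM⟩
  refine (Submodule.Quotient.mk_eq_zero W).1 (Submodule.disjoint_def.1
    (q.independent_maxGenEigenspace e) (W.mkQ (g - y e)) ?_ ?_)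
  · rw [map_sub]
    exact Submodule.sub_mem _ (k2 _ _ hg) (k2 _ _ (hy e))
  · have k3 : W.mkQ (g - ∑ μ ∈ E, y μ) = 0 := (Submodule.Quotient.mk_eq_zero W).2 hs
    rw [← Finset.add_sum_erase _ _ he, ← sub_sub, map_sub, sub_eq_zero] at k3
    rw [k3, map_sum]
    exact Submodule.sum_mem _ fun μ hμ => Submodule.mem_iSup_of_mem μ
      (Submodule.mem_iSup_of_mem (Finset.ne_of_mem_erase hμ) (k2 _ _ (hy μ)))

end Gen

variable {ι : Type} [Fintype ι]

/-- powers of the maximal ideal -/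
noncomputable abbrev mm (ι : Type) (r : ℕ) : Ideal (PS ι) := IsLocalRing.maximalIdeal (PS ι) ^ r

/-- the field as an operator -/
noncomputable abbrev op (v : ι → PS ι) : Module.End ℂ (PS ι) := (vf v).toLinearMap

theorem op_sub (v : ι → PS ι) (e : ℂ) (g : PS ι) : (op v - e • 1) g = vf v g - C e * g := by
  simp [smul_eq_C_mul]

theorem iter (v : ι → PS ι) (e : ℂ) (M : ℕ) (g : PS ι) :
    (fun h => vf v h - C e * h)^[M] g = ((op v - e • 1) ^ M) g := by
  rw [Module.End.pow_apply]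
  congr 1
  exact funext fun h => (op_sub v e h).symm

theorem pd_mem {r : ℕ} {g : PS ι} (h : g ∈ mm ι (r + 1)) (i : ι) : pderiv ℂ i g ∈ mm ι r :=
  mem_pow_iff_order.2 (le_order_pderiv (mem_pow_iff_order.1 h) i)

theorem vf_mem (v : ι → PS ι) {r : ℕ} {g : PS ι} (h : g ∈ mm ι (r + 1)) : vf v g ∈ mm ι r := by
  rw [vf_apply]
  exact Ideal.sum_mem _ fun i _ => Ideal.mul_mem_left _ _ (pd_mem h i)

theorem vf_up {v : ι → PS ι} (hv : ∀ i, constantCoeff (v i) = 0) {r : ℕ} {g : PS ι}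
    (h : g ∈ mm ι r ∨ r = 1) : vf v g ∈ mm ι r := by
  rw [vf_apply]
  refine Ideal.sum_mem _ fun i _ => ?_
  rcases r with _ | r
  · simp [mm]
  · rw [mm, pow_succ']
    refine Ideal.mul_mem_mul (mem_max_iff.2 (hv i)) ?_
    rcases h with h | h
    · exact pd_mem h i
    · simp [show r = 0 by omega]

theorem euler {c : ι → ℂ} {e : ℂ} {g : PS ι} (hg : IsHom c e g) :
    vf (fun i => C (c i) * X i) g = C e * g := by
  classical
  ext α
  rw [vf_apply, map_sum, coeff_C_mul]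
  have h1 : ∀ i, coeff α (C (c i) * X i * pderiv ℂ i g) = c i * (α i : ℂ) * coeff α g := by
    intro i
    rw [mul_assoc, coeff_C_mul, mul_assoc, X_def, coeff_monomial_mul]
    congr 1
    split_ifs with h
    · rw [one_mul, coeff_pderiv, tsub_add_cancel_of_le h]
      have h2 : 1 ≤ α i := by simpa using h
      simp only [Finsupp.coe_tsub, Pi.sub_apply, Finsupp.single_eq_same, Nat.cast_sub h2]
      push_cast
      ring
    · have h2 : α i = 0 := by simpa using h
      simp [h2]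
  simp only [h1]
  rw [← Finset.sum_mul]
  by_cases h : coeff α g = 0
  · simp [h]
  · rw [← hg α h, Finsupp.weight_apply, Finsupp.sum_fintype _ _ (by simp)]
    simp [mul_comm]

variable [DecidableEq ι]

theorem lin_mem {w : ι → PS ι} (hw : ∀ i, constantCoeff (w i) = 0) (i : ι) :
    w i - ∑ j, lin w i j • X j ∈ mm ι 2 := by
  refine mem_pow_iff_order.2 (nat_le_order fun α hα => ?_)
  rw [map_sub, map_sum]
  simp only [map_smul, coeff_X]
  rcases (by omega : Finsupp.degree α = 0 ∨ Finsupp.degree α = 1) with h | h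
  · obtain rfl := (Finsupp.degree_eq_zero_iff α).1 h
    simp [hw i, eq_comm]
  · obtain ⟨k, rfl⟩ : α ∈ Set.range fun a : ι => Finsupp.single a 1 :=
      Finsupp.range_single_one ▸ h
    simp [Finsupp.single_left_inj, lin]

theorem pow_X {w : ι → PS ι} (hw : ∀ i, constantCoeff (w i) = 0) (s : ℕ) (i : ι) :
    (op w ^ s) (X i) - ∑ j, (lin w ^ s) i j • X j ∈ mm ι 2 := by
  induction s with
  | zero => simp [one_apply]
  | succ s ih =>
    have h1 := vf_up hw (Or.inl ih)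
    have h2 : ∑ j, (lin w ^ s) i j • (w j - ∑ k, lin w j k • X k) ∈ mm ι 2 :=
      Ideal.sum_mem _ fun j _ => Submodule.smul_of_tower_mem _ _ (lin_mem hw j)
    convert add_mem h1 h2 using 1
    rw [pow_succ', pow_succ, map_sub, map_sum]
    simp only [Derivation.map_smul, vf_X, smul_sub, Finset.sum_sub_distrib, mul_apply,
      Finset.sum_smul, Finset.smul_sum, smul_smul]
    rw [Finset.sum_comm]
    simp

theorem nilp {w : ι → PS ι} (hw : ∀ i, constantCoeff (w i) = 0) (hn : IsNilpotent (lin w))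
    (r : ℕ) (g : PS ι) : ∃ M : ℕ, (op w ^ M) g ∈ mm ι r := by
  obtain ⟨k, hk⟩ := hn
  have hs : ∀ r, ∀ x ∈ (mm ι r).restrictScalars ℂ, op w x ∈ (mm ι r).restrictScalars ℂ :=
    fun r x hx => vf_up hw (Or.inl hx)
  have h1 : ∀ r : ℕ, ∀ g ∈ mm ι r, ∃ M : ℕ, (op w ^ M) g ∈ (mm ι (r + 1)).restrictScalars ℂ := by
    intro r
    induction r with
    | zero => exact fun g _ => ⟨1, by simpa using vf_up hw (Or.inr rfl)⟩
    | succ r ih =>
      intro g hg
      obtain ⟨q, hq, rfl⟩ := exists_sum_X_mul (mem_pow_iff_order.1 hg)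
      refine Finset.sum_induction _ (fun g => ∃ M : ℕ, (op w ^ M) g ∈
        (mm ι (r + 1 + 1)).restrictScalars ℂ) (fun x y ⟨M, hM⟩ ⟨N, hN⟩ => ⟨M + N, ?_⟩)
        ⟨0, by simp⟩ fun i _ => ?_
      · rw [map_add]
        exact add_mem (st' (hs _) hM (by omega)) (st' (hs _) hN (by omega))
      have h2 := mem_pow_iff_order.2 (hq i)
      obtain ⟨M, hM⟩ := ih _ h2
      refine ⟨k + M, bil (a := op w) (b := op w) (hs _) (· * ·) (fun x y => ?_) _ _ _ k M rfl
        fun a b hab => ?_⟩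
      · have : op w (x * y) - op w x * y - x * op w y = 0 := by
          change vf w (x * y) - vf w x * y - x * vf w y = 0
          rw [vf_mul]; ring
        rw [this]
        exact zero_mem _
      · change _ ∈ IsLocalRing.maximalIdeal (PS ι) ^ (r + 1 + 1)
        rcases hab with h | h
        · rw [show r + 1 + 1 = 2 + r by ring, pow_add]
          refine Ideal.mul_mem_mul (st' (hs 2) ?_ h) (st (hs r) h2 b)
          simpa [hk] using pow_X hw k i
        · rw [add_comm, pow_add]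
          exact Ideal.mul_mem_mul (st (hs 1) (by simpa [mm] using mem_max_iff.2 (by simp)) a)
            (st' (hs _) hM h)
  induction r with
  | zero => exact ⟨0, by simp [mm]⟩
  | succ r ih =>
    obtain ⟨M, hM⟩ := ih
    obtain ⟨N, hN⟩ := h1 r _ hM
    exact ⟨N + M, by rw [pow_add]; exact hN⟩

theorem hom_nil {v : ι → PS ι} {c : ι → ℂ} (h0 : ∀ i, constantCoeff (v i) = 0)
    (h1 : ∀ i, IsHom c (c i) (v i)) (h2 : IsNilpotent (lin v - diagonal c)) {e : ℂ} {g : PS ι}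
    (hg : IsHom c e g) (r : ℕ) : ∃ M : ℕ, ((op v - e • 1) ^ M) g ∈ mm ι r := by
  obtain ⟨w, hw⟩ : ∃ w : ι → PS ι, w = v - fun i => C (c i) * X i := ⟨_, rfl⟩
  have h3 : lin w = lin v - diagonal c := by
    ext i j
    simp [hw, lin, coeff_X, diagonal_apply, Finsupp.single_left_inj, eq_comm]
  have h4 : ∀ i, IsHom c (c i + 0) (w i) := fun i => by
    rw [hw, add_zero]
    exact (h1 i).sub ((isHom_X i).C_mul _)
  have h5 : ∀ M : ℕ, IsHom c e ((op w ^ M) g) ∧ ((op v - e • 1) ^ M) g = (op w ^ M) g := by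
    intro M
    induction M with
    | zero => exact ⟨hg, rfl⟩
    | succ M ih =>
      rw [pow_succ', pow_succ', Module.End.mul_apply, Module.End.mul_apply, ih.2, op_sub]
      refine ⟨(IsHom.vf h4 ih.1).congr (zero_add e), ?_⟩
      rw [← euler ih.1, ← vf_sub, ← hw]
      rfl
  obtain ⟨M, hM⟩ := nilp (w := w) (fun i => by simp [hw, h0]) (h3 ▸ h2) r g
  exact ⟨M, (h5 M).2 ▸ hM⟩

omit [DecidableEq ι] in
theorem stab {v : ι → PS ι} (h0 : ∀ i, constantCoeff (v i) = 0) {I : Ideal (PS ι)}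
    (hI : ∀ h ∈ I, vf v h ∈ I) (r : ℕ) : ∀ x ∈ (I ⊔ mm ι r).restrictScalars ℂ,
      op v x ∈ (I ⊔ mm ι r).restrictScalars ℂ := fun x hx => by
  obtain ⟨y, hy, z, hz, rfl⟩ := Submodule.mem_sup.1 hx
  rw [map_add]
  exact Submodule.add_mem_sup (hI y hy) (vf_up h0 (Or.inl hz))

omit [DecidableEq ι] in
theorem sup_iff {I : Ideal (PS ι)} {r : ℕ} {g : PS ι} :
    g ∈ I ⊔ mm ι r ↔ ∃ h ∈ I, (r : ℕ∞) ≤ (g - h).order := by
  rw [Submodule.mem_sup]
  constructor
  · rintro ⟨y, hy, z, hz, rfl⟩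
    exact ⟨y, hy, by simpa using mem_pow_iff_order.1 hz⟩
  · rintro ⟨y, hy, h⟩
    exact ⟨y, hy, _, mem_pow_iff_order.2 h, by simp⟩

end JORD2

open JORD2

theorem jord2 : S_JORD2 := by
  intro ι _ _ v c h0 h1 h2
  refine ⟨fun e g hg r => ?_, fun I hI => ?_⟩
  · obtain ⟨M, hM⟩ := hom_nil h0 h1 h2 hg r
    exact ⟨M, by rw [iter]; exact mem_pow_iff_order.1 hM⟩
  have key : ∀ e g, (∀ r : ℕ, ∃ M : ℕ, ∃ h ∈ I,
      (r : ℕ∞) ≤ ((fun h => vf v h - C e * h)^[M] g - h).order) → g - comp c e g ∈ I := by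
    classical
    intro e g hg
    refine mem_ideal_of_approx I fun r => sup_iff.1 ?_
    obtain ⟨E, hE⟩ := exists_comp_approx (F := ℂ) (a := c) r
    obtain ⟨M, hM⟩ := hg r
    refine sep (stab h0 hI r) (insert e E) (Finset.mem_insert_self _ _) (fun μ => comp c μ g)
      (fun μ => ?_) ⟨M, by rw [← iter]; exact sup_iff.2 hM⟩
      (Submodule.mem_sup_right (mem_pow_iff_order.2 (hE _ (Finset.subset_insert _ _) g)))
    obtain ⟨N, hN⟩ := hom_nil h0 h1 h2 (isHom_comp μ g) r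
    exact ⟨N, Submodule.mem_sup_right hN⟩
  refine ⟨fun g hg e => ?_, key⟩
  simpa using I.sub_mem hg (key e g fun r => ⟨0, g, hg, by simp⟩)

theorem jpoi : S_JPOI := by
  intro ι _ _ f Θ a w d v c hf hP hG hL hb h0 h1 h2
  have hI : ∀ h ∈ Ideal.span {f}, vf v h ∈ Ideal.span {f} := fun h hh =>
    Ideal.mem_span_singleton.2 (vf_dvd hL (Ideal.mem_span_singleton.1 hh))
  obtain ⟨k1, k2⟩ := (jord2 ι v c h0 h1 h2).2 _ hI
  obtain ⟨α, hα, hd⟩ := exists_coeff_ne_zero_and_order (ne_zero_iff_order_finite.1 hf.ne_zero)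
  obtain ⟨q, hq⟩ := Ideal.mem_span_singleton.1
    (k1 f (Ideal.mem_span_singleton_self f) (Finsupp.weight c α))
  have hu : IsUnit q := by
    rw [isUnit_iff']
    intro h
    have h3 : coeff α (f * q) ≠ 0 := by rwa [← hq, coeff_comp, if_pos rfl]
    have h4 := (add_le_add_right (one_le_order_iff_constCoeff_eq_zero.2 h) f.order).trans
      (le_order_mul.trans (order_le h3))
    rw [← hd] at h4
    have h5 : Finsupp.degree α + 1 ≤ Finsupp.degree α := by exact_mod_cast h4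
    omega
  obtain ⟨u, rfl⟩ := hu
  have hf' : f = (u⁻¹ : (PS ι)ˣ) * comp c (Finsupp.weight c α) f := by
    rw [hq, mul_comm f, Units.inv_mul_cancel_left]
  have hX : ∀ i j, br Θ (X i) (X j) = Θ i j := fun i j => by
    simp [br, vf_X, pderiv_X, Pi.single_apply]
  refine ⟨comp c (Finsupp.weight c α) f, Matrix.of fun i j => comp c (c i + c j) (Θ i j), _,
    ⟨⟨u⁻¹, hf'⟩, ?_, fun i j => ?_⟩, ⟨hG.1.comp _ _, fun i j => (hG.2 i j).comp _ _⟩,
    isHom_comp _ _, fun i j => isHom_comp _ _⟩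
  · ext1 i j
    have h3 : Θ j i = -Θ i j := congrFun (congrFun hP.skew i) j
    simp [h3, comp_neg, add_comm]
  refine (Dvd.intro_left _ hf'.symm).trans ?_
  change f ∣ comp c (c i + c j) (Θ i j) - br Θ (X i) (X j)
  rw [hX, ← dvd_neg, neg_sub, ← Ideal.mem_span_singleton]
  refine k2 _ _ fun r => ?_
  have hs : ∀ (e : ℂ) {J : Ideal (PS ι)}, (∀ x ∈ J.restrictScalars ℂ, op v x ∈
      J.restrictScalars ℂ) → ∀ x ∈ J.restrictScalars ℂ, (op v - e • 1) x ∈ J.restrictScalars ℂ :=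
    fun e J hJ x hx => sub_mem (hJ x hx) (Submodule.smul_mem _ e hx)
  have hm : ∀ x ∈ (mm ι (r + 1)).restrictScalars ℂ, op v x ∈ (mm ι (r + 1)).restrictScalars ℂ :=
    fun x hx => vf_up h0 (Or.inl hx)
  obtain ⟨M, hM⟩ := hom_nil h0 h1 h2 (isHom_X i) (r + 1)
  obtain ⟨N, hN⟩ := hom_nil h0 h1 h2 (isHom_X j) (r + 1)
  refine ⟨M + N, sup_iff.1 ?_⟩
  rw [iter, ← hX]
  refine bil (a := op v - c i • 1) (b := op v - c j • 1) (hs _ (stab h0 hI r)) (br Θ)
    (fun x y => Submodule.mem_sup_left (Ideal.mem_span_singleton.2 ?_)) _ _ _ M N rfl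
    fun s t hst => Submodule.mem_sup_right (Ideal.sum_mem _ fun k _ => ?_)
  · convert hb x y using 1
    simp only [op_sub, br, map_sub, map_add, vf_C, Derivation.leibniz, pderiv_C,
      smul_eq_mul, sub_mul, mul_sub, Finset.sum_sub_distrib, add_mul, mul_zero, add_zero,
      ← Finset.mul_sum, mul_assoc, mul_left_comm (pderiv ℂ _ x) (C _)]
    ring
  · rcases hst with h | h
    · exact Ideal.mul_mem_right _ _ (pd_mem (st' (hs _ hm) hM h) k)
    · exact Ideal.mul_mem_left _ _ (vf_mem _ (st' (hs _ hm) hN h))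

end Pool.Agent.MP_51db15_ag.Hy
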