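import Pool.Agent.MP_51db15_ag.Hy.Rows
import Pool.Agent.MP_51db15_ag.Hy.Base

/-! Tangency to the leaves. -/

namespace Pool.Agent.MP_51db15_ag.Hy

open MvPowerSeries Matrix

namespace LT

variable {ι : Type} [Fintype ι] [DecidableEq ι]

omit [DecidableEq ι] in
theorem form_sum {f : PS ι} {r : (ι → PS ι) → (ι → PS ι) → PS ι} (h : IsForm f r) {S : Type}
    (T : Finset S) (η : S → PS ι) (x : S → ι → PS ι) (hx : ∀ s, Log f (x s)) {v : ι → PS ι}
    (hv : Log f v) : f ∣ r (∑ s ∈ T, η s • x s) v - ∑ s ∈ T, η s * r (x s) v := by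
  classical
  have m : ∀ s, η s • x s ∈ logM f := fun s => (logM f).smul_mem _ (hx s)
  induction T using Finset.induction_on with
  | empty => simpa using h.smul 0 v v hv hv
  | insert a T ha ih =>
    rw [Finset.sum_insert ha, Finset.sum_insert ha]
    have h1 := h.add _ _ v (m a) ((logM f).sum_mem fun s (_ : s ∈ T) => m s) hv
    have h2 := h.smul (η a) (x a) v (hx a) hv
    have := dvd_add (dvd_add h1 h2) ih
    rwa [show ∀ a b c d e : PS ι, a - b - c + (b - d) + (c - e) = a - (d + e) from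
      fun _ _ _ _ _ => by ring] at this

variable {K : Type} [Field K] [Algebra ℂ K] {φ : PS ι →ₐ[ℂ] K}

omit [DecidableEq ι] in
theorem dfr_eq {w : ι → PS ι} {D : Derivation ℂ K K} (hD : ∀ a, D (φ a) = φ (vf w a))
    (a b : PS ι) : dfr φ w a b = D (φ a / φ b) := by
  rw [Derivation.leibniz_div, hD, hD, dfr]
  simp only [smul_eq_mul]
  ring

omit [DecidableEq ι] in
theorem dq_eq (w : ι → PS ι) (a b : PS ι) : dq φ a b ⬝ᵥ (fun k => φ (w k)) = dfr φ w a b := by
  simp only [dq, dfr, dotProduct, vf_apply, map_sum, map_mul, Finset.sum_mul, Finset.mul_sum,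
    ← Finset.sum_sub_distrib, Finset.sum_div]
  exact Finset.sum_congr rfl fun k _ => by ring

omit [Algebra ℂ K] in
theorem mul_non {V : ValuationSubring K} {x y : K} (hx : x ∈ V) (hy : y ∈ V.nonunits) :
    x * y ∈ V.nonunits := by
  rw [ValuationSubring.mem_nonunits_iff, map_mul] at *
  exact lt_of_le_of_lt (mul_le_of_le_one_left' ((V.valuation_le_one_iff x).mpr hx)) hy

theorem core (lift : S_LIFT) (kae : S_KAE) (zorn : S_ZORN) {f : PS ι} {Θ : Matrix ι ι (PS ι)}
    {r : (ι → PS ι) → (ι → PS ι) → PS ι} {v y : ι → PS ι} {c : ℂ} {P : Ideal (PS ι)}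
    (hf : Prime f) (hΘ : Poi f Θ) (hr : IsForm f r) (hH : Ham f r Θ) (hE : EExt f Θ v)
    (hv : Log f v) (hy : Log f y) (hl : ∀ k, f ∣ lie v y k - C c * y k) (hP : P.IsPrime)
    (hfP : f ∈ P) (hvP : ∀ g ∈ P, vf v g ∈ P) (hyP : ∀ k, y k ∈ P) (hk : KerIs f φ)
    (fr : ∀ z : K, ∃ a b, z = φ a / φ b) : r y v ∈ P := by
  have cg : ∀ {a b}, f ∣ a - b → φ a = φ b := fun h => by
    rw [← sub_eq_zero, ← map_sub]; exact (hk _).mpr h
  have ex : ∀ w, Log f w → ∃ D : Derivation ℂ K K, ∀ a, D (φ a) = φ (vf w a) := fun w hw =>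
    lift (PS ι) K φ (φ.toLinearMap ∘ₗ (vf w).toLinearMap) fr
      (fun a b => by
        change φ (vf w (a * b)) = φ a * φ (vf w b) + φ b * φ (vf w a)
        rw [vf_mul, map_add, map_mul, map_mul, mul_comm (φ b)])
      fun a ha => (hk _).mpr (vf_dvd hw ((hk a).mp ha))
  obtain ⟨D, hD⟩ := ex v hv
  obtain ⟨Y, hY⟩ := ex y hy
  have com : ∀ z, D (Y z) - Y (D z) = c • Y z := by
    have e : ∀ a, (⁅D, Y⁆ - c • Y) (φ a) = 0 := by
      intro a
      rw [Derivation.sub_apply, Derivation.commutator_apply, Derivation.smul_apply, hY, hD, hD, hY,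
        ← map_sub, ← vf_lie, cg (vf_congr (w := (C c : PS ι) • y) hl a), vf_smul, ← map_smul,
        smul_eq_C_mul, sub_self]
    intro z
    obtain ⟨a, b, rfl⟩ := fr z
    have := (⁅D, Y⁆ - c • Y).leibniz_div (φ a) (φ b)
    rw [e, e, smul_zero, smul_zero, sub_zero, smul_zero, Derivation.sub_apply,
      Derivation.commutator_apply, Derivation.smul_apply, sub_eq_zero] at this
    exact this
  have sj : Function.Surjective φ.rangeRestrict := φ.rangeRestrict_surjective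
  have ker : RingHom.ker φ.rangeRestrict ≤ P := fun a ha =>
    P.mem_of_dvd ((hk a).mp (congrArg Subtype.val ha)) hfP
  have mem : ∀ a, φ.rangeRestrict a ∈ P.map φ.rangeRestrict ↔ a ∈ P := fun a => by
    rw [← Ideal.mem_comap, Ideal.comap_map_of_surjective _ sj, sup_eq_left.mpr]
    exact ker
  obtain ⟨V, V1, V2, V3, V4⟩ := zorn K φ.range Y D c (P.map φ.rangeRestrict)
    (isNoetherianRing_of_surjective (PS ι) _ φ.rangeRestrict.toRingHom sj)
    (fun z => by
      obtain ⟨a, b, e⟩ := fr z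
      exact ⟨_, ⟨a, rfl⟩, _, ⟨b, rfl⟩, e⟩)
    (Ideal.map_isPrime_of_surjective sj ker) com
    (fun a => by
      obtain ⟨g, rfl⟩ := sj a
      refine ⟨φ.rangeRestrict (vf y g), (mem _).mpr ?_, hY g⟩
      rw [vf_apply]
      exact P.sum_mem fun i _ => P.mul_mem_right _ (hyP i))
    (by
      rintro _ ⟨g, rfl⟩
      exact ⟨vf v g, (hD g).symm⟩)
    (fun a ha => by
      obtain ⟨g, rfl⟩ := sj a
      exact ⟨φ.rangeRestrict (vf v g), (mem _).mpr (hvP g ((mem g).mp ha)), hD g⟩)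
  obtain ⟨⟨s, hs, hη⟩, k2⟩ := kae ι f Θ hf hΘ
  obtain ⟨η, hη⟩ := hη y hy
  have s0 : φ s ≠ 0 := fun h => hs ((hk s).mp h)
  obtain ⟨S, _, cc, a, b, a', b', h1, h2⟩ := ((k2 K φ hk).2 V).mp
    (hE K φ hk V (fun g => V1 _ ⟨g, rfl⟩) fun a b _ h => by rw [dfr_eq hD]; exact V4 _ h)
  have h3 := h2 (fun i => φ (η i) / φ s) (fun k => φ (y k)) (fun k => φ (v k))
    (fun k => by
      have := cg (hη k)
      rw [map_mul, map_sum] at this
      simp only [div_mul_eq_mul_div, ← Finset.sum_div, ← map_mul]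
      rw [eq_div_iff s0, mul_comm, this])
    (by
      have := (hk _).mpr hv
      rw [vf_apply, map_sum] at this
      simpa only [map_mul, mul_comm] using this)
  have h4 : φ (r y v) = ∑ i, φ (η i) / φ s * φ (v i) := by
    simp only [div_mul_eq_mul_div, ← Finset.sum_div, ← map_mul]
    have t : ∀ i, Log f (Θ i) := fun i => (hH i).1
    rw [eq_div_iff s0, mul_comm, ← map_mul, ← cg (hr.smul s y v hy hv),
      cg (hr.cong _ (∑ i, η i • Θ i) v ((logM f).smul_mem s hy)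
        ((logM f).sum_mem fun i _ => (logM f).smul_mem _ (t i)) hv fun k => by
          simpa only [Finset.sum_apply, Pi.smul_apply, smul_eq_mul] using hη k),
      cg (form_sum hr _ η (fun i => Θ i) t hv), map_sum]
    exact Finset.sum_congr rfl fun i _ => by rw [map_mul, map_mul, cg ((hH i).2 v hv)]
  refine (mem _).mp ((V2 _).mp ?_)
  change φ (r y v) ∈ V.nonunits
  rw [h4, h3]
  refine sum_mem fun t _ => mul_non (h1 t).1 (sub_mem ?_ ?_) <;>
    rw [dq_eq, dq_eq, dfr_eq hY, dfr_eq hD, mul_comm]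
  · exact mul_non (V4 _ (h1 t).2.2.2.2) (V3 _ (h1 t).2.2.2.1)
  · exact mul_non (V4 _ (h1 t).2.2.2.1) (V3 _ (h1 t).2.2.2.2)

end LT

theorem lt (lift : S_LIFT) (kae : S_KAE) (zorn : S_ZORN) : S_LT := by
  intro ι _ _ f Θ r v y c P hf hΘ hr hH hE hv hy hl hP hfP hvP hyP
  have : (Ideal.span {f}).IsPrime := (Ideal.span_singleton_prime hf.ne_zero).mpr hf
  refine LT.core (K := FractionRing (PS ι ⧸ Ideal.span {f}))
    (φ := (IsScalarTower.toAlgHom ℂ (PS ι ⧸ Ideal.span {f}) _).comp (Ideal.Quotient.mkₐ ℂ _))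
    lift kae zorn hf hΘ hr hH hE hv hy hl hP hfP hvP hyP (fun g => ?_) fun z => ?_
  · rw [← Ideal.mem_span_singleton, ← Ideal.Quotient.eq_zero_iff_mem]
    exact map_eq_zero_iff _ (IsFractionRing.injective (PS ι ⧸ Ideal.span {f}) _)
  · obtain ⟨a, b, -, rfl⟩ := IsFractionRing.div_surjective (A := PS ι ⧸ Ideal.span {f}) z
    obtain ⟨a, rfl⟩ := Ideal.Quotient.mk_surjective a
    obtain ⟨b, rfl⟩ := Ideal.Quotient.mk_surjective b
    exact ⟨a, b, rfl⟩

end Pool.Agent.MP_51db15_ag.Hy
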