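import Pool.Agent.MP_51db15_ag.Hy.Rows

/-! Minimal primes of differential ideals; derivations of fraction fields. -/

namespace Pool.Agent.MP_51db15_ag.Hy

namespace MINP

theorem exists_pow {A : Type} [CommRing A] {I Q : Ideal A} (hQ : Q ∈ I.minimalPrimes) {a : A}
    (ha : a ∈ Q) : ∃ n : ℕ, ∃ s ∉ Q, s * a ^ n ∈ I := by
  obtain ⟨⟨h1, h2⟩, h3⟩ := hQ
  have : Q.map (algebraMap A (Localization.AtPrime Q)) ≤ (I.map (algebraMap _ _)).radical := by
    rw [Ideal.radical_eq_sInf, le_sInf_iff]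
    rintro q ⟨hq', hq⟩
    obtain ⟨k1, k2⟩ := ((IsLocalization.AtPrime.orderIsoOfPrime _ Q) ⟨q, hq⟩).2
    rw [Ideal.map_le_iff_le_comap] at hq' ⊢
    exact h3 ⟨k1, hq'⟩ k2
  obtain ⟨n, hn⟩ := this (Ideal.mem_map_of_mem _ ha)
  rw [IsLocalization.mem_map_algebraMap_iff (M := Q.primeCompl)] at hn
  obtain ⟨⟨c, b⟩, hn⟩ := hn
  rw [← map_pow, ← map_mul, IsLocalization.eq_iff_exists Q.primeCompl] at hn
  obtain ⟨t, ht⟩ := hn
  refine ⟨n, t * b, (t * b).2, ?_⟩
  simp only at ht
  have : (t.1 * b.1) * a ^ n = t.1 * c := by rw [← ht]; ring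
  rw [this]
  exact I.mul_mem_left _ c.2

theorem leib_pow {A : Type} [CommRing A] {D : A →+ A} (hD : Leib D) (a : A) (n : ℕ) :
    D (a ^ (n + 1)) = (n + 1 : ℕ) * a ^ n * D a := by
  induction n with
  | zero => simp
  | succ n ih => rw [pow_succ, hD, ih]; push_cast; ring

end MINP

theorem minp : S_MINP := by
  classical
  intro A _ _ D I Q hD hI hQ a ha
  have hp : Q.IsPrime := hQ.1.1
  have H := MINP.exists_pow hQ ha
  obtain ⟨s, hs, hsa⟩ := Nat.find_spec H
  obtain ⟨n, hn⟩ : ∃ n, Nat.find H = n + 1 := by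
    refine Nat.exists_eq_succ_of_ne_zero fun h0 => hs (hQ.1.2 ?_)
    simpa [h0] using hsa
  rw [hn] at hsa
  by_contra hDa
  refine Nat.find_min H (m := n) (by omega) ⟨s * s * (n + 1 : ℕ) * D a, fun h => ?_, ?_⟩
  · have hu : IsUnit ((n + 1 : ℕ) : A) := by
      have : IsUnit ((n + 1 : ℕ) : ℚ) := isUnit_iff_ne_zero.2 (by positivity)
      simpa using this.map (algebraMap ℚ A)
    rcases hp.mem_or_mem h with h | h
    · rcases hp.mem_or_mem h with h | h
      · exact hs ((hp.mem_or_mem h).elim id id)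
      · exact hp.ne_top (Ideal.eq_top_of_isUnit_mem _ h hu)
    · exact hDa h
  · have h1 := hI _ hsa
    rw [hD, MINP.leib_pow hD] at h1
    have h2 : s * s * (n + 1 : ℕ) * D a * a ^ n =
        s * (s * ((n + 1 : ℕ) * a ^ n * D a) + a ^ (n + 1) * D s) - D s * (s * a ^ (n + 1)) := by
      ring
    rw [h2]
    exact I.sub_mem (I.mul_mem_left _ h1) (I.mul_mem_left _ hsa)

theorem lift : S_LIFT := by
  intro A K _ _ _ _ φ D₀ hfr hL hk
  have hex : ∀ y : K, ∃ a b, φ b ≠ 0 ∧ y * φ b = φ a := fun y => by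
    obtain ⟨a, b, rfl⟩ := hfr y
    by_cases hb : φ b = 0
    · exact ⟨0, 1, by simp, by simp [hb]⟩
    · exact ⟨a, b, hb, div_mul_cancel₀ _ hb⟩
  choose nu de hde hnu using hex
  let d : K → K := fun y => (D₀ (nu y) - y * D₀ (de y)) / φ (de y)
  have key : ∀ y a b, y * φ b = φ a → φ b * d y = D₀ a - y * D₀ b := fun y a b h => by
    have h1 : D₀ (a * de y - nu y * b) = 0 := hk _ (by
      rw [map_sub, map_mul, map_mul, ← h, ← hnu]; ring)
    rw [map_sub, hL, hL, ← h, ← hnu] at h1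
    have h2 := hde y
    simp only [d]
    field_simp
    linear_combination -h1
  have own : ∀ y, φ (de y) * d y = D₀ (nu y) - y * D₀ (de y) := fun y => key y _ _ (hnu y)
  have hadd : ∀ x y, d (x + y) = d x + d y := fun x y => by
    have h := key (x + y) (nu x * de y + nu y * de x) (de x * de y) (by
      rw [map_add, map_mul, map_mul, map_mul, ← hnu, ← hnu]; ring)
    rw [map_add, hL, hL, hL, map_mul, ← hnu, ← hnu] at h
    refine mul_left_cancel₀ (mul_ne_zero (hde x) (hde y)) ?_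
    linear_combination h - φ (de y) * own x - φ (de x) * own y
  have hsm : ∀ (c : ℂ) x, d (c • x) = c • d x := fun c x => by
    have h := key (c • x) (c • nu x) (de x) (by rw [map_smul, ← hnu, smul_mul_assoc])
    refine mul_left_cancel₀ (hde x) ?_
    rw [h, mul_smul_comm, own, map_smul, smul_sub, smul_mul_assoc]
  have hmul : ∀ x y, d (x * y) = x * d y + y * d x := fun x y => by
    have h := key (x * y) (nu x * nu y) (de x * de y) (by
      rw [map_mul, map_mul, ← hnu, ← hnu]; ring)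
    rw [hL, hL, map_mul, ← hnu, ← hnu] at h
    refine mul_left_cancel₀ (mul_ne_zero (hde x) (hde y)) ?_
    linear_combination h - y * φ (de y) * own x - x * φ (de x) * own y
  let L : K →ₗ[ℂ] K := ⟨⟨d, hadd⟩, hsm⟩
  refine ⟨Derivation.mk' L fun x y => by simpa [L] using hmul x y, fun a => ?_⟩
  have h := key (φ a) a 1 (by simp)
  have h1 : D₀ 1 = 0 := by
    have := hL 1 1
    simpa using this
  simpa [h1, L] using h

end Pool.Agent.MP_51db15_ag.Hy
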