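import Pool.Agent.MP_51db15_ag.Hy.Rows
import Pool.Agent.MP_51db15_ag.Hy.Base

/-! The Jacobian criterion at a prime of the ring of power series. -/

namespace Pool.Agent.MP_51db15_ag.Hy

open MvPowerSeries Matrix

namespace NAG

open Polynomial IsLocalRing

/-- an integral element is a simple root of a polynomial -/
theorem simple {A B : Type} [CommRing A] [IsDomain A] [CharZero A] [CommRing B] [Algebra A B]
    (hφ : ∀ a, algebraMap A B a = 0 → a = 0) (ξ : B) (n : ℕ) : ∀ P : A[X], P.natDegree = n →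
    P ≠ 0 → aeval ξ P = 0 → ∃ P : A[X], aeval ξ P = 0 ∧ aeval ξ (derivative P) ≠ 0 := by
  induction n using Nat.strong_induction_on with
  | _ n ih =>
    intro P hn h0 h
    by_cases h1 : aeval ξ (derivative P) = 0
    swap
    · exact ⟨P, h, h1⟩
    have hd : P.natDegree ≠ 0 := fun e => by
      rw [eq_C_of_natDegree_eq_zero e, aeval_C] at h
      exact h0 (by rw [eq_C_of_natDegree_eq_zero e, hφ _ h, map_zero])
    exact ih _ (hn ▸ natDegree_derivative_lt hd) _ rfl
      (fun e => hd (derivative_eq_zero.1 e)) h1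

variable {A O ι : Type} [CommRing A] [IsDomain A] [CommRing O] [IsNoetherianRing O]
  [IsLocalRing O] [Algebra A O] [Fintype ι] {Q I : Ideal O} [Q.IsPrime] {x : ι → O}

/-- first order statement -/
theorem sq [Module.Finite A (O ⧸ Q)] (hI : I ≤ Q) (hx : maximalIdeal O = Ideal.span (Set.range x))
    (hc : ∀ g : O, ∃ a : A, g - algebraMap A O a ∈ maximalIdeal O)
    (inj : ∀ a, algebraMap A O a ∈ Q → a = 0)
    (hP : ∀ i, ∃ P : A[X], aeval (x i) P ∈ I ∧ aeval (x i) (derivative P) ∉ Q) :
    ∀ h ∈ Q, ∃ s ∈ Q.primeCompl, s * h ∈ I ⊔ Q * Q := by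
  classical
  intro h hh
  set J := I ⊔ Q * Q
  have hJ : J ≤ Q := sup_le hI Ideal.mul_le_left
  let π := Ideal.Quotient.mkₐ A J
  have sj : ∀ y, ∃ g, π g = y := Ideal.Quotient.mk_surjective
  let q : Ideal (O ⧸ J) := Q.map (Ideal.Quotient.mk J)
  have hq : ∀ g, π g ∈ q ↔ g ∈ Q := fun g => Ideal.mem_quotient_iff_mem hJ
  have hqp : q.IsPrime :=
    Ideal.map_isPrime_of_surjective Ideal.Quotient.mk_surjective (by rwa [Ideal.mk_ker])
  have : Module.Finite A (O ⧸ J) := Module.finite_of_surjective_of_ker_le_nilradical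
    (Ideal.Quotient.factorₐ A hJ) (Ideal.Quotient.factor_surjective hJ) (fun y hy => by
      obtain ⟨g, rfl⟩ := sj y
      have hg : g ∈ Q := Ideal.Quotient.eq_zero_iff_mem.1 hy
      refine ⟨2, ?_⟩
      rw [← map_pow, pow_two]
      exact Ideal.Quotient.eq_zero_iff_mem.2 (Ideal.mem_sup_right (Ideal.mul_mem_mul hg hg)))
    (IsNoetherian.noetherian _)
  let D := KaehlerDifferential.D A (O ⧸ J)
  have top : (⊤ : Submodule (O ⧸ J) Ω[(O ⧸ J)⁄A]) ≤
      Submodule.span _ (Set.range fun i => D (π (x i))) := by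
    refine Submodule.le_of_le_smul_of_le_jacobson_bot Module.Finite.fg_top
      (I := (maximalIdeal O).map (Ideal.Quotient.mk J)) ?_ ?_
    · refine Ideal.map_le_iff_le_comap.2 fun g hg => Ideal.mem_jacobson_bot.2 fun y => ?_
      obtain ⟨y, rfl⟩ := sj y
      have := (Ideal.mem_jacobson_bot.1 (maximalIdeal_le_jacobson _ hg) y).map π
      rwa [map_add, map_mul, map_one] at this
    · conv_lhs => rw [← KaehlerDifferential.span_range_derivation]
      rw [Submodule.span_le]
      rintro _ ⟨y, rfl⟩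
      obtain ⟨g, rfl⟩ := sj y
      obtain ⟨a, ha⟩ := hc g
      have e : D (π g) = D (π (g - algebraMap A O a)) := by
        rw [map_sub, map_sub, π.commutes, D.map_algebraMap, sub_zero]
      change D (π g) ∈ _
      rw [e]
      generalize g - algebraMap A O a = g at ha
      rw [hx] at ha
      induction ha using Submodule.span_induction with
      | mem y hy =>
        obtain ⟨i, rfl⟩ := hy
        exact Submodule.mem_sup_left (Submodule.subset_span ⟨i, rfl⟩)
      | zero => simp
      | add y z _ _ h1 h2 => rw [map_add, map_add]; exact add_mem h1 h2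
      | smul r y hy h1 =>
        rw [smul_eq_mul, map_mul, D.leibniz]
        exact add_mem (Submodule.smul_mem _ _ h1) (Submodule.mem_sup_right
          (Submodule.smul_mem_smul (Ideal.mem_map_of_mem _ (hx ▸ hy)) trivial))
  choose P h1 h2 using hP
  have un : Algebra.IsUnramifiedAt A q := by
    have : (⟨q, hqp⟩ : PrimeSpectrum _) ∈ Algebra.unramifiedLocus A (O ⧸ J) := by
      rw [Algebra.unramifiedLocus_eq_compl_support]
      refine Module.notMem_support_iff'.2 fun ω => ⟨π (∏ i, aeval (x i) (derivative (P i))),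
        fun hm => Q.primeCompl.prod_mem (fun i _ => h2 i) ((hq _).1 hm), ?_⟩
      have hω := top (Submodule.mem_top (x := ω))
      induction hω using Submodule.span_induction with
      | mem y hy =>
        obtain ⟨i, rfl⟩ := hy
        have e := D.map_aeval (P i) (π (x i))
        rw [aeval_algHom_apply, aeval_algHom_apply,
          show π (aeval (x i) (P i)) = 0 from
            Ideal.Quotient.eq_zero_iff_mem.2 (Ideal.mem_sup_left (h1 i)), map_zero] at e
        rw [← Finset.prod_erase_mul _ _ (Finset.mem_univ i), map_mul, mul_smul, ← e, smul_zero]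
      | zero => exact smul_zero _
      | add y z _ _ h1 h2 => rw [smul_add, h1, h2, add_zero]
      | smul r y _ h1 => rw [smul_comm, h1, smul_zero]
    exact this
  have : q.LiesOver (⊥ : Ideal A) := ⟨bot_le.antisymm fun a ha =>
    inj a ((hq _).1 (by rw [π.commutes]; exact ha))⟩
  let := Localization.AtPrime.algebraOfLiesOver (⊥ : Ideal A) q
  have e := ((Algebra.isUnramifiedAt_iff_map_eq A ⊥ q).1 un).2
  have m := (IsLocalization.AtPrime.to_map_mem_maximal_iff (Localization.AtPrime q) q _).2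
    ((hq h).2 hh)
  rw [← e, Ideal.map_bot, Ideal.mem_bot, IsLocalization.map_eq_zero_iff q.primeCompl] at m
  obtain ⟨⟨s, hs⟩, m⟩ := m
  obtain ⟨s, rfl⟩ := sj s
  exact ⟨s, fun k => hs ((hq s).2 k), Ideal.Quotient.eq_zero_iff_mem.1 ((map_mul π s h).trans m)⟩

omit [IsLocalRing O] in
theorem nak (h : ∀ h ∈ Q, ∃ s ∈ Q.primeCompl, s * h ∈ I ⊔ Q * Q) :
    ∀ h ∈ Q, ∃ s ∉ Q, s * h ∈ I := by
  intro g hg
  have : Q.map (algebraMap O (Localization.AtPrime Q)) ≤ I.map (algebraMap O _) := by
    refine Submodule.le_of_le_smul_of_le_jacobson_bot (IsNoetherian.noetherian _)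
      (I := Q.map (algebraMap O (Localization.AtPrime Q))) ?_ ?_
    · rw [Localization.AtPrime.map_eq_maximalIdeal]
      exact maximalIdeal_le_jacobson _
    · rw [smul_eq_mul, ← Ideal.map_mul, ← Ideal.map_sup]
      exact Ideal.map_le_iff_le_comap.2 fun y hy =>
        (IsLocalization.algebraMap_mem_map_algebraMap_iff Q.primeCompl _ _ _).2 (h y hy)
  exact (IsLocalization.algebraMap_mem_map_algebraMap_iff Q.primeCompl _ _ _).1
    (this (Ideal.mem_map_of_mem _ hg))

omit [IsDomain A] [IsNoetherianRing O] [IsLocalRing O] in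
theorem der {F : Type} [CommRing F] [Algebra F O] (D : Derivation F O O)
    (hD : ∀ a, D (algebraMap A O a) = 0) (y : O) (P : A[X]) :
    D (aeval y P) = aeval y (derivative P) * D y := by
  induction P using Polynomial.induction_on' with
  | add p r h1 h2 => simp only [map_add, h1, h2, add_mul]
  | monomial n a =>
    rw [derivative_monomial, aeval_monomial, aeval_monomial, D.leibniz, hD, D.leibniz_pow]
    simp only [smul_eq_mul, nsmul_eq_mul, map_mul, map_natCast]
    ring

end NAG

namespace NAG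

variable {ι : Type} [Fintype ι] [DecidableEq ι]

theorem core (p3 : S_P3) {d : ℕ} (e : Fin d ↪ ι) (Q : Ideal (PS ι)) [Q.IsPrime]
    (inj : ∀ g : PS (Fin d), rename e g ∈ Q → g = 0)
    (fin : ((Ideal.Quotient.mk Q).comp (rename e : PS (Fin d) →ₐ[ℂ] PS ι).toRingHom).Finite) :
    ∃ u S, Nag Q u S := by
  let : Algebra (PS (Fin d)) (PS ι) := (rename e : PS (Fin d) →ₐ[ℂ] PS ι).toRingHom.toAlgebra
  have al : ∀ g, algebraMap (PS (Fin d)) (PS ι) g = rename e g := fun _ => rfl
  have : Module.Finite (PS (Fin d)) (PS ι ⧸ Q) := fin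
  have : CharZero (PS (Fin d)) := algebraRat.charZero _
  have : IsDomain (PS (Fin d)) := NoZeroDivisors.to_isDomain _
  let π := Ideal.Quotient.mkₐ (PS (Fin d)) Q
  have z : ∀ g, π g = 0 ↔ g ∈ Q := fun g => Ideal.Quotient.eq_zero_iff_mem
  have : ∀ i : ι, ∃ P : Polynomial (PS (Fin d)), Polynomial.aeval (X i : PS ι) P ∈ Q ∧
      Polynomial.aeval (X i : PS ι) (Polynomial.derivative P) ∉ Q := fun i => by
    obtain ⟨W, w1, w2⟩ := IsIntegral.of_finite (PS (Fin d)) (π (X i))
    obtain ⟨P, a, b⟩ := simple (fun a h => inj a ((z _).1 ((π.commutes a).trans h))) (π (X i)) _ W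
      rfl w1.ne_zero w2
    rw [Polynomial.aeval_algHom_apply] at a b
    exact ⟨P, (z _).1 a, fun h => b ((z _).2 h)⟩
  choose P h1 h2 using this
  let S : Finset ι := Finset.univ.filter fun i => i ∉ Set.range e
  have hS : ∀ i, i ∈ S ↔ i ∉ Set.range e := fun i => by simp [S]
  let u : ι → PS ι := fun i => if i ∈ S then Polynomial.aeval (X i) (P i) else X i
  have u1 : ∀ i ∈ S, u i = Polynomial.aeval (X i) (P i) := fun i hi => if_pos hi
  have u2 : ∀ i ∉ S, u i = X i := fun i hi => if_neg hi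
  refine ⟨u, S, fun hd => ?_, fun i hi => u1 i hi ▸ h1 i, nak (sq (A := PS (Fin d))
    (x := X) ?_ max_eq_span (fun g => ⟨C (constantCoeff g), ?_⟩) inj fun i => ?_)⟩
  · rw [← Ideal.Quotient.eq_zero_iff_mem, RingHom.map_det, ← exists_mulVec_eq_zero_iff] at hd
    obtain ⟨v, v0, hv⟩ := hd
    have r : ∀ i, ∑ k, Ideal.Quotient.mk Q (pderiv ℂ k (u i)) * v k = 0 := fun i => congrFun hv i
    have a : ∀ i ∉ S, v i = 0 := fun i hi => by
      have := r i
      rwa [u2 i hi, Finset.sum_eq_single i (fun k _ hk => by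
        rw [pderiv_X_of_ne hk.symm, map_zero, zero_mul]) (by simp), pderiv_X_self, map_one,
        one_mul] at this
    have dd : ∀ i, ∀ k ∈ S, pderiv ℂ k (Polynomial.aeval (X i : PS ι) (P i)) =
        Polynomial.aeval (X i) (Polynomial.derivative (P i)) * pderiv ℂ k (X i) :=
      fun i k hk => der _ (fun g => by
        rw [al, (p3.1 ℂ _ _ (rename e)).2.2.1]
        exact Finset.sum_eq_zero fun l _ => by
          rw [rename_X, pderiv_X_of_ne fun h => (hS k).1 hk ⟨l, h⟩, mul_zero]) _ _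
    refine v0 (funext fun i => ?_)
    by_cases hi : i ∈ S
    swap
    · exact a i hi
    have := r i
    rw [u1 i hi, Finset.sum_eq_single i (fun k _ hk => by
      by_cases hk' : k ∈ S
      · rw [dd i k hk', pderiv_X_of_ne hk.symm, mul_zero, map_zero, zero_mul]
      · rw [a k hk', mul_zero]) (by simp), dd i i hi, pderiv_X_self, mul_one] at this
    exact (mul_eq_zero.1 this).resolve_left fun h => h2 i ((z _).1 h)
  · rw [Ideal.span_le]
    rintro _ ⟨i, hi, rfl⟩
    exact u1 i hi ▸ h1 i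
  · rw [mem_max_iff, al, rename_C]
    simp
  · by_cases hi : i ∈ S
    · exact ⟨P i, Ideal.subset_span ⟨i, hi, u1 i hi⟩, h2 i⟩
    · obtain ⟨l, rfl⟩ := not_not.1 fun h => hi ((hS i).2 h)
      refine ⟨Polynomial.X - Polynomial.C (X l), ?_, ?_⟩
      · simp [al]
      · simpa using (Ideal.ne_top_iff_one Q).1 Ideal.IsPrime.ne_top'

theorem jac (p3 : S_P3) (ψ : PS ι ≃ₐ[ℂ] PS ι) (u : ι → PS ι) :
    (Matrix.of fun i j => pderiv ℂ j (ψ (u i))).det =
      ψ (Matrix.of fun i j => pderiv ℂ j (u i)).det *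
        (Matrix.of fun i j => pderiv ℂ j (ψ (X i))).det := by
  rw [AlgEquiv.map_det, ← det_mul]
  congr 1
  ext1 i j
  exact (p3.1 ℂ _ _ (ψ : PS ι →ₐ[ℂ] PS ι)).2.2.1 (u i) j

end NAG

open NAG in
theorem nag (p3 : S_P3) (nn : S_NN) : S_NAG := by
  intro ι _ _ Q hQ
  obtain ⟨d, e, ψ, h1, h2⟩ := nn ι Q hQ.ne_top
  let ε : (PS ι ⧸ Q.comap ψ) ≃+* PS ι ⧸ Q := Ideal.quotientEquiv _ _ ψ.toRingEquiv
    (Ideal.map_comap_of_surjective ψ ψ.surjective Q).symm
  obtain ⟨u, S, a, b, c⟩ := core p3 e (Q.comap ψ) h1 (by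
    convert (RingHom.Finite.of_surjective ε.symm.toRingHom ε.symm.surjective).comp h2 using 1
    exact RingHom.ext fun g => (ε.symm_apply_apply _).symm)
  have un : IsUnit (Matrix.of fun i j => pderiv ℂ j (ψ (X i))).det := by
    have := jac p3 ψ fun i => ψ.symm (X i)
    simp only [AlgEquiv.apply_symm_apply] at this
    rw [show (Matrix.of fun i j => pderiv ℂ j (X i : PS ι)) = 1 by
      ext1 i j
      by_cases h : i = j
      · rw [h, of_apply, pderiv_X_self, one_apply_eq]
      · rw [of_apply, pderiv_X_of_ne h, one_apply_ne h], det_one] at this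
    exact IsUnit.of_mul_eq_one_right _ this.symm
  refine ⟨fun i => ψ (u i), S, fun h => ?_, b, fun h hh => ?_⟩
  · rw [jac p3, Ideal.mul_unit_mem_iff_mem _ un] at h
    exact a h
  · obtain ⟨h, rfl⟩ := ψ.surjective h
    obtain ⟨s, s1, s2⟩ := c h hh
    refine ⟨ψ s, s1, ?_⟩
    have := Ideal.mem_map_of_mem ψ s2
    rwa [Ideal.map_span, Set.image_image, map_mul] at this

end Pool.Agent.MP_51db15_ag.Hy
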