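import Pool.Agent.MP_51db15_ag.Hy.Rows

/-! Noether normalisation for quotients of power series rings. -/

namespace Pool.Agent.MP_51db15_ag.Hy

open MvPowerSeries

namespace NN

/-- the conclusion of the normalisation -/
def P {ι : Type} (Q : Ideal (PS ι)) : Prop :=
  ∃ (d : ℕ) (e : Fin d ↪ ι) (ψ : PS ι ≃ₐ[ℂ] PS ι),
    (∀ g : PS (Fin d), ψ (rename e g) ∈ Q → g = 0) ∧
    ((Ideal.Quotient.mk Q).comp ((ψ : PS ι →+* PS ι).comp
      (rename e : PS (Fin d) →ₐ[ℂ] PS ι).toRingHom)).Finite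

theorem fin_comp {A B D : Type} [CommRing A] [CommRing B] [CommRing D] (f : A →+* B)
    (Q : Ideal B) (g : D →+* A) (h1 : ((Ideal.Quotient.mk Q).comp f).Finite)
    (h2 : ((Ideal.Quotient.mk (Q.comap f)).comp g).Finite) :
    ((Ideal.Quotient.mk Q).comp (f.comp g)).Finite := by
  have e1 : (Ideal.Quotient.mk Q).comp f =
      (Ideal.quotientMap Q f le_rfl).comp (Ideal.Quotient.mk (Q.comap f)) := by
    ext x
    simp
  rw [e1] at h1
  have h3 := RingHom.Finite.comp (RingHom.Finite.of_comp_finite h1) h2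
  rw [← RingHom.comp_assoc, ← e1, RingHom.comp_assoc] at h3
  exact h3

theorem step {κ ι : Type} [Finite κ] (f : PS κ →+* PS ι) (j : κ ↪ ι) (Q : Ideal (PS ι))
    (hext : ∀ ψ₁ : PS κ ≃ₐ[ℂ] PS κ, ∃ ψ : PS ι ≃ₐ[ℂ] PS ι, ∀ g, ψ (rename j g) = f (ψ₁ g))
    (hfin : ((Ideal.Quotient.mk Q).comp f).Finite) (h : P (Q.comap f)) : P Q := by
  obtain ⟨d, e, ψ₁, h1, h2⟩ := h
  obtain ⟨ψ, hψ⟩ := hext ψ₁
  have key : ∀ g : PS (Fin d), ψ (rename (e.trans j) g) = f (ψ₁ (rename e g)) := fun g => by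
    rw [← hψ, rename_rename]
    rfl
  refine ⟨d, e.trans j, ψ, fun g hg => h1 g ?_, ?_⟩
  · rw [key] at hg
    exact hg
  · have h3 := fin_comp f Q _ hfin h2
    convert h3 using 2
    ext1 g
    exact key g

theorem bot (n : ℕ) : P (⊥ : Ideal (PS (Fin n))) := by
  have e : ∀ g : PS (Fin n), rename (Function.Embedding.refl (Fin n)) g = g :=
    fun g => rename_id_apply g
  refine ⟨n, Function.Embedding.refl _, AlgEquiv.refl, fun g hg => ?_, ?_⟩
  · rw [e] at hg
    exact hg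
  · refine RingHom.Finite.of_surjective _ fun y => ?_
    obtain ⟨x, rfl⟩ := Ideal.Quotient.mk_surjective y
    exact ⟨x, congrArg (Ideal.Quotient.mk ⊥) (e x)⟩

theorem fin_rename {n : ℕ} (g : PS (Fin n)) :
    finSuccEquiv ℂ n (rename Fin.succ g) = PowerSeries.C g := by
  ext k x
  rw [coeff_coeff_finSuccEquiv, PowerSeries.coeff_C]
  split_ifs with h
  · subst h
    have h1 := coeff_embDomain_rename (Fin.succEmb n) g x
    have e : Finsupp.embDomain (Fin.succEmb n) x = x.cons 0 := by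
      ext i
      refine Fin.cases ?_ (fun i => ?_) i
      · rw [Finsupp.cons_zero, Finsupp.embDomain_of_notMem_range]
        rintro ⟨i, hi⟩
        exact Fin.succ_ne_zero i hi
      · rw [Finsupp.cons_succ]
        exact Finsupp.embDomain_apply_self (Fin.succEmb n) x i
    rw [e] at h1
    exact h1
  · rw [coeff_rename_eq_zero, map_zero]
    rintro ⟨y, hy⟩
    have h1 := congrArg (fun z : Fin (n + 1) →₀ ℕ => z 0) hy
    simp only [Finsupp.cons_zero] at h1
    rw [Finsupp.mapDomain_of_notMem_range] at h1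
    · exact h h1.symm
    · rintro ⟨i, hi⟩
      exact Fin.succ_ne_zero i hi

theorem exists_ext {n : ℕ} (ψ : PS (Fin n) ≃ₐ[ℂ] PS (Fin n)) :
    ∃ ψ' : PS (Fin (n + 1)) ≃ₐ[ℂ] PS (Fin (n + 1)),
      ∀ g, ψ' (rename Fin.succ g) = rename Fin.succ (ψ g) := by
  let E : PowerSeries (PS (Fin n)) ≃ₐ[ℂ] PowerSeries (PS (Fin n)) :=
    AlgEquiv.ofAlgHom (PowerSeries.mapAlgHom (ψ : PS (Fin n) →ₐ[ℂ] PS (Fin n)))
      (PowerSeries.mapAlgHom (ψ.symm : PS (Fin n) →ₐ[ℂ] PS (Fin n)))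
      (AlgHom.ext fun g => PowerSeries.ext fun k => by
        simp [PowerSeries.mapAlgHom_apply, PowerSeries.coeff_map])
      (AlgHom.ext fun g => PowerSeries.ext fun k => by
        simp [PowerSeries.mapAlgHom_apply, PowerSeries.coeff_map])
  have hE : ∀ g, E (PowerSeries.C g) = PowerSeries.C (ψ g) := fun g => by
    simp [E, PowerSeries.mapAlgHom_apply, PowerSeries.map_C]
  refine ⟨(finSuccEquiv ℂ n).trans (E.trans (finSuccEquiv ℂ n).symm), fun g => ?_⟩
  rw [AlgEquiv.trans_apply, AlgEquiv.trans_apply, fin_rename, hE, ← fin_rename,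
    AlgEquiv.symm_apply_apply]

theorem fin_of_span {A B : Type} [CommRing A] [CommRing B] (f : A →+* B) {k : ℕ} (v : Fin k → B)
    (h : ∀ y, ∃ r : Fin k → A, y = ∑ i, f (r i) * v i) : f.Finite := by
  letI := f.toAlgebra
  refine Module.Finite.of_surjective (Fintype.linearCombination A v) fun y => ?_
  obtain ⟨r, hr⟩ := h y
  exact ⟨r, by rw [hr, Fintype.linearCombination_apply]; rfl⟩

theorem fin_case (wp : S_WP) (n : ℕ) : ∀ Q : Ideal (PS (Fin n)), Q ≠ ⊤ → P Q := by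
  induction n with
  | zero =>
    intro Q hQ
    have : Q = ⊥ := by
      refine (Submodule.eq_bot_iff _).2 fun g hg => ?_
      by_contra h0
      refine hQ (Ideal.eq_top_of_isUnit_mem Q hg ?_)
      rw [isUnit_iff_constantCoeff, isUnit_iff_ne_zero]
      intro hc
      refine h0 (MvPowerSeries.ext fun α => ?_)
      rw [Subsingleton.elim α 0, coeff_zero_eq_constantCoeff_apply, hc, map_zero]
    rw [this]
    exact bot 0
  | succ n ih =>
    intro Q hQ
    by_cases hb : Q = ⊥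
    · rw [hb]
      exact bot _
    obtain ⟨h, hhQ, h0⟩ := Submodule.exists_mem_ne_zero_of_ne_bot hb
    obtain ⟨w1, w2, w3⟩ := wp ℂ n
    obtain ⟨k, hk⟩ : ∃ k : ℕ, h.order = k :=
      ⟨h.order.toNat, (ne_zero_iff_order_finite.1 h0).symm⟩
    obtain ⟨ψ₀, c1, c2⟩ := w3 inferInstance h k hk
    obtain ⟨u, c, hc, hu⟩ := w1 (ψ₀ h) k c1 fun i hi => coeff_of_lt_order (by
      rw [c2, Finsupp.degree_single]
      exact_mod_cast hi)
    have hw : ψ₀.symm (wpoly c) ∈ Q := by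
      have e : wpoly c = (u⁻¹ : (PS (Fin (n + 1)))ˣ) * ψ₀ h := by
        rw [hu, Units.inv_mul_cancel_left]
      rw [e, map_mul, AlgEquiv.symm_apply_apply]
      exact Q.mul_mem_left _ hhQ
    let f : PS (Fin n) →+* PS (Fin (n + 1)) :=
      (ψ₀.symm : PS (Fin (n + 1)) →+* PS (Fin (n + 1))).comp
        (rename Fin.succ : PS (Fin n) →ₐ[ℂ] PS (Fin (n + 1))).toRingHom
    have hf : ∀ g, f g = ψ₀.symm (rename Fin.succ g) := fun g => rfl
    refine step f (Fin.succEmb n) Q (fun ψ₁ => ?_) ?_ (ih _ (Ideal.comap_ne_top f hQ))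
    · obtain ⟨ψ', hψ'⟩ := exists_ext ψ₁
      exact ⟨ψ'.trans ψ₀.symm, fun g => congrArg ψ₀.symm (hψ' g)⟩
    · refine fin_of_span _
        (fun i : Fin k => Ideal.Quotient.mk Q (ψ₀.symm (X 0 ^ (i : ℕ)))) fun y => ?_
      obtain ⟨x, rfl⟩ := Ideal.Quotient.mk_surjective y
      obtain ⟨q, r, hr⟩ := (w2 k c hc).1 (ψ₀ x)
      refine ⟨r, ?_⟩
      have e := congrArg ψ₀.symm hr
      rw [AlgEquiv.symm_apply_apply, map_add, map_mul, map_sum] at e
      rw [e, map_add, map_mul, Ideal.Quotient.eq_zero_iff_mem.2 hw, mul_zero, zero_add, map_sum]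
      refine Finset.sum_congr rfl fun i _ => ?_
      rw [map_mul, map_mul, RingHom.comp_apply, hf]

end NN

open NN in
theorem nn (wp : S_WP) : S_NN := by
  intro ι _ Q hQ
  let σ : Fin (Fintype.card ι) ≃ ι := (Fintype.equivFin ι).symm
  let Φ : PS (Fin (Fintype.card ι)) ≃ₐ[ℂ] PS ι := renameEquiv ℂ σ
  refine step (Φ : PS (Fin (Fintype.card ι)) →+* PS ι) σ.toEmbedding Q (fun ψ₁ => ?_) ?_
    (fin_case wp _ _ (Ideal.comap_ne_top _ hQ))
  · refine ⟨Φ.symm.trans (ψ₁.trans Φ), fun g => ?_⟩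
    have e : rename σ.toEmbedding g = Φ g := rfl
    rw [e, AlgEquiv.trans_apply, AlgEquiv.symm_apply_apply]
    rfl
  · exact RingHom.Finite.of_surjective _ (Ideal.Quotient.mk_surjective.comp Φ.surjective)

end Pool.Agent.MP_51db15_ag.Hy
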