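import Pool.Agent.MP_51db15_ag.Hy.Rows
import Pool.Agent.MP_51db15_ag.Hy.Base

/-! If the bivector vanishes at the origin, so does every tangent field. -/

namespace Pool.Agent.MP_51db15_ag.Hy

open MvPowerSeries

namespace NV

theorem vf_rename (p3 : S_P3) {κ : Type} [Fintype κ] [DecidableEq κ]
    (y : Option κ → PS (Option κ)) (g : PS κ) :
    vf y (rename some g) = ∑ i, y (some i) * rename some (pderiv ℂ i g) := by
  have h := (p3.1 ℂ κ (Option κ) (rename some)).2.2.1 g
  rw [vf_apply, Fintype.sum_option, h none]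
  have h0 : ∀ i : κ, pderiv ℂ none (rename some (X i : PS κ) : PS (Option κ)) = 0 := fun i => by
    rw [rename_X, pderiv_X_of_ne (by simp)]
  simp only [h0, mul_zero, Finset.sum_const_zero, zero_add]
  refine Finset.sum_congr rfl fun j _ => ?_
  rw [h (some j), Finset.sum_eq_single j]
  · rw [rename_X, pderiv_X_self, mul_one]
  · intro i _ hi
    rw [rename_X, pderiv_X_of_ne (by simpa using hi), mul_zero]
  · simp

theorem dvd_sub {κ : Type} [Fintype κ] (g : PS (Option κ)) :
    (X none : PS (Option κ)) ∣ g - rename some (killCompl .some g) := by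
  rw [X_dvd_iff]
  intro m hm
  obtain ⟨x, rfl⟩ : ∃ x : κ →₀ ℕ, Finsupp.embDomain Function.Embedding.some x = m := by
    refine ⟨m.some, ?_⟩
    ext a
    cases a with
    | none => rw [Finsupp.embDomain_of_notMem_range _ _ _ (by simp), hm]
    | some a => exact Finsupp.embDomain_apply_self Function.Embedding.some _ a
  have h := coeff_embDomain_rename Function.Embedding.some (killCompl .some g) x
  rw [map_sub, ← coeff_killCompl]
  exact sub_eq_zero.2 h.symm

/-- the axis of the new variable -/
def ax (κ : Type) : Unit ↪ Option κ := ⟨fun _ => none, fun _ _ _ => rfl⟩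

theorem ax_rename {κ : Type} [Fintype κ] {g : PS κ} (hg : constantCoeff g = 0) :
    killCompl (ax κ) (rename some g : PS (Option κ)) = 0 := by
  obtain ⟨q, -, rfl⟩ := exists_sum_X_mul (r := 0) (g := g)
    (by simpa using one_le_order_iff_constCoeff_eq_zero.2 hg)
  rw [map_sum, map_sum]
  refine Finset.sum_eq_zero fun i _ => ?_
  rw [map_mul, map_mul, rename_X, killCompl_X_eq_zero, zero_mul]
  rintro ⟨_, h⟩
  exact Option.some_ne_none i h.symm

theorem ax_pderiv {κ : Type} {g : PS (Option κ)} (hg : killCompl (ax κ) g = 0) :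
    killCompl (ax κ) (pderiv ℂ none g) = 0 := by
  refine MvPowerSeries.ext fun x => ?_
  have h : coeff (Finsupp.embDomain (ax κ) x + Finsupp.single none 1) g = 0 := by
    have h := MvPowerSeries.ext_iff.1 hg (x + Finsupp.single () 1)
    rw [coeff_killCompl, Finsupp.embDomain_add, Finsupp.embDomain_single] at h
    exact h
  rw [coeff_killCompl, coeff_pderiv, h, zero_mul]
  rfl

theorem const_kill {σ τ : Type} (e : σ ↪ τ) (g : PS τ) :
    constantCoeff (killCompl e g) = constantCoeff g := by
  rw [← coeff_zero_eq_constantCoeff_apply, coeff_killCompl, Finsupp.embDomain_zero,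
    coeff_zero_eq_constantCoeff_apply]

/-- the straightened case -/
theorem core (p3 : S_P3) (form : S_FORM) (lt : S_LT) {κ : Type} [Fintype κ] [DecidableEq κ]
    (f₁ : PS κ) (Θ : Matrix (Option κ) (Option κ) (PS (Option κ)))
    (hH : Hyp (rename some f₁ : PS (Option κ))) (hP : Poi (rename some f₁) Θ)
    (hE : Ext (rename some f₁) Θ) (hV : Van Θ) : False := by
  obtain ⟨r, r1, -, r3⟩ := form _ _ Θ hH hP
  obtain ⟨D, hD⟩ : ∃ D : Option κ → PS (Option κ), D = Pi.single none 1 := ⟨_, rfl⟩
  obtain ⟨y, hy⟩ : ∃ y : Option κ → PS (Option κ),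
      ∀ k, y k = rename some (killCompl .some (Θ none k)) := ⟨_, fun _ => rfl⟩
  have hD0 : ∀ g : PS κ, vf D (rename some g) = 0 := fun g => by
    rw [vf_rename p3, hD]
    simp
  have hD1 : ∀ g, vf D g = pderiv ℂ none g := fun g => by rw [hD, vf_single, one_mul]
  have f0 : constantCoeff (rename some f₁ : PS (Option κ)) = 0 := Prime.constantCoeff hH.1
  have lD : Log (rename some f₁) D := by
    rw [Log, hD0]
    exact dvd_zero _
  have ly : Log (rename some f₁) y := by
    have h := map_dvd ((rename some : PS κ →ₐ[ℂ] PS (Option κ)).comp (killCompl .some))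
      (hP.tang none)
    rw [vf_rename p3, map_sum] at h
    have e : ∀ g : PS κ, killCompl Function.Embedding.some (rename some g : PS (Option κ)) = g :=
      fun g => killCompl_rename_app (e := Function.Embedding.some) g
    simp only [map_mul, AlgHom.comp_apply, e, ← hy] at h
    rw [Log, vf_rename p3]
    exact h
  choose y' hy' using fun k => dvd_sub (Θ none k)
  have hs : Θ none = y + (X none : PS (Option κ)) • y' := by
    funext k
    rw [Pi.add_apply, Pi.smul_apply, smul_eq_mul, ← hy', hy]
    ring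
  have lty : Log (rename some f₁) ((X none : PS (Option κ)) • y') := by
    have h := hP.tang none
    rw [Log, hs, vf_add] at h
    exact (dvd_add_right ly).1 h
  have ly' : Log (rename some f₁) y' := by
    have h := lty
    rw [Log, vf_smul] at h
    refine (hH.1.dvd_or_dvd h).resolve_left fun h1 => ?_
    have h2 := vf_dvd lD h1
    rw [vf_X, hD, Pi.single_eq_same] at h2
    exact hH.1.not_isUnit (isUnit_of_dvd_one h2)
  have key := lt _ _ Θ r D y 0 (RingHom.ker (killCompl (R := ℂ) (ax κ))) hH.1 hP r1 r3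
    (fun κ' _ _ φ hφ V hV _ => hE κ' φ hφ V hV) lD ly (fun k => by
      have h : vf y (D k) = 0 := by
        rw [hD]
        cases k with
        | none => simp
        | some k => simp
      rw [lie, hy, hD0, h]
      simp) (RingHom.ker_isPrime _)
    (ax_rename (by rwa [constantCoeff_rename] at f0))
    (fun g hg => by
      rw [hD1]
      exact ax_pderiv hg)
    fun k => by
      rw [hy]
      exact ax_rename (by rw [const_kill]; exact hV none k)
  have k0 : constantCoeff (r y D) = 0 := by
    rw [← const_kill (ax κ), RingHom.mem_ker.1 key, map_zero]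
  have cz : ∀ g, rename some f₁ ∣ g → constantCoeff (g : PS (Option κ)) = 0 := by
    rintro _ ⟨q, rfl⟩
    rw [map_mul, f0, zero_mul]
  have a1 := cz _ ((r3 none).2 D lD)
  have a2 := cz _ (r1.add y _ D ly lty lD)
  have a3 := cz _ (r1.smul (X none) y' D ly' lD)
  rw [← hs] at a2
  have a4 : D none = 1 := by rw [hD, Pi.single_eq_same]
  simp only [map_sub, map_mul, a4, map_one, constantCoeff_X, zero_mul, sub_zero, k0] at a1 a2 a3
  rw [a3, sub_zero] at a2
  rw [a2] at a1
  simp at a1

end NV

theorem nv (p3 : S_P3) (str : S_STR) (form : S_FORM) (rel : S_REL) (relx : S_RELX) (lt : S_LT) :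
    S_NV := by
  intro ι _ _ f Θ hH hP hE hV v hv i
  by_contra h0
  obtain ⟨u, hu⟩ := isUnit_iff'.2 h0
  obtain ⟨κ, _, _, ψ, hc, -, -, -, h5⟩ := str ι ((↑u⁻¹ : PS ι) • v) (X i) (by simp) (by
    rw [vf_X, Pi.smul_apply, smul_eq_mul, ← hu, Units.inv_mul])
  obtain ⟨w, f₁, hf⟩ := h5 f (by
    rw [vf_smul]
    exact Dvd.dvd.mul_left hv _)
  have hR : Rel f Θ (rename some f₁) (tr ψ Θ) ψ :=
    ⟨⟨w, hf⟩, ((rel ι _ f Θ ψ).1 hP.skew).2.1, fun i j => by simp [tr]⟩
  have hcard : Fintype.card ι = Fintype.card (Option κ) := by rw [Fintype.card_option, hc]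
  obtain ⟨-, b2, b3, -, b5, -⟩ := (rel ι _ f Θ ψ).2 _ _ hcard hR hH.1 hP
  exact NV.core p3 form lt f₁ _ (b2 hH) b3 ((relx ι _ f Θ ψ _ _ hcard hR hH.1 hP).1 hE) (b5 hV)

end Pool.Agent.MP_51db15_ag.Hy
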