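import Pool.Agent.MP_51db15_ag.Hy.Rows
import Pool.Agent.MP_51db15_ag.Hy.Base

/-! Chain rule and basic facts on algebra maps of power series rings. -/

namespace Pool.Agent.MP_51db15_ag.Hy

open MvPowerSeries Matrix

namespace P13

variable {F ι ι' : Type} [Field F] [Fintype ι]

theorem split (g : MvPowerSeries ι F) :
    ∃ q : ι → MvPowerSeries ι F, g = C (constantCoeff g) + ∑ i, X i * q i := by
  obtain ⟨q, -, h⟩ := exists_sum_X_mul (r := 0) (g := g - C (constantCoeff g))
    (by simpa using one_le_order_iff_constCoeff_eq_zero.2 (by simp))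
  exact ⟨q, by rw [← h, add_sub_cancel]⟩

/-- an additive map that is linear for the variables and kills constants vanishes -/
theorem vanish {S : Type} [CommRing S] (E : MvPowerSeries ι F →+ S) (n : Ideal S) (x : ι → S)
    (hx : ∀ i, x i ∈ n) (hC : ∀ c, E (C c) = 0) (hX : ∀ i g, E (X i * g) = x i * E g)
    (hn : ∀ s, (∀ k : ℕ, s ∈ n ^ k) → s = 0) (g : MvPowerSeries ι F) : E g = 0 := by
  refine hn _ fun k => ?_
  induction k generalizing g with
  | zero => simp
  | succ k ih =>
    obtain ⟨q, h⟩ := split g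
    rw [h, map_add, hC, zero_add, map_sum, pow_succ']
    exact Ideal.sum_mem _ fun i _ => hX i (q i) ▸ Ideal.mul_mem_mul (hx i) (ih _)

theorem sep (s : MvPowerSeries ι F)
    (h : ∀ k : ℕ, s ∈ IsLocalRing.maximalIdeal (MvPowerSeries ι F) ^ k) : s = 0 :=
  order_eq_top_iff.1 (ENat.eq_top_iff_forall_ge.2 fun k => mem_pow_iff_order.1 (h k))

omit [Fintype ι] in
theorem const (ψ : MvPowerSeries ι F →ₐ[F] MvPowerSeries ι' F) (g : MvPowerSeries ι F) :
    constantCoeff (ψ g) = constantCoeff g := by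
  by_contra h
  have h1 : IsUnit (g - C (constantCoeff (ψ g))) :=
    isUnit_iff'.2 (by simpa [sub_eq_zero] using fun e => h e.symm)
  have h2 := isUnit_iff'.1 (h1.map ψ)
  have h3 : ∀ c, ψ (C c) = C c := fun c => ψ.commutes c
  exact h2 (by rw [map_sub, h3]; simp)

end P13

open P13

theorem p1 : S_P1 := by
  classical
  intro F ι S _ _ _ ρ D n hD hC hX hn g
  let E : MvPowerSeries ι F →+ S :=
    { toFun := fun g => D g - ∑ i, ρ (pderiv F i g) * D (X i)
      map_zero' := by simp
      map_add' := fun g h => by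
        simp only [map_add, add_mul, Finset.sum_add_distrib]
        ring }
  refine sub_eq_zero.1 (vanish E n (fun i => ρ (X i)) hX (fun c => ?_) (fun i g => ?_) hn g)
  · show D (C c) - ∑ i, ρ (pderiv F i (C c)) * D (X i) = 0
    simp [hC]
  · show D (X i * g) - ∑ j, ρ (pderiv F j (X i * g)) * D (X j) =
      ρ (X i) * (D g - ∑ j, ρ (pderiv F j g) * D (X j))
    have h1 : ∑ j, ρ g * ρ (pderiv F j (X i)) * D (X j) = D (X i) * ρ g := by
      rw [Finset.sum_eq_single i]
      · rw [pderiv_X_self, map_one, mul_one, mul_comm]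
      · intro j _ h
        rw [pderiv_X_of_ne h.symm, map_zero, mul_zero, zero_mul]
      · simp
    simp only [hD, Derivation.leibniz, smul_eq_mul, map_add, map_mul, add_mul,
      Finset.sum_add_distrib, h1, mul_sub, Finset.mul_sum, mul_assoc (ρ (X i))]
    ring

theorem p3 : S_P3 := by
  refine ⟨fun F ι ι' _ _ _ ψ => ?_, fun F ι _ _ g r => mem_pow_iff_order⟩
  have hC : ∀ (φ : MvPowerSeries ι F →ₐ[F] MvPowerSeries ι' F) c, φ (C c) = C c :=
    fun φ c => φ.commutes c
  have hX : ∀ i, ψ (X i) ∈ IsLocalRing.maximalIdeal (MvPowerSeries ι' F) := fun i =>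
    mem_max_iff.2 (by rw [const]; simp)
  refine ⟨const ψ, fun g => ENat.forall_natCast_le_iff_le.1 fun r hr => ?_, fun g j => ?_,
    fun ψ' h => AlgHom.ext fun g => ?_⟩
  · have h1 := Ideal.mem_map_of_mem ψ (mem_pow_iff_order.2 hr)
    rw [Ideal.map_pow] at h1
    refine mem_pow_iff_order.1 (Ideal.pow_right_mono (Ideal.map_le_iff_le_comap.2 ?_) r h1)
    intro x hx
    exact Ideal.mem_comap.2 (mem_max_iff.2 ((const ψ x).trans (mem_max_iff.1 hx)))
  · exact p1 F ι _ ψ.toRingHom
      ((pderiv F j).toLinearMap.toAddMonoidHom.comp ψ.toRingHom.toAddMonoidHom) _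
      (fun g h => by
        show pderiv F j (ψ (g * h)) = ψ g * pderiv F j (ψ h) + pderiv F j (ψ g) * ψ h
        rw [map_mul, Derivation.leibniz, smul_eq_mul, smul_eq_mul, mul_comm (ψ h)])
      (fun c => by
        show pderiv F j (ψ (C c)) = 0
        rw [hC]
        simp) hX sep g
  · refine sub_eq_zero.1 (vanish (ψ.toRingHom.toAddMonoidHom - ψ'.toRingHom.toAddMonoidHom) _
      (fun i => ψ (X i)) hX (fun c => ?_) (fun i g => ?_) sep g)
    · show ψ (C c) - ψ' (C c) = 0
      rw [hC, hC, sub_self]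
    · show ψ (X i * g) - ψ' (X i * g) = ψ (X i) * (ψ g - ψ' g)
      rw [map_mul, map_mul, ← h, mul_sub]

end Pool.Agent.MP_51db15_ag.Hy
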