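import Pool.Agent.MP_51db15_ag.Hy.Rows
import Pool.Agent.MP_51db15_ag.Hy.Base

/-! The inverse function theorem for power series. -/

namespace Pool.Agent.MP_51db15_ag.Hy

open MvPowerSeries Matrix

namespace P2

/-- a surjective endomorphism of a Noetherian ring is injective -/
theorem inj_of_surj {R : Type} [CommRing R] [IsNoetherianRing R] (f : R →+* R)
    (hf : Function.Surjective f) : Function.Injective f := by
  have hm : Monotone fun n : ℕ => RingHom.ker (f ^ n) := by
    refine monotone_nat_of_le_succ fun n x hx => ?_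
    rw [RingHom.mem_ker] at hx ⊢
    rw [pow_succ', RingHom.mul_def, RingHom.comp_apply, hx, map_zero]
  obtain ⟨n, hn⟩ := monotone_stabilizes_iff_noetherian.2
    (inferInstance : IsNoetherian R R) ⟨_, hm⟩
  have hs : Function.Surjective (f ^ n : R →+* R) := by
    rw [RingHom.coe_pow]
    exact hf.iterate n
  refine (injective_iff_map_eq_zero f).2 fun g hg => ?_
  obtain ⟨h, rfl⟩ := hs g
  have h1 : h ∈ RingHom.ker (f ^ (n + 1)) := by
    rw [RingHom.mem_ker, pow_succ', RingHom.mul_def, RingHom.comp_apply, hg]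
  have h2 : RingHom.ker (f ^ n) = RingHom.ker (f ^ (n + 1)) := hn (n + 1) (Nat.le_succ n)
  rw [← h2] at h1
  exact h1

variable {F ι : Type} [Field F] [Fintype ι] [DecidableEq ι]

theorem two_le_order (g : MvPowerSeries ι F) (h0 : constantCoeff g = 0) :
    ((2 : ℕ) : ℕ∞) ≤ (g - ∑ j, C (coeff (Finsupp.single j 1) g) * X j).order := by
  refine nat_le_order fun β hβ => ?_
  rw [map_sub, map_sum]
  simp only [coeff_C_mul, coeff_X]
  by_cases hb : β = 0
  · subst hb
    have : ∀ j : ι, ¬ (0 : ι →₀ ℕ) = Finsupp.single j 1 := fun j h => by simpa using congr($h j)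
    simp [this, h0]
  · have h1 : β.degree = 1 := by
      have : β.degree ≠ 0 := fun h => hb ((Finsupp.degree_eq_zero_iff β).1 h)
      omega
    obtain ⟨k, rfl⟩ : ∃ k, β = Finsupp.single k 1 := by
      obtain ⟨k, hk⟩ := Finsupp.ne_iff.1 hb
      refine ⟨k, ?_⟩
      have h2 : Finsupp.single k 1 ≤ β := by simpa [Nat.one_le_iff_ne_zero] using hk
      obtain ⟨γ, rfl⟩ := exists_add_of_le h2
      rw [map_add, Finsupp.degree_single] at h1
      have : γ = 0 := (Finsupp.degree_eq_zero_iff γ).1 (by omega)
      rw [this, add_zero]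
    rw [Finset.sum_eq_single k]
    · simp
    · intro j _ hj
      rw [if_neg, mul_zero]
      intro h
      exact hj ((Finsupp.single_left_inj one_ne_zero).1 h).symm
    · simp

theorem span_eq (y : ι → MvPowerSeries ι F) (h0 : ∀ i, constantCoeff (y i) = 0)
    (hd : (lin y).det ≠ 0) :
    Ideal.span (Set.range y) = IsLocalRing.maximalIdeal (MvPowerSeries ι F) := by
  refine le_antisymm (Ideal.span_le.2 ?_) ?_
  · rintro _ ⟨i, rfl⟩
    exact mem_max_iff.2 (h0 i)
  · refine Submodule.le_of_le_smul_of_le_jacobson_bot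
      (I := IsLocalRing.maximalIdeal (MvPowerSeries ι F)) (IsNoetherian.noetherian _)
      (IsLocalRing.maximalIdeal_le_jacobson _) ?_
    set J := Ideal.span (Set.range y) ⊔ IsLocalRing.maximalIdeal (MvPowerSeries ι F) •
      IsLocalRing.maximalIdeal (MvPowerSeries ι F) with hJ
    have h1 : ∀ i, (∑ j, C (lin y i j) * X j : MvPowerSeries ι F) ∈ J := fun i => by
      have a1 : y i ∈ J := Ideal.mem_sup_left (Ideal.subset_span (Set.mem_range_self i))
      have a2 : y i - ∑ j, C (lin y i j) * X j ∈ J := by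
        refine Ideal.mem_sup_right ?_
        rw [smul_eq_mul, ← sq]
        exact mem_pow_iff_order.2 (two_le_order (y i) (h0 i))
      simpa using J.sub_mem a1 a2
    rw [max_eq_span]
    refine Ideal.span_le.2 ?_
    rintro _ ⟨k, rfl⟩
    have h2 : (X k : MvPowerSeries ι F) =
        ∑ i, C ((lin y)⁻¹ k i) * ∑ j, C (lin y i j) * X j := by
      simp only [Finset.mul_sum, ← mul_assoc, ← map_mul]
      rw [Finset.sum_comm]
      simp only [← Finset.sum_mul, ← map_sum, ← Matrix.mul_apply]
      rw [Matrix.nonsing_inv_mul _ (isUnit_iff_ne_zero.2 hd)]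
      rw [Finset.sum_eq_single k]
      · simp
      · intro j _ hj
        rw [Matrix.one_apply_ne (Ne.symm hj), map_zero, zero_mul]
      · simp
    rw [SetLike.mem_coe, h2]
    exact Ideal.sum_mem _ fun i _ => Ideal.mul_mem_left _ _ (h1 i)

end P2

theorem p2 : S_P2 := by
  intro F ι _ _ _ y h0 hd
  have ha : HasSubst y := hasSubst_of_constantCoeff_zero h0
  let ψ : MvPowerSeries ι F →ₐ[F] MvPowerSeries ι F := substAlgHom ha
  have hX : ∀ i, ψ (X i) = y i := fun i => substAlgHom_X ha i
  have hm : (Ideal.span (Set.range X) : Ideal (MvPowerSeries ι F)).map ψ.toRingHom =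
      Ideal.span (Set.range X) := by
    rw [Ideal.map_span, ← Set.range_comp, ← max_eq_span, ← P2.span_eq y h0 hd]
    congr 2
    funext i
    exact hX i
  have hH : IsHausdorff ((Ideal.span (Set.range X) : Ideal (MvPowerSeries ι F)).map ψ.toRingHom)
      (MvPowerSeries ι F) := by
    rw [hm]
    infer_instance
  have hs : Function.Surjective ψ.toRingHom := by
    refine surjective_of_mk_map_comp_surjective (I := Ideal.span (Set.range X)) ψ.toRingHom ?_
    intro q
    obtain ⟨g, rfl⟩ := Ideal.Quotient.mk_surjective q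
    refine ⟨algebraMap F _ (constantCoeff g), ?_⟩
    rw [RingHom.comp_apply, Ideal.Quotient.eq, hm, ← max_eq_span, mem_max_iff]
    have : ψ.toRingHom (algebraMap F _ (constantCoeff g)) = algebraMap F _ (constantCoeff g) :=
      ψ.commutes _
    rw [this]
    simp [MvPowerSeries.algebraMap_apply]
  exact ⟨AlgEquiv.ofBijective ψ ⟨P2.inj_of_surj ψ.toRingHom hs, hs⟩, hX⟩

end Pool.Agent.MP_51db15_ag.Hy
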