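import Pool.Agent.MP_51db15_ag.Hy.Rows

/-! The adjugate of a skew matrix of odd size. -/

namespace Pool.Agent.MP_51db15_ag.Hy

open Matrix

namespace PF

variable {U ι : Type} [CommRing U] [IsDomain U] [Fintype ι] [DecidableEq ι]

theorem line (T : Matrix ι ι U) (h : T.det = 0) {i j : ι} (h0 : T.adjugate i j ≠ 0) (k l : ι) :
    T.adjugate i j * T.adjugate l k = T.adjugate i k * T.adjugate l j := by
  have z : T * T.adjugate = 0 := by rw [mul_adjugate, h, zero_smul]
  have e : T.updateRow j (Pi.single i 1) *ᵥ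
      (fun l => T.adjugate i j * T.adjugate l k - T.adjugate i k * T.adjugate l j) = 0 := by
    funext m
    by_cases g : m = j
    · subst g
      simp only [mulVec, updateRow_self, single_one_dotProduct, Pi.zero_apply]
      ring
    · have a := congrFun (congrFun z m) k
      have b := congrFun (congrFun z m) j
      simp only [Matrix.mul_apply, Matrix.zero_apply] at a b
      simp only [mulVec, dotProduct, updateRow_ne g, Pi.zero_apply, mul_sub, Finset.sum_sub_distrib,
        mul_left_comm (T m _), ← Finset.mul_sum, a, b, mul_zero, sub_self]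
  rw [adjugate_apply] at h0
  exact sub_eq_zero.1 (congrFun (eq_zero_of_mulVec_eq_zero h0 e) l)

theorem gen [UniqueFactorizationMonoid U] (T : Matrix ι ι U) (h : T.det = 0)
    (s : T.adjugateᵀ = T.adjugate) :
    ∃ (c : U) (π : ι → U), T.adjugate = c • vecMulVec π π ∧ T *ᵥ π = 0 := by
  classical
  by_cases h0 : T.adjugate = 0
  · exact ⟨0, 0, by rw [h0, zero_smul], mulVec_zero _⟩
  obtain ⟨i, j, h0⟩ : ∃ i j, T.adjugate i j ≠ 0 := by
    by_contra g
    exact h0 (by ext i j; by_contra k; exact g ⟨i, j, k⟩)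
  let : StrongNormalizationMonoid U := UniqueFactorizationMonoid.strongNormalizationMonoid
  let : StrongNormalizedGCDMonoid U := UniqueFactorizationMonoid.toStrongNormalizedGCDMonoid U
  obtain ⟨π, hπ, p1⟩ := Finset.extract_gcd (fun l => T.adjugate l j) ⟨i, Finset.mem_univ i⟩
  generalize Finset.gcd Finset.univ (fun l => T.adjugate l j) = g at hπ
  have hp : ∀ l, T.adjugate l j = g * π l := fun l => hπ l (Finset.mem_univ l)
  have g0 : g ≠ 0 := left_ne_zero_of_mul (hp i ▸ h0)
  have p0 : π i ≠ 0 := right_ne_zero_of_mul (hp i ▸ h0)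
  have dv : ∀ b, (∀ l, π i ∣ b * π l) → π i ∣ b := fun b hb => by
    have := Finset.dvd_gcd (s := Finset.univ) fun l _ => hb l
    rw [Finset.gcd_mul_left, p1, mul_one] at this
    exact this.trans (normalize_associated b).dvd
  have e : ∀ k l, π i * T.adjugate l k = T.adjugate i k * π l := fun k l =>
    mul_left_cancel₀ g0 (by
      have := line T h h0 k l
      rw [hp i, hp l] at this
      linear_combination this)
  choose r hr using fun k => dv (T.adjugate i k) fun l => ⟨_, (e k l).symm⟩
  have e2 : ∀ k l, T.adjugate l k = r k * π l := fun k l =>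
    mul_left_cancel₀ p0 (by rw [e, hr, mul_assoc])
  have e3 : ∀ k, r i * π k = π i * r k := fun k => by
    rw [← e2, ← hr, ← congrFun (congrFun s k) i, transpose_apply]
  obtain ⟨c, hc⟩ := dv (r i) fun l => ⟨_, e3 l⟩
  refine ⟨c, π, ?_, ?_⟩
  · ext l k
    have : r k = c * π k := mul_left_cancel₀ p0 (by rw [← e3, hc, mul_assoc])
    rw [e2, this, Matrix.smul_apply, vecMulVec_apply, smul_eq_mul]
    ring
  · funext m
    have a := congrFun (congrFun (mul_adjugate T) m) j
    rw [h, zero_smul, Matrix.mul_apply, Matrix.zero_apply] at a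
    refine mul_left_cancel₀ g0 ?_
    simp only [hp, mul_left_comm (T m _), ← Finset.mul_sum] at a
    rw [Pi.zero_apply, mul_zero]
    exact a

end PF

theorem pf : S_PF := by
  intro A ι _ _ _ _ Θ ho hΘ
  obtain ⟨T, hT⟩ : ∃ T : Matrix ι ι (MvPolynomial (ι × ι) ℚ),
      T = of fun i j => MvPolynomial.X (i, j) - MvPolynomial.X (j, i) := ⟨_, rfl⟩
  have t1 : Tᵀ = (-1 : MvPolynomial (ι × ι) ℚ) • T := by
    ext1 i j
    simp [hT]
  have d : T.det = 0 := by
    have := det_transpose T
    rw [t1, det_smul, ho.neg_one_pow, neg_one_mul] at this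
    exact self_eq_neg.1 this.symm
  obtain ⟨c, π, h1, h2⟩ := PF.gen T d (by
    rw [adjugate_transpose, t1, adjugate_smul, (Nat.Odd.sub_odd ho odd_one).neg_one_pow, one_smul])
  obtain ⟨φ, hφ⟩ : ∃ φ : MvPolynomial (ι × ι) ℚ →+* A, φ.mapMatrix T = Θ := by
    refine ⟨(MvPolynomial.aeval fun x : ι × ι => (1 / 2 : ℚ) • Θ x.1 x.2).toRingHom, ?_⟩
    ext i j
    have : Θ j i = -Θ i j := congrFun (congrFun hΘ i) j
    simp only [hT, RingHom.mapMatrix_apply, map_apply, of_apply, AlgHom.toRingHom_eq_coe,
      RingHom.coe_coe, map_sub, MvPolynomial.aeval_X, this, smul_neg, sub_neg_eq_add, ← add_smul]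
    norm_num
  refine ⟨φ c, fun i => φ (π i), ?_, ?_⟩
  · rw [← hφ, ← RingHom.map_adjugate, h1]
    ext i j
    simp [vecMulVec_apply]
  · funext i
    have := congrArg φ (congrFun h2 i)
    rw [RingHom.map_mulVec, Pi.zero_apply, map_zero] at this
    rw [← hφ]
    exact this

end Pool.Agent.MP_51db15_ag.Hy
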