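import Pool.Agent.MP_51db15_ag.Hy.Rows

/-! The Pfaffian vector is the gradient up to a unit. -/

namespace Pool.Agent.MP_51db15_ag.Hy

open MvPowerSeries Matrix

namespace PI

theorem diag {A ι : Type} [CommRing A] [NoZeroDivisors A] [CharZero A] [Fintype ι] [DecidableEq ι]
    {Θ : Matrix ι ι A} (h : Θᵀ = -Θ) (he : ¬ Odd (Fintype.card ι)) (i : ι) :
    Θ.adjugate i i = 0 := by
  have h1 : 0 < Fintype.card ι := Fintype.card_pos_iff.2 ⟨i⟩
  have h2 : Odd (Fintype.card ι - 1) := by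
    rw [Nat.not_odd_iff_even] at he
    exact Nat.Even.sub_odd h1 he odd_one
  have h3 := adjugate_transpose Θ
  rw [h, ← neg_one_smul A Θ, adjugate_smul, h2.neg_one_pow] at h3
  have h4 : Θ.adjugate i i = -1 * Θ.adjugate i i := congrFun (congrFun h3 i) i
  have h5 : (2 : A) * Θ.adjugate i i = 0 := by linear_combination h4
  exact (mul_eq_zero.1 h5).resolve_left two_ne_zero

end PI

theorem pi (sing : S_SING) (hart : S_HART) (pf : S_PF) : S_PI := by
  classical
  intro ι _ _ f Θ hf hP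
  obtain ⟨γ, hγ, hnd⟩ := hP.nd
  have hp := hf.1
  have hu : ∀ {u x : PS ι}, IsUnit u → f ∣ u * x → f ∣ x := fun h h' => h.dvd_mul_left.1 h'
  obtain ⟨i0, hi0⟩ : ∃ i, ¬ f ∣ pderiv ℂ i f := by
    by_contra h
    push Not at h
    have h1 := (sing ι f (Ideal.span {f}) hf ((Ideal.span_singleton_prime hp.ne_zero).2 hp)
      (Ideal.mem_span_singleton_self f) fun i => Ideal.mem_span_singleton.2 (h i)).trans
        (Ideal.height_span_singleton_le_one hp.not_isUnit)
    exact absurd h1 (by decide)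
  have h0 : ∀ {x : PS ι}, f ∣ pderiv ℂ i0 f * x → f ∣ x := fun h =>
    (hp.dvd_or_dvd h).resolve_left hi0
  have hodd : Odd (Fintype.card ι) := by
    by_contra he
    have h1 := hnd i0 i0
    have := algebraRat.charZero (PS ι)
    rw [PI.diag hP.skew he, zero_sub, dvd_neg] at h1
    exact hi0 (h0 (hu hγ h1))
  obtain ⟨c, π, hc, hk⟩ := pf (PS ι) ι Θ hodd hP.skew
  have h1 : ∀ i j, f ∣ c * (π i * π j) - γ * (pderiv ℂ i f * pderiv ℂ j f) := by
    intro i j
    have := hnd i j
    rwa [hc] at this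
  have hcu : IsUnit c := by
    by_contra hn
    have h2 : Ideal.span (({c, f} : Finset (PS ι)) : Set (PS ι)) ≤
        IsLocalRing.maximalIdeal (PS ι) := by
      rw [Ideal.span_le]
      intro x hx
      simp only [Finset.coe_insert, Finset.coe_singleton, Set.mem_insert_iff,
        Set.mem_singleton_iff] at hx
      rcases hx with rfl | rfl
      exacts [hn, hp.not_isUnit]
    obtain ⟨Q, hQ, -⟩ := Ideal.exists_minimalPrimes_le h2
    have hQp : Q.IsPrime := hQ.1.1
    have hcQ : c ∈ Q := hQ.1.2 (Ideal.subset_span (by simp))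
    have hfQ : f ∈ Q := hQ.1.2 (Ideal.subset_span (by simp))
    have h3 := (sing ι f Q hf hQp hfQ fun i => ?_).trans
      ((Ideal.height_le_card_of_mem_minimalPrimes_span_finset hQ).trans
        (Nat.cast_le.2 Finset.card_le_two))
    · exact absurd h3 (by decide)
    · obtain ⟨a, ha⟩ := h1 i i
      have h4 : γ * (pderiv ℂ i f * pderiv ℂ i f) ∈ Q := by
        rw [show γ * (pderiv ℂ i f * pderiv ℂ i f) = c * (π i * π i) - f * a by
          linear_combination -ha]
        exact Q.sub_mem (Q.mul_mem_right _ hcQ) (Q.mul_mem_right _ hfQ)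
      exact (hQp.mem_or_mem ((Q.unit_mul_mem_iff_mem hγ).1 h4)).elim id id
  have h2 : ∀ j, f ∣ pderiv ℂ j f ^ 1 * π i0 - pderiv ℂ i0 f * π j := by
    intro j
    obtain ⟨a, ha⟩ := h1 i0 j
    obtain ⟨b, hb⟩ := h1 i0 i0
    exact h0 (hu hγ ⟨π j * b - π i0 * a, by linear_combination π j * hb - π i0 * ha⟩)
  obtain ⟨z, e, he⟩ := hart ι f (pderiv ℂ i0 f) (π i0) 1 hf hi0 fun j => ⟨π j, h2 j⟩
  have h3 : ∀ j, f ∣ π j - pderiv ℂ j f * z := by
    intro j
    obtain ⟨a, ha⟩ := h2 j
    exact h0 ⟨pderiv ℂ j f * e - a, by linear_combination pderiv ℂ j f * he - ha⟩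
  have hz : IsUnit z := by
    obtain ⟨b, hb⟩ := h1 i0 i0
    obtain ⟨d, hd⟩ : f ∣ c * z * z - γ := h0 (h0 ⟨b - c * e * (π i0 + pderiv ℂ i0 f * z), by
      linear_combination hb - c * (π i0 + pderiv ℂ i0 f * z) * he⟩)
    have h4 : IsUnit (c * z * z + f * -d) := by
      rwa [show c * z * z + f * -d = γ by linear_combination hd]
    rcases IsLocalRing.isUnit_or_isUnit_of_isUnit_add h4 with h | h
    · exact isUnit_of_mul_isUnit_right h
    · exact absurd (isUnit_of_mul_isUnit_left h) hp.not_isUnit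
  obtain ⟨g, hg⟩ := hz.exists_right_inv
  choose a ha using h3
  exact ⟨π, g, fun j => -(g * a j), hP.skew, ⟨c, hcu, hc⟩, hk,
    isUnit_of_mul_isUnit_right (hg ▸ isUnit_one), fun j => by
      linear_combination -g * ha j - pderiv ℂ j f * hg⟩

end Pool.Agent.MP_51db15_ag.Hy
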