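import Pool.Agent.MP_51db15_ag.Hy.Rows
import Pool.Agent.MP_51db15_ag.Hy.Base

/-! A closed perfect form gives a Poisson structure. -/

namespace Pool.Agent.MP_51db15_ag.Hy

open MvPowerSeries Matrix

namespace POI

section Alg

variable {R ι : Type} [CommRing R] [IsDomain R] [Fintype ι] [DecidableEq ι]

theorem ker_line (T M : Matrix ι ι R) (g : ι → R) (i : ι) (hT : Tᵀ = -T)
    (hM : ∀ j l, (T * M) j l = g i * ((if j = l then g i else 0) - if j = i then g l else 0))
    (h0 : g i ≠ 0) (v : ι → R) (hv : T *ᵥ v = 0) (l : ι) : g i * v l = v i * g l := by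
  have h1 : v ᵥ* T = 0 := by
    rw [← mulVec_transpose, hT, neg_mulVec, hv, neg_zero]
  have h2 : v ᵥ* (T * M) = 0 := by rw [← vecMul_vecMul, h1, zero_vecMul]
  have h3 : ∑ j, v j * (T * M) j l = 0 := congrFun h2 l
  simp only [hM, mul_sub, mul_ite, mul_zero, Finset.sum_sub_distrib, Finset.sum_ite_eq',
    Finset.mem_univ, if_true] at h3
  refine mul_left_cancel₀ h0 ?_
  linear_combination h3

theorem adj_rank (T M : Matrix ι ι R) (g : ι → R) (i : ι) (hT : Tᵀ = -T) (hg : T *ᵥ g = 0)
    (hM : ∀ j l, (T * M) j l = g i * ((if j = l then g i else 0) - if j = i then g l else 0))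
    (h0 : g i ≠ 0) (l j : ι) :
    g i ^ 2 * T.adjugate l j = T.adjugate i i * (g l * g j) := by
  have hd : T.det = 0 := exists_mulVec_eq_zero_iff.1 ⟨g, fun h => h0 (congrFun h i), hg⟩
  have h1 : T * T.adjugate = 0 := by rw [mul_adjugate, hd, zero_smul]
  have h2 : T * T.adjugateᵀ = 0 := by
    have h3 : (T.adjugate * T)ᵀ = 0 := by rw [adjugate_mul, hd, zero_smul, transpose_zero]
    rw [transpose_mul, hT, Matrix.neg_mul, neg_eq_zero] at h3
    exact h3
  have a1 := ker_line T M g i hT hM h0 (fun k => T.adjugate k j)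
    (funext fun k => congrFun (congrFun h1 k) j) l
  have a2 := ker_line T M g i hT hM h0 (fun k => T.adjugate i k)
    (funext fun k => congrFun (congrFun h2 k) i) j
  linear_combination g i * a1 + g l * a2

omit [IsDomain R] in
theorem adj_dvd (T M : Matrix ι ι R) (g : ι → R) (i : ι) (hM0 : ∀ l, M i l = 0)
    (hM : ∀ j l, (T * M) j l = g i * ((if j = l then g i else 0) - if j = i then g l else 0)) :
    ∃ m, T.adjugate i i * m = g i ^ (2 * (Fintype.card ι - 1)) := by
  refine ⟨(Matrix.of fun j k : {j // j ≠ i} => M j k).det, ?_⟩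
  rw [adjugate_diag, ← det_mul]
  have e : ((Matrix.of fun j k : {j // j ≠ i} => T j k) *
      Matrix.of fun j k : {j // j ≠ i} => M j k) = g i ^ 2 • (1 : Matrix _ _ R) := by
    ext j l
    have h1 := hM j l
    rw [mul_apply, Fintype.sum_eq_add_sum_subtype_ne _ i, hM0, mul_zero, zero_add,
      if_neg j.2] at h1
    rw [mul_apply, Matrix.smul_apply, one_apply]
    simp only [of_apply]
    rw [h1]
    by_cases h : j = l
    · rw [if_pos h, if_pos (congrArg Subtype.val h), smul_eq_mul]
      ring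
    · rw [if_neg h, if_neg fun h' => h (Subtype.ext h')]
      simp
  rw [e, det_smul, det_one, mul_one, ← pow_mul]
  congr 2
  simp [Fintype.card_subtype_compl]

end Alg

variable {ι : Type} [Fintype ι] [DecidableEq ι] {f : PS ι}
  {r : (ι → PS ι) → (ι → PS ι) → PS ι}

omit [DecidableEq ι] in
theorem log_lie {v w : ι → PS ι} (hv : Log f v) (hw : Log f w) : Log f (lie v w) := by
  unfold Log
  rw [vf_lie]
  exact dvd_sub (vf_dvd hv hw) (vf_dvd hw hv)

omit [DecidableEq ι] in
theorem r_sum (hr : IsForm f r) {S : Type} (T : Finset S) (c : S → PS ι) (x : S → ι → PS ι)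
    (hx : ∀ s, Log f (x s)) {y : ι → PS ι} (hy : Log f y) :
    f ∣ r (∑ s ∈ T, c s • x s) y - ∑ s ∈ T, c s * r (x s) y := by
  classical
  induction T using Finset.induction_on with
  | empty =>
    have := hr.smul 0 y y hy hy
    simpa using this
  | insert s T hs ih =>
    rw [Finset.sum_insert hs, Finset.sum_insert hs]
    have l1 : Log f (c s • x s) := (logM f).smul_mem _ (hx s)
    have l2 : Log f (∑ s ∈ T, c s • x s) :=
      (logM f).sum_mem fun s _ => (logM f).smul_mem _ (hx s)
    have := dvd_add (dvd_add (hr.add _ _ y l1 l2 hy) (hr.smul (c s) _ y (hx s) hy)) ih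
    convert this using 1
    ring

/-- the fields `f_i e_k - f_k e_i` -/
noncomputable def dd (f : PS ι) (i k : ι) : ι → PS ι :=
  fun j => (if j = k then pderiv ℂ i f else 0) - if j = i then pderiv ℂ k f else 0

theorem log_dd (i k : ι) : Log f (dd f i k) := by
  unfold Log
  rw [vf_apply]
  simp only [dd, sub_mul, ite_mul, zero_mul, Finset.sum_sub_distrib, Finset.sum_ite_eq',
    Finset.mem_univ, if_true]
  rw [mul_comm, sub_self]
  exact dvd_zero _

theorem row_mul {Θ : Matrix ι ι (PS ι)} (hr : IsForm f r) (hH : Ham f r Θ) (i j l : ι) :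
    f ∣ ∑ k, Θ j k * r (dd f i k) (dd f i l) - pderiv ℂ i f * dd f i l j := by
  have h1 := r_sum hr Finset.univ (Θ j) (dd f i) (log_dd i) (log_dd i l)
  have l1 : Log f (∑ k, Θ j k • dd f i k) :=
    (logM f).sum_mem fun s _ => (logM f).smul_mem _ (log_dd i s)
  have l2 : Log f (pderiv ℂ i f • Θ j) := (logM f).smul_mem _ (hH j).1
  have h2 := hr.cong _ _ (dd f i l) l1 l2 (log_dd i l) fun k => by
    have h3 : f ∣ ∑ m, Θ j m * pderiv ℂ m f := by
      have := (hH j).1
      unfold Log at this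
      rwa [vf_apply] at this
    simp only [Finset.sum_apply, Pi.smul_apply, smul_eq_mul, dd, mul_sub, mul_ite, mul_zero,
      Finset.sum_sub_distrib, Finset.sum_ite_eq, Finset.mem_univ, if_true]
    by_cases h : k = i
    · simp only [if_pos h]
      convert h3.neg_right using 1
      ring
    · simp only [if_neg h, Finset.sum_const_zero]
      convert dvd_zero f using 1
      ring
  have h4 := hr.smul (pderiv ℂ i f) (Θ j) (dd f i l) (hH j).1 (log_dd i l)
  have h5 := ((hH j).2 _ (log_dd i l)).mul_left (pderiv ℂ i f)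
  have := dvd_add (dvd_add (dvd_sub h2 h1) h4) h5
  convert this using 1
  ring

theorem jac {Θ : Matrix ι ι (PS ι)} (hr : IsForm f r) (hc : Closed f r) (hs : Θᵀ = -Θ)
    (hH : Ham f r Θ) (i j k : ι) :
    f ∣ vf (Θ i) (Θ j k) + vf (Θ j) (Θ k i) + vf (Θ k) (Θ i j) := by
  have sk : ∀ a b, Θ a b = -Θ b a := fun a b => congrFun (congrFun hs b) a
  have L := fun a => (hH a).1
  have h0 := hc _ _ _ (L i) (L j) (L k)
  have a : ∀ a b c, f ∣ vf (Θ a) (r (Θ b) (Θ c)) - vf (Θ a) (Θ c b) := fun a b c => by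
    rw [← map_sub]
    exact vf_dvd (L a) ((hH b).2 _ (L c))
  have b : ∀ a b c, f ∣ r (lie (Θ a) (Θ b)) (Θ c) + (vf (Θ a) (Θ b c) - vf (Θ b) (Θ a c)) :=
    fun a b c => by
      have h1 := hr.skew _ _ (log_lie (L a) (L b)) (L c)
      have h2 := (hH c).2 _ (log_lie (L a) (L b))
      have := dvd_sub h1 h2
      convert this using 1
      simp only [lie]
      ring
  have := dvd_add (dvd_sub (dvd_add (dvd_sub (dvd_add (dvd_sub h0 (a i j k)) (a j i k))
    (a k i j)) (b i j k)) (b i k j)) (b j k i)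
  convert this using 1
  rw [sk k j, sk j i, sk i k]
  simp only [map_neg]
  ring

end POI

open POI in
theorem poi (hart : S_HART) : S_POI := by
  intro ι _ _ f Θ r hf hr hc hs hH
  refine ⟨hs, fun i => (hH i).1, jac hr hc hs hH, ?_⟩
  have hp : (Ideal.span {f}).IsPrime := (Ideal.span_singleton_prime hf.1.ne_zero).2 hf.1
  have hcf : constantCoeff f = 0 := Prime.constantCoeff hf.1
  let π := Ideal.Quotient.mk (Ideal.span {f})
  have hπ : ∀ a, π a = 0 ↔ f ∣ a := fun a => by
    rw [Ideal.Quotient.eq_zero_iff_mem, Ideal.mem_span_singleton]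
  let T := π.mapMatrix Θ
  let g : ι → PS ι ⧸ Ideal.span {f} := fun i => π (pderiv ℂ i f)
  let M : ι → Matrix ι ι (PS ι ⧸ Ideal.span {f}) :=
    fun i => Matrix.of fun k l => π (r (dd f i k) (dd f i l))
  have hT : Tᵀ = -T := by
    ext1 a b
    have : Θ b a = -Θ a b := congrFun (congrFun hs a) b
    show π (Θ b a) = -π (Θ a b)
    rw [this, map_neg]
  have hg : T *ᵥ g = 0 := by
    ext1 j
    have h1 := (hH j).1
    unfold Log at h1
    rw [vf_apply, ← hπ, map_sum] at h1
    simp only [map_mul] at h1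
    exact h1
  have hM : ∀ i j l, (T * M i) j l =
      g i * ((if j = l then g i else 0) - if j = i then g l else 0) := by
    intro i j l
    have h1 := row_mul hr hH i j l
    rw [← hπ, map_sub, sub_eq_zero, map_sum] at h1
    simp only [map_mul, dd, map_sub, apply_ite π, map_zero] at h1
    exact h1
  have hM0 : ∀ i l, M i i l = 0 := by
    intro i l
    have e : dd f i i = (0 : PS ι) • dd f i l := by
      ext1 j
      simp [dd]
    have h1 := hr.smul 0 _ _ (log_dd (f := f) i l) (log_dd i l)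
    rw [← e, zero_mul, sub_zero, ← hπ] at h1
    exact h1
  have hA : ∀ a b, T.adjugate a b = π (Θ.adjugate a b) := fun a b => by
    rw [← RingHom.map_adjugate]
    rfl
  obtain ⟨i0, hi0⟩ := exists_pderiv_not_dvd hf.1.ne_zero hcf
  have h0 : g i0 ≠ 0 := fun h => hi0 ((hπ _).1 h)
  have hR := adj_rank T (M i0) g i0 hT hg (hM i0) h0
  obtain ⟨γ, hγ⟩ := hart ι f (pderiv ℂ i0 f ^ 2) (Θ.adjugate i0 i0) 2 hf
    (fun h => hi0 (hf.1.dvd_of_dvd_pow h)) fun i => ⟨Θ.adjugate i i, by
      rw [← hπ]
      have h1 := hR i i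
      simp only [hA] at h1
      simp only [map_sub, map_mul, map_pow]
      linear_combination -h1⟩
  have hγ' : T.adjugate i0 i0 = g i0 ^ 2 * π γ := by
    rw [← hπ, map_sub, sub_eq_zero, map_mul, map_pow] at hγ
    rw [hA]
    exact hγ
  have hE : ∀ a b, T.adjugate a b = π γ * (g a * g b) := fun a b => by
    refine mul_left_cancel₀ (pow_ne_zero 2 h0) ?_
    rw [hR, hγ']
    ring
  have hD := fun i => adj_dvd T (M i) g i (hM0 i) (hM i)
  obtain ⟨δ, hδ⟩ := hart ι f γ 1 (2 * (Fintype.card ι - 1)) hf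
    (fun h => by
      obtain ⟨m, hm⟩ := hD i0
      rw [hE, (hπ γ).2 h, zero_mul, zero_mul] at hm
      exact pow_ne_zero _ h0 hm.symm) fun i => by
      obtain ⟨m, hm⟩ := hD i
      obtain ⟨m', rfl⟩ := Ideal.Quotient.mk_surjective m
      refine ⟨pderiv ℂ i f * pderiv ℂ i f * m', ?_⟩
      rw [← hπ]
      rw [hE] at hm
      simp only [map_sub, map_mul, map_pow, map_one]
      linear_combination -hm
  refine ⟨γ, ?_, fun a b => ?_⟩
  · rw [isUnit_iff']
    intro h
    obtain ⟨q, hq⟩ := hδ
    have h1 := congrArg constantCoeff hq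
    simp [h, hcf] at h1
  · rw [← hπ, map_sub, ← hA, hE]
    simp only [map_mul]
    exact sub_self _

end Pool.Agent.MP_51db15_ag.Hy
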