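import Pool.Agent.MP_51db15_ag.Hy.Rows
import Pool.Agent.MP_51db15_ag.Hy.Base

/-! The product of a cone with a symplectic plane is a cone. -/

namespace Pool.Agent.MP_51db15_ag.Hy

open MvPowerSeries Matrix

namespace PROD

variable {κ : Type} [Fintype κ]

omit [Fintype κ] in
theorem elim_zero (x : κ →₀ ℕ) :
    x.optionElim 0 = Finsupp.embDomain Function.Embedding.some x := by
  ext a
  cases a with
  | none => simp [Finsupp.embDomain_of_notMem_range]
  | some a => simp

theorem E_rename (f : PS κ) : optionEquivLeft κ ℂ (rename some f) = PowerSeries.C f := by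
  ext n x
  rw [coeff_coeff_optionEquivLeft, PowerSeries.coeff_C]
  split_ifs with h
  · rw [h, elim_zero]
    exact coeff_embDomain_rename Function.Embedding.some f x
  · rw [coeff_rename_eq_zero, map_zero]
    rintro ⟨y, hy⟩
    have := congrArg (fun z => z none) hy
    rw [Finsupp.mapDomain_of_notMem_range _ _ (by simp)] at this
    exact h (by simpa using this.symm)

/-- An automorphism extends to one more variable. -/
theorem extend (ψ : PS κ ≃ₐ[ℂ] PS κ) : ∃ ψ' : PS (Option κ) ≃ₐ[ℂ] PS (Option κ),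
    ∀ g, ψ' (rename some g) = rename some (ψ g) := by
  let m : PowerSeries (PS κ) ≃ₐ[ℂ] PowerSeries (PS κ) :=
    AlgEquiv.ofAlgHom (PowerSeries.mapAlgHom ψ.toAlgHom) (PowerSeries.mapAlgHom ψ.symm.toAlgHom)
      (AlgHom.ext fun p => PowerSeries.ext fun n => by simp [PowerSeries.mapAlgHom_apply])
      (AlgHom.ext fun p => PowerSeries.ext fun n => by simp [PowerSeries.mapAlgHom_apply])
  refine ⟨((optionEquivLeft κ ℂ).trans m).trans (optionEquivLeft κ ℂ).symm, fun g => ?_⟩
  rw [AlgEquiv.trans_apply, AlgEquiv.trans_apply, AlgEquiv.symm_apply_eq, E_rename, E_rename]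
  simp [m, PowerSeries.mapAlgHom_apply]

theorem isHom_rename {a : Option κ → ℚ} {e : ℚ} {g : PS κ} (h : IsHom (fun i => a (some i)) e g) :
    IsHom a e (rename some g) := by
  intro α hα
  have h1 : α ∈ Set.range (Finsupp.mapDomain (some : κ → Option κ)) := by
    by_contra hn
    exact hα (coeff_rename_eq_zero _ _ hn)
  obtain ⟨β, rfl⟩ := h1
  have e1 : Finsupp.mapDomain some β = Finsupp.embDomain Function.Embedding.some β :=
    (Finsupp.embDomain_eq_mapDomain Function.Embedding.some β).symm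
  rw [e1] at hα ⊢
  have h2 : coeff β g ≠ 0 := fun h0 =>
    hα ((coeff_embDomain_rename Function.Embedding.some g β).trans h0)
  rw [← h β h2, Finsupp.weight_apply, Finsupp.weight_apply, Finsupp.sum_embDomain]
  rfl

/-- The inclusion. -/
noncomputable def jj : PS κ →ₐ[ℂ] PS (Option (Option κ)) := (rename some).comp (rename some)

theorem jj_apply (g : PS κ) : jj g = rename some (rename some g) := rfl

theorem jj_X (i : κ) : jj (X i : PS κ) = X (some (some i)) := by simp [jj_apply]

theorem jj_C (c : ℂ) : jj (C c : PS κ) = C c := by simp [jj_apply]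

theorem jj_dvd {f g : PS κ} : jj f ∣ jj g ↔ f ∣ g := by
  refine ⟨fun h => ?_, fun h => map_dvd _ h⟩
  have k : ∀ x : PS κ, killCompl Function.Embedding.some
      (killCompl Function.Embedding.some (jj x)) = x := fun x =>
    (congrArg _ (killCompl_rename_app (e := Function.Embedding.some) _)).trans
      (killCompl_rename_app (e := Function.Embedding.some) x)
  have := map_dvd (killCompl Function.Embedding.some) (map_dvd (killCompl Function.Embedding.some) h)
  rwa [k, k] at this

theorem vf_jj (p3 : S_P3) {v : Option (Option κ) → PS (Option (Option κ))} {r : κ → PS κ}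
    (h : ∀ i, v (some (some i)) = jj (r i)) (g : PS κ) : vf v (jj g) = jj (vf r g) := by
  rw [vf_apply, vf_apply, map_sum]
  simp only [(p3.1 ℂ κ _ jj).2.2.1 g, Finset.mul_sum]
  rw [Finset.sum_comm]
  refine Finset.sum_congr rfl fun i _ => ?_
  rw [map_mul, ← h, ← vf_X v (some (some i)), vf_apply, Finset.sum_mul, jj_X]
  exact Finset.sum_congr rfl fun k _ => by ring

theorem dfr_jj (p3 : S_P3) {K : Type} [Field K] [Algebra ℂ K]
    (φ : PS (Option (Option κ)) →ₐ[ℂ] K) {v : Option (Option κ) → PS (Option (Option κ))}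
    {r : κ → PS κ} (h : ∀ i, v (some (some i)) = jj (r i)) (a b : PS κ) :
    dfr φ v (jj a) (jj b) = dfr (φ.comp jj) r a b := by
  simp only [dfr, vf_jj p3 h, AlgHom.comp_apply]

theorem dfr_X {ι K : Type} [Fintype ι] [Field K] [Algebra ℂ K] (φ : PS ι →ₐ[ℂ] K) (v : ι → PS ι)
    (i : ι) : dfr φ v (X i) 1 = φ (v i) := by
  simp [dfr, vf_X]

theorem dfr_zero {ι K : Type} [Fintype ι] [Field K] [Algebra ℂ K] (φ : PS ι →ₐ[ℂ] K)
    (a b : PS ι) : dfr φ (fun _ => 0) a b = 0 := by
  simp [dfr, vf_apply]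

/-- Splitting of the index set. -/
def ee (κ : Type) : Option (Option κ) ≃ κ ⊕ Fin 2 where
  toFun
    | none => .inr 0
    | some none => .inr 1
    | some (some i) => .inl i
  invFun
    | .inl i => some (some i)
    | .inr b => if b = 0 then none else some none
  left_inv := by rintro (_ | _ | _) <;> simp
  right_inv := by
    rintro (_ | b)
    · rfl
    · fin_cases b <;> rfl

section Block

variable {A : Type} [CommRing A] (Θ : Matrix κ κ A)

/-- The block matrix. -/
def blk : Matrix (Option (Option κ)) (Option (Option κ)) A :=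
  (fromBlocks Θ 0 0 !![0, 1; -1, 0]).submatrix (ee κ) (ee κ)

omit [Fintype κ] in
theorem blk_val : (∀ i k, blk Θ (some (some i)) (some (some k)) = Θ i k) ∧
    (∀ i, blk Θ (some (some i)) none = 0) ∧ (∀ i, blk Θ (some (some i)) (some none) = 0) ∧
    (∀ i, blk Θ none (some (some i)) = 0) ∧ (∀ i, blk Θ (some none) (some (some i)) = 0) ∧
    blk Θ none none = 0 ∧ blk Θ none (some none) = 1 ∧ blk Θ (some none) none = -1 ∧
    blk Θ (some none) (some none) = 0 :=
  ⟨fun _ _ => rfl, fun _ => rfl, fun _ => rfl, fun _ => rfl, fun _ => rfl, rfl, rfl, rfl, rfl⟩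

variable [DecidableEq κ]

theorem adj_blocks (J : Matrix (Fin 2) (Fin 2) A) (hJ : J.det = 1) :
    (∀ i k, (fromBlocks Θ 0 0 J).adjugate (.inl i) (.inl k) = Θ.adjugate i k) ∧
    (∀ b k, (fromBlocks Θ 0 0 J).adjugate (.inr b) (.inl k) = 0) ∧
    ∀ x b, Θ.det ∣ (fromBlocks Θ 0 0 J).adjugate x (.inr b) := by
  refine ⟨fun i k => ?_, fun b k => ?_, fun x b => ?_⟩
  · have e : (fromBlocks Θ 0 0 J).updateRow (.inl k) (Pi.single (.inl i) 1) =
        fromBlocks (Θ.updateRow k (Pi.single i 1)) 0 0 J := by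
      ext (x | x) (y | y) <;> simp [updateRow_apply, Pi.single_apply]
    rw [adjugate_apply, adjugate_apply, e, det_fromBlocks_zero₂₁, hJ, mul_one]
  · have e : (fromBlocks Θ 0 0 J).updateRow (.inl k) (Pi.single (.inr b) 1) =
        fromBlocks (Θ.updateRow k 0) (updateRow 0 k (Pi.single b 1)) 0 J := by
      ext (x | x) (y | y) <;> simp [updateRow_apply, Pi.single_apply]
    rw [adjugate_apply, e, det_fromBlocks_zero₂₁, det_eq_zero_of_row_eq_zero k (by simp), zero_mul]
  · have e : (fromBlocks Θ 0 0 J).updateRow (.inr b) (Pi.single x 1) =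
        fromBlocks Θ 0 (updateRow 0 b fun y => (Pi.single x 1 : κ ⊕ Fin 2 → A) (.inl y))
          (J.updateRow b fun y => (Pi.single x 1 : κ ⊕ Fin 2 → A) (.inr y)) := by
      ext (x | x) (y | y) <;> simp [updateRow_apply]
    rw [adjugate_apply, e, det_fromBlocks_zero₁₂]
    exact dvd_mul_right _ _

theorem adj_blk : (∀ i k, (blk Θ).adjugate (some (some i)) (some (some k)) = Θ.adjugate i k) ∧
    (∀ x, Θ.det ∣ (blk Θ).adjugate x none ∧ Θ.det ∣ (blk Θ).adjugate x (some none)) ∧
    ∀ k, (blk Θ).adjugate none (some (some k)) = 0 ∧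
      (blk Θ).adjugate (some none) (some (some k)) = 0 := by
  obtain ⟨h1, h2, h3⟩ := adj_blocks Θ !![0, 1; -1, 0] (by simp [det_fin_two])
  rw [blk, adjugate_submatrix_equiv_self]
  exact ⟨h1, fun x => ⟨h3 _ 0, h3 _ 1⟩, fun k => ⟨h2 0 k, h2 1 k⟩⟩

end Block

variable [DecidableEq κ]

theorem dvd_det {F : PS κ} {Θ : Matrix κ κ (PS κ)} (h : Poi F Θ) (i : κ) : F ∣ Θ.det := by
  obtain ⟨γ, -, hγ⟩ := h.nd
  have e := congrFun (congrFun (mul_adjugate Θ) i) i
  rw [Matrix.smul_apply, one_apply_eq, smul_eq_mul, mul_one, Matrix.mul_apply] at e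
  have e2 : Θ.det = ∑ k, Θ i k * (Θ.adjugate k i - γ * (pderiv ℂ k F * pderiv ℂ i F)) +
      vf (Θ i) F * (γ * pderiv ℂ i F) := by
    rw [← e, vf_apply, Finset.sum_mul, ← Finset.sum_add_distrib]
    exact Finset.sum_congr rfl fun k _ => by ring
  rw [e2]
  exact dvd_add (Finset.dvd_sum fun k _ => (hγ k i).mul_left _) (Dvd.dvd.mul_right (h.tang i) _)

theorem poi (p3 : S_P3) {F : PS κ} {Θ : Matrix κ κ (PS κ)} (h : Poi F Θ) (i0 : κ) :
    Poi (jj F) ((blk Θ).map jj) := by
  obtain ⟨v1, v2, v3, v4, v5, v6, v7, v8, v9⟩ := blk_val Θ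
  have hv : ∀ x g, vf ((blk Θ).map jj x) (jj g) = jj (vf (fun i => blk Θ x (some (some i))) g) :=
    fun x g => vf_jj p3 (fun _ => rfl) g
  have r0 : (fun i => blk Θ none (some (some i))) = 0 := funext v4
  have r1 : (fun i => blk Θ (some none) (some (some i))) = 0 := funext v5
  have r2 : ∀ k, (fun i => blk Θ (some (some k)) (some (some i))) = Θ k := fun k => funext (v1 k)
  refine ⟨?_, fun x => ?_, fun x y z => ?_, ?_⟩
  · have sk : ∀ i k, Θ k i = -Θ i k := fun i k => congrFun (congrFun h.skew i) k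
    ext1 x y
    rw [transpose_apply, neg_apply, map_apply, map_apply, ← map_neg]
    congr 1
    rcases x with _ | _ | x <;> rcases y with _ | _ | y <;>
      simp only [v1, v2, v3, v4, v5, v6, v7, v8, v9, neg_zero, neg_neg]
    exact sk x y
  · rw [Log, hv, jj_dvd]
    rcases x with _ | _ | x
    · rw [r0, vf_zero]; exact dvd_zero _
    · rw [r1, vf_zero]; exact dvd_zero _
    · rw [r2]; exact h.tang x
  · have z0 : ∀ g : PS κ, vf (fun _ => 0) g = 0 := vf_zero
    simp only [map_apply, hv]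
    rw [← map_add, ← map_add, jj_dvd]
    rcases x with _ | _ | x <;> rcases y with _ | _ | y <;> rcases z with _ | _ | z <;>
      simp only [v1, v2, v3, v4, v5, v6, v7, v8, v9, z0, map_zero, map_neg,
        Derivation.map_one_eq_zero, neg_zero, add_zero, dvd_zero]
    exact h.jac x y z
  · obtain ⟨γ, hu, hγ⟩ := h.nd
    obtain ⟨a1, a2, a3⟩ := adj_blk Θ
    have hd := dvd_det h i0
    have pd : ∀ (x : Option (Option κ)) (r : κ → PS κ),
        (∀ i, (Pi.single x 1 : _ → PS (Option (Option κ))) (some (some i)) = jj (r i)) →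
        pderiv ℂ x (jj F) = jj (vf r F) := fun x r hr => by
      rw [← vf_jj p3 hr, vf_single, one_mul]
    have d0 : pderiv ℂ none (jj F) = 0 := by rw [pd none 0 (by simp), vf_zero, map_zero]
    have d1 : pderiv ℂ (some none) (jj F) = 0 := by
      rw [pd (some none) 0 (by simp), vf_zero, map_zero]
    have d2 : ∀ i, pderiv ℂ (some (some i)) (jj F) = jj (pderiv ℂ i F) := fun i => by
      rw [pd (some (some i)) (Pi.single i 1) (fun k => by
        by_cases e : k = i <;> simp [e]), vf_single, one_mul]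
    refine ⟨jj γ, hu.map _, fun x y => ?_⟩
    have e : ((blk Θ).map jj).adjugate x y = jj ((blk Θ).adjugate x y) :=
      (congrFun (congrFun (AlgHom.map_adjugate jj (blk Θ)) x) y).symm
    rw [e]
    rcases y with _ | _ | y
    · rw [d0, mul_zero, mul_zero, sub_zero, jj_dvd]; exact hd.trans (a2 x).1
    · rw [d1, mul_zero, mul_zero, sub_zero, jj_dvd]; exact hd.trans (a2 x).2
    · rcases x with _ | _ | x
      · rw [d0, (a3 y).1]; simp
      · rw [d1, (a3 y).2]; simp
      · rw [d2, d2, a1, ← map_mul, ← map_mul, ← map_sub, jj_dvd]; exact hγ x y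

/-- The new weights. -/
def wt (a : κ → ℕ) (w : ℕ) : Option (Option κ) → ℕ
  | none => w
  | some none => w
  | some (some i) => 2 * a i

omit [DecidableEq κ] in
theorem isHom_jj {a : κ → ℕ} (w : ℕ) {e : ℚ} {g : PS κ} (h : IsHom (fun i => (a i : ℚ)) e g) :
    IsHom (fun i => (wt a w i : ℚ)) (2 * e) (jj g) := by
  refine isHom_rename (isHom_rename ?_)
  simpa [wt] using h.map (AddMonoidHom.mulLeft (2 : ℚ))

end PROD

open PROD

theorem prod (p3 : S_P3) : S_PROD := by
  intro κ _ _ f hf ⟨ψ, u, F, Θ, a, w, d, h1, ha, hw, hP, hG, hE⟩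
  obtain ⟨i0, -⟩ := exists_pderiv_not_dvd hf.ne_zero (Prime.constantCoeff hf)
  obtain ⟨ψ1, e1⟩ := extend ψ
  obtain ⟨ψ2, e2⟩ := extend ψ1
  obtain ⟨v1, v2, v3, v4, v5, v6, v7, v8, v9⟩ := blk_val Θ
  refine ⟨ψ2, Units.map (jj : PS κ →ₐ[ℂ] _).toMonoidHom u, jj F, (blk Θ).map jj, wt a w, 2 * w,
    2 * d, ?_, ?_, by omega, poi p3 hP i0, ⟨?_, fun x y => ?_⟩, ?_⟩
  · rw [e2, e1, h1, ← jj_apply, map_mul]
    rfl
  · rintro (_ | _ | i)
    exacts [hw, hw, Nat.mul_pos two_pos (ha i)]
  · exact (isHom_jj w hG.1).congr (by push_cast; ring)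
  · rw [map_apply]
    rcases x with _ | _ | x <;> rcases y with _ | _ | y <;>
      simp only [v1, v2, v3, v4, v5, v6, v7, v8, v9, map_zero, map_neg, map_one, isHom_zero]
    · exact isHom_one.congr (by simp only [wt]; push_cast; ring)
    · exact isHom_one.neg.congr (by simp only [wt]; push_cast; ring)
    · exact (isHom_jj w (hG.2 x y)).congr (by simp only [wt]; push_cast; ring)
  · intro K _ _ φ hk V hV hI
    have hI0 : Inv (φ.comp jj) (eul fun i => (a i : ℚ)) V := fun x y hy hxy => by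
      have h2 := hI (jj x) (jj y) hy hxy
      rw [dfr_jj p3 φ (r := (C 2 : PS κ) • eul fun i => (a i : ℚ)) (fun i => by
        simp only [eul, wt, Pi.smul_apply, smul_eq_mul, map_mul, jj_C, jj_X]
        rw [← mul_assoc, ← map_mul]
        congr 2
        push_cast
        rfl)] at h2
      have h3 : φ (C 2⁻¹) * φ (C 2) = 1 := by rw [← map_mul, ← map_mul]; simp
      have h4 := V.mul_mem _ _ (hV (C 2⁻¹)) h2
      convert h4 using 1
      simp only [dfr, vf_smul, map_mul, AlgHom.comp_apply, jj_C]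
      linear_combination (-(φ (jj (vf (eul fun i => (a i : ℚ)) x)) * φ (jj y) -
        φ (jj x) * φ (jj (vf (eul fun i => (a i : ℚ)) y))) / φ (jj y) ^ 2) * h3
    obtain ⟨S, hS, c, a0, b0, a1, b1, g1, g2⟩ := hE K (φ.comp jj)
      (fun g => (hk _).trans jj_dvd) V (fun g => hV _) hI0
    refine ⟨Option S, inferInstance, fun s => s.elim 1 c, fun s => s.elim (X none) fun s => jj (a0 s),
      fun s => s.elim 1 fun s => jj (b0 s), fun s => s.elim (X (some none)) fun s => jj (a1 s),
      fun s => s.elim 1 fun s => jj (b1 s), ?_, fun x y => ?_⟩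
    · rintro (_ | s)
      · simpa using ⟨hV _, hV _⟩
      · exact g1 s
    · have hv : ∀ x p q, dfr φ ((blk Θ).map jj x) (jj p) (jj q) =
          dfr (φ.comp jj) (fun i => blk Θ x (some (some i))) p q :=
        fun x p q => dfr_jj p3 φ (fun _ => rfl) p q
      simp only [Fintype.sum_option, Option.elim, hv, dfr_X, map_apply]
      rcases x with _ | _ | x <;> rcases y with _ | _ | y <;>
        simp only [v1, v2, v3, v4, v5, v6, v7, v8, v9, dfr_zero, map_zero, map_neg,
          map_one, zero_mul, mul_zero, sub_zero, zero_sub, Finset.sum_const_zero, add_zero,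
          zero_add, mul_one, neg_neg, mul_neg, neg_zero]
      exact g2 x y

end Pool.Agent.MP_51db15_ag.Hy
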