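import Pool.Agent.MP_51db15_ag.Hy.Rows
import Pool.Agent.MP_51db15_ag.Hy.Base

/-! Transport of the algebraic data along a change of coordinates. -/

namespace Pool.Agent.MP_51db15_ag.Hy

open MvPowerSeries Matrix

namespace REL

section Br

variable {ι : Type} [Fintype ι]

theorem br_apply (Θ : Matrix ι ι (PS ι)) (g h : PS ι) :
    br Θ g h = ∑ i, ∑ j, pderiv ℂ i g * Θ i j * pderiv ℂ j h := by
  simp only [br, vf_apply, Finset.mul_sum, mul_assoc]

theorem br_X (Θ : Matrix ι ι (PS ι)) (i : ι) (h : PS ι) : br Θ (X i) h = vf (Θ i) h := by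
  classical
  rw [br, Finset.sum_eq_single i]
  · rw [pderiv_X_self, one_mul]
  · intro j _ hj
    rw [pderiv_X_of_ne hj.symm, zero_mul]
  · simp

theorem br_eq_vf (Θ : Matrix ι ι (PS ι)) (g h : PS ι) : br Θ g h = vf (ham Θ g) h := by
  have : ham Θ g = ∑ i, pderiv ℂ i g • Θ i := by
    funext k
    simp only [ham, br, vf_X, Finset.sum_apply, Pi.smul_apply, smul_eq_mul]
  rw [this, vf_sum]
  simp only [vf_smul, br]

theorem br_skew {Θ : Matrix ι ι (PS ι)} (hs : Θᵀ = -Θ) (g h : PS ι) : br Θ g h = -br Θ h g := by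
  rw [br_apply, br_apply, Finset.sum_comm, ← Finset.sum_neg_distrib]
  refine Finset.sum_congr rfl fun i _ => ?_
  rw [← Finset.sum_neg_distrib]
  refine Finset.sum_congr rfl fun j _ => ?_
  have : Θ j i = -Θ i j := congrFun (congrFun hs i) j
  rw [this]
  ring

theorem br_congr {f : PS ι} {Θ Θ' : Matrix ι ι (PS ι)} (h : ∀ i j, f ∣ Θ i j - Θ' i j)
    (g k : PS ι) : f ∣ br Θ g k - br Θ' g k := by
  rw [br, br, ← Finset.sum_sub_distrib]
  refine Finset.dvd_sum fun i _ => ?_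
  rw [← mul_sub]
  exact (vf_congr (h i) k).mul_left _

theorem dvd_br {f : PS ι} {Θ : Matrix ι ι (PS ι)} (h : ∀ i, Log f (Θ i)) (g : PS ι) :
    f ∣ br Θ g f :=
  Finset.dvd_sum fun i _ => (h i).mul_left _

/-- the Jacobiator -/
noncomputable def jb (Θ : Matrix ι ι (PS ι)) (a b c : PS ι) : PS ι :=
  br Θ a (br Θ b c) + br Θ b (br Θ c a) + br Θ c (br Θ a b)

theorem jb_cyc (Θ : Matrix ι ι (PS ι)) (a b c : PS ι) : jb Θ a b c = jb Θ b c a := by
  simp only [jb]
  ring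

theorem jb_eq {Θ : Matrix ι ι (PS ι)} (hs : Θᵀ = -Θ) (a b c : PS ι) :
    jb Θ a b c = vf (lie (ham Θ a) (ham Θ b) - ham Θ (br Θ a b)) c := by
  rw [vf_sub, vf_lie, jb, br_skew hs c a, br_skew hs c (br Θ a b)]
  simp only [br_eq_vf, map_neg]
  ring

theorem jb_step {f : PS ι} {Θ : Matrix ι ι (PS ι)} (hs : Θᵀ = -Θ) {a b : PS ι}
    (h : ∀ k, f ∣ jb Θ a b (X k)) (c : PS ι) : f ∣ jb Θ a b c := by
  rw [jb_eq hs, vf_apply]
  refine Finset.dvd_sum fun k _ => Dvd.dvd.mul_right ?_ _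
  have := h k
  rwa [jb_eq hs, vf_X] at this

theorem jb_dvd [DecidableEq ι] {f : PS ι} {Θ : Matrix ι ι (PS ι)} (h : Poi f Θ) (a b c : PS ι) :
    f ∣ jb Θ a b c := by
  have h1 : ∀ i j k, f ∣ jb Θ (X i) (X j) (X k) := fun i j k => by
    simpa only [jb, br_X, vf_X] using h.jac i j k
  have h2 : ∀ i c j, f ∣ jb Θ c (X i) (X j) := fun i c j => by
    rw [jb_cyc]
    exact jb_step h.skew (h1 i j) c
  have h3 : ∀ i, f ∣ jb Θ a b (X i) := fun i => by
    rw [← jb_cyc, ← jb_cyc]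
    exact jb_step h.skew (h2 i b) a
  exact jb_step h.skew h3 c

end Br

theorem adj_conj {S n : Type} [CommRing S] [Fintype n] [DecidableEq n] (J T : Matrix n n S)
    (γ : S) (g : n → S) (h : T.adjugate = γ • vecMulVec (g ᵥ* J) (g ᵥ* J)) :
    (J * T * Jᵀ).adjugate = (γ * J.det ^ 2) • vecMulVec g g := by
  have h1 : (g ᵥ* J) ᵥ* J.adjugate = J.det • g := by
    rw [vecMul_vecMul, mul_adjugate, vecMul_smul, vecMul_one]
  have h2 : Jᵀ.adjugate *ᵥ (g ᵥ* J) = J.det • g := by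
    rw [← adjugate_transpose, mulVec_transpose, h1]
  rw [adjugate_mul_distrib, adjugate_mul_distrib, h, Matrix.smul_mul, Matrix.mul_smul,
    vecMulVec_mul, mul_vecMulVec, h1, h2, smul_vecMulVec, vecMulVec_smul, smul_smul, smul_smul,
    pow_two, mul_assoc]

section Tr

variable {ι ι' : Type} [Fintype ι] [Fintype ι'] (p3 : S_P3) (ψ : PS ι ≃ₐ[ℂ] PS ι')
include p3

theorem chain (g : PS ι) (j : ι') :
    pderiv ℂ j (ψ g) = ∑ i, ψ (pderiv ℂ i g) * pderiv ℂ j (ψ (X i)) :=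
  (p3.1 ℂ ι ι' ψ.toAlgHom).2.2.1 g j

theorem cc (g : PS ι) : constantCoeff (ψ g) = constantCoeff g :=
  (p3.1 ℂ ι ι' ψ.toAlgHom).1 g

theorem chain' (g : PS ι) (k : ι) :
    ψ (pderiv ℂ k g) = ∑ i, pderiv ℂ i (ψ g) * ψ (pderiv ℂ k (ψ.symm (X i))) := by
  have h := chain p3 ψ.symm (ψ g) k
  rw [ψ.symm_apply_apply] at h
  rw [h, map_sum]
  simp only [map_mul, ψ.apply_symm_apply]

theorem br_tr (Θ : Matrix ι ι (PS ι)) (g h : PS ι) :
    br (tr ψ Θ) (ψ g) (ψ h) = ψ (br Θ g h) := by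
  rw [br_apply Θ g h]
  simp only [map_sum, map_mul]
  simp only [chain' p3 ψ g, chain' p3 ψ h, br_apply, tr, of_apply, map_sum, map_mul,
    Finset.sum_mul, Finset.mul_sum]
  calc _ = ∑ i, ∑ k, ∑ l, ∑ j, pderiv ℂ i (ψ g) * ψ (pderiv ℂ k (ψ.symm (X i))) * ψ (Θ k l) *
        (pderiv ℂ j (ψ h) * ψ (pderiv ℂ l (ψ.symm (X j)))) := by
        refine Finset.sum_congr rfl fun i _ => ?_
        rw [Finset.sum_comm]
        refine Finset.sum_congr rfl fun k _ => ?_
        rw [Finset.sum_comm]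
        refine Finset.sum_congr rfl fun l _ => Finset.sum_congr rfl fun j _ => by ring
    _ = _ := by
        rw [Finset.sum_comm]
        refine Finset.sum_congr rfl fun k _ => ?_
        rw [Finset.sum_comm]
        refine Finset.sum_congr rfl fun l _ => ?_
        rw [Finset.sum_comm]

theorem nd_tr [DecidableEq ι] [DecidableEq ι'] (hc : Fintype.card ι = Fintype.card ι')
    {S : Type} [CommRing S] (q : PS ι' →+* S) {f γ : PS ι} {Θ : Matrix ι ι (PS ι)}
    (hf : q (ψ f) = 0)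
    (h : ∀ i j, f ∣ Θ.adjugate i j - γ * (pderiv ℂ i f * pderiv ℂ j f)) :
    ∃ δ : PS ι', IsUnit δ ∧ ((tr ψ Θ).map q).adjugate = (q (ψ γ) * q δ ^ 2) •
      vecMulVec (fun i => q (pderiv ℂ i (ψ f))) (fun i => q (pderiv ℂ i (ψ f))) := by
  obtain ⟨e⟩ : Nonempty (ι' ≃ ι) := Fintype.card_eq.mp hc.symm
  let J : Matrix ι' ι' (PS ι') := Matrix.of fun i k => ψ (pderiv ℂ (e k) (ψ.symm (X i)))
  let K : Matrix ι' ι' (PS ι') := Matrix.of fun k j => pderiv ℂ j (ψ (X (e k)))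
  have hJK : J * K = 1 := by
    ext1 i j
    have h1 := chain p3 ψ (ψ.symm (X i)) j
    rw [ψ.apply_symm_apply, ← e.sum_comp] at h1
    rw [mul_apply]
    simp only [J, K, of_apply]
    rw [← h1, one_apply]
    split_ifs with h2
    · rw [h2, pderiv_X_self]
    · rw [pderiv_X_of_ne h2]
  let φ : PS ι →+* S := q.comp ψ.toRingEquiv.toRingHom
  have hφ : ∀ g, φ g = q (ψ g) := fun g => rfl
  refine ⟨J.det, isUnit_det_of_right_inverse hJK, ?_⟩
  have h1 : (tr ψ Θ).map q = J.map q * (Θ.map φ).submatrix e e * (J.map q)ᵀ := by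
    ext1 i j
    simp only [map_apply, tr, of_apply, br_apply, map_sum, map_mul, mul_apply, J, hφ,
      submatrix_apply, transpose_apply, Finset.sum_mul]
    rw [Finset.sum_comm, ← e.sum_comp]
    exact Finset.sum_congr rfl fun l _ => (e.sum_comp _).symm
  rw [h1, RingHom.map_det, RingHom.mapMatrix_apply]
  apply adj_conj
  have h2 : ((fun i => q (pderiv ℂ i (ψ f))) ᵥ* J.map q) = fun k => φ (pderiv ℂ (e k) f) := by
    funext k
    rw [hφ, chain' p3 ψ f, map_sum]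
    simp only [vecMul, dotProduct, map_apply, J, of_apply, map_mul]
  rw [h2, adjugate_submatrix_equiv_self, ← RingHom.mapMatrix_apply, ← RingHom.map_adjugate]
  ext1 i j
  obtain ⟨c, hc⟩ := h (e i) (e j)
  have h3 := congrArg φ hc
  rw [map_mul, hφ f, hf, zero_mul, map_sub, sub_eq_zero, map_mul, map_mul] at h3
  simpa [vecMulVec_apply, hφ] using h3

end Tr

end REL

open REL in
theorem rel (p3 : S_P3) : S_REL := by
  intro ι ι' _ _ _ _ f Θ ψ
  refine ⟨fun hs => ⟨⟨1, by simp⟩, ?_, fun i j => by simp [tr]⟩, ?_⟩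
  · ext1 i j
    simp only [tr, transpose_apply, of_apply, Matrix.neg_apply]
    rw [br_skew hs, map_neg]
  rintro f' Θ' hc ⟨⟨u, hu⟩, hs', hΘ⟩ hp hP
  have hass : Associated f' (ψ f) := ⟨u, by rw [hu, mul_comm]⟩
  have hp' : Prime f' := hass.symm.prime ((MulEquiv.prime_iff ψ.toMulEquiv).mpr hp)
  have hdvd : ∀ g, f ∣ g → f' ∣ ψ g := fun g hg => hass.dvd.trans (map_dvd ψ hg)
  have hbr : ∀ g h, f' ∣ br Θ' (ψ g) (ψ h) - ψ (br Θ g h) := fun g h => by
    rw [← br_tr p3]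
    exact br_congr hΘ _ _
  have hd : ∀ D : Derivation ℂ (PS ι') (PS ι'), D (ψ f) = u * D f' + f' * D u := fun D => by
    rw [hu, Derivation.leibniz, smul_eq_mul, smul_eq_mul]
  have htang : ∀ i, Log f' (Θ' i) := fun i => by
    have h1 := hbr (ψ.symm (X i)) f
    rw [ψ.apply_symm_apply, br_X] at h1
    have h2 := dvd_add h1 (hdvd _ (dvd_br hP.tang (ψ.symm (X i))))
    rw [sub_add_cancel, hd] at h2
    exact (Units.dvd_mul_left).mp ((dvd_add_left (dvd_mul_right _ _)).mp h2)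
  refine ⟨hp', fun hH => ⟨hp', ?_⟩, ⟨hs', htang, fun i j k => ?_, ?_⟩, fun hS j => ?_,
    fun hV i j => ?_, hbr⟩
  · have := hH.2
    have : IsDomain (PS ι') := NoZeroDivisors.to_isDomain _
    refine IsIntegrallyClosed.of_equiv (R := PS ι ⧸ Ideal.span {f})
      (Ideal.quotientEquiv _ _ ψ.toRingEquiv ?_)
    rw [Ideal.map_span, Set.image_singleton]
    exact Ideal.span_singleton_eq_span_singleton.mpr hass
  · have key : ∀ i j k, f' ∣ vf (Θ' i) (Θ' j k) -
        ψ (br Θ (ψ.symm (X i)) (br Θ (ψ.symm (X j)) (ψ.symm (X k)))) := fun i j k => by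
      have h1 := hbr (ψ.symm (X i)) (br Θ (ψ.symm (X j)) (ψ.symm (X k)))
      rw [ψ.apply_symm_apply, br_X] at h1
      have h2 := vf_dvd (htang i) (hΘ j k)
      rw [map_sub] at h2
      simpa using dvd_add h2 h1
    have h3 := hdvd _ (jb_dvd hP (ψ.symm (X i)) (ψ.symm (X j)) (ψ.symm (X k)))
    rw [jb, map_add, map_add] at h3
    have h4 := dvd_add (dvd_add (dvd_add (key i j k) (key j k i)) (key k i j)) h3
    exact (congrArg (f' ∣ ·) (by ring)).mp h4
  · obtain ⟨γ, hγ, hnd⟩ := hP.nd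
    let q := Ideal.Quotient.mk (Ideal.span {f'})
    have hq : ∀ g, q g = 0 ↔ f' ∣ g := fun g => by
      rw [Ideal.Quotient.eq_zero_iff_mem, Ideal.mem_span_singleton]
    obtain ⟨δ, hδ, hadj⟩ := nd_tr p3 ψ hc q ((hq _).mpr hass.dvd) hnd
    refine ⟨ψ γ * δ ^ 2 * (u * u), ((hγ.map ψ).mul (hδ.pow 2)).mul (u.isUnit.mul u.isUnit),
      fun i j => ?_⟩
    have h1 : Θ'.map q = (tr ψ Θ).map q := by
      ext1 i j
      rw [map_apply, map_apply, ← sub_eq_zero, ← map_sub, hq]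
      exact hΘ i j
    have h2 : ∀ i, q (pderiv ℂ i (ψ f)) = q u * q (pderiv ℂ i f') := fun i => by
      rw [hd, map_add, map_mul, map_mul, (hq f').mpr dvd_rfl, zero_mul, add_zero]
    rw [← h1, ← RingHom.mapMatrix_apply, ← RingHom.map_adjugate] at hadj
    have h3 := congrFun (congrFun hadj i) j
    rw [RingHom.mapMatrix_apply, map_apply, Matrix.smul_apply, vecMulVec_apply, h2, h2,
      smul_eq_mul] at h3
    rw [← hq, map_sub, h3]
    simp only [map_mul, map_pow]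
    ring
  · have h1 : constantCoeff (pderiv ℂ j (ψ f)) = 0 := by
      rw [REL.chain p3, map_sum]
      exact Finset.sum_eq_zero fun i _ => by rw [map_mul, cc p3, hS i, zero_mul]
    rw [hd, map_add, map_mul, map_mul, Prime.constantCoeff hp', zero_mul, add_zero] at h1
    exact (mul_eq_zero.mp h1).resolve_left (isUnit_iff'.mp u.isUnit)
  · obtain ⟨c, hc⟩ := hΘ i j
    rw [sub_eq_iff_eq_add.mp hc, map_add, map_mul, Prime.constantCoeff hp', zero_mul, zero_add,
      cc p3, br_apply, map_sum]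
    refine Finset.sum_eq_zero fun k _ => ?_
    rw [map_sum]
    exact Finset.sum_eq_zero fun l _ => by rw [map_mul, map_mul, hV k l, mul_zero, zero_mul]

end Pool.Agent.MP_51db15_ag.Hy
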