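import Pool.Agent.MP_51db15_ag.Hy.Rows
import Pool.Agent.MP_51db15_ag.Hy.Base

/-! Transport of the extension properties along a change of coordinates. -/

namespace Pool.Agent.MP_51db15_ag.Hy

open MvPowerSeries Matrix

namespace RELX

variable {ι ι' : Type} [Fintype ι] [Fintype ι']

/-- chain rule for a vector field -/
theorem chain (p3 : S_P3) (ψ : PS ι ≃ₐ[ℂ] PS ι') (w : ι' → PS ι') (g : PS ι) :
    vf w (ψ g) = ∑ i, ψ (pderiv ℂ i g) * vf w (ψ (X i)) := by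
  have h : ∀ j, pderiv ℂ j (ψ g) = ∑ i, ψ (pderiv ℂ i g) * pderiv ℂ j (ψ (X i)) :=
    fun j => (p3.1 ℂ ι ι' (ψ : PS ι →ₐ[ℂ] PS ι')).2.2.1 g j
  rw [vf_apply]
  simp only [h, vf_apply, Finset.mul_sum]
  rw [Finset.sum_comm]
  refine Finset.sum_congr rfl fun i _ => Finset.sum_congr rfl fun j _ => ?_
  ring

/-- the transported field -/
theorem vf_tr (p3 : S_P3) (ψ : PS ι ≃ₐ[ℂ] PS ι') (e : ι → PS ι) (h : PS ι') :
    vf (fun k => ψ (vf e (ψ.symm (X k)))) h = ψ (vf e (ψ.symm h)) := by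
  rw [chain p3 ψ.symm e h, map_sum, vf_apply]
  refine Finset.sum_congr rfl fun k _ => ?_
  rw [map_mul, AlgEquiv.apply_symm_apply, mul_comm]

theorem vf_rel (p3 : S_P3) (ψ : PS ι ≃ₐ[ℂ] PS ι') {f' : PS ι'} {e : ι → PS ι} {e' : ι' → PS ι'}
    (h : ∀ k, f' ∣ e' k - ψ (vf e (ψ.symm (X k)))) (g : PS ι) :
    f' ∣ vf e' (ψ g) - ψ (vf e g) := by
  have h1 := vf_congr h (ψ g)
  rwa [vf_tr p3, AlgEquiv.symm_apply_apply] at h1

theorem br_eq (Θ : Matrix ι ι (PS ι)) (g h : PS ι) :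
    br Θ g h = vf (∑ i, pderiv ℂ i g • Θ i) h := by
  rw [vf_sum, br]
  exact Finset.sum_congr rfl fun i _ => (vf_smul _ _ _).symm

variable {κ : Type} [Field κ] [Algebra ℂ κ]

omit [Fintype ι] in
theorem eq_of_dvd {f : PS ι} {φ : PS ι →ₐ[ℂ] κ} (hφ : KerIs f φ) {g h : PS ι} (hd : f ∣ g - h) :
    φ g = φ h := by
  have := (hφ _).2 hd
  rwa [map_sub, sub_eq_zero] at this

omit [Fintype ι] [Fintype ι'] in
theorem kerIs_comp {f : PS ι} {f' : PS ι'} {ψ : PS ι ≃ₐ[ℂ] PS ι'} {u : (PS ι')ˣ}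
    (hu : ψ f = u * f') {φ : PS ι' →ₐ[ℂ] κ} (hφ : KerIs f' φ) :
    KerIs f (φ.comp (ψ : PS ι →ₐ[ℂ] PS ι')) := by
  intro g
  change φ (ψ g) = 0 ↔ _
  rw [hφ, ← map_dvd_iff ψ, hu, Units.mul_left_dvd]

theorem dfr_rel (p3 : S_P3) (ψ : PS ι ≃ₐ[ℂ] PS ι') {f' : PS ι'} {e : ι → PS ι} {e' : ι' → PS ι'}
    (h : ∀ k, f' ∣ e' k - ψ (vf e (ψ.symm (X k)))) {φ : PS ι' →ₐ[ℂ] κ} (hφ : KerIs f' φ)
    (a b : PS ι) :
    dfr φ e' (ψ a) (ψ b) = dfr (φ.comp (ψ : PS ι →ₐ[ℂ] PS ι')) e a b := by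
  rw [dfr, dfr, eq_of_dvd hφ (vf_rel p3 ψ h a), eq_of_dvd hφ (vf_rel p3 ψ h b)]
  rfl

theorem dfr_sum (φ : PS ι →ₐ[ℂ] κ) {I : Type} [Fintype I] (p : I → PS ι) (v : I → ι → PS ι)
    (a b : PS ι) : dfr φ (∑ i, p i • v i) a b = ∑ i, φ (p i) * dfr φ (v i) a b := by
  simp only [dfr, vf_sum, vf_smul, map_sum, map_mul, Finset.sum_mul, Finset.mul_sum,
    ← Finset.sum_sub_distrib, Finset.sum_div]
  refine Finset.sum_congr rfl fun i _ => ?_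
  ring

omit [Algebra ℂ κ] in
theorem bilin {I S : Type} [Fintype I] [Fintype S] (p q : I → κ) (c : S → κ) (x y : I → S → κ) :
    ∑ i, p i * ∑ j, (∑ s, c s * (x i s * y j s - y i s * x j s)) * q j =
      ∑ s, c s * ((∑ i, p i * x i s) * (∑ j, q j * y j s) -
        (∑ i, p i * y i s) * (∑ j, q j * x j s)) := by
  have h : ∀ s, c s * ((∑ i, p i * x i s) * (∑ j, q j * y j s) -
        (∑ i, p i * y i s) * (∑ j, q j * x j s)) =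
      ∑ i, ∑ j, p i * (c s * (x i s * y j s - y i s * x j s) * q j) := by
    intro s
    rw [Finset.sum_mul_sum, Finset.sum_mul_sum, ← Finset.sum_sub_distrib, Finset.mul_sum]
    refine Finset.sum_congr rfl fun i _ => ?_
    rw [← Finset.sum_sub_distrib, Finset.mul_sum]
    refine Finset.sum_congr rfl fun j _ => ?_
    ring
  simp only [h]
  rw [Finset.sum_comm]
  refine Finset.sum_congr rfl fun i _ => ?_
  rw [Finset.sum_comm, Finset.mul_sum]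
  refine Finset.sum_congr rfl fun j _ => ?_
  rw [Finset.sum_mul, Finset.mul_sum]

theorem kae_rel (p3 : S_P3) {f' : PS ι'} {Θ : Matrix ι ι (PS ι)} {Θ' : Matrix ι' ι' (PS ι')}
    {ψ : PS ι ≃ₐ[ℂ] PS ι'}
    (h : ∀ i j, f' ∣ Θ' i j - ψ (br Θ (ψ.symm (X i)) (ψ.symm (X j)))) {φ : PS ι' →ₐ[ℂ] κ}
    (hφ : KerIs f' φ) {V : ValuationSubring κ}
    (hK : Kae (φ.comp (ψ : PS ι →ₐ[ℂ] PS ι')) (fun i => Θ i) (fun i j => Θ i j) V) :
    Kae φ (fun i => Θ' i) (fun i j => Θ' i j) V := by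
  obtain ⟨S, hS, c, a, b, a', b', h1, h2⟩ := hK
  refine ⟨S, hS, c, fun s => ψ (a s), fun s => ψ (b s), fun s => ψ (a' s), fun s => ψ (b' s),
    h1, fun k l => ?_⟩
  have h3 : ∀ k x y, dfr φ (Θ' k) (ψ x) (ψ y) =
      ∑ i, (φ.comp (ψ : PS ι →ₐ[ℂ] PS ι')) (pderiv ℂ i (ψ.symm (X k))) *
        dfr (φ.comp (ψ : PS ι →ₐ[ℂ] PS ι')) (Θ i) x y := by
    intro k x y
    rw [← dfr_sum]
    refine dfr_rel p3 ψ (fun l => ?_) hφ x y
    rw [← br_eq]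
    exact h k l
  have h4 : φ (Θ' k l) = (φ.comp (ψ : PS ι →ₐ[ℂ] PS ι')) (br Θ (ψ.symm (X k)) (ψ.symm (X l))) :=
    eq_of_dvd hφ (h k l)
  simp only [h3]
  rw [h4, ← bilin]
  simp only [br, vf_apply, map_sum, map_mul, h2]

theorem inv_rel (p3 : S_P3) (ψ : PS ι ≃ₐ[ℂ] PS ι') {f' : PS ι'} {e : ι → PS ι} {e' : ι' → PS ι'}
    (h : ∀ k, f' ∣ e' k - ψ (vf e (ψ.symm (X k)))) {φ : PS ι' →ₐ[ℂ] κ} (hφ : KerIs f' φ)
    {V : ValuationSubring κ} (hI : Inv φ e' V) : Inv (φ.comp (ψ : PS ι →ₐ[ℂ] PS ι')) e V := by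
  intro a b hb hab
  rw [← dfr_rel p3 ψ h hφ]
  exact hI _ _ hb hab

theorem cc_vf {v : ι → PS ι} (hv : ∀ i, constantCoeff (v i) = 0) (g : PS ι) :
    constantCoeff (vf v g) = 0 := by
  simp [vf_apply, hv]

theorem euler_rel (p3 : S_P3) {f : PS ι} {f' : PS ι'} {ψ : PS ι ≃ₐ[ℂ] PS ι'} {u : (PS ι')ˣ}
    (hu : ψ f = u * f') {e' : ι' → PS ι'} (he : IsEuler f' e') :
    IsEuler f fun k => ψ.symm (vf e' (ψ (X k))) := by
  have hc : ∀ g, constantCoeff (ψ.symm g) = constantCoeff g :=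
    (p3.1 ℂ ι' ι (ψ.symm : PS ι' →ₐ[ℂ] PS ι)).1
  obtain ⟨h0, l, hl, h1⟩ := he
  refine ⟨fun k => by rw [hc, cc_vf h0], ψ.symm (l + vf e' u * (u⁻¹ : (PS ι')ˣ)), ?_, ?_⟩
  · rw [isUnit_iff', hc, map_add, map_mul, cc_vf h0, zero_mul, add_zero]
    exact isUnit_iff'.1 hl
  · have h2 := vf_tr p3 ψ.symm e' f
    rw [AlgEquiv.symm_symm] at h2
    rw [h2]
    apply ψ.injective
    rw [map_mul, AlgEquiv.apply_symm_apply, AlgEquiv.apply_symm_apply, hu, vf_mul, h1, add_mul,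
      mul_assoc, Units.inv_mul_cancel_left]
    ring

end RELX

theorem relx (p3 : S_P3) : S_RELX := by
  intro ι ι' _ _ _ _ f Θ ψ f' Θ' _ hR _ _
  obtain ⟨⟨u, hu⟩, -, hΘ⟩ := hR
  have h3 : ∀ e e', (∀ k, f' ∣ e' k - ψ (vf e (ψ.symm (X k)))) → EExt f Θ e → EExt f' Θ' e' := by
    intro e e' he hE κ _ _ φ hφ V hV hI
    exact RELX.kae_rel p3 hΘ hφ (hE κ _ (RELX.kerIs_comp hu hφ) V (fun g => hV _)
      (RELX.inv_rel p3 ψ he hφ hI))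
  refine ⟨fun hE κ _ _ φ hφ V hV => ?_, fun hW e' he' => ?_, h3⟩
  · exact RELX.kae_rel p3 hΘ hφ (hE κ _ (RELX.kerIs_comp hu hφ) V fun g => hV _)
  · refine h3 _ e' (fun k => ?_) (hW _ (RELX.euler_rel p3 hu he'))
    have h2 := RELX.vf_tr p3 ψ.symm e' (ψ.symm (X k))
    rw [AlgEquiv.symm_symm] at h2
    rw [h2, AlgEquiv.apply_symm_apply, AlgEquiv.apply_symm_apply, vf_X, sub_self]
    exact dvd_zero _

end Pool.Agent.MP_51db15_ag.Hy
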