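import Pool.Agent.MP_51db15_ag.Hy.Rows
import Pool.Agent.MP_51db15_ag.Hy.Base

/-! Restriction to a monomial curve and evaluation of homogeneous series. -/

namespace Pool.Agent.MP_51db15_ag.Hy

open MvPowerSeries Matrix

namespace RHO

variable {ι : Type} [Fintype ι]

/-- The value of a monomial. -/
noncomputable def mo (p : ι → ℂ) (α : ι →₀ ℕ) : ℂ := α.prod fun i n => p i ^ n

theorem mo_eq (p : ι → ℂ) (α : ι →₀ ℕ) : mo p α = ∏ i, p i ^ α i :=
  Finsupp.prod_fintype _ _ fun _ => pow_zero _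

theorem mo_add (p : ι → ℂ) (α β : ι →₀ ℕ) : mo p (α + β) = mo p α * mo p β := by
  simp only [mo_eq, Finsupp.add_apply, pow_add, Finset.prod_mul_distrib]

theorem mo_ne {p : ι → ℂ} {α : ι →₀ ℕ} (h : mo p α ≠ 0) (i : ι) (hi : α i ≠ 0) : p i ≠ 0 := by
  intro h0
  exact h (by rw [mo_eq]; exact Finset.prod_eq_zero (Finset.mem_univ i) (by rw [h0, zero_pow hi]))

omit [Fintype ι] in
theorem ev_eq (p : ι → ℂ) (g : PS ι) : ev p g = ∑ᶠ α, coeff α g * mo p α := rfl

theorem weight_eq {M : Type} [AddCommMonoid M] (w : ι → M) (α : ι →₀ ℕ) :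
    Finsupp.weight w α = ∑ i, α i • w i := by
  rw [Finsupp.weight_apply]
  exact Finsupp.sum_fintype _ _ fun _ => zero_smul _ _

theorem fin_supp {w : ι → ℚ} {p : ι → ℂ} (hA : Adm w p) {e : ℚ} {g : PS ι} (hg : IsHom w e g) :
    Function.HasFiniteSupport fun α => coeff α g * mo p α := by
  classical
  refine (Set.finite_Iic (Finsupp.equivFunOnFinite.symm fun i => ⌈e / w i⌉₊)).subset fun α h => ?_
  have h1 := hg α (left_ne_zero_of_mul h)
  have h2 := mo_ne (right_ne_zero_of_mul h)
  intro i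
  by_cases hi : α i = 0
  · rw [hi]
    exact Nat.zero_le _
  have h3 : α i • w i ≤ e := by
    rw [← h1, weight_eq]
    refine Finset.single_le_sum (f := fun i => α i • w i) (fun j _ => ?_) (Finset.mem_univ i)
    by_cases hj : α j = 0
    · simp [hj]
    · exact nsmul_nonneg (hA j (h2 j hj)).le _
  rw [nsmul_eq_mul, ← le_div_iff₀ (hA i (h2 i hi))] at h3
  exact Nat.cast_le.1 (h3.trans (Nat.le_ceil _))

omit [Fintype ι] in
theorem poly {u : (ι →₀ ℕ) → ℂ} (hu : Function.HasFiniteSupport u) :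
    ∃ G : MvPolynomial ι ℂ, ∀ α, G.coeff α = u α := by
  classical
  refine ⟨∑ β ∈ hu.toFinset, MvPolynomial.monomial β (u β), fun α => ?_⟩
  simp only [MvPolynomial.coeff_sum, MvPolynomial.coeff_monomial, Finset.sum_ite_eq']
  split_ifs with h
  · rfl
  · by_contra h1
    exact h (hu.mem_toFinset.2 fun h2 => h1 h2.symm)

theorem fs_poly (G : MvPolynomial ι ℂ) : ∑ᶠ α, G.coeff α = MvPolynomial.eval (fun _ => 1) G := by
  rw [finsum_eq_sum_of_support_subset _ (s := G.support) fun α h =>
    MvPolynomial.mem_support_iff.2 h, MvPolynomial.eval_eq']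
  simp

theorem ev_mul {p : ι → ℂ} {g h : PS ι}
    (hg : Function.HasFiniteSupport fun α => coeff α g * mo p α)
    (hh : Function.HasFiniteSupport fun α => coeff α h * mo p α) :
    ev p (g * h) = ev p g * ev p h := by
  classical
  obtain ⟨G, hG⟩ := poly hg
  obtain ⟨H, hH⟩ := poly hh
  have e : ∀ α, coeff α (g * h) * mo p α = (G * H).coeff α := fun α => by
    rw [coeff_mul, MvPolynomial.coeff_mul, Finset.sum_mul]
    refine Finset.sum_congr rfl fun x hx => ?_
    rw [hG, hH, ← Finset.HasAntidiagonal.mem_antidiagonal.1 hx, mo_add]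
    ring
  simp only [ev_eq, e, ← hG, ← hH, fs_poly, map_mul]

theorem ev_add {w : ι → ℚ} {p : ι → ℂ} (hA : Adm w p) {e : ℚ} {g h : PS ι} (hg : IsHom w e g)
    (hh : IsHom w e h) : ev p (g + h) = ev p g + ev p h := by
  simp only [ev_eq, map_add, add_mul]
  exact finsum_add_distrib (fin_supp hA hg) (fin_supp hA hh)

omit [Fintype ι] in
theorem ev_zero (p : ι → ℂ) : ev p 0 = 0 := by simp [ev_eq]

omit [Fintype ι] in
theorem ev_C_mul (p : ι → ℂ) (c : ℂ) (g : PS ι) : ev p (C c * g) = c * ev p g := by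
  simp only [ev_eq, coeff_C_mul, mul_finsum, mul_assoc]

omit [Fintype ι] in
theorem ev_X (p : ι → ℂ) (i : ι) : ev p (X i) = p i := by
  classical
  rw [ev_eq, finsum_eq_single _ (Finsupp.single i 1) fun α h => by
    rw [coeff_X, if_neg h, zero_mul]]
  simp [mo, coeff_X]

theorem ev_sum {w : ι → ℚ} {p : ι → ℂ} (hA : Adm w p) {e : ℚ} {S : Type} (T : Finset S)
    {g : S → PS ι} (hg : ∀ s, IsHom w e (g s)) : ev p (∑ s ∈ T, g s) = ∑ s ∈ T, ev p (g s) := by
  classical
  induction T using Finset.induction_on with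
  | empty => simp [ev_zero]
  | insert s T hs ih =>
    rw [Finset.sum_insert hs, Finset.sum_insert hs, ev_add hA (hg s) (IsHom.sum fun s _ => hg s),
      ih]

end RHO

open RHO

theorem rho : S_RHO := by
  intro ι _ W p hA
  classical
  have hs : HasSubst fun i => (PowerSeries.C (p i) * PowerSeries.X ^ (W i).toNat :
      PowerSeries ℂ) := hasSubst_of_constantCoeff_zero fun i => by
    change PowerSeries.constantCoeff _ = 0
    by_cases h : p i = 0
    · simp [h]
    · have := hA i h
      simp [zero_pow (show (W i).toNat ≠ 0 by omega)]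
  have hw : ∀ α, mo p α ≠ 0 → Finsupp.weight W α = (∑ i, (W i).toNat * α i : ℕ) := fun α h => by
    rw [weight_eq, Nat.cast_sum]
    refine Finset.sum_congr rfl fun i _ => ?_
    by_cases hi : α i = 0
    · simp [hi]
    · rw [Nat.cast_mul, Int.toNat_of_nonneg (hA i (mo_ne h i hi)).le, nsmul_eq_mul, mul_comm]
  refine ⟨substAlgHom hs, fun g n => ?_, fun g n hn => ?_⟩
  · have := coeff_subst hs g (Finsupp.single () n)
    rw [← substAlgHom_apply hs] at this
    refine this.trans (finsum_congr fun α => ?_)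
    change _ • PowerSeries.coeff n _ = _ * mo p α
    rw [Finsupp.prod_fintype _ _ fun _ => pow_zero _]
    simp only [mul_pow, ← map_pow, ← pow_mul, Finset.prod_mul_distrib, ← map_prod,
      Finset.prod_pow_eq_pow_sum, PowerSeries.coeff_C_mul, PowerSeries.coeff_X_pow, ← mo_eq,
      coeff_comp, smul_eq_mul]
    by_cases h : mo p α = 0
    · simp [h]
    · rw [hw α h]
      generalize ∑ i, (W i).toNat * α i = m
      simp [eq_comm]
  · refine finsum_eq_zero_of_forall_eq_zero fun α => ?_
    change _ * mo p α = 0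
    by_cases h : mo p α = 0
    · rw [h, mul_zero]
    · rw [coeff_comp, hw α h, if_neg (by omega), zero_mul]

theorem evS : S_EV := by
  intro ι _ w p hA
  have hm : ∀ e e' g h, IsHom w e g → IsHom w e' h → ev p (g * h) = ev p g * ev p h :=
    fun e e' g h hg hh => ev_mul (fin_supp hA hg) (fin_supp hA hh)
  refine ⟨fun e g h => ev_add hA, hm, ev_C_mul p, ev_X p, ev_zero p, fun g => ?_, fun g h => ?_,
    fun a e e' g hg hg' => ?_⟩
  · simpa using ev_C_mul p (-1) g
  · by_contra h0
    refine h (finsum_eq_zero_of_forall_eq_zero fun α => ?_)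
    by_contra h1
    exact h0 ⟨α, left_ne_zero_of_mul h1, mo_ne (right_ne_zero_of_mul h1)⟩
  · rw [← ev_C_mul, ← vf_eul hg', vf_apply, ev_sum hA (e := e) _
      (g := fun i => eul a i * pderiv ℂ i g) fun i =>
      (((isHom_X i).C_mul _).mul (hg.pderiv i)).congr (by ring)]
    refine Finset.sum_congr rfl fun i _ => ?_
    rw [eul, mul_assoc (C _), ev_C_mul, hm _ _ _ _ (isHom_X i) (hg.pderiv i), ev_X, mul_assoc]

end Pool.Agent.MP_51db15_ag.Hy
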