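import Pool.Agent.MP_51db15_ag.Hy.Rows
import Pool.Agent.MP_51db15_ag.Hy.Base

/-! The singular locus of a normal hypersurface, and extension of functions over it. -/

namespace Pool.Agent.MP_51db15_ag.Hy

open MvPowerSeries Matrix

namespace SING

/-- primes associated to a principal ideal of a normal domain are locally principal -/
theorem ass {A : Type} [CommRing A] [IsDomain A] [IsNoetherianRing A] [IsIntegrallyClosed A]
    {s g : A} (hs : s ≠ 0) (hg : ¬ s ∣ g) : ∃ P : Ideal A, P.IsPrime ∧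
      (∀ x, s ∣ x * g → x ∈ P) ∧ ∃ q ∈ P, ∃ t ∉ P, ∀ x ∈ P, q ∣ t * x := by
  obtain ⟨c, hc⟩ : ∃ c : A → Ideal A, ∀ b x, x ∈ c b ↔ s ∣ x * b :=
    ⟨fun b => Submodule.comap (LinearMap.toSpanSingleton A A b) (Ideal.span {s}), fun b x =>
      Ideal.mem_span_singleton⟩
  obtain ⟨_, ⟨y, hy, rfl⟩, hmax⟩ := set_has_maximal_iff_noetherian.2
    (inferInstance : IsNoetherian A A) {I | ∃ y, ¬ s ∣ y * g ∧ I = c (y * g)}
    ⟨_, 1, by simpa using hg, rfl⟩
  refine ⟨c (y * g), ⟨fun h => hy ?_, fun {u v} h => ?_⟩, fun x hx => (hc _ _).2 ?_, ?_⟩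
  · simpa using (hc _ 1).1 (h ▸ Submodule.mem_top)
  · by_contra hn
    push Not at hn
    have h1 : c (y * g) ≤ c (v * y * g) := fun x hx => (hc _ _).2 (by
      rw [show x * (v * y * g) = v * (x * (y * g)) by ring]
      exact ((hc _ _).1 hx).mul_left v)
    refine hmax (c (v * y * g)) ⟨v * y, fun h => hn.2 ((hc _ _).2 (by rwa [← mul_assoc])), rfl⟩
      (lt_of_le_of_ne h1 fun e => hn.1 (e ▸ (hc _ _).2 ?_))
    rw [show u * (v * y * g) = u * v * (y * g) by ring]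
    exact (hc _ _).1 h
  · rw [mul_left_comm]
    exact hx.mul_left y
  generalize y * g = b at hy
  by_contra hn
  have h1 : ∀ q ∈ c b, ∃ t ∈ c b, q * b = s * t := by
    intro q hq
    obtain ⟨t, ht⟩ := (hc _ _).1 hq
    refine ⟨t, by_contra fun h => hn ⟨q, hq, t, h, fun x hx => ?_⟩, ht⟩
    obtain ⟨z, hz⟩ := (hc _ _).1 hx
    exact ⟨z, mul_left_cancel₀ hs (by linear_combination q * hz - x * ht)⟩
  have hi := IsFractionRing.injective A (FractionRing A)
  have hs' : algebraMap A (FractionRing A) s ≠ 0 := (map_ne_zero_iff _ hi).2 hs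
  have h2 := isIntegral_of_smul_mem_submodule
    (Submodule.map (Algebra.linearMap A (FractionRing A)) (c b))
    ((Submodule.ne_bot_iff _).2 ⟨_, ⟨s, (hc _ _).2 (dvd_mul_right _ _), rfl⟩, hs'⟩)
    ((IsNoetherian.noetherian _).map _)
    (algebraMap A (FractionRing A) b / algebraMap A (FractionRing A) s) (by
      rintro _ ⟨q, hq, rfl⟩
      obtain ⟨t, ht, e⟩ := h1 q hq
      refine ⟨t, ht, ?_⟩
      simp only [Algebra.linearMap_apply, smul_eq_mul]
      rw [div_mul_eq_mul_div, eq_div_iff hs', ← map_mul, ← map_mul, mul_comm b, e, mul_comm])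
  obtain ⟨z, hz⟩ := IsIntegrallyClosed.isIntegral_iff.1 h2
  rw [eq_div_iff hs', ← map_mul] at hz
  exact hy ⟨z, by rw [← hi hz, mul_comm]⟩

theorem loc {A : Type} [CommRing A] {I Q : Ideal A} [Q.IsPrime]
    (h : ∀ P : Ideal A, P.IsPrime → I ≤ P → P ≤ Q → Q ≤ P) {x : A} (hx : x ∈ Q) :
    ∃ y ∉ Q, ∃ n : ℕ, x ^ n * y ∈ I := by
  by_contra hn
  push Not at hn
  obtain ⟨P, h1, h2, h3⟩ := I.exists_le_prime_disjoint (Submonoid.powers x ⊔ Q.primeCompl)
    (Set.disjoint_left.2 fun z hz hz' => by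
      obtain ⟨_, ⟨n, rfl⟩, y, hy, rfl⟩ := Submonoid.mem_sup.1 hz'
      exact hn y hy n hz)
  have h4 : P ≤ Q := fun z hz => by_contra fun hz' =>
    Set.disjoint_left.1 h3 hz (Submonoid.mem_sup_right hz')
  exact Set.disjoint_left.1 h3 (h P h1 h2 h4 hx) (Submonoid.mem_sup_left (Submonoid.mem_powers x))

/-- a prime that contains the gradient is not locally principal modulo the equation -/
theorem core (nag : S_NAG) {ι : Type} [Fintype ι] [DecidableEq ι] {f : PS ι} {Q : Ideal (PS ι)}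
    (hp : Prime f) (hQ : Q.IsPrime) (hf : f ∈ Q) (hd : ∀ i, pderiv ℂ i f ∈ Q) {q t : PS ι}
    (hq : q ∈ Q) (ht : t ∉ Q) (h : ∀ x ∈ Q, ∃ a b, t * x = a * q + b * f) : False := by
  obtain ⟨u, S, hdet, hu, hS⟩ := nag ι Q hQ
  obtain ⟨J, hJ⟩ : ∃ J, J = Matrix.of fun i j => pderiv ℂ j (u i) := ⟨_, rfl⟩
  rw [← hJ] at hdet
  obtain ⟨D, hD⟩ : ∃ D : ι → Derivation ℂ (PS ι) (PS ι),
      ∀ k, D k = vf fun j => J.adjugate j k := ⟨_, fun _ => rfl⟩
  have e : ∀ k i, D k (u i) = if i = k then J.det else 0 := by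
    intro k i
    have h1 := congrFun (congrFun (mul_adjugate J) i) k
    rw [Matrix.mul_apply, Matrix.smul_apply, Matrix.one_apply, smul_eq_mul, mul_ite, mul_one, mul_zero] at h1
    rw [hD, vf_apply, ← h1]
    exact Finset.sum_congr rfl fun j _ => by rw [mul_comm, hJ, of_apply]
  have lb : ∀ k x y, D k (x * y) = x * D k y + y * D k x := fun k x y => by
    rw [Derivation.leibniz, smul_eq_mul, smul_eq_mul]
  have d1 : ∀ k a, D k (a * f) ∈ Q := by
    intro k a
    rw [lb]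
    refine Q.add_mem (Q.mul_mem_left _ ?_) (Q.mul_mem_right _ hf)
    rw [hD, vf_apply]
    exact Q.sum_mem fun j _ => Q.mul_mem_left _ (hd j)
  have d2 : ∀ k a, ∀ j ∈ S, j ≠ k → D k (a * u j) ∈ Q := by
    intro k a j hj hjk
    rw [lb, e, if_neg hjk, mul_zero, zero_add]
    exact Q.mul_mem_right _ (hu j hj)
  have d3 : ∀ k, ∀ x ∈ Q, ∀ y ∈ Q, D k (x * y) ∈ Q := by
    intro k x hx y hy
    rw [lb]
    exact Q.add_mem (Q.mul_mem_right _ hx) (Q.mul_mem_right _ hy)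
  have d4 : ∀ k ∈ S, ∀ r, D k (r * u k) ∈ Q → r ∈ Q := by
    intro k hk r h1
    rw [lb, e, if_pos rfl] at h1
    exact (hQ.mem_or_mem ((Q.add_mem_iff_left (Q.mul_mem_right _ (hu k hk))).1 h1)).resolve_right
      hdet
  obtain ⟨s, hs, hsf⟩ := hS f hf
  rcases S.eq_empty_or_nonempty with rfl | ⟨k, hk⟩
  · simp only [Finset.coe_empty, Set.image_empty, Ideal.span_empty, Ideal.mem_bot,
      mul_eq_zero] at hsf
    exact hsf.elim (fun h => hs (h ▸ Q.zero_mem)) hp.ne_zero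
  by_cases hj : ∃ j ∈ S, j ≠ k
  · obtain ⟨j, hj, hjk⟩ := hj
    obtain ⟨a, b, h1⟩ := h _ (hu k hk)
    obtain ⟨a', b', h2⟩ := h _ (hu j hj)
    have h3 : a * t ∈ Q := d4 j hj _ (by
      rw [show a * t * u j = a' * t * u k + (a * b' - a' * b) * f by
        linear_combination a * h2 - a' * h1, map_add]
      exact Q.add_mem (d2 j _ k hk hjk.symm) (d1 j _))
    refine ht (d4 k hk _ ?_)
    rw [h1, map_add]
    exact Q.add_mem (d3 k _ ((hQ.mem_or_mem h3).resolve_right ht) _ hq) (d1 k _)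
  · have h1 : Ideal.span (u '' S) ≤ Ideal.span {u k} := by
      refine Ideal.span_mono ?_
      rintro _ ⟨j, hj', rfl⟩
      rw [not_not.1 fun h => hj ⟨j, hj', h⟩]
      rfl
    obtain ⟨r, hr⟩ := Ideal.mem_span_singleton'.1 (h1 hsf)
    obtain ⟨s', hs', h2⟩ := hS r (d4 k hk r (hr ▸ d1 k s))
    obtain ⟨r', hr'⟩ := Ideal.mem_span_singleton'.1 (h1 h2)
    have h3 : f * (s' * s) = r' * u k * u k := by linear_combination -u k * hr' - s' * hr
    have h4 : ¬ f ∣ u k := by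
      rintro ⟨a, ha⟩
      refine hQ.ne_top ((Ideal.eq_top_iff_one Q).2 (d4 k hk 1 ?_))
      rw [one_mul, ha, mul_comm]
      exact d1 k a
    obtain ⟨a, ha⟩ := (hp.dvd_or_dvd ((hp.dvd_or_dvd (Dvd.intro _ h3)).resolve_right
      h4)).resolve_right h4
    have h5 : s' * s = a * u k * u k :=
      mul_left_cancel₀ hp.ne_zero (by rw [h3, ha]; ring)
    exact (hQ.mem_or_mem (h5 ▸ Q.mul_mem_left _ (hu k hk))).elim hs' hs

end SING

theorem hart (nag : S_NAG) : S_HART := by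
  intro ι _ _ f s g M hf hs h
  have hP := (Ideal.span_singleton_prime hf.1.ne_zero).2 hf.1
  have := hf.2
  have hz : ∀ x, Ideal.Quotient.mk (Ideal.span {f}) x = 0 ↔ f ∣ x := fun x =>
    Ideal.Quotient.eq_zero_iff_mem.trans Ideal.mem_span_singleton
  have hv : ∀ x y, Ideal.Quotient.mk (Ideal.span {f}) x ∣ Ideal.Quotient.mk (Ideal.span {f}) y ↔
      ∃ h, f ∣ y - x * h := by
    intro x y
    simp only [← hz, map_sub, map_mul, sub_eq_zero]
    exact Ideal.Quotient.mk_surjective.exists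
  by_contra hn
  obtain ⟨P, h1, h2, q, hq, t, ht, h3⟩ := SING.ass (mt (hz s).1 hs) (mt (hv s g).1 hn)
  obtain ⟨q, rfl⟩ := Ideal.Quotient.mk_surjective q
  obtain ⟨t, rfl⟩ := Ideal.Quotient.mk_surjective t
  refine SING.core nag hf.1 (Q := P.comap (Ideal.Quotient.mk _)) inferInstance
    (by rw [Ideal.mem_comap, (hz f).2 dvd_rfl]; exact P.zero_mem) (fun i => ?_) hq ht
    fun x hx => ?_
  · refine h1.mem_of_pow_mem M (h2 _ ?_)
    rw [← map_pow, ← map_mul]
    exact (hv _ _).2 (h i)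
  · obtain ⟨a, b, e⟩ := (hv q (t * x)).1 (h3 _ hx)
    exact ⟨a, b, by linear_combination e⟩

theorem sing (nag : S_NAG) : S_SING := by
  intro ι _ _ f Q hf hQ hfQ hd
  have hP := (Ideal.span_singleton_prime hf.1.ne_zero).2 hf.1
  obtain ⟨i0, hs⟩ := exists_pderiv_not_dvd hf.1.ne_zero (Prime.constantCoeff hf.1)
  by_contra hn
  have h1 := Ideal.one_le_height_span_singleton_of_mem_nonZeroDivisors
    (mem_nonZeroDivisors_of_ne_zero hf.1.ne_zero)
  have hmin : ∀ P : Ideal (PS ι), P.IsPrime → Ideal.span {f, pderiv ℂ i0 f} ≤ P → P ≤ Q →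
      Q ≤ P := by
    intro P _ h2 h3
    by_contra h4
    have h5 : Ideal.span {f} < P := lt_of_le_of_ne
      ((Ideal.span_mono (by simp)).trans h2) fun e =>
        hs (Ideal.mem_span_singleton.1 (e ▸ h2 (Ideal.subset_span (by simp))))
    have h6 := Ideal.height_add_one_le_of_lt_of_isPrime h5
    have h7 := Ideal.height_add_one_le_of_lt_of_isPrime (lt_of_le_of_ne h3 fun e => h4 e.ge)
    refine hn (le_trans ?_ h7)
    calc (3 : ℕ∞) = 1 + 1 + 1 := by norm_num
      _ ≤ _ := by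
        gcongr
        exact le_trans (by gcongr) h6
  choose y hy n hyn using fun i => SING.loc hmin (hd i)
  obtain ⟨h, a, e⟩ := hart nag ι f (pderiv ℂ i0 f) (∏ i, y i) (∑ i, n i) hf hs fun i => by
    have h2 : pderiv ℂ i f ^ n i * y i ∣ pderiv ℂ i f ^ (∑ i, n i) * ∏ i, y i :=
      mul_dvd_mul (pow_dvd_pow _ (Finset.single_le_sum (fun _ _ => Nat.zero_le _)
        (Finset.mem_univ i))) (Finset.dvd_prod_of_mem _ (Finset.mem_univ i))
    obtain ⟨a, b, e⟩ := Ideal.mem_span_pair.1 (Ideal.mem_of_dvd _ h2 (hyn i))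
    exact ⟨b, a, by linear_combination -e⟩
  have h2 : ∏ i, y i ∈ Q := by
    rw [show ∏ i, y i = f * a + pderiv ℂ i0 f * h by linear_combination e]
    exact Q.add_mem (Q.mul_mem_right _ hfQ) (Q.mul_mem_right _ (hd i0))
  obtain ⟨i, -, hi⟩ := Ideal.IsPrime.prod_mem_iff.1 h2
  exact hy i hi

end Pool.Agent.MP_51db15_ag.Hy
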