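import Pool.Agent.MP_51db15_ag.Hy.Rows
import Pool.Agent.MP_51db15_ag.Hy.Base

/-! The extension property passes to the slice. -/

namespace Pool.Agent.MP_51db15_ag.Hy

open MvPowerSeries

namespace SLICE

theorem elim_zero {κ : Type} (x : κ →₀ ℕ) :
    x.optionElim 0 = Finsupp.embDomain Function.Embedding.some x := by
  ext a
  cases a with
  | none => simp [Finsupp.embDomain_of_notMem_range]
  | some a => simp

theorem const_E {κ : Type} (g : PS (Option κ)) :
    PowerSeries.constantCoeff (optionEquivLeft κ ℂ g) = killCompl .some g := by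
  ext x
  rw [← PowerSeries.coeff_zero_eq_constantCoeff_apply, coeff_coeff_optionEquivLeft,
    coeff_killCompl, elim_zero]

theorem E_rename {κ : Type} [Fintype κ] (f : PS κ) :
    optionEquivLeft κ ℂ (rename some f) = PowerSeries.C f := by
  ext n x
  rw [coeff_coeff_optionEquivLeft, PowerSeries.coeff_C]
  split_ifs with h
  · rw [h, elim_zero]
    exact coeff_embDomain_rename Function.Embedding.some f x
  · rw [coeff_rename_eq_zero, map_zero]
    rintro ⟨y, hy⟩
    have := congrArg (fun z => z none) hy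
    rw [Finsupp.mapDomain_of_notMem_range _ _ (by simp)] at this
    exact h (by simpa using this.symm)

theorem kill_pderiv {κ : Type} (i : κ) (g : PS (Option κ)) :
    killCompl .some (pderiv ℂ (some i) g) = pderiv ℂ i (killCompl .some g) := by
  ext x
  rw [coeff_killCompl, coeff_pderiv, coeff_pderiv, coeff_killCompl, Finsupp.embDomain_add,
    Finsupp.embDomain_single]
  congr 3
  exact Finsupp.embDomain_apply_self Function.Embedding.some x i

theorem kill_vf {κ : Type} [Fintype κ] (v : Option κ → PS (Option κ)) (g : PS (Option κ)) :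
    killCompl .some (vf v g) = killCompl .some (v none) * killCompl .some (pderiv ℂ none g) +
      vf (fun i => killCompl .some (v (some i))) (killCompl .some g) := by
  rw [vf_apply, vf_apply, Fintype.sum_option, map_add, map_mul, map_sum]
  simp only [map_mul, kill_pderiv]

/-- The derivative along a tangent field depends only on the fraction. -/
theorem dfr_congr {ι L : Type} [Fintype ι] [Field L] [Algebra ℂ L] {f : PS ι}
    {ψ : PS ι →ₐ[ℂ] L} (hk : KerIs f ψ) {v : ι → PS ι} (hv : Log f v) {a b a' b' : PS ι}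
    (hb : ψ b ≠ 0) (hb' : ψ b' ≠ 0) (h1 : ψ a * ψ b' = ψ a' * ψ b) :
    dfr ψ v a b = dfr ψ v a' b' := by
  have h : f ∣ a * b' - a' * b := (hk _).1 (by rw [map_sub, map_mul, map_mul, h1, sub_self])
  have h2 := (hk _).2 (vf_dvd hv h)
  rw [map_sub, vf_mul, vf_mul] at h2
  simp only [map_sub, map_add, map_mul] at h2
  rw [dfr, dfr, div_eq_div_iff (pow_ne_zero 2 hb) (pow_ne_zero 2 hb')]
  linear_combination (ψ b * ψ b') * h2 - (ψ (vf v b) * ψ b' + ψ b * ψ (vf v b')) * h1

section

variable {K : Type} [Field K]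

/-- Power series with constant term in `V`, inside the fraction field. -/
noncomputable def liftV (V : ValuationSubring K) :
    ValuationSubring (FractionRing (PowerSeries K)) where
  toSubring := (V.toSubring.comap PowerSeries.constantCoeff).map (algebraMap _ _)
  mem_or_inv_mem' := by
    have key : ∀ y : FractionRing (PowerSeries K), IsLocalization.IsInteger (PowerSeries K) y →
        y ∈ (V.toSubring.comap PowerSeries.constantCoeff).map
          (algebraMap (PowerSeries K) (FractionRing (PowerSeries K))) ∨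
        y⁻¹ ∈ (V.toSubring.comap PowerSeries.constantCoeff).map
          (algebraMap (PowerSeries K) (FractionRing (PowerSeries K))) := by
      rintro _ ⟨p, rfl⟩
      by_cases h : PowerSeries.constantCoeff p ∈ V
      · exact Or.inl ⟨p, h, rfl⟩
      · have h0 : PowerSeries.constantCoeff p ≠ 0 := fun e => h (e ▸ V.zero_mem)
        refine Or.inr ⟨p⁻¹, ?_, ?_⟩
        · change PowerSeries.constantCoeff p⁻¹ ∈ V
          rw [PowerSeries.constantCoeff_inv]
          exact (V.mem_or_inv_mem _).resolve_left h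
        · refine eq_inv_of_mul_eq_one_left ?_
          rw [← map_mul, PowerSeries.inv_mul_cancel _ h0, map_one]
    intro y
    rcases ValuationRing.isInteger_or_isInteger (PowerSeries K) y with h | h
    · exact key y h
    · have := (key _ h).symm
      rwa [inv_inv] at this

theorem mem_liftV {V : ValuationSubring K} {y : FractionRing (PowerSeries K)} :
    y ∈ liftV V ↔ ∃ p : PowerSeries K, PowerSeries.constantCoeff p ∈ V ∧ algebraMap _ _ p = y :=
  Iff.rfl

variable [Algebra ℂ K] {κ : Type} (φ : PS κ →ₐ[ℂ] K)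

/-- The coefficientwise map. -/
noncomputable def cw : PS (Option κ) →ₐ[ℂ] PowerSeries K :=
  (PowerSeries.mapAlgHom φ).comp (optionEquivLeft κ ℂ).toAlgHom

theorem coeff_cw (g : PS (Option κ)) (n : ℕ) :
    PowerSeries.coeff n (cw φ g) = φ (PowerSeries.coeff n (optionEquivLeft κ ℂ g)) := by
  simp [cw, PowerSeries.mapAlgHom_apply]

theorem const_cw (g : PS (Option κ)) :
    PowerSeries.constantCoeff (cw φ g) = φ (killCompl .some g) := by
  rw [← PowerSeries.coeff_zero_eq_constantCoeff_apply, coeff_cw,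
    PowerSeries.coeff_zero_eq_constantCoeff_apply, const_E]

theorem shift {g : PS (Option κ)} {n : ℕ} {q : PowerSeries K}
    (h : cw φ g = PowerSeries.X ^ n * q) : ∃ g1, cw φ g1 = q := by
  refine ⟨(optionEquivLeft κ ℂ).symm
    (PowerSeries.mk fun i => PowerSeries.coeff (i + n) (optionEquivLeft κ ℂ g)), ?_⟩
  ext i
  rw [coeff_cw, AlgEquiv.apply_symm_apply, PowerSeries.coeff_mk, ← coeff_cw, h,
    PowerSeries.coeff_X_pow_mul]

theorem ker_cw [Fintype κ] {f : PS κ} (hk : KerIs f φ) (g : PS (Option κ)) :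
    cw φ g = 0 ↔ rename some f ∣ g := by
  rw [← map_dvd_iff (optionEquivLeft κ ℂ), E_rename, PowerSeries.ext_iff]
  simp only [coeff_cw, map_zero, hk _]
  constructor
  · intro h
    choose q hq using h
    refine ⟨PowerSeries.mk q, PowerSeries.ext fun n => ?_⟩
    rw [PowerSeries.coeff_C_mul, PowerSeries.coeff_mk, hq]
  · rintro ⟨q, hq⟩ n
    rw [hq, PowerSeries.coeff_C_mul]
    exact dvd_mul_right _ _

/-- The map to the fraction field. -/
noncomputable def cf : PS (Option κ) →ₐ[ℂ] FractionRing (PowerSeries K) :=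
  (IsScalarTower.toAlgHom ℂ (PowerSeries K) _).comp (cw φ)

theorem cf_apply (g : PS (Option κ)) : cf φ g = algebraMap _ _ (cw φ g) := rfl

theorem ker_cf [Fintype κ] {f : PS κ} (hk : KerIs f φ) : KerIs (rename some f) (cf φ) := fun g => by
  rw [cf_apply, ← ker_cw φ hk, map_eq_zero_iff _ (IsFractionRing.injective _ _)]

/-- A fraction in the lifted ring restricts to the slice, with its derivatives. -/
theorem frac [Fintype κ] {f : PS κ} (hk : KerIs f φ) {V : ValuationSubring K}
    {a b : PS (Option κ)} (hb : cf φ b ≠ 0) (hab : cf φ a / cf φ b ∈ liftV V) :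
    ∃ a0 b0 : PS κ, φ b0 ≠ 0 ∧ φ a0 / φ b0 ∈ V ∧ ∀ v : Option κ → PS (Option κ),
      Log (rename some f) v → f ∣ killCompl .some (v none) → ∃ d : PowerSeries K,
        algebraMap _ _ d = dfr (cf φ) v a b ∧
        PowerSeries.constantCoeff d = dfr φ (fun i => killCompl .some (v (some i))) a0 b0 := by
  have inj := IsFractionRing.injective (PowerSeries K) (FractionRing (PowerSeries K))
  obtain ⟨p, hp, e⟩ := mem_liftV.1 hab
  have hb0 : cw φ b ≠ 0 := fun h => hb (by rw [cf_apply, h, map_zero])
  have ha : cw φ a = p * cw φ b := inj (by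
    rw [map_mul, e, ← cf_apply, ← cf_apply, div_mul_cancel₀ _ hb])
  have eb := (PowerSeries.X_pow_order_mul_divXPowOrder (f := cw φ b)).symm
  obtain ⟨b1, hb1⟩ := shift φ eb
  rw [← hb1] at eb
  obtain ⟨a1, ha1⟩ := shift φ (g := a) (n := (cw φ b).order.toNat) (q := p * cw φ b1)
    (by rw [mul_left_comm, ← eb, ha])
  have hc : PowerSeries.constantCoeff (cw φ b1) ≠ 0 := by
    rw [hb1]
    exact PowerSeries.constantCoeff_divXPowOrder_eq_zero_iff.not.2 hb0
  have hu := PowerSeries.mul_inv_cancel _ hc
  have hb1' : cf φ b1 ≠ 0 := by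
    rw [cf_apply, map_ne_zero_iff _ inj]
    exact fun h => hc (by rw [h, map_zero])
  refine ⟨killCompl .some a1, killCompl .some b1, by rwa [← const_cw], ?_, fun v hv h0 => ?_⟩
  · rw [← const_cw, ← const_cw, ha1, map_mul, mul_div_cancel_right₀ _ hc]
    exact hp
  · refine ⟨(cw φ (vf v a1) * cw φ b1 - cw φ a1 * cw φ (vf v b1)) * (cw φ b1)⁻¹ ^ 2, ?_, ?_⟩
    · rw [dfr_congr (ker_cf φ hk) hv hb hb1' (a' := a1)
        (by simp only [cf_apply, ha, ha1, map_mul]; ring),
        dfr, eq_div_iff (pow_ne_zero 2 hb1')]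
      have hu' := congrArg (algebraMap (PowerSeries K) (FractionRing (PowerSeries K))) hu
      simp only [cf_apply, map_mul, map_pow, map_sub, map_one] at hu' ⊢
      rw [mul_assoc, ← mul_pow, mul_comm (algebraMap _ _ (cw φ b1)⁻¹), hu', one_pow, mul_one]
    · simp only [map_mul, map_sub, map_pow, PowerSeries.constantCoeff_inv, const_cw, kill_vf,
        map_add, (hk _).2 h0, zero_mul, zero_add, dfr, div_eq_mul_inv, inv_pow]

end

end SLICE

open SLICE

theorem slice : S_SLICE := by
  intro κ I _ _ f v B _ hv h0 hE K _ _ φ hk V hV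
  obtain ⟨S, hS, c, a, b, a', b', h1, h2⟩ := hE (FractionRing (PowerSeries K)) (cf φ)
    (ker_cf φ hk) (liftV V) fun g => mem_liftV.2 ⟨cw φ g, by rw [const_cw]; exact hV _, rfl⟩
  choose p hp ep using fun s => mem_liftV.1 (h1 s).1
  choose a0 b0 n0 m0 e0 using fun s => frac φ hk (h1 s).2.1 (h1 s).2.2.2.1
  choose a1 b1 n1 m1 e1 using fun s => frac φ hk (h1 s).2.2.1 (h1 s).2.2.2.2
  choose d0 x0 y0 using fun s k => e0 s (v k) (hv k) (h0 k)
  choose d1 x1 y1 using fun s k => e1 s (v k) (hv k) (h0 k)
  refine ⟨S, hS, fun s => PowerSeries.constantCoeff (p s), a0, b0, a1, b1,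
    fun s => ⟨hp s, n0 s, n1 s, m0 s, m1 s⟩, fun k l => ?_⟩
  have h3 : cw φ (B k l) = ∑ s, p s * (d0 s k * d1 s l - d1 s k * d0 s l) := by
    refine IsFractionRing.injective (PowerSeries K) (FractionRing (PowerSeries K)) ?_
    rw [← cf_apply, h2]
    simp only [map_sum, map_mul, map_sub, ep, x0, x1]
  rw [← const_cw, h3]
  simp only [map_sum, map_mul, map_sub, y0, y1]

end Pool.Agent.MP_51db15_ag.Hy
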