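import Pool.Agent.MP_51db15_ag.Hy.Rows
import Pool.Agent.MP_51db15_ag.Hy.Base

/-! Normality of a slice, transport of conicity, and the smooth case. -/

namespace Pool.Agent.MP_51db15_ag.Hy

open MvPowerSeries Matrix

namespace SMALL

theorem closed_of_retract {A B : Type} [CommRing A] [IsDomain A] [CommRing B] [IsDomain B]
    [IsIntegrallyClosed B] (i : A →+* B) (r : B →+* A) (h : ∀ a, r (i a) = a) :
    IsIntegrallyClosed A := by
  have hi : Function.Injective i := Function.LeftInverse.injective h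
  have hj : Function.Injective ((algebraMap B (FractionRing B)).comp i) :=
    (IsFractionRing.injective B (FractionRing B)).comp hi
  let j : FractionRing A →+* FractionRing B := IsFractionRing.lift hj
  have hj' : ∀ a, j (algebraMap A _ a) = algebraMap B _ (i a) := fun a =>
    IsFractionRing.lift_algebraMap hj a
  rw [isIntegrallyClosed_iff (FractionRing A)]
  intro x hx
  obtain ⟨c, hc⟩ := (isIntegrallyClosed_iff (FractionRing B)).mp ‹_›
    (hx.map_of_comp_eq i j (RingHom.ext fun a => (hj' a).symm))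
  obtain ⟨a, b, hb, rfl⟩ := IsFractionRing.div_surjective (A := A) x
  have hb0 : b ≠ 0 := nonZeroDivisors.ne_zero hb
  have hb1 : algebraMap A (FractionRing A) b ≠ 0 :=
    (map_ne_zero_iff _ (IsFractionRing.injective A _)).mpr hb0
  have hb2 : algebraMap B (FractionRing B) (i b) ≠ 0 := (map_ne_zero_iff _ hj).mpr hb0
  rw [map_div₀, hj', hj', eq_div_iff hb2, ← map_mul] at hc
  have h1 := congrArg r (IsFractionRing.injective B _ hc)
  rw [map_mul, h, h] at h1
  exact ⟨r c, by rw [eq_div_iff hb1, ← map_mul, h1]⟩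

theorem isHom_rename {ι ι' : Type} (e : ι' ≃ ι) {a : ι' → ℚ} {d : ℚ} {g : PS ι'}
    (hg : IsHom a d g) : IsHom (fun i => a (e.symm i)) d (renameEquiv ℂ e g) := by
  intro α hα
  have h1 : α = Finsupp.embDomain e.toEmbedding (Finsupp.equivMapDomain e.symm α) := by
    ext i
    have := Finsupp.embDomain_apply_self e.toEmbedding (Finsupp.equivMapDomain e.symm α) (e.symm i)
    simpa using this.symm
  have h2 : coeff α (renameEquiv ℂ e g) = coeff (Finsupp.equivMapDomain e.symm α) g := by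
    rw [← coeff_embDomain_rename e.toEmbedding, ← h1]
    rfl
  rw [h2] at hα
  rw [← hg _ hα, Finsupp.weight_apply, Finsupp.weight_apply, Finsupp.sum_equivMapDomain]

theorem br_XX {ι : Type} [Fintype ι] (Θ : Matrix ι ι (PS ι)) (i j : ι) :
    br Θ (X i) (X j) = Θ i j := by
  classical
  rw [br, Finset.sum_eq_single i]
  · rw [pderiv_X_self, one_mul, vf_X]
  · intro k _ hk
    rw [pderiv_X_of_ne hk.symm, zero_mul]
  · simp

end SMALL

open SMALL

theorem hypsl : S_HYPSL := by
  intro κ _ f hH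
  let i : PS κ →ₐ[ℂ] PS (Option κ) := rename some
  let r : PS (Option κ) →ₐ[ℂ] PS κ := killCompl .some
  have hri : ∀ g, r (i g) = g := fun g => killCompl_rename_app (e := .some) g
  have hp : Prime (i f) := hH.1
  have hd : ∀ g, i f ∣ i g → f ∣ g := fun g hg => by simpa only [hri] using map_dvd r hg
  have hf : Prime f := by
    refine ⟨fun h => hp.ne_zero (by rw [h, map_zero]), fun h => hp.not_isUnit (h.map i),
      fun a b hab => ?_⟩
    have h1 := map_dvd i hab
    rw [map_mul] at h1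
    exact (hp.dvd_or_dvd h1).imp (hd a) (hd b)
  refine ⟨hf, ?_⟩
  have h1 : (Ideal.span {f}).IsPrime := (Ideal.span_singleton_prime hf.ne_zero).mpr hf
  have h2 : (Ideal.span {i f}).IsPrime := (Ideal.span_singleton_prime hp.ne_zero).mpr hp
  have h3 : IsIntegrallyClosed (PS (Option κ) ⧸ Ideal.span {i f}) := hH.2
  refine closed_of_retract (B := PS (Option κ) ⧸ Ideal.span {i f})
    (Ideal.quotientMap _ i.toRingHom ?_) (Ideal.quotientMap _ r.toRingHom ?_) fun a => ?_
  · rw [Ideal.span_singleton_le_iff_mem, Ideal.mem_comap]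
    exact Ideal.mem_span_singleton_self _
  · rw [Ideal.span_singleton_le_iff_mem, Ideal.mem_comap]
    change r (i f) ∈ _
    rw [hri]
    exact Ideal.mem_span_singleton_self _
  · obtain ⟨g, rfl⟩ := Ideal.Quotient.mk_surjective a
    rw [Ideal.quotientMap_mk, Ideal.quotientMap_mk]
    exact congrArg _ (hri g)

theorem contr (rel : S_REL) (relx : S_RELX) : S_CONTR := by
  intro ι ι' _ _ _ _ f f' ψ u hc hp hu ⟨ψ', u', F, Θ, a, w, d, hF, ha, hw, hP, hG, hE⟩
  obtain ⟨e⟩ : Nonempty (ι' ≃ ι) := Fintype.card_eq.mp hc.symm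
  let σ : PS ι' ≃ₐ[ℂ] PS ι := renameEquiv ℂ e
  have hσ : ∀ i, σ.symm (X i) = X (e.symm i) := fun i => rename_X _ i
  have hσ' : ∀ i, σ (X (e.symm i)) = X i := fun i => by rw [← hσ, σ.apply_symm_apply]
  have hU : IsUnit (ψ' u * u') := (u.isUnit.map ψ').mul u'.isUnit
  have h1 : ψ' (ψ f) = ψ' u * u' * F := by rw [hu, map_mul, hF, mul_assoc]
  have hpF : Prime F := by
    have h2 : Prime (ψ' (ψ f)) :=
      (MulEquiv.prime_iff ψ'.toMulEquiv).mpr ((MulEquiv.prime_iff ψ.toMulEquiv).mpr hp)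
    have h3 : Associated F (ψ' (ψ f)) := ⟨hU.unit, by rw [h1, mul_comm, IsUnit.unit_spec]⟩
    exact h3.symm.prime h2
  have hR := (rel ι' ι F Θ σ).1 hP.skew
  have h2 := (rel ι' ι F Θ σ).2 _ _ hc.symm hR hpF hP
  have h3 := (relx ι' ι F Θ σ _ _ hc.symm hR hpF hP).2.2
  refine ⟨(ψ.trans ψ').trans σ, (hU.map σ).unit, σ F, tr σ Θ, fun i => a (e.symm i), w, d, ?_,
    fun i => ha _, hw, h2.2.2.1, ⟨isHom_rename e hG.1, fun i j => ?_⟩, h3 _ _ (fun k => ?_) hE⟩
  · rw [AlgEquiv.trans_apply, AlgEquiv.trans_apply, h1, map_mul, IsUnit.unit_spec]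
  · rw [tr, of_apply, hσ, hσ, br_XX]
    exact isHom_rename e (hG.2 _ _)
  · have hC : ∀ c : ℂ, σ (C c) = C c := fun c => rename_C _ c
    rw [hσ, vf_X, eul, eul, map_mul, hC, hσ', sub_self]
    exact dvd_zero _

theorem small : S_SMALL := by
  intro ι _ _ f Θ hp hP hV hS
  obtain ⟨i, hi⟩ := not_forall.mp hS
  have hf0 := Prime.constantCoeff hp
  have hsub : Subsingleton ι := by
    by_contra hn
    have : Nontrivial ι := not_subsingleton_iff_nontrivial.mp hn
    obtain ⟨γ, hγ, hnd⟩ := hP.nd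
    obtain ⟨c, hc⟩ := hnd i i
    have h1 := congrArg constantCoeff hc
    have h2 : (constantCoeff (σ := ι) (R := ℂ)).mapMatrix Θ = 0 := by
      ext j k
      exact hV j k
    have h3 := congrFun (congrFun ((constantCoeff (σ := ι) (R := ℂ)).map_adjugate Θ) i) i
    rw [h2, adjugate_zero, RingHom.mapMatrix_apply, map_apply, Matrix.zero_apply] at h3
    rw [map_sub, h3, map_mul, map_mul, map_mul, hf0, zero_mul, zero_sub, neg_eq_zero] at h1
    exact mul_ne_zero (isUnit_iff'.mp hγ) (mul_ne_zero hi hi) h1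
  obtain ⟨q, hq⟩ : (X i : PS ι) ∣ f := by
    refine X_dvd_iff.mpr fun m hm => ?_
    have : m = 0 := Finsupp.ext fun j => by rw [Subsingleton.elim j i, hm]; rfl
    rw [this, coeff_zero_eq_constantCoeff_apply, hf0]
  have hqu : IsUnit q := by
    rw [hq, Derivation.leibniz, pderiv_X_self] at hi
    simpa [isUnit_iff'] using hi
  refine ⟨AlgEquiv.refl, hqu.unit, X i, 0, fun _ => 1, 1, 1, ?_, fun _ => one_pos, one_pos,
    ⟨by simp, fun j => ?_, fun j k l => by simp, 1, isUnit_one, fun j k => ?_⟩,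
    ⟨isHom_X (a := fun _ => ((1 : ℕ) : ℚ)) i, fun j k => isHom_zero _⟩, ?_⟩
  · rw [IsUnit.unit_spec, mul_comm, ← hq]
    rfl
  · change X i ∣ vf 0 (X i)
    rw [vf_zero]
    exact dvd_zero _
  · rw [adjugate_subsingleton, Subsingleton.elim j i, Subsingleton.elim k i, pderiv_X_self]
    simp
  · intro κ _ _ φ _ V _ _
    exact ⟨Empty, inferInstance, Empty.elim, Empty.elim, Empty.elim, Empty.elim, Empty.elim,
      fun s => s.elim, fun k l => by simp⟩

end Pool.Agent.MP_51db15_ag.Hy
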