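import Pool.Agent.MP_51db15_ag.Hy.Rows

/-! One blowing up step of the valuation engine. -/

namespace Pool.Agent.MP_51db15_ag.Hy

namespace STEP

open MvPolynomial

variable {B K σ : Type} [CommRing B] [Field K] [Fintype σ]

theorem scale (f : B →+* K) (q : σ → K) (t : K) {H : MvPolynomial σ B} {n : ℕ}
    (h : H.IsHomogeneous n) : eval₂ f (fun j => t * q j) H = t ^ n * eval₂ f q H := by
  rw [eval₂_eq', eval₂_eq', Finset.mul_sum]
  refine Finset.sum_congr rfl fun d hd => ?_
  have e : ∑ i, d i = n := by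
    by_contra hne
    exact mem_support_iff.1 hd (h.coeff_eq_zero (by rwa [Finsupp.degree_eq_sum]))
  simp only [mul_pow, Finset.prod_mul_distrib, Finset.prod_pow_eq_pow_sum, e]
  ring

theorem comp (f : B →+* K) (q : σ → K) (T : Set K) (hT : T.Infinite) (H : MvPolynomial σ B)
    (h : ∀ t ∈ T, eval₂ f (fun j => t * q j) H = 0) (n : ℕ) :
    eval₂ f q (homogeneousComponent n H) = 0 := by
  by_cases hn : H.totalDegree < n
  · rw [homogeneousComponent_eq_zero _ _ hn, eval₂_zero]
  have hQ : (∑ i ∈ Finset.range (H.totalDegree + 1),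
      Polynomial.monomial i (eval₂ f q (homogeneousComponent i H))) = 0 := by
    refine Polynomial.eq_zero_of_infinite_isRoot _ (hT.mono fun t ht => ?_)
    have := h t ht
    rw [← sum_homogeneousComponent H, eval₂_sum] at this
    rw [Set.mem_ofPred_eq, Polynomial.IsRoot, Polynomial.eval_finsetSum, ← this]
    refine Finset.sum_congr rfl fun i _ => ?_
    rw [Polynomial.eval_monomial, scale f q t (homogeneousComponent_isHomogeneous i H), mul_comm]
  have := congrArg (Polynomial.coeff · n) hQ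
  simpa [Polynomial.coeff_monomial, Nat.lt_succ_iff, not_lt.1 hn] using this

omit [Fintype σ] in
theorem hom (i : σ) (H : MvPolynomial σ B) : ∃ (D : ℕ) (G : MvPolynomial σ B),
    ∀ (L : Type) [CommRing L] (f : B →+* L) (q : σ → L) (u : L), q i = 1 →
      eval₂ f (fun j => u * q j) G = u ^ D * eval₂ f q H := by
  induction H using MvPolynomial.induction_on with
  | C c => exact ⟨0, C c, fun L _ f q u _ => by simp⟩
  | add H H' ih ih' =>
    obtain ⟨D, G, h⟩ := ih
    obtain ⟨D', G', h'⟩ := ih'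
    refine ⟨D + D', G * X i ^ D' + G' * X i ^ D, fun L _ f q u hq => ?_⟩
    simp only [eval₂_add, eval₂_mul, eval₂_pow, eval₂_X, h L f q u hq, h' L f q u hq, hq]
    ring
  | mul_X H j ih =>
    obtain ⟨D, G, h⟩ := ih
    refine ⟨D + 1, G * X j, fun L _ f q u hq => ?_⟩
    simp only [eval₂_mul, eval₂_X, h L f q u hq]
    ring

omit [Fintype σ] in
theorem map_hc {k : Type} [CommRing k] (π : B →+* k) (n : ℕ) (H : MvPolynomial σ B) :
    map π (homogeneousComponent n H) = homogeneousComponent n (map π H) := by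
  ext d
  simp only [coeff_map, coeff_homogeneousComponent]
  split_ifs <;> simp

/-- Nakayama: some form of degree `d` is missing. -/
theorem naka {k : Type} [CommRing k] [Algebra B K] (π : B →+* k)
    (hj : RingHom.ker π ≤ Ideal.jacobson ⊥) (g : σ → K) (i : σ) (hi : g i ≠ 0) (d : ℕ)
    (h : ∀ H : MvPolynomial σ B, H.IsHomogeneous d → ∃ H', map π H' = map π H ∧
      aeval g (homogeneousComponent d H') = 0) : False := by
  let N : Submodule B K := (homogeneousSubmodule σ B d).map (aeval g).toLinearMap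
  have hN : N = ⊥ := by
    refine Submodule.eq_bot_of_le_smul_of_le_jacobson_bot _ N
      ((homogeneousSubmodule_fg σ B d).map _) ?_ hj
    rintro _ ⟨H, hH, rfl⟩
    obtain ⟨H', h1, h2⟩ := h H hH
    have e : (aeval g).toLinearMap H = aeval g (homogeneousComponent d (H - H')) := by
      rw [map_sub, map_sub, h2, sub_zero, homogeneousComponent_eq_self hH]; rfl
    rw [e, homogeneousComponent_apply, map_sum]
    refine Submodule.sum_mem _ fun a ha => ?_
    rw [← mul_one (coeff a (H - H')), ← smul_eq_mul, ← smul_monomial, map_smul]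
    refine Submodule.smul_mem_smul ?_
      ⟨_, isHomogeneous_monomial 1 (Finset.mem_filter.1 ha).2, rfl⟩
    rw [RingHom.mem_ker, ← coeff_map, map_sub, h1, sub_self, coeff_zero]
  have : g i ^ d ∈ N := ⟨X i ^ d, isHomogeneous_X_pow i d, by simp⟩
  rw [hN, Submodule.mem_bot] at this
  exact pow_ne_zero d hi this

theorem resid [Algebra ℂ K] (B : Subalgebra ℂ K) (n : Set K)
    (hn : ∀ y, y ∈ n ↔ y ∈ B ∧ (y = 0 ∨ y⁻¹ ∉ B)) (ha : ∀ y ∈ n, ∀ z ∈ n, y + z ∈ n) :
    ∃ (k : Type) (_ : Field k) (_ : CharZero k) (π : B →+* k), Function.Surjective π ∧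
      (∀ y, π y = 0 ↔ (y : K) ∈ n) ∧ RingHom.ker π ≤ Ideal.jacobson ⊥ := by
  let m : Ideal B :=
    { carrier := {y | (y : K) ∈ n}
      add_mem' := fun h h' => ha _ h _ h'
      zero_mem' := (hn _).2 ⟨B.zero_mem, .inl rfl⟩
      smul_mem' := fun c y hy => by
        refine (hn _).2 ⟨(c • y).2, ?_⟩
        by_contra hc
        push Not at hc
        have h0 : (c : K) * y ≠ 0 := hc.1
        have h1 : ((c : K) * y)⁻¹ ∈ B := hc.2
        refine ((hn _).1 hy).2.elim (right_ne_zero_of_mul h0) fun h2 => h2 ?_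
        have := B.mul_mem c.2 h1
        rwa [mul_inv, mul_inv_cancel_left₀ (left_ne_zero_of_mul h0)] at this }
  have h1 : (1 : B) ∉ m := fun h => by simpa [B.one_mem] using ((hn _).1 h).2
  have hu : ∀ y : B, y ∉ m → IsUnit y := fun y hy => by
    have : ¬ ((y : K) = 0 ∨ (y : K)⁻¹ ∉ B) := fun h => hy ((hn _).2 ⟨y.2, h⟩)
    push Not at this
    exact IsUnit.of_mul_eq_one ⟨_, this.2⟩ (Subtype.ext (mul_inv_cancel₀ this.1))
  have hm : m.IsMaximal := Ideal.isMaximal_iff.2 ⟨h1, fun J x _ hx hJ =>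
    (Ideal.eq_top_iff_one J).1 (J.eq_top_of_isUnit_mem hJ (hu x hx))⟩
  let _ := Ideal.Quotient.field m
  refine ⟨B ⧸ m, inferInstance, charZero_of_injective_algebraMap (algebraMap ℂ (B ⧸ m)).injective,
    Ideal.Quotient.mk m, Ideal.Quotient.mk_surjective, fun y => Ideal.Quotient.eq_zero_iff_mem, ?_⟩
  rw [Ideal.mk_ker]
  refine fun x hx => Ideal.mem_jacobson_bot.2 fun y => hu _ fun h => h1 ?_
  simpa using m.sub_mem h (m.mul_mem_right y hx)

end STEP

open MvPolynomial in
theorem step (cone : S_CONE) : S_STEP := by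
  intro K _ _ B n Y r g A hn ha hY _ ⟨i0, hi0⟩ hA hg
  obtain ⟨k, _, _, π, hs, hk, hj⟩ := STEP.resid B n hn ha
  have hYB : ∀ c : B, ∃ c' : B, (c' : K) = Y c ∧ π c' = 0 := fun c =>
    ⟨⟨Y c, ((hn _).1 (hY c c.2)).1⟩, rfl, (hk _).2 (hY c c.2)⟩
  obtain ⟨a, hae⟩ : ∃ a : Fin r → Fin r → B, ∀ i j, (a i j : K) = A i j :=
    ⟨fun i j => ⟨A i j, hA i j⟩, fun _ _ => rfl⟩
  have hf : ∀ c : B, algebraMap B K c = c := fun _ => rfl
  let J : Ideal (MvPolynomial (Fin r) B) :=
    ⨅ t : ℂ, RingHom.ker (eval₂Hom (algebraMap B K) fun j => algebraMap ℂ K t * g j)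
  have hJ : ∀ H, H ∈ J ↔ ∀ t : ℂ, eval₂ (algebraMap B K) (fun j => algebraMap ℂ K t * g j) H = 0 :=
    fun H => Ideal.mem_iInf
  have hJc : ∀ H ∈ J, ∀ d, eval₂ (algebraMap B K) g (homogeneousComponent d H) = 0 := fun H h d =>
    STEP.comp _ g _ (Set.infinite_range_of_injective (algebraMap ℂ K).injective) H
      (by rintro _ ⟨t, rfl⟩; exact (hJ H).1 h t) d
  have hI : ∀ G, G ∈ J.map (map π) ↔ ∃ H ∈ J, map π H = G := fun G =>
    Ideal.mem_map_iff_of_surjective _ (map_surjective π hs)
  obtain ⟨p, l, hp, hpI, hl⟩ := cone k r (J.map (map π)) (Matrix.of fun i j => π (a i j))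
    (fun G hG d => by
      obtain ⟨H, hH, rfl⟩ := (hI G).1 hG
      refine (hI _).2 ⟨_, (hJ _).2 fun t => ?_, STEP.map_hc π d H⟩
      rw [STEP.scale _ _ _ (homogeneousComponent_isHomogeneous d H), hJc H hH, mul_zero])
    (fun G hG => by
      obtain ⟨H, hH, rfl⟩ := (hI G).1 hG
      have key : ∀ H : MvPolynomial (Fin r) B, ∃ H' : MvPolynomial (Fin r) B,
          (∀ t : ℂ, eval₂ (algebraMap B K) (fun j => algebraMap ℂ K t * g j) H' =
            Y (eval₂ (algebraMap B K) (fun j => algebraMap ℂ K t * g j) H)) ∧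
          map π H' = ∑ i, (∑ j, C (π (a i j)) * X j) * pderiv i (map π H) := fun H => by
        induction H using MvPolynomial.induction_on with
        | C c =>
          obtain ⟨c', h1, h2⟩ := hYB c
          exact ⟨C c', fun t => by rw [eval₂_C, eval₂_C, hf, hf, h1], by simp [h2]⟩
        | add H H' ih ih' =>
          obtain ⟨G, h1, h2⟩ := ih
          obtain ⟨G', h1', h2'⟩ := ih'
          exact ⟨G + G', fun t => by rw [eval₂_add, eval₂_add, map_add, h1, h1'], by
            simp only [map_add, h2, h2', mul_add, Finset.sum_add_distrib]⟩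
        | mul_X H j ih =>
          obtain ⟨G, h1, h2⟩ := ih
          refine ⟨G * X j + H * ∑ l, C (a j l) * X l, fun t => ?_, ?_⟩
          · simp only [eval₂_add, eval₂_mul, eval₂_sum, eval₂_X, eval₂_C, h1, hf, hae,
              Derivation.leibniz, Derivation.map_algebraMap, smul_eq_mul, hg, Finset.mul_sum]
            rw [mul_zero, add_zero, Finset.mul_sum, add_comm, mul_comm (Y _)]
            exact congrArg (· + _) (Finset.sum_congr rfl fun l _ => by ring)
          · simp only [map_add, map_mul, map_sum, map_C, map_X, h2, pderiv_mul, mul_add,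
              Finset.sum_add_distrib, pderiv_X, Pi.single_apply, mul_ite, mul_one, mul_zero,
              Finset.sum_ite_eq, Finset.mem_univ, if_true]
            rw [Finset.sum_mul, mul_comm (map π H)]
            exact congrArg (· + _) (Finset.sum_congr rfl fun l _ => by ring)
      obtain ⟨H', h1, h2⟩ := key H
      exact (hI _).2 ⟨H', (hJ _).2 fun t => by rw [h1, (hJ H).1 hH, map_zero], h2⟩)
    (fun d => by
      by_contra hc
      push Not at hc
      refine STEP.naka π hj g i0 hi0 d fun H hH => ?_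
      obtain ⟨H', h1, h2⟩ := (hI _).1 (hc _ (hH.map π))
      exact ⟨H', h2, hJc H' h1 d⟩)
  obtain ⟨i, hi⟩ := Function.ne_iff.1 hp
  replace hi : p i ≠ 0 := hi
  let φ : B →+* AlgebraicClosure k := (algebraMap k _).comp π
  have hpJ : ∀ H ∈ J, eval₂ φ p H = 0 := fun H hH => by
    have := hpI _ ((hI _).2 ⟨H, hH, rfl⟩)
    rwa [aeval_def, eval₂_map] at this
  have hgi : g i ≠ 0 := fun h => hi (by
    simpa using hpJ (X i) ((hJ _).2 fun t => by rw [eval₂_X, h, mul_zero]))
  let e := eval₂Hom (algebraMap B K) fun j => g j / g i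
  let ψ := eval₂Hom φ fun j => p j / p i
  have hker : ∀ H, e H = 0 → ψ H = 0 := fun H hH => by
    obtain ⟨D, G, hG⟩ := STEP.hom i H
    have h1 : G ∈ J := (hJ G).2 fun t => by
      have := hG K (algebraMap B K) (fun j => g j / g i) (algebraMap ℂ K t * g i) (div_self hgi)
      simp only [mul_assoc, mul_div_cancel₀ _ hgi] at this
      rw [this]
      exact mul_eq_zero_of_right _ hH
    have h2 := hG _ φ (fun j => p j / p i) (p i) (div_self hi)
    simp only [mul_div_cancel₀ _ hi] at h2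
    exact (mul_eq_zero.1 (h2.symm.trans (hpJ G h1))).resolve_left (pow_ne_zero _ hi)
  have hsur : ∀ y ∈ B ⊔ Algebra.adjoin ℂ (Set.range fun j => g j / g i), ∃ H, e H = y := by
    have : B ⊔ Algebra.adjoin ℂ (Set.range fun j => g j / g i) ≤
        (aevalTower B.val fun j => g j / g i).range := by
      refine sup_le (fun y hy => ⟨C ⟨y, hy⟩, by simp⟩) (Algebra.adjoin_le ?_)
      rintro _ ⟨j, rfl⟩
      exact ⟨X j, by simp⟩
    exact fun y hy => this hy
  have key : ∀ H, ∃ H', e H' = Y (e H) ∧ ψ H' = 0 := fun H => by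
    induction H using MvPolynomial.induction_on with
    | C c =>
      obtain ⟨c', h1, h2⟩ := hYB c
      exact ⟨C c', by simp [e, hf, h1], by simp [ψ, φ, h2]⟩
    | add H H' ih ih' =>
      obtain ⟨G, h1, h2⟩ := ih
      obtain ⟨G', h1', h2'⟩ := ih'
      exact ⟨G + G', by simp only [map_add, h1, h1'], by rw [map_add, h2, h2', add_zero]⟩
    | mul_X H j ih =>
      obtain ⟨G, h1, h2⟩ := ih
      have s1 : ∀ j, e (∑ l, C (a j l) * X l) = Y (g j) / g i := fun j => by
        simp only [e, map_sum, map_mul, eval₂Hom_C, eval₂Hom_X', hf, hae, hg, Finset.sum_div,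
          mul_div_assoc]
      have s2 : ∀ j, ψ (∑ l, C (a j l) * X l) = l * p j / p i := fun j => by
        rw [← hl j]
        simp only [ψ, φ, map_sum, map_mul, eval₂Hom_C, eval₂Hom_X', Finset.sum_div, mul_div_assoc,
          RingHom.comp_apply, Matrix.of_apply]
      have x1 : e (X j) = g j / g i := eval₂Hom_X' _ _ _
      have x2 : ψ (X j) = p j / p i := eval₂Hom_X' _ _ _
      refine ⟨G * X j + H * (∑ l, C (a j l) * X l - X j * ∑ l, C (a i l) * X l), ?_, ?_⟩
      · rw [map_add, map_mul, map_mul, map_sub, map_mul, s1, s1, h1, map_mul, x1,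
          Derivation.leibniz, Derivation.leibniz_div]
        simp only [smul_eq_mul]
        field_simp
        ring
      · rw [map_add, map_mul, map_mul, map_sub, map_mul, s2, s2, h2, x2]
        field_simp
        ring
  refine ⟨i, hgi, _,
    { carrier := {y | ∃ H, e H = y ∧ ψ H = 0}
      add_mem' := ?_
      zero_mem' := ⟨0, map_zero _, map_zero _⟩
      smul_mem' := ?_ }, rfl, ?_, fun y => ⟨fun hy => ?_, fun z hz => ?_⟩⟩
  · rintro y z ⟨H, h1, h2⟩ ⟨H', h1', h2'⟩
    exact ⟨H + H', by rw [map_add, h1, h1']; rfl, by rw [map_add, h2, h2', add_zero]⟩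
  · rintro c y ⟨H, h1, h2⟩
    obtain ⟨G, hG⟩ := hsur c c.2
    exact ⟨G * H, by rw [map_mul, h1, hG]; rfl, by rw [map_mul, h2, mul_zero]⟩
  · rw [Ideal.ne_top_iff_one]
    rintro ⟨H, h1, h2⟩
    have := hker (H - 1) (by rw [map_sub, h1, map_one]; exact sub_self _)
    rw [map_sub, h2, map_one, zero_sub, neg_eq_zero] at this
    exact one_ne_zero this
  · exact ⟨C ⟨y, ((hn _).1 hy).1⟩, by simp [e, hf], by simp [ψ, φ, (hk ⟨y, _⟩).2 hy]⟩
  · obtain ⟨H, hH⟩ := hsur y y.2
    obtain ⟨H', h1, h2⟩ := key H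
    exact ⟨H', by rw [h1, hH, hz], h2⟩

end Pool.Agent.MP_51db15_ag.Hy
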