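import Pool.Agent.MP_51db15_ag.Hy.Rows
import Pool.Agent.MP_51db15_ag.Hy.Base

/-! Straightening of a vector field with a time function. -/

namespace Pool.Agent.MP_51db15_ag.Hy

open MvPowerSeries Matrix

namespace STR

section Ode

variable {L : Type} [CommRing L] [Algebra ℚ L]

omit [Algebra ℚ L] in
theorem coeff_d (P : PowerSeries L) (n : ℕ) :
    PowerSeries.coeff n (pderiv L () P) = PowerSeries.coeff (n + 1) P * ((n : L) + 1) := by
  have h := coeff_pderiv (i := ()) (R := L) P (Finsupp.single () n)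
  rw [← Finsupp.single_add, Finsupp.single_eq_same] at h
  exact h

theorem inv_mul_succ (n : ℕ) : algebraMap ℚ L (1 / ((n : ℚ) + 1)) * ((n : L) + 1) = 1 := by
  have h : ((n : L) + 1) = algebraMap ℚ L ((n : ℚ) + 1) := by simp
  have h1 : ((n : ℚ) + 1) ≠ 0 := by positivity
  rw [h, ← map_mul, one_div, inv_mul_cancel₀ h1, map_one]

theorem uniq {H G : PowerSeries L} (h : pderiv L () G = H * G)
    (h0 : PowerSeries.constantCoeff G = 0) : G = 0 := by
  ext n
  induction n using Nat.strong_induction_on with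
  | _ n ih =>
    cases n with
    | zero => simpa using h0
    | succ n =>
      have h1 : PowerSeries.coeff n (pderiv L () G) = PowerSeries.coeff n (H * G) := by rw [h]
      rw [coeff_d, PowerSeries.coeff_mul, Finset.sum_eq_zero] at h1
      · have h2 := inv_mul_succ (L := L) n
        rw [map_zero]
        linear_combination (algebraMap ℚ L (1 / ((n : ℚ) + 1))) * h1 -
          PowerSeries.coeff (n + 1) G * h2
      · intro p hp
        have h3 : p.2 < n + 1 := by
          have := Finset.HasAntidiagonal.mem_antidiagonal.1 hp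
          omega
        rw [ih _ h3, map_zero, mul_zero]

/-- coefficients of the solution of the linear equation -/
noncomputable def sol (h : ℕ → L) : ℕ → L
  | 0 => 1
  | n + 1 => algebraMap ℚ L (1 / ((n : ℚ) + 1)) * ∑ i : Fin (n + 1), sol h i * h (n - i)
decreasing_by exact i.2

theorem exists_sol (H : PowerSeries L) : ∃ U : PowerSeries L,
    PowerSeries.constantCoeff U = 1 ∧ pderiv L () U = H * U := by
  refine ⟨PowerSeries.mk (sol fun n => PowerSeries.coeff n H), ?_, ?_⟩
  · rw [← PowerSeries.coeff_zero_eq_constantCoeff_apply, PowerSeries.coeff_mk, sol]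
  · apply PowerSeries.ext
    intro n
    rw [coeff_d, PowerSeries.coeff_mk, mul_comm H, PowerSeries.coeff_mul,
      Finset.Nat.sum_antidiagonal_eq_sum_range_succ_mk, sol, Finset.sum_range]
    simp only [PowerSeries.coeff_mk]
    have h2 := inv_mul_succ (L := L) n
    linear_combination (∑ i : Fin (n + 1), sol (fun n => PowerSeries.coeff n H) i *
      PowerSeries.coeff (n - i) H) * h2

omit [Algebra ℚ L] in
theorem d_C (c : L) : pderiv L () (PowerSeries.C c : PowerSeries L) = 0 := pderiv_C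

theorem eq_mul_C {H G U : PowerSeries L} (h : pderiv L () G = H * G)
    (h0 : PowerSeries.constantCoeff U = 1) (hU : pderiv L () U = H * U) :
    G = U * PowerSeries.C (PowerSeries.constantCoeff G) := by
  rw [← sub_eq_zero]
  refine uniq (H := H) ?_ ?_
  · have h1 : pderiv L () (G - U * PowerSeries.C (PowerSeries.constantCoeff G)) =
        pderiv L () G - (U * pderiv L () (PowerSeries.C (PowerSeries.constantCoeff G)) +
          PowerSeries.C (PowerSeries.constantCoeff G) * pderiv L () U) := by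
      rw [map_sub]
      congr 1
      exact Derivation.leibniz _ _ _
    rw [h1, d_C, h, hU]
    ring
  · simp [h0]

theorem eq_C {G : PowerSeries L} (h : pderiv L () G = 0) :
    G = PowerSeries.C (PowerSeries.constantCoeff G) := by
  have h1 := eq_mul_C (H := 0) (U := 1) (G := G) (by rw [h, zero_mul]) (map_one _)
    (by rw [zero_mul]; exact pderiv_one)
  rwa [one_mul] at h1

end Ode

section Opt

variable {κ : Type}

theorem E_pderiv (g : PS (Option κ)) :
    optionEquivLeft κ ℂ (pderiv ℂ none g) = pderiv (PS κ) () (optionEquivLeft κ ℂ g) := by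
  apply PowerSeries.ext
  intro n
  rw [coeff_d]
  ext x
  have h1 : ((n : PS κ) + 1) = C ((n : ℂ) + 1) := by simp
  have h2 : Finsupp.optionElim n x + Finsupp.single none 1 = Finsupp.optionElim (n + 1) x := by
    ext a
    cases a <;> simp
  rw [h1, coeff_mul_C, coeff_coeff_optionEquivLeft, coeff_coeff_optionEquivLeft, coeff_pderiv, h2,
    Finsupp.optionElim_apply_none]

theorem E_rename [Fintype κ] (p3 : S_P3) (g : PS κ) :
    optionEquivLeft κ ℂ (rename some g) = PowerSeries.C g := by
  have h := (p3.1 ℂ κ (Option κ) (rename some)).2.2.2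
    (((optionEquivLeft κ ℂ).symm : PowerSeries (PS κ) →ₐ[ℂ] PS (Option κ)).comp
      (IsScalarTower.toAlgHom ℂ (PS κ) (PowerSeries (PS κ)))) (fun i => by
        rw [rename_X]
        apply (optionEquivLeft κ ℂ).injective
        simp)
  rw [h]
  simp

theorem coeff_some (g : PS (Option κ)) (k : κ) :
    coeff (Finsupp.single (some k) 1) g =
      coeff (Finsupp.single k 1) (PowerSeries.constantCoeff (optionEquivLeft κ ℂ g)) := by
  classical
  have h2 : Finsupp.optionElim 0 (Finsupp.single k 1) = Finsupp.single (some k) 1 := by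
    ext a
    cases a <;> simp [Finsupp.single_apply]
  rw [← PowerSeries.coeff_zero_eq_constantCoeff_apply, coeff_coeff_optionEquivLeft, h2]

end Opt

theorem coeff_single_X {ι : Type} [DecidableEq ι] (i j : ι) :
    coeff (Finsupp.single j 1) (X i : PS ι) = if i = j then 1 else 0 := by
  rw [coeff_X]
  simp [Finsupp.single_left_inj, eq_comm]

/-- a matrix with unit rows outside one row, or with a unit block -/
theorem det_ne_zero {ι : Type} [Fintype ι] [DecidableEq ι] {M : Matrix ι ι ℂ}
    (h : ∀ x, M *ᵥ x = 0 → x = 0) : M.det ≠ 0 := fun h0 => by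
  obtain ⟨x, hx, h1⟩ := Matrix.exists_mulVec_eq_zero_iff.2 h0
  exact hx (h x h1)

theorem exists_coord (p2 : S_P2) {ι : Type} [Fintype ι] [DecidableEq ι] {t : PS ι} {i₀ : ι}
    (h0 : constantCoeff t = 0) (h1 : coeff (Finsupp.single i₀ 1) t ≠ 0) :
    ∃ φ : PS ι ≃ₐ[ℂ] PS ι, φ (X i₀) = t ∧ ∀ j, j ≠ i₀ → φ (X j) = X j := by
  obtain ⟨φ, hφ⟩ := p2 ℂ ι (fun i => if i = i₀ then t else X i)
    (fun i => by split_ifs <;> simp [h0]) (det_ne_zero fun x hx => by
      have h2 : ∀ j, j ≠ i₀ → x j = 0 := fun j hj => by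
        have h3 := congrFun hx j
        simpa [Matrix.mulVec, dotProduct, lin, hj, coeff_single_X] using h3
      have h4 := congrFun hx i₀
      rw [Matrix.mulVec, dotProduct, Finset.sum_eq_single i₀
        (fun j _ hj => by rw [h2 j hj, mul_zero]) (by simp)] at h4
      funext j
      by_cases hj : j = i₀
      · subst hj
        simpa [lin, h1] using h4
      · exact h2 j hj)
  exact ⟨φ, by simpa using hφ i₀, fun j hj => by simpa [hj] using hφ j⟩

theorem exists_equiv (p2 : S_P2) (p3 : S_P3) {κ : Type} [Fintype κ] [DecidableEq κ]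
    (θ : PS (Option κ) →ₐ[ℂ] PS (Option κ)) (h0 : θ (X none) = X none)
    (h1 : ∀ j, PowerSeries.constantCoeff (optionEquivLeft κ ℂ (θ (X (some j)))) = X j) :
    ∃ ψ : PS (Option κ) ≃ₐ[ℂ] PS (Option κ), ∀ g, ψ g = θ g := by
  obtain ⟨ψ, hψ⟩ := p2 ℂ (Option κ) (fun a => θ (X a))
    (fun a => by rw [(p3.1 ℂ _ _ θ).1, constantCoeff_X]) (det_ne_zero fun x hx => by
      have h2 : x none = 0 := by
        have h3 := congrFun hx none
        simpa [Matrix.mulVec, dotProduct, lin, h0, coeff_single_X] using h3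
      funext a
      cases a with
      | none => exact h2
      | some j =>
        have h3 := congrFun hx (some j)
        simpa [Matrix.mulVec, dotProduct, lin, Fintype.sum_option, h2, coeff_some, h1,
          coeff_single_X] using h3)
  have h := (p3.1 ℂ _ _ θ).2.2.2 (ψ : PS (Option κ) →ₐ[ℂ] PS (Option κ)) fun a => (hψ a).symm
  exact ⟨ψ, fun g => by rw [h]; rfl⟩

end STR

open STR in
theorem str (p2 : S_P2) (p3 : S_P3) (th : S_TH) : S_STR := by
  intro ι _ _ v t h0 h1
  obtain ⟨i₀, hi⟩ : ∃ i₀, coeff (Finsupp.single i₀ 1) t ≠ 0 := by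
    by_contra hc
    push Not at hc
    have h2 : constantCoeff (vf v t) = 0 := by
      rw [vf_apply, map_sum]
      refine Finset.sum_eq_zero fun i _ => ?_
      rw [map_mul, ← coeff_zero_eq_constantCoeff_apply (pderiv ℂ i t), coeff_pderiv, zero_add,
        hc i, zero_mul, mul_zero]
    rw [h1, map_one] at h2
    exact one_ne_zero h2
  obtain ⟨φ, hφ0, hφ⟩ := exists_coord p2 h0 hi
  let κ : Type := {j // j ≠ i₀}
  let em : κ ↪ ι := Function.Embedding.subtype _
  let ρ : PS ι →ₐ[ℂ] PS κ := (killCompl em).comp (φ.symm : PS ι →ₐ[ℂ] PS ι)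
  have hρt : ρ t = 0 := by
    have h2 : φ.symm t = X i₀ := by rw [← hφ0, AlgEquiv.symm_apply_apply]
    change killCompl em (φ.symm t) = 0
    rw [h2]
    exact killCompl_X_eq_zero fun ⟨j, hj⟩ => j.2 hj
  have hρX : ∀ j : κ, ρ (X j.1) = X j := fun j => by
    have h2 : φ.symm (X j.1) = X j.1 := by
      rw [AlgEquiv.symm_apply_eq, hφ j.1 j.2]
    change killCompl em (φ.symm (X j.1)) = X j
    rw [h2]
    exact killCompl_X (e := em) j
  obtain ⟨τ, hτ0, hτ⟩ := th (PS ι) (PS κ) Unit (ρ : PS ι →+* PS κ)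
    (fun _ => (vf v : PS ι →ₗ[ℂ] PS ι).toAddMonoidHom)
    (fun _ a b => by
      change vf v (a * b) = a * vf v b + b * vf v a
      rw [vf_mul, mul_comm b]) (fun _ _ _ => rfl)
  have hτ0' : ∀ a, PowerSeries.constantCoeff (τ a : PowerSeries (PS κ)) = ρ a := hτ0
  have hτ' : ∀ a, τ (vf v a) = pderiv (PS κ) () (τ a) := hτ ()
  have hker : ∀ a, vf v a = 0 → τ a = PowerSeries.C (ρ a) := fun a ha => by
    rw [← hτ0']
    exact eq_C (by rw [← hτ', ha, map_zero])
  let τa : PS ι →ₐ[ℂ] PowerSeries (PS κ) :=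
    { τ with
      commutes' := fun c => by
        have h2 := hker (C c) (vf_C v c)
        have h3 : ρ (C c) = C c := ρ.commutes c
        rw [h3] at h2
        rw [PowerSeries.algebraMap_apply]
        exact h2 }
  let E := optionEquivLeft κ ℂ
  let ψ₀ : PS ι →ₐ[ℂ] PS (Option κ) := (E.symm : PowerSeries (PS κ) →ₐ[ℂ] PS (Option κ)).comp τa
  have hE : ∀ g, E (ψ₀ g) = τ g := fun g => E.apply_symm_apply _
  have hψt : ψ₀ t = X none := by
    apply E.injective
    rw [hE, optionEquivLeft_X_none, ← sub_eq_zero]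
    refine uniq (H := 0) ?_ ?_
    · rw [zero_mul, map_sub, ← hτ', h1, map_one, sub_eq_zero]
      exact (pderiv_X_self (i := ())).symm
    · rw [map_sub, hτ0', hρt, PowerSeries.constantCoeff_X, sub_zero]
  let e : Option κ ≃ ι := Equiv.optionSubtypeNe i₀
  obtain ⟨ψ₁, hψ₁⟩ := exists_equiv p2 p3
    (ψ₀.comp ((φ : PS ι →ₐ[ℂ] PS ι).comp (renameEquiv ℂ e : PS (Option κ) →ₐ[ℂ] PS ι)))
    (by
      change ψ₀ (φ (rename e (X none))) = X none
      rw [rename_X]
      change ψ₀ (φ (X i₀)) = X none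
      rw [hφ0, hψt])
    (fun j => by
      change PowerSeries.constantCoeff (E (ψ₀ (φ (rename e (X (some j)))))) = X j
      rw [rename_X]
      change PowerSeries.constantCoeff (E (ψ₀ (φ (X j.1)))) = X j
      rw [hφ j.1 j.2, hE, hτ0', hρX])
  let ψ : PS ι ≃ₐ[ℂ] PS (Option κ) := φ.symm.trans ((renameEquiv ℂ e).symm.trans ψ₁)
  have hψ : ∀ g, ψ g = ψ₀ g := fun g => by
    change ψ₁ ((renameEquiv ℂ e).symm (φ.symm g)) = ψ₀ g
    rw [hψ₁]
    change ψ₀ (φ (renameEquiv ℂ e ((renameEquiv ℂ e).symm (φ.symm g)))) = ψ₀ g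
    rw [AlgEquiv.apply_symm_apply, AlgEquiv.apply_symm_apply]
  refine ⟨κ, inferInstance, inferInstance, ψ, ?_, by rw [hψ, hψt], fun g => ?_, fun g hg => ?_,
    fun f hf => ?_⟩
  · rw [← Fintype.card_option]
    exact Fintype.card_congr e
  · apply E.injective
    rw [E_pderiv, hψ, hψ]
    change E (ψ₀ (vf v g)) = pderiv (PS κ) () (E (ψ₀ g))
    rw [hE, hE, hτ']
  · refine ⟨ρ g, E.injective ?_⟩
    rw [E_rename p3, hψ, hE, hker g hg]
  · obtain ⟨h, hh⟩ := hf
    obtain ⟨U, hU0, hU⟩ := exists_sol (τ h : PowerSeries (PS κ))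
    have hu : IsUnit (E.symm U) :=
      (PowerSeries.isUnit_iff_constantCoeff.2 (by rw [hU0]; exact isUnit_one)).map E.symm
    refine ⟨hu.unit, ρ f, E.injective ?_⟩
    rw [map_mul, E_rename p3, hψ, hE, IsUnit.unit_spec, AlgEquiv.apply_symm_apply, ← hτ0']
    exact eq_mul_C (H := τ h) (by rw [← hτ', hh, map_mul, mul_comm]) hU0 hU

end Pool.Agent.MP_51db15_ag.Hy
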