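import Pool.Agent.MP_51db15_ag.Hy.Rows
import Pool.Agent.MP_51db15_ag.Hy.Base

/-! Taylor expansion at a prime of height three. -/

namespace Pool.Agent.MP_51db15_ag.Hy

open MvPowerSeries Matrix

namespace TAY

section Loc

variable {R A : Type} [CommRing R] [CommRing A] [Algebra R A] (M : Submonoid R)
  [IsLocalization M A]

include M in
/-- extension of a derivation to a localisation -/
theorem ext_loc (d : R →+ R) (hd : Leib d) :
    ∃ D : A →+ A, Leib D ∧ ∀ g, D (algebraMap R A g) = algebraMap R A (d g) := by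
  have h1 : d 1 = 0 := by
    have := hd 1 1
    simp only [mul_one, one_mul] at this
    exact left_eq_add.1 this
  let φ : R →+* TrivSqZeroExt A A :=
    { toFun := fun a => TrivSqZeroExt.inl (algebraMap R A a) +
        TrivSqZeroExt.inr (algebraMap R A (d a))
      map_one' := by ext <;> simp [h1]
      map_mul' := fun a b => by
        ext1
        · simp
        · simp [hd a b, -DualNumber.inr_eq_smul_eps]; ring
      map_zero' := by ext <;> simp
      map_add' := fun a b => by ext1 <;> simp [-DualNumber.inr_eq_smul_eps] }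
  have hu : ∀ y : M, IsUnit (φ y) := fun y => by
    rw [TrivSqZeroExt.isUnit_iff_isUnit_fst]
    simpa [φ] using IsLocalization.map_units A y
  let Ψ : A →+* TrivSqZeroExt A A := IsLocalization.lift hu
  have hΨ : ∀ g, Ψ (algebraMap R A g) = φ g := fun g => IsLocalization.lift_eq hu g
  have hfst : ∀ p, (Ψ p).fst = p := fun p => by
    have : ((TrivSqZeroExt.fstHom ℤ A A).toRingHom.comp Ψ) = RingHom.id A :=
      IsLocalization.ringHom_ext M (RingHom.ext fun g => by
        change (Ψ (algebraMap R A g)).fst = algebraMap R A g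
        rw [hΨ]; simp [φ])
    exact RingHom.congr_fun this p
  refine ⟨⟨⟨fun p => (Ψ p).snd, by simp⟩, fun p q => by simp⟩, fun p q => ?_, fun a => ?_⟩
  · change (Ψ (p * q)).snd = p * (Ψ q).snd + q * (Ψ p).snd
    rw [map_mul, TrivSqZeroExt.snd_mul, hfst, hfst]
    simp [mul_comm]
  · change (Ψ (algebraMap R A a)).snd = _
    rw [hΨ]; simp [φ, -DualNumber.inr_eq_smul_eps]

include M in
theorem comm_loc {D D' : A →+ A} (hD : Leib D) (hD' : Leib D')
    (h : ∀ g, D (D' (algebraMap R A g)) = D' (D (algebraMap R A g))) (a : A) :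
    D (D' a) = D' (D a) := by
  obtain ⟨⟨g, s⟩, hs⟩ := IsLocalization.surj M a
  have h1 := h g
  have h2 := h s
  simp only at hs
  rw [← hs, hD, hD', map_add, map_add, hD, hD, hD', hD', h2] at h1
  refine (IsLocalization.map_units A s).mul_left_cancel ?_
  linear_combination h1

end Loc

section Comb

variable {A ι : Type} [CommRing A] [Fintype ι]

/-- a combination of derivations -/
def cb (E : ι → A →+ A) (v : ι → A) : A →+ A :=
  AddMonoidHom.mk' (fun a => ∑ k, v k * E k a) fun a b => by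
    simp [mul_add, Finset.sum_add_distrib]

theorem cb_apply (E : ι → A →+ A) (v : ι → A) (a : A) : cb E v a = ∑ k, v k * E k a := rfl

theorem cb_leib {E : ι → A →+ A} (hE : ∀ k, Leib (E k)) (v : ι → A) : Leib (cb E v) := by
  intro a b
  simp only [cb_apply, Finset.mul_sum, ← Finset.sum_add_distrib]
  exact Finset.sum_congr rfl fun k _ => by rw [hE k]; ring

theorem cb_lie {E : ι → A →+ A} (hE : ∀ k, Leib (E k))
    (hc : ∀ k l a, E k (E l a) = E l (E k a)) (v w : ι → A) (a : A) :
    cb E v (cb E w a) - cb E w (cb E v a) = ∑ k, (cb E v (w k) - cb E w (v k)) * E k a := by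
  have h : ∀ v w : ι → A, cb E v (cb E w a) =
      ∑ k, cb E v (w k) * E k a + ∑ k, ∑ i, w k * v i * E i (E k a) := by
    intro v w
    rw [cb_apply E w, map_sum, ← Finset.sum_add_distrib]
    refine Finset.sum_congr rfl fun k _ => ?_
    rw [cb_leib hE, cb_apply E v (E k a), Finset.mul_sum, add_comm, mul_comm (E k a)]
    simp only [mul_assoc]
  have h2 : ∑ k, ∑ i, w k * v i * E i (E k a) = ∑ k, ∑ i, v k * w i * E i (E k a) := by
    rw [Finset.sum_comm]
    exact Finset.sum_congr rfl fun k _ => Finset.sum_congr rfl fun i _ => by rw [hc, mul_comm (w i)]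
  rw [h v w, h w v, h2]
  simp only [sub_mul, Finset.sum_sub_distrib]
  ring

/-- the dual derivations of a coordinate system -/
theorem dual [DecidableEq ι] {E : ι → A →+ A} (hE : ∀ k, Leib (E k))
    (hc : ∀ k l a, E k (E l a) = E l (E k a)) (U : ι → A)
    (hU : IsUnit (Matrix.of fun i j => E j (U i)).det) :
    ∃ N : Matrix ι ι A, IsUnit N.det ∧ (∀ i j, cb E (N i) (U j) = if i = j then 1 else 0) ∧
      ∀ i j a, cb E (N i) (cb E (N j) a) = cb E (N j) (cb E (N i) a) := by
  set M : Matrix ι ι A := Matrix.of fun i j => E j (U i) with hM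
  have h1 : ∀ i j, cb E ((M⁻¹)ᵀ i) (U j) = if i = j then 1 else 0 := by
    intro i j
    have := congrFun (congrFun (mul_nonsing_inv M hU) j) i
    rw [mul_apply, one_apply] at this
    rw [cb_apply, if_congr eq_comm rfl rfl, ← this]
    exact Finset.sum_congr rfl fun k _ => mul_comm _ _
  refine ⟨(M⁻¹)ᵀ, by rw [det_transpose]; exact isUnit_nonsing_inv_det M hU, h1, fun i j a => ?_⟩
  set c : ι → A := fun k => cb E ((M⁻¹)ᵀ i) ((M⁻¹)ᵀ j k) - cb E ((M⁻¹)ᵀ j) ((M⁻¹)ᵀ i k) with hc0
  have h0 : ∀ (D : A →+ A), Leib D → ∀ (p : Prop) [Decidable p], D (if p then 1 else 0) = 0 := by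
    intro D hD p _
    split_ifs
    · have := hD 1 1
      simp only [mul_one, one_mul] at this
      exact left_eq_add.1 this
    · exact map_zero D
  have h2 : M *ᵥ c = 0 := by
    funext l
    have := cb_lie hE hc ((M⁻¹)ᵀ i) ((M⁻¹)ᵀ j) (U l)
    rw [h1, h1, h0 _ (cb_leib hE _), h0 _ (cb_leib hE _), sub_zero] at this
    rw [Pi.zero_apply, this]
    exact Finset.sum_congr rfl fun k _ => mul_comm _ _
  have h3 : c = 0 := by
    rw [← one_mulVec c, ← nonsing_inv_mul M hU, ← mulVec_mulVec, h2, mulVec_zero]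
  rw [← sub_eq_zero, cb_lie hE hc]
  exact Finset.sum_eq_zero fun k _ => by rw [show _ - _ = c k from rfl, h3, Pi.zero_apply, zero_mul]

end Comb

section Series

variable {A L σ : Type} [CommRing A] [Field L] [Fintype σ]

omit [CommRing A] in
/-- a map into power series that intertwines operators with the partial derivatives and has no
constant term vanishes -/
theorem uniq [CharZero L] (T : A → MvPowerSeries σ L) (D : σ → A → A)
    (h0 : ∀ a, constantCoeff (T a) = 0) (h1 : ∀ i a, T (D i a) = pderiv L i (T a)) (a : A) :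
    T a = 0 := by
  have key : ∀ (n : ℕ) (α : σ →₀ ℕ), Finsupp.degree α = n → ∀ a, coeff α (T a) = 0 := by
    intro n
    induction n with
    | zero =>
      intro α hα a
      rw [(Finsupp.degree_eq_zero_iff α).1 hα]
      simpa using h0 a
    | succ n ih =>
      intro α hα a
      have hα0 : α ≠ 0 := by
        rintro rfl
        simp at hα
      obtain ⟨i, hi⟩ := Finsupp.ne_iff.1 hα0
      have hle : Finsupp.single i 1 ≤ α := by simpa [Nat.one_le_iff_ne_zero] using hi
      have h5 : Finsupp.degree α = Finsupp.degree (α - Finsupp.single i 1) + 1 := by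
        conv_lhs => rw [← tsub_add_cancel_of_le hle]
        rw [map_add, Finsupp.degree_single]
      have := ih (α - Finsupp.single i 1) (by omega) (D i a)
      rw [h1, coeff_pderiv, tsub_add_cancel_of_le hle] at this
      exact (mul_eq_zero.1 this).resolve_right (Nat.cast_add_one_ne_zero _)
  ext α
  rw [key _ α rfl, map_zero]

/-- coefficientwise action -/
def cw (d : L →+ L) : MvPowerSeries σ L →+ MvPowerSeries σ L :=
  AddMonoidHom.mk' (fun G α => d (coeff α G)) fun G H => by
    funext α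
    change d (coeff α (G + H)) = d (coeff α G) + d (coeff α H)
    rw [map_add, map_add]

omit [Fintype σ] in
theorem coeff_cw (d : L →+ L) (G : MvPowerSeries σ L) (α : σ →₀ ℕ) :
    coeff α (cw d G) = d (coeff α G) := rfl

omit [Fintype σ] in
theorem cc_cw (d : L →+ L) (G : MvPowerSeries σ L) :
    constantCoeff (cw d G) = d (constantCoeff G) := by
  rw [← coeff_zero_eq_constantCoeff_apply, coeff_cw, coeff_zero_eq_constantCoeff_apply]

omit [Fintype σ] in
theorem cw_leib {d : L →+ L} (hd : Leib d) : Leib (cw (σ := σ) d) := by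
  classical
  intro G H
  ext α
  rw [coeff_cw, map_add, mul_comm H, coeff_mul, coeff_mul, coeff_mul, map_sum,
    ← Finset.sum_add_distrib]
  exact Finset.sum_congr rfl fun p _ => by rw [hd, coeff_cw, coeff_cw, mul_comm (coeff p.2 H)]

omit [Fintype σ] in
theorem cw_C (d : L →+ L) (c : L) : cw (σ := σ) d (C c) = C (d c) := by
  classical
  ext α
  rw [coeff_cw, coeff_C, coeff_C]
  split_ifs <;> simp

omit [Fintype σ] in
theorem cw_pderiv (d : L →+ L) (i : σ) (G : MvPowerSeries σ L) :
    cw d (pderiv L i G) = pderiv L i (cw d G) := by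
  ext α
  rw [coeff_cw, coeff_pderiv, coeff_pderiv, coeff_cw, ← Nat.cast_succ, mul_comm, mul_comm (d _),
    ← nsmul_eq_mul, ← nsmul_eq_mul, map_nsmul]

omit [Fintype σ] in
/-- the derivation induced on the residue field -/
theorem induced (ρ : A →+* L) (hρ : Function.Surjective ρ) {D : A →+ A} (hD : Leib D)
    (h : ∀ a, ρ a = 0 → ρ (D a) = 0) : ∃ d : L →+ L, Leib d ∧ ∀ a, d (ρ a) = ρ (D a) := by
  have w : ∀ a b, ρ a = ρ b → ρ (D a) = ρ (D b) := fun a b hab => by
    rw [← sub_eq_zero, ← map_sub, ← map_sub]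
    exact h _ (by rw [map_sub, hab, sub_self])
  have e : ∀ a, ρ (D (Function.surjInv hρ (ρ a))) = ρ (D a) := fun a =>
    w _ _ (Function.surjInv_eq hρ _)
  refine ⟨AddMonoidHom.mk' (fun l => ρ (D (Function.surjInv hρ l))) fun x y => ?_,
    fun x y => ?_, e⟩
  · obtain ⟨a, rfl⟩ := hρ x
    obtain ⟨b, rfl⟩ := hρ y
    rw [← map_add, e, e, e, map_add, map_add]
  · obtain ⟨a, rfl⟩ := hρ x
    obtain ⟨b, rfl⟩ := hρ y
    simp only [AddMonoidHom.mk'_apply]
    rw [← map_mul, e, e, e, hD, map_add, map_mul, map_mul]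

/-- the Euler derivation acts on the graded pieces by the degree -/
theorem euler {D : σ → A →+ A} (hD : ∀ i, Leib (D i)) {U : σ → A} {m : Ideal A}
    (hU : ∀ i, U i ∈ m) (hm : ∀ a ∈ m, ∃ c : σ → A, a = ∑ i, c i * U i)
    (hθ : ∀ i, cb D U (U i) = U i) (r : ℕ) : ∀ a ∈ m ^ r, cb D U a - r * a ∈ m ^ (r + 1) := by
  have h0 : ∀ a, cb D U a ∈ m := fun a =>
    Ideal.sum_mem _ fun i _ => Ideal.mul_mem_right _ _ (hU i)
  have h1 : ∀ a ∈ m, cb D U a - a ∈ m ^ 2 := by
    intro a ha
    obtain ⟨c, rfl⟩ := hm a ha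
    rw [map_sum, ← Finset.sum_sub_distrib]
    refine Ideal.sum_mem _ fun i _ => ?_
    rw [cb_leib hD, hθ, add_sub_cancel_left, pow_two]
    exact Ideal.mul_mem_mul (hU i) (h0 _)
  induction r with
  | zero => intro a _; simpa using h0 a
  | succ r ih =>
    intro a ha
    rw [pow_succ] at ha
    refine Submodule.mul_induction_on ha (fun x hx y hy => ?_) (fun x y hx hy => ?_)
    · have e : cb D U (x * y) - ((r + 1 : ℕ) : A) * (x * y) =
          x * (cb D U y - y) + (cb D U x - r * x) * y := by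
        rw [cb_leib hD]; push_cast; ring
      rw [e]
      refine Ideal.add_mem _ ?_ ?_
      · rw [show r + 1 + 1 = r + 2 from rfl, pow_add]
        exact Ideal.mul_mem_mul hx (h1 y hy)
      · rw [pow_succ]
        exact Ideal.mul_mem_mul (ih x hx) hy
    · have e : cb D U (x + y) - ((r + 1 : ℕ) : A) * (x + y) =
          (cb D U x - ((r + 1 : ℕ) : A) * x) + (cb D U y - ((r + 1 : ℕ) : A) * y) := by
        rw [map_add]; ring
      rw [e]
      exact Ideal.add_mem _ hx hy

theorem dense (τ : A →+* MvPowerSeries σ L) {U : σ → A} (hU : ∀ i, τ (U i) = X i)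
    (hs : ∀ l, ∃ a, constantCoeff (τ a) = l) (r : ℕ) : ∀ G, ∃ a,
      τ a - G ∈ IsLocalRing.maximalIdeal (MvPowerSeries σ L) ^ r := by
  induction r with
  | zero => intro G; exact ⟨0, by simp⟩
  | succ r ih =>
    intro G
    obtain ⟨a0, h0⟩ := hs (constantCoeff G)
    obtain ⟨q, -, hq⟩ := exists_sum_X_mul (r := 0) (g := G - τ a0)
      (by simpa using one_le_order_iff_constCoeff_eq_zero.2 (by rw [map_sub, h0, sub_self]))
    choose b hb using fun i => ih (q i)
    refine ⟨a0 + ∑ i, b i * U i, ?_⟩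
    have e : τ (a0 + ∑ i, b i * U i) - G = ∑ i, (τ (b i) - q i) * X i := by
      rw [map_add, map_sum, eq_add_of_sub_eq hq]
      simp only [map_mul, hU, sub_mul, Finset.sum_sub_distrib, mul_comm (X _)]
      ring
    rw [e, pow_succ]
    exact Ideal.sum_mem _ fun i _ => Ideal.mul_mem_mul (hb i) (mem_max_iff.2 (constantCoeff_X i))

end Series

theorem core (th : S_TH) {ι : Type} [Fintype ι] [DecidableEq ι] (Q : Ideal (PS ι)) [Q.IsPrime]
    {u : ι → PS ι} {S : Finset ι} (hN : Nag Q u S) (hS : S.card = 3) (A L : Type) [CommRing A]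
    [Algebra (PS ι) A] [IsLocalization Q.primeCompl A] [Field L] [Algebra ℂ L] (ρ : A →+* L)
    (hρ : Function.Surjective ρ) (hker : ∀ g, ρ (algebraMap (PS ι) A g) = 0 ↔ g ∈ Q)
    (halg : ∀ c, ρ (algebraMap (PS ι) A (C c)) = algebraMap ℂ L c) :
    ∃ (τ : PS ι →+* MvPowerSeries (Fin 3) L)
      (δ : {j // j ∉ S} → MvPowerSeries (Fin 3) L →+ MvPowerSeries (Fin 3) L), Tay Q τ δ := by
  have : CharZero L := charZero_of_injective_algebraMap (algebraMap ℂ L).injective
  set φ := algebraMap (PS ι) A with hφ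
  have hun : ∀ s, s ∉ Q → IsUnit (φ s) := fun s hs =>
    IsLocalization.map_units A (⟨s, hs⟩ : Q.primeCompl)
  have hsj : ∀ a : A, ∃ g s, s ∉ Q ∧ a * φ s = φ g := fun a => by
    obtain ⟨⟨g, s⟩, hs⟩ := IsLocalization.surj Q.primeCompl a
    exact ⟨g, s, s.2, hs⟩
  choose E hE hEφ using fun k : ι => ext_loc (A := A) Q.primeCompl
    (pderiv ℂ k : PS ι →ₗ[ℂ] PS ι).toAddMonoidHom (fun a b => by simp)
  replace hEφ : ∀ k g, E k (φ g) = φ (pderiv ℂ k g) := hEφ
  have hEc : ∀ k l a, E k (E l a) = E l (E k a) := fun k l =>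
    comm_loc Q.primeCompl (hE k) (hE l) fun g => by
      rw [← hφ, hEφ, hEφ, hEφ, hEφ, pderiv_comm]
  obtain ⟨N, hNd, hNU, hNc⟩ := dual hE hEc (fun i => φ (u i)) (by
    have h := hun _ hN.1
    rw [RingHom.map_det] at h
    convert h
    ext i j
    simp [hEφ])
  have hDφ : ∀ i g, cb E (N i) (φ g) = ∑ k, N i k * φ (pderiv ℂ k g) := fun i g => by
    simp only [cb_apply, hEφ]
  have hDX : ∀ i k, cb E (N i) (φ (X k)) = N i k := fun i k => by
    rw [hDφ, Finset.sum_eq_single k]
    · simp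
    · intro l _ hl
      rw [pderiv_X_of_ne (Ne.symm hl), map_zero, mul_zero]
    · simp
  have hDC : ∀ i c, cb E (N i) (φ (C c)) = 0 := fun i c => by simp [hDφ]
  let eS : Fin 3 ≃ S := (Finset.equivFinOfCardEq hS).symm
  let D : Fin 3 → A →+ A := fun i => cb E (N (eS i))
  let U : Fin 3 → A := fun i => φ (u (eS i))
  have hDL : ∀ i, Leib (D i) := fun i => cb_leib hE _
  obtain ⟨τ, hτ0, hτD⟩ := th A L (Fin 3) ρ D hDL fun i j a => hNc _ _ a
  have hUρ : ∀ i, ρ (U i) = 0 := fun i => (hker _).2 (hN.2.1 _ (eS i).2)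
  have hDU : ∀ i j, D i (U j) = if i = j then 1 else 0 := fun i j => by
    rw [hNU]
    exact if_congr (Subtype.coe_inj.trans eS.injective.eq_iff) rfl rfl
  have hτU : ∀ i, τ (U i) = X i := fun i => by
    refine pderiv.ext (fun j => ?_) (by rw [hτ0, hUρ, constantCoeff_X])
    rw [← hτD, hDU, pderiv_X, Pi.single_apply, if_congr eq_comm rfl rfl]
    split_ifs <;> simp
  have hm : ∀ a, ρ a = 0 → ∃ c : Fin 3 → A, a = ∑ i, c i * U i := by
    intro a ha
    obtain ⟨g, s, hs, hg⟩ := hsj a
    have hgQ : g ∈ Q := (hker g).1 (by rw [← hg, map_mul, ha, zero_mul])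
    obtain ⟨s', hs', h1⟩ := hN.2.2 g hgQ
    have h2 : φ (s' * g) ∈ Ideal.span (Set.range U) := by
      refine (?_ : Ideal.map φ (Ideal.span (u '' S)) ≤ _) (Ideal.mem_map_of_mem φ h1)
      rw [Ideal.map_span, Ideal.span_le]
      rintro _ ⟨_, ⟨j, hj, rfl⟩, rfl⟩
      exact Ideal.subset_span ⟨eS.symm ⟨j, hj⟩, by simp [U]⟩
    rw [map_mul, ← hg, mul_comm a, ← mul_assoc,
      Ideal.unit_mul_mem_iff_mem _ ((hun _ hs').mul (hun _ hs))] at h2
    obtain ⟨c, hc⟩ := Ideal.mem_span_range_iff_exists_fun.1 h2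
    exact ⟨c, hc.symm⟩
  have hpres : ∀ j : {j // j ∉ S}, ∀ a, ρ a = 0 → ρ (cb E (N j) a) = 0 := by
    intro j a ha
    obtain ⟨c, rfl⟩ := hm a ha
    rw [map_sum, map_sum]
    refine Finset.sum_eq_zero fun i _ => ?_
    rw [cb_leib hE, hNU, if_neg (fun h : (j : ι) = eS i => j.2 (h ▸ (eS i).2)), mul_zero, zero_add,
      map_mul, hUρ, zero_mul]
  choose d hdL hd using fun j : {j // j ∉ S} => induced ρ hρ (cb_leib hE (N j)) (hpres j)
  have hτδ : ∀ (j : {j // j ∉ S}) a, cw (d j) (τ a) = τ (cb E (N j) a) := by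
    intro j a
    rw [← sub_eq_zero]
    refine uniq (fun a => cw (d j) (τ a) - τ (cb E (N j) a)) (fun i => D i) (fun a => ?_)
      (fun i a => ?_) a
    · rw [map_sub, cc_cw, hτ0, hτ0, hd, sub_self]
    · rw [map_sub, hτD, cw_pderiv, ← hτD i (cb E (N j) a), hNc]
  have hch : ∀ i g, τ (cb E (N i) (φ g)) =
      ∑ k, τ (φ (pderiv ℂ k g)) * τ (cb E (N i) (φ (X k))) := fun i g => by
    rw [hDφ, map_sum]
    exact Finset.sum_congr rfl fun k _ => by rw [map_mul, hDX, mul_comm]
  have hmap : RingHom.ker ρ = Q.map φ := by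
    refine le_antisymm (fun a ha => ?_) (Ideal.map_le_iff_le_comap.2 fun g hg => (hker g).2 hg)
    obtain ⟨c, rfl⟩ := hm a ha
    exact Ideal.sum_mem _ fun i _ =>
      Ideal.mul_mem_left _ _ (Ideal.mem_map_of_mem _ (hN.2.1 _ (eS i).2))
  have hθ : ∀ i, cb D U (U i) = U i := fun i => by
    simp [cb_apply, hDU]
  have hpow : ∀ (r : ℕ) a, (r : ℕ∞) ≤ (τ a).order → a ∈ RingHom.ker ρ ^ r := by
    intro r
    induction r with
    | zero => intro a _; simp
    | succ r ih =>
      intro a ha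
      rcases Nat.eq_zero_or_pos r with rfl | hr
      · rw [zero_add, pow_one, RingHom.mem_ker, ← hτ0]
        exact one_le_order_iff_constCoeff_eq_zero.1 (by simpa using ha)
      have h1 : a ∈ RingHom.ker ρ ^ r := ih a (le_trans (by exact_mod_cast Nat.le_succ r) ha)
      have h2 : cb D U a ∈ RingHom.ker ρ ^ (r + 1) := by
        rw [pow_succ', cb_apply]
        exact Ideal.sum_mem _ fun i _ => Ideal.mul_mem_mul (RingHom.mem_ker.2 (hUρ i))
          (ih _ (by rw [hτD]; exact le_order_pderiv ha i))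
      have h3 := Ideal.sub_mem _ h2 (euler hDL hUρ hm hθ r a h1)
      rw [sub_sub_cancel] at h3
      have h4 : IsUnit (r : A) := by
        rw [← map_natCast φ]
        refine hun _ fun h => ?_
        have := (hker _).2 h
        rw [map_natCast, map_natCast] at this
        exact hr.ne' (Nat.cast_eq_zero.1 this)
      exact (Ideal.unit_mul_mem_iff_mem _ h4).1 h3
  refine ⟨τ.comp φ, fun j => cw (d j), fun c => ?_, fun g => ?_, fun r G => ?_, fun r g hg => ?_,
    fun j => cw_leib (hdL j), fun j c => ⟨_, cw_C _ c⟩, fun j c => ?_, fun j G hG => ?_,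
    fun i g => ?_, fun j g => ?_, ?_⟩
  · refine pderiv.ext (fun i => ?_) ?_
    · rw [RingHom.comp_apply, ← hτD, hDC, map_zero, pderiv_C]
    · rw [RingHom.comp_apply, hτ0, halg, constantCoeff_C]
  · rw [RingHom.comp_apply, hτ0, hker]
  · obtain ⟨a, ha⟩ := dense τ hτU (fun l => by simpa only [hτ0] using hρ l) r G
    obtain ⟨g, s, hs, hg⟩ := hsj a
    refine ⟨g, s, hs, mem_pow_iff_order.1 ?_⟩
    rw [RingHom.comp_apply, RingHom.comp_apply, ← hg, map_mul, mul_comm, ← mul_sub]
    exact Ideal.mul_mem_left _ _ ha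
  · have h := hpow r _ hg
    rw [hmap, ← Ideal.map_pow, hφ,
      IsLocalization.algebraMap_mem_map_algebraMap_iff Q.primeCompl] at h
    exact h
  · rw [cw_C, ← halg, hd, hDC, map_zero, map_zero]
  · rw [cc_cw, hG, map_zero]
  · simp only [RingHom.comp_apply, ← hτD]
    exact hch _ g
  · simp only [RingHom.comp_apply, hτδ]
    exact hch _ g
  · let e : Fin 3 ⊕ {j // j ∉ S} ≃ ι :=
      (Equiv.sumCongr eS (Equiv.refl _)).trans (Equiv.sumCompl (· ∈ S))
    refine ⟨e.symm, ?_⟩
    have h := hNd.map τ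
    rw [RingHom.map_det] at h
    convert h
    ext1 a b
    obtain ⟨x, rfl⟩ := e.surjective a
    rw [of_apply, Equiv.symm_apply_apply, RingHom.mapMatrix_apply, map_apply, ← hDX]
    rcases x with i | j
    · exact (hτD i _).symm
    · exact hτδ j _

end TAY

theorem tay (th : S_TH) : S_TAY := by
  intro ι _ _ Q u S hQ hN hS
  let A := Localization.AtPrime Q
  let L := IsLocalRing.ResidueField A
  let alg : Algebra ℂ L :=
    ((IsLocalRing.residue A).comp ((algebraMap (PS ι) A).comp (C : ℂ →+* PS ι))).toAlgebra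
  obtain ⟨τ, δ, h⟩ := @TAY.core th ι _ _ Q hQ u S hN hS A L _ _ _ _ alg (IsLocalRing.residue A)
    IsLocalRing.residue_surjective (fun g => by
      rw [IsLocalRing.residue_eq_zero_iff]
      exact IsLocalization.AtPrime.to_map_mem_maximal_iff A Q g) (fun c => rfl)
  exact ⟨_, L, inferInstance, inferInstance, alg, τ, δ, h⟩

end Pool.Agent.MP_51db15_ag.Hy
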