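import Pool.Agent.MP_51db15_ag.Hy.Rows
import Pool.Agent.MP_51db15_ag.Hy.Base

/-! The Taylor map of commuting derivations; local parameters form a regular sequence. -/

namespace Pool.Agent.MP_51db15_ag.Hy

open MvPowerSeries Matrix

namespace TH

/-- Iterated derivations. -/
theorem exists_iter {A σ : Type} [CommRing A] [Fintype σ] (D : σ → A →+ A)
    (hc : ∀ i j a, D i (D j a) = D j (D i a)) :
    ∃ E : (σ →₀ ℕ) → A →+ A, (∀ a, E 0 a = a) ∧
      ∀ α i a, E (α + Finsupp.single i 1) a = E α (D i a) := by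
  classical
  let D' : σ → AddMonoid.End A := D
  have h1 : ∀ i j, Commute (D' i) (D' j) := fun i j => AddMonoidHom.ext fun a => hc i j a
  let ϕ : σ → Multiplicative ℕ →* AddMonoid.End A := fun i => powersHom _ (D' i)
  have h2 : Pairwise fun i j => ∀ x y, Commute (ϕ i x) (ϕ j y) :=
    fun i j _ x y => (h1 i j).pow_pow _ _
  let P := MonoidHom.noncommPiCoprod ϕ h2
  refine ⟨fun α => P fun i => Multiplicative.ofAdd (α i), fun a => ?_, fun α i a => ?_⟩
  · have : (fun i => Multiplicative.ofAdd ((0 : σ →₀ ℕ) i)) = 1 := rfl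
    have h := congrArg P this
    rw [map_one] at h
    exact congrArg (fun e : AddMonoid.End A => e a) h
  · have : (fun k => Multiplicative.ofAdd ((α + Finsupp.single i 1 : σ →₀ ℕ) k)) =
        (fun k => Multiplicative.ofAdd (α k)) * Pi.mulSingle i (Multiplicative.ofAdd 1) := by
      funext k
      by_cases h : k = i
      · subst h
        simp
      · simp [h]
    have h := congrArg P this
    rw [map_mul, MonoidHom.noncommPiCoprod_mulSingle,
      show ϕ i (Multiplicative.ofAdd 1) = D' i by simp [ϕ]] at h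
    exact congrArg (fun e : AddMonoid.End A => e a) h

theorem cases_deg {σ : Type} (α : σ →₀ ℕ) : α = 0 ∨ ∃ β i, α = β + Finsupp.single i 1 := by
  classical
  by_cases h : α = 0
  · exact Or.inl h
  · obtain ⟨i, hi : α i ≠ 0⟩ := Finsupp.ne_iff.1 h
    refine Or.inr ⟨α - Finsupp.single i 1, i, (tsub_add_cancel_of_le ?_).symm⟩
    rw [Finsupp.single_le_iff]
    omega

end TH

theorem th : S_TH := by
  intro A L σ _ _ _ _ ρ D hL hc
  classical
  obtain ⟨E, E0, E1⟩ := TH.exists_iter D hc
  let w : (σ →₀ ℕ) → ℚ := fun α => ∏ i, ((α i).factorial : ℚ)⁻¹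
  have w0 : w 0 = 1 := by simp [w]
  have w1 : ∀ α i, w (α + Finsupp.single i 1) * (α i + 1) = w α := by
    intro α i
    have h : ∏ k ∈ Finset.univ.erase i, (((α + Finsupp.single i 1 : σ →₀ ℕ) k).factorial : ℚ)⁻¹ =
        ∏ k ∈ Finset.univ.erase i, ((α k).factorial : ℚ)⁻¹ :=
      Finset.prod_congr rfl fun k hk => by
        simp [Finsupp.single_eq_of_ne (Finset.ne_of_mem_erase hk)]
    simp only [w]
    rw [← Finset.mul_prod_erase _ _ (Finset.mem_univ i),
      ← Finset.mul_prod_erase _ _ (Finset.mem_univ i), h]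
    simp only [Finsupp.add_apply, Finsupp.single_eq_same, Nat.factorial_succ]
    push_cast
    field_simp
  let τ : A → MvPowerSeries σ L := fun a α => algebraMap ℚ L (w α) * ρ (E α a)
  have tc : ∀ a α, coeff α (τ a) = algebraMap ℚ L (w α) * ρ (E α a) := fun _ _ => rfl
  have t0 : ∀ a, coeff 0 (τ a) = ρ a := fun a => by rw [tc, w0, E0, map_one, one_mul]
  have td : ∀ i a, τ (D i a) = pderiv L i (τ a) := by
    intro i a
    ext α
    rw [coeff_pderiv, tc, tc, E1, ← w1 α i, map_mul, map_add, map_natCast, map_one]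
    ring
  have ta : ∀ a b, τ (a + b) = τ a + τ b := by
    intro a b
    ext α
    rw [map_add, tc, tc, tc, map_add, map_add, mul_add]
  have tz : τ 0 = 0 := by
    ext α
    rw [tc, map_zero, map_zero, mul_zero, map_zero]
  have can : ∀ (n : ℕ) (x y : L), x * (n + 1) = y * (n + 1) → x = y := by
    intro n x y h
    have hu : IsUnit ((n : L) + 1) := by
      have : IsUnit ((n : ℚ) + 1) := IsUnit.mk0 _ (by positivity)
      simpa using this.map (algebraMap ℚ L)
    exact hu.mul_right_cancel h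
  have tm : ∀ (n : ℕ) (α : σ →₀ ℕ), α.degree = n → ∀ a b,
      coeff α (τ (a * b)) = coeff α (τ a * τ b) := by
    intro n
    induction n using Nat.strong_induction_on with
    | _ n ih =>
    intro α hα a b
    rcases TH.cases_deg α with rfl | ⟨β, i, rfl⟩
    · rw [t0, coeff_zero_eq_constantCoeff_apply, map_mul, map_mul,
        ← coeff_zero_eq_constantCoeff_apply, ← coeff_zero_eq_constantCoeff_apply, t0, t0]
    · have hβ : β.degree < n := by
        rw [← hα, map_add, Finsupp.degree_single]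
        omega
      refine can (β i) _ _ ?_
      rw [← coeff_pderiv, ← coeff_pderiv, ← td, hL i, ta, map_add, ih _ hβ β rfl, ih _ hβ β rfl,
        Derivation.leibniz, smul_eq_mul, smul_eq_mul, map_add, td, td]
  have t1 : τ 1 = 1 := by
    ext α
    rcases TH.cases_deg α with rfl | ⟨β, i, rfl⟩
    · rw [t0, map_one, coeff_zero_one]
    · have h1 : D i 1 = 0 := by simpa using hL i 1 1
      refine can (β i) _ _ ?_
      rw [← coeff_pderiv, ← coeff_pderiv, ← td, h1, tz, pderiv_one]
  refine ⟨⟨⟨⟨τ, t1⟩, fun a b => ?_⟩, tz, ta⟩, fun a => t0 a, td⟩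
  ext α
  exact tm _ α rfl a b

theorem nagreg : S_NAGREG := by
  intro ι _ _ Q u S hQ hN T _ j _ hjT g s hs hg
  set M : Matrix ι ι (PS ι) := Matrix.of fun i k => pderiv ℂ k (u i) with hM
  have hΔ : M.det ∉ Q := hN.1
  let v : ι → PS ι := fun k => M.adjugate k j
  have hv : ∀ i, vf v (u i) = if i = j then M.det else 0 := by
    intro i
    have h := congrFun (congrFun (mul_adjugate M) i) j
    rw [Matrix.mul_apply, Matrix.smul_apply, Matrix.one_apply, smul_eq_mul, mul_ite, mul_one, mul_zero] at h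
    rw [vf_apply, ← h]
    exact Finset.sum_congr rfl fun k _ => mul_comm _ _
  set I : Ideal (PS ι) := Ideal.span (u '' T) with hI
  have hst : ∀ x ∈ I, vf v x ∈ I := by
    intro x hx
    induction hx using Submodule.span_induction with
    | mem x hx =>
      obtain ⟨t, ht, rfl⟩ := hx
      rw [hv, if_neg fun h : t = j => hjT (h ▸ ht)]
      exact I.zero_mem
    | zero => rw [map_zero]; exact I.zero_mem
    | add x y _ _ hx hy => rw [map_add]; exact I.add_mem hx hy
    | smul a x hx' hx =>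
      rw [smul_eq_mul, vf_mul]
      exact I.add_mem (I.mul_mem_left _ hx) (I.mul_mem_left _ hx')
  have hmul : ∀ {a b : PS ι}, a ∉ Q → b ∉ Q → a * b ∉ Q := fun ha hb h =>
    (hQ.mem_or_mem h).elim ha hb
  have hone : (1 : PS ι) ∉ Q := fun h => hQ.ne_top ((Ideal.eq_top_iff_one Q).2 h)
  let J : ℕ → Ideal (PS ι) := fun n =>
    { carrier := {h | ∃ s ∉ Q, s * (u j ^ n * h) ∈ I}
      add_mem' := by
        rintro a b ⟨s, hs, ha⟩ ⟨t, ht, hb⟩
        refine ⟨s * t, hmul hs ht, ?_⟩
        convert I.add_mem (I.mul_mem_left t ha) (I.mul_mem_left s hb) using 1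
        ring
      zero_mem' := ⟨1, hone, by simp⟩
      smul_mem' := by
        rintro c a ⟨s, hs, ha⟩
        refine ⟨s, hs, ?_⟩
        convert I.mul_mem_left c ha using 1
        rw [smul_eq_mul]
        ring }
  have hJ : ∀ n h, h ∈ J n ↔ ∃ s ∉ Q, s * (u j ^ n * h) ∈ I := fun _ _ => Iff.rfl
  have hmono : Monotone J := monotone_nat_of_le_succ fun n h hh => by
    obtain ⟨s, hs, ha⟩ := (hJ n h).1 hh
    refine (hJ _ _).2 ⟨s, hs, ?_⟩
    convert I.mul_mem_left (u j) ha using 1
    ring
  by_contra hcon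
  have key : ∀ n, ∃ h, h ∈ J (n + 1) ∧ h ∉ J n := by
    intro n
    induction n with
    | zero =>
      refine ⟨g, (hJ _ _).2 ⟨s, hs, ?_⟩, fun h => hcon ?_⟩
      · convert hg using 1
        ring
      · simpa using (hJ _ _).1 h
    | succ n ih =>
      obtain ⟨h, h1, h2⟩ := ih
      obtain ⟨s, hs, ha⟩ := (hJ _ _).1 h1
      have hd := hst _ ha
      rw [vf_mul, vf_mul, Derivation.leibniz_pow, hv, if_pos rfl, smul_eq_mul, nsmul_eq_mul,
        Nat.add_sub_cancel] at hd
      have hn : ((n + 1 : ℕ) : PS ι) ∉ Q := fun h => by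
        have : IsUnit ((n + 1 : ℕ) : ℂ) := IsUnit.mk0 _ (by exact_mod_cast n.succ_ne_zero)
        exact hQ.ne_top (Q.eq_top_of_isUnit_mem h (by simpa using this.map (algebraMap ℂ (PS ι))))
      have hd2 : s * s * (u j ^ (n + 1) * vf v h + ((n + 1 : ℕ) : PS ι) * (u j ^ n * M.det) * h)
          ∈ I := by
        convert I.sub_mem (I.mul_mem_left s hd) (I.mul_mem_left (vf v s) ha) using 1
        ring
      refine ⟨vf v h, (hJ _ _).2 ⟨s * s, hmul hs hs, ?_⟩, fun h3 => h2 ?_⟩
      · convert I.sub_mem (I.mul_mem_left (u j) hd2)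
          (I.mul_mem_left (s * ((n + 1 : ℕ) : PS ι) * M.det) ha) using 1
        ring
      · obtain ⟨t, ht, hb⟩ := (hJ _ _).1 h3
        refine (hJ _ _).2 ⟨t * (s * s) * (((n + 1 : ℕ) : PS ι) * M.det),
          hmul (hmul ht (hmul hs hs)) (hmul hn hΔ), ?_⟩
        convert I.sub_mem (I.mul_mem_left t hd2) (I.mul_mem_left (s * s) hb) using 1
        ring
  obtain ⟨n, hn⟩ := monotone_stabilizes_iff_noetherian.2
    (inferInstance : IsNoetherian (PS ι) (PS ι)) ⟨J, hmono⟩
  obtain ⟨h, h1, h2⟩ := key n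
  have e : J n = J (n + 1) := hn (n + 1) n.le_succ
  exact h2 (e ▸ h1)

end Pool.Agent.MP_51db15_ag.Hy
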