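import Pool.Agent.MP_51db15_ag.Hy.Rows

/-! Unmixedness of the Pfaffian ideal and exactness for the corrected bivector. -/

namespace Pool.Agent.MP_51db15_ag.Hy

open MvPowerSeries Matrix

namespace UNM

section Lin

variable {R ι : Type} [CommRing R] [Fintype ι] [DecidableEq ι]

lemma transport (Θ A B : Matrix ι ι R) (π n : ι → R) (g : R) (hg : IsUnit g) (hAB : A * B = 1)
    (hn : Aᵀ *ᵥ n = g • π) (hk : Θ *ᵥ π = 0) (h1 : ∀ v, Θ *ᵥ v = 0 → ∃ r : R, v = r • π)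
    (h2 : ∀ v, π ⬝ᵥ v = 0 → ∃ a, v = Θ *ᵥ a) :
    (A * Θ * Aᵀ) *ᵥ n = 0 ∧ (∀ v, n ⬝ᵥ v = 0 → ∃ η, v = (A * Θ * Aᵀ) *ᵥ η) ∧
      ∀ v, (A * Θ * Aᵀ) *ᵥ v = 0 → ∃ r : R, v = r • n := by
  have hBA : B * A = 1 := mul_eq_one_comm.1 hAB
  have hAB' : Bᵀ * Aᵀ = 1 := by rw [← transpose_mul, hAB, transpose_one]
  have hBA' : Aᵀ * Bᵀ = 1 := by rw [← transpose_mul, hBA, transpose_one]
  refine ⟨?_, fun v hv => ?_, fun v hv => ?_⟩
  · rw [← mulVec_mulVec, ← mulVec_mulVec, hn, mulVec_smul, hk, smul_zero, mulVec_zero]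
  · have h3 : g * (π ⬝ᵥ (B *ᵥ v)) = 0 := by
      rw [← smul_eq_mul, ← smul_dotProduct, ← hn, mulVec_transpose, ← dotProduct_mulVec,
        mulVec_mulVec, hAB, one_mulVec, hv]
    obtain ⟨a, ha⟩ := h2 _ (hg.mul_right_eq_zero.1 h3)
    refine ⟨Bᵀ *ᵥ a, ?_⟩
    rw [mulVec_mulVec, Matrix.mul_assoc, hBA', Matrix.mul_one, ← mulVec_mulVec, ← ha,
      mulVec_mulVec, hAB, one_mulVec]
  · have h3 : Θ *ᵥ (Aᵀ *ᵥ v) = 0 := by
      have := congrArg (B *ᵥ ·) hv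
      simpa only [mulVec_mulVec, ← Matrix.mul_assoc, hBA, Matrix.one_mul, mulVec_zero] using this
    obtain ⟨r, hr⟩ := h1 _ h3
    obtain ⟨u, rfl⟩ := hg
    refine ⟨r * ↑u⁻¹, ?_⟩
    have h4 : Aᵀ *ᵥ v = Aᵀ *ᵥ ((r * ↑u⁻¹) • n) := by
      rw [mulVec_smul, hn, smul_smul, mul_assoc, Units.inv_mul, mul_one, hr]
    have := congrArg (Bᵀ *ᵥ ·) h4
    simpa only [mulVec_mulVec, hAB', one_mulVec] using this

lemma exists_inv (χ b : ι → R) (h : IsUnit (1 - b ⬝ᵥ χ)) :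
    ∃ B : Matrix ι ι R, (1 - vecMulVec χ b) * B = 1 := by
  obtain ⟨w, hw⟩ := h.exists_right_inv
  refine ⟨1 + w • vecMulVec χ b, ?_⟩
  rw [Matrix.mul_add, Matrix.mul_one, Matrix.mul_smul, Matrix.sub_mul, Matrix.one_mul,
    vecMulVec_mul_vecMulVec]
  ext i j
  simp only [Matrix.add_apply, Matrix.sub_apply, Matrix.smul_apply, vecMulVec_apply,
    Pi.smul_apply, smul_eq_mul]
  linear_combination (χ i * b j) * hw

lemma conj (Θ : Matrix ι ι R) (χ b : ι → R) (hs : Θᵀ = -Θ) (h0 : b ⬝ᵥ Θ *ᵥ b = 0) (i j : ι) :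
    ((1 - vecMulVec χ b) * Θ * (1 - vecMulVec χ b)ᵀ : Matrix ι ι R) i j =
      Θ i j - (Θ *ᵥ b) i * χ j + χ i * (Θ *ᵥ b) j := by
  have h1 : b ᵥ* Θ = -(Θ *ᵥ b) := by rw [← mulVec_transpose, hs, neg_mulVec]
  have h2 : (Θ *ᵥ b) ⬝ᵥ b = 0 := by rw [dotProduct_comm, h0]
  rw [transpose_sub, transpose_one, transpose_vecMulVec, Matrix.sub_mul, Matrix.one_mul,
    vecMulVec_mul, h1, Matrix.mul_sub, Matrix.mul_one, Matrix.sub_mul, mul_vecMulVec,
    vecMulVec_mul_vecMulVec, neg_dotProduct, h2]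
  simp only [Matrix.sub_apply, vecMulVec_apply, Pi.neg_apply, Pi.smul_apply, smul_eq_mul]
  ring

end Lin

variable {ι : Type} [Fintype ι]

lemma vf_eq (v : ι → PS ι) (f : PS ι) : vf v f = (fun i => pderiv ℂ i f) ⬝ᵥ v := by
  have h := map_sum (Derivation.coeFnAddMonoidHom (R := ℂ) (A := PS ι) (M := PS ι))
    (fun i => v i • pderiv ℂ i) Finset.univ
  have h2 := congrFun h f
  rw [Finset.sum_apply] at h2
  exact h2.trans (Finset.sum_congr rfl fun i _ => mul_comm _ _)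

lemma le_height {R : Type} [CommRing R] {I : Ideal R} {n : ℕ∞}
    (h : ∀ Q : Ideal R, Q.IsPrime → I ≤ Q → n ≤ Q.height) : n ≤ I.height := by
  rw [Ideal.height_eq_inf_minimalPrimes]
  exact le_iInf₂ fun Q hQ => h Q hQ.isPrime hQ.le

lemma skew_zero [DecidableEq ι] {Θ : Matrix ι ι (PS ι)} (hs : Θᵀ = -Θ) (b : ι → PS ι) :
    b ⬝ᵥ Θ *ᵥ b = 0 := by
  have h : b ⬝ᵥ Θ *ᵥ b = -(b ⬝ᵥ Θ *ᵥ b) := by
    conv_lhs => rw [dotProduct_mulVec, ← mulVec_transpose, hs, neg_mulVec, neg_dotProduct,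
      dotProduct_comm]
  have h2 : (2 : ℂ) • (b ⬝ᵥ Θ *ᵥ b) = 0 := by
    rw [two_smul]
    exact eq_neg_iff_add_eq_zero.1 h
  exact (smul_eq_zero_iff_right two_ne_zero).1 h2

end UNM

open UNM in
theorem unm (rad : S_RAD) (sing : S_SING) (be : S_BE) : S_UNM := by
  intro ι _ _ f Θ π g b hf hp
  have hf0 : constantCoeff f = 0 := by
    by_contra h
    exact hf.1.not_isUnit (isUnit_iff_constantCoeff.2 (Ne.isUnit h))
  have hQ : ∀ Q : Ideal (PS ι), Q.IsPrime → Ideal.span (Set.range π) ≤ Q →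
      f ∈ Q ∧ ∀ i, pderiv ℂ i f ∈ Q := fun Q hQ hle => by
    have h1 : ∀ i, g * π i ∈ Q := fun i =>
      Q.mul_mem_left _ (hle (Ideal.subset_span (Set.mem_range_self i)))
    have h2 : f ∈ Q := rad ι Q f b hQ hf0 fun i => by
      rw [hp.grad i, add_sub_cancel_right]
      exact h1 i
    refine ⟨h2, fun i => ?_⟩
    rw [hp.grad i]
    exact Q.add_mem (h1 i) (Q.mul_mem_right _ h2)
  have h3 : 3 ≤ (Ideal.span (Set.range π)).height :=
    le_height fun Q h hle => sing ι f Q hf h (hQ Q h hle).1 (hQ Q h hle).2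
  refine ⟨h3, fun h hh => ?_⟩
  obtain ⟨c, hc, hadj⟩ := hp.adj
  obtain ⟨-, -, hb⟩ := be ι Θ π c hp.skew hc hadj hp.ker h3
  by_contra hn
  obtain ⟨P, hP, hle⟩ := exists_le_isAssociatedPrime_of_isNoetherianRing (PS ι)
    (Ideal.Quotient.mk (Ideal.span (Set.range π)) h) (mt Ideal.Quotient.eq_zero_iff_mem.1 hn)
  obtain ⟨hP, y, hy⟩ := isAssociatedPrime_iff.1 hP
  obtain ⟨y, rfl⟩ := Ideal.Quotient.mk_surjective y
  have key : ∀ s z : PS ι, s ∈ (⊥ : Submodule (PS ι) (PS ι ⧸ Ideal.span (Set.range π))).colon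
      {Ideal.Quotient.mk (Ideal.span (Set.range π)) z} ↔ s * z ∈ Ideal.span (Set.range π) :=
    fun s z => by
      rw [Submodule.mem_colon_singleton, Submodule.mem_bot, ← Ideal.Quotient.eq_zero_iff_mem]
      rfl
  have hIP : Ideal.span (Set.range π) ≤ P := fun s hs => by
    rw [hy, key]
    exact Ideal.mul_mem_right _ _ hs
  obtain ⟨a1, a2⟩ := hQ P hP hIP
  rcases (sing ι f P hf hP a1 a2).eq_or_lt with e | e
  · obtain ⟨s, hs, hsh⟩ := hh P hP a1 a2 e.symm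
    exact hs (hle ((key s h).2 hsh))
  · have h4 : 4 ≤ P.height := Order.add_one_le_of_lt e
    have h5 := hb P h4 y fun q hq => (key q y).1 (hy ▸ hq)
    refine hP.ne_top ((Ideal.eq_top_iff_one _).2 ?_)
    rw [hy, key, one_mul]
    exact h5

open UNM in
theorem be2 (sing : S_SING) (be : S_BE) (unm : S_UNM) : S_BE2 := by
  intro ι _ _ f Θ π g b χ hf hp hχ hE
  obtain ⟨c, hc, hadj⟩ := hp.adj
  obtain ⟨b1, b2, -⟩ := be ι Θ π c hp.skew hc hadj hp.ker (unm ι f Θ π g b hf hp).1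
  obtain ⟨B, hB⟩ := exists_inv χ b (isUnit_iff_constantCoeff.2 (by simp [dotProduct, hχ]))
  have hT : thp Θ b χ = (1 - vecMulVec χ b) * Θ * (1 - vecMulVec χ b)ᵀ :=
    Matrix.ext fun i j => (conj Θ χ b hp.skew (skew_zero hp.skew b) i j).symm
  have hn : (1 - vecMulVec χ b)ᵀ *ᵥ (fun i => pderiv ℂ i f) = g • π := by
    rw [transpose_sub, transpose_one, transpose_vecMulVec, sub_mulVec, one_mulVec,
      vecMulVec_mulVec, dotProduct_comm, ← vf_eq, hE]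
    funext i
    simp only [Pi.sub_apply, Pi.smul_apply, MulOpposite.smul_eq_mul_unop, MulOpposite.unop_op,
      smul_eq_mul]
    linear_combination hp.grad i
  obtain ⟨t0, t1, t2⟩ := transport Θ _ B π _ g hp.unit hB hn hp.ker b1 b2
  rw [← hT] at t0 t1 t2
  refine ⟨?_, t0, fun v hv => t1 v (vf_eq v f ▸ hv), fun v hv => ?_, le_height fun Q hQ hle => ?_⟩
  · rw [hT, transpose_mul, transpose_mul, transpose_transpose, hp.skew, Matrix.neg_mul,
      Matrix.mul_neg, Matrix.mul_assoc]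
  · obtain ⟨r, hr⟩ := t2 v hv
    exact ⟨r, fun i => congrFun hr i⟩
  · have h1 : ∀ i, pderiv ℂ i f ∈ Q := fun i => hle (Ideal.subset_span (Set.mem_range_self i))
    refine sing ι f Q hf hQ ?_ h1
    rw [← hE, vf_eq]
    exact Q.sum_mem fun i _ => Q.mul_mem_right _ (h1 i)

end Pool.Agent.MP_51db15_ag.Hy
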