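import Pool.Agent.MP_51db15_ag.Hy.Rows

/-! The core of the weight test, in fixed coordinates. -/

namespace Pool.Agent.MP_51db15_ag.Hy

open MvPowerSeries Matrix

namespace VT0

section Lin

variable {κ ι : Type} [Field κ] [Fintype ι] [DecidableEq ι] {v : DV κ}

theorem ge_det (A : Matrix ι ι κ) (i : ι) (h0 : ∀ a b, v.Ge 0 (A a b))
    (h1 : ∀ b, v.Ge 1 (A i b)) : v.Ge 1 A.det := by
  rw [det_apply']
  refine DV.Ge.sum fun s _ => DV.Ge.mul_left (DV.ge_intCast _) ?_
  rw [← Finset.mul_prod_erase _ _ (Finset.mem_univ (s.symm i))]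
  refine DV.Ge.mul_right ?_ (DV.Ge.prod fun b _ => h0 _ _)
  rw [Equiv.apply_symm_apply]
  exact h1 _

theorem core (θ M Ξ : Matrix ι ι κ) (g : ι → κ) (γ : κ) (i₀ i₁ : ι) (hi : i₁ ≠ i₀)
    (hadj : ∀ i j, θ.adjugate i j = γ * (g i * g j)) (hγ : v.ord γ = 0)
    (hM : M.det ≠ 0) (hΞ : ∀ a, a ≠ i₀ → ∀ k, M a k = ∑ i, Ξ a i * θ i k)
    (h0 : ∀ a b, a ≠ i₀ → b ≠ i₀ → v.Ge 0 (∑ i, Ξ b i * M a i))
    (h1 : ∀ b, b ≠ i₀ → v.Ge 1 (∑ i, Ξ b i * M i₁ i)) :
    v.ord (∑ i, M i₀ i * g i) < v.ord M.det := by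
  set Z : Matrix ι ι κ := Ξ.updateRow i₀ 0 with hZ
  obtain ⟨d, hd⟩ : ∃ d : κ, d = ∑ i, g i * Z.adjugate i i₀ := ⟨_, rfl⟩
  have hrow : ∀ a, a ≠ i₀ → (Z * θ) a = M a := by
    intro a ha
    ext k
    rw [mul_apply, hΞ a ha, hZ, updateRow_ne ha]
  have hc : ∀ i, (Z * θ).adjugate i i₀ = γ * g i * d := by
    intro i
    rw [adjugate_mul_distrib, mul_apply, hd, Finset.mul_sum]
    exact Finset.sum_congr rfl fun j _ => by rw [hadj]; ring
  have hdet : M.det = γ * (∑ i, M i₀ i * g i) * d := by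
    rw [det_eq_sum_mul_adjugate_row M i₀, Finset.mul_sum, Finset.sum_mul]
    refine Finset.sum_congr rfl fun i _ => ?_
    have : M.adjugate i i₀ = (Z * θ).adjugate i i₀ := by
      rw [adjugate_apply, adjugate_apply]
      congr 1
      ext a k
      by_cases ha : a = i₀
      · subst ha; simp
      · rw [updateRow_ne ha, updateRow_ne ha, hrow a ha]
    rw [this, hc]; ring
  have hG : (Z * θ * Zᵀ).adjugate i₀ i₀ = γ * d ^ 2 := by
    rw [adjugate_mul_distrib, mul_apply, show γ * d ^ 2 = ∑ i, γ * d * (g i * Z.adjugate i i₀) by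
      rw [← Finset.mul_sum, ← hd]; ring]
    refine Finset.sum_congr rfl fun i _ => ?_
    rw [hc, ← adjugate_transpose, transpose_apply]; ring
  have hent : ∀ a b, a ≠ i₀ → (Z * θ * Zᵀ) a b = if b = i₀ then 0 else ∑ i, Ξ b i * M a i := by
    intro a b ha
    rw [mul_apply, hrow a ha]
    split_ifs with hb
    · subst hb; simp [hZ]
    · exact Finset.sum_congr rfl fun i _ => by rw [transpose_apply, hZ, updateRow_ne hb, mul_comm]
  have hge : v.Ge 1 (γ * d ^ 2) := by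
    rw [← hG, adjugate_apply]
    refine ge_det _ i₁ (fun a b => ?_) fun b => ?_
    · by_cases ha : a = i₀
      · subst ha
        rw [updateRow_self, Pi.single_apply]
        split_ifs
        exacts [DV.ge_one, DV.ge_zero 0]
      · rw [updateRow_ne ha, hent a b ha]
        split_ifs with hb
        exacts [DV.ge_zero 0, h0 a b ha hb]
    · rw [updateRow_ne hi, hent i₁ b hi]
      split_ifs with hb
      exacts [DV.ge_zero 1, h1 b hb]
  rw [hdet] at hM ⊢
  obtain ⟨hγω, hd0⟩ := mul_ne_zero_iff.1 hM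
  obtain ⟨hγ0, hω⟩ := mul_ne_zero_iff.1 hγω
  have h2 := hge.le (mul_ne_zero hγ0 (pow_ne_zero 2 hd0))
  rw [v.ord_mul _ _ hγ0 (pow_ne_zero 2 hd0), v.ord_pow hd0, hγ] at h2
  rw [v.ord_mul _ _ hγω hd0, v.ord_mul _ _ hγ0 hω, hγ]
  push_cast at h2
  omega

/-- two rows of an invertible matrix are not both mapped into one coordinate axis -/
theorem two_rows (M U : Matrix ι ι κ) (i₀ i j : ι) (hM : M.det ≠ 0) (hU : U.det ≠ 0)
    (hi : ∀ a, a ≠ i₀ → (M *ᵥ U i) a = 0) (hj : ∀ a, a ≠ i₀ → (M *ᵥ U j) a = 0) : i = j := by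
  by_contra hij
  have hrow : ∀ l, U l ≠ 0 := fun l hl => hU (det_eq_zero_of_row_eq_zero l fun b => by simp [hl])
  have hp : (M *ᵥ U i) i₀ ≠ 0 := by
    intro h
    refine hrow i (eq_zero_of_mulVec_eq_zero hM ?_)
    ext a
    by_cases ha : a = i₀
    · rw [ha, h]; rfl
    · exact hi a ha
  have h2 : (M *ᵥ U j) i₀ • U i - (M *ᵥ U i) i₀ • U j = 0 := by
    refine eq_zero_of_mulVec_eq_zero hM ?_
    ext a
    rw [mulVec_sub, mulVec_smul, mulVec_smul]
    by_cases ha : a = i₀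
    · subst ha; simp [mul_comm]
    · simp [hi a ha, hj a ha]
  have h3 : (Pi.single i ((M *ᵥ U j) i₀) - Pi.single j ((M *ᵥ U i) i₀) : ι → κ) = 0 := by
    refine eq_zero_of_vecMul_eq_zero hU ?_
    rw [sub_vecMul, single_vecMul, single_vecMul]
    exact h2
  have := congrFun h3 j
  rw [Pi.sub_apply, Pi.single_eq_same, Pi.single_eq_of_ne (Ne.symm hij)] at this
  exact hp (by simpa using this)

/-- the valuation ring as a valuation subring -/
def vs (v : DV κ) : ValuationSubring κ where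
  toSubring := v.ring
  mem_or_inv_mem' x := by
    by_cases hx : x = 0
    · exact Or.inl (Or.inl hx)
    rcases le_total 0 (v.ord x) with h | h
    · exact Or.inl (Or.inr h)
    · exact Or.inr (Or.inr (by rw [v.ord_inv hx]; omega))

theorem ord_unit {R : Type} [CommRing R] (π : R →+* κ) (h : ∀ r, v.Ge 0 (π r)) {r : R}
    (hr : IsUnit r) : π r ≠ 0 ∧ v.ord (π r) = 0 := by
  obtain ⟨s, hs⟩ := hr.exists_right_inv
  have h1 : π r * π s = 1 := by rw [← map_mul, hs, map_one]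
  have h2 := left_ne_zero_of_mul_eq_one h1
  have h3 := right_ne_zero_of_mul_eq_one h1
  have h4 := v.ord_mul _ _ h2 h3
  rw [h1, v.ord_one] at h4
  have := (h r).le h2
  have := (h s).le h3
  exact ⟨h2, by omega⟩

/-- scaled order bound -/
def Gm (v : DV κ) (m : ℕ) (n : ℤ) (y : κ) : Prop := y = 0 ∨ n ≤ m * v.ord y

theorem Gm.add {m : ℕ} {n : ℤ} {x y : κ} (hx : Gm v m n x) (hy : Gm v m n y) :
    Gm v m n (x + y) := by
  by_cases h1 : x = 0
  · simpa [h1] using hy
  by_cases h2 : y = 0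
  · simpa [h2] using hx
  by_cases h3 : x + y = 0
  · exact Or.inl h3
  have h4 := v.ord_add x y h1 h2 h3
  have h5 := hx.resolve_left h1
  have h6 := hy.resolve_left h2
  have hm : (0 : ℤ) ≤ m := Int.natCast_nonneg m
  rcases min_le_iff.1 h4 with h | h
  · exact Or.inr (h5.trans (mul_le_mul_of_nonneg_left h hm))
  · exact Or.inr (h6.trans (mul_le_mul_of_nonneg_left h hm))

theorem Gm.sum {m : ℕ} {n : ℤ} {α : Type} {s : Finset α} {f : α → κ}
    (h : ∀ i ∈ s, Gm v m n (f i)) : Gm v m n (∑ i ∈ s, f i) :=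
  Finset.sum_induction f (Gm v m n) (fun _ _ => Gm.add) (Or.inl rfl) h

theorem Gm.mul {m : ℕ} {n l r : ℤ} {x y : κ} (hx : Gm v m n x) (hy : Gm v m l y)
    (h : r ≤ n + l) : Gm v m r (x * y) := by
  by_cases h1 : x = 0
  · exact Or.inl (by simp [h1])
  by_cases h2 : y = 0
  · exact Or.inl (by simp [h2])
  have h5 := hx.resolve_left h1
  have h6 := hy.resolve_left h2
  exact Or.inr (by rw [v.ord_mul _ _ h1 h2, mul_add]; omega)

theorem Gm.pow {m : ℕ} {n : ℤ} {x : κ} (hx : Gm v m n x) (k : ℕ) : Gm v m (k * n) (x ^ k) := by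
  induction k with
  | zero => exact Or.inr (by simp [v.ord_one])
  | succ k ih => rw [pow_succ]; exact ih.mul hx (by push_cast; linarith)

theorem Gm.cast (m n : ℕ) : Gm v m 0 (n : κ) :=
  (DV.ge_natCast (v := v) n).imp id fun h => mul_nonneg (Int.natCast_nonneg m) h

/-- a root of a monic equation, and the value of the derivative -/
theorem root_bound {m k : ℕ} (b : ℤ) (z : κ) (c : Fin k → κ)
    (hc : ∀ i : Fin k, Gm v m ((k - (i : ℕ) : ℤ) * b) (c i))
    (hz : z ^ k + ∑ i : Fin k, c i * z ^ (i : ℕ) = 0) (hk : 0 < k) :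
    Gm v m ((k - 1 : ℤ) * b)
      (k * z ^ (k - 1) + ∑ i : Fin k, c i * ((i : ℕ) * z ^ ((i : ℕ) - 1))) := by
  have h1 : Gm v m b z := by
    by_contra hn
    obtain ⟨h0, hlt⟩ := not_or.1 hn
    have h2 : Gm v m (k * (m * v.ord z) + 1) (∑ i : Fin k, c i * z ^ (i : ℕ)) := by
      refine Gm.sum fun i _ => (hc i).mul (Gm.pow (n := m * v.ord z) (Or.inr le_rfl) i) ?_
      have hi : ((i : ℕ) : ℤ) + 1 ≤ k := by exact_mod_cast i.2
      nlinarith
    rw [eq_neg_of_add_eq_zero_right hz] at h2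
    have h3 := h2.resolve_left (neg_ne_zero.2 (pow_ne_zero k h0))
    rw [v.ord_neg, v.ord_pow h0] at h3
    nlinarith
  refine Gm.add ((Gm.cast m k).mul (h1.pow (k - 1)) ?_) (Gm.sum fun i _ => ?_)
  · rw [Nat.cast_sub hk]; simp
  · rcases Nat.eq_zero_or_pos i with h | h
    · exact Or.inl (by simp [h])
    · refine (hc i).mul ((Gm.cast m i).mul (h1.pow ((i : ℕ) - 1)) le_rfl) ?_
      rw [Nat.cast_sub h]; push_cast; linarith

end Lin

section Der

theorem leib_one {R : Type} [CommRing R] {d : R →+ R} (h : Leib d) : d 1 = 0 := by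
  simpa using h 1 1

theorem leib_div {κ : Type} [Field κ] {D : κ →+ κ} (h : Leib D) (p q : κ) (hq : q ≠ 0) :
    D (p / q) = (D p * q - p * D q) / q ^ 2 := by
  have h1 := h (p / q) q
  rw [div_mul_cancel₀ _ hq] at h1
  rw [h1]
  field_simp
  ring

variable {L σ : Type} [Field L]

/-- a map of the coefficients, applied to every coefficient -/
def cw (d : L →+ L) : MvPowerSeries σ L →+ MvPowerSeries σ L :=
  AddMonoidHom.mk' (fun g α => d (coeff α g)) fun g h => by
    ext α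
    exact (congrArg d (map_add (coeff α) g h)).trans (map_add d _ _)

theorem coeff_cw (d : L →+ L) (g : MvPowerSeries σ L) (α : σ →₀ ℕ) :
    coeff α (cw d g) = d (coeff α g) := rfl

theorem leib_cw {d : L →+ L} (hd : Leib d) : Leib (cw (σ := σ) d) := by
  classical
  intro g h
  ext α
  rw [mul_comm h, map_add, coeff_cw, coeff_mul, coeff_mul, coeff_mul, map_sum,
    ← Finset.sum_add_distrib]
  exact Finset.sum_congr rfl fun p _ => by rw [hd, coeff_cw, coeff_cw, mul_comm (d _)]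

theorem cw_C (d : L →+ L) (c : L) : cw d (C c : MvPowerSeries σ L) = C (d c) := by
  classical
  ext α
  rw [coeff_cw, coeff_C, coeff_C]
  split_ifs <;> simp

theorem cw_X {d : L →+ L} (hd : Leib d) (i : σ) : cw d (X i : MvPowerSeries σ L) = 0 := by
  classical
  ext α
  rw [coeff_cw, coeff_X]
  split_ifs <;> simp [leib_one hd]

theorem word_le (w : σ → ℕ) (g h : MvPowerSeries σ L)
    (H : ∀ α, coeff α g = 0 → coeff α h = 0) : g.weightedOrder w ≤ h.weightedOrder w :=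
  le_weightedOrder w fun α hα => H α (coeff_eq_zero_of_lt_weightedOrder w hα)

/-- a diagonal vector field -/
noncomputable def dg {n : ℕ} (w : Fin n → L) (e : Fin n → σ) :
    MvPowerSeries σ L →+ MvPowerSeries σ L :=
  AddMonoidHom.mk' (fun g => ∑ i, C (w i) * X (e i) * pderiv L (e i) g) fun g h => by
    simp [mul_add, Finset.sum_add_distrib]

theorem dg_apply {n : ℕ} (w : Fin n → L) (e : Fin n → σ) (g : MvPowerSeries σ L) :
    dg w e g = ∑ i, C (w i) * X (e i) * pderiv L (e i) g := rfl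

theorem leib_dg {n : ℕ} (w : Fin n → L) (e : Fin n → σ) : Leib (dg w e) := by
  intro g h
  simp only [dg_apply, Derivation.leibniz, smul_eq_mul, Finset.mul_sum, ← Finset.sum_add_distrib]
  exact Finset.sum_congr rfl fun i _ => by ring

theorem coeff_dg {n : ℕ} (w : Fin n → L) (e : Fin n → σ) (g : MvPowerSeries σ L) (α : σ →₀ ℕ)
    (h : coeff α g = 0) : coeff α (dg w e g) = 0 := by
  classical
  rw [dg_apply, map_sum]
  refine Finset.sum_eq_zero fun i _ => ?_
  rw [mul_assoc, coeff_C_mul, X_def, coeff_monomial_mul]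
  split_ifs with hle
  · rw [coeff_pderiv, tsub_add_cancel_of_le hle, h]; simp
  · simp

variable {n k : ℕ}

theorem d_zero (p3 : S_P3) (a : MvPowerSeries (Fin n) L) :
    pderiv L 0 (rename Fin.succ a : MvPowerSeries (Fin (n + 1)) L) = 0 := by
  rw [(p3.1 L (Fin n) (Fin (n + 1)) (rename Fin.succ)).2.2.1]
  exact Finset.sum_eq_zero fun i _ => by
    rw [rename_X, pderiv_X_of_ne (Fin.succ_ne_zero i), mul_zero]

theorem d_succ (p3 : S_P3) (a : MvPowerSeries (Fin n) L) (j : Fin n) :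
    pderiv L j.succ (rename Fin.succ a : MvPowerSeries (Fin (n + 1)) L) =
      rename Fin.succ (pderiv L j a) := by
  rw [(p3.1 L (Fin n) (Fin (n + 1)) (rename Fin.succ)).2.2.1, Finset.sum_eq_single j]
  · rw [rename_X, pderiv_X_self, mul_one]
  · intro i _ hi
    rw [rename_X, pderiv_X_of_ne fun h => hi (Fin.succ_injective _ h), mul_zero]
  · simp

theorem dg_rename (p3 : S_P3) (w : Fin n → L) (a : MvPowerSeries (Fin n) L) :
    dg w Fin.succ (rename Fin.succ a) = rename Fin.succ (dg w id a) := by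
  simp [dg_apply, d_succ p3]

theorem dg_zero (w : Fin n → L) : dg w Fin.succ (X 0 : MvPowerSeries (Fin (n + 1)) L) = 0 := by
  rw [dg_apply]
  exact Finset.sum_eq_zero fun i _ => by
    rw [pderiv_X_of_ne (Fin.succ_ne_zero i).symm, mul_zero]

/-- a derivation that kills the variables acts on the coefficients -/
theorem exists_cw (p1 : S_P1) (p3 : S_P3)
    (δ : MvPowerSeries (Fin (n + 1)) L →+ MvPowerSeries (Fin (n + 1)) L) (hδ : Leib δ)
    (hC : ∀ c, ∃ c', δ (C c) = C c') (hX : ∀ i, δ (X i) = 0) :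
    ∃ d : L →+ L, Leib d ∧ ∀ a, δ (rename Fin.succ a) = rename Fin.succ (cw d a) := by
  let d : L →+ L := AddMonoidHom.mk' (fun c => constantCoeff (δ (C c))) fun a b => by simp
  have hd : ∀ c, δ (C c) = C (d c) := fun c => by
    obtain ⟨c', h⟩ := hC c
    simp [d, h]
  have hl : Leib d := fun a b => by
    have := congrArg constantCoeff (hδ (C a) (C b))
    rw [← map_mul, hd, hd, hd] at this
    simpa using this
  refine ⟨d, hl, fun a => ?_⟩
  have := p1 L (Fin n) (MvPowerSeries (Fin (n + 1)) L)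
    (rename Fin.succ : MvPowerSeries (Fin n) L →ₐ[L] _).toRingHom
    (AddMonoidHom.mk' (fun a => δ (rename Fin.succ a) - rename Fin.succ (cw d a)) fun a b => by
      simp only [map_add]; ring) (IsLocalRing.maximalIdeal _)
    (fun g h => by
      simp only [AddMonoidHom.mk'_apply, map_mul, hδ _ _, leib_cw hl _ _, map_add,
        AlgHom.toRingHom_eq_coe, RingHom.coe_coe]
      ring)
    (fun c => by simp [hd, cw_C])
    (fun i => by
      rw [← pow_one (IsLocalRing.maximalIdeal _), p3.2, Nat.cast_one,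
        one_le_order_iff_constCoeff_eq_zero]
      simp)
    (fun s hs => order_eq_top_iff.1 (ENat.eq_top_iff_forall_ge.2 fun r => (p3.2 _ _ s r).1 (hs r))) a
  rw [← sub_eq_zero]
  simpa [hX, cw_X hl] using this

variable {κ : Type} [Field κ]

/-- chain rule for the extension of a field that kills the first variable -/
theorem chain_ext (p3 : S_P3) (c : Fin k → MvPowerSeries (Fin n) L)
    (π : MvPowerSeries (Fin (n + 1)) L →+* κ) (hW : π (wpoly c) = 0)
    (hdiv : ∀ h, ∃ (q : MvPowerSeries (Fin (n + 1)) L) (r : Fin k → MvPowerSeries (Fin n) L),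
      h = q * wpoly c + ∑ i : Fin k, rename Fin.succ (r i) * X 0 ^ (i : ℕ))
    (D : MvPowerSeries (Fin (n + 1)) L →+ MvPowerSeries (Fin (n + 1)) L) (D' : κ →+ κ)
    (hD : Leib D) (hD' : Leib D') (hz : D (X 0) = 0)
    (he : ∀ a, D' (π (rename Fin.succ a)) = π (D (rename Fin.succ a))) (g) :
    D' (π g) = π (D g) + π (pderiv L 0 g) * D' (π (X 0)) := by
  let F : MvPowerSeries (Fin (n + 1)) L →+ κ := AddMonoidHom.mk'
    (fun g => D' (π g) - (π (D g) + π (pderiv L 0 g) * D' (π (X 0)))) fun a b => by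
      simp only [map_add]; ring
  have hF : ∀ g h, F (g * h) = π g * F h + π h * F g := fun g h => by
    simp only [F, AddMonoidHom.mk'_apply, map_mul, hD _ _, hD' _ _, map_add, Derivation.leibniz,
      smul_eq_mul]
    ring
  have h1 : ∀ a, F (rename Fin.succ a) = 0 := fun a => by simp [F, he, d_zero p3]
  have h2 : F (X 0) = 0 := by simp [F, hz]
  have h3 : ∀ i : ℕ, F (X 0 ^ i) = 0 := fun i => by
    induction i with
    | zero => simpa using h1 1
    | succ i ih => rw [pow_succ, hF, ih, h2]; simp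
  have h4 : ∀ r : Fin k → MvPowerSeries (Fin n) L,
      F (∑ i : Fin k, rename Fin.succ (r i) * X 0 ^ (i : ℕ)) = 0 := fun r => by
    rw [map_sum]
    exact Finset.sum_eq_zero fun i _ => by rw [hF, h1, h3]; simp
  have h5 : F (wpoly c) = 0 := by rw [wpoly, map_add, h3, h4, add_zero]
  obtain ⟨q, r, rfl⟩ := hdiv g
  refine sub_eq_zero.1 (show F _ = 0 from ?_)
  rw [map_add, hF, h4, h5, hW]
  simp

/-- a branch of the hypersurface with its valuation -/
theorem setup [CharZero L] (wp : S_WP) (extv : S_EXTV) (c : Fin k → MvPowerSeries (Fin 2) L)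
    (hk : 0 < k) (hc : ∀ i, constantCoeff (c i) = 0) (w : Fin 2 → ℕ) (hw : ∀ i, 0 < w i) :
    ∃ (κ : Type) (_ : Field κ) (π : MvPowerSeries (Fin 3) L →+* κ) (v : DV κ) (e m : ℕ),
      0 < e ∧ 0 < m ∧ π (wpoly c) = 0 ∧ (∀ g, v.Ge 0 (π g)) ∧
      (∀ a : MvPowerSeries (Fin 2) L, a ≠ 0 → π (rename Fin.succ a) ≠ 0 ∧
        m * v.ord (π (rename Fin.succ a)) = e * (a.weightedOrder w).toNat) ∧
      (∀ D₀ : MvPowerSeries (Fin 2) L →+ MvPowerSeries (Fin 2) L, Leib D₀ →
        (∀ g α, coeff α g = 0 → coeff α (D₀ g) = 0) → ∃ D : κ →+ κ, Leib D ∧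
        (∀ a, D (π (rename Fin.succ a)) = π (rename Fin.succ (D₀ a))) ∧
        ∀ y, v.Ge 0 y → v.Ge 0 (D y)) ∧
      ∀ D : κ →+ κ, Leib D → (∀ a, D (π (rename Fin.succ a)) =
        π (rename Fin.succ (dg (fun i => (w i : L)) id a))) → ∀ y, v.Ge 0 y → v.Ge 1 (D y) := by
  obtain ⟨hdiv, huniq⟩ := (wp L 2).2.1 k c hc
  let ρ : MvPowerSeries (Fin 2) L →+* MvPowerSeries (Fin 3) L :=
    (rename Fin.succ : MvPowerSeries (Fin 2) L →ₐ[L] _).toRingHom
  obtain ⟨P, hP, hWP, hdis⟩ := (Ideal.span {wpoly c}).exists_le_prime_disjoint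
    ((nonZeroDivisors (MvPowerSeries (Fin 2) L)).map ρ) (by
      refine Set.disjoint_left.2 ?_
      rintro _ hx ⟨a, ha, rfl⟩
      have h1 := huniq (Pi.single ⟨0, hk⟩ a) (by
        rw [Finset.sum_eq_single ⟨0, hk⟩ (fun i _ hi => by simp [Pi.single_eq_of_ne hi])
          (by simp)]
        simpa using (Ideal.mem_span_singleton.1 hx : wpoly c ∣ rename Fin.succ a))
      exact nonZeroDivisors.ne_zero ha (by simpa using congrFun h1 ⟨0, hk⟩))
  let j := (Ideal.Quotient.mk P).comp ρ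
  have hj : ∀ a, j a = 0 → a = 0 := fun a ha => by
    by_contra h
    exact Set.disjoint_left.1 hdis (Ideal.Quotient.eq_zero_iff_mem.1 ha)
      ⟨a, mem_nonZeroDivisors_of_ne_zero h, rfl⟩
  have hW : Ideal.Quotient.mk P (wpoly c) = 0 :=
    Ideal.Quotient.eq_zero_iff_mem.2 (hWP (Ideal.mem_span_singleton_self _))
  have hfin : j.Finite := by
    let _ := j.toAlgebra
    refine ⟨Submodule.fg_def.2 ⟨Set.range fun i : Fin k => Ideal.Quotient.mk P (X 0 ^ (i : ℕ)),
      Set.finite_range _, top_unique fun s _ => ?_⟩⟩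
    obtain ⟨g, rfl⟩ := Ideal.Quotient.mk_surjective s
    obtain ⟨q, r, rfl⟩ := hdiv g
    rw [map_add, map_mul, hW, mul_zero, zero_add, map_sum]
    refine Submodule.sum_mem _ fun i _ => ?_
    rw [map_mul]
    exact Submodule.smul_mem _ (r i) (Submodule.subset_span ⟨i, rfl⟩)
  obtain ⟨hext, v, e, m, he, hm, h0, hord, hpres, heul⟩ :=
    extv L (Fin 2) _ j ((injective_iff_map_eq_zero j).2 hj) hfin w hw
  let π := (algebraMap _ (FractionRing (MvPowerSeries (Fin 3) L ⧸ P))).comp (Ideal.Quotient.mk P)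
  refine ⟨_, inferInstance, π, v, e, m, he, hm, by simp [π, hW], fun g => h0 _,
    fun a ha => ⟨fun h => ha (hj a ((IsFractionRing.to_map_eq_zero_iff
      (K := FractionRing (MvPowerSeries (Fin 3) L ⧸ P))).1 h)), hord a ha⟩, fun D₀ hD₀ hs => ?_, fun D hD hE y hy => ?_⟩
  · obtain ⟨D, hD, hE⟩ := hext D₀ hD₀
    exact ⟨D, hD, hE, hpres D D₀ hD hE fun g => word_le w _ _ (hs g)⟩
  · by_cases hy0 : y = 0
    · simp [hy0, DV.ge_zero]
    have h1 := heul D hD (fun g => (hE g).trans (congrArg (fun t => π (rename Fin.succ t))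
      (by simp [dg_apply, vf, Fin.sum_univ_two]))) y hy0
    have hu : IsUnit (C (e : L) : MvPowerSeries (Fin 3) L) :=
      (Ne.isUnit (by exact_mod_cast he.ne')).map C
    obtain ⟨h2, h3⟩ := ord_unit (v := v) π (fun g => h0 _) hu
    rw [map_natCast, map_natCast] at h2 h3
    have h4 : v.Ge 1 (y * ((m : _) * (v.ord y : _) / (e : _))) := by
      rcases (hy.le hy0).eq_or_lt with h | h
      · rw [← h]; simp [DV.ge_zero]
      · exact DV.Ge.mul_right (Or.inr h)
          (((DV.ge_natCast m).mul_left (DV.ge_intCast _)).div_unit h2 h3)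
    have h5 := (hy.mul_left h1).add h4
    rwa [mul_sub, sub_add_cancel, mul_div_cancel₀ _ hy0] at h5

end Der

section Main

variable {ι J L κ : Type} [Fintype ι] [DecidableEq ι] [Fintype J] [Field L] [Algebra ℂ L]
  [Field κ] {Q : Ideal (PS ι)} {τ : PS ι →+* MvPowerSeries (Fin 3) L}
  {δ : J → MvPowerSeries (Fin 3) L →+ MvPowerSeries (Fin 3) L}

/-- the matrix of the fields -/
theorem fields (hT : Tay Q τ δ) (π : MvPowerSeries (Fin 3) L →+* κ) (a₁ a₂ : L)
    (D : Fin 3 ⊕ J → κ →+ κ)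
    (hD : ∀ b g, D b (π g) = π (Sum.elim (fun i => dg (![0, ![a₁, a₂], ![0, 1]] i) Fin.succ) δ b g) +
      π (pderiv L 0 g) * D b (π (X 0))) :
    ∃ (M : Matrix ι ι κ) (e : ι ≃ Fin 3 ⊕ J) (b : MvPowerSeries (Fin 3) L), IsUnit b ∧
      M.det = π (C a₁ * X 1 * X 2) * π b ∧
      ∀ h, (M *ᵥ fun k => π (τ (pderiv ℂ k h))) (e.symm (.inl 0)) = π (pderiv L 0 (τ h)) ∧
        ∀ a, a ≠ e.symm (.inl 0) → (M *ᵥ fun k => π (τ (pderiv ℂ k h))) a = D (e a) (π (τ h)) := by
  classical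
  obtain ⟨e, he⟩ := hT.det
  let T : Matrix (Fin 3 ⊕ J) (Fin 3 ⊕ J) κ := fromBlocks
    !![1, 0, 0; D (.inl 1) (π (X 0)), π (C a₁ * X 1), π (C a₂ * X 2);
      D (.inl 2) (π (X 0)), 0, π (X 2)] 0
    (of fun j i => if i = 0 then D (.inr j) (π (X 0)) else 0) 1
  let N : Matrix ι ι (MvPowerSeries (Fin 3) L) := of fun a b : ι =>
    Sum.elim (fun i => pderiv L i (τ (X b))) (fun j => δ j (τ (X b))) (e a)
  refine ⟨T.submatrix e e * N.map π, e, N.det, he, ?_, fun h => ?_⟩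
  · rw [det_mul, det_submatrix_equiv_self, det_fromBlocks_zero₁₂, π.map_det N, det_fin_three]
    simp
  have h1 : (N.map π *ᵥ fun k => π (τ (pderiv ℂ k h))) = fun a =>
      π (Sum.elim (fun i => pderiv L i (τ h)) (fun j => δ j (τ h)) (e a)) := by
    ext a
    simp only [mulVec, dotProduct, map_apply, N, of_apply]
    rcases e a with i | j
    · simp only [Sum.elim_inl, hT.chain1 i h, map_sum, map_mul, mul_comm]
    · simp only [Sum.elim_inr, hT.chain2 j h, map_sum, map_mul, mul_comm]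
  have h2 : ∀ a, ((T.submatrix e e * N.map π) *ᵥ fun k => π (τ (pderiv ℂ k h))) a =
      ∑ b, T (e a) b * π (Sum.elim (fun i => pderiv L i (τ h)) (fun j => δ j (τ h)) b) := by
    intro a
    rw [← mulVec_mulVec, h1]
    exact e.sum_comp fun b =>
      T (e a) b * π (Sum.elim (fun i => pderiv L i (τ h)) (fun j => δ j (τ h)) b)
  refine ⟨?_, fun a ha => ?_⟩
  · rw [h2, e.apply_symm_apply]
    simp [T, Fintype.sum_sum_type, Fin.sum_univ_three]
  · rw [h2, hD]
    rw [Ne, e.eq_symm_apply] at ha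
    generalize e a = b at ha ⊢
    rcases b with i | j
    · fin_cases i
      · exact absurd rfl ha
      · simp [T, Fintype.sum_sum_type, Fin.sum_univ_three, dg_apply]
        ring
      · simp [T, Fintype.sum_sum_type, Fin.sum_univ_three, dg_apply]
        ring
    · simp [T, Fintype.sum_sum_type, one_apply]
      ring

/-- the kernel is generated by the equation -/
theorem ker_eq (nag : S_NAG) {f : PS ι} (hf : Prime f) (φ : PS ι →+* κ) (h0 : φ f = 0)
    (M : Matrix ι ι κ) (hM : M.det ≠ 0) (i₀ : ι)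
    (hk : ∀ h, φ h = 0 → ∀ a, a ≠ i₀ → (M *ᵥ fun k => φ (pderiv ℂ k h)) a = 0) (h : PS ι) :
    φ h = 0 ↔ f ∣ h := by
  refine ⟨fun hh => ?_, fun ⟨t, ht⟩ => by rw [ht, map_mul, h0, zero_mul]⟩
  obtain ⟨u, S, hdet, hS, hgen⟩ := nag ι (RingHom.ker φ) (RingHom.ker_isPrime φ)
  obtain ⟨g, hg, hle⟩ : ∃ g, φ g = 0 ∧ Ideal.span (u '' S) ≤ Ideal.span {g} := by
    rcases S.eq_empty_or_nonempty with rfl | ⟨i, hi⟩
    · exact ⟨0, map_zero _, by simp⟩
    refine ⟨u i, hS i hi, Ideal.span_mono ?_⟩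
    rintro _ ⟨j, hj, rfl⟩
    rw [two_rows M (φ.mapMatrix (of fun i j => pderiv ℂ j (u i))) i₀ j i hM
      (by rw [← φ.map_det]; exact hdet) (hk _ (hS j hj)) (hk _ (hS i hi))]
    rfl
  have hz : ∀ s, f ∣ s → s ∈ RingHom.ker φ := fun s ⟨t, ht⟩ => by
    rw [RingHom.mem_ker, ht, map_mul, h0, zero_mul]
  obtain ⟨s, hs, h1⟩ := hgen f h0
  obtain ⟨t, ht⟩ := Ideal.mem_span_singleton.1 (hle h1)
  have h2 : f ∣ g := by
    refine (hf.dvd_or_dvd (ht ▸ Dvd.intro_left s rfl : f ∣ g * t)).resolve_right ?_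
    rintro ⟨t', rfl⟩
    refine hs ?_
    rw [mul_right_cancel₀ hf.ne_zero (ht.trans (by ring) : s * f = g * t' * f), RingHom.mem_ker,
      map_mul, hg, zero_mul]
  obtain ⟨s', hs', h3⟩ := hgen h hh
  exact (hf.dvd_or_dvd (h2.trans (Ideal.mem_span_singleton.1 (hle h3)))).resolve_left
    fun h4 => hs' (hz _ h4)

end Main

end VT0

open VT0 in
theorem vt0 (p1 : S_P1) (p3 : S_P3) (wp : S_WP) (nag : S_NAG) (extv : S_EXTV) (rad : S_RAD)
    (kae : S_KAE) : S_VT0 := by
  intro ι _ _ f Θ Q J L _ _ _ τ δ hf hΘ hE _ _ hT hδ u k a₁ a₂ a₃ c hk h1 h2 h3 hu hc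
  have : CharZero L := charZero_of_injective_algebraMap (algebraMap ℂ L).injective
  have hc0 : ∀ i, constantCoeff (c i) = 0 := fun i =>
    coeff_eq_zero_of_lt_weightedOrder ![a₁, a₂] (d := 0) (lt_of_lt_of_le (by
      rw [map_zero]; exact_mod_cast Nat.mul_pos (Nat.sub_pos_of_lt i.2) h3) (hc i))
  obtain ⟨κ, _, π, v, e, m, he, hm, hW, h0, hord, hext, heul⟩ :=
    setup wp extv c hk hc0 ![a₁, a₂] (by intro i; fin_cases i <;> assumption)
  have hdiv := ((wp L 2).2.1 k c hc0).1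
  have hD : ∀ b : Fin 3 ⊕ J, ∃ D : κ →+ κ, Leib D ∧ (∀ y, v.Ge 0 y → v.Ge 0 (D y)) ∧
      (b = .inl 1 → ∀ y, v.Ge 0 y → v.Ge 1 (D y)) ∧ ∀ g, D (π g) =
        π (Sum.elim (fun i => dg (![0, ![(a₁ : L), a₂], ![0, 1]] i) Fin.succ) δ b g) +
          π (pderiv L 0 g) * D (π (X 0)) := by
    rintro (i | j)
    · obtain ⟨D, hD, hE, hV⟩ := hext (dg (![0, ![(a₁ : L), a₂], ![0, 1]] i) id) (leib_dg _ _)
        (coeff_dg _ _)
      refine ⟨D, hD, hV, fun hi => heul D hD fun a => ?_, chain_ext p3 c π hW hdiv _ D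
        (leib_dg _ _) hD (dg_zero _) fun a => by rw [hE, Sum.elim_inl, dg_rename p3]⟩
      rw [hE, Sum.inl_injective hi]
      simp [dg_apply]
    · obtain ⟨d, hd, hδ'⟩ := exists_cw p1 p3 (δ j) (hT.leib j) (hT.const j) (hδ j)
      obtain ⟨D, hD, hE, hV⟩ := hext (cw d) (leib_cw hd) fun g α h => by rw [coeff_cw, h, map_zero]
      exact ⟨D, hD, hV, fun hi => absurd hi (by simp), chain_ext p3 c π hW hdiv _ D (hT.leib j) hD
        (hδ j 0) fun a => by rw [hE, Sum.elim_inr, hδ']⟩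
  choose D hL hV hV1 hD using hD
  obtain ⟨M, ε, b, hb, hdet, hM⟩ := fields hT π a₁ a₂ D hD
  let _ : Algebra ℂ κ := (π.comp (C.comp (algebraMap ℂ L))).toAlgebra
  let φ : PS ι →ₐ[ℂ] κ :=
    { π.comp τ with commutes' := fun r => congrArg π (hT.alg r) }
  have hφ : ∀ g, φ g = π (τ g) := fun _ => rfl
  have hX : ∀ i : Fin 2, π (X i.succ) ≠ 0 ∧ m * v.ord (π (X i.succ)) = e * ![a₁, a₂] i := by
    intro i
    have := hord (X i) fun h => by simpa [h] using coeff_index_single_self_X (R := L) i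
    rw [rename_X, X_def i, weightedOrder_monomial_of_ne_zero _ one_ne_zero] at this
    simpa [Finsupp.weight_single] using this
  obtain ⟨hb0, hb1⟩ := ord_unit π h0 hb
  obtain ⟨ha0, ha1⟩ := ord_unit π h0 ((Ne.isUnit (Nat.cast_ne_zero.2 h1.ne' : (a₁ : L) ≠ 0)).map C)
  obtain ⟨hu0, hu1⟩ := ord_unit π h0 u.isUnit
  obtain ⟨hx0, hx1⟩ : π (X 1) ≠ 0 ∧ m * v.ord (π (X 1)) = e * a₁ := hX 0
  obtain ⟨hy0, hy1⟩ : π (X 2) ≠ 0 ∧ m * v.ord (π (X 2)) = e * a₂ := hX 1
  rw [map_mul, map_mul] at hdet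
  have hM0 : M.det ≠ 0 := hdet ▸ mul_ne_zero (mul_ne_zero (mul_ne_zero ha0 hx0) hy0) hb0
  have hM1 : m * v.ord M.det = e * (a₁ + a₂) := by
    rw [hdet, v.ord_mul _ _ (mul_ne_zero (mul_ne_zero ha0 hx0) hy0) hb0,
      v.ord_mul _ _ (mul_ne_zero ha0 hx0) hy0, v.ord_mul _ _ ha0 hx0, ha1, hb1]
    linarith
  have hf0 : π (τ f) = 0 := by rw [hu, map_mul, hW, mul_zero]
  have hker : KerIs f φ := ker_eq nag hf (π.comp τ) hf0 M hM0 (ε.symm (.inl 0)) fun h hh a ha =>
    ((hM h).2 a ha).trans (by rw [show π (τ h) = 0 from hh, map_zero])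
  have htan : ∀ a, a ≠ ε.symm (.inl 0) → ∑ k, φ (pderiv ℂ k f) * M a k = 0 := fun a ha => by
    have := (hM f).2 a ha
    rw [hf0, map_zero] at this
    simpa only [mulVec, dotProduct, mul_comm, hφ] using this
  have hω : ∑ i, M (ε.symm (.inl 0)) i * φ (pderiv ℂ i f) = π u * π (pderiv L 0 (wpoly c)) := by
    refine (hM f).1.trans ?_
    rw [hu, Derivation.leibniz, map_add, smul_eq_mul, smul_eq_mul, map_mul, map_mul, hW]
    ring
  have hω0 : π (pderiv L 0 (wpoly c)) ≠ 0 := by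
    intro h
    have h4 : (fun k => π (τ (pderiv ℂ k f))) = 0 := by
      refine eq_zero_of_mulVec_eq_zero hM0 (funext fun a => ?_)
      by_cases ha : a = ε.symm (.inl 0)
      · rw [ha]
        exact hω.trans (by rw [h, mul_zero]; rfl)
      · rw [(hM f).2 a ha, hf0, map_zero]; rfl
    choose t ht using fun k => (hker _).1 (congrFun h4 k)
    refine hf.ne_zero (rad ι ⊥ f t Ideal.isPrime_bot ?_ fun i => by rw [ht i, sub_self]; rfl)
    by_contra h5
    exact hf.not_isUnit (isUnit_iff_constantCoeff.2 (Ne.isUnit h5))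
  obtain ⟨hξ, hK⟩ := (kae ι f Θ hf hΘ).2 κ φ hker
  obtain ⟨S, _, c', p, q, p', q', hS, hform⟩ := (hK (vs v)).1 (hE κ φ hker (vs v) fun g => h0 _)
  have hΞ : ∀ a, ∃ ξ : ι → κ, a ≠ ε.symm (.inl 0) → ∀ k, M a k = ∑ i, ξ i * φ (Θ i k) := by
    intro a
    by_cases ha : a = ε.symm (.inl 0)
    · exact ⟨0, fun h => absurd ha h⟩
    · obtain ⟨ξ, h⟩ := hξ (M a) (htan a ha)
      exact ⟨ξ, fun _ => h⟩
  choose Ξ hΞ using hΞ
  have hdq : ∀ a, a ≠ ε.symm (.inl 0) → ∀ r s, φ s ≠ 0 →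
      dq φ r s ⬝ᵥ M a = D (ε a) (φ r / φ s) := fun a ha r s hs => by
    rw [leib_div (hL _) _ _ hs, hφ r, hφ s, ← (hM r).2 a ha, ← (hM s).2 a ha]
    simp only [dq, mulVec, dotProduct, hφ, Finset.sum_mul, Finset.mul_sum,
      ← Finset.sum_sub_distrib, Finset.sum_div]
    exact Finset.sum_congr rfl fun i _ => by ring
  have hG : ∀ (n : ℤ) a b, a ≠ ε.symm (.inl 0) → b ≠ ε.symm (.inl 0) →
      (∀ y, v.Ge 0 y → v.Ge n (D (ε a) y)) → v.Ge n (∑ i, Ξ b i * M a i) := by
    intro n a b ha hb hn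
    rw [hform (Ξ b) (M b) (M a) (hΞ b hb) (htan a ha)]
    refine DV.Ge.sum fun s _ => ?_
    obtain ⟨s1, s2, s3, s4, s5⟩ := hS s
    rw [hdq a ha _ _ s2, hdq a ha _ _ s3, hdq b hb _ _ s2, hdq b hb _ _ s3]
    exact DV.Ge.mul_left s1 (((hV _ _ s4).mul_left (hn _ s5)).sub ((hV _ _ s5).mul_left (hn _ s4)))
  obtain ⟨γ, hγ, hadj⟩ := hΘ.nd
  have hne : ε.symm (.inl 1) ≠ ε.symm (.inl 0) := by simp
  have hlt := core (v := v) (φ.mapMatrix Θ) M (of Ξ) (fun i => φ (pderiv ℂ i f)) (φ γ) _ _ hne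
    (fun i j => by
      have := (hker _).2 (hadj i j)
      rw [map_sub, map_mul, map_mul, sub_eq_zero] at this
      rw [← AlgHom.map_adjugate]
      exact this)
    (ord_unit π h0 (hγ.map τ)).2 hM0 hΞ (fun a b ha hb => hG 0 a b ha hb (hV _))
    fun b hb => hG 1 _ b hne hb (hV1 _ (ε.apply_symm_apply _))
  rw [hω, v.ord_mul _ _ hu0 hω0, hu1, zero_add] at hlt
  have hroot := root_bound (v := v) (m := m) (a₃ * e) (π (X 0))
    (fun i => π (rename Fin.succ (c i))) (fun i => by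
      by_cases hi : c i = 0
      · exact Or.inl (by simp [hi])
      refine Or.inr ?_
      have h5 := ENat.toNat_le_toNat (hc i) (mt (weightedOrder_eq_top_iff _).1 hi)
      rw [ENat.toNat_natCast] at h5
      zify [i.2.le] at h5
      rw [(hord _ hi).2]
      nlinarith) (by simpa [wpoly] using hW) hk
  have hder : π (pderiv L 0 (wpoly c)) = k * π (X 0) ^ (k - 1) +
      ∑ i : Fin k, π (rename Fin.succ (c i)) * ((i : ℕ) * π (X 0) ^ ((i : ℕ) - 1)) := by
    simp [wpoly, pderiv_pow, d_zero p3, -Derivation.leibniz_pow]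
  rw [← hder] at hroot
  have h6 := hroot.resolve_left hω0
  have h7 : (m : ℤ) * v.ord (π (pderiv L 0 (wpoly c))) < m * v.ord M.det :=
    mul_lt_mul_of_pos_left hlt (by exact_mod_cast hm)
  zify [hk]
  have h8 : (0 : ℤ) < e := by exact_mod_cast he
  exact lt_of_mul_lt_mul_left (a := (e : ℤ)) (by linarith) h8.le

end Pool.Agent.MP_51db15_ag.Hy
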