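import Pool.Agent.MP_51db15_ag.Hy.Rows

/-! Weierstrass preparation and division, generic coordinates. -/

namespace Pool.Agent.MP_51db15_ag.Hy

open MvPowerSeries Matrix

namespace WP

variable {F : Type} [Field F]

lemma mem_max {ι : Type} (g : MvPowerSeries ι F) :
    g ∈ IsLocalRing.maximalIdeal (MvPowerSeries ι F) ↔ constantCoeff g = 0 := by
  rw [IsLocalRing.mem_maximalIdeal, mem_nonunits_iff, MvPowerSeries.isUnit_iff_constantCoeff,
    isUnit_iff_ne_zero, not_not]

lemma cc_coeff {n : ℕ} (g : MvPowerSeries (Fin (n + 1)) F) (i : ℕ) :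
    constantCoeff (PowerSeries.coeff i (MvPowerSeries.finSuccEquiv F n g)) =
      coeff (Finsupp.single 0 i) g := by
  rw [← Finsupp.cons_zero_eq_single_zero, ← coeff_coeff_finSuccEquiv,
    coeff_zero_eq_constantCoeff_apply]

lemma ex_sum : ∀ (n : ℕ) (g : MvPowerSeries (Fin n) F), constantCoeff g = 0 →
    ∃ a : Fin n → MvPowerSeries (Fin n) F, g = ∑ i, a i * X i := by
  intro n
  induction n with
  | zero =>
    intro g hg
    refine ⟨0, ?_⟩
    ext d
    rw [Subsingleton.elim d 0]
    simpa using hg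
  | succ n ih =>
    intro g hg
    have h0 : constantCoeff (PowerSeries.constantCoeff (MvPowerSeries.finSuccEquiv F n g)) = 0 := by
      rw [← PowerSeries.coeff_zero_eq_constantCoeff_apply, cc_coeff]
      simpa using hg
    obtain ⟨a, ha⟩ := ih _ h0
    have h1 := PowerSeries.eq_shift_mul_X_add_const (MvPowerSeries.finSuccEquiv F n g)
    rw [ha] at h1
    refine ⟨Fin.cons ((MvPowerSeries.finSuccEquiv F n).symm (PowerSeries.mk fun p =>
      PowerSeries.coeff (p + 1) (MvPowerSeries.finSuccEquiv F n g)))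
      fun i => (MvPowerSeries.finSuccEquiv F n).symm (PowerSeries.C (a i)), ?_⟩
    apply (MvPowerSeries.finSuccEquiv F n).injective
    rw [Fin.sum_univ_succ]
    simp only [Fin.cons_zero, Fin.cons_succ, map_add, map_mul, map_sum, AlgEquiv.apply_symm_apply,
      finSuccEquiv_X_zero, finSuccEquiv_X_succ]
    simpa only [map_sum, map_mul] using h1

lemma max_eq (n : ℕ) : IsLocalRing.maximalIdeal (MvPowerSeries (Fin n) F) =
    Ideal.span (Set.range X) := by
  apply le_antisymm
  · intro g hg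
    obtain ⟨a, rfl⟩ := ex_sum n g ((mem_max g).1 hg)
    exact Ideal.sum_mem _ fun i _ => Ideal.mul_mem_left _ _ (Ideal.subset_span ⟨i, rfl⟩)
  · rw [Ideal.span_le]
    rintro _ ⟨i, rfl⟩
    exact (mem_max _).2 (constantCoeff_X i)

lemma complete (n : ℕ) : IsAdicComplete (IsLocalRing.maximalIdeal (MvPowerSeries (Fin n) F))
    (MvPowerSeries (Fin n) F) := by
  rw [max_eq]
  infer_instance

lemma E_rename (p3 : S_P3) {n : ℕ} (c : MvPowerSeries (Fin n) F) :
    MvPowerSeries.finSuccEquiv F n (rename Fin.succ c) = PowerSeries.C c := by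
  have h := (p3.1 F (Fin n) (Fin (n + 1)) (rename Fin.succ)).2.2.2
    (((MvPowerSeries.finSuccEquiv F n).symm : _ →ₐ[F] _).comp
      (IsScalarTower.toAlgHom F (MvPowerSeries (Fin n) F) (PowerSeries (MvPowerSeries (Fin n) F))))
    (fun i => by
      apply (MvPowerSeries.finSuccEquiv F n).injective
      simp)
  rw [h]
  simp

/-- the polynomial with given coefficients -/
noncomputable def rm {A : Type} [CommRing A] {k : ℕ} (r : Fin k → A) : Polynomial A :=
  ∑ i : Fin k, Polynomial.C (r i) * Polynomial.X ^ (i : ℕ)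

section
variable {A : Type} [CommRing A] {k : ℕ}

lemma rm_coeff (r : Fin k → A) (i : Fin k) : (rm r).coeff i = r i := by
  rw [rm, Polynomial.finsetSum_coeff, Finset.sum_eq_single i]
  · simp
  · intro j _ hj
    rw [Polynomial.coeff_C_mul_X_pow, if_neg fun h => hj (Fin.ext h.symm)]
  · simp

lemma rm_deg (r : Fin k → A) : (rm r).degree < k := Polynomial.degree_sum_fin_lt r

lemma eq_rm (p : Polynomial A) (h : p.degree < k) : p = rm fun i : Fin k => p.coeff i := by
  ext j
  by_cases hj : j < k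
  · exact (rm_coeff (fun i : Fin k => p.coeff i) ⟨j, hj⟩).symm
  · have hk : (k : WithBot ℕ) ≤ j := by exact_mod_cast not_lt.1 hj
    rw [Polynomial.coeff_eq_zero_of_degree_lt (h.trans_le hk),
      Polynomial.coeff_eq_zero_of_degree_lt ((rm_deg _).trans_le hk)]

lemma rm_coe (r : Fin k → A) : ((rm r : Polynomial A) : PowerSeries A) =
    ∑ i : Fin k, PowerSeries.C (r i) * PowerSeries.X ^ (i : ℕ) := by
  rw [rm, ← Polynomial.coeToPowerSeries.ringHom_apply, map_sum]
  simp [Polynomial.coeToPowerSeries.ringHom_apply]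

lemma w_nat [Nontrivial A] (c : Fin k → A) : (Polynomial.X ^ k + rm c).natDegree = k := by
  rw [Polynomial.natDegree_add_eq_left_of_degree_lt, Polynomial.natDegree_X_pow]
  rw [Polynomial.degree_X_pow]
  exact rm_deg c

lemma w_dist [Nontrivial A] (c : Fin k → A) (I : Ideal A) (h : ∀ i, c i ∈ I) :
    (Polynomial.X ^ k + rm c).IsDistinguishedAt I := by
  refine ⟨⟨fun {j} hj => ?_⟩, Polynomial.monic_X_pow_add (rm_deg c)⟩
  rw [w_nat] at hj
  rw [Polynomial.coeff_add, Polynomial.coeff_X_pow, if_neg hj.ne, zero_add]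
  have := rm_coeff c ⟨j, hj⟩
  simp only at this
  rw [this]
  exact h _

end

lemma E_rm (p3 : S_P3) {n k : ℕ} (r : Fin k → MvPowerSeries (Fin n) F) :
    MvPowerSeries.finSuccEquiv F n (∑ i : Fin k, rename Fin.succ (r i) * X 0 ^ (i : ℕ)) =
      ((rm r : Polynomial _) : PowerSeries _) := by
  rw [rm_coe, map_sum]
  simp only [map_mul, map_pow, E_rename p3, finSuccEquiv_X_zero]

lemma E_w (p3 : S_P3) {n k : ℕ} (c : Fin k → MvPowerSeries (Fin n) F) :
    MvPowerSeries.finSuccEquiv F n (wpoly c) =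
      ((Polynomial.X ^ k + rm c : Polynomial _) : PowerSeries _) := by
  rw [wpoly, map_add, E_rm p3, map_pow, finSuccEquiv_X_zero]
  simp

lemma prep (p3 : S_P3) {n : ℕ} (g : MvPowerSeries (Fin (n + 1)) F) (k : ℕ)
    (hk : coeff (Finsupp.single 0 k) g ≠ 0) (hl : ∀ i < k, coeff (Finsupp.single 0 i) g = 0) :
    ∃ (u : (MvPowerSeries (Fin (n + 1)) F)ˣ) (c : Fin k → MvPowerSeries (Fin n) F),
      (∀ i, constantCoeff (c i) = 0) ∧ g = (u : MvPowerSeries (Fin (n + 1)) F) * wpoly c := by
  have := complete (F := F) n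
  have hz : ∀ i, PowerSeries.coeff i ((MvPowerSeries.finSuccEquiv F n g).map
      (IsLocalRing.residue _)) = 0 ↔ coeff (Finsupp.single 0 i) g = 0 := fun i => by
    rw [PowerSeries.coeff_map, IsLocalRing.residue_eq_zero_iff, mem_max, cc_coeff]
  have ho : ((MvPowerSeries.finSuccEquiv F n g).map (IsLocalRing.residue _)).order = k :=
    PowerSeries.order_eq_nat.2 ⟨fun h => hk ((hz k).1 h), fun i hi => (hz i).2 (hl i hi)⟩
  have hne : (MvPowerSeries.finSuccEquiv F n g).map (IsLocalRing.residue _) ≠ 0 := fun h =>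
    hk ((hz k).1 (by rw [h]; simp))
  obtain ⟨f, h, H⟩ := PowerSeries.exists_isWeierstrassFactorization hne
  have hd : f.natDegree = k := by rw [H.natDegree_eq_toNat_order_map, ho]; simp
  have hm := H.isDistinguishedAt.monic
  have hf : f = Polynomial.X ^ k + rm fun i : Fin k => f.coeff i := by
    conv_lhs => rw [hm.as_sum, hd]
    rw [rm, Finset.sum_range fun i => Polynomial.C (f.coeff i) * Polynomial.X ^ i]
  refine ⟨(H.isUnit.map (MvPowerSeries.finSuccEquiv F n).symm).unit, fun i => f.coeff i,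
    fun i => (mem_max _).1 (H.isDistinguishedAt.mem (hd ▸ i.2)), ?_⟩
  apply (MvPowerSeries.finSuccEquiv F n).injective
  rw [map_mul, E_w p3, ← hf, IsUnit.unit_spec, AlgEquiv.apply_symm_apply, H.eq_mul, mul_comm]

lemma divi (p3 : S_P3) {n : ℕ} (k : ℕ) (c : Fin k → MvPowerSeries (Fin n) F)
    (hc : ∀ i, constantCoeff (c i) = 0) :
    (∀ h, ∃ (q : MvPowerSeries (Fin (n + 1)) F) (r : Fin k → MvPowerSeries (Fin n) F),
      h = q * wpoly c + ∑ i : Fin k, rename Fin.succ (r i) * X 0 ^ (i : ℕ)) ∧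
    ∀ r : Fin k → MvPowerSeries (Fin n) F,
      wpoly c ∣ ∑ i : Fin k, rename Fin.succ (r i) * X 0 ^ (i : ℕ) → r = 0 := by
  have := complete (F := F) n
  have hD := w_dist c (IsLocalRing.maximalIdeal _) fun i => (mem_max _).2 (hc i)
  have hW := hD.isWeierstrassDivisorAt'
  have ho := hD.coe_natDegree_eq_order_map _ 1
    (by rw [PowerSeries.constantCoeff_one, ← Ideal.ne_top_iff_one]
        exact Ideal.IsMaximal.ne_top inferInstance) (mul_one _).symm
  rw [w_nat] at ho
  constructor
  · intro h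
    obtain ⟨H1, H2⟩ := hW.isWeierstrassDivisionAt_div_mod (MvPowerSeries.finSuccEquiv F n h)
    rw [← ho, ENat.toNat_natCast] at H1
    refine ⟨(MvPowerSeries.finSuccEquiv F n).symm (hW.div (MvPowerSeries.finSuccEquiv F n h)),
      fun i => (hW.mod (MvPowerSeries.finSuccEquiv F n h)).coeff i, ?_⟩
    apply (MvPowerSeries.finSuccEquiv F n).injective
    rw [map_add, map_mul, E_w p3, E_rm p3, ← eq_rm _ H1, AlgEquiv.apply_symm_apply, mul_comm]
    exact H2
  · rintro r ⟨q, hq⟩
    have h1 := congrArg (MvPowerSeries.finSuccEquiv F n) hq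
    rw [map_mul, E_w p3, E_rm p3] at h1
    have h2 := (hW.eq_zero_of_mul_eq (by rw [← ho, ENat.toNat_natCast]; exact rm_deg r) h1.symm).2
    funext i
    rw [← rm_coeff r i, h2]
    simp

lemma gen [CharZero F] (p3 : S_P3) (p2 : S_P2) {n : ℕ} (g : MvPowerSeries (Fin (n + 1)) F) (k : ℕ)
    (hg : g.order = k) :
    ∃ ψ : MvPowerSeries (Fin (n + 1)) F ≃ₐ[F] MvPowerSeries (Fin (n + 1)) F,
      coeff (Finsupp.single 0 k) (ψ g) ≠ 0 ∧ (ψ g).order = k := by
  classical
  obtain ⟨⟨d0, hd0, hd0k⟩, hlow⟩ := MvPowerSeries.order_eq_nat.1 hg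
  set s : Finset (Fin (n + 1) →₀ ℕ) := Finset.finsuppAntidiag Finset.univ k with hs
  have hmem : ∀ d, d ∈ s ↔ Finsupp.degree d = k := fun d => by
    simp [hs, Finsupp.degree_eq_sum]
  set P : MvPolynomial (Fin (n + 1)) F := ∑ d ∈ s, MvPolynomial.monomial d (coeff d g) with hP
  have hP0 : P ≠ 0 := by
    intro h
    have := congrArg (MvPolynomial.coeff d0) h
    simp [hP, MvPolynomial.coeff_sum, MvPolynomial.coeff_monomial, (hmem d0).2 hd0k] at this
    exact hd0 this
  obtain ⟨x, hx⟩ : ∃ x, MvPolynomial.eval x (P * MvPolynomial.X 0) ≠ 0 := by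
    by_contra hn
    push Not at hn
    exact mul_ne_zero hP0 (MvPolynomial.X_ne_zero 0)
      (MvPolynomial.funext fun x => by rw [hn x, map_zero])
  rw [map_mul, MvPolynomial.eval_X] at hx
  have hxP := left_ne_zero_of_mul hx
  have hx0 := right_ne_zero_of_mul hx
  obtain ⟨ψ, hψ⟩ := p2 F (Fin (n + 1))
    (fun i => C (x i) * X 0 + if i = 0 then 0 else X i)
    (fun i => by split_ifs <;> simp) (by
      rw [Matrix.det_of_isLowerTriangular]
      · refine Finset.prod_ne_zero_iff.2 fun i _ => ?_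
        by_cases hi : i = 0
        · subst hi
          simpa [lin, coeff_X] using hx0
        · simp [lin, coeff_X, hi, Finsupp.single_left_inj]
      · intro i j hij
        have hij' : i < j := hij
        have hj : j ≠ 0 := (lt_of_le_of_lt (Fin.zero_le i) hij').ne'
        by_cases hi : i = 0
        · simp [lin, coeff_X, hi, hj, Finsupp.single_left_inj]
        · simp [lin, coeff_X, hi, hj, hij'.ne', Finsupp.single_left_inj])
  have hord : ∀ p, p.order ≤ (ψ p).order :=
    (p3.1 F (Fin (n + 1)) (Fin (n + 1)) (ψ : _ →ₐ[F] _)).2.1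
  let T : MvPowerSeries (Fin (n + 1)) F →+* PowerSeries F :=
    (PowerSeries.map constantCoeff).comp (MvPowerSeries.finSuccEquiv F n).toRingEquiv.toRingHom
  have hT : ∀ p, T p = PowerSeries.map constantCoeff (MvPowerSeries.finSuccEquiv F n p) :=
    fun p => rfl
  have hTc : ∀ p, coeff (Finsupp.single 0 k) p = PowerSeries.coeff k (T p) := fun p => by
    rw [hT, PowerSeries.coeff_map, cc_coeff]
  have hTC : ∀ a, T (C a) = PowerSeries.C a := fun a => by rw [hT]; simp
  have hTX : ∀ i, T (ψ (X i)) = PowerSeries.C (x i) * PowerSeries.X := fun i => by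
    rw [hψ, map_add, map_mul, hTC, hT (X 0), finSuccEquiv_X_zero, PowerSeries.map_X]
    refine Fin.cases ?_ (fun j => ?_) i
    · simp
    · rw [if_neg (Fin.succ_ne_zero j), hT, finSuccEquiv_X_succ]
      simp
  have hψC : ∀ a, ψ (C a) = C a := fun a => ψ.commutes a
  have hmon : ∀ d ∈ s, ∀ a, coeff (Finsupp.single 0 k) (ψ (monomial d a)) =
      MvPolynomial.eval x (MvPolynomial.monomial d a) := fun d hd a => by
    have hd' : ∑ i, d i = k := by rw [← Finsupp.degree_eq_sum]; exact (hmem d).1 hd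
    rw [hTc, MvPowerSeries.monomial_eq', MvPolynomial.eval_monomial,
      Finsupp.prod_fintype _ _ (fun i => pow_zero _), Finsupp.prod_fintype _ _ (fun i => pow_zero _),
      map_mul, map_mul, hψC, hTC, map_prod, map_prod]
    simp only [map_pow, hTX, mul_pow, Finset.prod_mul_distrib, Finset.prod_pow_eq_pow_sum, hd']
    simp only [← map_pow, ← map_prod, ← mul_assoc, ← map_mul]
    rw [PowerSeries.coeff_C_mul, PowerSeries.coeff_X_pow_self, mul_one]
  have hrest : ((k + 1 : ℕ) : ℕ∞) ≤ (g - ∑ d ∈ s, monomial d (coeff d g)).order := by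
    refine MvPowerSeries.nat_le_order fun d hd => ?_
    rw [map_sub, map_sum]
    simp only [coeff_monomial]
    rw [Finset.sum_ite_eq]
    split_ifs with h
    · simp
    · rw [sub_zero]
      have : Finsupp.degree d ≠ k := fun h' => h ((hmem d).2 h')
      exact hlow d (by omega)
  have hz : coeff (Finsupp.single 0 k) (ψ (g - ∑ d ∈ s, monomial d (coeff d g))) = 0 := by
    refine MvPowerSeries.coeff_of_lt_order (lt_of_lt_of_le ?_ (hrest.trans (hord _)))
    rw [Finsupp.degree_single]
    exact_mod_cast Nat.lt_succ_self k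
  have hne : coeff (Finsupp.single 0 k) (ψ g) ≠ 0 := by
    rw [map_sub, map_sub, sub_eq_zero, map_sum, map_sum,
      Finset.sum_congr rfl fun d hd => hmon d hd _, ← map_sum] at hz
    rw [hz]
    exact hxP
  refine ⟨ψ, hne, le_antisymm ?_ (hg ▸ hord g)⟩
  simpa using MvPowerSeries.order_le hne

end WP

theorem wp (p3 : S_P3) (p2 : S_P2) : S_WP := fun _ _ _ =>
  ⟨WP.prep p3, WP.divi p3, fun _ => WP.gen p3 p2⟩

end Pool.Agent.MP_51db15_ag.Hy
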