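import Pool.Agent.MP_51db15_ag.Hy.Rows

/-! Valuation rings preserved by two derivations. -/

namespace Pool.Agent.MP_51db15_ag.Hy

namespace ZORN

variable {K : Type} [Field K] [Algebra ℂ K]

/-- the non-units of a subalgebra -/
def nu (B : Subalgebra ℂ K) : Set K := {y | y ∈ B ∧ (y = 0 ∨ y⁻¹ ∉ B)}

theorem nu_zero (B : Subalgebra ℂ K) : (0 : K) ∈ nu B := ⟨B.zero_mem, Or.inl rfl⟩

theorem one_not_nu (B : Subalgebra ℂ K) : (1 : K) ∉ nu B := by
  rintro ⟨-, h | h⟩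
  · exact one_ne_zero h
  · exact h (by simpa using B.one_mem)

theorem nu_mul {B : Subalgebra ℂ K} {y b : K} (hy : y ∈ nu B) (hb : b ∈ B) : b * y ∈ nu B := by
  refine ⟨B.mul_mem hb hy.1, ?_⟩
  by_cases h0 : b * y = 0
  · exact Or.inl h0
  · refine Or.inr fun h => ?_
    have hb0 : b ≠ 0 := left_ne_zero_of_mul h0
    have hy0 : y ≠ 0 := right_ne_zero_of_mul h0
    rcases hy.2 with h1 | h1
    · exact hy0 h1
    · apply h1
      have : y⁻¹ = b * (b * y)⁻¹ := by field_simp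
      rw [this]
      exact B.mul_mem hb h

theorem inv_mem {B : Subalgebra ℂ K} {y : K} (hy : y ∈ B) (h : y ∉ nu B) : y ≠ 0 ∧ y⁻¹ ∈ B := by
  by_contra hc
  apply h
  refine ⟨hy, ?_⟩
  by_cases h0 : y = 0
  · exact Or.inl h0
  · exact Or.inr fun h1 => hc ⟨h0, h1⟩

/-- the pairs of the Zorn argument -/
structure Good (R : Subalgebra ℂ K) (Y D : Derivation ℂ K K) (P : Ideal R) (B : Subalgebra ℂ K) :
    Prop where
  le : R ≤ B
  add : ∀ y ∈ nu B, ∀ z ∈ nu B, y + z ∈ nu B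
  hY : ∀ y ∈ B, Y y ∈ nu B
  hD : ∀ y ∈ B, D y ∈ B
  hDn : ∀ y ∈ nu B, D y ∈ nu B
  hP : ∀ a : R, (a : K) ∈ nu B ↔ a ∈ P

/-- localisation of a subalgebra at a prime -/
def loc (B : Subalgebra ℂ K) (Q : Ideal B) (hQ : Q.IsPrime) : Subalgebra ℂ K where
  carrier := {y | ∃ a s : B, s ∉ Q ∧ y = a / s}
  mul_mem' := by
    rintro _ _ ⟨a, s, hs, rfl⟩ ⟨b, t, ht, rfl⟩
    refine ⟨a * b, s * t, fun h => (hQ.mem_or_mem h).elim hs ht, ?_⟩
    simp [div_mul_div_comm]
  add_mem' := by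
    rintro _ _ ⟨a, s, hs, rfl⟩ ⟨b, t, ht, rfl⟩
    have hs0 : (s : K) ≠ 0 := fun h => hs (by rw [show s = 0 from Subtype.ext h]; exact Q.zero_mem)
    have ht0 : (t : K) ≠ 0 := fun h => ht (by rw [show t = 0 from Subtype.ext h]; exact Q.zero_mem)
    refine ⟨a * t + s * b, s * t, fun h => (hQ.mem_or_mem h).elim hs ht, ?_⟩
    simp only [Subalgebra.coe_add, Subalgebra.coe_mul]
    field_simp
  algebraMap_mem' := fun r =>
    ⟨⟨algebraMap ℂ K r, B.algebraMap_mem r⟩, 1, (Ideal.ne_top_iff_one Q).1 hQ.ne_top, by simp⟩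

section Loc

variable {B : Subalgebra ℂ K} {Q : Ideal B} {hQ : Q.IsPrime}

theorem ne0 {s : B} (hs : s ∉ Q) : (s : K) ≠ 0 :=
  fun h => hs (by rw [show s = 0 from Subtype.ext h]; exact Q.zero_mem)

theorem mem_loc {y : K} : y ∈ loc B Q hQ ↔ ∃ a s : B, s ∉ Q ∧ y = a / s := Iff.rfl

theorem le_loc : B ≤ loc B Q hQ := fun y hy =>
  ⟨⟨y, hy⟩, 1, (Ideal.ne_top_iff_one Q).1 hQ.ne_top, by simp⟩

theorem mem_nu_loc {y : K} : y ∈ nu (loc B Q hQ) ↔ ∃ a s : B, a ∈ Q ∧ s ∉ Q ∧ y = a / s := by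
  constructor
  · rintro ⟨⟨a, s, hs, rfl⟩, h⟩
    refine ⟨a, s, ?_, hs, rfl⟩
    by_contra ha
    rcases h with h | h
    · exact ne0 ha ((div_eq_zero_iff.1 h).resolve_right (ne0 hs))
    · exact h ⟨s, a, ha, by simp⟩
  · rintro ⟨a, s, ha, hs, rfl⟩
    refine ⟨⟨a, s, hs, rfl⟩, ?_⟩
    by_cases h0 : (a : K) = 0
    · left; simp [h0]
    · right
      rintro ⟨b, t, ht, h⟩
      have hs0 := ne0 hs
      have ht0 := ne0 ht
      have : s * t = b * a := by
        apply Subtype.ext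
        simp only [Subalgebra.coe_mul]
        field_simp at h
        linear_combination h
      have h2 : s * t ∈ Q := this ▸ Q.mul_mem_left b ha
      exact (hQ.mem_or_mem h2).elim hs ht

theorem coe_mem_nu_loc (a : B) : (a : K) ∈ nu (loc B Q hQ) ↔ a ∈ Q := by
  rw [mem_nu_loc]
  constructor
  · rintro ⟨b, s, hb, hs, h⟩
    have hs0 := ne0 hs
    have : a * s = b := by
      apply Subtype.ext
      simp only [Subalgebra.coe_mul]
      rw [h]; field_simp
    exact (hQ.mem_or_mem (this ▸ hb)).resolve_right hs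
  · intro h
    exact ⟨a, 1, h, (Ideal.ne_top_iff_one Q).1 hQ.ne_top, by simp⟩

theorem der_div (E : Derivation ℂ K K) (a s : K) (hs : s ≠ 0) :
    E (a / s) = (s * E a - a * E s) / (s * s) := by
  rw [Derivation.leibniz_div]
  simp only [smul_eq_mul]
  field_simp

theorem good_loc {R : Subalgebra ℂ K} {Y D : Derivation ℂ K K} {P : Ideal R} (hle : R ≤ B)
    (hY : ∀ y : B, ∃ z ∈ Q, Y y = z) (hD : ∀ y ∈ B, D y ∈ B) (hDn : ∀ y ∈ Q, ∃ z ∈ Q, D y = z)
    (hP : ∀ a : R, (⟨a, hle a.2⟩ : B) ∈ Q ↔ a ∈ P) : Good R Y D P (loc B Q hQ) where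
  le := hle.trans le_loc
  add := by
    intro y hy z hz
    obtain ⟨a, s, ha, hs, rfl⟩ := mem_nu_loc.1 hy
    obtain ⟨b, t, hb, ht, rfl⟩ := mem_nu_loc.1 hz
    have hs0 := ne0 hs
    have ht0 := ne0 ht
    refine mem_nu_loc.2 ⟨a * t + s * b, s * t, Q.add_mem (Q.mul_mem_right _ ha)
      (Q.mul_mem_left _ hb), fun h => (hQ.mem_or_mem h).elim hs ht, ?_⟩
    simp only [Subalgebra.coe_add, Subalgebra.coe_mul]
    field_simp
  hY := by
    rintro _ ⟨a, s, hs, rfl⟩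
    obtain ⟨a', ha', ea⟩ := hY a
    obtain ⟨s', hs', es⟩ := hY s
    refine mem_nu_loc.2 ⟨s * a' - a * s', s * s, Q.sub_mem (Q.mul_mem_left _ ha')
      (Q.mul_mem_left _ hs'), fun h => (hQ.mem_or_mem h).elim hs hs, ?_⟩
    rw [der_div Y _ _ (ne0 hs), ea, es]
    simp
  hD := by
    rintro _ ⟨a, s, hs, rfl⟩
    refine ⟨s * ⟨D a, hD _ a.2⟩ - a * ⟨D s, hD _ s.2⟩, s * s,
      fun h => (hQ.mem_or_mem h).elim hs hs, ?_⟩
    rw [der_div D _ _ (ne0 hs)]
    simp
  hDn := by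
    intro y hy
    obtain ⟨a, s, ha, hs, rfl⟩ := mem_nu_loc.1 hy
    obtain ⟨a', ha', ea⟩ := hDn a ha
    refine mem_nu_loc.2 ⟨s * a' - a * ⟨D s, hD _ s.2⟩, s * s, Q.sub_mem (Q.mul_mem_left _ ha')
      (Q.mul_mem_right _ ha), fun h => (hQ.mem_or_mem h).elim hs hs, ?_⟩
    rw [der_div D _ _ (ne0 hs), ea]
    simp
  hP := fun a => (coe_mem_nu_loc (hQ := hQ) (⟨a, hle a.2⟩ : B)).trans (hP a)

end Loc

/-- domination -/
def Dom (B B' : Subalgebra ℂ K) : Prop := B ≤ B' ∧ nu B ⊆ nu B'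

theorem exists_max {R : Subalgebra ℂ K} {Y D : Derivation ℂ K K} {P : Ideal R}
    {B₀ : Subalgebra ℂ K} (h₀ : Good R Y D P B₀) :
    ∃ B, Good R Y D P B ∧ ∀ B', Good R Y D P B' → Dom B B' → B' ≤ B := by
  haveI : Nonempty {B // Good R Y D P B} := ⟨⟨B₀, h₀⟩⟩
  obtain ⟨m, hm⟩ := exists_maximal_of_nonempty_chains_bounded
    (r := fun a b : {B // Good R Y D P B} => Dom a.1 b.1) (by
      intro c hc hne
      haveI : Nonempty c := hne.to_subtype
      have tot : ∀ a b : c, Dom a.1.1 b.1.1 ∨ Dom b.1.1 a.1.1 := by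
        intro a b
        by_cases h : a.1 = b.1
        · left; rw [h]; exact ⟨le_rfl, subset_rfl⟩
        · exact hc a.2 b.2 h
      have dir : Directed (· ≤ ·) fun a : c => a.1.1 := by
        intro a b
        rcases tot a b with h | h
        · exact ⟨b, h.1, le_rfl⟩
        · exact ⟨a, le_rfl, h.1⟩
      set U : Subalgebra ℂ K := ⨆ a : c, a.1.1 with hU
      have mem : ∀ y, y ∈ U ↔ ∃ a : c, y ∈ a.1.1 := by
        intro y
        rw [← SetLike.mem_coe, hU, Subalgebra.coe_iSup_of_directed dir]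
        simp only [Set.mem_iUnion, SetLike.mem_coe]
      have up : ∀ (a : c) y, y ∈ nu a.1.1 → y ∈ nu U := by
        intro a y hy
        refine ⟨(mem y).2 ⟨a, hy.1⟩, ?_⟩
        by_cases h0 : y = 0
        · exact Or.inl h0
        · right
          intro h
          obtain ⟨b, hb⟩ := (mem _).1 h
          rcases tot a b with h1 | h1
          · exact ((h1.2 hy).2.resolve_left h0) hb
          · exact (hy.2.resolve_left h0) (h1.1 hb)
      have down : ∀ (a : c) y, y ∈ a.1.1 → y ∈ nu U → y ∈ nu a.1.1 := by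
        intro a y hy h
        exact ⟨hy, h.2.imp id fun h1 h2 => h1 ((mem _).2 ⟨a, h2⟩)⟩
      obtain ⟨a₀⟩ := ‹Nonempty c›
      have good : Good R Y D P U := by
        refine ⟨fun y hy => (mem y).2 ⟨a₀, a₀.1.2.le hy⟩, ?_, ?_, ?_, ?_, ?_⟩
        · intro y hy z hz
          obtain ⟨a, ha⟩ := (mem _).1 hy.1
          obtain ⟨b, hb⟩ := (mem _).1 hz.1
          obtain ⟨d, h1, h2⟩ := dir a b
          exact up d _ (d.1.2.add _ (down d _ (h1 ha) hy) _ (down d _ (h2 hb) hz))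
        · intro y hy
          obtain ⟨a, ha⟩ := (mem _).1 hy
          exact up a _ (a.1.2.hY y ha)
        · intro y hy
          obtain ⟨a, ha⟩ := (mem _).1 hy
          exact (mem _).2 ⟨a, a.1.2.hD y ha⟩
        · intro y hy
          obtain ⟨a, ha⟩ := (mem _).1 hy.1
          exact up a _ (a.1.2.hDn y (down a _ ha hy))
        · intro a
          rw [← a₀.1.2.hP a]
          exact ⟨down a₀ _ (a₀.1.2.le a.2), up a₀ _⟩
      exact ⟨⟨U, good⟩, fun a ha => ⟨fun y hy => (mem y).2 ⟨⟨a, ha⟩, hy⟩, up ⟨a, ha⟩⟩⟩)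
    (fun h1 h2 => ⟨h1.1.trans h2.1, h1.2.trans h2.2⟩)
  exact ⟨m.1, m.2, fun B' hB' h => (hm ⟨B', hB'⟩ h).1⟩

/-- a derivation that preserves `B` and the span of `g` preserves the blown up algebra -/
theorem stab_blow (E : Derivation ℂ K K) {B : Subalgebra ℂ K} {r : ℕ} {g : Fin r → K}
    {A : Fin r → Fin r → K} (hE : ∀ y ∈ B, E y ∈ B) (hA : ∀ i j, A i j ∈ B)
    (hg : ∀ i, E (g i) = ∑ j, A i j * g j) (i : Fin r) (hi : g i ≠ 0) {B' : Subalgebra ℂ K}
    (hB' : B' = B ⊔ Algebra.adjoin ℂ (Set.range fun j => g j / g i)) :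
    ∀ y ∈ B', E y ∈ B' := by
  have h1 : B ≤ B' := hB' ▸ le_sup_left
  have h2 : ∀ j, g j / g i ∈ B' := fun j =>
    hB' ▸ (le_sup_right : _ ≤ B ⊔ _) (Algebra.subset_adjoin ⟨j, rfl⟩)
  have h3 : ∀ j, E (g j) / g i ∈ B' := by
    intro j
    rw [hg, Finset.sum_div]
    refine B'.sum_mem fun k _ => ?_
    rw [mul_div_assoc]
    exact B'.mul_mem (h1 (hA j k)) (h2 k)
  let S : Subalgebra ℂ K :=
    { carrier := {y | y ∈ B' ∧ E y ∈ B'}
      mul_mem' := by
        rintro a b ⟨ha, ha'⟩ ⟨hb, hb'⟩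
        refine ⟨B'.mul_mem ha hb, ?_⟩
        rw [Derivation.leibniz]
        exact B'.add_mem (B'.mul_mem ha hb') (B'.mul_mem hb ha')
      add_mem' := by
        rintro a b ⟨ha, ha'⟩ ⟨hb, hb'⟩
        exact ⟨B'.add_mem ha hb, by rw [map_add]; exact B'.add_mem ha' hb'⟩
      algebraMap_mem' := fun c =>
        ⟨B'.algebraMap_mem c, by rw [Derivation.map_algebraMap]; exact B'.zero_mem⟩ }
  have : B' ≤ S := by
    rw [hB']
    refine sup_le (fun y hy => ⟨h1 hy, h1 (hE y hy)⟩) (Algebra.adjoin_le ?_)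
    rintro _ ⟨j, rfl⟩
    refine ⟨h2 j, ?_⟩
    have : E (g j / g i) = E (g j) / g i - g j / g i * (E (g i) / g i) := by
      rw [der_div E _ _ hi]; field_simp
    show E (g j / g i) ∈ B'
    rw [this]
    exact B'.sub_mem (h3 j) (B'.mul_mem (h2 j) (h3 i))
  exact fun y hy => (this hy).2

theorem key (minp : S_MINP) (step : S_STEP) {R : Subalgebra ℂ K} {Y D : Derivation ℂ K K}
    {P : Ideal R} {c : ℂ} (hc : ∀ y, D (Y y) - Y (D y) = c • Y y) {B : Subalgebra ℂ K}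
    (hB : Good R Y D P B) (hmax : ∀ B', Good R Y D P B' → Dom B B' → B' ≤ B) {r : ℕ}
    {g : Fin r → K} {A A' : Fin r → Fin r → K} (hg : ∀ i, g i ∈ B) (h0 : ∃ i, g i ≠ 0)
    (hA : ∀ i j, A i j ∈ B) (hA' : ∀ i j, A' i j ∈ B) (hY : ∀ i, Y (g i) = ∑ j, A i j * g j)
    (hD : ∀ i, D (g i) = ∑ j, A' i j * g j) : ∃ i, g i ≠ 0 ∧ ∀ j, g j / g i ∈ B := by
  obtain ⟨i, hi, B', P', hB', hP', hin⟩ := step K B (nu B) Y r g A (fun y => Iff.rfl) hB.add
    hB.hY hg h0 hA hY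
  refine ⟨i, hi, ?_⟩
  have h1 : B ≤ B' := hB' ▸ le_sup_left
  have h2 : ∀ j, g j / g i ∈ B' := fun j =>
    hB' ▸ (le_sup_right : _ ≤ B ⊔ _) (Algebra.subset_adjoin ⟨j, rfl⟩)
  have sY := stab_blow Y (fun y hy => (hB.hY y hy).1) hA hY i hi hB'
  have sD := stab_blow D hB.hD hA' hD i hi hB'
  let D' : B' →+ B' :=
    { toFun := fun y => ⟨D y, sD _ y.2⟩
      map_zero' := Subtype.ext (by simp)
      map_add' := fun a b => Subtype.ext (by simp) }
  have hD' : ∀ y : B', (D' y : K) = D y := fun _ => rfl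
  have leib : Leib D' := by
    intro a b
    apply Subtype.ext
    simp [hD', Derivation.leibniz]
  let G : Set B' := {y | (y : K) ∈ nu B ∨ ∃ z : B', (y : K) = Y z}
  have hG : Ideal.span G ≤ P' := by
    rw [Ideal.span_le]
    rintro y (hy | ⟨z, hz⟩)
    · exact (hin y).1 hy
    · exact (hin z).2 y hz
  have hGt : Ideal.span G ≠ ⊤ := fun h => hP' (top_le_iff.1 (h ▸ hG))
  have hst : ∀ a ∈ Ideal.span G, D' a ∈ Ideal.span G := by
    intro a ha
    induction ha using Submodule.span_induction with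
    | mem y hy =>
      rcases hy with hy | ⟨z, hz⟩
      · exact Ideal.subset_span (Or.inl (hB.hDn _ hy))
      · have : D' y = ⟨Y (D' z), sY _ (D' z).2⟩ + algebraMap ℂ B' c * y := by
          apply Subtype.ext
          have := hc z
          simp only [hD', Subalgebra.coe_add, Subalgebra.coe_mul, hz]
          rw [Algebra.smul_def] at this
          simpa [← this]
        rw [this]
        exact Ideal.add_mem _ (Ideal.subset_span (Or.inr ⟨D' z, rfl⟩))
          (Ideal.mul_mem_left _ _ (Ideal.subset_span (Or.inr ⟨z, hz⟩)))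
    | zero => simp
    | add a b _ _ ha hb => rw [map_add]; exact Ideal.add_mem _ ha hb
    | smul b a ha ih =>
      rw [smul_eq_mul, leib]
      exact Ideal.add_mem _ (Ideal.mul_mem_left _ _ ih) (Ideal.mul_mem_right _ _ ha)
  obtain ⟨Q, hQ⟩ := Ideal.nonempty_minimalPrimes hGt
  letI : Algebra ℚ B' := Algebra.compHom B' (algebraMap ℚ ℂ)
  have hQD := minp B' D' _ Q leib hst hQ
  have hQp : Q.IsPrime := hQ.1.1
  have hGQ : ∀ y ∈ G, y ∈ Q := fun y hy => hQ.1.2 (Ideal.subset_span hy)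
  have good : Good R Y D P (loc B' Q hQp) := by
    refine good_loc (hB.le.trans h1) (fun y => ⟨⟨Y y, sY _ y.2⟩, hGQ _ (Or.inr ⟨y, rfl⟩), rfl⟩) sD
      (fun y hy => ⟨D' y, hQD y hy, rfl⟩) fun a => ⟨fun h => ?_, fun h => ?_⟩
    · by_contra ha
      obtain ⟨h3, h4⟩ := inv_mem (hB.le a.2) (fun h5 => ha ((hB.hP a).1 h5))
      have := Q.mul_mem_left ⟨(a : K)⁻¹, h1 h4⟩ h
      refine (Ideal.ne_top_iff_one Q).1 hQp.ne_top ?_
      convert this using 1
      apply Subtype.ext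
      simp [h3]
    · exact hGQ _ (Or.inl ((hB.hP a).2 h))
  have := hmax _ good ⟨h1.trans le_loc, fun y hy =>
    (coe_mem_nu_loc (hQ := hQp) (⟨y, h1 hy.1⟩ : B')).2 (hGQ _ (Or.inl hy))⟩
  exact fun j => this (le_loc (h2 j))

/-- ideals stable under both derivations -/
def Stab {R : Subalgebra ℂ K} (Y D : Derivation ℂ K K) (I : Ideal R) : Prop :=
  ∀ x ∈ I, ∀ y : R, ((y : K) = Y x ∨ (y : K) = D x) → y ∈ I

theorem principal (minp : S_MINP) (step : S_STEP) {R : Subalgebra ℂ K} {Y D : Derivation ℂ K K}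
    {P : Ideal R} {c : ℂ} (hN : IsNoetherianRing R) (hc : ∀ y, D (Y y) - Y (D y) = c • Y y)
    (rY : ∀ a ∈ R, Y a ∈ R) (rD : ∀ a ∈ R, D a ∈ R) {B : Subalgebra ℂ K}
    (hB : Good R Y D P B) (hmax : ∀ B', Good R Y D P B' → Dom B B' → B' ≤ B) {I : Ideal R}
    (hI : Stab Y D I) {x₀ : R} (hx₀ : x₀ ∈ I) (h0 : (x₀ : K) ≠ 0) :
    ∃ t ∈ I, (t : K) ≠ 0 ∧ ∀ x ∈ I, (x : K) / t ∈ B := by
  obtain ⟨r, g, hg⟩ := Submodule.fg_iff_exists_fin_generating_family.1
    (IsNoetherian.noetherian I)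
  have hgI : ∀ i, g i ∈ I := fun i => hg ▸ Submodule.subset_span ⟨i, rfl⟩
  have rep : ∀ x ∈ I, ∃ a : Fin r → R, (x : K) = ∑ j, (a j : K) * g j := by
    intro x hx
    rw [← hg, Submodule.mem_span_range_iff_exists_fun] at hx
    obtain ⟨a, rfl⟩ := hx
    exact ⟨a, by simp⟩
  choose A hA using fun i => rep _ (hI _ (hgI i) ⟨Y (g i), rY _ (g i).2⟩ (Or.inl rfl))
  choose A' hA' using fun i => rep _ (hI _ (hgI i) ⟨D (g i), rD _ (g i).2⟩ (Or.inr rfl))
  have hne : ∃ i, (g i : K) ≠ 0 := by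
    by_contra h
    push Not at h
    obtain ⟨a, ha⟩ := rep _ hx₀
    exact h0 (by simp [ha, h])
  obtain ⟨i, hi, hj⟩ := key minp step hc hB hmax (g := fun i => (g i : K))
    (A := fun i j => (A i j : K)) (A' := fun i j => (A' i j : K)) (fun i => hB.le (g i).2) hne
    (fun i j => hB.le (A i j).2) (fun i j => hB.le (A' i j).2) hA hA'
  refine ⟨g i, hgI i, hi, fun x hx => ?_⟩
  obtain ⟨a, ha⟩ := rep x hx
  rw [ha, Finset.sum_div]
  refine B.sum_mem fun j _ => ?_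
  rw [mul_div_assoc]
  exact B.mul_mem (hB.le (a j).2) (hj j)

/-- the stable ideal generated by one element -/
def gen {R : Subalgebra ℂ K} (Y D : Derivation ℂ K K) (g : R) : Ideal R :=
  sInf {I | Stab Y D I ∧ g ∈ I}

theorem gen_stab {R : Subalgebra ℂ K} (Y D : Derivation ℂ K K) (g : R) :
    Stab Y D (gen Y D g) := fun x hx y hy =>
  Submodule.mem_sInf.2 fun I hI => hI.1 x (Submodule.mem_sInf.1 hx I hI) y hy

theorem mem_gen {R : Subalgebra ℂ K} (Y D : Derivation ℂ K K) (g : R) : g ∈ gen Y D g :=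
  Submodule.mem_sInf.2 fun _ hI => hI.2

theorem gen_div (minp : S_MINP) (step : S_STEP) {R : Subalgebra ℂ K} {Y D : Derivation ℂ K K}
    {P : Ideal R} {c : ℂ} (hN : IsNoetherianRing R) (hc : ∀ y, D (Y y) - Y (D y) = c • Y y)
    (rY : ∀ a ∈ R, Y a ∈ R) (rD : ∀ a ∈ R, D a ∈ R) {B : Subalgebra ℂ K}
    (hB : Good R Y D P B) (hmax : ∀ B', Good R Y D P B' → Dom B B' → B' ≤ B) {g : R}
    (h0 : (g : K) ≠ 0) : ∀ x ∈ gen Y D g, (x : K) / g ∈ B := by
  obtain ⟨t, ht, ht0, hd⟩ := principal minp step hN hc rY rD hB hmax (gen_stab Y D g)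
    (mem_gen Y D g) h0
  by_cases hn : (g : K) / t ∈ nu B
  · exfalso
    let J : Ideal R :=
      { carrier := {x | (x : K) / t ∈ nu B}
        add_mem' := by
          intro a b ha hb
          have := hB.add _ ha _ hb
          simpa [add_div] using this
        zero_mem' := by simpa using nu_zero B
        smul_mem' := by
          intro a b hb
          have := nu_mul hb (hB.le a.2)
          simpa [mul_div_assoc] using this }
    have hJ : Stab Y D J := by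
      intro x hx y hy
      have hx' : (x : K) / t ∈ nu B := hx
      have e : ∀ E : Derivation ℂ K K, E x / t = E ((x : K) / t) + E t / t * (x / t) := by
        intro E
        rw [der_div E _ _ ht0]; field_simp; ring
      show (y : K) / t ∈ nu B
      rcases hy with hy | hy
      · rw [hy, e]
        exact hB.add _ (hB.hY _ hx'.1) _
          (nu_mul hx' (hd ⟨Y t, rY _ t.2⟩ (gen_stab Y D g t ht _ (Or.inl rfl))))
      · rw [hy, e]
        exact hB.add _ (hB.hDn _ hx') _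
          (nu_mul hx' (hd ⟨D t, rD _ t.2⟩ (gen_stab Y D g t ht _ (Or.inr rfl))))
    have : t ∈ J := Submodule.mem_sInf.1 ht J ⟨hJ, hn⟩
    have h1 : (t : K) / t ∈ nu B := this
    rw [div_self ht0] at h1
    exact one_not_nu B h1
  · obtain ⟨-, h1⟩ := inv_mem (hd g (mem_gen Y D g)) hn
    intro x hx
    have : (x : K) / g = x / t * ((g : K) / t)⁻¹ := by field_simp
    rw [this]
    exact B.mul_mem (hd x hx) h1

end ZORN

open ZORN in
theorem zorn (minp : S_MINP) (step : S_STEP) : S_ZORN := by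
  intro K _ _ R Y D c P hN hfr hP hc hY rD hDP
  have rY : ∀ a ∈ R, Y a ∈ R := by
    intro a ha
    obtain ⟨b, -, hb⟩ := hY ⟨a, ha⟩
    exact hb ▸ b.2
  have h₀ : Good R Y D P (loc R P hP) :=
    good_loc le_rfl hY rD hDP fun a => Iff.rfl
  obtain ⟨B, hB, hmax⟩ := exists_max h₀
  have half : ∀ g h : R, (g : K) ≠ 0 → ∀ t : R, (t : K) ≠ 0 → (h : K) / t ∈ B →
      ∀ x ∈ gen Y D g, (x : K) / t ∈ B → (x : K) / t ∉ nu B → (h : K) / g ∈ B := by
    intro g h hg t ht hh x hx h1 h2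
    obtain ⟨h3, h4⟩ := inv_mem h1 h2
    have hx0 : (x : K) ≠ 0 := fun h5 => h3 (by simp [h5])
    have : (h : K) / g = h / t * ((x : K) / t)⁻¹ * (x / g) := by field_simp
    rw [this]
    exact B.mul_mem (B.mul_mem hh h4) (gen_div minp step hN hc rY rD hB hmax hg x hx)
  have val : ∀ y : K, y ∈ B.toSubring ∨ y⁻¹ ∈ B.toSubring := by
    intro y
    obtain ⟨a, ha, b, hb, rfl⟩ := hfr y
    by_cases ha0 : a = 0
    · left; simp [ha0]
    by_cases hb0 : b = 0
    · left; simp [hb0]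
    have hst : Stab Y D (gen Y D ⟨a, ha⟩ ⊔ gen Y D ⟨b, hb⟩) := by
      intro x hx y hy
      obtain ⟨u, hu, v, hv, rfl⟩ := Submodule.mem_sup.1 hx
      rcases hy with hy | hy
      · refine Submodule.mem_sup.2 ⟨⟨Y u, rY _ u.2⟩, gen_stab Y D _ u hu _ (Or.inl rfl),
          ⟨Y v, rY _ v.2⟩, gen_stab Y D _ v hv _ (Or.inl rfl), Subtype.ext ?_⟩
        simp [hy]
      · refine Submodule.mem_sup.2 ⟨⟨D u, rD _ u.2⟩, gen_stab Y D _ u hu _ (Or.inr rfl),
          ⟨D v, rD _ v.2⟩, gen_stab Y D _ v hv _ (Or.inr rfl), Subtype.ext ?_⟩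
        simp [hy]
    obtain ⟨t, ht, ht0, hd⟩ := principal minp step hN hc rY rD hB hmax hst
      (Submodule.mem_sup_left (mem_gen Y D ⟨a, ha⟩)) ha0
    obtain ⟨u, hu, v, hv, huv⟩ := Submodule.mem_sup.1 ht
    have hu' := hd u (Submodule.mem_sup_left hu)
    have hv' := hd v (Submodule.mem_sup_right hv)
    have ha' := hd _ (Submodule.mem_sup_left (mem_gen Y D ⟨a, ha⟩))
    have hb' := hd _ (Submodule.mem_sup_right (mem_gen Y D ⟨b, hb⟩))
    by_cases h1 : (u : K) / t ∈ nu B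
    · by_cases h2 : (v : K) / t ∈ nu B
      · exfalso
        have := hB.add _ h1 _ h2
        rw [← add_div, ← Subalgebra.coe_add, huv, div_self ht0] at this
        exact one_not_nu B this
      · exact Or.inl (half ⟨b, hb⟩ ⟨a, ha⟩ hb0 t ht0 ha' v hv hv' h2)
    · right
      rw [inv_div]
      exact half ⟨a, ha⟩ ⟨b, hb⟩ ha0 t ht0 hb' u hu hu' h1
  have hnu : ∀ y ∈ B, y ∈ (ValuationSubring.ofSubring B.toSubring val).nonunits ↔ y ∈ nu B := by
    intro y hy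
    rw [ValuationSubring.mem_nonunits_iff_or]
    exact ⟨fun h => ⟨hy, h⟩, fun h => h.2⟩
  refine ⟨ValuationSubring.ofSubring B.toSubring val, fun a ha => hB.le ha, fun a => ?_,
    fun y hy => ?_, fun y hy => hB.hD y hy⟩
  · rw [hnu _ (hB.le a.2), hB.hP]
  · exact (hnu _ (hB.hY y hy).1).2 (hB.hY y hy)

end Pool.Agent.MP_51db15_ag.Hy
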