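import Pool.Agent.MP_51db15_ag.Hy.A12
import Pool.Agent.MP_51db15_ag.Hy.A1A
import Pool.Agent.MP_51db15_ag.Hy.A1B
import Pool.Agent.MP_51db15_ag.Hy.A4A
import Pool.Agent.MP_51db15_ag.Hy.A4B
import Pool.Agent.MP_51db15_ag.Hy.A4E
import Pool.Agent.MP_51db15_ag.Hy.A4G
import Pool.Agent.MP_51db15_ag.Hy.A4N
import Pool.Agent.MP_51db15_ag.Hy.A4W
import Pool.Agent.MP_51db15_ag.Hy.BE
import Pool.Agent.MP_51db15_ag.Hy.C0
import Pool.Agent.MP_51db15_ag.Hy.C0A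
import Pool.Agent.MP_51db15_ag.Hy.C1
import Pool.Agent.MP_51db15_ag.Hy.C2
import Pool.Agent.MP_51db15_ag.Hy.C2A
import Pool.Agent.MP_51db15_ag.Hy.C3
import Pool.Agent.MP_51db15_ag.Hy.C4
import Pool.Agent.MP_51db15_ag.Hy.C5
import Pool.Agent.MP_51db15_ag.Hy.CDET
import Pool.Agent.MP_51db15_ag.Hy.CLT
import Pool.Agent.MP_51db15_ag.Hy.CM
import Pool.Agent.MP_51db15_ag.Hy.CONE
import Pool.Agent.MP_51db15_ag.Hy.D1
import Pool.Agent.MP_51db15_ag.Hy.D2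
import Pool.Agent.MP_51db15_ag.Hy.D3
import Pool.Agent.MP_51db15_ag.Hy.D4
import Pool.Agent.MP_51db15_ag.Hy.DARB
import Pool.Agent.MP_51db15_ag.Hy.EUA
import Pool.Agent.MP_51db15_ag.Hy.EUB
import Pool.Agent.MP_51db15_ag.Hy.EXTV
import Pool.Agent.MP_51db15_ag.Hy.FORM
import Pool.Agent.MP_51db15_ag.Hy.Glue
import Pool.Agent.MP_51db15_ag.Hy.INIT
import Pool.Agent.MP_51db15_ag.Hy.JORD1
import Pool.Agent.MP_51db15_ag.Hy.JORD2
import Pool.Agent.MP_51db15_ag.Hy.KAE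
import Pool.Agent.MP_51db15_ag.Hy.LT
import Pool.Agent.MP_51db15_ag.Hy.MINP
import Pool.Agent.MP_51db15_ag.Hy.NAG
import Pool.Agent.MP_51db15_ag.Hy.NN
import Pool.Agent.MP_51db15_ag.Hy.NV
import Pool.Agent.MP_51db15_ag.Hy.P13
import Pool.Agent.MP_51db15_ag.Hy.P2
import Pool.Agent.MP_51db15_ag.Hy.PF
import Pool.Agent.MP_51db15_ag.Hy.PI
import Pool.Agent.MP_51db15_ag.Hy.POI
import Pool.Agent.MP_51db15_ag.Hy.PROD
import Pool.Agent.MP_51db15_ag.Hy.RAD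
import Pool.Agent.MP_51db15_ag.Hy.REL
import Pool.Agent.MP_51db15_ag.Hy.RELX
import Pool.Agent.MP_51db15_ag.Hy.RHO
import Pool.Agent.MP_51db15_ag.Hy.SING
import Pool.Agent.MP_51db15_ag.Hy.SLICE
import Pool.Agent.MP_51db15_ag.Hy.SMALL
import Pool.Agent.MP_51db15_ag.Hy.STEP
import Pool.Agent.MP_51db15_ag.Hy.STR
import Pool.Agent.MP_51db15_ag.Hy.TAY
import Pool.Agent.MP_51db15_ag.Hy.TH
import Pool.Agent.MP_51db15_ag.Hy.UNM
import Pool.Agent.MP_51db15_ag.Hy.VT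
import Pool.Agent.MP_51db15_ag.Hy.VT0
import Pool.Agent.MP_51db15_ag.Hy.WP
import Pool.Agent.MP_51db15_ag.Hy.ZORN

/-! All steps, without hypotheses. -/

namespace Pool.Agent.MP_51db15_ag.Hy.Fin

theorem rP1 : S_P1 := Hy.p1

theorem rLIFT : S_LIFT := Hy.lift

theorem rP3 : S_P3 := Hy.p3

theorem rP2 : S_P2 := Hy.p2

theorem rWP : S_WP := Hy.wp rP3 rP2

theorem rNN : S_NN := Hy.nn rWP

theorem rNAG : S_NAG := Hy.nag rP3 rNN

theorem rHART : S_HART := Hy.hart rNAG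

theorem rPOI : S_POI := Hy.poi rHART

theorem rINIT : S_INIT := Hy.init rP1 rLIFT rPOI

theorem rSING : S_SING := Hy.sing rNAG

theorem rPF : S_PF := Hy.pf

theorem rPI : S_PI := Hy.pi rSING rHART rPF

theorem rEXTV : S_EXTV := Hy.extv

theorem rRAD : S_RAD := Hy.rad rP1 rNN rEXTV

theorem rNAGREG : S_NAGREG := Hy.nagreg

theorem rCM : S_CM := Hy.cm rNAG rNAGREG

theorem rBE : S_BE := Hy.be rCM

theorem rUNM : S_UNM := Hy.unm rRAD rSING rBE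

theorem rREL : S_REL := Hy.rel rP3

theorem rRELX : S_RELX := Hy.relx rP3

theorem rNAGHT : S_NAGHT := Hy.naght rNAGREG

theorem rTH : S_TH := Hy.th

theorem rTAY : S_TAY := Hy.tay rTH

theorem rKAE : S_KAE := Hy.kae

theorem rVT0 : S_VT0 := Hy.vt0 rP1 rP3 rWP rNAG rEXTV rRAD rKAE

theorem rVT : S_VT := Hy.vt rP3 rVT0

theorem rEUINV : S_EUINV := Hy.euinv rP3

theorem rEUA : S_EUA := Hy.eua rP3

theorem rEUB : S_EUB := Hy.eub rP3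

theorem rA1A : S_A1A := Hy.a1a rP2 rP3 rWP rEUINV rEUA rEUB

theorem rA1B : S_A1B := Hy.a1b

theorem rA1 : S_A1 := Hy.a1 rNAG rNAGHT rTAY rRAD rSING rVT rA1A rA1B

theorem rSTR : S_STR := Hy.str rP2 rP3 rTH

theorem rFORM : S_FORM := Hy.form rHART rKAE

theorem rMINP : S_MINP := Hy.minp

theorem rCONE : S_CONE := Hy.cone

theorem rSTEP : S_STEP := Hy.step rCONE

theorem rZORN : S_ZORN := Hy.zorn rMINP rSTEP

theorem rLT : S_LT := Hy.lt rLIFT rKAE rZORN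

theorem rNV : S_NV := Hy.nv rP3 rSTR rFORM rREL rRELX rLT

theorem rA2 : S_A2 := Hy.a2 rPI rUNM rNV rA1

theorem rJORD2 : S_JORD2 := Hy.jord2

theorem rJORD1 : S_JORD1 := Hy.jord1 rP3 rP2

theorem rBE2 : S_BE2 := Hy.be2 rSING rBE rUNM

theorem rGENS : S_GENS := Hy.gens

theorem rA4A : S_A4A := Hy.a4a

theorem rA4B : S_A4B := Hy.a4b

theorem rA4N : S_A4N := Hy.a4n rKAE

theorem rA4E : S_A4E := Hy.a4e rGENS rA4A rA4B rA4N

theorem rA4H : S_A4H := Hy.a4h rA4N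

theorem rA4G : S_A4G := Hy.a4g rGENS

theorem rA4W : S_A4W := Hy.a4w rKAE

theorem rA4 : S_A4 := Hy.a4 rPI rBE2 rFORM rPOI rA4E rA4H rA4G rA4W

theorem rC0A : S_C0A := Hy.c0a

theorem rC0 : S_C0 := Hy.c0 rSING rMINP rPI rBE2 rC0A

theorem rLIOU : S_LIOU := Hy.liou rP3 rPI rUNM rREL rRELX rA1 rA2 rJORD2 rJORD1 rA4 rC0

theorem rSLICE : S_SLICE := Hy.slice

theorem rHYPSL : S_HYPSL := Hy.hypsl

theorem rDARB : S_DARB := Hy.darb rP3 rSTR rREL rRELX rSLICE rHYPSL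

theorem rCONTR : S_CONTR := Hy.contr rREL rRELX

theorem rPROD : S_PROD := Hy.prod rP3

theorem rSMALL : S_SMALL := Hy.small

theorem rJPOI : S_JPOI := Hy.jpoi

theorem rC2A : S_C2A := Hy.c2a

theorem rC2 : S_C2 := Hy.c2 rP3 rREL rJORD1 rJPOI rC2A

theorem rEV : S_EV := Hy.evS

theorem rRHO : S_RHO := Hy.rho

theorem rCLT : S_CLT := Hy.clt rFORM rLT rRHO rEV

theorem rCDET : S_CDET := Hy.cdet rPI rRHO

theorem rC1 : S_C1 := Hy.c1 rKAE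

theorem rC3 : S_C3 := Hy.c3 rEV rCLT rCDET rC1

theorem rC4 : S_C4 := Hy.c4 rEV rCLT rCDET

theorem rC5 : S_C5 := Hy.c5

theorem rPOS : S_POS := Hy.pos rREL rRELX rCONTR rC2 rC3 rC4 rC5

theorem rMAIN : S_MAIN := Hy.main rLIOU rDARB rCONTR rPROD rSMALL rPOS

theorem rD1 : S_D1 := Hy.d1

theorem rD2 : S_D2 := Hy.d2 rLIFT

theorem rD3 : S_D3 := Hy.d3 rP1 rKAE rD1

theorem rD4 : S_D4 := Hy.d4 rD1 rD2 rD3

end Pool.Agent.MP_51db15_ag.Hy.Fin
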