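import Pool.Agent.MP_51db15_ag.Hy.Rows
import Pool.Agent.MP_51db15_ag.Hy.Base

/-! The rows of the bivector span the tangent fields generically; two forms of the extension
property. -/

namespace Pool.Agent.MP_51db15_ag.Hy

open MvPowerSeries Matrix

namespace KAE

theorem core {A ι : Type} [CommRing A] [Fintype ι] [DecidableEq ι] (T : Matrix ι ι A)
    (g : ι → A) (i₀ : ι) (hT : ∀ i, ∑ k, T i k * g k = 0) (x : ι → A)
    (hx : ∑ k, g k * x k = 0) :
    ∃ η : ι → A, ∀ k, g i₀ * T.adjugate i₀ i₀ * x k = ∑ i, η i * T i k := by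
  set N : Matrix {j // j ≠ i₀} {j // j ≠ i₀} A := Matrix.of fun j k => T j k with hN
  have hd : T.adjugate i₀ i₀ = N.det := adjugate_diag T i₀
  let w : {j // j ≠ i₀} → A := (fun j : {j // j ≠ i₀} => x j) ᵥ* N.adjugate
  let η : ι → A := fun i => if h : i = i₀ then 0 else w ⟨i, h⟩
  have hs : ∀ k, ∑ i, η i * T i k = ∑ j : {j // j ≠ i₀}, w j * T j k := fun k => by
    rw [Fintype.sum_eq_add_sum_subtype_ne _ i₀]
    have h1 : η i₀ = 0 := dif_pos rfl
    rw [h1, zero_mul, zero_add]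
    refine Finset.sum_congr rfl fun j _ => ?_
    have h2 : η j = w j := dif_neg j.2
    rw [h2]
  have h1 : ∀ k, k ≠ i₀ → N.det * x k - ∑ i, η i * T i k = 0 := fun k hk => by
    have h2 : w ᵥ* N = N.det • fun j : {j // j ≠ i₀} => x j := by
      simp only [w]
      rw [Matrix.vecMul_vecMul, Matrix.adjugate_mul, Matrix.vecMul_smul, Matrix.vecMul_one]
    have h3 : ∑ j : {j // j ≠ i₀}, w j * T j k = N.det * x k := congrFun h2 ⟨k, hk⟩
    rw [hs, h3, sub_self]
  have h2 : ∑ k, g k * (N.det * x k - ∑ i, η i * T i k) = 0 := by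
    have h3 : ∑ k, g k * ∑ i, η i * T i k = ∑ i, η i * ∑ k, T i k * g k := by
      simp only [Finset.mul_sum]
      rw [Finset.sum_comm]
      exact Finset.sum_congr rfl fun i _ => Finset.sum_congr rfl fun k _ => by ring
    have h4 : ∑ k, g k * (N.det * x k) = N.det * ∑ k, g k * x k := by
      rw [Finset.mul_sum]
      exact Finset.sum_congr rfl fun k _ => by ring
    simp only [mul_sub, Finset.sum_sub_distrib]
    rw [h3, h4, hx]
    simp [hT]
  have h3 : ∀ k, g i₀ * (N.det * x k - ∑ i, η i * T i k) = 0 := fun k => by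
    by_cases hk : k = i₀
    · rw [Finset.sum_eq_single i₀ (fun j _ hj => by rw [h1 j hj, mul_zero]) (by simp)] at h2
      rw [hk]
      exact h2
    · rw [h1 k hk, mul_zero]
  refine ⟨fun i => g i₀ * η i, fun k => ?_⟩
  have h4 : ∑ i, g i₀ * η i * T i k = g i₀ * ∑ i, η i * T i k := by
    rw [Finset.mul_sum]
    exact Finset.sum_congr rfl fun i _ => by ring
  rw [h4, hd]
  linear_combination h3 k

variable {ι : Type} [Fintype ι] [DecidableEq ι]

omit [DecidableEq ι] in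
theorem tang {A : Type} [CommRing A] {f : PS ι} (ρ : PS ι →+* A) (h0 : ρ f = 0) {v : ι → PS ι}
    (h : Log f v) : ∑ k, ρ (v k) * ρ (pderiv ℂ k f) = 0 := by
  obtain ⟨q, hq⟩ := h
  have h1 := congrArg ρ hq
  rw [vf_apply, map_sum, map_mul, h0, zero_mul] at h1
  simpa only [map_mul] using h1

theorem core' {A : Type} [CommRing A] {f : PS ι} {Θ : Matrix ι ι (PS ι)} (hP : Poi f Θ)
    (ρ : PS ι →+* A) (h0 : ρ f = 0) (i₀ : ι) (x : ι → A)
    (hx : ∑ k, ρ (pderiv ℂ k f) * x k = 0) :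
    ∃ η : ι → A, ∀ k, ρ (pderiv ℂ i₀ f * Θ.adjugate i₀ i₀) * x k = ∑ i, η i * ρ (Θ i k) := by
  obtain ⟨η, hη⟩ := core (ρ.mapMatrix Θ) (fun k => ρ (pderiv ℂ k f)) i₀
    (fun i => tang ρ h0 (hP.tang i)) x hx
  refine ⟨η, fun k => ?_⟩
  have h1 := hη k
  rw [← RingHom.map_adjugate] at h1
  rw [map_mul]
  exact h1

theorem exists_index {f : PS ι} {Θ : Matrix ι ι (PS ι)} (hf : Prime f) (hP : Poi f Θ) :
    ∃ i₀, ¬ f ∣ pderiv ℂ i₀ f * Θ.adjugate i₀ i₀ := by
  obtain ⟨i₀, hi⟩ := exists_pderiv_not_dvd hf.ne_zero (Prime.constantCoeff hf)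
  obtain ⟨γ, hγ, h⟩ := hP.nd
  refine ⟨i₀, fun h1 => ?_⟩
  rcases hf.dvd_or_dvd h1 with h2 | h2
  · exact hi h2
  · have h3 : f ∣ γ * (pderiv ℂ i₀ f * pderiv ℂ i₀ f) := by
      simpa using dvd_sub h2 (h i₀ i₀)
    rcases hf.dvd_or_dvd (hγ.dvd_mul_left.1 h3) with h4 | h4 <;> exact hi h4

variable {κ : Type} [Field κ] [Algebra ℂ κ]

omit [DecidableEq ι] in
theorem dfr_eq (φ : PS ι →ₐ[ℂ] κ) (v : ι → PS ι) (a b : PS ι) :
    dfr φ v a b = dq φ a b ⬝ᵥ fun k => φ (v k) := by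
  simp only [dfr, dq, dotProduct, vf_apply, map_sum, map_mul, Finset.sum_mul, Finset.mul_sum]
  rw [← Finset.sum_sub_distrib, Finset.sum_div]
  exact Finset.sum_congr rfl fun k _ => by ring

omit [DecidableEq ι] in
theorem dot_comb (u ξ x : ι → κ) (T : ι → ι → κ) (h : ∀ k, x k = ∑ i, ξ i * T i k) :
    u ⬝ᵥ x = ∑ i, ξ i * u ⬝ᵥ T i := by
  simp only [dotProduct, h, Finset.mul_sum]
  rw [Finset.sum_comm]
  exact Finset.sum_congr rfl fun i _ => Finset.sum_congr rfl fun k _ => by ring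

omit [DecidableEq ι] in
theorem bil {S : Type} [Fintype S] (c : S → κ) (p q : S → ι → κ) (ξ ζ : ι → κ) :
    ∑ i, ξ i * ∑ l, ζ l * -∑ s, c s * (p s i * q s l - q s i * p s l) =
      ∑ s, -c s * ((∑ i, ξ i * p s i) * (∑ l, ζ l * q s l) -
        (∑ i, ξ i * q s i) * ∑ l, ζ l * p s l) := by
  have h1 : ∀ s, -c s * ((∑ i, ξ i * p s i) * (∑ l, ζ l * q s l) -
      (∑ i, ξ i * q s i) * ∑ l, ζ l * p s l) =
      ∑ i, ∑ l, ξ i * (ζ l * -(c s * (p s i * q s l - q s i * p s l))) := fun s => by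
    rw [Finset.sum_mul_sum, Finset.sum_mul_sum, ← Finset.sum_sub_distrib, Finset.mul_sum]
    refine Finset.sum_congr rfl fun i _ => ?_
    rw [← Finset.sum_sub_distrib, Finset.mul_sum]
    exact Finset.sum_congr rfl fun l _ => by ring
  simp only [h1]
  rw [Finset.sum_comm]
  refine Finset.sum_congr rfl fun i _ => ?_
  rw [Finset.sum_comm, Finset.mul_sum]
  refine Finset.sum_congr rfl fun l _ => ?_
  rw [← Finset.sum_neg_distrib, Finset.mul_sum, Finset.mul_sum]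

end KAE

open KAE in
theorem kae : S_KAE := by
  intro ι _ _ f Θ hf hP
  obtain ⟨i₀, hi⟩ := exists_index hf hP
  refine ⟨⟨_, hi, fun x hx => ?_⟩, fun κ _ _ φ hφ => ?_⟩
  · have h0 : Ideal.Quotient.mk (Ideal.span {f}) f = 0 :=
      Ideal.Quotient.eq_zero_iff_mem.2 (Ideal.mem_span_singleton_self f)
    obtain ⟨η, hη⟩ := core' hP (Ideal.Quotient.mk (Ideal.span {f})) h0 i₀
      (fun k => Ideal.Quotient.mk (Ideal.span {f}) (x k))
      (by simpa only [mul_comm] using tang _ h0 hx)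
    choose η' hη' using fun i => Ideal.Quotient.mk_surjective (η i)
    refine ⟨η', fun k => ?_⟩
    rw [← Ideal.mem_span_singleton, ← Ideal.Quotient.eq, map_mul, hη k, map_sum]
    simp only [map_mul, hη']
  · have h0 : φ f = 0 := (hφ f).2 dvd_rfl
    have hspan : ∀ x : ι → κ, ∑ k, φ (pderiv ℂ k f) * x k = 0 →
        ∃ ξ : ι → κ, ∀ k, x k = ∑ i, ξ i * φ (Θ i k) := fun x hx => by
      obtain ⟨η, hη⟩ := core' hP (φ : PS ι →+* κ) h0 i₀ x hx
      have hs : φ (pderiv ℂ i₀ f * Θ.adjugate i₀ i₀) ≠ 0 := fun h => hi ((hφ _).1 h)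
      refine ⟨fun i => (φ (pderiv ℂ i₀ f * Θ.adjugate i₀ i₀))⁻¹ * η i, fun k => ?_⟩
      have h1 : φ (pderiv ℂ i₀ f * Θ.adjugate i₀ i₀) * x k = ∑ i, η i * φ (Θ i k) := hη k
      simp only [mul_assoc]
      rw [← Finset.mul_sum, ← h1, inv_mul_cancel_left₀ hs]
    have hsk : ∀ i l, φ (Θ l i) = -φ (Θ i l) := fun i l => by
      have h1 : Θ l i = -Θ i l := congrFun (congrFun hP.skew i) l
      rw [h1, map_neg]
    refine ⟨hspan, fun V => ⟨?_, ?_⟩⟩
    · rintro ⟨S, _, c, a, b, a', b', h1, h2⟩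
      refine ⟨S, inferInstance, fun s => -c s, a, b, a', b',
        fun s => ⟨V.neg_mem _ (h1 s).1, (h1 s).2⟩, fun ξ x y hx hy => ?_⟩
      obtain ⟨ζ, hζ⟩ := hspan y hy
      simp only [dfr_eq] at h2
      simp only [dot_comb _ ξ x (fun i k => φ (Θ i k)) hx, dot_comb _ ζ y (fun i k => φ (Θ i k)) hζ]
      rw [← bil]
      refine Finset.sum_congr rfl fun i _ => ?_
      rw [hζ i]
      congr 1
      exact Finset.sum_congr rfl fun l _ => by rw [hsk i l, h2 i l]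
    · rintro ⟨S, _, c, a, b, a', b', h1, h2⟩
      refine ⟨S, inferInstance, fun s => -c s, a, b, a', b',
        fun s => ⟨V.neg_mem _ (h1 s).1, (h1 s).2⟩, fun k l => ?_⟩
      have h3 := h2 (Pi.single k 1) (fun j => φ (Θ k j)) (fun j => φ (Θ l j))
        (fun j => by simp [Pi.single_apply])
        (by simpa only [mul_comm, RingHom.coe_coe] using tang (φ : PS ι →+* κ) h0 (hP.tang l))
      have h4 : ∑ i, (Pi.single k 1 : ι → κ) i * φ (Θ l i) = φ (Θ l k) := by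
        simp [Pi.single_apply]
      rw [h4] at h3
      simp only [dfr_eq, neg_mul, Finset.sum_neg_distrib]
      rw [← h3, hsk l k]

end Pool.Agent.MP_51db15_ag.Hy
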