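import Pool.Agent.MP_51db15_ag.Hy.Rows
import Pool.Agent.MP_51db15_ag.Hy.Base

/-! A series whose gradient is a multiple of it on a subvariety vanishes there. -/

namespace Pool.Agent.MP_51db15_ag.Hy

open MvPowerSeries

namespace RAD

theorem loc {ι σ : Type} [Fintype σ] (Q : Ideal (PS ι)) (j : PS σ →+* PS ι ⧸ Q) (hj : j.Finite)
    (n : Ideal (PS ι ⧸ Q)) [n.IsPrime] (h : ∀ i, j (X i) ∈ n) (g : PS ι)
    (hg : constantCoeff g = 0) : Ideal.Quotient.mk Q g ∈ n := by
  have h1 : IsLocalRing.maximalIdeal (PS σ) ≤ n.comap j := by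
    rw [max_eq_span, Ideal.span_le]
    rintro _ ⟨i, rfl⟩
    exact h i
  have h2 : (n.comap j).IsMaximal := by
    rw [← (IsLocalRing.maximalIdeal.isMaximal _).eq_of_le (Ideal.IsPrime.ne_top inferInstance) h1]
    infer_instance
  have h3 := Ideal.isMaximal_of_isIntegral_of_isMaximal_comap' j hj.to_isIntegral n h2
  have h4 := Ideal.comap_isMaximal_of_surjective (Ideal.Quotient.mk Q) Ideal.Quotient.mk_surjective
    (K := n)
  rw [← Ideal.mem_comap, IsLocalRing.eq_maximalIdeal h4]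
  exact mem_max_iff.2 hg

/-- the elements of positive order -/
def pos {K S : Type} [Field K] [CommRing S] (v : DV K) (ρ : S →+* K) (h : ∀ s, v.Ge 0 (ρ s)) :
    Ideal S where
  carrier := {s | v.Ge 1 (ρ s)}
  add_mem' := fun ha hb => by simpa using DV.Ge.add ha hb
  zero_mem' := by simpa using DV.ge_zero 1
  smul_mem' := fun c x hx => by simpa using (h c).mul_left hx

theorem pos_prime {K S : Type} [Field K] [CommRing S] (v : DV K) (ρ : S →+* K)
    (h : ∀ s, v.Ge 0 (ρ s)) : (pos v ρ h).IsPrime := by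
  refine ⟨(Ideal.ne_top_iff_one _).2 fun h1 => DV.not_ge_one_one (v := v) ?_, fun {x y} hxy => ?_⟩
  · have : v.Ge 1 (ρ 1) := h1
    rwa [map_one] at this
  · have : v.Ge 1 (ρ (x * y)) := hxy
    exact DV.ge_one_mul (h x) (h y) (by rwa [map_mul] at this)

theorem pos_pow {K S : Type} [Field K] [CommRing S] (v : DV K) (ρ : S →+* K)
    (h : ∀ s, v.Ge 0 (ρ s)) (k : ℕ) : ∀ s ∈ pos v ρ h ^ k, v.Ge k (ρ s) := by
  induction k with
  | zero => exact fun s _ => h s
  | succ k ih =>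
    intro s hs
    rw [pow_succ] at hs
    refine Submodule.mul_induction_on hs (fun a ha b hb => ?_) fun a b ha hb => ?_
    · rw [map_mul]
      exact (ih a ha).mul' hb (by push_cast; rfl)
    · rw [map_add]
      exact ha.add hb

theorem chain (p1 : S_P1) {ι K : Type} [Fintype ι] [Field K] (v : DV K) (ρ : PS ι →+* K)
    (D : K →+ K) (hD : Leib D) (h : ∀ g, v.Ge 0 (ρ g)) (hX : ∀ i, v.Ge 1 (ρ (X i)))
    (hV : ∀ y, v.Ge 0 y → v.Ge 0 (D y)) (hC : ∀ c, D (ρ (C c)) = 0) (g : PS ι) :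
    D (ρ g) = ∑ i, ρ (pderiv ℂ i g) * D (ρ (X i)) := by
  have h0 : ∀ s : v.ring, v.Ge 0 (v.ring.subtype s) := fun s => s.2
  have := p1 ℂ ι v.ring (ρ.codRestrict v.ring h)
    ((D.comp ρ.toAddMonoidHom).codRestrict v.ring fun g => hV _ (h g)) (pos v v.ring.subtype h0)
    (fun a b => Subtype.ext (by
      change D (ρ (a * b)) = ρ a * D (ρ b) + D (ρ a) * ρ b
      rw [map_mul, hD, mul_comm (ρ b)]))
    (fun c => Subtype.ext (hC c)) hX (fun s hs => Subtype.ext (by
      by_contra h1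
      have := (pos_pow v _ h0 _ s (hs ((v.ord s).toNat + 1))).le h1
      change _ ≤ v.ord s at this
      omega)) g
  have h2 := congrArg v.ring.subtype this
  rw [map_sum] at h2
  exact h2

end RAD

theorem rad (p1 : S_P1) (nn : S_NN) (extv : S_EXTV) : S_RAD := by
  intro ι _ Q f b hQ hf hb
  obtain ⟨d, ε, ψ, hinj, hfin⟩ := nn ι Q hQ.ne_top
  obtain ⟨j, hj, hjC⟩ : ∃ j, j = (Ideal.Quotient.mk Q).comp ((ψ : PS ι →+* PS ι).comp
      (rename ε : PS (Fin d) →ₐ[ℂ] PS ι).toRingHom) ∧ ∀ c, j (C c) = Ideal.Quotient.mk Q (C c) :=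
    ⟨_, rfl, fun c => congrArg (Ideal.Quotient.mk Q)
      ((congrArg ψ ((rename ε : PS (Fin d) →ₐ[ℂ] PS ι).commutes c)).trans (ψ.commutes c))⟩
  have hi : Function.Injective j := (injective_iff_map_eq_zero j).2 fun g hg =>
    hinj g (Ideal.Quotient.eq_zero_iff_mem.1 (by rw [hj] at hg; exact hg))
  rw [← hj] at hfin
  rcases isEmpty_or_nonempty (Fin d) with h0 | h0
  · exact Ideal.Quotient.eq_zero_iff_mem.1 (RAD.loc Q j hfin ⊥ (fun i => isEmptyElim i) f hf)
  by_contra hfQ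
  obtain ⟨h1, v, e, m, he, hm, hS, hord, -, hlast⟩ :=
    extv ℂ (Fin d) (PS ι ⧸ Q) j hi hfin (fun _ => 1) fun _ => one_pos
  obtain ⟨D, hD, hDj⟩ := h1 (vf fun i : Fin d => C ((1 : ℕ) : ℂ) * X i).toLinearMap.toAddMonoidHom
    fun a b => Derivation.leibniz _ a b
  replace hlast := hlast D hD hDj
  let ρ : PS ι →+* FractionRing (PS ι ⧸ Q) := (algebraMap _ _).comp (Ideal.Quotient.mk Q)
  have hρ : ∀ g, v.Ge 0 (ρ g) := fun g => hS _
  have hρQ : ∀ g, ρ g = 0 ↔ g ∈ Q := fun g => by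
    rw [← Ideal.Quotient.eq_zero_iff_mem]
    exact map_eq_zero_iff _ (IsFractionRing.injective (PS ι ⧸ Q) (FractionRing (PS ι ⧸ Q)))
  have := RAD.pos_prime v _ hS
  have hpos : ∀ g, constantCoeff g = 0 → v.Ge 1 (ρ g) :=
    RAD.loc Q j hfin (RAD.pos v _ hS) fun i => by
      have hX : (X i : PS (Fin d)) ≠ 0 := fun h => by simpa using congrArg (pderiv ℂ i) h
      have h2 := hord (X i) hX
      have h3 : (1 : ℕ∞) ≤ (X i : PS (Fin d)).order :=
        one_le_order_iff_constCoeff_eq_zero.2 (by simp)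
      rw [← ne_zero_iff_order_finite.1 hX] at h3
      have h4 : 1 ≤ (X i : PS (Fin d)).order.toNat := by exact_mod_cast h3
      have h5 : (0 : ℤ) < m * v.ord (algebraMap _ _ (j (X i))) := by
        rw [h2]
        exact mul_pos (by exact_mod_cast he) (by exact_mod_cast h4)
      exact Or.inr ((mul_pos_iff_of_pos_left (by exact_mod_cast hm)).1 h5)
  have hc : ∀ y, (m : FractionRing (PS ι ⧸ Q)) * (v.ord y : FractionRing (PS ι ⧸ Q)) /
      (e : FractionRing (PS ι ⧸ Q)) = (ρ.comp C) ((m : ℂ) * (v.ord y : ℂ) / (e : ℂ)) := fun y => by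
    rw [map_div₀, map_mul, map_natCast, map_natCast, map_intCast]
  have hV : ∀ (k : ℤ) y, v.Ge k y → v.Ge k (D y) := fun k y hy => by
    by_cases h : y = 0
    · rw [h, map_zero]; exact DV.ge_zero k
    have h2 := ((hlast y h).mono zero_le_one).add (hc y ▸ hρ _)
    rw [sub_add_cancel] at h2
    simpa [mul_div_cancel₀ _ h] using hy.mul_right h2
  have hch := RAD.chain p1 v ρ D hD hρ (fun i => hpos _ (by simp)) (hV 0) (fun c => by
    change D (algebraMap _ _ (Ideal.Quotient.mk Q (C c))) = 0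
    rw [← hjC, hDj]
    change algebraMap _ _ (j (vf _ (C c))) = 0
    rw [vf_C, map_zero, map_zero]) f
  have hy : ρ f ≠ 0 := fun h => hfQ ((hρQ f).1 h)
  have e1 : D (ρ f) / ρ f = ∑ i, ρ (b i) * D (ρ (X i)) := by
    rw [hch, div_eq_iff hy, Finset.sum_mul]
    refine Finset.sum_congr rfl fun i _ => ?_
    have := (hρQ _).2 (hb i)
    rw [map_sub, map_mul, sub_eq_zero] at this
    rw [this]
    ring
  have e2 : v.Ge 1 (D (ρ f) / ρ f) :=
    e1 ▸ DV.Ge.sum fun i _ => (hρ _).mul_left (hV 1 _ (hpos _ (by simp)))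
  have e3 := e2.sub (hlast _ hy)
  rw [sub_sub_cancel, hc] at e3
  have e4 : (m : ℂ) * (v.ord (ρ f) : ℂ) / (e : ℂ) ≠ 0 := by
    have := (hpos f hf).le hy
    refine div_ne_zero (mul_ne_zero ?_ ?_) ?_
    · exact_mod_cast hm.ne'
    · exact_mod_cast (by omega : v.ord (ρ f) ≠ 0)
    · exact_mod_cast he.ne'
  have e5 := e3.mul_right (hρ (C ((m : ℂ) * (v.ord (ρ f) : ℂ) / (e : ℂ))⁻¹))
  rw [RingHom.comp_apply, ← map_mul, ← map_mul, mul_inv_cancel₀ e4, map_one, map_one] at e5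
  exact DV.not_ge_one_one e5

end Pool.Agent.MP_51db15_ag.Hy
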