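import Pool.Agent.MP_51db15_ag.Hy.Spec

/-! Statements of the steps of the hypersurface case, one proposition each. -/

namespace Pool.Agent.MP_51db15_ag.Hy

open MvPowerSeries Matrix

/-! ### Power series -/

/-- chain rule for a derivation along a local map -/
def S_P1 : Prop := ∀ (F ι S : Type) [Field F] [Fintype ι] [CommRing S]
  (ρ : MvPowerSeries ι F →+* S) (D : MvPowerSeries ι F →+ S) (n : Ideal S),
  (∀ g h, D (g * h) = ρ g * D h + D g * ρ h) → (∀ c, D (C c) = 0) → (∀ i, ρ (X i) ∈ n) →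
  (∀ s, (∀ k : ℕ, s ∈ n ^ k) → s = 0) → ∀ g, D g = ∑ i, ρ (pderiv F i g) * D (X i)

/-- inverse function theorem -/
def S_P2 : Prop := ∀ (F ι : Type) [Field F] [Fintype ι] [DecidableEq ι]
  (y : ι → MvPowerSeries ι F), (∀ i, constantCoeff (y i) = 0) → (lin y).det ≠ 0 →
  ∃ ψ : MvPowerSeries ι F ≃ₐ[F] MvPowerSeries ι F, ∀ i, ψ (X i) = y i

/-- basic facts on algebra maps of power series rings -/
def S_P3 : Prop := (∀ (F ι ι' : Type) [Field F] [Fintype ι] [Fintype ι']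
    (ψ : MvPowerSeries ι F →ₐ[F] MvPowerSeries ι' F),
    (∀ g, constantCoeff (ψ g) = constantCoeff g) ∧ (∀ g, g.order ≤ (ψ g).order) ∧
    (∀ g j, pderiv F j (ψ g) = ∑ i, ψ (pderiv F i g) * pderiv F j (ψ (X i))) ∧
    ∀ ψ' : MvPowerSeries ι F →ₐ[F] MvPowerSeries ι' F, (∀ i, ψ (X i) = ψ' (X i)) → ψ = ψ') ∧
  (∀ (F ι : Type) [Field F] [Fintype ι] (g : MvPowerSeries ι F) (r : ℕ),
    g ∈ IsLocalRing.maximalIdeal (MvPowerSeries ι F) ^ r ↔ (r : ℕ∞) ≤ g.order)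

/-- Taylor map of commuting derivations -/
def S_TH : Prop := ∀ (A L σ : Type) [CommRing A] [CommRing L] [Algebra ℚ L] [Fintype σ]
  (ρ : A →+* L) (D : σ → A →+ A), (∀ i, Leib (D i)) → (∀ i j a, D i (D j a) = D j (D i a)) →
  ∃ τ : A →+* MvPowerSeries σ L, (∀ a, constantCoeff (τ a) = ρ a) ∧
    ∀ i a, τ (D i a) = pderiv L i (τ a)

/-- straightening of a vector field -/
def S_STR : Prop := ∀ (ι : Type) [Fintype ι] [DecidableEq ι] (v : ι → PS ι) (t : PS ι),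
  constantCoeff t = 0 → vf v t = 1 →
  ∃ (κ : Type) (_ : Fintype κ) (_ : DecidableEq κ) (ψ : PS ι ≃ₐ[ℂ] PS (Option κ)),
    Fintype.card κ + 1 = Fintype.card ι ∧ ψ t = X none ∧
    (∀ g, ψ (vf v g) = pderiv ℂ none (ψ g)) ∧
    (∀ g, vf v g = 0 → ∃ g₁ : PS κ, ψ g = rename some g₁) ∧
    ∀ f, f ∣ vf v f → ∃ (u : (PS (Option κ))ˣ) (f₁ : PS κ), ψ f = u * rename some f₁

/-- Weierstrass preparation and division, generic coordinates -/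
def S_WP : Prop := ∀ (F : Type) [Field F] (n : ℕ),
  (∀ (g : MvPowerSeries (Fin (n + 1)) F) (k : ℕ), coeff (Finsupp.single 0 k) g ≠ 0 →
    (∀ i < k, coeff (Finsupp.single 0 i) g = 0) →
    ∃ (u : (MvPowerSeries (Fin (n + 1)) F)ˣ) (c : Fin k → MvPowerSeries (Fin n) F),
      (∀ i, constantCoeff (c i) = 0) ∧ g = (u : MvPowerSeries (Fin (n + 1)) F) * wpoly c) ∧
  (∀ (k : ℕ) (c : Fin k → MvPowerSeries (Fin n) F), (∀ i, constantCoeff (c i) = 0) →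
    (∀ h, ∃ (q : MvPowerSeries (Fin (n + 1)) F) (r : Fin k → MvPowerSeries (Fin n) F),
      h = q * wpoly c + ∑ i : Fin k, rename Fin.succ (r i) * X 0 ^ (i : ℕ)) ∧
    ∀ r : Fin k → MvPowerSeries (Fin n) F,
      wpoly c ∣ ∑ i : Fin k, rename Fin.succ (r i) * X 0 ^ (i : ℕ) → r = 0) ∧
  (CharZero F → ∀ (g : MvPowerSeries (Fin (n + 1)) F) (k : ℕ), g.order = k →
    ∃ ψ : MvPowerSeries (Fin (n + 1)) F ≃ₐ[F] MvPowerSeries (Fin (n + 1)) F,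
      coeff (Finsupp.single 0 k) (ψ g) ≠ 0 ∧ (ψ g).order = k)

/-- Noether normalisation -/
def S_NN : Prop := ∀ (ι : Type) [Fintype ι] (Q : Ideal (PS ι)), Q ≠ ⊤ →
  ∃ (d : ℕ) (e : Fin d ↪ ι) (ψ : PS ι ≃ₐ[ℂ] PS ι),
    (∀ g : PS (Fin d), ψ (rename e g) ∈ Q → g = 0) ∧
    ((Ideal.Quotient.mk Q).comp ((ψ : PS ι →+* PS ι).comp
      (rename e : PS (Fin d) →ₐ[ℂ] PS ι).toRingHom)).Finite

/-- Jacobian criterion -/
def S_NAG : Prop := ∀ (ι : Type) [Fintype ι] [DecidableEq ι] (Q : Ideal (PS ι)), Q.IsPrime →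
  ∃ u S, Nag Q u S

/-- the local parameters form a regular sequence -/
def S_NAGREG : Prop := ∀ (ι : Type) [Fintype ι] [DecidableEq ι] (Q : Ideal (PS ι))
  (u : ι → PS ι) (S : Finset ι), Q.IsPrime → Nag Q u S → ∀ T ⊆ S, ∀ j ∈ S, j ∉ T →
  ∀ g s, s ∉ Q → s * u j * g ∈ Ideal.span (u '' T) → ∃ s' ∉ Q, s' * g ∈ Ideal.span (u '' T)

/-- the height of a prime -/
def S_NAGHT : Prop := ∀ (ι : Type) [Fintype ι] [DecidableEq ι] (Q : Ideal (PS ι))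
  (u : ι → PS ι) (S : Finset ι), Q.IsPrime → Nag Q u S → Q.height = S.card

/-- Cohen-Macaulay property -/
def S_CM : Prop := ∀ (ι : Type) [Fintype ι] (I : Ideal (PS ι)) (rs : List (PS ι)),
  (∀ r ∈ rs, r ∈ I) → RingTheory.Sequence.IsWeaklyRegular (PS ι) rs →
  (rs.length : ℕ∞) < I.height →
  ∃ r ∈ I, RingTheory.Sequence.IsWeaklyRegular (PS ι) (rs ++ [r]) ∧
    ∀ g, r * g ∈ Ideal.ofList rs → g ∈ Ideal.ofList rs

/-- Taylor expansion at a prime of height three -/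
def S_TAY : Prop := ∀ (ι : Type) [Fintype ι] [DecidableEq ι] (Q : Ideal (PS ι))
  (u : ι → PS ι) (S : Finset ι), Q.IsPrime → Nag Q u S → S.card = 3 →
  ∃ (J L : Type) (_ : Fintype J) (_ : Field L) (_ : Algebra ℂ L)
    (τ : PS ι →+* MvPowerSeries (Fin 3) L)
    (δ : J → MvPowerSeries (Fin 3) L →+ MvPowerSeries (Fin 3) L), Tay Q τ δ

/-- extension of a monomial valuation and of derivations to a finite extension -/
def S_EXTV : Prop := ∀ (F σ S : Type) [Field F] [CharZero F] [Fintype σ] [Nonempty σ]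
  [CommRing S] [IsDomain S] (j : MvPowerSeries σ F →+* S), Function.Injective j → j.Finite →
  ∀ w : σ → ℕ, (∀ i, 0 < w i) →
  (∀ D₀ : MvPowerSeries σ F →+ MvPowerSeries σ F, Leib D₀ →
    ∃ D : FractionRing S →+ FractionRing S, Leib D ∧
      ∀ g, D (algebraMap S _ (j g)) = algebraMap S _ (j (D₀ g))) ∧
  ∃ (v : DV (FractionRing S)) (e m : ℕ), 0 < e ∧ 0 < m ∧
    (∀ s : S, v.Ge 0 (algebraMap S _ s)) ∧
    (∀ g, g ≠ 0 → m * v.ord (algebraMap S _ (j g)) = e * (g.weightedOrder w).toNat) ∧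
    (∀ (D : FractionRing S →+ FractionRing S) (D₀ : MvPowerSeries σ F →+ MvPowerSeries σ F),
      Leib D → (∀ g, D (algebraMap S _ (j g)) = algebraMap S _ (j (D₀ g))) →
      (∀ g, g.weightedOrder w ≤ (D₀ g).weightedOrder w) → ∀ y, v.Ge 0 y → v.Ge 0 (D y)) ∧
    ∀ D : FractionRing S →+ FractionRing S, Leib D →
      (∀ g, D (algebraMap S _ (j g)) =
        algebraMap S _ (j (vf (fun i => C (w i : F) * X i) g))) →
      ∀ y, y ≠ 0 → v.Ge 1 (D y / y -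
        (m : FractionRing S) * (v.ord y : FractionRing S) / (e : FractionRing S))

/-- a series whose gradient is a multiple of it on a subvariety vanishes there -/
def S_RAD : Prop := ∀ (ι : Type) [Fintype ι] (Q : Ideal (PS ι)) (f : PS ι) (b : ι → PS ι),
  Q.IsPrime → constantCoeff f = 0 → (∀ i, pderiv ℂ i f - f * b i ∈ Q) → f ∈ Q

/-- the singular locus of a normal hypersurface has codimension at least two -/
def S_SING : Prop := ∀ (ι : Type) [Fintype ι] [DecidableEq ι] (f : PS ι) (Q : Ideal (PS ι)),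
  Hyp f → Q.IsPrime → f ∈ Q → (∀ i, pderiv ℂ i f ∈ Q) → 3 ≤ Q.height

/-- extension of functions over the singular locus -/
def S_HART : Prop := ∀ (ι : Type) [Fintype ι] [DecidableEq ι] (f s g : PS ι) (M : ℕ),
  Hyp f → ¬ f ∣ s → (∀ i, ∃ h, f ∣ pderiv ℂ i f ^ M * g - s * h) → ∃ h, f ∣ g - s * h

/-- minimal primes of differential ideals -/
def S_MINP : Prop := ∀ (A : Type) [CommRing A] [Algebra ℚ A] (D : A →+ A) (I Q : Ideal A),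
  Leib D → (∀ a ∈ I, D a ∈ I) → Q ∈ I.minimalPrimes → ∀ a ∈ Q, D a ∈ Q

/-- extension of a derivation to the fraction field -/
def S_LIFT : Prop := ∀ (A K : Type) [CommRing A] [Algebra ℂ A] [Field K] [Algebra ℂ K]
  (φ : A →ₐ[ℂ] K) (D₀ : A →ₗ[ℂ] K), (∀ y, ∃ a b, y = φ a / φ b) →
  (∀ a b, D₀ (a * b) = φ a * D₀ b + φ b * D₀ a) → (∀ a, φ a = 0 → D₀ a = 0) →
  ∃ D : Derivation ℂ K K, ∀ a, D (φ a) = D₀ a

/-! ### Pfaffians -/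

def S_PF : Prop := ∀ (A ι : Type) [CommRing A] [Algebra ℚ A] [Fintype ι] [DecidableEq ι]
  (Θ : Matrix ι ι A), Odd (Fintype.card ι) → Θᵀ = -Θ →
  ∃ (c : A) (π : ι → A), Θ.adjugate = c • vecMulVec π π ∧ Θ *ᵥ π = 0

def S_PI : Prop := ∀ (ι : Type) [Fintype ι] [DecidableEq ι] (f : PS ι) (Θ : Matrix ι ι (PS ι)),
  Hyp f → Poi f Θ → ∃ π g b, PiData f Θ π g b

/-- exactness of the Pfaffian complex and unmixedness -/
def S_BE : Prop := ∀ (ι : Type) [Fintype ι] [DecidableEq ι] (Θ : Matrix ι ι (PS ι))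
  (π : ι → PS ι) (c : PS ι), Θᵀ = -Θ → IsUnit c → Θ.adjugate = c • vecMulVec π π →
  Θ *ᵥ π = 0 → 3 ≤ (Ideal.span (Set.range π)).height →
  (∀ v, Θ *ᵥ v = 0 → ∃ r : PS ι, v = r • π) ∧ (∀ v, π ⬝ᵥ v = 0 → ∃ a, v = Θ *ᵥ a) ∧
  ∀ Q : Ideal (PS ι), 4 ≤ Q.height → ∀ h, (∀ q ∈ Q, q * h ∈ Ideal.span (Set.range π)) →
    h ∈ Ideal.span (Set.range π)

def S_UNM : Prop := ∀ (ι : Type) [Fintype ι] [DecidableEq ι] (f : PS ι) (Θ : Matrix ι ι (PS ι))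
  (π : ι → PS ι) (g : PS ι) (b : ι → PS ι), Hyp f → PiData f Θ π g b →
  3 ≤ (Ideal.span (Set.range π)).height ∧
  ∀ h, (∀ Q : Ideal (PS ι), Q.IsPrime → f ∈ Q → (∀ i, pderiv ℂ i f ∈ Q) → Q.height = 3 →
    ∃ s ∉ Q, s * h ∈ Ideal.span (Set.range π)) → h ∈ Ideal.span (Set.range π)

def S_BE2 : Prop := ∀ (ι : Type) [Fintype ι] [DecidableEq ι] (f : PS ι) (Θ : Matrix ι ι (PS ι))
  (π : ι → PS ι) (g : PS ι) (b χ : ι → PS ι), Hyp f → PiData f Θ π g b →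
  (∀ i, constantCoeff (χ i) = 0) → vf χ f = f → BEData f (thp Θ b χ)

/-! ### Forms -/

/-- tangent vectors are combinations of Hamiltonian fields; the two forms of the Kaehler
condition -/
def S_KAE : Prop := ∀ (ι : Type) [Fintype ι] [DecidableEq ι] (f : PS ι) (Θ : Matrix ι ι (PS ι)),
  Prime f → Poi f Θ →
  (∃ s, ¬ f ∣ s ∧ ∀ x, Log f x → ∃ η : ι → PS ι, ∀ k, f ∣ s * x k - ∑ i, η i * Θ i k) ∧
  ∀ (κ : Type) [Field κ] [Algebra ℂ κ] (φ : PS ι →ₐ[ℂ] κ), KerIs f φ →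
    (∀ x : ι → κ, ∑ k, φ (pderiv ℂ k f) * x k = 0 → ∃ ξ : ι → κ, ∀ k, x k = ∑ i, ξ i * φ (Θ i k)) ∧
    ∀ V, Kae φ (fun i => Θ i) (fun i j => Θ i j) V ↔ KaeW f φ Θ V

def S_FORM : Prop := ∀ (ι : Type) [Fintype ι] [DecidableEq ι] (f : PS ι) (Θ : Matrix ι ι (PS ι)),
  Hyp f → Poi f Θ → ∃ r, IsForm f r ∧ Closed f r ∧ Ham f r Θ

def S_POI : Prop := ∀ (ι : Type) [Fintype ι] [DecidableEq ι] (f : PS ι) (Θ : Matrix ι ι (PS ι))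
  (r : (ι → PS ι) → (ι → PS ι) → PS ι), Hyp f → IsForm f r → Closed f r → Θᵀ = -Θ →
  Ham f r Θ → Poi f Θ

/-- the hypotheses of the theorem give a bivector -/
def S_INIT : Prop := ∀ (ι : Type) [Fintype ι] [DecidableEq ι] (f : PS ι)
  [IsDomain (PS ι ⧸ Ideal.span {f})], Hyp f →
  ∀ ω : LinearMap.BilinForm (PS ι ⧸ Ideal.span {f})
    (Derivation ℂ (PS ι ⧸ Ideal.span {f}) (PS ι ⧸ Ideal.span {f})), IsSymplecticForm ω →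
  (∀ V : ValuationSubring (FractionRing (PS ι ⧸ Ideal.span {f})),
    (∀ r : PS ι ⧸ Ideal.span {f}, algebraMap _ _ r ∈ V) → KaehlerOn ω V) →
  ∃ Θ, Poi f Θ ∧ Ext f Θ

/-- transport of the algebraic data -/
def S_REL : Prop := ∀ (ι ι' : Type) [Fintype ι] [DecidableEq ι] [Fintype ι'] [DecidableEq ι']
  (f : PS ι) (Θ : Matrix ι ι (PS ι)) (ψ : PS ι ≃ₐ[ℂ] PS ι'),
  (Θᵀ = -Θ → Rel f Θ (ψ f) (tr ψ Θ) ψ) ∧
  ∀ (f' : PS ι') (Θ' : Matrix ι' ι' (PS ι')), Fintype.card ι = Fintype.card ι' →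
    Rel f Θ f' Θ' ψ → Prime f → Poi f Θ →
    Prime f' ∧ (Hyp f → Hyp f') ∧ Poi f' Θ' ∧ (Sing0 f → Sing0 f') ∧ (Van Θ → Van Θ') ∧
      ∀ g h, f' ∣ br Θ' (ψ g) (ψ h) - ψ (br Θ g h)

/-- transport of the extension properties -/
def S_RELX : Prop := ∀ (ι ι' : Type) [Fintype ι] [DecidableEq ι] [Fintype ι'] [DecidableEq ι']
  (f : PS ι) (Θ : Matrix ι ι (PS ι)) (ψ : PS ι ≃ₐ[ℂ] PS ι') (f' : PS ι')
  (Θ' : Matrix ι' ι' (PS ι')), Fintype.card ι = Fintype.card ι' → Rel f Θ f' Θ' ψ → Prime f →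
  Poi f Θ → (Ext f Θ → Ext f' Θ') ∧ (WExt f Θ → WExt f' Θ') ∧
    ∀ e e', (∀ k, f' ∣ e' k - ψ (vf e (ψ.symm (X k)))) → EExt f Θ e → EExt f' Θ' e'

/-! ### Valuation engine -/

def S_CONE : Prop := ∀ (k : Type) [Field k] [CharZero k] (r : ℕ)
  (I : Ideal (MvPolynomial (Fin r) k)) (A : Matrix (Fin r) (Fin r) k),
  (∀ g ∈ I, ∀ n, MvPolynomial.homogeneousComponent n g ∈ I) →
  (∀ g ∈ I, ∑ i, (∑ j, MvPolynomial.C (A i j) * MvPolynomial.X j) * MvPolynomial.pderiv i g ∈ I) →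
  (∀ n : ℕ, ∃ g, MvPolynomial.IsHomogeneous g n ∧ g ∉ I) →
  ∃ (p : Fin r → AlgebraicClosure k) (l : AlgebraicClosure k), p ≠ 0 ∧
    (∀ g ∈ I, MvPolynomial.aeval p g = 0) ∧
    ∀ i, ∑ j, algebraMap k _ (A i j) * p j = l * p i

/-- one blowing up step -/
def S_STEP : Prop := ∀ (K : Type) [Field K] [Algebra ℂ K] (B : Subalgebra ℂ K) (n : Set K)
  (Y : Derivation ℂ K K) (r : ℕ) (g : Fin r → K) (A : Fin r → Fin r → K),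
  (∀ y, y ∈ n ↔ y ∈ B ∧ (y = 0 ∨ y⁻¹ ∉ B)) → (∀ y ∈ n, ∀ z ∈ n, y + z ∈ n) →
  (∀ y ∈ B, Y y ∈ n) → (∀ i, g i ∈ B) → (∃ i, g i ≠ 0) → (∀ i j, A i j ∈ B) →
  (∀ i, Y (g i) = ∑ j, A i j * g j) →
  ∃ i, g i ≠ 0 ∧ ∃ (B' : Subalgebra ℂ K) (P : Ideal B'),
    B' = B ⊔ Algebra.adjoin ℂ (Set.range fun j => g j / g i) ∧ P ≠ ⊤ ∧
      ∀ y : B', ((y : K) ∈ n → y ∈ P) ∧ ∀ z : B', (z : K) = Y y → z ∈ P

def S_ZORN : Prop := ∀ (K : Type) [Field K] [Algebra ℂ K] (R : Subalgebra ℂ K)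
  (Y D : Derivation ℂ K K) (c : ℂ) (P : Ideal R), IsNoetherianRing R →
  (∀ y : K, ∃ a ∈ R, ∃ b ∈ R, y = a / b) → P.IsPrime →
  (∀ y, D (Y y) - Y (D y) = c • Y y) → (∀ a : R, ∃ b ∈ P, Y a = b) → (∀ a ∈ R, D a ∈ R) →
  (∀ a ∈ P, ∃ b ∈ P, D a = b) →
  ∃ V : ValuationSubring K, (∀ a ∈ R, a ∈ V) ∧ (∀ a : R, (a : K) ∈ V.nonunits ↔ a ∈ P) ∧
    (∀ y ∈ V, Y y ∈ V.nonunits) ∧ ∀ y ∈ V, D y ∈ V

/-- tangency to the leaves -/
def S_LT : Prop := ∀ (ι : Type) [Fintype ι] [DecidableEq ι] (f : PS ι) (Θ : Matrix ι ι (PS ι))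
  (r : (ι → PS ι) → (ι → PS ι) → PS ι) (v y : ι → PS ι) (c : ℂ) (P : Ideal (PS ι)),
  Prime f → Poi f Θ → IsForm f r → Ham f r Θ → EExt f Θ v → Log f v → Log f y →
  (∀ k, f ∣ lie v y k - C c * y k) → P.IsPrime → f ∈ P → (∀ g ∈ P, vf v g ∈ P) →
  (∀ k, y k ∈ P) → r y v ∈ P

/-! ### The Euler field -/

def S_NV : Prop := ∀ (ι : Type) [Fintype ι] [DecidableEq ι] (f : PS ι) (Θ : Matrix ι ι (PS ι)),
  Hyp f → Poi f Θ → Ext f Θ → Van Θ → ∀ v, Log f v → ∀ i, constantCoeff (v i) = 0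

def S_VT : Prop := ∀ (ι : Type) [Fintype ι] [DecidableEq ι] (f : PS ι) (Θ : Matrix ι ι (PS ι))
  (Q : Ideal (PS ι)) (J L : Type) [Fintype J] [Field L] [Algebra ℂ L]
  (τ : PS ι →+* MvPowerSeries (Fin 3) L)
  (δ : J → MvPowerSeries (Fin 3) L →+ MvPowerSeries (Fin 3) L),
  Prime f → Poi f Θ → Ext f Θ → Q.IsPrime →
  (∃ r : ℕ, ∃ s ∉ Q, ∀ g ∈ Q ^ r, s * g ∈ Ideal.span (Set.range fun i => pderiv ℂ i f)) →
  Tay Q τ δ → Test (τ f)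

/-- core of the weight test, in fixed coordinates -/
def S_VT0 : Prop := ∀ (ι : Type) [Fintype ι] [DecidableEq ι] (f : PS ι) (Θ : Matrix ι ι (PS ι))
  (Q : Ideal (PS ι)) (J L : Type) [Fintype J] [Field L] [Algebra ℂ L]
  (τ : PS ι →+* MvPowerSeries (Fin 3) L)
  (δ : J → MvPowerSeries (Fin 3) L →+ MvPowerSeries (Fin 3) L),
  Prime f → Poi f Θ → Ext f Θ → Q.IsPrime →
  (∃ r : ℕ, ∃ s ∉ Q, ∀ g ∈ Q ^ r, s * g ∈ Ideal.span (Set.range fun i => pderiv ℂ i f)) →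
  Tay Q τ δ → (∀ j i, δ j (X i) = 0) →
  ∀ (u : (MvPowerSeries (Fin 3) L)ˣ) (k a₁ a₂ a₃ : ℕ) (c : Fin k → MvPowerSeries (Fin 2) L),
    0 < k → 0 < a₁ → 0 < a₂ → 0 < a₃ → τ f = (u : MvPowerSeries (Fin 3) L) * wpoly c →
    (∀ i : Fin k, (((k - i) * a₃ : ℕ) : ℕ∞) ≤ (c i).weightedOrder ![a₁, a₂]) →
      (k - 1) * a₃ < a₁ + a₂

def S_EUINV : Prop := ∀ (F σ : Type) [Field F] [Fintype σ] [DecidableEq σ]
  (G : MvPowerSeries σ F) (ψ : MvPowerSeries σ F ≃ₐ[F] MvPowerSeries σ F)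
  (u : (MvPowerSeries σ F)ˣ) (G' : MvPowerSeries σ F), ψ G = u * G' → Eu G' → Eu G

def S_EUA : Prop := ∀ (F : Type) [Field F] [CharZero F] (h : PowerSeries F)
  (u : (MvPowerSeries (Fin 2) F)ˣ), PowerSeries.constantCoeff h = 0 →
  Eu (X 0 ^ 2 + rename Fin.succ (u : MvPowerSeries (Fin 2) F) *
    (X 1 ^ 2 + h.toMvPowerSeries 2) : MvPowerSeries (Fin 3) F)

def S_EUB : Prop := ∀ (F : Type) [Field F] [CharZero F] (p q : PowerSeries F)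
  (u : (MvPowerSeries (Fin 2) F)ˣ), 2 ≤ p.order → 3 ≤ q.order → (p.order ≤ 3 ∨ q.order ≤ 5) →
  Eu (X 0 ^ 2 + rename Fin.succ (u : MvPowerSeries (Fin 2) F) *
    (X 1 ^ 3 + p.toMvPowerSeries 2 * X 1 + q.toMvPowerSeries 2) : MvPowerSeries (Fin 3) F)

/-- du Val classification, as far as it is needed -/
def S_A1A : Prop := ∀ (F : Type) [Field F] [CharZero F] (G : MvPowerSeries (Fin 3) F),
  G ≠ 0 → 2 ≤ G.order → Test G → Eu G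

def S_A1B : Prop := ∀ (ι : Type) [Fintype ι] [DecidableEq ι] (f : PS ι) (Q : Ideal (PS ι))
  (J L : Type) [Fintype J] [Field L] [Algebra ℂ L] (τ : PS ι →+* MvPowerSeries (Fin 3) L)
  (δ : J → MvPowerSeries (Fin 3) L →+ MvPowerSeries (Fin 3) L), Q.IsPrime →
  (∃ r : ℕ, ∃ s ∉ Q, ∀ g ∈ Q ^ r, s * g ∈ Ideal.span (Set.range fun i => pderiv ℂ i f)) →
  Tay Q τ δ → Eu (τ f) → EulerAt f Q

def S_A1 : Prop := ∀ (ι : Type) [Fintype ι] [DecidableEq ι] (f : PS ι) (Θ : Matrix ι ι (PS ι))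
  (Q : Ideal (PS ι)), Hyp f → Poi f Θ → Ext f Θ → Q.IsPrime → f ∈ Q →
  (∀ i, pderiv ℂ i f ∈ Q) → Q.height = 3 → EulerAt f Q

def S_A2 : Prop := ∀ (ι : Type) [Fintype ι] [DecidableEq ι] (f : PS ι) (Θ : Matrix ι ι (PS ι)),
  Hyp f → Poi f Θ → Ext f Θ → Van Θ →
  ∃ χ : ι → PS ι, (∀ i, constantCoeff (χ i) = 0) ∧ vf χ f = f

/-- normal form of a vector field -/
def S_JORD1 : Prop := ∀ (ι : Type) [Fintype ι] [DecidableEq ι] (a : ι → ℚ) (v : ι → PS ι),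
  (∀ i, constantCoeff (v i) = 0) → (∀ i, IsHom a (a i) (v i)) →
  ∃ (ψ : PS ι ≃ₐ[ℂ] PS ι) (c : ι → ℂ), (∀ e g, IsHom a e g ↔ IsHom a e (ψ g)) ∧
    (∀ i, IsHom c (c i) (ψ (vf v (ψ.symm (X i))))) ∧
    IsNilpotent (lin (fun i => ψ (vf v (ψ.symm (X i)))) - diagonal c)

/-- generalised eigenvectors of a field in normal form -/
def S_JORD2 : Prop := ∀ (ι : Type) [Fintype ι] [DecidableEq ι] (v : ι → PS ι) (c : ι → ℂ),
  (∀ i, constantCoeff (v i) = 0) → (∀ i, IsHom c (c i) (v i)) →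
  IsNilpotent (lin v - diagonal c) →
  (∀ e g, IsHom c e g → ∀ r : ℕ, ∃ M : ℕ,
    (r : ℕ∞) ≤ ((fun h => vf v h - C e * h)^[M] g).order) ∧
  ∀ I : Ideal (PS ι), (∀ h ∈ I, vf v h ∈ I) → (∀ g ∈ I, ∀ e, comp c e g ∈ I) ∧
    ∀ e g, (∀ r : ℕ, ∃ M : ℕ, ∃ h ∈ I,
      (r : ℕ∞) ≤ ((fun h => vf v h - C e * h)^[M] g - h).order) → g - comp c e g ∈ I

/-- a Poisson field in normal form grades the structure -/
def S_JPOI : Prop := ∀ (ι : Type) [Fintype ι] [DecidableEq ι] (f : PS ι) (Θ : Matrix ι ι (PS ι))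
  (a : ι → ℚ) (w d : ℚ) (v : ι → PS ι) (c : ι → ℂ), Prime f → Poi f Θ → Grd a w d f Θ →
  Log f v → (∀ g h, f ∣ vf v (br Θ g h) - br Θ (vf v g) h - br Θ g (vf v h)) →
  (∀ i, constantCoeff (v i) = 0) → (∀ i, IsHom c (c i) (v i)) →
  IsNilpotent (lin v - diagonal c) →
  ∃ (f' : PS ι) (Θ' : Matrix ι ι (PS ι)) (e : ℂ), Rel f Θ f' Θ' AlgEquiv.refl ∧
    Grd a w d f' Θ' ∧ IsHom c e f' ∧ ∀ i j, IsHom c (c i + c j) (Θ' i j)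

/-- homogeneous generators of the tangent fields -/
def S_GENS : Prop := ∀ (ι : Type) [Fintype ι] [DecidableEq ι] (f : PS ι) (a : ι → ℚ) (d : ℚ),
  IsHom a d f → ∃ (S : Type) (_ : Fintype S) (v : S → ι → PS ι) (e : S → ℚ),
    (∀ s, Log f (v s) ∧ HomV a (e s) (v s)) ∧
    ∀ x, Log f x → ∃ g : S → PS ι, x = ∑ s, g s • v s

def S_A4A : Prop := ∀ (ι : Type) [Fintype ι] [DecidableEq ι] (f : PS ι) (a : ι → ℚ) (d : ℚ)
  (r : (ι → PS ι) → (ι → PS ι) → PS ι), IsHom a d f → IsForm f r → Closed f r →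
  ∀ e, ∃ η, IsForm f η ∧ Closed f η ∧ IsComp f a e r η

def S_A4B : Prop := ∀ (ι : Type) [Fintype ι] [DecidableEq ι] (f : PS ι) (Θ : Matrix ι ι (PS ι))
  (b χ : ι → PS ι) (η : (ι → PS ι) → (ι → PS ι) → PS ι), Prime f → Poi f Θ → vf χ f = f →
  BEData f (thp Θ b χ) → IsForm f η → ∃ h, Str f Θ b χ η h

/-- the operator of a two-form is a scalar modulo the maximal ideal -/
def S_A4N : Prop := ∀ (ι : Type) [Fintype ι] [DecidableEq ι] (f : PS ι) (Θ : Matrix ι ι (PS ι))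
  (b χ : ι → PS ι) (r η : (ι → PS ι) → (ι → PS ι) → PS ι) (h : PS ι), Prime f → Poi f Θ →
  Van Θ → (∀ i, constantCoeff (χ i) = 0) → vf χ f = f → BEData f (thp Θ b χ) → IsForm f r →
  Ham f r Θ → IsForm f η → Str f Θ b χ η h → ∀ x, Log f x →
  Log f (fun j => η (Θ j) x) ∧ (∀ y, Log f y → f ∣ η x y - r (fun j => η (Θ j) x) y) ∧
    (fun j => η (Θ j) x) - h • x ∈ IsLocalRing.maximalIdeal (PS ι) • logM f ⊔
      Ideal.span {f} • (⊤ : Submodule (PS ι) (ι → PS ι))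

/-- some component has a unit scalar -/
def S_A4E : Prop := ∀ (ι : Type) [Fintype ι] [DecidableEq ι] (f : PS ι) (Θ : Matrix ι ι (PS ι))
  (b : ι → PS ι) (a : ι → ℚ) (r : (ι → PS ι) → (ι → PS ι) → PS ι), Prime f → Poi f Θ →
  Van Θ → Sing0 f → IsHom a 1 f → BEData f (thp Θ b (eul a)) → IsForm f r → Closed f r →
  Ham f r Θ → ∃ e η h, IsForm f η ∧ Closed f η ∧ IsComp f a e r η ∧ Str f Θ b (eul a) η h ∧ IsUnit h

/-- Hamiltonian fields of the new form -/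
def S_A4H : Prop := ∀ (ι : Type) [Fintype ι] [DecidableEq ι] (f : PS ι) (Θ : Matrix ι ι (PS ι))
  (b χ : ι → PS ι) (r η : (ι → PS ι) → (ι → PS ι) → PS ι) (h : PS ι), Prime f → Poi f Θ →
  Van Θ → (∀ i, constantCoeff (χ i) = 0) → vf χ f = f → BEData f (thp Θ b χ) → IsForm f r →
  Ham f r Θ → IsForm f η → Str f Θ b χ η h → IsUnit h → ∃ Θ', Ham f η Θ'

/-- homogeneous skew Hamiltonian fields -/
def S_A4G : Prop := ∀ (ι : Type) [Fintype ι] [DecidableEq ι] (f : PS ι) (Θ : Matrix ι ι (PS ι))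
  (a : ι → ℚ) (d e : ℚ) (r η : (ι → PS ι) → (ι → PS ι) → PS ι), IsHom a d f → IsForm f r →
  IsForm f η → IsComp f a e r η → Ham f η Θ →
  ∃ Θ' : Matrix ι ι (PS ι), Θ'ᵀ = -Θ' ∧ Ham f η Θ' ∧ Grd a e d f Θ'

def S_A4W : Prop := ∀ (ι : Type) [Fintype ι] [DecidableEq ι] (f : PS ι)
  (Θ Θ' : Matrix ι ι (PS ι)) (b χ : ι → PS ι) (η : (ι → PS ι) → (ι → PS ι) → PS ι) (h : PS ι),
  Prime f → Poi f Θ → Ext f Θ → Van Θ → vf χ f = f → BEData f (thp Θ b χ) → IsForm f η →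
  Str f Θ b χ η h → Ham f η Θ' → WExt f Θ'

def S_A4 : Prop := ∀ (ι : Type) [Fintype ι] [DecidableEq ι] (f : PS ι) (Θ : Matrix ι ι (PS ι))
  (a : ι → ℚ), Hyp f → Poi f Θ → Ext f Θ → Van Θ → Sing0 f → IsHom a 1 f →
  ∃ (c : ℚ) (Θ' : Matrix ι ι (PS ι)), Poi f Θ' ∧ Grd a c 1 f Θ' ∧ WExt f Θ' ∧ Van Θ'

/-- variation of the top Pfaffian -/
def S_C0A : Prop := ∀ (ι : Type) [Fintype ι] [DecidableEq ι] (f γ l : PS ι)
  (Θ G : Matrix ι ι (PS ι)) (ξ : ι → PS ι), Prime f →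
  (∀ i j, f ∣ Θ.adjugate i j - γ * (pderiv ℂ i f * pderiv ℂ j f)) → vf ξ f = l * f →
  (∀ i j, f ∣ vf ξ (Θ i j) - (G * Θ + Θ * Gᵀ) i j) →
  (∀ k, f ∣ ∑ i, (G i k - pderiv ℂ k (ξ i)) * pderiv ℂ i f) →
  f ∣ vf ξ γ + 2 * γ * (l - G.trace)

def S_C0 : Prop := ∀ (ι : Type) [Fintype ι] [DecidableEq ι] (f : PS ι) (Θ : Matrix ι ι (PS ι))
  (a : ι → ℚ) (Q : Ideal (PS ι)), Hyp f → Poi f Θ → Grd a 0 1 f Θ → Q.IsPrime → f ∈ Q →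
  (∀ i, pderiv ℂ i f ∈ Q) → Q.height = 3 → ¬ EulerAt f Q

/-- existence of a homogeneous structure -/
def S_LIOU : Prop := ∀ (ι : Type) [Fintype ι] [DecidableEq ι] (f : PS ι) (Θ : Matrix ι ι (PS ι)),
  Hyp f → Poi f Θ → Ext f Θ → Van Θ → Sing0 f →
  ∃ (ψ : PS ι ≃ₐ[ℂ] PS ι) (Θ' : Matrix ι ι (PS ι)) (a : ι → ℚ) (d : ℚ),
    Hyp (ψ f) ∧ Poi (ψ f) Θ' ∧ WExt (ψ f) Θ' ∧ Sing0 (ψ f) ∧ Van Θ' ∧ Grd a 1 d (ψ f) Θ' ∧ d ≠ 0

/-! ### Smooth factors -/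

def S_SLICE : Prop := ∀ (κ I : Type) [Fintype κ] [DecidableEq κ] (f : PS κ)
  (v : I → Option κ → PS (Option κ)) (B : I → I → PS (Option κ)), Prime f →
  (∀ k, Log (rename some f) (v k)) → (∀ k, f ∣ killCompl .some (v k none)) →
  ExtFam (rename some f) v B →
  ExtFam f (fun k i => killCompl .some (v k (some i))) (fun k l => killCompl .some (B k l))

def S_HYPSL : Prop := ∀ (κ : Type) [Fintype κ] (f : PS κ),
  Hyp (rename some f : PS (Option κ)) → Hyp f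

def S_DARB : Prop := ∀ (ι : Type) [Fintype ι] [DecidableEq ι] (f : PS ι) (Θ : Matrix ι ι (PS ι)),
  Hyp f → Poi f Θ → Ext f Θ → ¬ Van Θ →
  ∃ (κ : Type) (_ : Fintype κ) (_ : DecidableEq κ) (ψ : PS ι ≃ₐ[ℂ] PS (Option (Option κ)))
    (u : (PS (Option (Option κ)))ˣ) (f₂ : PS κ) (Θ₂ : Matrix κ κ (PS κ)),
    Fintype.card κ + 2 = Fintype.card ι ∧ ψ f = u * rename some (rename some f₂) ∧
    Hyp f₂ ∧ Poi f₂ Θ₂ ∧ Ext f₂ Θ₂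

def S_PROD : Prop := ∀ (κ : Type) [Fintype κ] [DecidableEq κ] (f : PS κ), Prime f → Con f →
  Con (rename some (rename some f) : PS (Option (Option κ)))

def S_CONTR : Prop := ∀ (ι ι' : Type) [Fintype ι] [DecidableEq ι] [Fintype ι'] [DecidableEq ι']
  (f : PS ι) (f' : PS ι') (ψ : PS ι ≃ₐ[ℂ] PS ι') (u : (PS ι')ˣ),
  Fintype.card ι = Fintype.card ι' → Prime f → ψ f = u * f' → Con f' → Con f

def S_SMALL : Prop := ∀ (ι : Type) [Fintype ι] [DecidableEq ι] (f : PS ι)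
  (Θ : Matrix ι ι (PS ι)), Prime f → Poi f Θ → Van Θ → ¬ Sing0 f → Con f

/-! ### Positive weights -/

/-- restriction to a monomial curve -/
def S_RHO : Prop := ∀ (ι : Type) [Fintype ι] (W : ι → ℤ) (p : ι → ℂ), Adm W p →
  ∃ ρ : PS ι →ₐ[ℂ] PowerSeries ℂ,
    (∀ g (n : ℕ), PowerSeries.coeff n (ρ g) = ev p (comp W (n : ℤ) g)) ∧
    ∀ g (n : ℤ), n < 0 → ev p (comp W n g) = 0

/-- evaluation of homogeneous series -/
def S_EV : Prop := ∀ (ι : Type) [Fintype ι] (w : ι → ℚ) (p : ι → ℂ), Adm w p →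
  (∀ e g h, IsHom w e g → IsHom w e h → ev p (g + h) = ev p g + ev p h) ∧
  (∀ e e' g h, IsHom w e g → IsHom w e' h → ev p (g * h) = ev p g * ev p h) ∧
  (∀ (c : ℂ) g, ev p (C c * g) = c * ev p g) ∧ (∀ i, ev p (X i) = p i) ∧ ev p 0 = 0 ∧
  (∀ g, ev p (-g) = -ev p g) ∧
  (∀ g, ev p g ≠ 0 → ∃ α, coeff α g ≠ 0 ∧ ∀ i, α i ≠ 0 → p i ≠ 0) ∧
  ∀ (a : ι → ℚ) e e' g, IsHom w e g → IsHom a e' g →
    ∑ i, (a i : ℂ) * p i * ev p (pderiv ℂ i g) = e' * ev p g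

def S_CLT : Prop := ∀ (ι : Type) [Fintype ι] [DecidableEq ι] (f : PS ι) (Θ : Matrix ι ι (PS ι))
  (w : ι → ℚ) (w₀ d : ℚ) (p η : ι → ℂ), Hyp f → Poi f Θ → WExt f Θ → Grd w w₀ d f Θ → d ≠ 0 →
  Adm w p → ev p f = 0 → (∀ k, ∑ i, η i * ev p (Θ i k) = 0) → ∑ i, η i * (w i : ℂ) * p i = 0

def S_CDET : Prop := ∀ (ι : Type) [Fintype ι] [DecidableEq ι] (f : PS ι) (Θ : Matrix ι ι (PS ι))
  (w : ι → ℚ) (w₀ d : ℚ) (p : ι → ℂ) (i : ι), Hyp f → Poi f Θ → Grd w w₀ d f Θ → Adm w p →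
  0 < w i → ev p (pderiv ℂ i f) ≠ 0 →
  (Matrix.of fun j k : {j // j ≠ i} => ev p (Θ j k)).det ≠ 0

def S_C1 : Prop := ∀ (ι : Type) [Fintype ι] [DecidableEq ι] (f : PS ι) (Θ : Matrix ι ι (PS ι))
  (a : ι → ℚ) (d : ℚ), Prime f → Poi f Θ → WExt f Θ → Sing0 f → Grd a 1 d f Θ → d ≠ 0 →
  ∃ i, 0 < a i

/-- linear algebra of the regular element -/
def S_C2A : Prop := ∀ (ι : Type) [Fintype ι] [DecidableEq ι] (A B : Matrix ι ι ℂ) (c : ι → ℂ),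
  IsNilpotent (A - diagonal c) → (∀ i j, A i j ≠ 0 → c i = c j) →
  (∀ l : ι → ℂ, l ᵥ* A = 0 → ∀ i, c i ≠ 0 → l i = 0) ∧
  ∀ p : ι → ℂ, (∀ i j, B i j ≠ 0 → c i = c j) → p ≠ 0 → (∀ i, p i ≠ 0 → c i = 0) →
    B *ᵥ p = p →
    ∃ t : ℂ, (A + t • B).charpoly.rootMultiplicity 0 < A.charpoly.rootMultiplicity 0

def S_C2 : Prop := ∀ (ι : Type) [Fintype ι] [DecidableEq ι] (f : PS ι) (Θ : Matrix ι ι (PS ι))
  (a : ι → ℚ) (d : ℚ), Prime f → Poi f Θ → Sing0 f → Van Θ → Grd a 1 d f Θ →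
  ∃ (ψ : PS ι ≃ₐ[ℂ] PS ι) (f' : PS ι) (Θ' : Matrix ι ι (PS ι)) (c : ι → ℚ) (e : ℚ),
    Rel f Θ f' Θ' ψ ∧ Grd a 1 d f' Θ' ∧ Grd c 0 e f' Θ' ∧ NoEig a c Θ' ∧
    ((∀ i, c i = 0) ∨ ∃ i, c i = 0 ∧ a i = 1)

def S_C3 : Prop := ∀ (ι : Type) [Fintype ι] [DecidableEq ι] (f : PS ι) (Θ : Matrix ι ι (PS ι))
  (a c : ι → ℚ) (d e : ℚ), Hyp f → Poi f Θ → WExt f Θ → Sing0 f → Van Θ → Grd a 1 d f Θ →
  d ≠ 0 → Grd c 0 e f Θ → NoEig a c Θ → ((∀ i, c i = 0) ∨ ∃ i, c i = 0 ∧ a i = 1) →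
  (∀ i, 0 < a i) ∨ (e = 0 ∧ 0 < d ∧ ∃ μ σ, Mu a c μ σ)

def S_C4 : Prop := ∀ (ι : Type) [Fintype ι] [DecidableEq ι] (f : PS ι) (Θ : Matrix ι ι (PS ι))
  (a c : ι → ℚ) (d s : ℚ) (μ x₀ : ι) (σ : ι → ι), Hyp f → Poi f Θ → WExt f Θ → Van Θ →
  Grd a 1 d f Θ → 0 < d → Grd c 0 0 f Θ → Mu a c μ σ → (∀ x, 0 < c x → a x ≤ s * c x) →
  0 < c x₀ → a x₀ = s * c x₀ → ∃ τ, Low a c μ s τ

def S_C5 : Prop := ∀ (ι : Type) [Fintype ι] (a c : ι → ℚ) (μ : ι) (σ τ τ' : ι → ι) (s s' : ℚ),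
  Mu a c μ σ → Low a c μ s τ → Low a (fun i => -c i) μ s' τ' → ∃ t : ℚ, ∀ i, 0 < a i + t * c i

def S_POS : Prop := ∀ (ι : Type) [Fintype ι] [DecidableEq ι] (f : PS ι) (Θ : Matrix ι ι (PS ι))
  (a : ι → ℚ) (d : ℚ), Hyp f → Poi f Θ → WExt f Θ → Sing0 f → Van Θ → Grd a 1 d f Θ → d ≠ 0 →
  Con f

def S_MAIN : Prop := ∀ (ι : Type) [Fintype ι] [DecidableEq ι] (f : PS ι) (Θ : Matrix ι ι (PS ι)),
  Hyp f → Poi f Θ → Ext f Θ → Con f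

/-! ### The polynomial model -/

def S_D1 : Prop := ∀ (ι : Type) [Fintype ι] (a : ι → ℕ), (∀ i, 0 < a i) →
  (∀ (e : ℚ) (g : PS ι), IsHom (fun i => (a i : ℚ)) e g → ∃ g₀ : MvPolynomial ι ℂ, ↑g₀ = g) ∧
  ∀ (d : ℕ) (F : MvPolynomial ι ℂ), IsHom (fun i => (a i : ℚ)) (d : ℚ) (F : PS ι) →
    Hyp (F : PS ι) → (∀ g : MvPolynomial ι ℂ, (F : PS ι) ∣ (g : PS ι) → F ∣ g) ∧ Prime F ∧
      IsIntegrallyClosed (MvPolynomial ι ℂ ⧸ Ideal.span {F})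

/-- the rational form -/
def S_D2 : Prop := ∀ (ι : Type) [Fintype ι] [DecidableEq ι] (F : MvPolynomial ι ℂ)
  (Θ : Matrix ι ι (MvPolynomial ι ℂ)) (K : Type) [Field K] [Algebra ℂ K]
  (φ : MvPolynomial ι ℂ →ₐ[ℂ] K), (∀ g, φ g = 0 ↔ (F : PS ι) ∣ (g : PS ι)) →
  (∀ y : K, ∃ a b, y = φ a / φ b) → Prime (F : PS ι) →
  Poi (F : PS ι) (Θ.map fun g => (g : PS ι)) →
  ∃ ω : LinearMap.BilinForm K (Derivation ℂ K K), IsClosedForm ω ∧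
    (∀ (x y : Derivation ℂ K K) (ξ : ι → K), (∀ k, x (φ (.X k)) = ∑ i, ξ i * φ (Θ i k)) →
      ω x y = ∑ i, ξ i * y (φ (.X i))) ∧
    (∀ x : Derivation ℂ K K, ∃ ξ : ι → K, ∀ k, x (φ (.X k)) = ∑ i, ξ i * φ (Θ i k)) ∧
    ∀ ξ : ι → K, ∃ x : Derivation ℂ K K, ∀ k, x (φ (.X k)) = ∑ i, ξ i * φ (Θ i k)

/-- regularity along a discrete valuation -/
def S_D3 : Prop := ∀ (ι : Type) [Fintype ι] [DecidableEq ι] (F : MvPolynomial ι ℂ)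
  (Θ : Matrix ι ι (MvPolynomial ι ℂ)) (a : ι → ℕ) (w d : ℕ) (K : Type) [Field K] [Algebra ℂ K]
  (φ : MvPolynomial ι ℂ →ₐ[ℂ] K), (∀ g, φ g = 0 ↔ (F : PS ι) ∣ (g : PS ι)) → (∀ i, 0 < a i) →
  Prime (F : PS ι) → Poi (F : PS ι) (Θ.map fun g => (g : PS ι)) →
  Grd (fun i => (a i : ℚ)) w d (F : PS ι) (Θ.map fun g => (g : PS ι)) →
  EExt (F : PS ι) (Θ.map fun g => (g : PS ι)) (eul fun i => (a i : ℚ)) →
  ∀ (v : DV K) (x y : Derivation ℂ K K) (ξ : ι → K), (∀ g, v.Ge 0 (φ g)) →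
    (∀ z, v.Ge 0 z → v.Ge 0 (x z)) → (∀ z, v.Ge 0 z → v.Ge 0 (y z)) →
    (∀ k, x (φ (.X k)) = ∑ i, ξ i * φ (Θ i k)) → v.Ge 0 (∑ i, ξ i * y (φ (.X i)))

def S_D4 : Prop := ∀ (ι : Type) [Fintype ι] [DecidableEq ι] (f : PS ι), Hyp f → Con f →
  ∃ (F : MvPolynomial ι ℂ) (a : ι → ℕ) (ψ : PS ι ≃ₐ[ℂ] PS ι) (u : (PS ι)ˣ),
    ψ f = u * (F : PS ι) ∧ (∀ i, 0 < a i) ∧
    ∃ (K : Type) (_ : Field K) (_ : Algebra ℂ K) (φ : MvPolynomial ι ℂ →ₐ[ℂ] K)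
      (ω₀ : LinearMap.BilinForm K (Derivation ℂ K K)) (𝒢 : ℕ → Submodule ℂ φ.range),
      RingHom.ker φ = Ideal.span {F} ∧ IsConicalSymplectic φ.range ω₀ 𝒢 ∧
        ∀ i, φ.rangeRestrict (.X i) ∈ 𝒢 (a i)

end Pool.Agent.MP_51db15_ag.Hy
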