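import Pool.Agent.MP_51db15_ag.Defs
import Mathlib.RingTheory.Valuation.ValuationSubring

/-! Symplectic forms on a complete local ring, written on its module of derivations. -/

namespace Pool.Agent.MP_51db15_ag.Hy

variable {R : Type} [CommRing R] [Algebra ℂ R]

/-- `ω` is alternating, closed (Cartan formula) and non-degenerate: every `dg` is `ω (X, ·)`. -/
def IsSymplecticForm (ω : LinearMap.BilinForm R (Derivation ℂ R R)) : Prop :=
  ω.IsAlt ∧ (∀ X Y Z : Derivation ℂ R R,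
    X (ω Y Z) - Y (ω X Z) + Z (ω X Y) - ω ⁅X, Y⁆ Z + ω ⁅X, Z⁆ Y - ω ⁅Y, Z⁆ X = 0) ∧
      ∀ g : R, ∃ X : Derivation ℂ R R, ∀ Y, ω X Y = Y g

/-- `ω` is a finite sum of forms `c dy ∧ dz` with `c, y, z` in the valuation ring `V` of the
fraction field. -/
def KaehlerOn [IsDomain R] (ω : LinearMap.BilinForm R (Derivation ℂ R R))
    (V : ValuationSubring (FractionRing R)) : Prop :=
  ∃ (n : ℕ) (c y z : Fin n → FractionRing R), (∀ s, c s ∈ V ∧ y s ∈ V ∧ z s ∈ V) ∧
    ∀ (X Y : Derivation ℂ R R) (X' Y' : Derivation ℂ (FractionRing R) (FractionRing R)),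
      (∀ r, X' (algebraMap R _ r) = algebraMap R _ (X r)) →
      (∀ r, Y' (algebraMap R _ r) = algebraMap R _ (Y r)) →
        algebraMap R _ (ω X Y) = ∑ s, c s * (X' (y s) * Y' (z s) - X' (z s) * Y' (y s))

end Pool.Agent.MP_51db15_ag.Hy
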