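import Mathlib
import Pool.Agent.MP_51db15_ag.Krull
import Pool.Agent.MP_51db15_ag.Hy.Stmt

/-! Internal definitions and the statements of the steps of the hypersurface case. -/

namespace Pool.Agent.MP_51db15_ag.Hy

open MvPowerSeries Matrix

abbrev PS (ι : Type) : Type := MvPowerSeries ι ℂ

section General

variable {F : Type} [CommRing F] {ι : Type} [Fintype ι]

/-- the vector field with components `v` -/
noncomputable def vf (v : ι → MvPowerSeries ι F) :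
    Derivation F (MvPowerSeries ι F) (MvPowerSeries ι F) := ∑ i, v i • pderiv F i

/-- components of the commutator -/
noncomputable def lie (v w : ι → MvPowerSeries ι F) : ι → MvPowerSeries ι F :=
  fun k => vf v (w k) - vf w (v k)

/-- weighted homogeneous series -/
def IsHom {M : Type} [AddCommMonoid M] (a : ι → M) (e : M) (g : MvPowerSeries ι F) : Prop :=
  ∀ α, coeff α g ≠ 0 → Finsupp.weight a α = e

open Classical in
/-- weighted homogeneous component -/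
noncomputable def comp {M : Type} [AddCommMonoid M] (a : ι → M) (e : M)
    (g : MvPowerSeries ι F) : MvPowerSeries ι F :=
  fun α => if Finsupp.weight a α = e then coeff α g else 0

/-- the linear part of a vector field -/
noncomputable def lin (v : ι → MvPowerSeries ι F) : Matrix ι ι F :=
  Matrix.of fun i j => coeff (Finsupp.single j 1) (v i)

/-- an Euler field vanishing at the origin whose divergence is not the multiplier -/
def Eu (G : MvPowerSeries ι F) : Prop :=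
  ∃ (ξ : ι → MvPowerSeries ι F) (l : MvPowerSeries ι F), (∀ i, constantCoeff (ξ i) = 0) ∧
    IsUnit l ∧ vf ξ G = l * G ∧ constantCoeff (∑ i, pderiv F i (ξ i) - l) ≠ 0

/-- the monic polynomial in the first variable with coefficients `c` -/
noncomputable def wpoly {n k : ℕ} (c : Fin k → MvPowerSeries (Fin n) F) :
    MvPowerSeries (Fin (n + 1)) F :=
  X 0 ^ k + ∑ i : Fin k, rename Fin.succ (c i) * X 0 ^ (i : ℕ)

/-- the weight test for a surface equation -/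
def Test (G : MvPowerSeries (Fin 3) F) : Prop :=
  ∀ (ψ : MvPowerSeries (Fin 3) F ≃ₐ[F] MvPowerSeries (Fin 3) F) (u : (MvPowerSeries (Fin 3) F)ˣ)
    (k a₁ a₂ a₃ : ℕ) (c : Fin k → MvPowerSeries (Fin 2) F), 0 < k → 0 < a₁ → 0 < a₂ → 0 < a₃ →
    ψ G = (u : MvPowerSeries (Fin 3) F) * wpoly c →
    (∀ i : Fin k, (((k - i) * a₃ : ℕ) : ℕ∞) ≤ (c i).weightedOrder ![a₁, a₂]) →
      (k - 1) * a₃ < a₁ + a₂

end General

section Complex

variable {ι : Type} [Fintype ι] [DecidableEq ι]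

/-- Euler field of rational weights -/
noncomputable def eul (a : ι → ℚ) : ι → PS ι := fun i => C (a i : ℂ) * X i

/-- the bracket of a bivector -/
noncomputable def br (Θ : Matrix ι ι (PS ι)) (g h : PS ι) : PS ι :=
  ∑ i, pderiv ℂ i g * vf (Θ i) h

/-- components of the Hamiltonian field -/
noncomputable def ham (Θ : Matrix ι ι (PS ι)) (g : PS ι) : ι → PS ι := fun k => br Θ g (X k)

/-- prime equation, normal quotient -/
def Hyp (f : PS ι) : Prop := Prime f ∧ IsIntegrallyClosed (PS ι ⧸ Ideal.span {f})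

/-- fields tangent to the hypersurface -/
def Log (f : PS ι) (v : ι → PS ι) : Prop := f ∣ vf v f

/-- the origin is a critical point -/
def Sing0 (f : PS ι) : Prop := ∀ i, constantCoeff (pderiv ℂ i f) = 0

/-- the bivector vanishes at the origin -/
def Van (Θ : Matrix ι ι (PS ι)) : Prop := ∀ i j, constantCoeff (Θ i j) = 0

/-- Poisson structure on the hypersurface, non-degenerate on the smooth part -/
structure Poi (f : PS ι) (Θ : Matrix ι ι (PS ι)) : Prop where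
  skew : Θᵀ = -Θ
  tang : ∀ i, Log f (Θ i)
  jac : ∀ i j k, f ∣ vf (Θ i) (Θ j k) + vf (Θ j) (Θ k i) + vf (Θ k) (Θ i j)
  nd : ∃ γ : PS ι, IsUnit γ ∧ ∀ i j, f ∣ Θ.adjugate i j - γ * (pderiv ℂ i f * pderiv ℂ j f)

/-- the Pfaffian vector -/
structure PiData (f : PS ι) (Θ : Matrix ι ι (PS ι)) (π : ι → PS ι) (g : PS ι) (b : ι → PS ι) :
    Prop where
  skew : Θᵀ = -Θ
  adj : ∃ c : PS ι, IsUnit c ∧ Θ.adjugate = c • vecMulVec π π
  ker : Θ *ᵥ π = 0
  unit : IsUnit g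
  grad : ∀ i, pderiv ℂ i f = g * π i + f * b i

/-- the corrected bivector that kills the gradient -/
noncomputable def thp (Θ : Matrix ι ι (PS ι)) (b χ : ι → PS ι) : Matrix ι ι (PS ι) :=
  Matrix.of fun i j => Θ i j - (Θ *ᵥ b) i * χ j + χ i * (Θ *ᵥ b) j

/-- homogeneous equation and bivector -/
def Grd (a : ι → ℚ) (c d : ℚ) (f : PS ι) (Θ : Matrix ι ι (PS ι)) : Prop :=
  IsHom a d f ∧ ∀ i j, IsHom a (a i + a j - c) (Θ i j)

/-- homogeneous vector field -/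
def HomV (a : ι → ℚ) (e : ℚ) (v : ι → PS ι) : Prop := ∀ i, IsHom a (a i + e) (v i)

section Val

variable {κ : Type} [Field κ] [Algebra ℂ κ]

/-- derivative of a fraction along a field -/
noncomputable def dfr (φ : PS ι →ₐ[ℂ] κ) (v : ι → PS ι) (a b : PS ι) : κ :=
  (φ (vf v a) * φ b - φ a * φ (vf v b)) / φ b ^ 2

/-- gradient of a fraction -/
noncomputable def dq (φ : PS ι →ₐ[ℂ] κ) (a b : PS ι) : ι → κ :=
  fun k => (φ (pderiv ℂ k a) * φ b - φ a * φ (pderiv ℂ k b)) / φ b ^ 2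

/-- the kernel is generated by the equation -/
def KerIs (f : PS ι) (φ : PS ι →ₐ[ℂ] κ) : Prop := ∀ g, φ g = 0 ↔ f ∣ g

/-- the pairing `B` of the fields `v` is a Kaehler two-form over `V` -/
def Kae (φ : PS ι →ₐ[ℂ] κ) {I : Type} (v : I → ι → PS ι) (B : I → I → PS ι)
    (V : ValuationSubring κ) : Prop :=
  ∃ (S : Type) (_ : Fintype S) (c : S → κ) (a b a' b' : S → PS ι),
    (∀ s, c s ∈ V ∧ φ (b s) ≠ 0 ∧ φ (b' s) ≠ 0 ∧ φ (a s) / φ (b s) ∈ V ∧
      φ (a' s) / φ (b' s) ∈ V) ∧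
    ∀ k l, φ (B k l) = ∑ s, c s * (dfr φ (v k) (a s) (b s) * dfr φ (v l) (a' s) (b' s) -
      dfr φ (v k) (a' s) (b' s) * dfr φ (v l) (a s) (b s))

/-- working form of `Kae` -/
def KaeW (f : PS ι) (φ : PS ι →ₐ[ℂ] κ) (Θ : Matrix ι ι (PS ι)) (V : ValuationSubring κ) : Prop :=
  ∃ (S : Type) (_ : Fintype S) (c : S → κ) (a b a' b' : S → PS ι),
    (∀ s, c s ∈ V ∧ φ (b s) ≠ 0 ∧ φ (b' s) ≠ 0 ∧ φ (a s) / φ (b s) ∈ V ∧
      φ (a' s) / φ (b' s) ∈ V) ∧
    ∀ ξ x y : ι → κ, (∀ k, x k = ∑ i, ξ i * φ (Θ i k)) → ∑ k, φ (pderiv ℂ k f) * y k = 0 →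
      ∑ i, ξ i * y i = ∑ s, c s * (dq φ (a s) (b s) ⬝ᵥ x * dq φ (a' s) (b' s) ⬝ᵥ y -
        dq φ (a' s) (b' s) ⬝ᵥ x * dq φ (a s) (b s) ⬝ᵥ y)

/-- the field preserves the fractions in `V` -/
def Inv (φ : PS ι →ₐ[ℂ] κ) (v : ι → PS ι) (V : ValuationSubring κ) : Prop :=
  ∀ a b, φ b ≠ 0 → φ a / φ b ∈ V → dfr φ v a b ∈ V

end Val

/-- extension property for a family of fields -/
def ExtFam (f : PS ι) {I : Type} (v : I → ι → PS ι) (B : I → I → PS ι) : Prop :=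
  ∀ (κ : Type) [Field κ] [Algebra ℂ κ] (φ : PS ι →ₐ[ℂ] κ), KerIs f φ →
    ∀ V : ValuationSubring κ, (∀ g, φ g ∈ V) → Kae φ v B V

/-- extension property on all valuation rings -/
def Ext (f : PS ι) (Θ : Matrix ι ι (PS ι)) : Prop := ExtFam f (fun i => Θ i) (fun i j => Θ i j)

/-- extension property on the valuation rings preserved by `e` -/
def EExt (f : PS ι) (Θ : Matrix ι ι (PS ι)) (e : ι → PS ι) : Prop :=
  ∀ (κ : Type) [Field κ] [Algebra ℂ κ] (φ : PS ι →ₐ[ℂ] κ), KerIs f φ →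
    ∀ V : ValuationSubring κ, (∀ g, φ g ∈ V) → Inv φ e V →
      Kae φ (fun i => Θ i) (fun i j => Θ i j) V

/-- Euler field of the equation -/
def IsEuler (f : PS ι) (v : ι → PS ι) : Prop :=
  (∀ i, constantCoeff (v i) = 0) ∧ ∃ l, IsUnit l ∧ vf v f = l * f

/-- extension property on the valuation rings preserved by some Euler field -/
def WExt (f : PS ι) (Θ : Matrix ι ι (PS ι)) : Prop := ∀ e, IsEuler f e → EExt f Θ e

/-- transport along a change of coordinates -/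
def Rel {ι' : Type} [Fintype ι'] (f : PS ι) (Θ : Matrix ι ι (PS ι)) (f' : PS ι')
    (Θ' : Matrix ι' ι' (PS ι')) (ψ : PS ι ≃ₐ[ℂ] PS ι') : Prop :=
  (∃ u : (PS ι')ˣ, ψ f = u * f') ∧ Θ'ᵀ = -Θ' ∧
    ∀ i j, f' ∣ Θ' i j - ψ (br Θ (ψ.symm (X i)) (ψ.symm (X j)))

/-- the transported bivector -/
noncomputable def tr {ι' : Type} (ψ : PS ι ≃ₐ[ℂ] PS ι') (Θ : Matrix ι ι (PS ι)) :
    Matrix ι' ι' (PS ι') := Matrix.of fun i j => ψ (br Θ (ψ.symm (X i)) (ψ.symm (X j)))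

/-- formally conical -/
def Con (f : PS ι) : Prop :=
  ∃ (ψ : PS ι ≃ₐ[ℂ] PS ι) (u : (PS ι)ˣ) (F : PS ι) (Θ : Matrix ι ι (PS ι)) (a : ι → ℕ)
    (w d : ℕ), ψ f = u * F ∧ (∀ i, 0 < a i) ∧ 0 < w ∧ Poi F Θ ∧
      Grd (fun i => (a i : ℚ)) w d F Θ ∧ EExt F Θ (eul fun i => (a i : ℚ))

/-- a skew bilinear pairing of tangent fields, modulo the equation -/
structure IsForm (f : PS ι) (r : (ι → PS ι) → (ι → PS ι) → PS ι) : Prop where
  cong : ∀ x x' y, Log f x → Log f x' → Log f y → (∀ k, f ∣ x k - x' k) → f ∣ r x y - r x' y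
  add : ∀ x x' y, Log f x → Log f x' → Log f y → f ∣ r (x + x') y - r x y - r x' y
  smul : ∀ (g : PS ι) x y, Log f x → Log f y → f ∣ r (g • x) y - g * r x y
  skew : ∀ x y, Log f x → Log f y → f ∣ r x y + r y x

/-- Cartan formula -/
def Closed (f : PS ι) (r : (ι → PS ι) → (ι → PS ι) → PS ι) : Prop :=
  ∀ x y z, Log f x → Log f y → Log f z →
    f ∣ vf x (r y z) - vf y (r x z) + vf z (r x y) - r (lie x y) z + r (lie x z) y - r (lie y z) x

/-- the rows of `Θ` are the Hamiltonian fields of the coordinates -/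
def Ham (f : PS ι) (r : (ι → PS ι) → (ι → PS ι) → PS ι) (Θ : Matrix ι ι (PS ι)) : Prop :=
  ∀ i, Log f (Θ i) ∧ ∀ y, Log f y → f ∣ r (Θ i) y - y i

/-- `η` is the component of weight `e` of `r` -/
def IsComp (f : PS ι) (a : ι → ℚ) (e : ℚ) (r η : (ι → PS ι) → (ι → PS ι) → PS ι) : Prop :=
  ∀ x y e₁ e₂, Log f x → Log f y → HomV a e₁ x → HomV a e₂ y →
    f ∣ η x y - comp a (e₁ + e₂ + e) (r x y)

/-- structure of a two-form on the Hamiltonian fields -/
def Str (f : PS ι) (Θ : Matrix ι ι (PS ι)) (b χ : ι → PS ι)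
    (η : (ι → PS ι) → (ι → PS ι) → PS ι) (h : PS ι) : Prop :=
  ∃ (α : Matrix ι ι (PS ι)) (ε : ι → PS ι), αᵀ = -α ∧ ∀ i j,
    f ∣ η (Θ j) (Θ i) - (h * thp Θ b χ i j + (thp Θ b χ * α * thp Θ b χ) i j +
      (thp Θ b χ *ᵥ ε) i * χ j - χ i * (thp Θ b χ *ᵥ ε) j)

/-- tangent fields as a submodule -/
def logM (f : PS ι) : Submodule (PS ι) (ι → PS ι) where
  carrier := {v | Log f v}
  add_mem' := by
    intro x y hx hy
    have : vf (x + y) f = vf x f + vf y f := by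
      simp [vf, add_smul, Finset.sum_add_distrib]
    simp only [Set.mem_ofPred_eq, Log, this]
    exact dvd_add hx hy
  zero_mem' := by simp [Log, vf]
  smul_mem' := by
    intro g x hx
    have : vf (g • x) = g • vf x := by
      simp [vf, Finset.smul_sum, mul_smul]
    simp only [Set.mem_ofPred_eq, Log, this, Derivation.smul_apply, smul_eq_mul]
    exact Dvd.dvd.mul_left hx g

/-- the exactness data for the gradient -/
structure BEData (f : PS ι) (T : Matrix ι ι (PS ι)) : Prop where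
  skew : Tᵀ = -T
  z0 : T *ᵥ (fun i => pderiv ℂ i f) = 0
  z1 : ∀ v, vf v f = 0 → ∃ η, v = T *ᵥ η
  z2 : ∀ v, T *ᵥ v = 0 → ∃ r, ∀ i, v i = r * pderiv ℂ i f
  ht : 3 ≤ (Ideal.span (Set.range fun i => pderiv ℂ i f)).height

/-- Jacobian criterion data at a prime -/
def Nag (Q : Ideal (PS ι)) (u : ι → PS ι) (S : Finset ι) : Prop :=
  (Matrix.of fun i j => pderiv ℂ j (u i)).det ∉ Q ∧ (∀ i ∈ S, u i ∈ Q) ∧
    ∀ h ∈ Q, ∃ s ∉ Q, s * h ∈ Ideal.span (u '' S)

/-- Taylor expansion at a prime -/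
structure Tay (Q : Ideal (PS ι)) {σ J L : Type} [Fintype σ] [Fintype J] [Field L] [Algebra ℂ L]
    (τ : PS ι →+* MvPowerSeries σ L) (δ : J → MvPowerSeries σ L →+ MvPowerSeries σ L) :
    Prop where
  alg : ∀ c : ℂ, τ (C c) = C (algebraMap ℂ L c)
  ker : ∀ g, constantCoeff (τ g) = 0 ↔ g ∈ Q
  dense : ∀ (r : ℕ) (G : MvPowerSeries σ L), ∃ a s, s ∉ Q ∧ (r : ℕ∞) ≤ (τ a - τ s * G).order
  pow : ∀ (r : ℕ) g, (r : ℕ∞) ≤ (τ g).order → ∃ s ∉ Q, s * g ∈ Q ^ r
  leib : ∀ j, Leib (δ j)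
  const : ∀ j c, ∃ c', δ j (C c) = C c'
  cplx : ∀ j (c : ℂ), δ j (C (algebraMap ℂ L c)) = 0
  mx : ∀ j G, constantCoeff G = 0 → constantCoeff (δ j G) = 0
  chain1 : ∀ i g, pderiv L i (τ g) = ∑ k, τ (pderiv ℂ k g) * pderiv L i (τ (X k))
  chain2 : ∀ j g, δ j (τ g) = ∑ k, τ (pderiv ℂ k g) * δ j (τ (X k))
  det : ∃ e : ι ≃ σ ⊕ J, IsUnit (Matrix.of fun a b : ι =>
    Sum.elim (fun i => pderiv L i (τ (X b))) (fun j => δ j (τ (X b))) (e a)).det

/-- an Euler field along a component of the singular locus -/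
def EulerAt (f : PS ι) (Q : Ideal (PS ι)) : Prop :=
  ∃ (ξ : ι → PS ι) (l : PS ι), (∀ i, ξ i ∈ Q) ∧ l ∉ Q ∧ vf ξ f = l * f ∧
    ∑ i, pderiv ℂ i (ξ i) - l ∉ Q

/-- value of a homogeneous series at a point -/
noncomputable def ev (p : ι → ℂ) (g : PS ι) : ℂ :=
  ∑ᶠ α : ι →₀ ℕ, coeff α g * α.prod fun i n => p i ^ n

/-- the weights are positive on the support of the point -/
def Adm {M : Type} [Zero M] [LT M] (w : ι → M) (p : ι → ℂ) : Prop := ∀ i, p i ≠ 0 → 0 < w i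

/-- no eigenvector of eigenvalue one in the zero weight space -/
def NoEig (a c : ι → ℚ) (Θ : Matrix ι ι (PS ι)) : Prop :=
  ∀ ζ p : ι → ℂ, (∀ j, ζ j ≠ 0 → a j = 1 ∧ c j = 0) → (∀ i, p i ≠ 0 → c i = 0) →
    (∀ k, ∑ j, ∑ i, ζ j * coeff (Finsupp.single i 1) (Θ j k) * p i = p k) → p = 0

/-- one coordinate of weight zero and a matching of the others -/
structure Mu (a c : ι → ℚ) (μ : ι) (σ : ι → ι) : Prop where
  c0 : c μ = 0
  a1 : a μ = 1
  ne : ∀ i, i ≠ μ → c i ≠ 0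
  mat : ∀ j, j ≠ μ → σ j ≠ μ ∧ c (σ j) = -c j ∧ 2 ≤ a j + a (σ j)
  inj : Set.InjOn σ {j | j ≠ μ}

/-- the level lowering injection -/
def Low (a c : ι → ℚ) (μ : ι) (s : ℚ) (τ : ι → ι) : Prop :=
  Set.InjOn τ {x | 0 < c x} ∧ ∀ x, 0 < c x → (τ x = μ ∨ c (τ x) < 0) ∧
    (a (τ x) - s * c (τ x)) + (a x - s * c x) = 1 ∧ 0 < c (τ x) + c x

end Complex

end Pool.Agent.MP_51db15_ag.Hy
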