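import Pool.Agent.MP_51db15_ag.Hy.Rows

/-! The weight test in arbitrary coordinates. -/

set_option linter.unusedSectionVars false

namespace Pool.Agent.MP_51db15_ag.Hy

open MvPowerSeries Matrix

namespace VT

variable {L σ : Type} [Field L] [Fintype σ] [DecidableEq σ]

theorem pd_X (i l : σ) : pderiv L i (X l : MvPowerSeries σ L) = if i = l then 1 else 0 := by
  split_ifs with h
  · rw [h, pderiv_X_self]
  · exact pderiv_X_of_ne (Ne.symm h)

/-- the transported derivation, corrected so that it kills the variables -/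
noncomputable def cor (ψ : MvPowerSeries σ L ≃ₐ[L] MvPowerSeries σ L)
    (d : MvPowerSeries σ L →+ MvPowerSeries σ L) : MvPowerSeries σ L →+ MvPowerSeries σ L where
  toFun G := ψ (d (ψ.symm G)) - ∑ i, ψ (d (ψ.symm (X i))) * pderiv L i G
  map_zero' := by simp
  map_add' a b := by
    simp only [map_add, mul_add, Finset.sum_add_distrib]
    ring

theorem cor_apply (ψ : MvPowerSeries σ L ≃ₐ[L] MvPowerSeries σ L)
    (d : MvPowerSeries σ L →+ MvPowerSeries σ L) (G : MvPowerSeries σ L) :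
    cor ψ d G = ψ (d (ψ.symm G)) - ∑ i, ψ (d (ψ.symm (X i))) * pderiv L i G := rfl

theorem cor_X (ψ : MvPowerSeries σ L ≃ₐ[L] MvPowerSeries σ L)
    (d : MvPowerSeries σ L →+ MvPowerSeries σ L) (l : σ) : cor ψ d (X l) = 0 := by
  simp [cor_apply, pd_X]

theorem map_C (ψ : MvPowerSeries σ L ≃ₐ[L] MvPowerSeries σ L) (c : L) : ψ (C c) = C c :=
  ψ.commutes c

theorem tay (p3 : S_P3) {ι J : Type} [Fintype ι] [DecidableEq ι] [Fintype J] [Algebra ℂ L]
    {Q : Ideal (PS ι)} {τ : PS ι →+* MvPowerSeries σ L}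
    {δ : J → MvPowerSeries σ L →+ MvPowerSeries σ L} (h : Tay Q τ δ)
    (ψ : MvPowerSeries σ L ≃ₐ[L] MvPowerSeries σ L) :
    Tay Q ((ψ : MvPowerSeries σ L →+* MvPowerSeries σ L).comp τ) fun j => cor ψ (δ j) := by
  classical
  have c1 : ∀ g, constantCoeff (ψ g) = constantCoeff g := (p3.1 L σ σ ψ).1
  have o1 : ∀ g, g.order ≤ (ψ g).order := (p3.1 L σ σ ψ).2.1
  have ch : ∀ g j, pderiv L j (ψ g) = ∑ i, ψ (pderiv L i g) * pderiv L j (ψ (X i)) :=
    (p3.1 L σ σ ψ).2.2.1
  have c2 : ∀ g, constantCoeff (ψ.symm g) = constantCoeff g := (p3.1 L σ σ ψ.symm).1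
  have o2 : ∀ g, g.order ≤ (ψ.symm g).order := (p3.1 L σ σ ψ.symm).2.1
  have ch1 : ∀ i g, pderiv L i (ψ (τ g)) =
      ∑ k, ψ (τ (pderiv ℂ k g)) * pderiv L i (ψ (τ (X k))) := fun i g => by
    simp only [ch (τ _) i, h.chain1 _ g, map_sum, map_mul, Finset.sum_mul, Finset.mul_sum,
      mul_assoc]
    exact Finset.sum_comm
  refine ⟨fun c => ?_, fun g => ?_, fun r G => ?_, fun r g hg => ?_, fun j a b => ?_,
    fun j c => ?_, fun j c => ?_, fun j G hG => ?_, ch1, fun j g => ?_, ?_⟩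
  · simp [h.alg, map_C]
  · simp [c1, h.ker]
  · obtain ⟨a, s, hs, ho⟩ := h.dense r (ψ.symm G)
    exact ⟨a, s, hs, by simpa using ho.trans (o1 _)⟩
  · exact h.pow r g (by simpa using hg.trans (o2 _))
  · simp only [cor_apply, map_mul, h.leib j _ _, map_add, AlgEquiv.apply_symm_apply,
      Derivation.leibniz, smul_eq_mul, mul_add, Finset.sum_add_distrib, mul_sub, Finset.mul_sum,
      mul_left_comm]
    ring
  · obtain ⟨c', hc⟩ := h.const j c
    exact ⟨c', by simp [cor_apply, map_C, hc]⟩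
  · simp [cor_apply, map_C, h.cplx]
  · have h1 : ∀ G, constantCoeff G = 0 → constantCoeff (ψ (δ j (ψ.symm G))) = 0 := fun G hG => by
      rw [c1]
      exact h.mx j _ (by rw [c2, hG])
    simp [cor_apply, h1 G hG, h1 (X _) (constantCoeff_X _)]
  · simp only [cor_apply, RingHom.comp_apply, RingHom.coe_coe, AlgEquiv.symm_apply_apply,
      h.chain2 j g, ch1 _ g, map_sum, map_mul, mul_sub, Finset.sum_sub_distrib, Finset.mul_sum,
      mul_left_comm]
    rw [Finset.sum_comm]
  · obtain ⟨e, he⟩ := h.det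
    refine ⟨e, ?_⟩
    let Jc : Matrix σ σ (MvPowerSeries σ L) := Matrix.of fun i l => pderiv L i (ψ (X l))
    have hJ : IsUnit Jc.det := by
      refine Matrix.isUnit_det_of_right_inverse
        (B := Matrix.of fun l l' => ψ (pderiv L l (ψ.symm (X l')))) ?_
      ext1 i l
      have := ch (ψ.symm (X l)) i
      rw [AlgEquiv.apply_symm_apply, pd_X] at this
      simp only [Matrix.mul_apply, Jc, Matrix.of_apply, Matrix.one_apply, this, mul_comm]
    let m : Matrix J σ (MvPowerSeries σ L) := Matrix.of fun j i => -ψ (δ j (ψ.symm (X i)))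
    have hN : IsUnit ((fromBlocks Jc 0 (m * Jc) 1).submatrix e e).det := by
      rwa [det_submatrix_equiv_self, det_fromBlocks_zero₁₂, det_one, mul_one]
    have hM := he.map (ψ : MvPowerSeries σ L →+* MvPowerSeries σ L)
    rw [RingHom.map_det] at hM
    have := hN.mul hM
    rw [← det_mul] at this
    refine (congrArg (fun M => IsUnit (det M)) ?_).mp this
    ext1 a b
    rw [Matrix.mul_apply]
    simp only [submatrix_apply, RingHom.mapMatrix_apply, map_apply, of_apply, RingHom.coe_coe,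
      RingHom.comp_apply]
    rw [e.sum_comp fun x => fromBlocks Jc 0 (m * Jc) 1 (e a) x * ψ (Sum.elim
      (fun i => pderiv L i (τ (X b))) (fun j => δ j (τ (X b))) x), Fintype.sum_sum_type]
    rcases e a with i | j
    · simp [Jc, ch (τ _) i, mul_comm]
    · simp only [fromBlocks_apply₂₁, fromBlocks_apply₂₂, Sum.elim_inl, Sum.elim_inr, cor_apply,
        AlgEquiv.symm_apply_apply, Matrix.one_apply, ite_mul, one_mul, zero_mul,
        Finset.sum_ite_eq, Finset.mem_univ, if_true, Matrix.mul_apply, m, Jc, of_apply,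
        ch (τ _), Finset.sum_mul, Finset.mul_sum]
      rw [Finset.sum_comm, sub_eq_neg_add, ← Finset.sum_neg_distrib]
      congr 1
      refine Finset.sum_congr rfl fun i _ => ?_
      rw [← Finset.sum_neg_distrib]
      exact Finset.sum_congr rfl fun l _ => by ring

end VT

theorem vt (p3 : S_P3) (vt0 : S_VT0) : S_VT := by
  intro ι _ _ f Θ Q J L _ _ _ τ δ hf hp hx hQ hr ht ψ u k a₁ a₂ a₃ c hk h1 h2 h3 hψ hc
  exact vt0 ι f Θ Q J L _ _ hf hp hx hQ hr (VT.tay p3 ht ψ) (fun j i => VT.cor_X ψ (δ j) i)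
    u k a₁ a₂ a₃ c hk h1 h2 h3 hψ hc

end Pool.Agent.MP_51db15_ag.Hy
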